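import Pool.Agent.Lib.MP_32d917_al_raag.A01

/-!
# A02: group theoretic characterisation of powers of conjugates of generators, second half

`dbl`: for `s ≠ t` not adjacent and `n > 0`, with `a = gen s ^ n`, `b = gen t ^ n`, the elements `k = [a, b]` and `k1 = [a ^ 2, b]` do not commute. Map `RA Γ` to
`SL(2, ℤ)` or to `GL (Fin 2) ℤ` (or to permutations of `ℤ × ℤ`, or to `Matrix (Fin 2) (Fin 2) ℤ` units): `gen s ↦ !![1,1;0,1]`, `gen t ↦ !![1,0;1,1]`, the other generators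
to `1` (`ra_lift`: adjacent pairs are not `{s, t}`). Then `a ↦ !![1,n;0,1]`, `b ↦ !![1,0;n,1]` and one compares entries of the two products (polynomials in `n`).

`qp_of_gen`: the main point is `key`: let `K` be a normal subgroup of finite index of `RA Γ`, `v` a vertex and let `y : RA Γ` commute with all commutators of elements of
`K ⊓ PP Γ (lk Γ v)`. Then `y` is a power of `gen v`. Proof. `NoDom Γ`.
(1) `y = w * y' * w⁻¹`, `Cr y'`, `S' = sup y'`. Claim `S' ⊆ {v}`. Let `v' ∈ S'`, `v' ≠ v`. By `NoDom v v'` there is `s ∈ lk Γ v` with `s ∉ st Γ v'`, and by `NoDom v s` there is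
`t ∈ lk Γ v`, `t ∉ st Γ s`. Let `n > 0` with `gen s ^ n, gen t ^ n ∈ K`, `a`, `b`, `k = [a, b]`, `k1 = [a ^ 2, b]`. Both commute with `y`, so by `cmr_lk` (after conjugation with `w`)
`k2 = [k, k1] ∈ w * PP Γ (lk Γ v') * w⁻¹`. Apply the retraction `ret Γ {s, t}`: it fixes `k2`, and maps `PP Γ (lk Γ v')` into `PP Γ (lk Γ v' ∩ {s, t}) ⊆ PP Γ {t}` (as
`s ∉ lk Γ v'`; `ret_ret` and `mem_iff_ret`). So `k2 = r * gen t ^ j * r⁻¹`; exponent sum of `t` (`ab Γ t`, it vanishes on commutators): `j = 0`, so `k2 = 1`, contradiction to `dbl`.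
(2) So `y' ∈ PP Γ {v}`, `y' = gen v ^ m`; if `m = 0` then `y = 1` and we are done. By `gate_lr (st Γ v) (st Γ v) w`: `w = p * w0 * q`; `q` commutes with `gen v`, so
`y = p * (w0 * gen v ^ m * w0⁻¹) * p⁻¹`. Write `p = gen v ^ i * p'` with `p' ∈ PP Γ (lk Γ v)` (`st_dec`). Let `y0 = w0 * gen v ^ m * w0⁻¹ = p⁻¹ * y * p`. It commutes with all commutators of
elements of `K ⊓ PP Γ (lk Γ v)`, since this subgroup is normalised by `p` (`gen v` commutes with it, `p'` is in `PP Γ (lk Γ v)`, `K` is normal). Claim: `w0 = 1`. Otherwise `w0` has a left letter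
`c`, `u = c.1 ∉ st Γ v`. By `NoDom v u` there is `s ∈ lk Γ v`, `s ∉ st Γ u`, and by `NoDom v s` there is `t ∈ lk Γ v`, `t ∉ st Γ s`. Let `k = [gen s ^ n, gen t ^ n]` as before (in `K`),
`sup k = {s, t}` (see `cm_sup`). `k` commutes with `y0`, so `w0⁻¹ * k * w0` commutes with `gen v ^ m` and is in `PP Γ (st Γ v)` (`cen_gen`). By `gate_l {z | z ∈ lk Γ s ∧ z ∈ lk Γ t} w0`:
`w0 = p1 * w2`, `Rp p1 w2`; `p1` commutes with `k` (`pp_comm`), so `w2⁻¹ * k * w2 ∈ PP Γ (st Γ v)`. The products `w2⁻¹ * k` and `(w2⁻¹ * k) * w2` are reduced: a left letter `e` of `w2` is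
not in both links. First product: `Rt w2⁻¹ e'`, `Lf k (ivl e')`, so `Lf w2 (ivl e')`, `e'.1 ∈ {s, t}`: here we need more: see below. So `sup w2 ⊆ st Γ v`. If `w2 ≠ 1`, a right letter of `w2` is a right
letter of `w0` (`rt_mul`) with type in `st Γ v`: contradiction. So `w2 = 1`, `w0 = p1`, `u ∈ sup p1 ⊆ lk Γ s`, contradiction to `s ∉ st Γ u`.
First product: left letters of `w2` of type `s` or `t`. They are left letters of `w0 = p1 * w2` if `p1` commutes with them (`sup p1 ⊆ lk Γ s ∩ lk Γ t`), that is always; but left letters of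
`w0` are not in `st Γ v ∋ s, t`. (If `Lf w2 e` with `e.1 = s`: `p1 * w2` with `w2 = gl e * w3`, `p1` commutes with `gl e`, so `w0 = gl e * (p1 * w3)` with
`len (p1 * w3) ≤ len p1 + len w3 < len w0`, so `Lf w0 e`: use `len_nlf`, contrapositive.)
Second product: `Rt (w2⁻¹ * k) e'` and `Lf w2 (ivl e')`: by `rt_mul'` either `Rt k e'`, then `e'.1 ∈ {s, t}`, excluded as before, or `sup k ⊆ lk Γ e'.1`, so `e'.1` is in both links and `ivl e'` is a left
letter of `w2`, excluded by `gate_l`.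

`cm_sup`: for `s ≠ t` not adjacent, `n ≠ 0`: `sup (gen s ^ n * gen t ^ n * (gen s ^ n)⁻¹ * (gen t ^ n)⁻¹) = {s, t}`. `⊆` by `mem_pp`. If `s` is not in the support then the element is in
`PP Γ {t}`, so a power of `gen t`, and exponent sum gives `1`; but `gen s ^ n` and `gen t ^ n` do not commute by `cen_gen` (`t ∉ st Γ s`).

Final step: `H` of finite index, `K = H.normalCore` (finite index). `x = g * gen v ^ k * g⁻¹`, `y ∈ H` commuting with all commutators of elements of `H` commuting with `x`. `y' = g⁻¹ * y * g` commutes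
with all commutators of elements of `K` commuting with `gen v ^ k` (`K` is normal), in particular of `K ⊓ PP Γ (lk Γ v)`. So `y' = gen v ^ j`, `y ^ k = x ^ j`. Also `x ≠ 1` (`gen_zpow_inj`).
-/

set_option autoImplicit false

namespace RaagIso

open Classical

section

variable {V : Type} {Γ : SimpleGraph V}

/-- the images of the generators in `SL(2, ℤ)` -/
def a02_A : Matrix.SpecialLinearGroup (Fin 2) ℤ := ⟨!![1, 1; 0, 1], by simp⟩

/-- the second matrix -/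
def a02_B : Matrix.SpecialLinearGroup (Fin 2) ℤ := ⟨!![1, 0; 1, 1], by simp⟩

theorem a02_pow_a (n : ℕ) : ((a02_A ^ n : Matrix.SpecialLinearGroup (Fin 2) ℤ) :
    Matrix (Fin 2) (Fin 2) ℤ) = !![1, (n : ℤ); 0, 1] := by
  induction n with
  | zero => ext i j; fin_cases i <;> fin_cases j <;> simp
  | succ n ih =>
    rw [pow_succ, Matrix.SpecialLinearGroup.coe_mul, ih]
    ext i j
    fin_cases i <;> fin_cases j <;> simp [a02_A, Matrix.mul_apply, Fin.sum_univ_two] <;> ring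

theorem a02_pow_b (n : ℕ) : ((a02_B ^ n : Matrix.SpecialLinearGroup (Fin 2) ℤ) :
    Matrix (Fin 2) (Fin 2) ℤ) = !![1, 0; (n : ℤ), 1] := by
  induction n with
  | zero => ext i j; fin_cases i <;> fin_cases j <;> simp
  | succ n ih =>
    rw [pow_succ, Matrix.SpecialLinearGroup.coe_mul, ih]
    ext i j
    fin_cases i <;> fin_cases j <;> simp [a02_B, Matrix.mul_apply, Fin.sum_univ_two]

theorem a02_sl (n : ℤ) (hn : 0 < n) (a b : Matrix.SpecialLinearGroup (Fin 2) ℤ)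
    (ha : (a : Matrix (Fin 2) (Fin 2) ℤ) = !![1, n; 0, 1])
    (hb : (b : Matrix (Fin 2) (Fin 2) ℤ) = !![1, 0; n, 1]) :
    (a * b * a⁻¹ * b⁻¹) * (a ^ 2 * b * (a ^ 2)⁻¹ * b⁻¹) ≠
      (a ^ 2 * b * (a ^ 2)⁻¹ * b⁻¹) * (a * b * a⁻¹ * b⁻¹) := by
  intro h
  have ha' : ((a⁻¹ : Matrix.SpecialLinearGroup (Fin 2) ℤ) : Matrix (Fin 2) (Fin 2) ℤ) =
      !![1, -n; 0, 1] := by
    rw [Matrix.SpecialLinearGroup.coe_inv, ha, Matrix.adjugate_fin_two_of]
    simp
  have hb' : ((b⁻¹ : Matrix.SpecialLinearGroup (Fin 2) ℤ) : Matrix (Fin 2) (Fin 2) ℤ) =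
      !![1, 0; -n, 1] := by
    rw [Matrix.SpecialLinearGroup.coe_inv, hb, Matrix.adjugate_fin_two_of]
    simp
  have h1 := congrArg (fun M : Matrix.SpecialLinearGroup (Fin 2) ℤ =>
    (M : Matrix (Fin 2) (Fin 2) ℤ) 0 0) h
  simp only [pow_two, mul_inv_rev, Matrix.SpecialLinearGroup.coe_mul, ha, hb, ha', hb',
    Matrix.mul_apply, Fin.sum_univ_two, Matrix.of_apply, Matrix.cons_val', Matrix.cons_val_zero,
    Matrix.cons_val_one, Matrix.cons_val_fin_one] at h1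
  have h2 : (2 : ℤ) * n ^ 6 = 0 := by linear_combination h1
  have h3 : 0 < n ^ 6 := by positivity
  omega

theorem dbl {s t : V} (h : t ∉ st Γ s) (n : ℕ) (hn : 0 < n) (a b k k1 : RA Γ) (ha : a = gen s ^ n)
    (hb : b = gen t ^ n) (hk : k = a * b * a⁻¹ * b⁻¹) (hk1 : k1 = a ^ 2 * b * (a ^ 2)⁻¹ * b⁻¹) :
    k * k1 * k⁻¹ * k1⁻¹ ≠ 1 := by
  have hts : t ≠ s := fun e => h (Or.inl e)
  have hadj : ¬ Γ.Adj s t := fun e => h (Or.inr e)
  obtain ⟨F, hF⟩ := ra_lift (Γ := Γ) (K := Matrix.SpecialLinearGroup (Fin 2) ℤ)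
    (fun v => if v = s then a02_A else if v = t then a02_B else 1)
    (by
      intro v w hvw
      by_cases h1 : v = s
      · have h2 : w ≠ t := fun e => hadj (h1 ▸ e ▸ hvw)
        have h3 : w ≠ s := fun e => hvw.ne (h1.trans e.symm)
        simp [h2, h3]
      · by_cases h2 : w = s
        · have h3 : v ≠ t := fun e => hadj (h2 ▸ e ▸ hvw.symm)
          simp [h1, h3]
        · by_cases h3 : v = t
          · by_cases h4 : w = t
            · exact absurd (h3.trans h4.symm) hvw.ne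
            · simp [h2, h4]
          · simp [h1, h3])
  intro hc
  have h1 : k * k1 = k1 * k := by
    have : k * k1 * k⁻¹ * k1⁻¹ * (k1 * k) = 1 * (k1 * k) := by rw [hc]
    simpa [mul_assoc] using this
  have h2 := congrArg F h1
  have hFa : F a = a02_A ^ n := by
    rw [ha, map_pow, hF]
    simp
  have hFb : F b = a02_B ^ n := by
    rw [hb, map_pow, hF]
    simp [hts]
  rw [hk, hk1] at h2
  simp only [map_mul, map_inv, map_pow] at h2
  refine a02_sl (n : ℤ) (by exact_mod_cast hn) (F a) (F b) ?_ ?_ h2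
  · rw [hFa]; exact a02_pow_a n
  · rw [hFb]; exact a02_pow_b n

theorem a02_cm_mem {D : Set V} {a b : RA Γ} (ha : a ∈ PP Γ D) (hb : b ∈ PP Γ D) :
    a * b * a⁻¹ * b⁻¹ ∈ PP Γ D :=
  mul_mem (mul_mem (mul_mem ha hb) (inv_mem ha)) (inv_mem hb)

theorem a02_ab_cm (v : V) (a b : RA Γ) : ab Γ v (a * b * a⁻¹ * b⁻¹) = 1 := by
  simp only [map_mul, map_inv]
  rw [mul_comm (ab Γ v a), mul_inv_cancel_right, mul_inv_cancel]

theorem a02_gen_zero {v : V} {j : ℤ} (h : ab Γ v ((gen v : RA Γ) ^ j) = 1) : j = 0 := by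
  rw [map_zpow, ab_gen, if_pos rfl] at h
  have := congrArg Multiplicative.toAdd h
  simpa using this

theorem a02_single {a b : RA Γ} {t : V} (h : a * b * a⁻¹ * b⁻¹ ∈ PP Γ {t}) :
    a * b * a⁻¹ * b⁻¹ = 1 := by
  obtain ⟨j, hj⟩ := pp_single h
  have h1 := a02_ab_cm (Γ := Γ) t a b
  rw [hj] at h1
  rw [hj, a02_gen_zero h1, zpow_zero]

theorem a02_ne {s t : V} (h : t ∉ st Γ s) {n : ℕ} (hn : 0 < n) :
    (gen s : RA Γ) ^ n * gen t ^ n * (gen s ^ n)⁻¹ * (gen t ^ n)⁻¹ ≠ 1 := by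
  intro hc
  have h1 : (gen t : RA Γ) ^ n * gen s ^ n = gen s ^ n * gen t ^ n := by
    have : (gen s : RA Γ) ^ n * gen t ^ n * (gen s ^ n)⁻¹ * (gen t ^ n)⁻¹ * (gen t ^ n * gen s ^ n) =
        1 * (gen t ^ n * gen s ^ n) := by rw [hc]
    rw [one_mul] at this
    rw [← this]
    group
  have h2 : (gen t : RA Γ) ^ n ∈ PP Γ (st Γ s) := by
    apply cen_gen (n := (n : ℤ)) (by exact_mod_cast hn.ne')
    rw [zpow_natCast]
    exact h1
  have h3 := (gen_zpow_mem_iff (Γ := Γ) (v := t) (D := st Γ s) (n := (n : ℤ))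
    (by exact_mod_cast hn.ne')).1 (by rw [zpow_natCast]; exact h2)
  exact h h3

theorem cm_sup {s t : V} (h : t ∉ st Γ s) {n : ℕ} (hn : 0 < n) :
    sup ((gen s : RA Γ) ^ n * gen t ^ n * (gen s ^ n)⁻¹ * (gen t ^ n)⁻¹) = {s, t} := by
  have hts : t ≠ s := fun e => h (Or.inl e)
  have hsub : sup ((gen s : RA Γ) ^ n * gen t ^ n * (gen s ^ n)⁻¹ * (gen t ^ n)⁻¹) ⊆ {s, t} := by
    rw [← mem_pp]
    exact a02_cm_mem (pow_mem (gen_mem (by simp)) _) (pow_mem (gen_mem (by simp)) _)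
  apply Set.Subset.antisymm hsub
  intro z hz
  by_contra hz'
  apply a02_ne (Γ := Γ) h hn
  rcases hz with rfl | hz
  · apply a02_single (t := t)
    rw [mem_pp]
    intro u hu
    rcases hsub hu with rfl | hu'
    · exact absurd hu hz'
    · exact hu'
  · have hz2 : z = t := hz
    subst hz2
    apply a02_single (t := s)
    rw [mem_pp]
    intro u hu
    rcases hsub hu with rfl | hu'
    · rfl
    · have : u = z := hu'
      subst this
      exact absurd hu hz'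

/-- first step: the support is contained in `{v}` -/
theorem a02_step1 (hN : NoDom Γ) (K : Subgroup (RA Γ)) (hK : K.FiniteIndex) (hK' : K.Normal) (v : V)
    (y w y' : RA Γ) (hy : y = w * y' * w⁻¹) (hcr : Cr y')
    (h : ∀ c ∈ K, ∀ d ∈ K, c ∈ PP Γ (lk Γ v) → d ∈ PP Γ (lk Γ v) →
      y * (c * d * c⁻¹ * d⁻¹) = c * d * c⁻¹ * d⁻¹ * y) : sup y' ⊆ {v} := by
  intro v' hv'
  by_contra hne
  have hne' : v ≠ v' := fun e => hne e.symm
  obtain ⟨s, hs1, hs2⟩ := hN v v' hne'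
  obtain ⟨t, ht1, ht2⟩ := hN v s hs1.ne
  have hidx : 0 < K.index := Nat.pos_of_ne_zero hK.index_ne_zero
  set n := K.index with hn
  set a : RA Γ := gen s ^ n with ha
  set b : RA Γ := gen t ^ n with hb
  have haK : a ∈ K := Subgroup.pow_index_mem K _
  have hbK : b ∈ K := Subgroup.pow_index_mem K _
  have haP : a ∈ PP Γ (lk Γ v) := pow_mem (gen_mem hs1) _
  have hbP : b ∈ PP Γ (lk Γ v) := pow_mem (gen_mem ht1) _
  set k : RA Γ := a * b * a⁻¹ * b⁻¹ with hk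
  set k1 : RA Γ := a ^ 2 * b * (a ^ 2)⁻¹ * b⁻¹ with hk1
  have e1 : y * k = k * y := h a haK b hbK haP hbP
  have e2 : y * k1 = k1 * y := h (a ^ 2) (pow_mem haK 2) b hbK (pow_mem haP 2) hbP
  have e3 : ∀ z : RA Γ, y * z = z * y → y' * (w⁻¹ * z * w) = (w⁻¹ * z * w) * y' := by
    intro z hz
    have e : y' = w⁻¹ * y * w := by rw [hy]; group
    rw [e]
    calc w⁻¹ * y * w * (w⁻¹ * z * w) = w⁻¹ * (y * z) * w := by group
      _ = w⁻¹ * (z * y) * w := by rw [hz]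
      _ = w⁻¹ * z * w * (w⁻¹ * y * w) := by group
  have e4 := cmr_lk hcr (e3 k e1) (e3 k1 e2) hv'
  set k2 : RA Γ := k * k1 * k⁻¹ * k1⁻¹ with hk2
  have e5 : w⁻¹ * k2 * w ∈ PP Γ (lk Γ v') := by
    have : w⁻¹ * k2 * w = w⁻¹ * k * w * (w⁻¹ * k1 * w) * (w⁻¹ * k * w)⁻¹ * (w⁻¹ * k1 * w)⁻¹ := by
      rw [hk2]; group
    rw [this]
    exact e4
  have hk2P : k2 ∈ PP Γ ({s, t} : Set V) := by
    have ha' : a ∈ PP Γ ({s, t} : Set V) := pow_mem (gen_mem (by simp)) _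
    have hb' : b ∈ PP Γ ({s, t} : Set V) := pow_mem (gen_mem (by simp)) _
    exact a02_cm_mem (a02_cm_mem ha' hb') (a02_cm_mem (pow_mem ha' 2) hb')
  have e6 : ret Γ {s, t} (w⁻¹ * k2 * w) ∈ PP Γ {t} := by
    have h1 : ret Γ {s, t} (w⁻¹ * k2 * w) = ret Γ ({s, t} ∩ lk Γ v') (w⁻¹ * k2 * w) := by
      conv_lhs => rw [← ret_of_mem e5]
      rw [ret_ret]
    rw [h1]
    refine pp_mono ?_ (ret_mem _ _)
    rintro z ⟨hz1, hz2⟩
    rcases hz1 with rfl | hz1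
    · exact absurd (Or.inr hz2) hs2
    · exact hz1
  have e7 : k2 = ret Γ {s, t} w * ret Γ {s, t} (w⁻¹ * k2 * w) * (ret Γ {s, t} w)⁻¹ := by
    conv_lhs => rw [← ret_of_mem hk2P]
    rw [← map_inv, ← map_mul, ← map_mul]
    congr 1
    group
  obtain ⟨j, hj⟩ := pp_single e6
  have e8 : ab Γ t k2 = 1 := a02_ab_cm t k k1
  rw [e7, ab_conj, hj] at e8
  have e9 := a02_gen_zero e8
  rw [hj, e9, zpow_zero, mul_one, mul_inv_cancel] at e7
  exact dbl ht2 n hidx a b k k1 rfl rfl rfl rfl e7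

theorem a02_norm {v : V} {p c : RA Γ} (hp : p ∈ PP Γ (st Γ v)) (hc : c ∈ PP Γ (lk Γ v)) :
    p * c * p⁻¹ ∈ PP Γ (lk Γ v) := by
  obtain ⟨i, p', hp', rfl⟩ := st_dec hp
  have h1 : p' * c * p'⁻¹ ∈ PP Γ (lk Γ v) := mul_mem (mul_mem hp' hc) (inv_mem hp')
  have h2 : Commute (gen v : RA Γ) (p' * c * p'⁻¹) := lk_comm h1
  have h3 : gen v ^ i * p' * c * (gen v ^ i * p')⁻¹ = p' * c * p'⁻¹ := by
    have h4 := (h2.zpow_left i).eq
    calc gen v ^ i * p' * c * (gen v ^ i * p')⁻¹ = gen v ^ i * (p' * c * p'⁻¹) * (gen v ^ i)⁻¹ := by group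
      _ = p' * c * p'⁻¹ := by rw [h4, mul_inv_cancel_right]
  rw [h3]
  exact h1

/-- second step: the double coset representative is trivial -/
theorem a02_step2 (hN : NoDom Γ) (K : Subgroup (RA Γ)) (hK : K.FiniteIndex) (hK' : K.Normal) (v : V)
    (w0 : RA Γ) (m : ℤ) (hm : m ≠ 0) (hl : ∀ a, Lf w0 a → a.1 ∉ st Γ v)
    (hr : ∀ a, Rt w0 a → a.1 ∉ st Γ v)
    (h : ∀ c ∈ K, ∀ d ∈ K, c ∈ PP Γ (lk Γ v) → d ∈ PP Γ (lk Γ v) →
      w0 * gen v ^ m * w0⁻¹ * (c * d * c⁻¹ * d⁻¹) = c * d * c⁻¹ * d⁻¹ * (w0 * gen v ^ m * w0⁻¹)) :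
    w0 = 1 := by
  by_contra hne
  obtain ⟨c, hc⟩ := exists_lf hne
  have hu := hl c hc
  have hvu : v ≠ c.1 := fun e => hu (Or.inl e.symm)
  obtain ⟨s, hs1, hs2⟩ := hN v c.1 hvu
  obtain ⟨t, ht1, ht2⟩ := hN v s hs1.ne
  have hidx : 0 < K.index := Nat.pos_of_ne_zero hK.index_ne_zero
  set n := K.index with hn
  set k : RA Γ := gen s ^ n * gen t ^ n * (gen s ^ n)⁻¹ * (gen t ^ n)⁻¹ with hk
  have hks : sup k = {s, t} := cm_sup ht2 hidx
  have e1 : w0 * gen v ^ m * w0⁻¹ * k = k * (w0 * gen v ^ m * w0⁻¹) :=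
    h _ (Subgroup.pow_index_mem K _) _ (Subgroup.pow_index_mem K _) (pow_mem (gen_mem hs1) _)
      (pow_mem (gen_mem ht1) _)
  have e2 : w0⁻¹ * k * w0 * gen v ^ m = gen v ^ m * (w0⁻¹ * k * w0) := by
    calc w0⁻¹ * k * w0 * gen v ^ m = w0⁻¹ * (k * (w0 * gen v ^ m * w0⁻¹)) * w0 := by group
      _ = w0⁻¹ * (w0 * gen v ^ m * w0⁻¹ * k) * w0 := by rw [e1]
      _ = gen v ^ m * (w0⁻¹ * k * w0) := by group
  have e3 : w0⁻¹ * k * w0 ∈ PP Γ (st Γ v) := cen_gen hm e2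
  obtain ⟨p1, hp1, w2, hw, hw2, hrp⟩ := gate_l {z | z ∈ lk Γ s ∧ z ∈ lk Γ t} w0
  have e4 : k * p1 = p1 * k := by
    refine pp_comm (fun z hz => ?_) hp1
    have c1 : Commute (gen z : RA Γ) (gen s) := (gen_comm hz.1).symm
    have c2 : Commute (gen z : RA Γ) (gen t) := (gen_comm hz.2).symm
    have c3 : Commute (gen z : RA Γ) k :=
      (((c1.pow_right n).mul_right (c2.pow_right n)).mul_right (c1.pow_right n).inv_right).mul_right
        (c2.pow_right n).inv_right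
    exact c3.eq.symm
  have e5 : w2⁻¹ * k * w2 ∈ PP Γ (st Γ v) := by
    have : w2⁻¹ * k * w2 = w0⁻¹ * k * w0 := by
      rw [hw]
      calc w2⁻¹ * k * w2 = w2⁻¹ * (p1⁻¹ * (p1 * k)) * w2 := by group
        _ = w2⁻¹ * (p1⁻¹ * (k * p1)) * w2 := by rw [e4]
        _ = (p1 * w2)⁻¹ * k * (p1 * w2) := by group
    rw [this]
    exact e3
  have hst : ∀ z ∈ ({s, t} : Set V), z ∈ st Γ v := by
    rintro z (rfl | hz)
    · exact Or.inr hs1
    · rw [Set.mem_singleton_iff.1 hz]; exact Or.inr ht1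
  -- no left letter of w2 has type s or t
  have hA : ∀ e, Lf w2 e → e.1 ∉ ({s, t} : Set V) := by
    intro e he het
    have hcom : gl e * p1 = p1 * gl e := by
      have hp1' : p1 ∈ PP Γ (lk Γ e.1) := by
        refine pp_mono ?_ hp1
        rintro z ⟨hz1, hz2⟩
        rcases het with h1 | h1
        · rw [h1]; exact hz1
        · rw [Set.mem_singleton_iff.1 h1]; exact hz2
      exact gl_comm hp1'
    by_cases h1 : Lf w0 e
    · exact hl e h1 (hst _ het)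
    · have h2 : len (gl (ivl e) * w0) = len w0 + 1 := len_nlf (by rw [ivl_ivl]; exact h1)
      have h3 : gl (ivl e) * w0 = p1 * ((gl e)⁻¹ * w2) := by
        rw [gl_ivl, hw]
        calc (gl e)⁻¹ * (p1 * w2) = (gl e)⁻¹ * (p1 * gl e) * ((gl e)⁻¹ * w2) := by group
          _ = (gl e)⁻¹ * (gl e * p1) * ((gl e)⁻¹ * w2) := by rw [hcom]
          _ = p1 * ((gl e)⁻¹ * w2) := by group
      have h4 := len_mul_le p1 ((gl e)⁻¹ * w2)
      have h5 := len_lf he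
      have h6 : len w0 = len p1 + len w2 := by rw [hw]; exact rp_len.1 hrp
      rw [h3] at h2
      omega
  have hR1 : Rp w2⁻¹ k := by
    intro e he hk'
    have h1 : Lf w2 (ivl e) := rt_inv.1 he
    have h2 : (ivl e).1 ∈ sup k := lf_sup hk'
    rw [hks] at h2
    exact hA _ h1 h2
  have hR2 : Rp (w2⁻¹ * k) w2 := by
    intro e he hl'
    rcases rt_mul' hR1 he with h1 | ⟨-, h2⟩
    · have h2 : e.1 ∈ sup k := rt_sup h1
      rw [hks] at h2
      exact hA _ hl' h2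
    · rw [hks] at h2
      have h3 : Γ.Adj e.1 s := h2 (by simp)
      have h4 : Γ.Adj e.1 t := h2 (by simp)
      exact hw2 _ hl' ⟨h3.symm, h4.symm⟩
  have hsup : sup w2 ⊆ st Γ v := by
    have h1 := mem_pp.1 e5
    rw [sup_mul hR2] at h1
    exact Set.subset_union_right.trans h1
  by_cases hw21 : w2 = 1
  · rw [hw21, mul_one] at hw
    rw [hw] at hc
    have h1 : c.1 ∈ sup p1 := lf_sup hc
    have h2 := (mem_pp.1 hp1) h1
    exact hs2 (Or.inr (Γ.adj_symm h2.1))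
  · obtain ⟨e, he⟩ := exists_rt hw21
    have h1 : Rt w0 e := by rw [hw]; exact rt_mul hrp he
    exact hr e h1 (hsup (rt_sup he))

theorem qp_key (hN : NoDom Γ) (K : Subgroup (RA Γ)) (hK : K.FiniteIndex) (hK' : K.Normal) (v : V) (y : RA Γ)
    (h : ∀ c ∈ K, ∀ d ∈ K, c ∈ PP Γ (lk Γ v) → d ∈ PP Γ (lk Γ v) →
      y * (c * d * c⁻¹ * d⁻¹) = c * d * c⁻¹ * d⁻¹ * y) : ∃ j : ℤ, y = gen v ^ j := by
  obtain ⟨w, y', hy, hcr⟩ := exists_cr y
  have h1 := a02_step1 hN K hK hK' v y w y' hy hcr h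
  obtain ⟨m, hm⟩ := pp_single (mem_pp.2 h1)
  by_cases hm0 : m = 0
  · refine ⟨0, ?_⟩
    rw [hy, hm, hm0]
    simp
  obtain ⟨p, hp, q, hq, w0, hw, hl, hr⟩ := gate_lr (st Γ v) (st Γ v) w
  have cq : Commute (gen v : RA Γ) q := st_comm hq
  have cp : Commute (gen v : RA Γ) p := st_comm hp
  have hy2 : y = p * (w0 * gen v ^ m * w0⁻¹) * p⁻¹ := by
    rw [hy, hm, hw]
    have h2 := (cq.zpow_left m).eq
    calc p * w0 * q * gen v ^ m * (p * w0 * q)⁻¹ = p * w0 * (q * gen v ^ m) * q⁻¹ * w0⁻¹ * p⁻¹ := by group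
      _ = p * w0 * (gen v ^ m * q) * q⁻¹ * w0⁻¹ * p⁻¹ := by rw [h2]
      _ = p * (w0 * gen v ^ m * w0⁻¹) * p⁻¹ := by group
  have hw0 : w0 = 1 := by
    refine a02_step2 hN K hK hK' v w0 m hm0 hl hr ?_
    intro c hc d hd hc' hd'
    have h3 := h (p * c * p⁻¹) (hK'.conj_mem c hc p) (p * d * p⁻¹) (hK'.conj_mem d hd p)
      (a02_norm hp hc') (a02_norm hp hd')
    have e0 : w0 * gen v ^ m * w0⁻¹ = p⁻¹ * y * p := by rw [hy2]; group
    rw [e0]
    calc p⁻¹ * y * p * (c * d * c⁻¹ * d⁻¹) = p⁻¹ * (y * (p * c * p⁻¹ * (p * d * p⁻¹) *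
          (p * c * p⁻¹)⁻¹ * (p * d * p⁻¹)⁻¹)) * p := by group
      _ = p⁻¹ * (p * c * p⁻¹ * (p * d * p⁻¹) * (p * c * p⁻¹)⁻¹ * (p * d * p⁻¹)⁻¹ * y) * p := by rw [h3]
      _ = c * d * c⁻¹ * d⁻¹ * (p⁻¹ * y * p) := by group
  refine ⟨m, ?_⟩
  rw [hy2, hw0]
  have h2 := (cp.zpow_left m).eq
  calc p * (1 * gen v ^ m * 1⁻¹) * p⁻¹ = p * gen v ^ m * p⁻¹ := by group
    _ = gen v ^ m := by rw [← h2, mul_inv_cancel_right]

theorem qp_of_gen (hN : NoDom Γ) (H : Subgroup (RA Γ)) (hH : H.FiniteIndex) (x : H) (g : RA Γ) (v : V)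
    (k : ℤ) (hk : k ≠ 0) (hx : (x : RA Γ) = g * gen v ^ k * g⁻¹) : Qp x := by
  constructor
  · intro h1
    have h2 : (x : RA Γ) = 1 := by rw [h1]; rfl
    rw [hx] at h2
    have h3 : (gen v : RA Γ) ^ k = 1 := by
      calc (gen v : RA Γ) ^ k = g⁻¹ * (g * gen v ^ k * g⁻¹) * g := by group
        _ = 1 := by rw [h2]; group
    have h4 := gen_zpow_inj (Γ := Γ) (v := v) (n := k) (m := 0) (by rw [h3, zpow_zero])
    exact hk h4
  · intro y hy
    have := hH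
    have hKF : H.normalCore.FiniteIndex := inferInstance
    have hKN : H.normalCore.Normal := inferInstance
    have h1 : ∀ c ∈ H.normalCore, ∀ d ∈ H.normalCore, c ∈ PP Γ (lk Γ v) → d ∈ PP Γ (lk Γ v) →
        (g⁻¹ * (y : RA Γ) * g) * (c * d * c⁻¹ * d⁻¹) = c * d * c⁻¹ * d⁻¹ * (g⁻¹ * (y : RA Γ) * g) := by
      intro c hc d hd hc' hd'
      have hc2 : g * c * g⁻¹ ∈ H := Subgroup.normalCore_le H (hKN.conj_mem c hc g)
      have hd2 : g * d * g⁻¹ ∈ H := Subgroup.normalCore_le H (hKN.conj_mem d hd g)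
      have hcx : ∀ c : RA Γ, c ∈ PP Γ (lk Γ v) → g * c * g⁻¹ * (x : RA Γ) = (x : RA Γ) * (g * c * g⁻¹) := by
        intro c hc
        have h2 : Commute (gen v : RA Γ) c := lk_comm hc
        have h3 := (h2.zpow_left k).eq
        rw [hx]
        calc g * c * g⁻¹ * (g * gen v ^ k * g⁻¹) = g * (c * gen v ^ k) * g⁻¹ := by group
          _ = g * (gen v ^ k * c) * g⁻¹ := by rw [h3]
          _ = g * gen v ^ k * g⁻¹ * (g * c * g⁻¹) := by group
      have h4 := hy ⟨g * c * g⁻¹, hc2⟩ ⟨g * d * g⁻¹, hd2⟩ (Subtype.ext (hcx c hc'))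
        (Subtype.ext (hcx d hd'))
      have h5 := congrArg (fun z : H => (z : RA Γ)) h4
      simp only [Subgroup.coe_mul, Subgroup.coe_inv] at h5
      calc g⁻¹ * (y : RA Γ) * g * (c * d * c⁻¹ * d⁻¹) = g⁻¹ * ((y : RA Γ) * (g * c * g⁻¹ * (g * d * g⁻¹) *
            (g * c * g⁻¹)⁻¹ * (g * d * g⁻¹)⁻¹)) * g := by group
        _ = g⁻¹ * (g * c * g⁻¹ * (g * d * g⁻¹) * (g * c * g⁻¹)⁻¹ * (g * d * g⁻¹)⁻¹ * (y : RA Γ)) * g := by
            rw [h5]
        _ = c * d * c⁻¹ * d⁻¹ * (g⁻¹ * (y : RA Γ) * g) := by group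
    obtain ⟨j, hj⟩ := qp_key hN H.normalCore hKF hKN v _ h1
    refine ⟨k, j, hk, ?_⟩
    apply Subtype.ext
    rw [Subgroup.coe_zpow, Subgroup.coe_zpow, hx]
    have hy3 : (y : RA Γ) = g * gen v ^ j * g⁻¹ := by rw [← hj]; group
    rw [hy3]
    have h6 : ∀ (i l : ℤ), (g * (gen v : RA Γ) ^ i * g⁻¹) ^ l = g * gen v ^ (i * l) * g⁻¹ := by
      intro i l
      rw [conj_zpow, ← zpow_mul]
    rw [h6, h6, mul_comm]

end

end RaagIso
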