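import Pool.Agent.Lib.MP_32d917_al_raag.W03

/-!
# E01: centralisers of generators, commuting conjugates of generators

API in W03: `Lf`, `Rt` (left/right letters), `sup`, `len`, `Rp x y` (reduced product, `rp_len`), `mem_pp`,
`sup_mul`, `lf_mul`, `lf_mul'`, `rt_mul`, `rt_mul'`, `gate_l`, `gate_r`, `gate_lr`, `exists_lf`, `exists_rt`, `st_dec`.

`gen_pow`: for `n ≠ 0`: `sup (gen v ^ n) = {v}` and the left and right letters of `gen v ^ n` have type `v` (every left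
letter `a` has `a.1 ∈ sup`, so `a.1 = v`); `sup` is not empty because `gen v ^ n ≠ 1` (`gen_zpow_inj`) and it is
contained in `{v}` (`mem_pp`, the element is in `PP Γ {v}`).

`conj_red`: let `z` have no right letter with type in `st Γ w`, `n ≠ 0`, `g = gen w ^ n`. Then `Rp z g` (a right letter
`a` of `z` and the left letter `ivl a` of `g`: `a.1 = w ∈ st Γ w`), and `Rp (z * g) z⁻¹`: a right letter `a` of `z * g` with
`Lf z⁻¹ (ivl a)`, that is `Rt z a` (`lf_inv`, `ivl_ivl`); by `rt_mul'` either `Rt g a`, then `a.1 = w`, excluded by `Rt z a`;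
or `sup g ⊆ lk Γ a.1`, so `w ∈ lk Γ a.1`, `a.1 ∈ st Γ w`, excluded again.

`cen_gen`: write `x = y * p` by `gate_r (st Γ v) x`, so `p ∈ PP Γ (st Γ v)` and `y` has no right letter with type in
`st Γ v`; `p` commutes with `gen v ^ n` (`st_comm`), so `y` does: `y * g * y⁻¹ = g`. By `conj_red` and `rp_len`:
`len g = len y + len g + len y`, so `len y = 0`, `y = 1`.

`comm_conj`: `z = p * z0 * q` by `gate_lr (st Γ v) (st Γ w) z`. As `q` commutes with `gen w` and `p` with `gen v`, `gen v`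
commutes with `e = z0 * gen w * z0⁻¹`, so `e ∈ PP Γ (st Γ v)` (`cen_gen` with `n = 1`) and by `conj_red`
`sup z0 ∪ {w} ⊆ st Γ v`. If `z0 ≠ 1` it has a left letter, whose type is in `sup z0 ⊆ st Γ v`: contradiction. So `z0 = 1`.

`zpow_comm`: conjugate by `x⁻¹`: `z = x⁻¹ * y`. `gen w ^ m` conjugated by `z` commutes with `gen v ^ n`, so it lies in
`PP Γ (st Γ v)` (`cen_gen`), so it commutes with `gen v`; so `z⁻¹ * gen v * z` commutes with `gen w ^ m`, so lies in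
`PP Γ (st Γ w)` and commutes with `gen w`.

`zpow_eq`: exponent sums (`ab`, `ab_conj`): `v = w` and `n = m`; then `y⁻¹ * x` commutes with `gen v ^ n`, so it is in
`PP Γ (st Γ v)` and commutes with `gen v`.
-/

set_option autoImplicit false

namespace RaagIso

open Classical

section

variable {V : Type} {Γ : SimpleGraph V}

theorem e01_ne_one {v : V} {n : ℤ} (hn : n ≠ 0) : (gen v : RA Γ) ^ n ≠ 1 := by
  intro h
  have h1 : (gen v : RA Γ) ^ n = gen v ^ (0 : ℤ) := by rw [h, zpow_zero]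
  exact hn (gen_zpow_inj h1)

theorem gen_pow_sup {v : V} {n : ℤ} (hn : n ≠ 0) : sup ((gen v : RA Γ) ^ n) = {v} := by
  have h1 : sup ((gen v : RA Γ) ^ n) ⊆ {v} :=
    mem_pp.1 (zpow_mem (gen_mem (Set.mem_singleton v)) n)
  rcases Set.subset_singleton_iff_eq.1 h1 with h2 | h2
  · exact absurd (sup_eq_empty h2) (e01_ne_one hn)
  · exact h2

theorem conj_red {w : V} {n : ℤ} (hn : n ≠ 0) {z : RA Γ} (hz : ∀ a, Rt z a → a.1 ∉ st Γ w) :
    Rp z (gen w ^ n) ∧ Rp (z * gen w ^ n) z⁻¹ ∧ sup (z * gen w ^ n * z⁻¹) = insert w (sup z) := by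
  have hs : sup ((gen w : RA Γ) ^ n) = {w} := gen_pow_sup hn
  have h1 : Rp z ((gen w : RA Γ) ^ n) := by
    intro a ha hb
    have h2 := lf_sup hb
    rw [hs] at h2
    exact hz a ha (Or.inl h2)
  have h2 : Rp (z * (gen w : RA Γ) ^ n) z⁻¹ := by
    intro a ha hb
    rw [lf_inv, ivl_ivl] at hb
    rcases rt_mul' h1 ha with h3 | ⟨-, h3⟩
    · have h4 := rt_sup h3
      rw [hs] at h4
      exact hz a hb (Or.inl h4)
    · rw [hs] at h3
      have h4 : Γ.Adj a.1 w := h3 (Set.mem_singleton w)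
      exact hz a hb (Or.inr h4.symm)
  refine ⟨h1, h2, ?_⟩
  rw [sup_mul h2, sup_mul h1, hs, sup_inv]
  ext s
  simp only [Set.mem_union, Set.mem_singleton_iff, Set.mem_insert_iff]
  tauto

theorem cen_gen {v : V} {n : ℤ} (hn : n ≠ 0) {x : RA Γ} (h : x * gen v ^ n = gen v ^ n * x) :
    x ∈ PP Γ (st Γ v) := by
  obtain ⟨p, hp, y, hx, hy, -⟩ := gate_r (st Γ v) x
  have hc : Commute (gen v : RA Γ) p := st_comm hp
  have hc2 : (gen v : RA Γ) ^ n * p = p * gen v ^ n := (hc.zpow_left n).eq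
  have h1 : y * gen v ^ n = gen v ^ n * y := by
    rw [hx, mul_assoc, ← hc2, ← mul_assoc, ← mul_assoc] at h
    exact mul_right_cancel h
  obtain ⟨h2, h3, -⟩ := conj_red hn hy
  rw [rp_len] at h2 h3
  rw [h2, h1, mul_inv_cancel_right, len_inv] at h3
  have h4 : y = 1 := len_eq_zero (by omega)
  rw [hx, h4, one_mul]
  exact hp

theorem comm_conj {v w : V} {z : RA Γ} (h : gen v * (z * gen w * z⁻¹) = z * gen w * z⁻¹ * gen v) :
    w ∈ st Γ v ∧ ∃ p ∈ PP Γ (st Γ v), ∃ q ∈ PP Γ (st Γ w), z = p * q := by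
  obtain ⟨p, hp, q, hq, z0, hz, hl, hr⟩ := gate_lr (st Γ v) (st Γ w) z
  have hcq : Commute (gen w : RA Γ) q := st_comm hq
  have hcp : Commute (gen v : RA Γ) p := st_comm hp
  have h1 : z * gen w * z⁻¹ = p * (z0 * gen w * z0⁻¹) * p⁻¹ := by
    have h2 : q * gen w * q⁻¹ = gen w := by
      rw [← hcq.eq, mul_inv_cancel_right]
    calc z * gen w * z⁻¹ = p * z0 * (q * gen w * q⁻¹) * z0⁻¹ * p⁻¹ := by rw [hz]; group
      _ = p * (z0 * gen w * z0⁻¹) * p⁻¹ := by rw [h2]; group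
  have h3 : Commute (gen v : RA Γ) (p * (z0 * gen w * z0⁻¹) * p⁻¹) := by
    rw [h1] at h
    exact h
  have h4 : p * gen v * p⁻¹ = gen v := by
    rw [← hcp.eq, mul_inv_cancel_right]
  have h5 : Commute (gen v : RA Γ) (z0 * gen w * z0⁻¹) := by
    rw [← Commute.conj_iff p, h4]
    exact h3
  have h6 : z0 * gen w * z0⁻¹ ∈ PP Γ (st Γ v) := by
    refine cen_gen (n := 1) one_ne_zero ?_
    rw [zpow_one]
    exact h5.eq.symm
  obtain ⟨-, -, h7⟩ := conj_red (w := w) (n := 1) one_ne_zero hr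
  rw [zpow_one] at h7
  have h8 := mem_pp.1 h6
  rw [h7] at h8
  refine ⟨h8 (Set.mem_insert _ _), p, hp, q, hq, ?_⟩
  have h9 : z0 = 1 := by
    by_contra h10
    obtain ⟨a, ha⟩ := exists_lf h10
    exact hl a ha (h8 (Set.mem_insert_of_mem _ (lf_sup ha)))
  rw [hz, h9, mul_one]

theorem zpow_comm {v w : V} {n m : ℤ} (hn : n ≠ 0) (hm : m ≠ 0) {x y : RA Γ}
    (h : (x * gen v * x⁻¹) ^ n * (y * gen w * y⁻¹) ^ m = (y * gen w * y⁻¹) ^ m * (x * gen v * x⁻¹) ^ n) :
    (x * gen v * x⁻¹) * (y * gen w * y⁻¹) = (y * gen w * y⁻¹) * (x * gen v * x⁻¹) := by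
  obtain ⟨z, hz⟩ : ∃ z, z = x⁻¹ * y := ⟨_, rfl⟩
  have hy : y = x * z := by rw [hz, mul_inv_cancel_left]
  have e1 : ∀ g : RA Γ, y * g * y⁻¹ = x * (z * g * z⁻¹) * x⁻¹ := by
    intro g
    rw [hy]
    group
  rw [conj_zpow, conj_zpow, e1] at h
  have h1 : Commute ((gen v : RA Γ) ^ n) (z * gen w ^ m * z⁻¹) := (Commute.conj_iff x).1 h
  have h2 := st_comm (cen_gen hn h1.eq.symm)
  have h3 : Commute (z⁻¹ * gen v * z) ((gen w : RA Γ) ^ m) := by
    rw [← Commute.conj_iff z]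
    have e2 : z * (z⁻¹ * gen v * z) * z⁻¹ = (gen v : RA Γ) := by group
    rw [e2]
    exact h2
  have h4 : Commute (gen w : RA Γ) (z⁻¹ * gen v * z) := st_comm (cen_gen hm h3.eq)
  have h5 : Commute (z * gen w * z⁻¹) (gen v : RA Γ) := by
    have h6 := (Commute.conj_iff z).2 h4
    have e2 : z * (z⁻¹ * gen v * z) * z⁻¹ = (gen v : RA Γ) := by group
    rwa [e2] at h6
  rw [e1]
  exact ((Commute.conj_iff x).2 h5.symm).eq

theorem zpow_eq {v w : V} {n m : ℤ} (hn : n ≠ 0) {x y : RA Γ}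
    (h : (x * gen v * x⁻¹) ^ n = (y * gen w * y⁻¹) ^ m) :
    n = m ∧ v = w ∧ x * gen v * x⁻¹ = y * gen w * y⁻¹ := by
  have h1 := congrArg (ab Γ v) h
  rw [map_zpow, map_zpow, ab_conj, ab_conj, ab_gen, ab_gen, if_pos rfl] at h1
  have h2 : w = v := by
    by_contra h3
    rw [if_neg h3, one_zpow] at h1
    have h4 := congrArg Multiplicative.toAdd h1
    simp at h4
    exact hn h4
  subst h2
  rw [if_pos rfl] at h1
  have h3 : n = m := by
    have h4 := congrArg Multiplicative.toAdd h1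
    simpa using h4
  subst h3
  refine ⟨rfl, rfl, ?_⟩
  rw [conj_zpow, conj_zpow] at h
  have h5 : y⁻¹ * x * gen w ^ n = gen w ^ n * (y⁻¹ * x) := by
    calc y⁻¹ * x * gen w ^ n = y⁻¹ * (x * gen w ^ n * x⁻¹) * x := by group
      _ = y⁻¹ * (y * gen w ^ n * y⁻¹) * x := by rw [h]
      _ = gen w ^ n * (y⁻¹ * x) := by group
  have h6 := st_comm (cen_gen hn h5)
  calc x * gen w * x⁻¹ = y * (y⁻¹ * x * gen w) * x⁻¹ := by group
    _ = y * (gen w * (y⁻¹ * x)) * x⁻¹ := by rw [h6]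
    _ = y * gen w * y⁻¹ := by group

end

end RaagIso
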