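import Pool.Agent.Lib.MP_32d917_al_raag.RiDefs
import Pool.Agent.Lib.MP_32d917_al_raag.E01

/-!
# R02: different chambers are separated by a star

`side`: let `a` be a letter, `v = a.1`. If `y * gen t * y⁻¹` does not commute with `gen v` then `NN v (y * p) (cw a) = NN v y (cw a)` for all
`p ∈ PP Γ (st Γ t)`. By `Subgroup.closure_induction` it is enough (prove the statement for all `y' = y * q`, `q ∈ PP Γ (st Γ t)`, note that
`y' * gen t * y'⁻¹ = y * gen t * y⁻¹` by `st_comm`) to multiply with one generator `gen b`, `b ∈ st Γ t` (for the inverse replace `y'` by `y' * (gen b)⁻¹`).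
`NN v (y' * gen b) (cw a) = NN v y' (cw a) + NN v (gen b) (y'⁻¹ * cw a)`, and the last term is not `0` only if `b = v` and `y'⁻¹ * cw a ∈ PP Γ (lk Γ v)`. Then
`y' ∈ PP Γ (st Γ v)` (as `cw a` is), so `y'` commutes with `gen v`, and `v = b ∈ st Γ t` gives that `gen t` commutes with `gen v`, so `y' * gen t * y'⁻¹` commutes with
`gen v`: contradiction.

`side_cnn`: if `Cnn (gen v) (y * gen t * y⁻¹) (y' * gen t' * y'⁻¹)`, `v = a.1`, and the first element does not commute with `gen v` then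
`NN v y (cw a) = NN v y' (cw a)`. Induction along the path (general statement: for all representations of the elements). If `y * gen t * y⁻¹ = y' * gen t' * y'⁻¹` then `t = t'`
(exponent sums) and `y⁻¹ * y'` is in `PP Γ (st Γ t)` (`cen_gen`), so use `side`. If they commute then by `comm_conj` (conjugated by `y⁻¹`) `y⁻¹ * y' = p * q` with
`p ∈ PP Γ (st Γ t)`, `q ∈ PP Γ (st Γ t')`; use `side` twice: `y * p = y' * q⁻¹`.

`sepr`: let `z1 = x⁻¹ * y`; by `gate_lr (st Γ u) (st Γ w) z1`: `z1 = p * z * q`, `z ≠ 1` by hypothesis. Let `a` be a left letter of `z`, `v = a.1 ∉ st Γ u`. Take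
`e = (x * p) * gen v * (x * p)⁻¹`. After conjugation with `(x * p)⁻¹` the two elements are `gen u` (`p` commutes with it) and `z * gen w * z⁻¹`.
(a) `gen v` does not commute with `gen u` (`gen_mem_iff`, `cen_gen`, `v ∉ st Γ u`).
(b) `gen v` does not commute with `z * gen w * z⁻¹`: otherwise `sup z ∪ {w} ⊆ st Γ v` (`cen_gen`, `conj_red`, `mem_pp`). So `z ∈ PP Γ (st Γ v)`, `z = gen v ^ k * z'`, `z' ∈ PP Γ (lk Γ v)` (`st_dec`),
`k ≠ 0` since `v ∈ sup z` (otherwise `z ∈ PP Γ (lk Γ v)`, `v ∉ lk Γ v`). `z = z' * gen v ^ k` and this product is reduced, so `z` has a right letter of type `v` (a right letter of `gen v ^ k`,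
`gen_pow_sup`, `exists_rt`, `rt_mul`), but `w ∈ st Γ v` gives `v ∈ st Γ w`: contradiction to the choice of `z`.
(c) not connected: by `side_cnn` with `y = 1`: `NN v 1 (cw a) = 0` but `NN v z (cw a) ≠ 0` (`Lf z a`).
Conjugate back (`isE` of conjugates is clear; `Cnn` is invariant under conjugation: you can use `cnn_conj` from R01 if it is there, or prove it again under another name).
-/

set_option autoImplicit false

namespace RaagIso

open Classical

section

variable {V : Type} {Γ : SimpleGraph V}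

theorem r02_cross {D : Set V} {v : V} {p : RA Γ} (hp : p ∈ PP Γ D) :
    ∀ z, NN v p z ≠ 0 → ∃ q ∈ PP Γ D, q⁻¹ * z ∈ PP Γ (lk Γ v) := by
  unfold PP at hp
  induction hp using Subgroup.closure_induction with
  | mem y hy =>
    obtain ⟨b, hb, rfl⟩ := hy
    intro z hz
    change NN v (gen b) z ≠ 0 at hz
    rw [nn_gen] at hz
    split_ifs at hz with h
    · exact ⟨1, one_mem _, by rw [inv_one, one_mul]; exact h.2⟩
    · exact absurd rfl hz
  | one => intro z hz; rw [nn_one] at hz; exact absurd rfl hz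
  | mul x y hx _ ihx ihy =>
    intro z hz
    by_cases h : NN v x z = 0
    · rw [nn_mul, h, zero_add] at hz
      obtain ⟨q, hq, h2⟩ := ihy _ hz
      refine ⟨x * q, mul_mem hx hq, ?_⟩
      rw [mul_inv_rev, mul_assoc]; exact h2
    · exact ihx z h
  | inv x hx ih =>
    intro z hz
    rw [nn_inv, neg_ne_zero] at hz
    obtain ⟨q, hq, h2⟩ := ih _ hz
    refine ⟨x⁻¹ * q, mul_mem (inv_mem hx) hq, ?_⟩
    rw [mul_inv_rev, inv_inv, mul_assoc]; exact h2

theorem r02_cw (a : V × Bool) : (cw a : RA Γ) ∈ PP Γ (st Γ a.1) := by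
  unfold cw
  split_ifs
  · exact one_mem _
  · exact inv_mem (gen_mem (Or.inl rfl))

theorem r02_lk_st (v : V) : lk Γ v ⊆ st Γ v := fun _ h => Or.inr h

theorem side {a : V × Bool} {t : V} {y : RA Γ}
    (h : y * gen t * y⁻¹ * gen a.1 ≠ gen a.1 * (y * gen t * y⁻¹)) {p : RA Γ} (hp : p ∈ PP Γ (st Γ t)) :
    NN a.1 (y * p) (cw a) = NN a.1 y (cw a) := by
  rw [nn_mul]
  by_contra h1
  have h2 : NN a.1 p (y⁻¹ * cw a) ≠ 0 := fun h2 => h1 (by rw [h2, add_zero])
  have hv : a.1 ∈ st Γ t := by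
    by_contra h3
    exact h2 (nn_pp hp a.1 h3 _)
  obtain ⟨q, hq, h3⟩ := r02_cross hp _ h2
  -- y = c * q⁻¹ with c in PP (st v)
  have h4 : y * q ∈ PP Γ (st Γ a.1) := by
    have h5 : y * q = cw a * (q⁻¹ * (y⁻¹ * cw a))⁻¹ := by group
    rw [h5]
    exact mul_mem (r02_cw a) (inv_mem (pp_mono (r02_lk_st a.1) h3))
  apply h
  have e1 : y * gen t * y⁻¹ = (y * q) * gen t * (y * q)⁻¹ := by
    have : (gen t : RA Γ) * q = q * gen t := st_comm hq
    calc y * gen t * y⁻¹ = y * (gen t * q) * q⁻¹ * y⁻¹ := by group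
      _ = y * (q * gen t) * q⁻¹ * y⁻¹ := by rw [this]
      _ = (y * q) * gen t * (y * q)⁻¹ := by group
  have c1 : Commute (gen a.1 : RA Γ) (y * q) := st_comm h4
  have c2 : Commute (gen a.1 : RA Γ) (gen t) := (st_comm (gen_mem hv)).symm
  rw [e1]
  exact (((c1.mul_right c2).mul_right c1.inv_right).eq).symm

theorem r02_cm (g a b : RA Γ) : (g * a * g⁻¹) * (g * b * g⁻¹) = (g * b * g⁻¹) * (g * a * g⁻¹) ↔
    a * b = b * a := by
  rw [show (g * a * g⁻¹) * (g * b * g⁻¹) = g * (a * b) * g⁻¹ by group,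
    show (g * b * g⁻¹) * (g * a * g⁻¹) = g * (b * a) * g⁻¹ by group, mul_left_inj, mul_right_inj]

theorem r02_isE (g : RA Γ) {a : RA Γ} (h : IsE a) : IsE (g * a * g⁻¹) := by
  obtain ⟨k, v, rfl⟩ := h
  exact ⟨g * k, v, by group⟩

theorem r02_cnn (g : RA Γ) {e a b : RA Γ} (h : Cnn e a b) :
    Cnn (g * e * g⁻¹) (g * a * g⁻¹) (g * b * g⁻¹) := by
  unfold Cnn at h ⊢
  refine Relation.ReflTransGen.lift (fun x => g * x * g⁻¹) (p := Stp (g * e * g⁻¹)) ?_ _ _ h
  rintro x y ⟨h1, h2, h3, h4, h5⟩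
  refine ⟨r02_isE g h1, r02_isE g h2, (r02_cm g x y).2 h3, ?_, ?_⟩
  · intro h6; exact h4 ((r02_cm g x e).1 h6)
  · intro h6; exact h5 ((r02_cm g y e).1 h6)

theorem r02_cen {t t' : V} {y y' : RA Γ} (h : y * gen t * y⁻¹ = y' * gen t' * y'⁻¹) :
    y⁻¹ * y' ∈ PP Γ (st Γ t) := by
  have h0 := zpow_eq (Γ := Γ) (v := t) (w := t') (n := 1) (m := 1) one_ne_zero (x := y) (y := y')
    (by rw [zpow_one, zpow_one]; exact h)
  obtain ⟨-, rfl, -⟩ := h0
  refine cen_gen (n := 1) one_ne_zero ?_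
  rw [zpow_one]
  calc y⁻¹ * y' * gen t = y⁻¹ * (y' * gen t * y'⁻¹) * y' := by group
    _ = y⁻¹ * (y * gen t * y⁻¹) * y' := by rw [h]
    _ = gen t * (y⁻¹ * y') := by group

theorem side_cnn {a : V × Bool} {t t' : V} {y y' : RA Γ}
    (h : y * gen t * y⁻¹ * gen a.1 ≠ gen a.1 * (y * gen t * y⁻¹))
    (h' : Cnn (gen a.1) (y * gen t * y⁻¹) (y' * gen t' * y'⁻¹)) :
    NN a.1 y (cw a) = NN a.1 y' (cw a) := by
  have key : ∀ b, Cnn (gen a.1) (y * gen t * y⁻¹) b → ∀ (y' : RA Γ) (t' : V),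
      b = y' * gen t' * y'⁻¹ → NN a.1 y (cw a) = NN a.1 y' (cw a) := by
    intro b hb
    unfold Cnn at hb
    induction hb with
    | refl =>
      intro y' t' h1
      have h2 := r02_cen h1
      have h3 := side h h2
      rw [mul_inv_cancel_left] at h3
      exact h3.symm
    | tail _ hst ih =>
      intro y' t' h1
      obtain ⟨hb1, -, hcomm, hn1, hn2⟩ := hst
      obtain ⟨y1, t1, hb1⟩ := hb1
      rw [ih y1 t1 hb1]
      rw [hb1] at hcomm hn1
      rw [h1] at hcomm hn2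
      have h4 : (gen t1 : RA Γ) * ((y1⁻¹ * y') * gen t' * (y1⁻¹ * y')⁻¹) =
          (y1⁻¹ * y') * gen t' * (y1⁻¹ * y')⁻¹ * gen t1 := by
        have h5 := (r02_cm y1⁻¹ (y1 * gen t1 * y1⁻¹) (y' * gen t' * y'⁻¹)).2 hcomm
        have e1 : y1⁻¹ * (y1 * gen t1 * y1⁻¹) * y1⁻¹⁻¹ = gen t1 := by group
        have e2 : y1⁻¹ * (y' * gen t' * y'⁻¹) * y1⁻¹⁻¹ = (y1⁻¹ * y') * gen t' * (y1⁻¹ * y')⁻¹ := by
          group
        rw [e1, e2] at h5
        exact h5
      obtain ⟨-, p, hp, q, hq, hz⟩ := comm_conj h4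
      have s1 := side hn1 hp
      have s2 := side hn2 (inv_mem hq)
      have e3 : y' * q⁻¹ = y1 * p := by
        have : y' = y1 * (p * q) := by rw [← hz]; group
        rw [this]; group
      rw [e3] at s2
      rw [← s1, s2]
  exact key _ h' y' t' rfl

theorem sepr (x y : RA Γ) (u w : V)
    (h : ¬ ∃ p ∈ PP Γ (st Γ u), ∃ q ∈ PP Γ (st Γ w), x * p = y * q) :
    ∃ e, IsE e ∧ x * gen u * x⁻¹ * e ≠ e * (x * gen u * x⁻¹) ∧
      y * gen w * y⁻¹ * e ≠ e * (y * gen w * y⁻¹) ∧ ¬ Cnn e (x * gen u * x⁻¹) (y * gen w * y⁻¹) := by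
  obtain ⟨p, hp, q, hq, z, hz, hL, hR⟩ := gate_lr (st Γ u) (st Γ w) (x⁻¹ * y)
  have hz1 : z ≠ 1 := by
    rintro rfl
    apply h
    refine ⟨p, hp, q⁻¹, inv_mem hq, ?_⟩
    have : y = x * (p * 1 * q) := by rw [← hz]; group
    rw [this]; group
  obtain ⟨a, ha⟩ := exists_lf hz1
  have hau := hL a ha
  have cp : Commute (gen u : RA Γ) p := st_comm hp
  have cq : Commute (gen w : RA Γ) q := st_comm hq
  have e1 : x * gen u * x⁻¹ = (x * p) * gen u * (x * p)⁻¹ := by
    calc x * gen u * x⁻¹ = x * (gen u * p) * p⁻¹ * x⁻¹ := by group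
      _ = x * (p * gen u) * p⁻¹ * x⁻¹ := by rw [cp.eq]
      _ = (x * p) * gen u * (x * p)⁻¹ := by group
  have e2 : y * gen w * y⁻¹ = (x * p) * (z * gen w * z⁻¹) * (x * p)⁻¹ := by
    have hy : y = x * (p * z * q) := by rw [← hz]; group
    calc y * gen w * y⁻¹ = x * p * z * (q * gen w) * q⁻¹ * z⁻¹ * p⁻¹ * x⁻¹ := by rw [hy]; group
      _ = x * p * z * (gen w * q) * q⁻¹ * z⁻¹ * p⁻¹ * x⁻¹ := by rw [cq.eq]
      _ = (x * p) * (z * gen w * z⁻¹) * (x * p)⁻¹ := by group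
  -- (a)
  have ha1 : (gen u : RA Γ) * gen a.1 ≠ gen a.1 * gen u := by
    intro hc
    apply hau
    have := cen_gen (Γ := Γ) (v := u) (n := 1) one_ne_zero (x := gen a.1)
      (by rw [zpow_one]; exact hc.symm)
    exact gen_mem_iff.1 this
  -- (b)
  have hb1 : z * gen w * z⁻¹ * gen a.1 ≠ gen a.1 * (z * gen w * z⁻¹) := by
    intro hc
    have h1 := cen_gen (Γ := Γ) (v := a.1) (n := 1) one_ne_zero (x := z * gen w * z⁻¹)
      (by rw [zpow_one]; exact hc)
    rw [mem_pp] at h1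
    have h2 := (conj_red (Γ := Γ) (w := w) (n := 1) one_ne_zero hR).2.2
    rw [zpow_one] at h2
    rw [h2] at h1
    have hws : w ∈ st Γ a.1 := h1 (Set.mem_insert _ _)
    have hzs : z ∈ PP Γ (st Γ a.1) := mem_pp.2 fun s hs => h1 (Set.mem_insert_of_mem _ hs)
    obtain ⟨k, z', hz', hzk⟩ := st_dec hzs
    have hirr : a.1 ∉ lk Γ a.1 := fun h => Γ.loopless.irrefl a.1 h
    have hk : k ≠ 0 := by
      rintro rfl
      rw [zpow_zero, one_mul] at hzk
      rw [hzk] at ha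
      exact hirr (mem_pp.1 hz' (lf_sup ha))
    have hcomm : z = z' * gen a.1 ^ k := by
      rw [hzk]
      have : Commute (gen a.1 : RA Γ) z' := lk_comm hz'
      exact (this.zpow_left k).eq
    have hrp : Rp z' (gen a.1 ^ k) := by
      intro b hb hb'
      have h3 := mem_pp.1 hz' (rt_sup hb)
      have h4 := lf_sup hb'
      rw [gen_pow_sup hk] at h4
      have h5 : b.1 = a.1 := h4
      rw [h5] at h3
      exact hirr h3
    have hne : (gen a.1 : RA Γ) ^ k ≠ 1 := by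
      intro h3
      rw [← zpow_zero (gen a.1 : RA Γ)] at h3
      exact hk (gen_zpow_inj h3)
    obtain ⟨c, hc1⟩ := exists_rt hne
    have hc2 : c.1 = a.1 := by
      have h4 := rt_sup hc1
      rw [gen_pow_sup hk] at h4
      exact h4
    have hc3 := rt_mul hrp hc1
    rw [← hcomm] at hc3
    apply hR c hc3
    rw [hc2]
    rcases hws with h5 | h5
    · exact Or.inl h5.symm
    · exact Or.inr h5.symm
  refine ⟨(x * p) * gen a.1 * (x * p)⁻¹, ⟨x * p, a.1, rfl⟩, ?_, ?_, ?_⟩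
  · rw [e1]
    intro hc
    exact ha1 ((r02_cm _ _ _).1 hc)
  · rw [e2]
    intro hc
    exact hb1 ((r02_cm _ _ _).1 hc)
  · rw [e1, e2]
    intro hc
    have h1 := r02_cnn (x * p)⁻¹ hc
    have f1 : (x * p)⁻¹ * ((x * p) * gen a.1 * (x * p)⁻¹) * (x * p)⁻¹⁻¹ = gen a.1 := by group
    have f2 : (x * p)⁻¹ * ((x * p) * gen u * (x * p)⁻¹) * (x * p)⁻¹⁻¹ = 1 * gen u * 1⁻¹ := by group
    have f3 : (x * p)⁻¹ * ((x * p) * (z * gen w * z⁻¹) * (x * p)⁻¹) * (x * p)⁻¹⁻¹ =
      z * gen w * z⁻¹ := by group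
    rw [f1, f2, f3] at h1
    have h2 := side_cnn (a := a) (t := u) (t' := w) (y := 1) (y' := z) (by simpa using ha1) h1
    rw [nn_one] at h2
    exact ha h2.symm

end

end RaagIso
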