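import Pool.Agent.Lib.MP_32d917_al_raag.W03

/-!
# E02: the Helly property of cosets of standard subgroups
-/

set_option autoImplicit false

namespace RaagIso

open Classical

section

variable {V : Type} {Γ : SimpleGraph V}

theorem e02_sub {D E : Set V} {y t : RA Γ} (hy : ∀ a, Rt y a → a.1 ∉ D) (ht : t ∈ PP Γ D)
    (h : y * t ∈ PP Γ E) : y ∈ PP Γ E := by
  have h1 : Rp y t := fun a ha hb => hy a ha (mem_pp.1 ht (lf_sup (a := ivl a) hb))
  rw [mem_pp, sup_mul h1] at h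
  exact mem_pp.2 (Set.subset_union_left.trans h)

theorem helly3 {D1 D2 D3 : Set V} {x1 x2 x3 : RA Γ}
    (h12 : ∃ p ∈ PP Γ D1, ∃ q ∈ PP Γ D2, x1 * p = x2 * q)
    (h13 : ∃ p ∈ PP Γ D1, ∃ q ∈ PP Γ D3, x1 * p = x3 * q)
    (h23 : ∃ p ∈ PP Γ D2, ∃ q ∈ PP Γ D3, x2 * p = x3 * q) :
    ∃ y, x1⁻¹ * y ∈ PP Γ D1 ∧ x2⁻¹ * y ∈ PP Γ D2 ∧ x3⁻¹ * y ∈ PP Γ D3 := by
  obtain ⟨p, hp, q, hq, e12⟩ := h12
  obtain ⟨p', hp', r, hr, e13⟩ := h13
  obtain ⟨q', hq', r', hr', e23⟩ := h23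
  obtain ⟨s, hs, y, hy, hyR, -⟩ := gate_r D3 ((x1 * p)⁻¹ * x3)
  have e1 : y * (s * r) = p⁻¹ * p' := by
    rw [← mul_assoc, ← hy, mul_assoc, ← e13, mul_inv_rev, mul_assoc, inv_mul_cancel_left]
  have e2 : y * (s * r') = q⁻¹ * q' := by
    rw [← mul_assoc, ← hy, mul_assoc, ← e23, e12, mul_inv_rev, mul_assoc, inv_mul_cancel_left]
  have h1 : y ∈ PP Γ D1 := e02_sub hyR (mul_mem hs hr) (e1 ▸ mul_mem (inv_mem hp) hp')
  have h2 : y ∈ PP Γ D2 := e02_sub hyR (mul_mem hs hr') (e2 ▸ mul_mem (inv_mem hq) hq')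
  refine ⟨x1 * p * y, ?_, ?_, ?_⟩
  · rw [mul_assoc, inv_mul_cancel_left]
    exact mul_mem hp h1
  · rw [e12, mul_assoc, inv_mul_cancel_left]
    exact mul_mem hq h2
  · have e3 : x3⁻¹ * (x1 * p * y) = s⁻¹ := by
      have : x3 = x1 * p * (y * s) := by rw [← hy, mul_inv_cancel_left]
      rw [this]
      group
    rw [e3]
    exact inv_mem hs

theorem e02_key {ι : Type} (s : Finset ι) : ∀ (x : ι → RA Γ) (D : ι → Set V),
    (∀ i ∈ s, ∀ j ∈ s, ∃ p ∈ PP Γ (D i), ∃ q ∈ PP Γ (D j), x i * p = x j * q) →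
    ∃ y, ∀ i ∈ s, (x i)⁻¹ * y ∈ PP Γ (D i) := by
  induction s using Finset.induction_on with
  | empty => exact fun x D _ => ⟨1, by simp⟩
  | insert k s hk ih =>
    intro x D h
    rcases s.eq_empty_or_nonempty with rfl | ⟨i0, hi0⟩
    · refine ⟨x k, fun i hi => ?_⟩
      rw [Finset.mem_insert] at hi
      rcases hi with rfl | hi
      · rw [inv_mul_cancel]
        exact one_mem _
      · exact absurd hi (Finset.notMem_empty _)
    · have hk' : k ∈ insert k s := Finset.mem_insert_self k s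
      have hs' : ∀ i ∈ s, i ∈ insert k s := fun i hi => Finset.mem_insert_of_mem hi
      have hc : ∀ i, ∃ p q : RA Γ, i ∈ s → p ∈ PP Γ (D i) ∧ q ∈ PP Γ (D k) ∧ x i * p = x k * q := by
        intro i
        by_cases hi : i ∈ s
        · obtain ⟨p, hp, q, hq, e⟩ := h i (hs' i hi) k hk'
          exact ⟨p, q, fun _ => ⟨hp, hq, e⟩⟩
        · exact ⟨1, 1, fun h => absurd h hi⟩
      choose p q hpq using hc
      obtain ⟨y, hy⟩ := ih (fun i => x i * p i) (fun i => D i ∩ D k) (by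
        intro i hi j hj
        obtain ⟨y, h1, h2, h3⟩ := helly3 (h i (hs' i hi) j (hs' j hj)) (h i (hs' i hi) k hk')
          (h j (hs' j hj) k hk')
        have key : ∀ l, l ∈ s → (x l)⁻¹ * y ∈ PP Γ (D l) →
            (x l * p l)⁻¹ * y ∈ PP Γ (D l ∩ D k) := by
          intro l hl h4
          obtain ⟨a, b, e⟩ := hpq l hl
          refine pp_inf _ _ ?_ ?_
          · rw [mul_inv_rev, mul_assoc]
            exact mul_mem (inv_mem a) h4
          · rw [e, mul_inv_rev, mul_assoc]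
            exact mul_mem (inv_mem b) h3
        exact ⟨_, key i hi h1, _, key j hj h2, by
          rw [mul_inv_cancel_left, mul_inv_cancel_left]⟩)
      refine ⟨y, fun i hi => ?_⟩
      rw [Finset.mem_insert] at hi
      rcases hi with rfl | hi
      · obtain ⟨a, b, e⟩ := hpq i0 hi0
        have h5 := pp_mono (Γ := Γ) Set.inter_subset_right (hy i0 hi0)
        have h6 := mul_mem b h5
        rw [e, mul_inv_rev, mul_assoc, mul_inv_cancel_left] at h6
        exact h6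
      · obtain ⟨a, b, e⟩ := hpq i hi
        have h5 := pp_mono (Γ := Γ) Set.inter_subset_left (hy i hi)
        have h6 := mul_mem a h5
        rw [mul_inv_rev, mul_assoc, mul_inv_cancel_left] at h6
        exact h6

theorem helly {ι : Type} [Finite ι] (x : ι → RA Γ) (D : ι → Set V)
    (h : ∀ i j, ∃ p ∈ PP Γ (D i), ∃ q ∈ PP Γ (D j), x i * p = x j * q) :
    ∃ y, ∀ i, (x i)⁻¹ * y ∈ PP Γ (D i) := by
  have := Fintype.ofFinite ι
  obtain ⟨y, hy⟩ := e02_key Finset.univ x D (fun i _ j _ => h i j)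
  exact ⟨y, fun i => hy i (Finset.mem_univ i)⟩

end

end RaagIso
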