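import Pool.Agent.Lib.MP_32d917_al_raag.RiDefs

/-!
# Definitions for the finite data of isomorphisms
-/

set_option autoImplicit false

namespace RaagIso

section

variable {C : Type}

/-- the permutation of `C × ℤ` given by a permutation of `C` and a function -/
def shP (σ : Equiv.Perm C) (l : C → ℤ) : Equiv.Perm (C × ℤ) where
  toFun p := (σ p.1, p.2 + l p.1)
  invFun p := (σ.symm p.1, p.2 - l (σ.symm p.1))
  left_inv p := by simp
  right_inv p := by simp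

/-- the displacement `l c + l (σ c) + ... ` (`n` terms) -/
def sh (σ : Equiv.Perm C) (l : C → ℤ) (c : C) (n : ℤ) : ℤ := ((shP σ l ^ n) (c, 0)).2

end

section

variable {V V' C C' : Type} {Γ : SimpleGraph V} {Γ' : SimpleGraph V'}

/-- right action on `C` -/
def rm (ρ : RA Γ →* Equiv.Perm C) (c : C) (x : RA Γ) : C := ρ x⁻¹ c

theorem rm_one (ρ : RA Γ →* Equiv.Perm C) (c : C) : rm ρ c 1 = c := by
  simp [rm]

theorem rm_mul (ρ : RA Γ →* Equiv.Perm C) (c : C) (x y : RA Γ) :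
    rm ρ c (x * y) = rm ρ (rm ρ c x) y := by
  simp [rm, mul_inv_rev, map_mul, Equiv.Perm.mul_apply]

/-- stabiliser -/
def stb (ρ : RA Γ →* Equiv.Perm C) (c : C) : Subgroup (RA Γ) where
  carrier := {x | rm ρ c x = c}
  mul_mem' := by
    intro a b ha hb
    show rm ρ c (a * b) = c
    rw [rm_mul, show rm ρ c a = c from ha, show rm ρ c b = c from hb]
  one_mem' := rm_one ρ c
  inv_mem' := by
    intro a ha
    show rm ρ c a⁻¹ = c
    have h : rm ρ (rm ρ c a) a⁻¹ = c := by rw [← rm_mul, mul_inv_cancel, rm_one]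
    rwa [show rm ρ c a = c from ha] at h

theorem mem_stb {ρ : RA Γ →* Equiv.Perm C} {c : C} {x : RA Γ} : x ∈ stb ρ c ↔ rm ρ c x = c :=
  Iff.rfl

/-- transitivity -/
def Trn (ρ : RA Γ →* Equiv.Perm C) : Prop := ∀ c d : C, ∃ x, rm ρ c x = d

/-- right multiplication by a generator, as a permutation -/
def pv (ρ : RA Γ →* Equiv.Perm C) (v : V) : Equiv.Perm C := (ρ (gen v))⁻¹

theorem pv_apply (ρ : RA Γ →* Equiv.Perm C) (v : V) (c : C) : pv ρ v c = rm ρ c (gen v) := by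
  simp [pv, rm]

theorem pv_zpow (ρ : RA Γ →* Equiv.Perm C) (v : V) (n : ℤ) (c : C) :
    (pv ρ v ^ n) c = rm ρ c (gen v ^ n) := by
  simp [pv, rm]

/-- cocycles -/
def Coc (ρ : RA Γ →* Equiv.Perm C) {K : Type} [Group K] (x : C → V → K) : Prop :=
  ∀ c v w, Γ.Adj v w → x c v * x (rm ρ c (gen v)) w = x c w * x (rm ρ c (gen w)) v

/-- finite data of an isomorphism -/
structure Dt (ρ : RA Γ →* Equiv.Perm C) (ρ' : RA Γ' →* Equiv.Perm C') (F : C ≃ C')
    (τ : C → V ≃ V') (la : C → V → ℤ) : Prop where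
  adj : ∀ c v w, Γ.Adj v w ↔ Γ'.Adj (τ c v) (τ c w)
  tau : ∀ c v w, w ∈ st Γ v → τ (rm ρ c (gen v)) w = τ c w
  lam : ∀ c v w, Γ.Adj v w → la (rm ρ c (gen w)) v = la c v
  mul : ∀ c v, F (rm ρ c (gen v)) = rm ρ' (F c) (gen (τ c v) ^ la c v)
  bij : ∀ c v, Function.Bijective (sh (pv ρ v) (fun d => la d v) c)

/-- finite data of an isomorphism, numerical form. `M` is a number such that all `gen v ^ M` act
trivially. -/
structure Nm (ρ : RA Γ →* Equiv.Perm C) (ρ' : RA Γ' →* Equiv.Perm C') (M : ℕ) (F : C ≃ C')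
    (τ : C → V ≃ V') (de : C → V → ℕ) (ep : C → V → ℤ) (sn : C → V → Bool) : Prop where
  adj : ∀ c v w, Γ.Adj v w ↔ Γ'.Adj (τ c v) (τ c w)
  tau : ∀ c v w, w ∈ st Γ v → τ (rm ρ c (gen v)) w = τ c w
  mul : ∀ c v, F (rm ρ c (gen v)) = rm ρ' (F c) (gen (τ c v) ^ de c v)
  dis : ∀ c v, ∀ i j : ℕ, i < j → j < M →
    ¬ (M ∣ ∑ l ∈ Finset.Ico i j, de (rm ρ c (gen v ^ l)) v)
  lam : ∀ c v w, Γ.Adj v w → (de (rm ρ c (gen w)) v : ℤ) + M * ep (rm ρ c (gen w)) v =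
    de c v + M * ep c v
  sum : ∀ c v, ∑ l ∈ Finset.range M, ((de (rm ρ c (gen v ^ l)) v : ℤ) +
    M * ep (rm ρ c (gen v ^ l)) v) = if sn c v then (M : ℤ) else -M

end

end RaagIso
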