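import Pool.Agent.Lib.MP_32d917_al_raag.BDefs

/-!
# B01: cocycles

For `v` let `R v : Equiv.Perm (C × K)` be `(c, y) ↦ (rm ρ c (gen v), y * x c v)`, with inverse
`(c, y) ↦ (d, y * (x d v)⁻¹)`, `d = rm ρ c (gen v)⁻¹`. For adjacent `v`, `w` the permutations `R v`, `R w` commute (`Coc`, and `gen v`, `gen w` commute: `gen_comm`,
`rm_mul`). So `(R v)⁻¹` define a homomorphism `S : RA Γ →* Equiv.Perm (C × K)` by `ra_lift`, `S (gen v) = (R v)⁻¹`. Put
`κ c g = (S g⁻¹ (c, 1)).2`. Show by `ra_ind` on `g` (a statement which is closed under products and inverses):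
`S g⁻¹ (c, y) = (rm ρ c g, y * (S g⁻¹ (c, 1)).2)` for all `c, y`.
Then `S (g * h)⁻¹ (c, 1) = S h⁻¹ (S g⁻¹ (c, 1))`.
-/

set_option autoImplicit false

namespace RaagIso

section

variable {V C K : Type} {Γ : SimpleGraph V} [Group K]

theorem b01_inv_left (ρ : RA Γ →* Equiv.Perm C) (c : C) (g : RA Γ) :
    rm ρ (rm ρ c g) g⁻¹ = c := by
  rw [← rm_mul, mul_inv_cancel, rm_one]

theorem b01_inv_right (ρ : RA Γ →* Equiv.Perm C) (c : C) (g : RA Γ) :
    rm ρ (rm ρ c g⁻¹) g = c := by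
  rw [← rm_mul, inv_mul_cancel, rm_one]

/-- the permutation attached to a generator -/
def b01_R (ρ : RA Γ →* Equiv.Perm C) (x : C → V → K) (v : V) : Equiv.Perm (C × K) where
  toFun p := (rm ρ p.1 (gen v), p.2 * x p.1 v)
  invFun p := (rm ρ p.1 (gen v)⁻¹, p.2 * (x (rm ρ p.1 (gen v)⁻¹) v)⁻¹)
  left_inv p := by
    obtain ⟨c, y⟩ := p
    simp only [b01_inv_left, mul_inv_cancel_right]
  right_inv p := by
    obtain ⟨c, y⟩ := p
    simp only [b01_inv_right, inv_mul_cancel_right]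

theorem b01_R_comm {ρ : RA Γ →* Equiv.Perm C} {x : C → V → K} (h : Coc ρ x) {v w : V}
    (hvw : Γ.Adj v w) : b01_R ρ x v * b01_R ρ x w = b01_R ρ x w * b01_R ρ x v := by
  apply Equiv.ext
  rintro ⟨c, y⟩
  show (rm ρ (rm ρ c (gen w)) (gen v), y * x c w * x (rm ρ c (gen w)) v) =
    (rm ρ (rm ρ c (gen v)) (gen w), y * x c v * x (rm ρ c (gen v)) w)
  rw [← rm_mul, ← rm_mul, gen_comm hvw, mul_assoc, mul_assoc, h c v w hvw]

theorem exists_cc {ρ : RA Γ →* Equiv.Perm C} {x : C → V → K} (h : Coc ρ x) :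
    ∃ κ : C → RA Γ → K, (∀ c v, κ c (gen v) = x c v) ∧
      ∀ c g h, κ c (g * h) = κ c g * κ (rm ρ c g) h := by
  obtain ⟨S, hS⟩ := ra_lift (Γ := Γ) (fun v => (b01_R ρ x v)⁻¹) (by
    intro v w hvw
    show (b01_R ρ x v)⁻¹ * (b01_R ρ x w)⁻¹ = (b01_R ρ x w)⁻¹ * (b01_R ρ x v)⁻¹
    rw [← mul_inv_rev, ← mul_inv_rev, b01_R_comm h hvw])
  have key : ∀ g : RA Γ, ∀ c y, S g⁻¹ (c, y) = (rm ρ c g, y * (S g⁻¹ (c, 1)).2) := by
    intro g
    induction g using ra_ind with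
    | h1 =>
      intro c y
      simp [rm_one]
    | hg v =>
      intro c y
      rw [map_inv, hS v, inv_inv]
      show (rm ρ c (gen v), y * x c v) = (rm ρ c (gen v), y * (1 * x c v))
      rw [one_mul]
    | hm a b ha hb =>
      intro c y
      rw [mul_inv_rev, map_mul, Equiv.Perm.mul_apply, Equiv.Perm.mul_apply, ha c y, hb, ha c 1,
        hb (rm ρ c a) (1 * _), rm_mul]
      simp only [one_mul, mul_assoc]
    | hi a ha =>
      intro c y
      rw [inv_inv]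
      have h3 : ∀ c y, S a (rm ρ c a, y * (S a⁻¹ (c, 1)).2) = (c, y) := by
        intro c y
        rw [← ha c y, ← Equiv.Perm.mul_apply, ← map_mul, mul_inv_cancel, map_one]
        rfl
      have h4 : ∀ c y, S a (c, y) = (rm ρ c a⁻¹, y * ((S a⁻¹ (rm ρ c a⁻¹, 1)).2)⁻¹) := by
        intro c y
        have h5 := h3 (rm ρ c a⁻¹) (y * ((S a⁻¹ (rm ρ c a⁻¹, 1)).2)⁻¹)
        rw [b01_inv_right, inv_mul_cancel_right] at h5
        exact h5
      rw [h4 c y, h4 c 1, one_mul]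
  refine ⟨fun c g => (S g⁻¹ (c, 1)).2, ?_, ?_⟩
  · intro c v
    show (S (gen v)⁻¹ (c, 1)).2 = x c v
    rw [map_inv, hS v, inv_inv]
    show 1 * x c v = x c v
    rw [one_mul]
  · intro c g k
    show (S (g * k)⁻¹ (c, 1)).2 = (S g⁻¹ (c, 1)).2 * (S k⁻¹ (rm ρ c g, 1)).2
    rw [mul_inv_rev, map_mul, Equiv.Perm.mul_apply, key g c 1, key k (rm ρ c g) (1 * _), one_mul]

/-- cocycles are trivial at `1` -/
theorem cc_one {ρ : RA Γ →* Equiv.Perm C} {κ : C → RA Γ → K}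
    (h : ∀ c g h, κ c (g * h) = κ c g * κ (rm ρ c g) h) (c : C) : κ c 1 = 1 := by
  have h1 := h c 1 1
  rw [rm_one, mul_one] at h1
  exact (mul_eq_left.mp h1.symm)

/-- two cocycles which agree on the generators are equal -/
theorem cc_ext {ρ : RA Γ →* Equiv.Perm C} {κ κ' : C → RA Γ → K}
    (h : ∀ c g h, κ c (g * h) = κ c g * κ (rm ρ c g) h)
    (h' : ∀ c g h, κ' c (g * h) = κ' c g * κ' (rm ρ c g) h)
    (he : ∀ c v, κ c (gen v) = κ' c (gen v)) (c : C) (g : RA Γ) : κ c g = κ' c g := by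
  have key : ∀ g : RA Γ, ∀ c, κ c g = κ' c g := by
    intro g
    induction g using ra_ind with
    | h1 => intro c; rw [cc_one h, cc_one h']
    | hg v => intro c; exact he c v
    | hm a b ha hb => intro c; rw [h, h', ha, hb]
    | hi a ha =>
      intro c
      have h1 := h (rm ρ c a⁻¹) a a⁻¹
      have h2 := h' (rm ρ c a⁻¹) a a⁻¹
      rw [mul_inv_cancel, cc_one h, b01_inv_right] at h1
      rw [mul_inv_cancel, cc_one h', b01_inv_right] at h2
      rw [← ha (rm ρ c a⁻¹)] at h2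
      exact mul_left_cancel (h1.symm.trans h2)
  exact key g c

end

end RaagIso
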