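import Pool.Agent.Lib.MP_32d917_al_raag.BDefs

/-!
# B02: displacement functions

`sh_fst`: `(shP σ l ^ n) (c, m) = ((σ ^ n) c, m + sh σ l c n)` for all `n : ℤ` (`Int.induction_on`, first for the first
component and for the translation invariance in `m`). This gives `sh_add`.

`sh_bij_iff`. Let `s = sh σ l c M`. As `σ ^ M = 1`, `sh_add` gives `sh (n + M) = sh n + s`, so `sh (n + k * M) = sh n + k * s` for all `k : ℤ`.
(⇒) Injectivity gives `s ≠ 0`. The map `sh` induces a bijection `ℤ / M → ℤ / |s|`: well defined; surjective since `sh` is; injective: if `sh n = sh m + k * s = sh (m + k * M)` then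
`n = m + k * M`. So `M = |s|` (cardinalities of `ZMod M` and `ZMod s.natAbs`; or: the `M` integers `sh 0, ..., sh (M - 1)` form a system of representatives modulo `|s|`). If `M ∣ sh j - sh i` then
`sh j = sh i + k * s = sh (i + k * M)`, so `j = i + k * M`, contradiction to `i < j < M`.
(⇐) `s = ± M`. Injective: `sh n = sh m`, `n = i + k * M`, `m = j + l * M` with `0 ≤ i, j < M`: `M ∣ sh j - sh i`, so `i = j`, so `k * s = l * s`, `k = l`. Surjective: the values
`sh 0, ..., sh (M - 1)` are different modulo `M`, so they cover all classes modulo `M` (injective maps `Fin M → ZMod M` are surjective): `z = sh i + k * M = sh (i ± k * M)`.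

`sh_symm`: the inverse function. Let `u n` be the inverse function of `sh σ l c` (all `sh σ l d` are bijective). Let `σ'` be a permutation of `D`, `F : C ≃ D`, and let
`l' (F d) = (the n with sh σ l d n = 1)` and `σ' (F d) = F ((σ ^ n) d)` for this `n`. Then `sh σ' l' (F c) (sh σ l c n) = n` for all `n` and all `c`. Proof: show for all `m : ℤ`:
`(σ' ^ m) (F c) = F ((σ ^ n) c)` and `sh σ' l' (F c) m = n` where `n` is the number with `sh σ l c n = m`; induction on `m` up and down (`Int.induction_on`) for all `c` simultaneously, with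
`sh σ l c (n + k) = m + 1` if `k` is the number with `sh σ l ((σ ^ n) c) k = 1`. For the step down apply the step up at the point `d` with `F d = σ'⁻¹ (F ...)` (or use bijectivity).
-/

set_option autoImplicit false

namespace RaagIso

section

variable {C D : Type} {σ : Equiv.Perm C} {l : C → ℤ}

theorem b02_shP (c : C) (m : ℤ) : shP σ l (c, m) = (σ c, m + l c) := rfl

theorem b02_fst (n : ℤ) (p : C × ℤ) : ((shP σ l ^ n) p).1 = (σ ^ n) p.1 := by
  induction n using Int.induction_on with
  | zero => simp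
  | succ n ih =>
    have e1 : ((n : ℤ) + 1) = 1 + n := by ring
    rw [e1, zpow_add, zpow_one, zpow_add, zpow_one, Equiv.Perm.mul_apply, Equiv.Perm.mul_apply, ← ih]
    rfl
  | pred n ih =>
    have e1 : (-(n : ℤ) - 1) = -1 + -n := by ring
    rw [e1, zpow_add, zpow_neg_one, zpow_add, zpow_neg_one, Equiv.Perm.mul_apply,
      Equiv.Perm.mul_apply, ← ih]
    rfl

/-- the translation -/
def b02_tr (C : Type) (m : ℤ) : Equiv.Perm (C × ℤ) where
  toFun p := (p.1, p.2 + m)
  invFun p := (p.1, p.2 - m)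
  left_inv p := by simp
  right_inv p := by simp

theorem b02_comm (m : ℤ) : Commute (shP σ l) (b02_tr C m) := by
  apply Equiv.ext
  intro p
  rw [Equiv.Perm.mul_apply, Equiv.Perm.mul_apply]
  show (σ p.1, p.2 + m + l p.1) = (σ p.1, p.2 + l p.1 + m)
  congr 1
  ring

theorem sh_fst (n : ℤ) (c : C) (m : ℤ) : (shP σ l ^ n) (c, m) = ((σ ^ n) c, m + sh σ l c n) := by
  have h1 := (b02_comm (σ := σ) (l := l) m).zpow_left n
  have h2 : (shP σ l ^ n) (b02_tr C m (c, 0)) = b02_tr C m ((shP σ l ^ n) (c, 0)) := by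
    rw [← Equiv.Perm.mul_apply, ← Equiv.Perm.mul_apply, h1.eq]
  have h3 : b02_tr C m (c, 0) = (c, m) := by
    show (c, (0 : ℤ) + m) = (c, m)
    rw [zero_add]
  rw [h3] at h2
  rw [h2]
  show (((shP σ l ^ n) (c, 0)).1, ((shP σ l ^ n) (c, 0)).2 + m) = _
  rw [b02_fst, add_comm]
  rfl

theorem sh_zero (c : C) : sh σ l c 0 = 0 := by
  simp [sh]

theorem sh_one (c : C) : sh σ l c 1 = l c := by
  simp [sh, shP]

theorem sh_add (c : C) (n k : ℤ) : sh σ l c (n + k) = sh σ l c n + sh σ l ((σ ^ n) c) k := by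
  have h1 : (shP σ l ^ (n + k)) (c, 0) = (shP σ l ^ k) ((shP σ l ^ n) (c, 0)) := by
    rw [add_comm, zpow_add, Equiv.Perm.mul_apply]
  have h2 : sh σ l c (n + k) = ((shP σ l ^ (n + k)) (c, 0)).2 := rfl
  rw [h2, h1, sh_fst, sh_fst]
  simp

theorem b02_succ (c : C) (n : ℤ) : sh σ l c (n + 1) = sh σ l c n + l ((σ ^ n) c) := by
  rw [sh_add, sh_one]

theorem sh_nat (c : C) (n : ℕ) : sh σ l c n = ∑ j ∈ Finset.range n, l ((σ ^ j) c) := by
  induction n with
  | zero => simpa using sh_zero c
  | succ n ih =>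
    rw [Finset.sum_range_succ, ← ih, Nat.cast_succ, b02_succ, zpow_natCast]

/-- a function with the right increments is the displacement function -/
theorem sh_unique (c : C) (g : ℤ → ℤ) (h0 : g 0 = 0) (h : ∀ n, g (n + 1) = g n + l ((σ ^ n) c))
    (n : ℤ) : g n = sh σ l c n := by
  induction n using Int.induction_on with
  | zero => rw [h0, sh_zero]
  | succ n ih => rw [h, b02_succ, ih]
  | pred n ih =>
    have h1 := h (-(n : ℤ) - 1)
    have h2 := b02_succ (σ := σ) (l := l) c (-(n : ℤ) - 1)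
    rw [sub_add_cancel] at h1 h2
    rw [ih, h2] at h1
    linarith

theorem sh_ext {l' : C → ℤ} (c : C) (h : ∀ n : ℤ, l ((σ ^ n) c) = l' ((σ ^ n) c)) (n : ℤ) :
    sh σ l c n = sh σ l' c n := by
  refine sh_unique c (sh σ l c) (sh_zero c) ?_ n
  intro n
  rw [b02_succ, h]

theorem b02_per {M : ℕ} (hσ : σ ^ M = 1) (c : C) (n k : ℤ) :
    sh σ l c (n + k * M) = sh σ l c n + k * sh σ l c M := by
  have hM : ∀ k : ℤ, (σ ^ (k * (M : ℤ))) = 1 := by
    intro k
    rw [mul_comm, zpow_mul, zpow_natCast, hσ, one_zpow]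
  have h1 : ∀ n : ℤ, sh σ l c (n + M) = sh σ l c n + sh σ l c M := by
    intro n
    have h2 := hM 1
    rw [one_mul] at h2
    rw [add_comm n, sh_add, h2, Equiv.Perm.one_apply, add_comm]
  induction k using Int.induction_on with
  | zero => simp
  | succ k ih =>
    have e : n + ((k : ℤ) + 1) * M = (n + k * M) + M := by ring
    rw [e, h1, ih]
    ring
  | pred k ih =>
    have h2 := h1 (n + (-(k : ℤ) - 1) * M)
    have e : n + (-(k : ℤ) - 1) * M + M = n + -(k : ℤ) * M := by ring
    rw [e, ih] at h2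
    linarith

theorem sh_bij_iff {M : ℕ} (hM : 0 < M) (hσ : σ ^ M = 1) (c : C) :
    Function.Bijective (sh σ l c) ↔ (sh σ l c M = M ∨ sh σ l c M = -M) ∧
      ∀ i j : ℕ, i < j → j < M → ¬ ((M : ℤ) ∣ sh σ l c j - sh σ l c i) := by
  have hper := b02_per (l := l) hσ c
  have hM0 : (0 : ℤ) < M := by exact_mod_cast hM
  have hdiv : ∀ n : ℤ, ∃ (i : ℕ) (k : ℤ), i < M ∧ n = i + k * M := by
    intro n
    refine ⟨(n % M).toNat, n / M, ?_, ?_⟩
    · have h1 := Int.emod_lt_of_pos n hM0
      have h2 := Int.emod_nonneg n hM0.ne'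
      omega
    · have h2 := Int.emod_nonneg n hM0.ne'
      rw [Int.toNat_of_nonneg h2]
      have := Int.emod_add_mul_ediv n M
      linarith
  constructor
  · intro hb
    set s := sh σ l c M with hs
    have hs0 : s ≠ 0 := by
      intro h0
      have h1 : sh σ l c M = sh σ l c 0 := by rw [← hs, h0, sh_zero]
      have h2 := hb.1 h1
      omega
    have hn0 : s.natAbs ≠ 0 := Int.natAbs_ne_zero.2 hs0
    have : NeZero s.natAbs := ⟨hn0⟩
    have hdvd : ∀ x : ℤ, ((s.natAbs : ℕ) : ℤ) ∣ x → ∃ k, x = k * s := by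
      intro x hx
      have h1 : s ∣ x := by
        rw [← Int.natAbs_dvd]; exact hx
      obtain ⟨k, hk⟩ := h1
      exact ⟨k, by rw [hk]; ring⟩
    have hinj : Function.Injective (fun i : Fin M => ((sh σ l c (i : ℕ) : ℤ) : ZMod s.natAbs)) := by
      intro i j hij
      have h1 : (((s.natAbs : ℕ) : ℤ)) ∣ sh σ l c (i : ℕ) - sh σ l c (j : ℕ) := by
        have h2 : ((sh σ l c (i : ℕ) : ℤ) : ZMod s.natAbs) = ((sh σ l c (j : ℕ) : ℤ) : ZMod s.natAbs) := hij
        exact (ZMod.intCast_eq_intCast_iff_dvd_sub _ _ _).1 h2.symm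
      obtain ⟨k, hk⟩ := hdvd _ h1
      have h2 : sh σ l c (i : ℕ) = sh σ l c ((j : ℕ) + k * M) := by
        rw [hper]; linarith
      have h3 := hb.1 h2
      have h4 := i.2
      have h5 := j.2
      have h6 : k = 0 := by
        have : (k * M : ℤ) < M := by linarith [(by exact_mod_cast h4 : ((i : ℕ) : ℤ) < M), (by positivity : (0 : ℤ) ≤ ((j : ℕ) : ℤ))]
        have h7 : (-M : ℤ) < k * M := by linarith [(by exact_mod_cast h5 : ((j : ℕ) : ℤ) < M), (by positivity : (0 : ℤ) ≤ ((i : ℕ) : ℤ))]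
        have h8 : k < 1 := by nlinarith
        have h9 : -1 < k := by nlinarith
        omega
      rw [h6] at h3
      apply Fin.ext
      have : ((i : ℕ) : ℤ) = (j : ℕ) := by linarith
      exact_mod_cast this
    have hsurj : Function.Surjective (fun i : Fin M => ((sh σ l c (i : ℕ) : ℤ) : ZMod s.natAbs)) := by
      intro z
      obtain ⟨a, ha⟩ := ZMod.intCast_surjective z
      obtain ⟨n, hn⟩ := hb.2 a
      obtain ⟨i, k, hi, hik⟩ := hdiv n
      refine ⟨⟨i, hi⟩, ?_⟩
      show ((sh σ l c (i : ℕ) : ℤ) : ZMod s.natAbs) = z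
      rw [← ha, ← hn, hik, hper]
      have h1 : ((s : ℤ) : ZMod s.natAbs) = 0 := by
        rw [ZMod.intCast_zmod_eq_zero_iff_dvd]
        exact Int.natAbs_dvd.2 dvd_rfl
      push_cast
      rw [h1]
      ring
    have hcard := Fintype.card_of_bijective ⟨hinj, hsurj⟩
    rw [Fintype.card_fin, ZMod.card] at hcard
    have hsM : s = M ∨ s = -M := by
      rw [hcard]
      exact Int.natAbs_eq s
    refine ⟨hsM, ?_⟩
    intro i j hij hjM hd
    have h1 : ∃ k, sh σ l c j - sh σ l c i = k * s := by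
      apply hdvd
      rw [← hcard]; exact hd
    obtain ⟨k, hk⟩ := h1
    have h2 : sh σ l c j = sh σ l c (i + k * M) := by
      rw [hper]; linarith
    have h3 := hb.1 h2
    have h4 : (k * M : ℤ) < M := by
      have : ((j : ℕ) : ℤ) < M := by exact_mod_cast hjM
      have : (0 : ℤ) ≤ ((i : ℕ) : ℤ) := by positivity
      linarith
    have h5 : (0 : ℤ) < k * M := by
      have : ((i : ℕ) : ℤ) < j := by exact_mod_cast hij
      linarith
    have h6 : k < 1 := by nlinarith
    have h7 : 0 < k := by nlinarith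
    omega
  · rintro ⟨hs, hne⟩
    have hne' : ∀ i j : ℕ, i < M → j < M → (M : ℤ) ∣ sh σ l c j - sh σ l c i → i = j := by
      intro i j hi hj hd
      by_contra hij
      rcases Nat.lt_or_gt_of_ne hij with h | h
      · exact hne i j h hj hd
      · exact hne j i h hi (by rw [← neg_sub]; exact (dvd_neg.2 hd))
    have hsd : ∀ k : ℤ, (M : ℤ) ∣ k * sh σ l c M := by
      intro k
      rcases hs with h | h
      · rw [h]; exact dvd_mul_left _ _
      · rw [h]; exact Dvd.dvd.mul_left (dvd_neg.2 dvd_rfl) k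
    have hs0 : sh σ l c M ≠ 0 := by
      rcases hs with h | h <;> rw [h] <;> omega
    constructor
    · intro n m hnm
      obtain ⟨i, k, hi, hik⟩ := hdiv n
      obtain ⟨j, k', hj, hjk⟩ := hdiv m
      rw [hik, hjk, hper, hper] at hnm
      have h1 : (M : ℤ) ∣ sh σ l c j - sh σ l c i := by
        have h2 := dvd_sub (hsd k) (hsd k')
        have h3 : sh σ l c j - sh σ l c i = k * sh σ l c M - k' * sh σ l c M := by linarith
        rw [h3]; exact h2
      have hij := hne' i j hi hj h1
      subst hij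
      have h2 : k * sh σ l c M = k' * sh σ l c M := by linarith
      have h3 := mul_right_cancel₀ hs0 h2
      rw [hik, hjk, h3]
    · intro z
      have : NeZero M := ⟨hM.ne'⟩
      have hinj : Function.Injective (fun i : Fin M => ((sh σ l c (i : ℕ) : ℤ) : ZMod M)) := by
        intro i j hij
        have h1 : ((sh σ l c (i : ℕ) : ℤ) : ZMod M) = ((sh σ l c (j : ℕ) : ℤ) : ZMod M) := hij
        have h2 := (ZMod.intCast_eq_intCast_iff_dvd_sub _ _ _).1 h1
        exact Fin.ext (hne' i j i.2 j.2 h2)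
      have hbij := (Fintype.bijective_iff_injective_and_card
        (fun i : Fin M => ((sh σ l c (i : ℕ) : ℤ) : ZMod M))).2 ⟨hinj, by rw [Fintype.card_fin, ZMod.card]⟩
      obtain ⟨i, hi⟩ := hbij.2 (z : ZMod M)
      have h1 : ((sh σ l c (i : ℕ) : ℤ) : ZMod M) = (z : ZMod M) := hi
      obtain ⟨t, ht⟩ := (ZMod.intCast_eq_intCast_iff_dvd_sub _ _ _).1 h1
      rcases hs with h | h
      · refine ⟨(i : ℕ) + t * M, ?_⟩
        rw [hper, h]; linarith
      · refine ⟨(i : ℕ) + (-t) * M, ?_⟩
        rw [hper, h]; linarith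

theorem sh_symm (hb : ∀ c, Function.Bijective (sh σ l c)) (F : C ≃ D) (σ' : Equiv.Perm D)
    (l' : D → ℤ) (h1 : ∀ c, sh σ l c (l' (F c)) = 1) (h2 : ∀ c, σ' (F c) = F ((σ ^ l' (F c)) c))
    (c : C) (n : ℤ) : sh σ' l' (F c) (sh σ l c n) = n ∧ (σ' ^ sh σ l c n) (F c) = F ((σ ^ n) c) := by
  have key : ∀ m : ℤ, ∀ n : ℤ, sh σ l c n = m →
      sh σ' l' (F c) m = n ∧ (σ' ^ m) (F c) = F ((σ ^ n) c) := by
    intro m
    induction m using Int.induction_on with
    | zero =>
      intro n hn
      have hn0 : n = 0 := (hb c).1 (by rw [hn, sh_zero])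
      subst hn0
      simp [sh_zero]
    | succ m ih =>
      intro n' hn'
      obtain ⟨n, hn⟩ := (hb c).2 (m : ℤ)
      obtain ⟨i1, i2⟩ := ih n hn
      have h3 : sh σ l c (n + l' (F ((σ ^ n) c))) = (m : ℤ) + 1 := by
        rw [sh_add, hn, h1]
      have h4 : n' = n + l' (F ((σ ^ n) c)) := (hb c).1 (by rw [hn', h3])
      subst h4
      constructor
      · rw [b02_succ, i1, i2]
      · have e : ((m : ℤ) + 1) = 1 + m := by ring
        rw [e, zpow_add, zpow_one, Equiv.Perm.mul_apply, i2, h2, ← Equiv.Perm.mul_apply, ← zpow_add,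
          add_comm (l' _)]
    | pred m ih =>
      intro n hn
      have h3 : sh σ l c (n + l' (F ((σ ^ n) c))) = -(m : ℤ) := by
        rw [sh_add, hn, h1]; ring
      obtain ⟨i1, i2⟩ := ih _ h3
      have h5 : (σ' ^ (-(m : ℤ) - 1)) (F c) = F ((σ ^ n) c) := by
        apply σ'.injective
        have e : (-(m : ℤ)) = 1 + (-(m : ℤ) - 1) := by ring
        rw [e, zpow_add, zpow_one, Equiv.Perm.mul_apply] at i2
        rw [i2, h2, ← Equiv.Perm.mul_apply, ← zpow_add, add_comm n]
      refine ⟨?_, h5⟩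
      have h6 := b02_succ (σ := σ') (l := l') (F c) (-(m : ℤ) - 1)
      rw [sub_add_cancel, i1, h5] at h6
      linarith
  exact key _ n rfl

end

end RaagIso
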