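import Pool.Agent.Lib.MP_32d917_al_raag.B01
import Pool.Agent.Lib.MP_32d917_al_raag.B02

/-!
# B04: finite data give isomorphisms

`dt_coc`: `x c v = gen (τ c v) ^ la c v` is a cocycle: for adjacent `v`, `w`: `τ (rm ρ c (gen v)) w = τ c w` (`tau`), `la (rm ρ c (gen v)) w = la c w` (`lam`, with `Γ.Adj w v`), and the images commute (`adj`, `gen_comm`).
Let `κ` be the cocycle of `exists_cc`.

`cc_line`: `κ c (gen v ^ n) = gen (τ c v) ^ sh (pv ρ v) (fun d => la d v) c n` (`Int.induction_on` or `sh_unique`; `τ (rm ρ c (gen v ^ n)) v = τ c v`).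

`cc_F`: `F (rm ρ c g) = rm ρ' (F c) (κ c g)` (for all `c`; by `ra_ind` on `g`, or with the words of `ev_surj`; for inverses: `κ c g⁻¹ = (κ (rm ρ c g⁻¹) g)⁻¹`).

`cc_surj`: `κ c` is surjective: by `ra_ind` on the value `y` for all `c` simultaneously: `y = y1 * y2`: `y1 = κ c g1`, `y2 = κ (rm ρ c g1) g2`. For a generator `gen v'`: `v = (τ c).symm v'`,
`κ c (gen v ^ n) = gen v' ^ sh n`, and `sh` is surjective. For inverses use the stronger statement: both `y` and `y⁻¹` are values for all `c` (products: `(y1 * y2)⁻¹ = y2⁻¹ * y1⁻¹`).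

`dt_symm`: inverse data: `τ' c' = (τ (F.symm c')).symm`, `la' (F c) v' = ` the number `n` with `sh (pv ρ v) _ c n = 1`, `v = (τ c).symm v'`. Then `Dt ρ' ρ F.symm τ' la'`:
 `mul`: `F (rm ρ c (gen v ^ n)) = rm ρ' (F c) (gen v' ^ sh n)` (`cc_F`, `cc_line`), with `sh n = 1`: `F.symm (rm ρ' (F c) (gen v')) = rm ρ c (gen v ^ n)`.
 `tau`: `w' ∈ st Γ' v'`, `w' = τ c w`, `w ∈ st Γ v`: `rm ρ' (F c) (gen v') = F (rm ρ c (gen v ^ n))` and `τ (rm ρ c (gen v ^ n)) w = τ c w = w'`.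
 `lam`: `v' w'` adjacent, so `v w` adjacent; the displacement functions of `v` at `c` and at `rm ρ c (gen w ^ k)` are equal (`lam` along the line: `sh_ext`; `gen v` and `gen w` commute; `la (rm ρ (rm ρ c (gen w ^ k)) (gen v ^ n)) v = la (rm ρ c (gen v ^ n)) v`), and
 `τ (rm ρ c (gen w ^ k)) v = τ c v = v'`.
 `bij`: by `sh_symm` the displacement function is the inverse function. (For fixed `v'` the point `F c` has type `v = (τ c).symm v'`, which changes with `c`, but not along the line: apply `sh_symm` to the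
 subtype `{c // τ c v = v'}` or prove the formula directly as in `sh_symm`.)

`cc_inj`: `κ c` is injective: let `κ'` be the cocycle of the inverse data. Then `κ' (F c) (κ c g) = g` for all `c`, `g`: by induction on `g` (words): both sides are cocycles in `g` (`cc_ext` with `K = RA Γ`, the second cocycle is
`κ2 c g = g`; the first is a cocycle by `cc_F`), and on generators `κ' (F c) (gen v' ^ la c v) = gen v ^ sh' (sh 1) = gen v` (`cc_line` for both, `sh_one`, `bij`).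

`iso_of_dt`: `κ c0` restricted to `stb ρ c0` is a homomorphism to `stb ρ' (F c0)` (`cc_F`), injective, and surjective: if `rm ρ' (F c0) y = F c0`, `y = κ c0 g`, then `F (rm ρ c0 g) = F c0`. And `stb ρ' (F c0)` and `stb ρ' c0'` are conjugate (`Trn`):
`x ↦ z * x * z⁻¹` with `rm ρ' c0' z = F c0`.
-/

set_option autoImplicit false

namespace RaagIso

section

variable {V V' C C' : Type} {Γ : SimpleGraph V} {Γ' : SimpleGraph V'}
  {ρ : RA Γ →* Equiv.Perm C} {ρ' : RA Γ' →* Equiv.Perm C'} {F : C ≃ C'} {τ : C → V ≃ V'}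
  {la : C → V → ℤ}

theorem dt_coc (h : Dt ρ ρ' F τ la) : Coc ρ (fun c v => (gen (τ c v) ^ la c v : RA Γ')) := by
  intro c v w hvw
  show (gen (τ c v) ^ la c v : RA Γ') * gen (τ (rm ρ c (gen v)) w) ^ la (rm ρ c (gen v)) w =
    gen (τ c w) ^ la c w * gen (τ (rm ρ c (gen w)) v) ^ la (rm ρ c (gen w)) v
  rw [h.tau c v w (Or.inr hvw), h.tau c w v (Or.inr hvw.symm), h.lam c w v hvw.symm,
    h.lam c v w hvw]
  exact (Commute.zpow_zpow (gen_comm ((h.adj c v w).1 hvw)) _ _)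

/-- `κ` is the cocycle of the data -/
def Kap (ρ : RA Γ →* Equiv.Perm C) (τ : C → V ≃ V') (la : C → V → ℤ) (κ : C → RA Γ → RA Γ') :
    Prop := (∀ c v, κ c (gen v) = gen (τ c v) ^ la c v) ∧
      ∀ c g h, κ c (g * h) = κ c g * κ (rm ρ c g) h

theorem exists_kap (h : Dt ρ ρ' F τ la) : ∃ κ : C → RA Γ → RA Γ', Kap ρ τ la κ :=
  exists_cc (dt_coc h)

theorem dt_tau (h : Dt ρ ρ' F τ la) (c : C) (v w : V) (hw : w ∈ st Γ v) (n : ℤ) :
    τ (rm ρ c (gen v ^ n)) w = τ c w := by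
  have step : ∀ n : ℤ, τ (rm ρ c (gen v ^ (n + 1))) w = τ (rm ρ c (gen v ^ n)) w := by
    intro n
    rw [zpow_add_one, rm_mul]
    exact h.tau _ v w hw
  induction n using Int.induction_on with
  | zero => rw [zpow_zero, rm_one]
  | succ k ih => rw [step]; exact ih
  | pred k ih =>
    have := step (-(k : ℤ) - 1)
    rw [sub_add_cancel] at this
    rw [← this]; exact ih

theorem b04_la (h : Dt ρ ρ' F τ la) (c : C) (v w : V) (hw : Γ.Adj v w) (n : ℤ) :
    la (rm ρ c (gen w ^ n)) v = la c v := by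
  have step : ∀ n : ℤ, la (rm ρ c (gen w ^ (n + 1))) v = la (rm ρ c (gen w ^ n)) v := by
    intro n
    rw [zpow_add_one, rm_mul]
    exact h.lam _ v w hw
  induction n using Int.induction_on with
  | zero => rw [zpow_zero, rm_one]
  | succ k ih => rw [step]; exact ih
  | pred k ih =>
    have := step (-(k : ℤ) - 1)
    rw [sub_add_cancel] at this
    rw [← this]; exact ih

theorem b04_sh_succ (c : C) (v : V) (n : ℤ) :
    sh (pv ρ v) (fun d => la d v) c (n + 1) =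
      sh (pv ρ v) (fun d => la d v) c n + la (rm ρ c (gen v ^ n)) v := by
  rw [sh_add, sh_one, pv_zpow]

theorem cc_line (h : Dt ρ ρ' F τ la) {κ : C → RA Γ → RA Γ'} (hκ : Kap ρ τ la κ) (c : C) (v : V)
    (n : ℤ) : κ c (gen v ^ n) = gen (τ c v) ^ sh (pv ρ v) (fun d => la d v) c n := by
  have step : ∀ n : ℤ, κ c (gen v ^ (n + 1)) =
      κ c (gen v ^ n) * gen (τ c v) ^ la (rm ρ c (gen v ^ n)) v := by
    intro n
    rw [zpow_add_one, hκ.2, hκ.1, dt_tau h c v v (Or.inl rfl)]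
  induction n using Int.induction_on with
  | zero => rw [zpow_zero, sh_zero, zpow_zero]; exact cc_one hκ.2 c
  | succ k ih => rw [step, ih, b04_sh_succ, zpow_add]
  | pred k ih =>
    have h1 := step (-(k : ℤ) - 1)
    have h2 := b04_sh_succ (ρ := ρ) (la := la) c v (-(k : ℤ) - 1)
    rw [sub_add_cancel] at h1 h2
    rw [ih, h2, zpow_add] at h1
    exact (mul_right_cancel h1).symm

theorem cc_F (h : Dt ρ ρ' F τ la) {κ : C → RA Γ → RA Γ'} (hκ : Kap ρ τ la κ) (c : C) (g : RA Γ) :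
    F (rm ρ c g) = rm ρ' (F c) (κ c g) := by
  revert c
  refine ra_ind (C := fun g => ∀ c, F (rm ρ c g) = rm ρ' (F c) (κ c g)) ?_ ?_ ?_ ?_ g
  · intro c
    rw [rm_one, cc_one hκ.2, rm_one]
  · intro v c
    rw [h.mul, hκ.1]
  · intro x y hx hy c
    rw [rm_mul, hκ.2, rm_mul, hy, hx]
  · intro x hx c
    have h1 : rm ρ (rm ρ c x⁻¹) x = c := by rw [← rm_mul, inv_mul_cancel, rm_one]
    have h2 : κ (rm ρ c x⁻¹) x * κ c x⁻¹ = 1 := by
      have := hκ.2 (rm ρ c x⁻¹) x x⁻¹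
      rw [mul_inv_cancel, cc_one hκ.2, h1] at this
      exact this.symm
    have h3 := hx (rm ρ c x⁻¹)
    rw [h1] at h3
    rw [h3, ← rm_mul, h2, rm_one]

theorem cc_surj (h : Dt ρ ρ' F τ la) {κ : C → RA Γ → RA Γ'} (hκ : Kap ρ τ la κ) (c : C) :
    Function.Surjective (κ c) := by
  have key : ∀ y : RA Γ', (∀ c, ∃ g, κ c g = y) ∧ (∀ c, ∃ g, κ c g = y⁻¹) := by
    intro y
    refine ra_ind (C := fun y => (∀ c, ∃ g, κ c g = y) ∧ (∀ c, ∃ g, κ c g = y⁻¹)) ?_ ?_ ?_ ?_ y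
    · exact ⟨fun c => ⟨1, cc_one hκ.2 c⟩, fun c => ⟨1, by rw [inv_one]; exact cc_one hκ.2 c⟩⟩
    · intro v'
      have hh : ∀ (c : C) (m : ℤ), ∃ g, κ c g = gen v' ^ m := by
        intro c m
        obtain ⟨n, hn⟩ := (h.bij c ((τ c).symm v')).2 m
        refine ⟨gen ((τ c).symm v') ^ n, ?_⟩
        rw [cc_line h hκ, hn, Equiv.apply_symm_apply]
      refine ⟨fun c => ?_, fun c => ?_⟩
      · simpa using hh c 1
      · simpa using hh c (-1)
    · intro x y hx hy
      refine ⟨fun c => ?_, fun c => ?_⟩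
      · obtain ⟨g1, h1⟩ := hx.1 c
        obtain ⟨g2, h2⟩ := hy.1 (rm ρ c g1)
        exact ⟨g1 * g2, by rw [hκ.2, h1, h2]⟩
      · obtain ⟨g1, h1⟩ := hy.2 c
        obtain ⟨g2, h2⟩ := hx.2 (rm ρ c g1)
        exact ⟨g1 * g2, by rw [hκ.2, h1, h2, mul_inv_rev]⟩
    · intro x hx
      exact ⟨hx.2, by simpa using hx.1⟩
  intro y
  exact (key y).1 c

theorem b04_Fl (h : Dt ρ ρ' F τ la) (c : C) (v : V) (n : ℤ) :
    F (rm ρ c (gen v ^ n)) =
      rm ρ' (F c) (gen (τ c v) ^ sh (pv ρ v) (fun d => la d v) c n) := by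
  obtain ⟨κ, hκ⟩ := exists_kap h
  rw [cc_F h hκ, cc_line h hκ]

/-- the displacement function of the inverse data is the inverse function -/
theorem b04_inv (h : Dt ρ ρ' F τ la) {la' : C' → V' → ℤ}
    (hs : ∀ c v, sh (pv ρ v) (fun d => la d v) c (la' (F c) (τ c v)) = 1) (c : C) (v : V) (n : ℤ) :
    sh (pv ρ' (τ c v)) (fun d' => la' d' (τ c v)) (F c)
      (sh (pv ρ v) (fun d => la d v) c n) = n := by
  obtain ⟨u, hu1, hu2⟩ := Function.bijective_iff_has_inverse.1 (h.bij c v)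
  have key : ∀ m : ℤ, u m = sh (pv ρ' (τ c v)) (fun d' => la' d' (τ c v)) (F c) m := by
    refine sh_unique (F c) u ?_ ?_
    · have := hu1 0
      rwa [sh_zero] at this
    · intro m
      have e1 : ((pv ρ' (τ c v)) ^ m) (F c) = F (rm ρ c (gen v ^ (u m))) := by
        rw [pv_zpow, b04_Fl h, hu2 m]
      show u (m + 1) = u m + la' (((pv ρ' (τ c v)) ^ m) (F c)) (τ c v)
      rw [e1]
      have e2 := hs (rm ρ c (gen v ^ (u m))) v
      rw [dt_tau h c v v (Or.inl rfl)] at e2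
      apply (h.bij c v).1
      rw [sh_add, hu2, hu2, pv_zpow, e2]
  rw [← key, hu1]

theorem b04_shw (h : Dt ρ ρ' F τ la) (c : C) (v w : V) (hw : Γ.Adj v w) (k n : ℤ) :
    sh (pv ρ v) (fun d => la d v) (rm ρ c (gen w ^ k)) n =
      sh (pv ρ v) (fun d => la d v) c n := by
  refine sh_unique c (fun n => sh (pv ρ v) (fun d => la d v) (rm ρ c (gen w ^ k)) n) ?_ ?_ n
  · exact sh_zero _
  · intro m
    show sh (pv ρ v) (fun d => la d v) (rm ρ c (gen w ^ k)) (m + 1) =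
      sh (pv ρ v) (fun d => la d v) (rm ρ c (gen w ^ k)) m + la (((pv ρ v) ^ m) c) v
    rw [b04_sh_succ, pv_zpow]
    congr 1
    have hc : (gen w ^ k * gen v ^ m : RA Γ) = gen v ^ m * gen w ^ k :=
      (Commute.zpow_zpow (gen_comm hw.symm) _ _)
    rw [← rm_mul, hc, rm_mul, b04_la h _ v w hw]

theorem dt_symm (h : Dt ρ ρ' F τ la) : ∃ la' : C' → V' → ℤ,
    Dt ρ' ρ F.symm (fun c' => (τ (F.symm c')).symm) la' ∧
      ∀ c v, sh (pv ρ v) (fun d => la d v) c (la' (F c) (τ c v)) = 1 := by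
  choose nn hnn using fun (c : C) (v : V) => (h.bij c v).2 1
  set la' : C' → V' → ℤ := fun c' v' => nn (F.symm c') ((τ (F.symm c')).symm v') with hla'
  have hs : ∀ c v, sh (pv ρ v) (fun d => la d v) c (la' (F c) (τ c v)) = 1 := by
    intro c v
    have e : la' (F c) (τ c v) = nn c v := by simp [hla']
    rw [e, hnn]
  have hstar : ∀ c' v', F.symm (rm ρ' c' (gen v')) =
      rm ρ (F.symm c') (gen ((τ (F.symm c')).symm v') ^ la' c' v') := by
    intro c' v'
    rw [Equiv.symm_apply_eq, b04_Fl h, hnn, Equiv.apply_symm_apply, Equiv.apply_symm_apply,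
      zpow_one]
  have hst : ∀ (c : C) (v' w' : V'), w' ∈ st Γ' v' → (τ c).symm w' ∈ st Γ ((τ c).symm v') := by
    intro c v' w' hw
    rcases hw with hw | hw
    · exact Or.inl (by rw [hw])
    · refine Or.inr ?_
      rw [h.adj c]
      simpa using hw
  have htau : ∀ (c' : C') (v' w' : V'), w' ∈ st Γ' v' →
      (τ (F.symm (rm ρ' c' (gen v')))).symm w' = (τ (F.symm c')).symm w' := by
    intro c' v' w' hw
    rw [Equiv.symm_apply_eq, hstar, dt_tau h _ _ _ (hst _ _ _ hw), Equiv.apply_symm_apply]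
  refine ⟨la', ⟨?_, htau, ?_, hstar, ?_⟩, hs⟩
  · intro c' v' w'
    show Γ'.Adj v' w' ↔ Γ.Adj ((τ (F.symm c')).symm v') ((τ (F.symm c')).symm w')
    rw [h.adj (F.symm c')]
    simp
  · intro c' v' w' hvw
    have e1 : (τ (F.symm (rm ρ' c' (gen w')))).symm v' = (τ (F.symm c')).symm v' :=
      htau c' w' v' (Or.inr hvw.symm)
    show nn (F.symm (rm ρ' c' (gen w'))) ((τ (F.symm (rm ρ' c' (gen w')))).symm v') =
      nn (F.symm c') ((τ (F.symm c')).symm v')
    rw [e1, hstar]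
    have hadj : Γ.Adj ((τ (F.symm c')).symm v') ((τ (F.symm c')).symm w') := by
      rw [h.adj (F.symm c')]
      simpa using hvw
    apply (h.bij (F.symm c') ((τ (F.symm c')).symm v')).1
    rw [hnn, ← b04_shw h _ _ _ hadj, hnn]
  · intro c' v'
    obtain ⟨c, rfl⟩ := F.surjective c'
    obtain ⟨v, rfl⟩ := (τ c).surjective v'
    obtain ⟨u, hu1, hu2⟩ := Function.bijective_iff_has_inverse.1 (h.bij c v)
    have hinv := b04_inv h hs c v
    refine ⟨?_, ?_⟩
    · intro a b hab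
      have ha := hinv (u a)
      have hb := hinv (u b)
      rw [hu2] at ha hb
      have : u a = u b := by rw [← ha, ← hb]; exact hab
      rw [← hu2 a, ← hu2 b, this]
    · intro n
      exact ⟨_, hinv n⟩

theorem cc_inj (h : Dt ρ ρ' F τ la) {κ : C → RA Γ → RA Γ'} (hκ : Kap ρ τ la κ) (c : C) :
    Function.Injective (κ c) := by
  obtain ⟨la', h', hs⟩ := dt_symm h
  obtain ⟨κ', hκ'⟩ := exists_kap h'
  have key : ∀ (c : C) (g : RA Γ), κ' (F c) (κ c g) = g := by
    intro c g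
    refine cc_ext (ρ := ρ) (κ := fun c g => κ' (F c) (κ c g)) (κ' := fun _ g => g) ?_ ?_ ?_ c g
    · intro c g g'
      show κ' (F c) (κ c (g * g')) = κ' (F c) (κ c g) * κ' (F (rm ρ c g)) (κ (rm ρ c g) g')
      rw [hκ.2, hκ'.2, cc_F h hκ]
    · intro c g g'
      rfl
    · intro c v
      show κ' (F c) (κ c (gen v)) = gen v
      rw [hκ.1, cc_line h' hκ']
      have e1 := b04_inv h hs c v 1
      rw [sh_one] at e1
      rw [e1, zpow_one]
      simp
  intro a b hab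
  rw [← key c a, ← key c b, hab]

theorem stb_conj (hρ : Trn ρ) (c d : C) : Nonempty (stb ρ c ≃* stb ρ d) := by
  obtain ⟨z, hz⟩ := hρ c d
  have hz' : rm ρ d z⁻¹ = c := by rw [← hz, ← rm_mul, mul_inv_cancel, rm_one]
  refine ⟨⟨⟨fun x => ⟨z⁻¹ * x * z, ?_⟩, fun y => ⟨z * y * z⁻¹, ?_⟩, ?_, ?_⟩, ?_⟩⟩
  · rw [mem_stb, rm_mul, rm_mul, hz', mem_stb.1 x.2, hz]
  · rw [mem_stb, rm_mul, rm_mul, hz, mem_stb.1 y.2, hz']
  · intro x
    apply Subtype.ext
    show z * (z⁻¹ * (x : RA Γ) * z) * z⁻¹ = x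
    group
  · intro y
    apply Subtype.ext
    show z⁻¹ * (z * (y : RA Γ) * z⁻¹) * z = y
    group
  · intro x y
    apply Subtype.ext
    show z⁻¹ * ((x : RA Γ) * y) * z = (z⁻¹ * x * z) * (z⁻¹ * y * z)
    group

theorem iso_of_dt (h : Dt ρ ρ' F τ la) (hρ' : Trn ρ') (c0 : C) (c0' : C') :
    Nonempty (stb ρ c0 ≃* stb ρ' c0') := by
  obtain ⟨κ, hκ⟩ := exists_kap h
  obtain ⟨e2⟩ := stb_conj hρ' (F c0) c0'
  let f : stb ρ c0 →* stb ρ' (F c0) :=
    { toFun := fun x => ⟨κ c0 x, by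
        rw [mem_stb, ← cc_F h hκ, mem_stb.1 x.2]⟩
      map_one' := Subtype.ext (cc_one hκ.2 c0)
      map_mul' := fun x y => Subtype.ext (by
        show κ c0 ((x : RA Γ) * y) = κ c0 x * κ c0 y
        rw [hκ.2, mem_stb.1 x.2]) }
  have hb : Function.Bijective f := by
    refine ⟨?_, ?_⟩
    · intro x y hxy
      exact Subtype.ext (cc_inj h hκ c0 (congrArg Subtype.val hxy))
    · intro y
      obtain ⟨g, hg⟩ := cc_surj h hκ c0 (y : RA Γ')
      refine ⟨⟨g, ?_⟩, Subtype.ext hg⟩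
      rw [mem_stb]
      apply F.injective
      rw [cc_F h hκ, hg, mem_stb.1 y.2]
  exact ⟨(MulEquiv.ofBijective f hb).trans e2⟩

end

end RaagIso
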