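import Pool.Agent.Lib.MP_32d917_al_raag.R03

/-!
# R04: the map on chambers is a generalised isomorphism

`conj_eq`: if `x * gen v * x⁻¹ = y * gen w * y⁻¹` then `v = w` (exponent sums `ab Γ v`, `ab_conj`, `ab_gen`) and `x⁻¹ * y ∈ PP Γ (st Γ v)` (`cen_gen`).

`panels`. adjacency: `v`, `w` adjacent or equal iff `x * gen v * x⁻¹` and `x * gen w * x⁻¹` commute (`cen_gen`, `gen_mem_iff`, `gen_comm`); and `τ x` is injective. So `adj`.
For `w ∈ st Γ v`: `(x * gen v) * gen w * (x * gen v)⁻¹ = x * gen w * x⁻¹`, so with `h` and `conj_eq`: `τ (x * gen v) w = τ x w` and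
`(f x)⁻¹ * f (x * gen v) ∈ PP Γ' (st Γ' (τ x w))`. So the support of `d = (f x)⁻¹ * f (x * gen v)` is contained in `st Γ' (τ x w)` for all `w ∈ st Γ v`. Let `z ∈ sup d`,
`z ≠ v' = τ x v`. By `NoDom v' z` in `Γ'` there is `u'` adjacent to `v'` with `u' ∉ st Γ' z`. `u' = τ x w` with `w` adjacent to `v` by `adj`; so `z ∈ st Γ' u'`: contradiction. So `d ∈ PP Γ' {v'}` is a power of
`gen v'` (`pp_single'`); choose the exponents `la x v`.
`lam`: `v`, `w` adjacent. `f (x * gen v * gen w) = f x * gen v' ^ la x v * gen w' ^ la (x * gen v) w`, with `w' = τ x w = τ (x * gen v) w`, and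
`f (x * gen w * gen v) = f x * gen w' ^ la x w * gen v' ^ la (x * gen w) v`. The two are equal (`gen_comm`); apply the exponent sum of `v'` (`v' ≠ w'`): `la x v = la (x * gen w) v`.
-/

set_option autoImplicit false

namespace RaagIso

open Classical

section

variable {V V' : Type} {Γ : SimpleGraph V} {Γ' : SimpleGraph V'}

theorem r04_gen_st {v u : V} (h : u ∈ st Γ v) : (gen v : RA Γ) * gen u = gen u * gen v := by
  rcases h with h | h
  · rw [h]
  · exact gen_comm h

theorem conj_eq {x y : RA Γ} {v w : V} (h : x * gen v * x⁻¹ = y * gen w * y⁻¹) :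
    v = w ∧ x⁻¹ * y ∈ PP Γ (st Γ v) := by
  have h1 := congrArg (ab Γ v) h
  rw [ab_conj, ab_conj, ab_gen, ab_gen, if_pos rfl] at h1
  have hvw : w = v := by
    by_contra hne
    rw [if_neg hne] at h1
    have h2 : (1 : ℤ) = 0 := by
      have := congrArg Multiplicative.toAdd h1
      simp at this
    exact one_ne_zero h2
  subst hvw
  refine ⟨rfl, cen_gen (n := 1) one_ne_zero ?_⟩
  rw [zpow_one]
  have h2 : x * gen w * x⁻¹ * y = y * gen w := by rw [h]; group
  calc x⁻¹ * y * gen w = x⁻¹ * (y * gen w) := by group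
    _ = gen w * (x⁻¹ * y) := by rw [← h2]; group

theorem pp_single' {s : V} {x : RA Γ} (h : x ∈ PP Γ {s}) : ∃ k : ℤ, x = gen s ^ k := by
  unfold PP at h
  rw [Set.image_singleton, Subgroup.mem_closure_singleton] at h
  obtain ⟨k, hk⟩ := h
  exact ⟨k, hk.symm⟩

theorem r04_comm_iff (v w : V) : (gen v : RA Γ) * gen w = gen w * gen v ↔ v = w ∨ Γ.Adj v w := by
  constructor
  · intro h
    have h1 : (gen w : RA Γ) ∈ PP Γ (st Γ v) := by
      refine cen_gen (n := 1) one_ne_zero ?_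
      rw [zpow_one]; exact h.symm
    rcases gen_mem_iff.1 h1 with h2 | h2
    · exact Or.inl h2.symm
    · exact Or.inr h2
  · rintro (h | h)
    · rw [h]
    · exact gen_comm h

theorem r04_conj_comm (x : RA Γ) (a b : RA Γ) :
    (x * a * x⁻¹) * (x * b * x⁻¹) = (x * b * x⁻¹) * (x * a * x⁻¹) ↔ a * b = b * a := by
  have e : ∀ a b : RA Γ, (x * a * x⁻¹) * (x * b * x⁻¹) = x * (a * b) * x⁻¹ := by intro a b; group
  rw [e, e, mul_left_inj, mul_right_inj]

theorem panels (hN' : NoDom Γ') {Φ : RA Γ → RA Γ'} (f : RA Γ ≃ RA Γ') (τ : RA Γ → V ≃ V')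
    (hc : ∀ e f : RA Γ, IsE e → IsE f → (e * f = f * e ↔ Φ e * Φ f = Φ f * Φ e))
    (h : ∀ x v, Φ (x * gen v * x⁻¹) = f x * gen (τ x v) * (f x)⁻¹) :
    ∃ la : RA Γ → V → ℤ, GI Γ Γ' f τ la := by
  have adj1 : ∀ x v w, (v = w ∨ Γ.Adj v w) ↔ (τ x v = τ x w ∨ Γ'.Adj (τ x v) (τ x w)) := by
    intro x v w
    rw [← r04_comm_iff, ← r04_comm_iff, ← r04_conj_comm x, ← r04_conj_comm (f x), ← h, ← h]
    exact hc _ _ ⟨x, v, rfl⟩ ⟨x, w, rfl⟩
  have adj : ∀ x v w, Γ.Adj v w ↔ Γ'.Adj (τ x v) (τ x w) := by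
    intro x v w
    constructor
    · intro hv
      rcases (adj1 x v w).1 (Or.inr hv) with h1 | h1
      · have := (τ x).injective h1
        subst this
        exact absurd hv Γ.irrefl
      · exact h1
    · intro hv
      rcases (adj1 x v w).2 (Or.inr hv) with h1 | h1
      · subst h1
        exact absurd hv Γ'.irrefl
      · exact h1
  have key : ∀ x v w, w ∈ st Γ v → τ x w = τ (x * gen v) w ∧
      (f x)⁻¹ * f (x * gen v) ∈ PP Γ' (st Γ' (τ x w)) := by
    intro x v w hw
    have h1 : (x * gen v) * gen w * (x * gen v)⁻¹ = x * gen w * x⁻¹ := by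
      have := r04_gen_st hw
      calc (x * gen v) * gen w * (x * gen v)⁻¹ = x * (gen v * gen w) * (gen v)⁻¹ * x⁻¹ := by group
        _ = x * gen w * x⁻¹ := by rw [this]; group
    have h2 : f x * gen (τ x w) * (f x)⁻¹ =
        f (x * gen v) * gen (τ (x * gen v) w) * (f (x * gen v))⁻¹ := by
      rw [← h, ← h, h1]
    exact conj_eq h2
  have hpow : ∀ x v, ∃ k : ℤ, (f x)⁻¹ * f (x * gen v) = gen (τ x v) ^ k := by
    intro x v
    apply pp_single'
    rw [mem_pp]
    intro z hz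
    by_contra hzv
    have hne : τ x v ≠ z := fun e => hzv e.symm
    obtain ⟨u, hu1, hu2⟩ := hN' (τ x v) z hne
    obtain ⟨w, rfl⟩ : ∃ w, τ x w = u := ⟨(τ x).symm u, (τ x).apply_symm_apply u⟩
    have hvw : Γ.Adj v w := (adj x v w).2 hu1
    have h1 := (key x v w (Or.inr hvw)).2
    rw [mem_pp] at h1
    rcases h1 hz with h2 | h2
    · exact hu2 (Or.inl h2.symm)
    · exact hu2 (Or.inr h2.symm)
  choose la hla using hpow
  have hmul : ∀ x v, f (x * gen v) = f x * gen (τ x v) ^ la x v := by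
    intro x v
    rw [← hla x v, mul_inv_cancel_left]
  refine ⟨la, ⟨adj, hmul, fun x v w hw => ((key x v w hw).1).symm, ?_⟩⟩
  intro x v w hvw
  have hw' : τ (x * gen v) w = τ x w := ((key x v w (Or.inr hvw)).1).symm
  have hv' : τ (x * gen w) v = τ x v := ((key x w v (Or.inr hvw.symm)).1).symm
  have hne : τ x w ≠ τ x v := by
    intro e
    have := (τ x).injective e
    subst this
    exact Γ.irrefl hvw
  have h1 : f (x * gen v * gen w) = f (x * gen w * gen v) := by
    rw [mul_assoc, gen_comm hvw, ← mul_assoc]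
  rw [hmul (x * gen v) w, hmul (x * gen w) v, hmul x v, hmul x w, hw', hv', mul_assoc, mul_assoc,
    mul_right_inj] at h1
  have h2 := congrArg (fun z => Multiplicative.toAdd (ab Γ' (τ x v) z)) h1
  simp only [map_mul, map_zpow, ab_gen, if_neg hne, if_true, one_zpow, mul_one, one_mul,
    toAdd_zpow, toAdd_ofAdd, smul_eq_mul] at h2
  exact h2.symm

end

end RaagIso
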