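import Pool.Agent.Lib.MP_32d917_al_raag.A03
import Pool.Agent.Lib.MP_32d917_al_raag.R04

/-!
# R05: the rigidity theorem

From `emap`, `chamber` and `panels`. Equivariance: for `h ∈ H`: `Φ ((h * x) * gen v * (h * x)⁻¹) = φ h * Φ (x * gen v * x⁻¹) * (φ h)⁻¹`, so
`f (h * x) * gen (τ (h * x) v) * (f (h * x))⁻¹ = (φ h * f x) * gen (τ x v) * (φ h * f x)⁻¹` for all `v`. By `conj_eq` `τ (h * x) v = τ x v`, and `(f (h * x))⁻¹ * (φ h * f x)` is in all
`PP Γ' (st Γ' (τ x v))`, so in all `PP Γ' (st Γ' v')` (`τ x` is surjective), so it is `1` (`center`). `la (h * x) v = la x v`: compare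
`f (h * x * gen v) = φ h * f (x * gen v)` (`GI.mul`, `gen_zpow_inj`).
-/

set_option autoImplicit false

namespace RaagIso

open Classical

section

variable {V V' : Type} {Γ : SimpleGraph V} {Γ' : SimpleGraph V'}

/-- the line through `x` is mapped onto a line -/
theorem r05_line {f : RA Γ ≃ RA Γ'} {τ' : RA Γ' → V' ≃ V} {la' : RA Γ' → V' → ℤ}
    (hG : GI Γ' Γ f.symm τ' la') (y : RA Γ') (w : V') (k : ℤ) :
    (∃ n : ℤ, f.symm (y * gen w ^ k) = f.symm y * gen (τ' y w) ^ n) ∧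
      τ' (y * gen w ^ k) w = τ' y w := by
  induction k using Int.induction_on with
  | zero => exact ⟨⟨0, by simp⟩, by simp⟩
  | succ k ih =>
    obtain ⟨⟨n, hn⟩, h2⟩ := ih
    rw [zpow_add_one, ← mul_assoc]
    refine ⟨⟨n + la' (y * gen w ^ (k : ℤ)) w, ?_⟩, ?_⟩
    · rw [hG.mul, hn, h2, zpow_add, mul_assoc]
    · rw [hG.tau _ _ _ (Or.inl rfl), h2]
  | pred k ih =>
    obtain ⟨⟨n, hn⟩, h2⟩ := ih
    have e : y * gen w ^ (-(k : ℤ) - 1) * gen w = y * gen w ^ (-(k : ℤ)) := by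
      rw [mul_assoc, ← zpow_add_one, sub_add_cancel]
    have h3 : τ' (y * gen w ^ (-(k : ℤ) - 1)) w = τ' y w := by
      have := hG.tau (y * gen w ^ (-(k : ℤ) - 1)) w w (Or.inl rfl)
      rw [e, h2] at this
      exact this.symm
    refine ⟨⟨n - la' (y * gen w ^ (-(k : ℤ) - 1)) w, ?_⟩, h3⟩
    have h4 := hG.mul (y * gen w ^ (-(k : ℤ) - 1)) w
    rw [e, hn, h3] at h4
    have h5 : f.symm y * gen (τ' y w) ^ (n - la' (y * gen w ^ (-(k : ℤ) - 1)) w) =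
        f.symm y * gen (τ' y w) ^ n * (gen (τ' y w) ^ la' (y * gen w ^ (-(k : ℤ) - 1)) w)⁻¹ := by
      rw [zpow_sub, mul_assoc]
    rw [h5, h4, mul_inv_cancel_right]

theorem rigid [Finite V] [Finite V'] (hN : NoDom Γ) (hS : NoSep Γ) (hN' : NoDom Γ') (hS' : NoSep Γ')
    (h2 : ∃ a b : V, a ≠ b) (h2' : ∃ a b : V', a ≠ b) (H : Subgroup (RA Γ)) (H' : Subgroup (RA Γ'))
    (hH : H.FiniteIndex) (hH' : H'.FiniteIndex) (φ : H ≃* H') :
    ∃ (f : RA Γ ≃ RA Γ') (τ : RA Γ → V ≃ V') (la : RA Γ → V → ℤ), GI Γ Γ' f τ la ∧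
      (∀ (h : H) (x : RA Γ), f (h * x) = φ h * f x ∧ τ (h * x) = τ x ∧ la (h * x) = la x) ∧
      ∀ (x : RA Γ) (v : V) (k : ℤ), ∃ n : ℤ, f (x * gen v ^ n) = f x * gen (τ x v) ^ k := by
  obtain ⟨Φ, Ψ, hE, heq⟩ := emap hN hN' H H' hH hH' φ
  obtain ⟨f, τ, hf⟩ := chamber hN hS hN' hS' h2 h2' hE
  obtain ⟨la, hG⟩ := panels hN' f τ hE.comm hf
  have hsurj : ∀ (x : RA Γ) (v : V) (k : ℤ), ∃ n : ℤ,
      f (x * gen v ^ n) = f x * gen (τ x v) ^ k := by
    have hf' : ∀ (y : RA Γ') (w : V'), Ψ (y * gen w * y⁻¹) =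
        f.symm y * gen ((τ (f.symm y)).symm w) * (f.symm y)⁻¹ := by
      intro y w
      have h1 := hf (f.symm y) ((τ (f.symm y)).symm w)
      rw [Equiv.apply_symm_apply, Equiv.apply_symm_apply] at h1
      rw [← h1, hE.left _ ⟨_, _, rfl⟩]
    obtain ⟨la', hG'⟩ := panels hN f.symm (fun y => (τ (f.symm y)).symm) (emp_symm hE).comm hf'
    intro x v k
    obtain ⟨⟨n, hn⟩, -⟩ := r05_line hG' (f x) (τ x v) k
    rw [Equiv.symm_apply_apply, Equiv.symm_apply_apply] at hn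
    refine ⟨n, ?_⟩
    rw [← hn, Equiv.apply_symm_apply]
  refine ⟨f, τ, la, hG, ?_, hsurj⟩
  have key : ∀ (h : H) (x : RA Γ) (v : V),
      f (h * x) * gen (τ (h * x) v) * (f (h * x))⁻¹ =
        ((φ h : RA Γ') * f x) * gen (τ x v) * ((φ h : RA Γ') * f x)⁻¹ := by
    intro h x v
    rw [← hf (h * x) v, show (h : RA Γ) * x * gen v * ((h : RA Γ) * x)⁻¹ =
      (h : RA Γ) * (x * gen v * x⁻¹) * (h : RA Γ)⁻¹ by group, heq h _ ⟨x, v, rfl⟩, hf x v]
    group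
  have hft : ∀ (h : H) (x : RA Γ), f (h * x) = φ h * f x ∧ τ (h * x) = τ x := by
    intro h x
    have h3 : τ (h * x) = τ x := Equiv.ext fun v => (conj_eq (key h x v)).1
    refine ⟨?_, h3⟩
    have h4 : ∀ v', (f (h * x))⁻¹ * ((φ h : RA Γ') * f x) ∈ PP Γ' (st Γ' v') := by
      intro v'
      obtain ⟨v, rfl⟩ := (τ (h * x)).surjective v'
      exact (conj_eq (key h x v)).2
    have h5 := center hN' h2' h4
    rwa [inv_mul_eq_one] at h5
  intro h x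
  refine ⟨(hft h x).1, (hft h x).2, ?_⟩
  funext v
  have e1 := hG.mul (h * x) v
  have e2 := hG.mul x v
  have e3 := (hft h (x * gen v)).1
  rw [← mul_assoc, e1, e2, (hft h x).1, (hft h x).2, ← mul_assoc] at e3
  exact gen_zpow_inj (mul_left_cancel e3)

end

end RaagIso
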