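import Pool.Agent.Lib.MP_32d917_al_raag.B02
import Pool.Agent.Lib.MP_32d917_al_raag.R05

/-!
# B03: finite data of an isomorphism

`gi_line`: for a generalised isomorphism `f`: `f (x * gen v ^ n) = f x * gen (τ x v) ^ (displacement)` and `τ (x * gen v ^ n) w = τ x w` for `w ∈ st Γ v`, by `Int.induction_on`.

`dt_of_gi`: for `c : C` choose `x` with `rm ρ c0 x = c` (`Trn`). `rm ρ c0 x = rm ρ c0 y` means that `y = h * x` with `h = y * x⁻¹ ∈ stb ρ c0`. So
`F (rm ρ c0 x) = rm ρ' c0' (f x)`, `τ' (rm ρ c0 x) = τ x`, `la' (rm ρ c0 x) = la x` are well defined (`rm ρ' c0' (φ h * f x) = rm ρ' c0' (f x)`). `F` is injective: `rm ρ' c0' (f x) = rm ρ' c0' (f y)` gives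
`f y = φ h * f x = f (h * x)` with `h ∈ stb ρ c0` (`φ` is surjective), so `y = h * x`; surjective because `f` and `ρ'` are. `F` is a map `C → C'`, use `Equiv.ofBijective`.
`Dt`: `adj`, `tau`, `lam`, `mul` are immediate. `bij`: `sh (pv ρ v) (fun d => la' d v) (rm ρ c0 x) n` is the exponent `k` with `f (x * gen v ^ n) = f x * gen (τ x v) ^ k` (`gi_line`, `sh_unique`, `pv_zpow`, `gen_zpow_inj`):
injective because `f` is, surjective by `hs`.

`dt_of_iso`: from `rigid` and `dt_of_gi`; the stabilisers have finite index because `C` is finite and `ρ` is transitive (the map `x ↦ rm ρ c0 x` is constant on right cosets; or: `stb ρ c0` contains the kernel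
of `ρ`, which has finite index: `Subgroup.finiteIndex_ker`, `Subgroup.finiteIndex_of_le`).
-/

set_option autoImplicit false

namespace RaagIso

section

variable {V V' C C' : Type} {Γ : SimpleGraph V} {Γ' : SimpleGraph V'}

theorem stb_fin [Finite C] (ρ : RA Γ →* Equiv.Perm C) (c : C) : (stb ρ c).FiniteIndex := by
  have h1 : ρ.ker ≤ stb ρ c := by
    intro x hx
    rw [MonoidHom.mem_ker] at hx
    rw [mem_stb]
    unfold rm
    rw [map_inv, hx, inv_one]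
    rfl
  haveI : ρ.ker.FiniteIndex := Subgroup.finiteIndex_ker ρ
  exact Subgroup.finiteIndex_of_le h1

theorem gi_line {f : RA Γ → RA Γ'} {τ : RA Γ → V ≃ V'} {la : RA Γ → V → ℤ} (hG : GI Γ Γ' f τ la)
    (x : RA Γ) (v : V) (n : ℤ) : (∀ w ∈ st Γ v, τ (x * gen v ^ n) w = τ x w) ∧
      ∃ k : ℤ, f (x * gen v ^ n) = f x * gen (τ x v) ^ k := by
  have hv : v ∈ st Γ v := Or.inl rfl
  induction n using Int.induction_on with
  | zero => exact ⟨fun w _ => by simp, 0, by simp⟩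
  | succ n ih =>
    obtain ⟨h1, k, h2⟩ := ih
    rw [zpow_add_one, ← mul_assoc]
    refine ⟨fun w hw => by rw [hG.tau _ _ _ hw, h1 w hw], k + la (x * gen v ^ (n : ℤ)) v, ?_⟩
    rw [hG.mul, h2, h1 v hv, zpow_add, mul_assoc]
  | pred n ih =>
    obtain ⟨h1, k, h2⟩ := ih
    have e : x * gen v ^ (-(n : ℤ) - 1) * gen v = x * gen v ^ (-(n : ℤ)) := by
      rw [mul_assoc, ← zpow_add_one, sub_add_cancel]
    have h3 : ∀ w ∈ st Γ v, τ (x * gen v ^ (-(n : ℤ) - 1)) w = τ x w := by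
      intro w hw
      have := hG.tau (x * gen v ^ (-(n : ℤ) - 1)) v w hw
      rw [e, h1 w hw] at this
      exact this.symm
    refine ⟨h3, k - la (x * gen v ^ (-(n : ℤ) - 1)) v, ?_⟩
    have h4 := hG.mul (x * gen v ^ (-(n : ℤ) - 1)) v
    rw [e, h2, h3 v hv] at h4
    have h5 : f x * gen (τ x v) ^ (k - la (x * gen v ^ (-(n : ℤ) - 1)) v) =
        f x * gen (τ x v) ^ k * (gen (τ x v) ^ la (x * gen v ^ (-(n : ℤ) - 1)) v)⁻¹ := by
      rw [zpow_sub, mul_assoc]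
    rw [h5, h4, mul_inv_cancel_right]

theorem b03_wd {ρ : RA Γ →* Equiv.Perm C} {c0 : C} {x y : RA Γ} (h : rm ρ c0 x = rm ρ c0 y) :
    ∃ k : stb ρ c0, y = k * x := by
  refine ⟨⟨y * x⁻¹, ?_⟩, by simp⟩
  rw [mem_stb, rm_mul, ← h, ← rm_mul, mul_inv_cancel, rm_one]

theorem b03_stb {ρ : RA Γ →* Equiv.Perm C} {c0 : C} (k : stb ρ c0) (x : RA Γ) :
    rm ρ c0 (k * x) = rm ρ c0 x := by
  rw [rm_mul, mem_stb.1 k.2]

theorem dt_of_gi {ρ : RA Γ →* Equiv.Perm C} {ρ' : RA Γ' →* Equiv.Perm C'} (hρ : Trn ρ)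
    (hρ' : Trn ρ') {c0 : C} {c0' : C'} (φ : stb ρ c0 ≃* stb ρ' c0') (f : RA Γ ≃ RA Γ')
    (τ : RA Γ → V ≃ V') (la : RA Γ → V → ℤ) (hG : GI Γ Γ' f τ la)
    (he : ∀ (h : stb ρ c0) (x : RA Γ), f (h * x) = φ h * f x ∧ τ (h * x) = τ x ∧ la (h * x) = la x)
    (hs : ∀ (x : RA Γ) (v : V) (k : ℤ), ∃ n : ℤ, f (x * gen v ^ n) = f x * gen (τ x v) ^ k) :
    ∃ (F : C ≃ C') (τ' : C → V ≃ V') (la' : C → V → ℤ), Dt ρ ρ' F τ' la' ∧
      (∀ x, F (rm ρ c0 x) = rm ρ' c0' (f x)) ∧ (∀ x, τ' (rm ρ c0 x) = τ x) ∧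
      ∀ x, la' (rm ρ c0 x) = la x := by
  choose X hX using hρ c0
  have hF : ∀ x, rm ρ' c0' (f (X (rm ρ c0 x))) = rm ρ' c0' (f x) := by
    intro x
    obtain ⟨k, hk⟩ := b03_wd (hX (rm ρ c0 x)).symm
    rw [hk, (he k x).1, b03_stb]
  have hT : ∀ x, τ (X (rm ρ c0 x)) = τ x := by
    intro x
    obtain ⟨k, hk⟩ := b03_wd (hX (rm ρ c0 x)).symm
    rw [hk, (he k x).2.1]
  have hL : ∀ x, la (X (rm ρ c0 x)) = la x := by
    intro x
    obtain ⟨k, hk⟩ := b03_wd (hX (rm ρ c0 x)).symm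
    rw [hk, (he k x).2.2]
  have hinj : Function.Injective (fun c => rm ρ' c0' (f (X c))) := by
    intro c d hcd
    obtain ⟨k', hk'⟩ := b03_wd hcd
    obtain ⟨k, rfl⟩ := φ.surjective k'
    rw [← (he k _).1] at hk'
    have h1 := f.injective hk'
    rw [← hX c, ← hX d, h1, b03_stb]
  have hsur : Function.Surjective (fun c => rm ρ' c0' (f (X c))) := by
    intro c'
    obtain ⟨y, hy⟩ := hρ' c0' c'
    refine ⟨rm ρ c0 (f.symm y), ?_⟩
    show rm ρ' c0' (f (X (rm ρ c0 (f.symm y)))) = c'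
    rw [hF, f.apply_symm_apply, hy]
  refine ⟨Equiv.ofBijective _ ⟨hinj, hsur⟩, fun c => τ (X c), fun c => la (X c), ?_, hF, hT, hL⟩
  -- every `c` is `rm ρ c0 x`
  have hgen : ∀ (x : RA Γ) (y : RA Γ), rm ρ (rm ρ c0 x) y = rm ρ c0 (x * y) := fun x y => (rm_mul _ _ _ _).symm
  constructor
  · intro c v w
    exact hG.adj (X c) v w
  · intro c v w hw
    obtain ⟨x, rfl⟩ := hρ c0 c
    show τ (X (rm ρ (rm ρ c0 x) (gen v))) w = τ (X (rm ρ c0 x)) w
    rw [hgen, hT, hT]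
    exact hG.tau x v w hw
  · intro c v w hvw
    obtain ⟨x, rfl⟩ := hρ c0 c
    show la (X (rm ρ (rm ρ c0 x) (gen w))) v = la (X (rm ρ c0 x)) v
    rw [hgen, hL, hL]
    exact hG.lam x v w hvw
  · intro c v
    obtain ⟨x, rfl⟩ := hρ c0 c
    show rm ρ' c0' (f (X (rm ρ (rm ρ c0 x) (gen v)))) =
      rm ρ' (rm ρ' c0' (f (X (rm ρ c0 x)))) (gen (τ (X (rm ρ c0 x)) v) ^ la (X (rm ρ c0 x)) v)
    rw [hgen, hF, hF, hT, hL, hG.mul, rm_mul]
  · intro c v
    obtain ⟨x, rfl⟩ := hρ c0 c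
    have key : ∀ n : ℤ, f (x * gen v ^ n) =
        f x * gen (τ x v) ^ sh (pv ρ v) (fun d => la (X d) v) (rm ρ c0 x) n := by
      have hst : ∀ n : ℤ, f (x * gen v ^ (n + 1)) = f (x * gen v ^ n) *
          gen (τ x v) ^ (sh (pv ρ v) (fun d => la (X d) v) (rm ρ c0 x) (n + 1) -
            sh (pv ρ v) (fun d => la (X d) v) (rm ρ c0 x) n) := by
        intro n
        rw [zpow_add_one, ← mul_assoc, hG.mul, (gi_line hG x v n).1 v (Or.inl rfl), sh_add, sh_one,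
          add_sub_cancel_left, pv_zpow, hgen]
        show _ = f (x * gen v ^ n) * gen (τ x v) ^ la (X (rm ρ c0 (x * gen v ^ n))) v
        rw [hL]
      intro n
      induction n using Int.induction_on with
      | zero => rw [sh_zero, zpow_zero, zpow_zero, mul_one, mul_one]
      | succ n ih =>
        rw [hst, ih, mul_assoc, ← zpow_add, add_sub_cancel]
      | pred n ih =>
        have h1 := hst (-(n : ℤ) - 1)
        rw [sub_add_cancel, ih] at h1
        have h2 : f (x * gen v ^ (-(n : ℤ) - 1)) = f x *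
            gen (τ x v) ^ sh (pv ρ v) (fun d => la (X d) v) (rm ρ c0 x) (-(n : ℤ)) *
            (gen (τ x v) ^ (sh (pv ρ v) (fun d => la (X d) v) (rm ρ c0 x) (-(n : ℤ)) -
              sh (pv ρ v) (fun d => la (X d) v) (rm ρ c0 x) (-(n : ℤ) - 1)))⁻¹ := by
          rw [h1, mul_inv_cancel_right]
        rw [h2, ← zpow_neg, mul_assoc, ← zpow_add]
        congr 2
        ring
    constructor
    · intro n m hnm
      have h1 := key n
      rw [show sh (pv ρ v) (fun d => la (X d) v) (rm ρ c0 x) n =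
        sh (pv ρ v) (fun d => la (X d) v) (rm ρ c0 x) m from hnm, ← key m] at h1
      exact gen_zpow_inj (mul_left_cancel (f.injective h1))
    · intro k
      obtain ⟨n, hn⟩ := hs x v k
      rw [key n] at hn
      exact ⟨n, gen_zpow_inj (mul_left_cancel hn)⟩

theorem dt_of_iso [Finite V] [Finite V'] [Finite C] [Finite C'] (hN : NoDom Γ) (hS : NoSep Γ)
    (hN' : NoDom Γ') (hS' : NoSep Γ') (h2 : ∃ a b : V, a ≠ b) (h2' : ∃ a b : V', a ≠ b)
    {ρ : RA Γ →* Equiv.Perm C} {ρ' : RA Γ' →* Equiv.Perm C'} (hρ : Trn ρ)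
    (hρ' : Trn ρ') {c0 : C} {c0' : C'} (φ : stb ρ c0 ≃* stb ρ' c0') :
    ∃ (F : C ≃ C') (τ : C → V ≃ V') (la : C → V → ℤ), Dt ρ ρ' F τ la := by
  obtain ⟨f, τ, la, hG, he, hs⟩ := rigid hN hS hN' hS' h2 h2' (stb ρ c0) (stb ρ' c0')
    (stb_fin ρ c0) (stb_fin ρ' c0') φ
  obtain ⟨F, τ', la', hD, -⟩ := dt_of_gi hρ hρ' φ f τ la hG he hs
  exact ⟨F, τ', la', hD⟩

end

end RaagIso
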