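import Pool.Agent.Lib.MP_32d917_al_raag.C03

/-!
# C04: `CodeFor` is recursively enumerable

`REPred` closure lemmas: `LatIso.re_and`, `re_of_prim`, `re_forall_lt`, `re_forall_mem`, `re_exists`, `re_comp` (`MP_32d917_al/RE.lean`), `pres2_triv_comp` for `TrivW`, and see
`pres2_icert_re` in `PRES2.lean` and `codeFor_re` in `MP_32d917_al_adm/Final.lean` for examples. An implication `AdN c u v → TrivW ...` is `¬ AdN ∨ TrivW` (`re_or`).
-/

set_option autoImplicit false
set_option synthInstance.maxSize 2000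

namespace RaagIso

open LatIso AdmIso

section

variable {β : Type} [Primcodable β] {f : β → Cd} {P : β → Pres} {p q r : β → List Wd}
  {g h : β → ℕ}

theorem c04_app {a b : β → Wd} (ha : Primrec a) (hb : Primrec b) :
    Primrec fun x => a x ++ b x :=
  Primrec.list_append.comp ha hb

theorem c04_one (b : Bool) (hg : Primrec g) : Primrec fun x => ([(g x, b)] : Wd) :=
  Primrec.list_cons.comp (CB.p_pair hg (Primrec.const b)) (Primrec.const [])

theorem c04_imp {A B : β → Prop} (hA : PrimrecPred A) (hB : REPred B) :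
    REPred fun x => A x → B x := by
  refine (re_or (re_of_prim (CB.pp_not hA)) hB).of_eq ?_
  intro x
  constructor
  · rintro (h1 | h1) h2
    · exact absurd h2 h1
    · exact h1
  · intro h1
    by_cases h2 : A x
    · exact Or.inr (h1 h2)
    · exact Or.inl h2

theorem c04_1 (hf : Primrec f) (hP : Primrec P) (hp : Primrec p) :
    REPred fun x => ∀ r ∈ (P x).2, TrivW (RP (f x)) (sbw (p x) r) := by
  refine re_forall_mem (p := fun x r => TrivW (RP (f x)) (sbw (p x) r)) (CB.p_snd hP) ?_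
  exact pres2_triv_comp (γ := β × Wd) (P := fun y => RP (f y.1)) (w := fun y => sbw (p y.1) y.2)
    (p_RP (hf.comp Primrec.fst)) (pres2_sbw_p (hp.comp Primrec.fst) Primrec.snd)

theorem c04_2a (hf : Primrec f) (hP : Primrec P) (hq : Primrec q) {i u v : β → ℕ}
    (hi : Primrec i) (hu : Primrec u) (hv : Primrec v) :
    REPred fun x => AdN (f x) (u x) (v x) → TrivW (P x)
      (xg (f x) (q x) (i x) (u x) ++ xg (f x) (q x) (rmN (f x) (i x) (u x)) (v x) ++
        FreeGroup.invRev (xg (f x) (q x) (i x) (v x) ++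
          xg (f x) (q x) (rmN (f x) (i x) (v x)) (u x))) := by
  refine c04_imp (pp_AdN hf hu hv) (pres2_triv_comp hP ?_)
  refine c04_app (c04_app (p_xg hf hq hi hu) (p_xg hf hq (p_rmN hf hi hu) hv)) ?_
  exact pres1_invRev_p (c04_app (p_xg hf hq hi hv) (p_xg hf hq (p_rmN hf hi hv) hu))

theorem c04_2 (hf : Primrec f) (hP : Primrec P) (hq : Primrec q) :
    REPred fun x => ∀ i < cM (f x), ∀ u < cK (f x), ∀ v < cK (f x),
      AdN (f x) u v → TrivW (P x)
      (xg (f x) (q x) i u ++ xg (f x) (q x) (rmN (f x) i u) v ++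
        FreeGroup.invRev (xg (f x) (q x) i v ++ xg (f x) (q x) (rmN (f x) i v) u)) := by
  refine re_forall_lt (p := fun x i => ∀ u < cK (f x), ∀ v < cK (f x),
      AdN (f x) u v → TrivW (P x)
      (xg (f x) (q x) i u ++ xg (f x) (q x) (rmN (f x) i u) v ++
        FreeGroup.invRev (xg (f x) (q x) i v ++ xg (f x) (q x) (rmN (f x) i v) u))) (p_cM hf) ?_
  refine re_forall_lt (p := fun (y : β × ℕ) u => ∀ v < cK (f y.1),
      AdN (f y.1) u v → TrivW (P y.1)
      (xg (f y.1) (q y.1) y.2 u ++ xg (f y.1) (q y.1) (rmN (f y.1) y.2 u) v ++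
        FreeGroup.invRev (xg (f y.1) (q y.1) y.2 v ++
          xg (f y.1) (q y.1) (rmN (f y.1) y.2 v) u))) (p_cK (hf.comp Primrec.fst)) ?_
  have e1 : Primrec fun y : (β × ℕ) × ℕ => y.1.1 := Primrec.fst.comp Primrec.fst
  have e2 : Primrec fun z : ((β × ℕ) × ℕ) × ℕ => z.1.1.1 := e1.comp Primrec.fst
  refine re_forall_lt (p := fun (y : (β × ℕ) × ℕ) v =>
      AdN (f y.1.1) y.2 v → TrivW (P y.1.1)
      (xg (f y.1.1) (q y.1.1) y.1.2 y.2 ++ xg (f y.1.1) (q y.1.1) (rmN (f y.1.1) y.1.2 y.2) v ++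
        FreeGroup.invRev (xg (f y.1.1) (q y.1.1) y.1.2 v ++
          xg (f y.1.1) (q y.1.1) (rmN (f y.1.1) y.1.2 v) y.2))) (p_cK (hf.comp e1)) ?_
  exact c04_2a (β := ((β × ℕ) × ℕ) × ℕ) (f := fun z => f z.1.1.1) (P := fun z => P z.1.1.1)
    (q := fun z => q z.1.1.1) (i := fun z => z.1.1.2) (u := fun z => z.1.2) (v := fun z => z.2)
    (hf.comp e2) (hP.comp e2) (hq.comp e2)
    (Primrec.snd.comp (Primrec.fst.comp Primrec.fst)) (Primrec.snd.comp Primrec.fst) Primrec.snd

theorem c04_3a (hf : Primrec f) (hP : Primrec P) (hp : Primrec p) (hq : Primrec q) {j : β → ℕ}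
    (hj : Primrec j) :
    REPred fun x => runN (f x) 0 ((p x).getD (j x) []) = 0 ∧
      TrivW (P x) (liftN (f x) (q x) 0 ((p x).getD (j x) []) ++ [(j x, false)]) := by
  have e1 : Primrec fun x => (p x).getD (j x) [] := pres2_getD_p hp hj
  refine re_and (re_of_prim (CB.pp_eq (p_runN hf (Primrec.const 0) e1) (Primrec.const 0))) ?_
  exact pres2_triv_comp hP (c04_app (p_liftN hf hq (Primrec.const 0) e1) (c04_one false hj))

theorem c04_3 (hf : Primrec f) (hP : Primrec P) (hp : Primrec p) (hq : Primrec q) :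
    REPred fun x => ∀ j < (P x).1, runN (f x) 0 ((p x).getD j []) = 0 ∧
      TrivW (P x) (liftN (f x) (q x) 0 ((p x).getD j []) ++ [(j, false)]) := by
  refine re_forall_lt (p := fun x j => runN (f x) 0 ((p x).getD j []) = 0 ∧
      TrivW (P x) (liftN (f x) (q x) 0 ((p x).getD j []) ++ [(j, false)])) (CB.p_fst hP) ?_
  exact c04_3a (β := β × ℕ) (f := fun y => f y.1) (P := fun y => P y.1) (p := fun y => p y.1)
    (q := fun y => q y.1) (j := fun y => y.2) (hf.comp Primrec.fst) (hP.comp Primrec.fst)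
    (hp.comp Primrec.fst) (hq.comp Primrec.fst) Primrec.snd

theorem c04_4 (hr : Primrec r) : REPred fun x => (r x).getD 0 [] = [] := by
  refine re_of_prim ?_
  exact Primrec.eq.comp (pres2_getD_p hr (Primrec.const 0)) (Primrec.const [])

theorem c04_5 (hf : Primrec f) (hr : Primrec r) :
    REPred fun x => ∀ i < cM (f x), runN (f x) 0 ((r x).getD i []) = i := by
  refine re_forall_lt (p := fun x i => runN (f x) 0 ((r x).getD i []) = i) (p_cM hf) ?_
  refine re_of_prim ?_
  exact CB.pp_eq (p_runN (f := fun y : β × ℕ => f y.1) (hf.comp Primrec.fst) (Primrec.const 0)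
    (pres2_getD_p (hr.comp Primrec.fst) Primrec.snd)) Primrec.snd

theorem c04_6a (hf : Primrec f) (hp : Primrec p) (hq : Primrec q) (hr : Primrec r) {i v : β → ℕ}
    (hi : Primrec i) (hv : Primrec v) :
    REPred fun x => TrivW (RP (f x)) (sbw (p x) (xg (f x) (q x) (i x) (v x)) ++
      FreeGroup.invRev ((r x).getD (i x) [] ++ [(v x, true)] ++
        FreeGroup.invRev ((r x).getD (rmN (f x) (i x) (v x)) []))) := by
  refine pres2_triv_comp (p_RP hf) ?_
  refine c04_app (pres2_sbw_p hp (p_xg hf hq hi hv)) (pres1_invRev_p ?_)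
  refine c04_app (c04_app (pres2_getD_p hr hi) (c04_one true hv)) (pres1_invRev_p ?_)
  exact pres2_getD_p hr (p_rmN hf hi hv)

theorem c04_6 (hf : Primrec f) (hp : Primrec p) (hq : Primrec q) (hr : Primrec r) :
    REPred fun x => ∀ i < cM (f x), ∀ v < cK (f x),
      TrivW (RP (f x)) (sbw (p x) (xg (f x) (q x) i v) ++
        FreeGroup.invRev ((r x).getD i [] ++ [(v, true)] ++
          FreeGroup.invRev ((r x).getD (rmN (f x) i v) []))) := by
  refine re_forall_lt (p := fun x i => ∀ v < cK (f x),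
      TrivW (RP (f x)) (sbw (p x) (xg (f x) (q x) i v) ++
        FreeGroup.invRev ((r x).getD i [] ++ [(v, true)] ++
          FreeGroup.invRev ((r x).getD (rmN (f x) i v) [])))) (p_cM hf) ?_
  refine re_forall_lt (p := fun (y : β × ℕ) v =>
      TrivW (RP (f y.1)) (sbw (p y.1) (xg (f y.1) (q y.1) y.2 v) ++
        FreeGroup.invRev ((r y.1).getD y.2 [] ++ [(v, true)] ++
          FreeGroup.invRev ((r y.1).getD (rmN (f y.1) y.2 v) [])))) (p_cK (hf.comp Primrec.fst)) ?_
  have e1 : Primrec fun y : (β × ℕ) × ℕ => y.1.1 := Primrec.fst.comp Primrec.fst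
  exact c04_6a (β := (β × ℕ) × ℕ) (f := fun z => f z.1.1) (p := fun z => p z.1.1)
    (q := fun z => q z.1.1) (r := fun z => r z.1.1) (i := fun z => z.1.2) (v := fun z => z.2)
    (hf.comp e1) (hp.comp e1) (hq.comp e1) (hr.comp e1)
    (Primrec.snd.comp Primrec.fst) Primrec.snd

theorem c04_cert (hf : Primrec f) (hP : Primrec P) (hp : Primrec p) (hq : Primrec q)
    (hr : Primrec r) : REPred fun x => Cert (f x) (P x) (p x, q x, r x) := by
  unfold Cert
  refine re_and (re_of_prim ?_) (re_and (c04_1 hf hP hp) (re_and (c04_2 hf hP hq)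
    (re_and (c04_3 hf hP hp hq) (re_and (c04_4 hr) (re_and (c04_5 hf hr)
      (c04_6 hf hp hq hr))))))
  exact Primrec.nat_le.comp (Primrec.list_length.comp hp) (CB.p_fst hP)

end

theorem cert_re : REPred fun x : (Cd × Pres) × (List Wd × List Wd × List Wd) =>
    Cert x.1.1 x.1.2 x.2 := by
  have e1 : Primrec fun x : (Cd × Pres) × (List Wd × List Wd × List Wd) => x.1.1 :=
    Primrec.fst.comp Primrec.fst
  have e2 : Primrec fun x : (Cd × Pres) × (List Wd × List Wd × List Wd) => x.1.2 :=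
    Primrec.snd.comp Primrec.fst
  have e3 : Primrec fun x : (Cd × Pres) × (List Wd × List Wd × List Wd) => x.2.1 :=
    Primrec.fst.comp Primrec.snd
  have e4 : Primrec fun x : (Cd × Pres) × (List Wd × List Wd × List Wd) => x.2.2.1 :=
    Primrec.fst.comp (Primrec.snd.comp Primrec.snd)
  have e5 : Primrec fun x : (Cd × Pres) × (List Wd × List Wd × List Wd) => x.2.2.2 :=
    Primrec.snd.comp (Primrec.snd.comp Primrec.snd)
  exact c04_cert e1 e2 e3 e4 e5

theorem codeFor_re : REPred fun x : Pres × Cd => CodeFor x.1 x.2 := by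
  refine re_and (re_of_prim (valN_p.comp Primrec.snd)) ?_
  refine re_exists (p := fun (x : Pres × Cd) (z : List Wd × List Wd × List Wd) =>
    Cert x.2 x.1 z) ?_
  exact re_comp cert_re
    (f := fun y : (Pres × Cd) × (List Wd × List Wd × List Wd) => ((y.1.2, y.1.1), y.2))
    (Primrec.pair (Primrec.pair (Primrec.snd.comp Primrec.fst) (Primrec.fst.comp Primrec.fst))
      Primrec.snd).to_comp

end RaagIso
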