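import Pool.Agent.Lib.MP_32d917_al_raag.W03

/-!
# E03: cyclically reduced elements

`Cr x`: the product `x * x` is reduced.

`exists_cr`: choose `y` of minimal length among the conjugates `w⁻¹ * x * w`. If `Rp y y` fails there is `a` with `Rt y a` and
`Lf y (ivl a)`. By `lf_dec`, `y = gl (ivl a) * y1` with `Rp (gl (ivl a)) y1`, `len y = 1 + len y1`. By `rt_mul'` applied to `Rt y a`:
`Rt y1 a` or `Rt (gl (ivl a)) a`, and the latter gives `a = ivl a` (`rt_gl`, `ivl_ne`). So `len (y1 * (gl a)⁻¹) + 1 = len y1`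
(`len_rt`); and `y1 * (gl a)⁻¹ = gl a * y * (gl a)⁻¹` is a shorter conjugate.

`cr_pow`: for `n : ℕ`: `Rp (x ^ n) x`, and for `n ≥ 1`: `sup (x ^ n) = sup x` and every right letter `a` of `x ^ n` is a right letter of `x`:
by induction: `Rt (x ^ n * x) a` gives by `rt_mul'` `Rt x a` or `sup x ⊆ lk Γ a.1`; but in the second case `Rt (x ^ n) a` so `a.1 ∈ sup (x ^ n) = sup x
⊆ lk Γ a.1`, contradiction.

`cr_rot`: if `Cr (gl a * y)` with `Rp (gl a) y` then `Cr (y * gl a)` and `Rp y (gl a)`: `Rp y (gl a)`: if `y = 1` this is clear (`rp_one'`); otherwise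
`Rt y a'` and `Lf (gl a) (ivl a')` give `a' = ivl a` (`lf_gl`), `Rt (gl a * y) a'` (`rt_mul`) and `Lf (gl a * y) (ivl a')` (`lf_mul`, `ivl a' = a`), so `Cr`
fails. `Rp (y * gl a) (y * gl a)`: `(gl a * y) ^ 3 = gl a * (y * gl a) ^ 2 * y` has length `3 (1 + len y)` (`cr_pow`, `rp_len`), and
`len (u * v) ≤ len u + len v` (`len_mul_le`), so `len ((y * gl a) ^ 2) ≥ 2 (1 + len y) = 2 len (y * gl a)`, and use `rp_len`.
-/

set_option autoImplicit false

namespace RaagIso

open Classical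

section

variable {V : Type} {Γ : SimpleGraph V}

/-- cyclically reduced elements -/
def Cr (x : RA Γ) : Prop := Rp x x

theorem len_mul_le (x y : RA Γ) : len (x * y) ≤ len x + len y := by
  obtain ⟨l, rfl, hl⟩ := exists_wr x
  obtain ⟨m, rfl, hm⟩ := exists_wr y
  rw [len_wr hl, len_wr hm, ← ev_append, ← List.length_append]
  exact len_le (l ++ m)

theorem e03_len_gl (a : V × Bool) : len (gl a : RA Γ) = 1 := by
  have h : WR Γ [a] := by simp [WR, wls]
  have h1 : (ev [a] : RA Γ) = gl a := by simp [ev]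
  rw [← h1, len_wr h]
  rfl

theorem exists_cr (x : RA Γ) : ∃ w y, x = w * y * w⁻¹ ∧ Cr y := by
  have h : ∃ n, ∃ w y : RA Γ, x = w * y * w⁻¹ ∧ len y = n := ⟨_, 1, x, by group, rfl⟩
  obtain ⟨w, y, hx, hlen⟩ := Nat.find_spec h
  refine ⟨w, y, hx, ?_⟩
  intro a hra hla
  obtain ⟨y1, hy1, hrp⟩ := lf_dec hla
  have hra' := hra
  rw [hy1] at hra'
  rcases rt_mul' hrp hra' with h1 | ⟨h1, _⟩
  · have h2 := len_rt h1
    have h3 : len y = 1 + len y1 := by
      have h4 := rp_len.1 hrp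
      rw [e03_len_gl, ← hy1] at h4
      exact h4
    have h4 : len (y1 * (gl a)⁻¹) < Nat.find h := by
      rw [← hlen]
      omega
    refine Nat.find_min h h4 ⟨w * (gl a)⁻¹, y1 * (gl a)⁻¹, ?_, rfl⟩
    rw [hx, hy1, gl_ivl]
    group
  · rw [rt_gl] at h1
    exact ivl_ne a h1.symm

theorem e03_pow {x : RA Γ} (h : Cr x) (n : ℕ) : (∀ a, Rt (x ^ n) a → Rt x a) ∧
    (0 < n → sup (x ^ n) = sup x) ∧ len (x ^ n) = n * len x := by
  induction n with
  | zero =>
    refine ⟨?_, fun h0 => absurd h0 (lt_irrefl 0), ?_⟩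
    · intro a ha
      have h1 := rt_sup ha
      rw [pow_zero, sup_one] at h1
      exact absurd h1 (Set.notMem_empty _)
    · rw [pow_zero, len_one, zero_mul]
  | succ n ih =>
    obtain ⟨i1, i2, i3⟩ := ih
    have hrp : Rp (x ^ n) x := fun a ha => h a (i1 a ha)
    refine ⟨?_, ?_, ?_⟩
    · intro a ha
      rw [pow_succ] at ha
      rcases rt_mul' hrp ha with h1 | ⟨h1, _⟩
      · exact h1
      · exact i1 a h1
    · intro _
      rw [pow_succ, sup_mul hrp]
      rcases Nat.eq_zero_or_pos n with h0 | h0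
      · rw [h0, pow_zero, sup_one, Set.empty_union]
      · rw [i2 h0, Set.union_self]
    · rw [pow_succ, rp_len.1 hrp, i3]
      ring

theorem cr_pow {x : RA Γ} (h : Cr x) (n : ℕ) : Rp (x ^ n) x ∧ (0 < n → sup (x ^ n) = sup x) ∧
    len (x ^ n) = n * len x := by
  obtain ⟨i1, i2, i3⟩ := e03_pow h n
  exact ⟨fun a ha => h a (i1 a ha), i2, i3⟩

theorem cr_zpow_sup {x : RA Γ} (h : Cr x) {n : ℤ} (hn : n ≠ 0) : sup (x ^ n) = sup x := by
  obtain ⟨m, hm⟩ := Int.eq_nat_or_neg n
  have hm0 : 0 < m := by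
    rcases Nat.eq_zero_or_pos m with h0 | h0
    · exfalso
      apply hn
      rcases hm with hm | hm <;> rw [hm, h0] <;> simp
    · exact h0
  rcases hm with hm | hm
  · rw [hm, zpow_natCast]
    exact (cr_pow h m).2.1 hm0
  · rw [hm, zpow_neg, zpow_natCast, sup_inv]
    exact (cr_pow h m).2.1 hm0

theorem cr_rot {a : V × Bool} {y : RA Γ} (h : Rp (gl a) y) (h' : Cr (gl a * y)) :
    Cr (y * gl a) ∧ Rp y (gl a) ∧ sup (y * gl a) = sup (gl a * y) := by
  have h1 : Rp y (gl a) := by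
    by_cases hy : y = 1
    · rw [hy]; exact rp_one' _
    · intro b hb hb'
      rw [lf_gl] at hb'
      have h2 : Rt (gl a * y) b := rt_mul h hb
      have h3 : Lf (gl a * y) (ivl b) := by
        rw [hb']
        exact lf_mul h (lf_gl.2 rfl)
      exact h' b h2 h3
  have hlen1 : len (gl a * y) = 1 + len y := by
    rw [rp_len.1 h, e03_len_gl]
  have hlen2 : len (y * gl a) = len y + 1 := by
    rw [rp_len.1 h1, e03_len_gl]
  refine ⟨?_, h1, ?_⟩
  · unfold Cr
    rw [rp_len]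
    have h3 := (cr_pow h' 3).2.2
    have h4 : (gl a * y) ^ 3 = gl a * ((y * gl a) * (y * gl a)) * y := by
      simp only [pow_succ, pow_zero, one_mul, mul_assoc]
    rw [h4] at h3
    have h5 := len_mul_le (gl a * ((y * gl a) * (y * gl a))) y
    have h6 := len_mul_le (gl a) ((y * gl a) * (y * gl a))
    have h7 := len_mul_le (y * gl a) (y * gl a)
    rw [e03_len_gl] at h6
    omega
  · rw [sup_mul h, sup_mul h1, Set.union_comm]

end

end RaagIso
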