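import Pool.Agent.Lib.MP_32d917_al_raag.T01
import Pool.Agent.Lib.MP_32d917_al_raag.E03
import Pool.Agent.Lib.MP_32d917_al_adm.T03

/-!
# T02: commutators in the centraliser of a cyclically reduced element

`cr_axis`: `x = ev l` with `WR Γ l` (`exists_wr`), `Cr x` gives `WR Γ (l ++ l)` (`wr_app_iff`). Let `n = l.countP (fun a => a.1 = s)`, positive by
`sup_ev`. By `tt_len`: `dist bv (x • bv) = n`, and `dist bv (x • x • bv) = dist bv (ev (l ++ l) • bv) = 2 n`. `LatIso.tl_axis` (file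
`MP_32d917_al/TL1.lean`) gives `bv ∈ CC`, and then `tl = n > 0` (definition of `CC`).

`cmr_ps`: `LatIso.tl_line` (file `TL1B`) gives the axis `b : ℤ → TV Γ s` of `x`; by `AdmIso.t03_trans` (file `MP_32d917_al_adm/T03.lean`) every element
commuting with `x` acts as a translation on it; by `AdmIso.t03_cmr` (`AdmIso.cmr a b = a * b * a⁻¹ * b⁻¹`) the commutator fixes all `b i`; and `bv = b i`
for some `i` (`cr_axis`). Use `tt_stab`.

`cmr_lk`: Let `k` be the commutator. Statement to prove by induction on the length of the first word `p`: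
for all reduced words `p ++ q` with `ev (p ++ q) = x` cyclically reduced and all `c d` commuting with `x`, the commutator `k = [c, d]` is in
`PP Γ (lk Γ a.1)` for all letters `a` of `p` and the rotated element `x' = ev (q ++ p)` is cyclically reduced with `sup x' = sup x` and `x' = (ev p)⁻¹ * x * ev p`.
Step: `p ++ a :: q`: `k` commutes with `ev p` (`gl_comm`, all letters of `p`), so `k = (ev p)⁻¹ * k * ev p` is the commutator of `(ev p)⁻¹ * c * ev p` and
`(ev p)⁻¹ * d * ev p`, which commute with `x' = ev (a :: q ++ p)`. `x'` is cyclically reduced with `s := a.1` in the support: so `k ∈ PP Γ {s}ᶜ` by `cmr_ps`.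
The rotation `x'' = (gl a)⁻¹ * x' * gl a` is cyclically reduced with the same support (`cr_rot`), so `(gl a)⁻¹ * k * gl a ∈ PP Γ {s}ᶜ`. By
`ps_conj` `k ∈ PP Γ (lk Γ s)`.

`ps_conj`: if `k` and `(gl a)⁻¹ * k * gl a` are in `PP Γ {s}ᶜ`, `s = a.1`, then `k ∈ PP Γ (lk Γ s)`. For `a = (s, true)`, `g = gen s`:
`0 = NN s (g⁻¹ * k * g) (g⁻¹) = NN s g⁻¹ g⁻¹ + NN s k 1 + NN s g (k⁻¹) = -1 + 0 + [k⁻¹ ∈ PP Γ (lk Γ s)]` (`nn_mul`, `nn_inv`, `nn_gen`, `nn_pp`).
For `a = (s, false)` apply this to `k' = g * k * g⁻¹`: `k' ∈ PP Γ (lk Γ s)`, so `k = g⁻¹ * k' * g = k'` (`lk_comm`).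
-/

set_option autoImplicit false

namespace RaagIso

open Classical LatIso

section

variable {V : Type} {Γ : SimpleGraph V}

theorem cr_axis {x : RA Γ} (h : Cr x) {s : V} (hs : s ∈ sup x) :
    bv Γ s ∈ CC (TT Γ s) x ∧ 0 < tl (TT Γ s) x := by
  obtain ⟨l, rfl, hl⟩ := exists_wr x
  have h2 : WR Γ (l ++ l) := (wr_app_iff hl hl).2 h
  have hc : 0 < l.countP (fun a => a.1 = s) := by
    rw [List.countP_pos_iff]
    obtain ⟨c, hc, hc'⟩ := (sup_ev hl s).1 hs
    exact ⟨c, hc, by simpa using hc'⟩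
  have d1 := tt_len s hl
  have d2 := tt_len s h2
  rw [ev_append, List.countP_append, mul_smul] at d2
  have hcc : bv Γ s ∈ CC (TT Γ s) (ev l : RA Γ) :=
    tl_axis (tt_ta Γ s) (ev l) (bv Γ s) (by omega) (by omega)
  refine ⟨hcc, ?_⟩
  have h3 : (TT Γ s).dist (bv Γ s) ((ev l : RA Γ) • bv Γ s) = tl (TT Γ s) (ev l : RA Γ) := hcc
  omega

theorem cmr_ps {x : RA Γ} (h : Cr x) {s : V} (hs : s ∈ sup x) {c d : RA Γ} (hc : x * c = c * x)
    (hd : x * d = d * x) : c * d * c⁻¹ * d⁻¹ ∈ PP Γ ({s}ᶜ : Set V) := by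
  obtain ⟨h1, h2⟩ := cr_axis h hs
  obtain ⟨b, hb1, hb2, hb3⟩ := tl_line (tt_ta Γ s) x h2
  obtain ⟨p, hp⟩ := AdmIso.t03_trans (tt_ta Γ s) x b h2 hb1 hb2 hb3 c hc
  obtain ⟨q, hq⟩ := AdmIso.t03_trans (tt_ta Γ s) x b h2 hb1 hb2 hb3 d hd
  obtain ⟨i, hi⟩ := (hb3 _).1 h1
  have h3 := AdmIso.t03_cmr hp hq i
  rw [hi] at h3
  exact (tt_stab s _).1 h3

theorem t02_conj_true {s : V} {k : RA Γ} (h : k ∈ PP Γ ({s}ᶜ : Set V))
    (h' : (gen s)⁻¹ * k * gen s ∈ PP Γ ({s}ᶜ : Set V)) : k ∈ PP Γ (lk Γ s) := by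
  have hs : s ∉ ({s}ᶜ : Set V) := fun h0 => h0 rfl
  have h1 := nn_pp h' s hs (gen s)⁻¹
  rw [nn_mul, nn_mul, nn_pp h s hs, nn_inv, mul_inv_cancel, nn_gen, if_pos ⟨rfl, one_mem _⟩,
    nn_gen] at h1
  by_contra hk
  rw [if_neg] at h1
  · omega
  · rintro ⟨_, h2⟩
    apply hk
    have h3 : ((gen s)⁻¹ * k)⁻¹ * (gen s)⁻¹ = (k⁻¹ : RA Γ) := by group
    rw [h3] at h2
    exact (inv_mem_iff).1 h2

theorem ps_conj {a : V × Bool} {k : RA Γ} (h : k ∈ PP Γ ({a.1}ᶜ : Set V))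
    (h' : (gl a)⁻¹ * k * gl a ∈ PP Γ ({a.1}ᶜ : Set V)) : k ∈ PP Γ (lk Γ a.1) := by
  obtain ⟨s, b⟩ := a
  cases b
  · have e : (gl (s, false) : RA Γ) = (gen s)⁻¹ := by simp [gl]
    rw [e, inv_inv] at h'
    have h1 : (gen s)⁻¹ * (gen s * k * (gen s)⁻¹) * gen s = k := by group
    have h2 : gen s * k * (gen s)⁻¹ ∈ PP Γ (lk Γ s) := by
      apply t02_conj_true h'
      rw [h1]
      exact h
    have h3 := lk_comm h2
    have h4 : k = gen s * k * (gen s)⁻¹ := by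
      calc k = (gen s)⁻¹ * (gen s * k * (gen s)⁻¹ * gen s) := by group
        _ = (gen s)⁻¹ * (gen s * (gen s * k * (gen s)⁻¹)) := by rw [h3]
        _ = gen s * k * (gen s)⁻¹ := by group
    rw [h4]
    exact h2
  · have e : (gl (s, true) : RA Γ) = gen s := by simp [gl]
    rw [e] at h'
    exact t02_conj_true h h'

theorem t02_comm {g y c : RA Γ} (h : (g * y) * c = c * (g * y)) :
    (y * g) * (g⁻¹ * c * g) = (g⁻¹ * c * g) * (y * g) := by
  calc (y * g) * (g⁻¹ * c * g) = g⁻¹ * ((g * y) * c) * g := by group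
    _ = g⁻¹ * (c * (g * y)) * g := by rw [h]
    _ = _ := by group

theorem t02_word (l : List (V × Bool)) : ∀ (m : List (V × Bool)) (c d : RA Γ), WR Γ (l ++ m) →
    Cr (ev (l ++ m) : RA Γ) → ev (l ++ m) * c = c * ev (l ++ m) →
    ev (l ++ m) * d = d * ev (l ++ m) →
    ∀ a ∈ l, c * d * c⁻¹ * d⁻¹ ∈ PP Γ (lk Γ a.1) := by
  induction l with
  | nil => intro m c d _ _ _ _ a ha; exact absurd ha List.not_mem_nil
  | cons a l ih =>
    intro m c d hw hcr hc hd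
    have hy : (ev (a :: l ++ m) : RA Γ) = gl a * ev (l ++ m) := by rw [List.cons_append, ev_cons]
    have hw1 : WR Γ ([a] ++ (l ++ m)) := hw
    have hw2 : WR Γ (l ++ m) := by
      have hw3 : WR Γ (a :: (l ++ m)) := hw
      exact (wr_cons.1 hw3).1
    have hwa : WR Γ [a] := by simp [WR, wls]
    have hea : (ev [a] : RA Γ) = gl a := by simp [ev]
    have hrp : Rp (gl a) (ev (l ++ m) : RA Γ) := by
      have h1 := (wr_app_iff hwa hw2).1 hw1
      rwa [hea] at h1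
    rw [hy] at hcr hc hd
    obtain ⟨r1, r2, r3⟩ := cr_rot hrp hcr
    have hsup : a.1 ∈ sup (gl a * ev (l ++ m) : RA Γ) := by
      rw [sup_mul hrp, sup_gl]
      exact Or.inl rfl
    have k1 := cmr_ps hcr hsup hc hd
    have k2 := cmr_ps r1 (by rw [r3]; exact hsup) (t02_comm hc) (t02_comm hd)
    have e2 : (gl a)⁻¹ * c * gl a * ((gl a)⁻¹ * d * gl a) * ((gl a)⁻¹ * c * gl a)⁻¹ *
        ((gl a)⁻¹ * d * gl a)⁻¹ = (gl a)⁻¹ * (c * d * c⁻¹ * d⁻¹) * gl a := by group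
    rw [e2] at k2
    have key := ps_conj k1 k2
    intro b hb
    rcases List.mem_cons.1 hb with rfl | hb
    · exact key
    · have e3 : (ev (l ++ (m ++ [a])) : RA Γ) = ev (l ++ m) * gl a := by
        rw [← List.append_assoc, ev_append, hea]
      have hw4 : WR Γ (l ++ (m ++ [a])) := by
        rw [← List.append_assoc, wr_app_iff hw2 hwa, hea]
        exact r2
      have h5 := ih (m ++ [a]) ((gl a)⁻¹ * c * gl a) ((gl a)⁻¹ * d * gl a) hw4
        (by rw [e3]; exact r1) (by rw [e3]; exact t02_comm hc) (by rw [e3]; exact t02_comm hd) b hb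
      rw [e2] at h5
      have h6 : (gl a)⁻¹ * (c * d * c⁻¹ * d⁻¹) * gl a = c * d * c⁻¹ * d⁻¹ := by
        have h7 := gl_comm key
        rw [mul_assoc, ← h7, inv_mul_cancel_left]
      rw [h6] at h5
      exact h5

theorem cmr_lk {x : RA Γ} (h : Cr x) {c d : RA Γ} (hc : x * c = c * x)
    (hd : x * d = d * x) {s : V} (hs : s ∈ sup x) : c * d * c⁻¹ * d⁻¹ ∈ PP Γ (lk Γ s) := by
  obtain ⟨l, rfl, hl⟩ := exists_wr x
  obtain ⟨a, ha, rfl⟩ := (sup_ev hl s).1 hs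
  exact t02_word l [] c d (by rwa [List.append_nil]) (by rwa [List.append_nil])
    (by rwa [List.append_nil]) (by rwa [List.append_nil]) a ha

end

end RaagIso
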