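import Pool.Agent.Lib.MP_32d917_al_raag.T02
import Pool.Agent.Lib.MP_32d917_al_raag.E01

/-!
# A01: group theoretic characterisation of powers of conjugates of generators, first half

`Qp x` (for `x` in a group `G`): `x ≠ 1`, and every `y` which commutes with all commutators of elements commuting with `x` has a power `y ^ m`,
`m ≠ 0`, which is a power of `x`.

`gen_of_qp`: Let `x ∈ H`, `H` of finite index, `Qp x` in the group `H`. `x = w * x' * w⁻¹` with `Cr x'` (`exists_cr`), `S = sup x' ≠ ∅`. Let `s ∈ S`. Some power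
`n > 0` has `y = w * gen s ^ n * w⁻¹ ∈ H` (finite index: `Subgroup.exists_pow_mem_of_index_ne_zero` or similar). For `c, d ∈ H` commuting with `x`, `w⁻¹ * c * w` and
`w⁻¹ * d * w` commute with `x'`, so their commutator is in `PP Γ (lk Γ s)` (`cmr_lk`) and commutes with `gen s ^ n`; conjugate back: `y` commutes with
`[c, d]`. So by `Qp` `y ^ m = x ^ k`, `m ≠ 0`: `gen s ^ (n * m) = x' ^ k`. The left side has support `{s}` (`gen_pow_sup`), so `k ≠ 0` and `sup x' = {s}`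
(`cr_zpow_sup`). So `x' ∈ PP Γ {s}`, which consists of the powers of `gen s`.
-/

set_option autoImplicit false

namespace RaagIso

open Classical

section

variable {V : Type} {Γ : SimpleGraph V}

/-- group theoretic characterisation of the powers of conjugates of generators -/
def Qp {G : Type} [Group G] (x : G) : Prop := x ≠ 1 ∧ ∀ y : G,
  (∀ c d : G, c * x = x * c → d * x = x * d →
    y * (c * d * c⁻¹ * d⁻¹) = c * d * c⁻¹ * d⁻¹ * y) → ∃ m n : ℤ, m ≠ 0 ∧ y ^ m = x ^ n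

theorem qp_iso {G G' : Type} [Group G] [Group G'] (φ : G ≃* G') {x : G} (h : Qp x) : Qp (φ x) := by
  refine ⟨fun h0 => h.1 ((MulEquiv.map_eq_one_iff φ).1 h0), ?_⟩
  intro y' hy'
  obtain ⟨m, n, hm, hmn⟩ := h.2 (φ.symm y') (by
    intro c d hc hd
    have h1 := hy' (φ c) (φ d) (by rw [← map_mul, ← map_mul, hc]) (by rw [← map_mul, ← map_mul, hd])
    apply φ.injective
    simp only [map_mul, map_inv, MulEquiv.apply_symm_apply]
    exact h1)
  refine ⟨m, n, hm, ?_⟩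
  have h2 := congrArg φ hmn
  rw [map_zpow, map_zpow, MulEquiv.apply_symm_apply] at h2
  exact h2

theorem pp_single {s : V} {x : RA Γ} (h : x ∈ PP Γ {s}) : ∃ k : ℤ, x = gen s ^ k := by
  unfold PP at h
  rw [Set.image_singleton, ← Subgroup.zpowers_eq_closure] at h
  obtain ⟨k, hk⟩ := Subgroup.mem_zpowers_iff.1 h
  exact ⟨k, hk.symm⟩

theorem a01_conj {w x' c : RA Γ} (h : c * (w * x' * w⁻¹) = w * x' * w⁻¹ * c) :
    x' * (w⁻¹ * c * w) = (w⁻¹ * c * w) * x' := by
  calc x' * (w⁻¹ * c * w) = w⁻¹ * (w * x' * w⁻¹ * c) * w := by group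
    _ = w⁻¹ * (c * (w * x' * w⁻¹)) * w := by rw [h]
    _ = _ := by group

theorem gen_of_qp (H : Subgroup (RA Γ)) (hH : H.FiniteIndex) (x : H) (h : Qp x) :
    ∃ (g : RA Γ) (v : V) (k : ℤ), k ≠ 0 ∧ (x : RA Γ) = g * gen v ^ k * g⁻¹ := by
  obtain ⟨w, x', hx, hcr⟩ := exists_cr (x : RA Γ)
  have hx1 : x' ≠ 1 := by
    rintro rfl
    apply h.1
    apply Subtype.ext
    rw [hx]
    simp
  obtain ⟨s, hs⟩ : (sup x').Nonempty := by
    rw [Set.nonempty_iff_ne_empty]
    exact fun h0 => hx1 (sup_eq_empty h0)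
  obtain ⟨n, hn0, -, hn⟩ :=
    Subgroup.exists_pow_mem_of_index_ne_zero hH.index_ne_zero (w * gen s * w⁻¹)
  obtain ⟨m, k, hm, hmk⟩ := h.2 ⟨(w * gen s * w⁻¹) ^ n, hn⟩ (by
    rintro ⟨c, hcH⟩ ⟨d, hdH⟩ hc hd
    have hc1 : c * (w * x' * w⁻¹) = w * x' * w⁻¹ * c := by
      have := congrArg Subtype.val hc
      rw [← hx]
      exact this
    have hd1 : d * (w * x' * w⁻¹) = w * x' * w⁻¹ * d := by
      have := congrArg Subtype.val hd
      rw [← hx]
      exact this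
    have h1 := cmr_lk hcr (a01_conj hc1) (a01_conj hd1) hs
    have h2 := lk_comm h1
    have e2 : (w⁻¹ * c * w) * (w⁻¹ * d * w) * (w⁻¹ * c * w)⁻¹ * (w⁻¹ * d * w)⁻¹ =
      w⁻¹ * (c * d * c⁻¹ * d⁻¹) * w := by group
    rw [e2] at h2
    have h3 : Commute (w * gen s * w⁻¹) (c * d * c⁻¹ * d⁻¹) := by
      show w * gen s * w⁻¹ * (c * d * c⁻¹ * d⁻¹) = c * d * c⁻¹ * d⁻¹ * (w * gen s * w⁻¹)
      calc w * gen s * w⁻¹ * (c * d * c⁻¹ * d⁻¹) =
          w * (gen s * (w⁻¹ * (c * d * c⁻¹ * d⁻¹) * w)) * w⁻¹ := by group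
        _ = w * (w⁻¹ * (c * d * c⁻¹ * d⁻¹) * w * gen s) * w⁻¹ := by rw [h2]
        _ = _ := by group
    apply Subtype.ext
    exact (h3.pow_left n).eq)
  have h4 : ((w * gen s * w⁻¹) ^ n) ^ m = (w * x' * w⁻¹) ^ k := by
    have h5 := congrArg Subtype.val hmk
    simp only [SubgroupClass.coe_zpow] at h5
    rw [← hx]
    exact h5
  have h6 : (gen s : RA Γ) ^ ((n : ℤ) * m) = x' ^ k := by
    rw [← zpow_natCast, ← zpow_mul, conj_zpow, conj_zpow] at h4
    exact mul_left_cancel (mul_right_cancel h4)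
  have hnm : (n : ℤ) * m ≠ 0 := mul_ne_zero (by omega) hm
  have h7 := gen_pow_sup (Γ := Γ) (v := s) hnm
  have hk : k ≠ 0 := by
    rintro rfl
    rw [h6, zpow_zero, sup_one] at h7
    exact absurd h7.symm (Set.singleton_ne_empty s)
  rw [h6, cr_zpow_sup hcr hk] at h7
  obtain ⟨j, hj⟩ := pp_single (mem_pp.2 h7.le)
  refine ⟨w, s, j, ?_, ?_⟩
  · rintro rfl
    exact hx1 (by rw [hj, zpow_zero])
  · rw [hx, hj]

end

end RaagIso
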