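import Pool.Agent.Lib.MP_32d917_al_raag.W03

/-!
# Definitions for the rigidity theorem
-/

set_option autoImplicit false

namespace RaagIso

section

variable {V V' : Type} {Γ : SimpleGraph V} {Γ' : SimpleGraph V'}

/-- conjugates of generators -/
def IsE (e : RA Γ) : Prop := ∃ (g : RA Γ) (v : V), e = g * gen v * g⁻¹

/-- steps outside the star of `e` -/
def Stp (e a b : RA Γ) : Prop := IsE a ∧ IsE b ∧ a * b = b * a ∧ a * e ≠ e * a ∧ b * e ≠ e * b

/-- `a` and `b` are connected outside the star of `e` -/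
def Cnn (e a b : RA Γ) : Prop := Relation.ReflTransGen (Stp e) a b

/-- an isomorphism of the extension graphs, with its inverse -/
structure Emp (Φ : RA Γ → RA Γ') (Ψ : RA Γ' → RA Γ) : Prop where
  isE : ∀ e, IsE e → IsE (Φ e)
  isE' : ∀ e, IsE e → IsE (Ψ e)
  left : ∀ e, IsE e → Ψ (Φ e) = e
  right : ∀ e, IsE e → Φ (Ψ e) = e
  comm : ∀ e f, IsE e → IsE f → (e * f = f * e ↔ Φ e * Φ f = Φ f * Φ e)

/-- generalised isomorphisms -/
structure GI (Γ : SimpleGraph V) (Γ' : SimpleGraph V') (f : RA Γ → RA Γ') (τ : RA Γ → V ≃ V')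
    (la : RA Γ → V → ℤ) : Prop where
  adj : ∀ x v w, Γ.Adj v w ↔ Γ'.Adj (τ x v) (τ x w)
  mul : ∀ x v, f (x * gen v) = f x * gen (τ x v) ^ la x v
  tau : ∀ x v w, w ∈ st Γ v → τ (x * gen v) w = τ x w
  lam : ∀ x v w, Γ.Adj v w → la (x * gen w) v = la x v

end

end RaagIso
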