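import Pool.Agent.Lib.MP_32d917_al_raag.A02
import Pool.Agent.Lib.MP_32d917_al_raag.RiDefs

/-!
# A03: isomorphisms of subgroups of finite index induce isomorphisms of extension graphs

Let `φ : H ≃* H'`, both of finite index. For `e` with `IsE e` (`e = g * gen v * g⁻¹`) there is `n > 0` with `e ^ n ∈ H` (finite index); the element `e ^ n` of `H` satisfies `Qp` (`qp_of_gen`), so `φ (e ^ n)` does
(`qp_iso`), so it is `g' * gen v' ^ k * g'⁻¹ = e' ^ k` with `k ≠ 0`, `IsE e'` (`gen_of_qp`). So `rel e e'` where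
`rel e e' := ∃ (x : H) (n k : ℤ), n ≠ 0 ∧ k ≠ 0 ∧ (x : RA Γ) = e ^ n ∧ (φ x : RA Γ') = e' ^ k`.
-/

set_option autoImplicit false

namespace RaagIso

open Classical

section

variable {V V' : Type} {Γ : SimpleGraph V} {Γ' : SimpleGraph V'} {H : Subgroup (RA Γ)}
  {H' : Subgroup (RA Γ')}

/-- the relation between conjugates of generators induced by an isomorphism -/
def a03R (φ : H ≃* H') (e : RA Γ) (e' : RA Γ') : Prop :=
  IsE e ∧ IsE e' ∧ ∃ (x : H) (n k : ℤ), n ≠ 0 ∧ k ≠ 0 ∧ (x : RA Γ) = e ^ n ∧ (φ x : RA Γ') = e' ^ k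

theorem a03_ex (hN : NoDom Γ) (hH : H.FiniteIndex) (hH' : H'.FiniteIndex) (φ : H ≃* H') {e : RA Γ}
    (he : IsE e) : ∃ e', a03R φ e e' := by
  obtain ⟨g, v, rfl⟩ := he
  obtain ⟨n, hn, -, hmem⟩ :=
    Subgroup.exists_pow_mem_of_index_ne_zero hH.index_ne_zero (g * gen v * g⁻¹)
  have hq : Qp (⟨_, hmem⟩ : H) := by
    refine qp_of_gen hN H hH _ g v (n : ℤ) (by exact_mod_cast hn.ne') ?_
    show (g * gen v * g⁻¹) ^ n = _
    rw [conj_pow, zpow_natCast]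
  obtain ⟨g', v', k, hk, hx⟩ := gen_of_qp H' hH' _ (qp_iso φ hq)
  refine ⟨g' * gen v' * g'⁻¹, ⟨g, v, rfl⟩, ⟨g', v', rfl⟩, ⟨_, hmem⟩, n, k, by exact_mod_cast hn.ne',
    hk, ?_, ?_⟩
  · rw [zpow_natCast]
  · rw [hx, conj_zpow]

theorem a03_symm {φ : H ≃* H'} {e : RA Γ} {e' : RA Γ'} (h : a03R φ e e') : a03R φ.symm e' e := by
  obtain ⟨h1, h2, x, n, k, hn, hk, hx, hx'⟩ := h
  exact ⟨h2, h1, φ x, k, n, hk, hn, hx', by rw [φ.symm_apply_apply, hx]⟩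

theorem a03_eq {e f : RA Γ} (he : IsE e) (hf : IsE f) {n m : ℤ} (hn : n ≠ 0) (h : e ^ n = f ^ m) :
    e = f := by
  obtain ⟨x, v, rfl⟩ := he
  obtain ⟨y, w, rfl⟩ := hf
  exact (zpow_eq hn h).2.2

theorem a03_fun {φ : H ≃* H'} {e : RA Γ} {e' e'' : RA Γ'} (h : a03R φ e e') (h' : a03R φ e e'') :
    e' = e'' := by
  obtain ⟨h1, h2, x, n, k, hn, hk, hx, hx'⟩ := h
  obtain ⟨g1, g2, y, m, l, hm, hl, hy, hy'⟩ := h'
  have e1 : x ^ m = y ^ n := by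
    apply Subtype.ext
    rw [Subgroup.coe_zpow, Subgroup.coe_zpow, hx, hy, ← zpow_mul, ← zpow_mul, mul_comm]
  have e2 := congrArg (fun z => ((φ z : H') : RA Γ')) e1
  simp only [map_zpow, Subgroup.coe_zpow] at e2
  rw [hx', hy', ← zpow_mul, ← zpow_mul] at e2
  exact a03_eq h2 g2 (mul_ne_zero hk hm) e2

theorem a03_comm {φ : H ≃* H'} {e f : RA Γ} {e' f' : RA Γ'} (h : a03R φ e e') (h' : a03R φ f f')
    (hc : e * f = f * e) : e' * f' = f' * e' := by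
  obtain ⟨h1, ⟨a, v, rfl⟩, x, n, k, hn, hk, hx, hx'⟩ := h
  obtain ⟨g1, ⟨b, w, rfl⟩, y, m, l, hm, hl, hy, hy'⟩ := h'
  have e1 : x * y = y * x := by
    apply Subtype.ext
    rw [Subgroup.coe_mul, Subgroup.coe_mul, hx, hy]
    exact ((show Commute e f from hc).zpow_zpow n m)
  have e2 := congrArg (fun z => ((φ z : H') : RA Γ')) e1
  simp only [map_mul, Subgroup.coe_mul] at e2
  rw [hx', hy'] at e2
  exact zpow_comm hk hl e2

theorem emap (hN : NoDom Γ) (hN' : NoDom Γ') (H : Subgroup (RA Γ)) (H' : Subgroup (RA Γ'))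
    (hH : H.FiniteIndex) (hH' : H'.FiniteIndex) (φ : H ≃* H') :
    ∃ (Φ : RA Γ → RA Γ') (Ψ : RA Γ' → RA Γ), Emp Φ Ψ ∧
      ∀ (h : H) (e : RA Γ), IsE e → Φ (h * e * (h : RA Γ)⁻¹) = φ h * Φ e * (φ h : RA Γ')⁻¹ := by
  have h1 : ∀ e : RA Γ, ∃ e', IsE e → a03R φ e e' := by
    intro e
    by_cases he : IsE e
    · obtain ⟨e', h⟩ := a03_ex hN hH hH' φ he
      exact ⟨e', fun _ => h⟩
    · exact ⟨1, fun h => absurd h he⟩
  have h2 : ∀ e : RA Γ', ∃ e', IsE e → a03R φ.symm e e' := by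
    intro e
    by_cases he : IsE e
    · obtain ⟨e', h⟩ := a03_ex hN' hH' hH φ.symm he
      exact ⟨e', fun _ => h⟩
    · exact ⟨1, fun h => absurd h he⟩
  choose Φ hΦ using h1
  choose Ψ hΨ using h2
  refine ⟨Φ, Ψ, ⟨fun e he => (hΦ e he).2.1, fun e he => (hΨ e he).2.1, ?_, ?_, ?_⟩, ?_⟩
  · intro e he
    exact a03_fun (hΨ _ (hΦ e he).2.1) (a03_symm (hΦ e he))
  · intro e he
    exact a03_fun (hΦ _ (hΨ e he).2.1) (a03_symm (hΨ e he))
  · intro e f he hf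
    exact ⟨a03_comm (hΦ e he) (hΦ f hf), a03_comm (a03_symm (hΦ e he)) (a03_symm (hΦ f hf))⟩
  · intro h e he
    have he' : IsE ((h : RA Γ) * e * (h : RA Γ)⁻¹) := by
      obtain ⟨g, v, rfl⟩ := he
      exact ⟨h * g, v, by group⟩
    refine a03_fun (hΦ _ he') ⟨he', ?_, ?_⟩
    · obtain ⟨g, v, hg⟩ := (hΦ e he).2.1
      rw [hg]
      exact ⟨φ h * g, v, by group⟩
    · obtain ⟨-, -, x, n, k, hn, hk, hx, hx'⟩ := hΦ e he
      refine ⟨h * x * h⁻¹, n, k, hn, hk, ?_, ?_⟩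
      · rw [conj_zpow, ← hx]
        rfl
      · rw [conj_zpow, ← hx', map_mul, map_mul, map_inv]
        rfl

end

end RaagIso
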