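import Pool.Agent.Lib.MP_32d917_al_raag.B02

/-!
# B05: numerical form of the finite data

`σ = pv ρ v` satisfies `σ ^ M = 1` and `(σ ^ l) c = rm ρ c (gen v ^ l)` (`pv_zpow`).

`nm_of_dt`: `de c v = (la c v) mod M` (`Int.toNat (la c v % M)`), `ep c v = la c v / M`, so `la = de + M * ep`. `mul`: `gen v' ^ la` and `gen v' ^ de` act in the same way since `gen v' ^ M` acts trivially. `lam` is `Dt.lam`.
`sum`: `sh_nat` and `sh_bij_iff`: the displacement at `M` is `M` or `-M`; choose `sn c v` accordingly. `dis`: the sum of the `de` over `Ico i j` is congruent modulo `M` to the sum of the `la`, which is `sh j - sh i` (`Finset.sum_range_add_sum_Ico` or similar).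

`dt_of_nm`: conversely with `la c v = de c v + M * ep c v`.
-/

set_option autoImplicit false

namespace RaagIso

section

variable {V V' C C' : Type} {Γ : SimpleGraph V} {Γ' : SimpleGraph V'}
  {ρ : RA Γ →* Equiv.Perm C} {ρ' : RA Γ' →* Equiv.Perm C'} {F : C ≃ C'} {τ : C → V ≃ V'}

theorem b05_act {M : ℕ} {w : V} (h : ρ (gen w) ^ M = 1) (d : C) (a b : ℤ) :
    rm ρ d (gen w ^ (a + M * b)) = rm ρ d (gen w ^ a) := by
  have h1 : ρ (gen w) ^ (a + M * b) = ρ (gen w) ^ a := by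
    rw [zpow_add, zpow_mul, zpow_natCast, h, one_zpow, mul_one]
  show ρ (gen w ^ (a + M * b))⁻¹ d = ρ (gen w ^ a)⁻¹ d
  rw [map_inv, map_inv, map_zpow, map_zpow, h1]

theorem b05_pv_pow {M : ℕ} {v : V} (h : ρ (gen v) ^ M = 1) : pv ρ v ^ M = 1 := by
  show (ρ (gen v))⁻¹ ^ M = 1
  rw [inv_pow, h, inv_one]

theorem b05_pv_nat (v : V) (n : ℕ) (c : C) : (pv ρ v ^ n) c = rm ρ c (gen v ^ n) := by
  have h := pv_zpow ρ v (n : ℤ) c
  rwa [zpow_natCast, zpow_natCast] at h

theorem b05_sh (la : C → V → ℤ) (c : C) (v : V) (n : ℕ) :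
    sh (pv ρ v) (fun d => la d v) c n =
      ∑ j ∈ Finset.range n, la (rm ρ c (gen v ^ j)) v := by
  rw [sh_nat]
  refine Finset.sum_congr rfl (fun j _ => ?_)
  rw [b05_pv_nat]

theorem b05_dvd {M : ℕ} {de : C → V → ℕ} {ep : C → V → ℤ} {la : C → V → ℤ}
    (hla : ∀ c v, la c v = de c v + M * ep c v) (c : C) (v : V) {i j : ℕ} (hij : i ≤ j) :
    ((M : ℤ) ∣ sh (pv ρ v) (fun d => la d v) c j - sh (pv ρ v) (fun d => la d v) c i) ↔
      M ∣ ∑ l ∈ Finset.Ico i j, de (rm ρ c (gen v ^ l)) v := by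
  have h1 : sh (pv ρ v) (fun d => la d v) c j - sh (pv ρ v) (fun d => la d v) c i =
      ((∑ l ∈ Finset.Ico i j, de (rm ρ c (gen v ^ l)) v : ℕ) : ℤ) +
        M * ∑ l ∈ Finset.Ico i j, ep (rm ρ c (gen v ^ l)) v := by
    rw [b05_sh, b05_sh, ← Finset.sum_Ico_eq_sub _ hij, Nat.cast_sum, Finset.mul_sum,
      ← Finset.sum_add_distrib]
    exact Finset.sum_congr rfl (fun l _ => hla _ _)
  rw [h1, ← Int.natCast_dvd_natCast]
  exact (dvd_add_left (dvd_mul_right _ _))

theorem b05_core {M : ℕ} (hM : 0 < M) {v : V} (h1 : ρ (gen v) ^ M = 1) {de : C → V → ℕ}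
    {ep : C → V → ℤ} {la : C → V → ℤ} (hla : ∀ c v, la c v = de c v + M * ep c v) (c : C) :
    Function.Bijective (sh (pv ρ v) (fun d => la d v) c) ↔
      ((∑ l ∈ Finset.range M, ((de (rm ρ c (gen v ^ l)) v : ℤ) +
          M * ep (rm ρ c (gen v ^ l)) v) = (M : ℤ)) ∨
        (∑ l ∈ Finset.range M, ((de (rm ρ c (gen v ^ l)) v : ℤ) +
          M * ep (rm ρ c (gen v ^ l)) v) = -(M : ℤ))) ∧
      ∀ i j : ℕ, i < j → j < M → ¬ (M ∣ ∑ l ∈ Finset.Ico i j, de (rm ρ c (gen v ^ l)) v) := by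
  rw [sh_bij_iff hM (b05_pv_pow h1) c, b05_sh]
  have h2 : ∑ j ∈ Finset.range M, la (rm ρ c (gen v ^ j)) v =
      ∑ l ∈ Finset.range M, ((de (rm ρ c (gen v ^ l)) v : ℤ) +
          M * ep (rm ρ c (gen v ^ l)) v) := Finset.sum_congr rfl (fun l _ => hla _ _)
  rw [h2]
  refine and_congr Iff.rfl ?_
  refine forall_congr' (fun i => forall_congr' (fun j => ?_))
  refine forall_congr' (fun hij => forall_congr' (fun _ => ?_))
  exact not_congr (b05_dvd hla c v hij.le)

theorem nm_of_dt {la : C → V → ℤ} {M : ℕ} (hM : 0 < M) (h1 : ∀ v, ρ (gen v) ^ M = 1)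
    (h1' : ∀ v, ρ' (gen v) ^ M = 1) (h : Dt ρ ρ' F τ la) :
    ∃ (de : C → V → ℕ) (ep : C → V → ℤ) (sn : C → V → Bool), Nm ρ ρ' M F τ de ep sn ∧
      (∀ c v, de c v < M) ∧ ∀ c v, la c v = de c v + M * ep c v := by
  classical
  have hM' : (0 : ℤ) < M := by exact_mod_cast hM
  have hde : ∀ c v, (((la c v % M).toNat : ℕ) : ℤ) = la c v % M := fun c v =>
    Int.toNat_of_nonneg (Int.emod_nonneg _ hM'.ne')
  have hla : ∀ c v, la c v = ((fun c v => (la c v % M).toNat : C → V → ℕ) c v : ℤ) +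
      M * (fun c v => la c v / M : C → V → ℤ) c v := by
    intro c v
    show la c v = (((la c v % M).toNat : ℕ) : ℤ) + M * (la c v / M)
    rw [hde c v, Int.emod_add_mul_ediv]
  generalize hdd : (fun c v => (la c v % M).toNat : C → V → ℕ) = de at hla
  generalize hee : (fun c v => la c v / M : C → V → ℤ) = ep at hla
  have hlt : ∀ c v, de c v < M := by
    intro c v
    rw [← hdd]
    have h2 := Int.emod_lt_of_pos (la c v) hM'
    have h3 := hde c v
    show (la c v % M).toNat < M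
    omega
  have hcore := fun c v => (b05_core hM (h1 v) hla c).1 (h.bij c v)
  refine ⟨de, ep, fun c v => decide ((∑ l ∈ Finset.range M, ((de (rm ρ c (gen v ^ l)) v : ℤ) +
          M * ep (rm ρ c (gen v ^ l)) v) = (M : ℤ))), ?_, hlt, hla⟩
  refine ⟨h.adj, h.tau, ?_, ?_, ?_, ?_⟩
  · intro c v
    rw [h.mul c v, hla c v, b05_act (h1' _), zpow_natCast]
  · intro c v
    exact (hcore c v).2
  · intro c v w hvw
    rw [← hla, ← hla]
    exact h.lam c v w hvw
  · intro c v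
    by_cases h5 : (∑ l ∈ Finset.range M, ((de (rm ρ c (gen v ^ l)) v : ℤ) +
          M * ep (rm ρ c (gen v ^ l)) v) = (M : ℤ))
    · rw [if_pos (by simpa using h5)]
      exact h5
    · rw [if_neg (by simpa using h5)]
      exact (hcore c v).1.resolve_left h5

theorem dt_of_nm {M : ℕ} (hM : 0 < M) (h1 : ∀ v, ρ (gen v) ^ M = 1)
    (h1' : ∀ v, ρ' (gen v) ^ M = 1) {de : C → V → ℕ} {ep : C → V → ℤ} {sn : C → V → Bool}
    (h : Nm ρ ρ' M F τ de ep sn) : Dt ρ ρ' F τ (fun c v => de c v + M * ep c v) := by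
  refine ⟨h.adj, h.tau, ?_, ?_, ?_⟩
  · intro c v w hvw
    exact h.lam c v w hvw
  · intro c v
    show F (rm ρ c (gen v)) = rm ρ' (F c) (gen (τ c v) ^ ((de c v : ℤ) + M * ep c v))
    rw [b05_act (h1' _), zpow_natCast]
    exact h.mul c v
  · intro c v
    refine (b05_core (de := de) (ep := ep) (la := fun c v => de c v + M * ep c v) hM (h1 v)
      (fun _ _ => rfl) c).2 ⟨?_, h.dis c v⟩
    rw [h.sum c v]
    by_cases h5 : sn c v
    · left; rw [if_pos h5]
    · right; rw [if_neg h5]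

end

end RaagIso
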