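import Pool.Agent.Lib.MP_32d917_al_raag.RDefs

/-!
# W01: homomorphisms, retractions, the cocycle
-/

set_option autoImplicit false

namespace RaagIso

open Classical

section

variable {V : Type} {Γ : SimpleGraph V}

theorem gen_comm {v w : V} (h : Γ.Adj v w) : (gen v : RA Γ) * gen w = gen w * gen v := by
  have h1 : PresentedGroup.mk (rels Γ) (FreeGroup.of v * FreeGroup.of w * (FreeGroup.of v)⁻¹ *
      (FreeGroup.of w)⁻¹) = 1 := by
    apply (PresentedGroup.mk_eq_one_iff).2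
    exact Subgroup.subset_normalClosure ⟨v, w, h, rfl⟩
  have h2 : (gen v : RA Γ) * gen w * (gen v)⁻¹ * (gen w)⁻¹ = 1 := h1
  rwa [mul_inv_eq_one, mul_inv_eq_iff_eq_mul] at h2

/-- induction on elements -/
theorem ra_ind {C : RA Γ → Prop} (h1 : C 1) (hg : ∀ v, C (gen v)) (hm : ∀ x y, C x → C y → C (x * y))
    (hi : ∀ x, C x → C x⁻¹) (x : RA Γ) : C x := by
  have h2 : x ∈ Subgroup.closure (Set.range (PresentedGroup.of : V → RA Γ)) := by
    rw [PresentedGroup.closure_range_of]; trivial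
  induction h2 using Subgroup.closure_induction with
  | mem y hy => obtain ⟨v, rfl⟩ := hy; exact hg v
  | one => exact h1
  | mul y z _ _ hy hz => exact hm y z hy hz
  | inv y _ hy => exact hi y hy

/-- universal property -/
theorem ra_lift {K : Type} [Group K] (f : V → K) (hf : ∀ v w, Γ.Adj v w → f v * f w = f w * f v) :
    ∃ F : RA Γ →* K, ∀ v, F (gen v) = f v := by
  have h : ∀ r ∈ rels Γ, FreeGroup.lift f r = 1 := by
    rintro r ⟨v, w, hvw, rfl⟩
    simp only [map_mul, map_inv, FreeGroup.lift_apply_of]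
    rw [mul_inv_eq_one, mul_inv_eq_iff_eq_mul]
    exact hf v w hvw
  exact ⟨PresentedGroup.toGroup h, fun v => PresentedGroup.toGroup.of h⟩

theorem ra_ext {K : Type} [Group K] {F F' : RA Γ →* K} (h : ∀ v, F (gen v) = F' (gen v)) : F = F' := by
  apply PresentedGroup.ext
  exact h

theorem gl_ivl (a : V × Bool) : (gl (ivl a) : RA Γ) = (gl a)⁻¹ := by
  rcases a with ⟨v, b⟩
  cases b <;> simp [gl, ivl]

theorem ivl_ivl (a : V × Bool) : ivl (ivl a) = a := by
  simp [ivl]

theorem ivl_ne (a : V × Bool) : ivl a ≠ a := by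
  rcases a with ⟨v, b⟩
  cases b <;> simp [ivl]

theorem ev_nil : (ev [] : RA Γ) = 1 := rfl

theorem ev_cons (a : V × Bool) (l : List (V × Bool)) : (ev (a :: l) : RA Γ) = gl a * ev l := by
  simp [ev]

theorem ev_append (l m : List (V × Bool)) : (ev (l ++ m) : RA Γ) = ev l * ev m := by
  simp [ev]

theorem ev_surj (x : RA Γ) : ∃ l, ev l = x := by
  refine ra_ind (C := fun x => ∃ l, ev l = x) ⟨[], rfl⟩ (fun v => ⟨[(v, true)], by simp [ev, gl]⟩)
    ?_ ?_ x
  · rintro x y ⟨l, rfl⟩ ⟨m, rfl⟩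
    exact ⟨l ++ m, ev_append l m⟩
  · rintro x ⟨l, rfl⟩
    refine ⟨(l.map ivl).reverse, ?_⟩
    induction l with
    | nil => simp [ev]
    | cons a l ih => rw [List.map_cons, List.reverse_cons, ev_append, ih, ev_cons]; simp [ev, gl_ivl]

theorem gen_mem {v : V} {D : Set V} (h : v ∈ D) : (gen v : RA Γ) ∈ PP Γ D :=
  Subgroup.subset_closure ⟨v, h, rfl⟩

theorem gl_mem {a : V × Bool} {D : Set V} (h : a.1 ∈ D) : (gl a : RA Γ) ∈ PP Γ D := by
  unfold gl
  split_ifs
  · exact gen_mem h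
  · exact inv_mem (gen_mem h)

theorem pp_mono {D E : Set V} (h : D ⊆ E) : PP Γ D ≤ PP Γ E := by
  unfold PP
  exact Subgroup.closure_mono (Set.image_mono h)

/-- elements of `PP Γ D` commute with `y` if the generators in `D` do -/
theorem pp_comm {D : Set V} {y : RA Γ} (h : ∀ v ∈ D, y * gen v = gen v * y) {x : RA Γ}
    (hx : x ∈ PP Γ D) : y * x = x * y := by
  have h1 : PP Γ D ≤ Subgroup.centralizer {y} := by
    unfold PP
    rw [Subgroup.closure_le]
    rintro _ ⟨v, hv, rfl⟩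
    rw [SetLike.mem_coe, Subgroup.mem_centralizer_iff]
    rintro z rfl
    exact h v hv
  have h2 := h1 hx
  rw [Subgroup.mem_centralizer_iff] at h2
  exact h2 y rfl

theorem lk_comm {v : V} {x : RA Γ} (hx : x ∈ PP Γ (lk Γ v)) : gen v * x = x * gen v :=
  pp_comm (fun _ hw => gen_comm hw) hx

theorem st_comm {v : V} {x : RA Γ} (hx : x ∈ PP Γ (st Γ v)) : gen v * x = x * gen v := by
  refine pp_comm (fun w hw => ?_) hx
  rcases hw with rfl | hw
  · rfl
  · exact gen_comm hw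

/-- the retraction onto the standard subgroup of `D` -/
theorem exists_ret (D : Set V) : ∃ F : RA Γ →* RA Γ, ∀ v, F (gen v) = if v ∈ D then gen v else 1 := by
  apply ra_lift
  intro v w h
  split_ifs
  · exact gen_comm h
  · simp
  · simp
  · simp

/-- the retraction onto the standard subgroup of `D` -/
noncomputable def ret (Γ : SimpleGraph V) (D : Set V) : RA Γ →* RA Γ := (exists_ret D).choose

theorem ret_gen (D : Set V) (v : V) : ret Γ D (gen v) = if v ∈ D then gen v else 1 :=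
  (exists_ret D).choose_spec v

theorem ret_mem (D : Set V) (x : RA Γ) : ret Γ D x ∈ PP Γ D := by
  refine ra_ind (C := fun x => ret Γ D x ∈ PP Γ D) ?_ ?_ ?_ ?_ x
  · rw [map_one]; exact one_mem _
  · intro v
    rw [ret_gen]
    split_ifs with h
    · exact gen_mem h
    · exact one_mem _
  · intro x y hx hy
    rw [map_mul]; exact mul_mem hx hy
  · intro x hx
    rw [map_inv]; exact inv_mem hx

theorem ret_of_mem {D : Set V} {x : RA Γ} (hx : x ∈ PP Γ D) : ret Γ D x = x := by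
  have h1 : PP Γ D ≤ (ret Γ D).eqLocus (MonoidHom.id _) := by
    unfold PP
    rw [Subgroup.closure_le]
    rintro _ ⟨v, hv, rfl⟩
    show ret Γ D (gen v) = gen v
    rw [ret_gen, if_pos hv]
  exact h1 hx

theorem mem_iff_ret {D : Set V} {x : RA Γ} : x ∈ PP Γ D ↔ ret Γ D x = x :=
  ⟨ret_of_mem, fun h => h ▸ ret_mem D x⟩

theorem ret_ret (D E : Set V) (x : RA Γ) : ret Γ D (ret Γ E x) = ret Γ (D ∩ E) x := by
  have : (ret Γ D).comp (ret Γ E) = ret Γ (D ∩ E) := by
    apply ra_ext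
    intro v
    simp only [MonoidHom.comp_apply, ret_gen]
    by_cases h1 : v ∈ E <;> by_cases h2 : v ∈ D <;> simp [h1, h2, ret_gen]
  exact DFunLike.congr_fun this x

theorem pp_inf (D E : Set V) {x : RA Γ} (h1 : x ∈ PP Γ D) (h2 : x ∈ PP Γ E) : x ∈ PP Γ (D ∩ E) := by
  rw [mem_iff_ret] at h1 h2 ⊢
  rw [← ret_ret, h2, h1]

/-- exponent sum of a generator -/
theorem exists_ab (v : V) : ∃ F : RA Γ →* Multiplicative ℤ, ∀ w, F (gen w) =
    if w = v then Multiplicative.ofAdd 1 else 1 := by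
  apply ra_lift
  intro v w h
  exact mul_comm _ _

/-- exponent sum of a generator -/
noncomputable def ab (Γ : SimpleGraph V) (v : V) : RA Γ →* Multiplicative ℤ := (exists_ab v).choose

theorem ab_gen (v w : V) : ab Γ v (gen w) = if w = v then Multiplicative.ofAdd 1 else 1 :=
  (exists_ab v).choose_spec w

theorem ab_pp {v : V} {D : Set V} (h : v ∉ D) {x : RA Γ} (hx : x ∈ PP Γ D) : ab Γ v x = 1 := by
  have h1 : PP Γ D ≤ (ab Γ v).ker := by
    unfold PP
    rw [Subgroup.closure_le]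
    rintro _ ⟨w, hw, rfl⟩
    show ab Γ v (gen w) = 1
    rw [ab_gen, if_neg]
    rintro rfl
    exact h hw
  exact h1 hx

theorem ab_conj (v : V) (x y : RA Γ) : ab Γ v (x * y * x⁻¹) = ab Γ v y := by
  rw [map_mul, map_mul, map_inv, mul_comm (ab Γ v x), mul_inv_cancel_right]

theorem gen_mem_iff {v : V} {D : Set V} : (gen v : RA Γ) ∈ PP Γ D ↔ v ∈ D := by
  refine ⟨fun h => ?_, gen_mem⟩
  by_contra h1
  have h2 := ab_pp h1 h
  rw [ab_gen, if_pos rfl] at h2
  exact absurd (congrArg Multiplicative.toAdd h2) (by simp)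

theorem gen_zpow_mem_iff {v : V} {D : Set V} {n : ℤ} (hn : n ≠ 0) :
    (gen v : RA Γ) ^ n ∈ PP Γ D ↔ v ∈ D := by
  refine ⟨fun h => ?_, fun h => zpow_mem (gen_mem h) n⟩
  by_contra h1
  have h2 := ab_pp h1 h
  rw [map_zpow, ab_gen, if_pos rfl] at h2
  have := congrArg Multiplicative.toAdd h2
  simp at this
  exact hn this

theorem gen_zpow_inj {v : V} {n m : ℤ} (h : (gen v : RA Γ) ^ n = gen v ^ m) : n = m := by
  have h2 := congrArg (ab Γ v) h
  rw [map_zpow, map_zpow, ab_gen, if_pos rfl] at h2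
  have := congrArg Multiplicative.toAdd h2
  simpa using this

/-! ### the cocycle -/

/-- the affine transformation of a generator -/
noncomputable def nnp (s v : V) : Equiv.Perm (RA Γ → ℤ) where
  toFun m y := m ((gen v)⁻¹ * y) + if v = s ∧ y ∈ PP Γ (lk Γ s) then 1 else 0
  invFun m y := m (gen v * y) - if v = s ∧ gen v * y ∈ PP Γ (lk Γ s) then 1 else 0
  left_inv m := by
    funext y
    simp
  right_inv m := by
    funext y
    simp

theorem exists_nnh (s : V) : ∃ F : RA Γ →* Equiv.Perm (RA Γ → ℤ), ∀ v, F (gen v) = nnp s v := by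
  apply ra_lift
  intro v w h
  apply Equiv.ext
  intro m
  funext y
  show m ((gen w)⁻¹ * ((gen v)⁻¹ * y)) + (if w = s ∧ (gen v)⁻¹ * y ∈ PP Γ (lk Γ s) then 1 else 0) +
      (if v = s ∧ y ∈ PP Γ (lk Γ s) then 1 else 0) =
    m ((gen v)⁻¹ * ((gen w)⁻¹ * y)) + (if v = s ∧ (gen w)⁻¹ * y ∈ PP Γ (lk Γ s) then 1 else 0) +
      (if w = s ∧ y ∈ PP Γ (lk Γ s) then 1 else 0)
  have e : (gen w : RA Γ)⁻¹ * ((gen v)⁻¹ * y) = (gen v)⁻¹ * ((gen w)⁻¹ * y) := by
    rw [← mul_assoc, ← mul_assoc, ← mul_inv_rev, ← mul_inv_rev, gen_comm h]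
  rw [e]
  have h1 : w = s → ((gen v)⁻¹ * y ∈ PP Γ (lk Γ s) ↔ y ∈ PP Γ (lk Γ s)) := by
    rintro rfl
    exact Subgroup.mul_mem_cancel_left _ (inv_mem (gen_mem h.symm))
  have h2 : v = s → ((gen w)⁻¹ * y ∈ PP Γ (lk Γ s) ↔ y ∈ PP Γ (lk Γ s)) := by
    rintro rfl
    exact Subgroup.mul_mem_cancel_left _ (inv_mem (gen_mem h))
  by_cases h3 : w = s
  · by_cases h4 : v = s
    · subst h3
      exact absurd h4 h.ne
    · simp [h4, h3, h1 h3]
  · by_cases h4 : v = s
    · simp [h4, h3, h2 h4]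
    · simp [h4, h3]

/-- the affine action -/
noncomputable def nnh (Γ : SimpleGraph V) (s : V) : RA Γ →* Equiv.Perm (RA Γ → ℤ) :=
  (exists_nnh s).choose

theorem nnh_gen (s v : V) : nnh Γ s (gen v) = nnp s v := (exists_nnh s).choose_spec v

/-- `NN s x y` is the number of times, with sign, that a path from `1` to `x` in the Cayley graph
crosses the wall of type `s` given by the coset `y * PP Γ (lk Γ s)`. -/
noncomputable def NN (s : V) (x y : RA Γ) : ℤ := nnh Γ s x 0 y

theorem nnh_apply (s : V) (x : RA Γ) : ∀ (m : RA Γ → ℤ) (y : RA Γ),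
    nnh Γ s x m y = m (x⁻¹ * y) + NN s x y := by
  refine ra_ind (C := fun x => ∀ (m : RA Γ → ℤ) (y : RA Γ),
    nnh Γ s x m y = m (x⁻¹ * y) + NN s x y) ?_ ?_ ?_ ?_ x
  · intro m y
    simp [NN]
  · intro v m y
    unfold NN
    rw [nnh_gen]
    show m ((gen v)⁻¹ * y) + (if v = s ∧ y ∈ PP Γ (lk Γ s) then 1 else 0) =
      m ((gen v)⁻¹ * y) + ((0 : RA Γ → ℤ) ((gen v)⁻¹ * y) +
        if v = s ∧ y ∈ PP Γ (lk Γ s) then 1 else 0)
    simp
  · intro x y hx hy m z
    have h1 : ∀ m : RA Γ → ℤ, nnh Γ s (x * y) m z = m (y⁻¹ * (x⁻¹ * z)) + NN s y (x⁻¹ * z) +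
        NN s x z := by
      intro m
      rw [map_mul, Equiv.Perm.mul_apply, hx, hy]
    rw [h1]
    unfold NN at h1 ⊢
    rw [h1 0]
    simp [mul_assoc, add_assoc]
  · intro x hx m y
    have h1 : ∀ m : RA Γ → ℤ, nnh Γ s x⁻¹ m y = m (x * y) - NN s x (x * y) := by
      intro m
      have h2 : nnh Γ s x (nnh Γ s x⁻¹ m) (x * y) = m (x * y) := by
        rw [← Equiv.Perm.mul_apply, ← map_mul, mul_inv_cancel, map_one]
        rfl
      rw [hx] at h2
      rw [inv_mul_cancel_left] at h2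
      linarith
    rw [h1]
    unfold NN at h1 ⊢
    rw [h1 0]
    simp
    ring

theorem nn_mul (s : V) (x y z : RA Γ) : NN s (x * y) z = NN s x z + NN s y (x⁻¹ * z) := by
  have h1 : NN s (x * y) z = nnh Γ s x (nnh Γ s y 0) z := by
    unfold NN
    rw [map_mul, Equiv.Perm.mul_apply]
  rw [h1, nnh_apply]
  unfold NN
  ring

theorem nn_one (s : V) (z : RA Γ) : NN s (1 : RA Γ) z = 0 := by
  simp [NN]

theorem nn_gen (s v : V) (z : RA Γ) : NN s (gen v) z =
    if v = s ∧ z ∈ PP Γ (lk Γ s) then 1 else 0 := by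
  unfold NN
  rw [nnh_gen]
  show (0 : RA Γ → ℤ) ((gen v)⁻¹ * z) + (if v = s ∧ z ∈ PP Γ (lk Γ s) then 1 else 0) = _
  simp

theorem nn_inv (s : V) (x z : RA Γ) : NN s x⁻¹ z = - NN s x (x * z) := by
  have h := nn_mul s x x⁻¹ (x * z)
  rw [mul_inv_cancel, nn_one, inv_mul_cancel_left] at h
  linarith

/-- representative of the wall of the edge from `1` to `gl a` -/
def cw (a : V × Bool) : RA Γ := if a.2 then 1 else (gen a.1)⁻¹

/-- sign of a letter -/
def sg (a : V × Bool) : ℤ := if a.2 then 1 else -1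

theorem nn_gl (s : V) (a : V × Bool) (z : RA Γ) : NN s (gl a) z =
    if a.1 = s ∧ (cw a)⁻¹ * z ∈ PP Γ (lk Γ s) then sg a else 0 := by
  rcases a with ⟨v, b⟩
  cases b
  · have e : (gl (v, false) : RA Γ) = (gen v)⁻¹ := by simp [gl]
    rw [e, nn_inv, nn_gen]
    simp only [cw, sg, Bool.false_eq_true, if_false, inv_inv]
    split_ifs <;> simp
  · have e : (gl (v, true) : RA Γ) = gen v := by simp [gl]
    rw [e, nn_gen]
    simp [cw, sg]

/-- the cocycle is constant on cosets -/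
theorem nn_coset (s : V) (x z p : RA Γ) (hp : p ∈ PP Γ (lk Γ s)) : NN s x (z * p) = NN s x z := by
  revert z
  refine ra_ind (C := fun x => ∀ z, NN s x (z * p) = NN s x z) ?_ ?_ ?_ ?_ x
  · intro z; rw [nn_one, nn_one]
  · intro v z
    rw [nn_gen, nn_gen, Subgroup.mul_mem_cancel_right _ hp]
  · intro x y hx hy z
    rw [nn_mul, nn_mul, hx, ← mul_assoc, hy]
  · intro x hx z
    rw [nn_inv, nn_inv, ← mul_assoc, hx]

/-- elements of `PP Γ D` cross only walls with type in `D` -/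
theorem nn_pp {D : Set V} {x : RA Γ} (hx : x ∈ PP Γ D) (s : V) (hs : s ∉ D) (z : RA Γ) :
    NN s x z = 0 := by
  revert z
  unfold PP at hx
  induction hx using Subgroup.closure_induction with
  | mem y hy =>
    obtain ⟨v, hv, rfl⟩ := hy
    intro z
    show NN s (gen v) z = 0
    rw [nn_gen, if_neg]
    rintro ⟨rfl, -⟩
    exact hs hv
  | one => exact nn_one s
  | mul y z _ _ hy hz => intro w; rw [nn_mul, hy, hz, add_zero]
  | inv y _ hy => intro w; rw [nn_inv, hy, neg_zero]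

end

end RaagIso
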