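import Pool.Agent.Lib.MP_32d917_al_raag.CDefs
import Pool.Agent.Lib.MP_32d917_al_raag.W01

/-!
# C01: the graph and the action of a valid code

`rho_exists`: for `v : Fin (cK c)` the map `i ↦ rmN c i v` (`CB.dg_lt`) is a permutation of `Fin (cM c)` with inverse `i ↦ riN c i v`; for adjacent vertices they commute. Use `ra_lift` with the
inverse permutations (`rm ρ i (gen v) = (ρ (gen v))⁻¹ i`).
`nodom_code`, `nosep_code`: translation of `ValN` (for `NoSep`: the set `K` is given by a number `s < 2 ^ cK c`, `CB.exists_pred`).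
`lt_inv`, `wv_append`, `wv_inv`: values of words (`FreeGroup.invRev l = (l.map fun a => (a.1, !a.2)).reverse`).
`run_eq`: induction on the word for all `i`.
-/

set_option autoImplicit false

namespace RaagIso

open LatIso AdmIso

theorem rmN_lt (c : Cd) (i v : ℕ) : rmN c i v < cM c := CB.dg_lt _ _ _

theorem riN_lt (c : Cd) (i v : ℕ) : riN c i v < cM c := CB.dg_lt _ _ _

theorem gr_adj (c : Cd) (v w : Fin (cK c)) : (gr c).Adj v w ↔ AdN c v w := Iff.rfl

theorem gr_st (c : Cd) (v w : Fin (cK c)) : w ∈ st (gr c) v ↔ StN c v w := by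
  constructor
  · rintro (h | h)
    · exact Or.inl (congrArg Fin.val h)
    · exact Or.inr h
  · rintro (h | h)
    · exact Or.inl (Fin.ext h)
    · exact Or.inr h

/-- right multiplication by a generator -/
def c01P (c : Cd) (h : ValN c) (v : Fin (cK c)) : Equiv.Perm (Fin (cM c)) where
  toFun i := ⟨rmN c i v, rmN_lt c i v⟩
  invFun i := ⟨riN c i v, riN_lt c i v⟩
  left_inv i := Fin.ext (h.2.1 i i.2 v v.2).1
  right_inv i := Fin.ext (h.2.1 i i.2 v v.2).2

theorem c01P_comm (c : Cd) (h : ValN c) (v w : Fin (cK c)) (hvw : (gr c).Adj v w) :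
    c01P c h v * c01P c h w = c01P c h w * c01P c h v := by
  apply Equiv.ext
  intro i
  apply Fin.ext
  exact (h.2.2.1 i i.2 v v.2 w w.2 hvw).symm

theorem rho_exists (c : Cd) (h : ValN c) :
    ∃ ρ : RA (gr c) →* Equiv.Perm (Fin (cM c)), IsRho c ρ := by
  obtain ⟨F, hF⟩ := ra_lift (Γ := gr c) (fun v => (c01P c h v)⁻¹) (by
    intro v w hvw
    have h1 := congrArg (fun x => x⁻¹) (c01P_comm c h v w hvw)
    simp only [mul_inv_rev] at h1
    exact h1.symm)
  refine ⟨F, fun i v => ?_⟩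
  have h1 : rm F i (gen v) = c01P c h v i := by
    unfold rm
    rw [map_inv, hF, inv_inv]
  rw [h1]
  rfl

theorem rho_inv {c : Cd} (h : ValN c) {ρ : RA (gr c) →* Equiv.Perm (Fin (cM c))} (hρ : IsRho c ρ)
    (i : Fin (cM c)) (v : Fin (cK c)) :
    ((rm ρ i (gen v)⁻¹ : Fin (cM c)) : ℕ) = riN c i v := by
  have h1 : rm ρ (rm ρ i (gen v)⁻¹) (gen v) = i := by
    rw [← rm_mul, inv_mul_cancel, rm_one]
  have h2 := hρ (rm ρ i (gen v)⁻¹) v
  rw [h1] at h2
  rw [h2]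
  exact (h.2.1 _ (rm ρ i (gen v)⁻¹).2 v v.2).1.symm

theorem nodom_code {c : Cd} (h : ValN c) : NoDom (gr c) := by
  intro v w hvw
  obtain ⟨u, hu, h1, h2⟩ := h.2.2.2.1 v v.2 w w.2 (fun e => hvw (Fin.ext e))
  exact ⟨⟨u, hu⟩, h1, fun h3 => h2 ((gr_st c w ⟨u, hu⟩).1 h3)⟩

theorem nosep_code {c : Cd} (h : ValN c) : NoSep (gr c) := by
  intro v K hK a b ha hav hbv
  obtain ⟨s, hs, hsK⟩ := CB.exists_pred c.1.1 (fun a : Fin (c.1.1 + 1) => a ∈ K)
  have h1 := h.2.2.2.2 v v.2 s hs (by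
    intro a ha b hb h2 h3 h4 h5
    exact (hsK ⟨b, hb⟩).2 (hK ⟨a, ha⟩ ⟨b, hb⟩ ((hsK ⟨a, ha⟩).1 h2)
      (fun h6 => h3 ((gr_st c v ⟨a, ha⟩).1 h6)) (fun h6 => h4 ((gr_st c v ⟨b, hb⟩).1 h6)) h5))
    a a.2 b b.2 ((hsK a).2 ha) (fun h6 => hav ((gr_st c v a).2 h6))
    (fun h6 => hbv ((gr_st c v b).2 h6))
  exact (hsK b).1 h1

theorem two_code {c : Cd} (h : ValN c) : ∃ a b : Fin (cK c), a ≠ b := by
  have h1 := h.1
  refine ⟨⟨0, Nat.succ_pos _⟩, ⟨1, Nat.succ_lt_succ h1⟩, ?_⟩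
  intro e
  have := congrArg Fin.val e
  simp at this

theorem wv_nil (c : Cd) : wv c [] = 1 := rfl

theorem wv_append (c : Cd) (l l' : Wd) : wv c (l ++ l') = wv c l * wv c l' := by
  unfold wv
  rw [List.map_append, List.prod_append]

theorem c01_cons (c : Cd) (a : ℕ × Bool) (l : Wd) : wv c (a :: l) = lt c a * wv c l := by
  unfold wv
  rw [List.map_cons, List.prod_cons]

theorem c01_lt_inv (c : Cd) (a : ℕ × Bool) : lt c (a.1, !a.2) = (lt c a)⁻¹ := by
  unfold lt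
  by_cases h : a.1 < cK c
  · rw [dif_pos h, dif_pos h, ← gl_ivl]
    rfl
  · rw [dif_neg h, dif_neg h, inv_one]

theorem wv_inv (c : Cd) (l : Wd) : wv c (FreeGroup.invRev l) = (wv c l)⁻¹ := by
  induction l with
  | nil =>
    change wv c [] = (wv c [])⁻¹
    rw [wv_nil, inv_one]
  | cons a l ih =>
    have h1 : FreeGroup.invRev (a :: l) = FreeGroup.invRev l ++ [(a.1, !a.2)] := by
      simp [FreeGroup.invRev]
    rw [h1, wv_append, ih, c01_cons, c01_cons, wv_nil, mul_one, mul_inv_rev, c01_lt_inv]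

theorem wv_surj (c : Cd) (x : RA (gr c)) : ∃ l : Wd, wv c l = x := by
  obtain ⟨l, rfl⟩ := ev_surj x
  refine ⟨l.map fun a => ((a.1 : ℕ), a.2), ?_⟩
  unfold wv ev
  rw [List.map_map]
  congr 1
  apply List.map_congr_left
  intro a _
  change lt c ((a.1 : ℕ), a.2) = gl a
  unfold lt
  rw [dif_pos a.1.2]

theorem c01_step {c : Cd} (h : ValN c) {ρ : RA (gr c) →* Equiv.Perm (Fin (cM c))}
    (hρ : IsRho c ρ) (i : Fin (cM c)) (a : ℕ × Bool) :
    ((rm ρ i (lt c a) : Fin (cM c)) : ℕ) = stN c i a := by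
  rcases a with ⟨v, b⟩
  unfold lt stN
  by_cases h1 : v < cK c
  · rw [dif_pos h1, if_pos h1]
    cases b
    · rw [if_neg (by simp)]
      exact rho_inv h hρ i ⟨v, h1⟩
    · rw [if_pos rfl]
      exact hρ i ⟨v, h1⟩
  · rw [dif_neg h1, if_neg h1, rm_one]

theorem run_eq {c : Cd} (h : ValN c) {ρ : RA (gr c) →* Equiv.Perm (Fin (cM c))} (hρ : IsRho c ρ)
    (i : Fin (cM c)) (l : Wd) : ((rm ρ i (wv c l) : Fin (cM c)) : ℕ) = runN c i l := by
  induction l generalizing i with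
  | nil =>
    rw [wv_nil, rm_one]
    rfl
  | cons a l ih =>
    rw [c01_cons, rm_mul, ih, c01_step h hρ]
    rfl

end RaagIso
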