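import Pool.Agent.Lib.MP_32d917_al_raag.C01

/-!
# C02: the presentation `RP c`

The group of `RP c` (a `PresentedGroup` over `FreeGroup ℕ`, the generators `≥ cK c` are killed, see `Pres.rels` in `MP_32d917_al/Defs.lean`) is isomorphic to `RA (gr c)`:
forward: `PresentedGroup.toGroup` with generator `i ↦ lt c (i, true)` (relators: `cmW v w` for `AdN c v w`: `gen_comm`);
backward: `ra_lift` with `v ↦ PresentedGroup.of v` (the commutator relators are in `(RP c).rels`). Show `e (mk (FreeGroup.mk l)) = wv c l` by induction on `l` (see `pres2_lift` in `PRES2.lean` for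
the shape of such a proof).
-/

set_option autoImplicit false

namespace RaagIso

open LatIso AdmIso

theorem c02_lt (c : Cd) (a : ℕ × Bool) : lt c a = cond a.2 (lt c (a.1, true)) (lt c (a.1, true))⁻¹ := by
  obtain ⟨i, b⟩ := a
  unfold lt
  by_cases h : i < cK c
  · cases b
    · simp [h, gl]
    · simp [h, gl]
  · cases b
    · simp [h]
    · simp [h]

theorem c02_lift (c : Cd) (l : Wd) :
    FreeGroup.lift (fun i => lt c (i, true)) (FreeGroup.mk l) = wv c l := by
  rw [FreeGroup.lift_mk]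
  unfold wv
  congr 1
  apply List.map_congr_left
  intro a _
  exact (c02_lt c a).symm

theorem c02_gen (c : Cd) (v : Fin (cK c)) : lt c ((v : ℕ), true) = gen v := by
  unfold lt
  rw [dif_pos v.2]
  rfl

theorem c02_mem (c : Cd) (r : Wd) : r ∈ (RP c).2 ↔ ∃ v w : Fin (cK c), (gr c).Adj v w ∧ r = cmW v w := by
  unfold RP
  simp only [List.mem_flatMap, List.mem_range]
  constructor
  · rintro ⟨v, hv, w, hw, h⟩
    by_cases h1 : AdN c v w
    · rw [if_pos h1, List.mem_singleton] at h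
      exact ⟨⟨v, hv⟩, ⟨w, hw⟩, (gr_adj c _ _).2 h1, h⟩
    · rw [if_neg h1] at h
      exact absurd h List.not_mem_nil
  · rintro ⟨v, w, h1, h2⟩
    have h3 : AdN c v w := (gr_adj c _ _).1 h1
    refine ⟨v, v.2, w, w.2, ?_⟩
    rw [if_pos h3, List.mem_singleton]
    exact h2

theorem c02_cm {G : Type} [Group G] (F : FreeGroup ℕ →* G) (i j : ℕ) :
    F (FreeGroup.mk (cmW i j)) = F (FreeGroup.of i) * F (FreeGroup.of j) * (F (FreeGroup.of i))⁻¹ *
      (F (FreeGroup.of j))⁻¹ := by
  have h : FreeGroup.mk (cmW i j) = FreeGroup.of i * FreeGroup.of j * (FreeGroup.of i)⁻¹ *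
      (FreeGroup.of j)⁻¹ := by
    unfold FreeGroup.of cmW
    rw [FreeGroup.inv_mk, FreeGroup.inv_mk, FreeGroup.mul_mk, FreeGroup.mul_mk, FreeGroup.mul_mk]
    rfl
  rw [h]
  simp only [map_mul, map_inv]

theorem c02_rel (c : Cd) (r : FreeGroup ℕ) (hr : r ∈ (RP c).rels) :
    FreeGroup.lift (fun i => lt c (i, true)) r = 1 := by
  rcases hr with ⟨w, hw, rfl⟩ | ⟨i, hi, rfl⟩
  · obtain ⟨v, u, h1, rfl⟩ := (c02_mem c w).1 hw
    rw [c02_cm, FreeGroup.lift_apply_of, FreeGroup.lift_apply_of, c02_gen, c02_gen, gen_comm h1]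
    group
  · rw [FreeGroup.lift_apply_of]
    unfold lt
    have hi' : ¬ i < cK c := not_lt.2 hi
    rw [dif_neg hi']

theorem rp_iso (c : Cd) : ∃ e : (RP c).Grp ≃* RA (gr c),
    ∀ l : Wd, e (PresentedGroup.mk (RP c).rels (FreeGroup.mk l)) = wv c l := by
  obtain ⟨G, hG⟩ := ra_lift (Γ := gr c) (fun v : Fin (cK c) => (PresentedGroup.of (v : ℕ) : (RP c).Grp)) (by
    intro v w h
    have h1 : (PresentedGroup.mk (RP c).rels (FreeGroup.mk (cmW v w)) : (RP c).Grp) = 1 :=
      PresentedGroup.one_of_mem (Or.inl ⟨_, (c02_mem c _).2 ⟨v, w, h, rfl⟩, rfl⟩)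
    rw [c02_cm, mul_inv_eq_one, mul_inv_eq_iff_eq_mul] at h1
    exact h1)
  let F : (RP c).Grp →* RA (gr c) := PresentedGroup.toGroup (c02_rel c)
  have hF : ∀ i : ℕ, F (PresentedGroup.of i) = lt c (i, true) := fun i => PresentedGroup.toGroup.of _
  have e1 : G.comp F = MonoidHom.id _ := by
    apply PresentedGroup.ext
    intro i
    rw [MonoidHom.comp_apply, hF, MonoidHom.id_apply]
    by_cases hi : i < cK c
    · have h1 := c02_gen c ⟨i, hi⟩
      simp only at h1
      rw [h1, hG]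
    · rw [pres2_one_of_ge i (not_lt.1 hi)]
      unfold lt
      rw [dif_neg hi, map_one]
  have e2 : F.comp G = MonoidHom.id _ := by
    apply ra_ext
    intro v
    rw [MonoidHom.comp_apply, hG, hF, c02_gen, MonoidHom.id_apply]
  refine ⟨MonoidHom.toMulEquiv F G e1 e2, fun l => ?_⟩
  rw [← c02_lift]
  rfl

theorem triv_rp (c : Cd) (l : Wd) : TrivW (RP c) l ↔ wv c l = 1 := by
  obtain ⟨e, he⟩ := rp_iso c
  unfold TrivW
  rw [← he l]
  exact (EmbeddingLike.map_eq_one_iff (f := e)).symm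

end RaagIso
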