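import Pool.Agent.Lib.MP_32d917_al_raag.CDefs

/-!
# C03: primitive recursiveness of the functions of codes

Closure lemmas: `CB.p_fst`, `CB.p_snd`, `CB.p_add`, `CB.p_mul`, `CB.p_dg`, `CB.pp_and`, `CB.pp_all`, `CB.pp_eq` ... in `MP_32d917_al/CODEB.lean`; see also `C05.lean`, `C06.lean` and `C10.lean` in
`MP_32d917_al_adm` for complete examples (`valN_p`, `C06_pL`, `p_sysN`). `runN` and `liftN`: `Primrec.list_foldl`. `RP`: `Primrec.list_flatMap`, `Primrec.ite`.
-/

set_option autoImplicit false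
set_option synthInstance.maxSize 2000

namespace RaagIso

open LatIso AdmIso

section

variable {β : Type} [Primcodable β] {f : β → Cd} {g h : β → ℕ}

theorem c03_getD {γ : Type} [Primcodable γ] (d : γ) {l : β → List γ} (hl : Primrec l)
    (hg : Primrec g) : Primrec fun x => (l x).getD (g x) d := by
  have h1 : Primrec (fun x => (l x)[g x]?) := Primrec.list_getElem?.comp hl hg
  refine (Primrec.option_getD.comp h1 (Primrec.const d)).of_eq ?_
  intro x
  rw [List.getD_eq_getElem?_getD]

theorem p_cK (hf : Primrec f) : Primrec fun x => cK (f x) :=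
  CB.p_add (CB.p_fst (CB.p_fst hf)) (Primrec.const 1)

theorem p_cM (hf : Primrec f) : Primrec fun x => cM (f x) :=
  CB.p_add (CB.p_snd (CB.p_fst hf)) (Primrec.const 1)

theorem pp_AdN (hf : Primrec f) (hg : Primrec g) (hh : Primrec h) :
    PrimrecPred fun x => AdN (f x) (g x) (h x) := by
  unfold AdN
  refine CB.pp_and (CB.pp_not (CB.pp_eq hg hh)) (CB.pp_or ?_ ?_)
  · exact CB.pp_eq (CB.p_dg (Primrec.const 1) (CB.p_fst (CB.p_snd hf))
      (CB.p_add (CB.p_mul hg (p_cK hf)) hh)) (Primrec.const 1)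
  · exact CB.pp_eq (CB.p_dg (Primrec.const 1) (CB.p_fst (CB.p_snd hf))
      (CB.p_add (CB.p_mul hh (p_cK hf)) hg)) (Primrec.const 1)

theorem pp_StN (hf : Primrec f) (hg : Primrec g) (hh : Primrec h) :
    PrimrecPred fun x => StN (f x) (g x) (h x) := by
  unfold StN
  exact CB.pp_or (CB.pp_eq hh hg) (pp_AdN hf hg hh)

theorem p_rmN (hf : Primrec f) (hg : Primrec g) (hh : Primrec h) :
    Primrec fun x => rmN (f x) (g x) (h x) := by
  unfold rmN
  exact CB.p_dg (CB.p_snd (CB.p_fst hf)) (CB.p_fst (CB.p_snd (CB.p_snd hf)))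
    (CB.p_add (CB.p_mul hg (p_cK hf)) hh)

theorem p_riN (hf : Primrec f) (hg : Primrec g) (hh : Primrec h) :
    Primrec fun x => riN (f x) (g x) (h x) := by
  unfold riN
  exact CB.p_dg (CB.p_snd (CB.p_fst hf)) (CB.p_snd (CB.p_snd (CB.p_snd hf)))
    (CB.p_add (CB.p_mul hg (p_cK hf)) hh)

theorem valN_p : PrimrecPred ValN := by
  unfold ValN
  (repeat' (with_reducible first | assumption | exact CB.p_id | exact Primrec.const _ | exact CB.pp_const _ | apply p_rmN | apply p_riN | apply pp_AdN | apply pp_StN | apply p_cK | apply p_cM | apply CB.p_dg | apply CB.p_fst | apply CB.p_snd | apply CB.p_pair | apply CB.p_add | apply CB.p_sub | apply CB.p_mul | apply CB.p_mod | apply CB.p_pow | apply CB.pp_all | apply CB.pp_ex | apply CB.pp_all_mem | apply CB.pp_ex_mem | apply CB.pp_and | apply CB.pp_or | apply CB.pp_not | apply CB.pp_iff | apply CB.pp_imp | apply CB.pp_eq | apply CB.pp_lt | apply CB.pp_le))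

theorem c03_cons {l : β → Wd} (b : Bool) (hg : Primrec g) (hl : Primrec l) :
    Primrec fun x => ((g x, b) :: l x : Wd) :=
  Primrec.list_cons.comp (CB.p_pair hg (Primrec.const b)) hl

theorem c03_cmW (hg : Primrec g) (hh : Primrec h) : Primrec fun x => cmW (g x) (h x) := by
  unfold cmW
  exact c03_cons true hg (c03_cons true hh (c03_cons false hg (c03_cons false hh
    (Primrec.const []))))

theorem p_RP (hf : Primrec f) : Primrec fun x => RP (f x) := by
  unfold RP
  refine CB.p_pair (p_cK hf) ?_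
  refine Primrec.list_flatMap (f := fun x => List.range (cK (f x)))
    (Primrec.list_range.comp (p_cK hf)) ?_
  show Primrec fun y : β × ℕ => (List.range (cK (f y.1))).flatMap fun w =>
    if AdN (f y.1) y.2 w then [cmW y.2 w] else []
  refine Primrec.list_flatMap (f := fun y : β × ℕ => List.range (cK (f y.1)))
    (Primrec.list_range.comp (p_cK (hf.comp Primrec.fst))) ?_
  show Primrec fun y : (β × ℕ) × ℕ =>
    if AdN (f y.1.1) y.1.2 y.2 then [cmW y.1.2 y.2] else []
  have h1 : Primrec fun y : (β × ℕ) × ℕ => y.1.2 := Primrec.snd.comp Primrec.fst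
  refine Primrec.ite (pp_AdN (hf.comp (Primrec.fst.comp Primrec.fst)) h1 Primrec.snd) ?_
    (Primrec.const [])
  exact Primrec.list_cons.comp (c03_cmW h1 Primrec.snd) (Primrec.const [])

theorem c03_stN {a : β → ℕ × Bool} (hf : Primrec f) (hg : Primrec g) (ha : Primrec a) :
    Primrec fun x => stN (f x) (g x) (a x) := by
  unfold stN
  have h1 : Primrec fun x => (a x).1 := CB.p_fst ha
  have h2 : Primrec fun x => (a x).2 := CB.p_snd ha
  exact Primrec.ite (CB.pp_lt h1 (p_cK hf))
    (Primrec.ite (CB.pp_eq h2 (Primrec.const true)) (p_rmN hf hg h1) (p_riN hf hg h1)) hg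

theorem p_runN {l : β → Wd} (hf : Primrec f) (hg : Primrec g) (hl : Primrec l) :
    Primrec fun x => runN (f x) (g x) (l x) := by
  unfold runN
  refine Primrec.list_foldl (f := l) (g := g) (h := fun x (y : ℕ × (ℕ × Bool)) =>
    stN (f x) y.1 y.2) hl hg ?_
  exact c03_stN (hf.comp Primrec.fst) (Primrec.fst.comp Primrec.snd)
    (Primrec.snd.comp Primrec.snd)

theorem p_xg {y : β → List Wd} (hf : Primrec f) (hy : Primrec y) (hg : Primrec g)
    (hh : Primrec h) : Primrec fun x => xg (f x) (y x) (g x) (h x) := by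
  unfold xg
  exact c03_getD [] hy (CB.p_add (CB.p_mul hg (p_cK hf)) hh)

theorem c03_xN {y : β → List Wd} {a : β → ℕ × Bool} (hf : Primrec f) (hy : Primrec y)
    (hg : Primrec g) (ha : Primrec a) : Primrec fun x => xN (f x) (y x) (g x) (a x) := by
  unfold xN
  have h1 : Primrec fun x => (a x).1 := CB.p_fst ha
  have h2 : Primrec fun x => (a x).2 := CB.p_snd ha
  exact Primrec.ite (CB.pp_lt h1 (p_cK hf))
    (Primrec.ite (CB.pp_eq h2 (Primrec.const true)) (p_xg hf hy hg h1)
      (pres1_invRev_p (p_xg hf hy (p_riN hf hg h1) h1))) (Primrec.const [])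

theorem p_liftN {y : β → List Wd} {l : β → Wd} (hf : Primrec f) (hy : Primrec y)
    (hg : Primrec g) (hl : Primrec l) :
    Primrec fun x => liftN (f x) (y x) (g x) (l x) := by
  unfold liftN
  refine CB.p_snd ?_
  refine Primrec.list_foldl (f := l) (g := fun x => (g x, ([] : Wd)))
    (h := fun x (z : (ℕ × Wd) × (ℕ × Bool)) => lfN (f x) (y x) z.1 z.2) hl
    (CB.p_pair hg (Primrec.const [])) ?_
  show Primrec fun x : β × ((ℕ × Wd) × (ℕ × Bool)) => lfN (f x.1) (y x.1) x.2.1 x.2.2
  unfold lfN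
  have h1 : Primrec fun x : β × ((ℕ × Wd) × (ℕ × Bool)) => x.2.1.1 :=
    CB.p_fst (CB.p_fst Primrec.snd)
  have h2 : Primrec fun x : β × ((ℕ × Wd) × (ℕ × Bool)) => x.2.1.2 :=
    CB.p_snd (CB.p_fst Primrec.snd)
  have h3 : Primrec fun x : β × ((ℕ × Wd) × (ℕ × Bool)) => x.2.2 := CB.p_snd Primrec.snd
  have h4 : Primrec fun x : β × ((ℕ × Wd) × (ℕ × Bool)) => f x.1 := hf.comp Primrec.fst
  exact CB.p_pair (c03_stN h4 h1 h3)
    (Primrec.list_append.comp h2 (c03_xN h4 (hy.comp Primrec.fst) h1 h3))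

end

end RaagIso
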