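import Pool.Agent.Lib.MP_32d917_al_raag.C02
import Pool.Agent.Lib.MP_32d917_al_raag.B01

/-!
# C05: soundness and completeness of certificates

`lift_eq`: let `x` be a list of words and `κ` a cocycle (values in `P.Grp`) with `κ i (gen v) = mk (xg c x i v)`. Then `κ i (wv c l) = mk (liftN c x i l)`: induction on `l` for all `i` (`foldl` with an accumulator:
`(l.foldl (lfN c x) (i, s)).2 = s ++ liftN c x i l`, and first component `runN c i l`). For inverse letters: `κ i (gen v)⁻¹ = (κ (rm ρ i (gen v)⁻¹) (gen v))⁻¹` and `rho_inv`.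

`cert_sound`: transitivity: the paths `p`. By the second condition there is a homomorphism `W : P.Grp →* RA (gr c)` with `W (mk l) = wv c (sbw w l)` (use `pres2_lift` and `rp_iso`, or `PresentedGroup.toGroup`; generators `≥ P.1` are
mapped to `1` since `w.length ≤ P.1`). By the third condition `x i v = mk (xg c x i v)` is a cocycle (`Coc`), `κ` from `exists_cc`. Fourth condition: `W (of j) ∈ stb ρ 0` and `κ 0 (W (of j)) = of j` (`lift_eq`, `run_eq`); so `W` maps to
`stb ρ 0` (subgroup, closure of the generators), and `κ 0 (W y) = y` for all `y` (`κ 0` is multiplicative on `stb ρ 0`), so `W` is injective. Last condition: `W (κ i (gen v)) = q i * gen v * (q (rm ρ i (gen v)))⁻¹` with `q i = wv c (p i)`, so by `cc_ext`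
(both sides are cocycles with values in `RA (gr c)`) `W (κ i g) = q i * g * (q (rm ρ i g))⁻¹` for all `g`; for `g ∈ stb ρ 0`, `i = 0`, `q 0 = 1`: `W (κ 0 g) = g`. So `W` is onto `stb ρ 0`.

`cert_complete`: let `e : P.Grp ≃* stb ρ 0`. Choose words: `p i` with `rm ρ 0 (wv c (p i)) = i`, `p 0 = []` (`wv_surj`, `Trn`); `w j` with `wv c (w j) = e (of j)`; `x i v` with `mk (x i v) = e.symm (q i * gen v * (q (rm ρ i (gen v)))⁻¹)`
(this element is in `stb ρ 0`). Lists: `(List.range n).map`. All conditions are equations between elements: `κ i g = e.symm (q i * g * (q (rm ρ i g))⁻¹)` is the cocycle.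
-/

set_option autoImplicit false

namespace RaagIso

open LatIso AdmIso

/-- value of a word in a presented group -/
def c05_mw (P : Pres) (l : Wd) : P.Grp := PresentedGroup.mk P.rels (FreeGroup.mk l)

theorem c05_append (P : Pres) (l l' : Wd) : c05_mw P (l ++ l') = c05_mw P l * c05_mw P l' := by
  unfold c05_mw
  rw [← FreeGroup.mul_mk, map_mul]

theorem c05_inv (P : Pres) (l : Wd) : c05_mw P (FreeGroup.invRev l) = (c05_mw P l)⁻¹ := by
  unfold c05_mw
  rw [← FreeGroup.inv_mk, map_inv]

theorem c05_nil (P : Pres) : c05_mw P [] = 1 := by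
  unfold c05_mw
  exact map_one _

theorem c05_of (P : Pres) (j : ℕ) : c05_mw P [(j, true)] = PresentedGroup.of j := rfl

theorem c05_of' (P : Pres) (j : ℕ) : c05_mw P [(j, false)] = (PresentedGroup.of j)⁻¹ := by
  rw [← c05_of, ← c05_inv]
  rfl

theorem c05_fold (c : Cd) (x : List Wd) (l : Wd) : ∀ (i : ℕ) (s : Wd),
    l.foldl (lfN c x) (i, s) = (runN c i l, s ++ liftN c x i l) := by
  induction l with
  | nil =>
    intro i s
    show (i, s) = (i, s ++ [])
    rw [List.append_nil]
  | cons a l ih =>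
    intro i s
    have h1 : liftN c x i (a :: l) = xN c x i a ++ liftN c x (stN c i a) l := by
      show ((l.foldl (lfN c x) (stN c i a, [] ++ xN c x i a))).2 = _
      rw [ih]
      rfl
    have h2 : runN c i (a :: l) = runN c (stN c i a) l := rfl
    rw [List.foldl_cons, h1, h2]
    show l.foldl (lfN c x) (stN c i a, s ++ xN c x i a) = _
    rw [ih, List.append_assoc]

theorem c05_cons (c : Cd) (x : List Wd) (i : ℕ) (a : ℕ × Bool) (l : Wd) :
    liftN c x i (a :: l) = xN c x i a ++ liftN c x (stN c i a) l := by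
  show ((l.foldl (lfN c x) (stN c i a, [] ++ xN c x i a))).2 = _
  rw [c05_fold]
  rfl

theorem c05_rm_inv {V C : Type} {Γ : SimpleGraph V} (ρ : RA Γ →* Equiv.Perm C) (c : C) (g : RA Γ) :
    rm ρ (rm ρ c g⁻¹) g = c := by
  rw [← rm_mul, inv_mul_cancel, rm_one]

theorem c05_rm_inv' {V C : Type} {Γ : SimpleGraph V} (ρ : RA Γ →* Equiv.Perm C) (c : C) (g : RA Γ) :
    rm ρ (rm ρ c g) g⁻¹ = c := by
  rw [← rm_mul, mul_inv_cancel, rm_one]

theorem c05_cc_inv {V C K : Type} {Γ : SimpleGraph V} [Group K] {ρ : RA Γ →* Equiv.Perm C}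
    {κ : C → RA Γ → K} (h : ∀ c g h, κ c (g * h) = κ c g * κ (rm ρ c g) h) (c : C) (g : RA Γ) :
    κ c g⁻¹ = (κ (rm ρ c g⁻¹) g)⁻¹ := by
  have h1 := h (rm ρ c g⁻¹) g g⁻¹
  rw [mul_inv_cancel, cc_one h, c05_rm_inv] at h1
  exact eq_inv_of_mul_eq_one_right h1.symm

theorem c05_wv_cons (c : Cd) (a : ℕ × Bool) (l : Wd) : wv c (a :: l) = lt c a * wv c l := by
  unfold wv
  rw [List.map_cons, List.prod_cons]

theorem lift_eq {c : Cd} (h : ValN c) {ρ : RA (gr c) →* Equiv.Perm (Fin (cM c))} (hρ : IsRho c ρ)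
    {P : Pres} (x : List Wd) {κ : Fin (cM c) → RA (gr c) → P.Grp}
    (h1 : ∀ (i : Fin (cM c)) (v : Fin (cK c)),
      κ i (gen v) = PresentedGroup.mk P.rels (FreeGroup.mk (xg c x i v)))
    (h2 : ∀ i g g', κ i (g * g') = κ i g * κ (rm ρ i g) g') (i : Fin (cM c)) (l : Wd) :
    κ i (wv c l) = PresentedGroup.mk P.rels (FreeGroup.mk (liftN c x i l)) := by
  have key : ∀ (l : Wd) (i : Fin (cM c)), κ i (wv c l) = c05_mw P (liftN c x i l) := by
    intro l
    induction l with
    | nil =>
      intro i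
      rw [wv_nil, cc_one h2]
      exact (c05_nil P).symm
    | cons a l ih =>
      intro i
      have h3 : κ i (lt c a) = c05_mw P (xN c x i a) ∧ ((rm ρ i (lt c a) : Fin (cM c)) : ℕ) = stN c i a := by
        obtain ⟨v, b⟩ := a
        by_cases hv : v < cK c
        · cases b
          · have e1 : lt c (v, false) = (gen (⟨v, hv⟩ : Fin (cK c)))⁻¹ := by
              unfold lt
              rw [dif_pos hv]
              rfl
            have e2 : stN c i (v, false) = riN c i v := by
              unfold stN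
              rw [if_pos hv]
              rfl
            have e3 : xN c x i (v, false) = FreeGroup.invRev (xg c x (riN c i v) v) := by
              unfold xN
              rw [if_pos hv]
              rfl
            have e4 := rho_inv h hρ i ⟨v, hv⟩
            refine ⟨?_, ?_⟩
            · rw [e1, c05_cc_inv h2, h1, e4, e3, c05_inv]
              rfl
            · rw [e1, e2, e4]
          · have e1 : lt c (v, true) = gen (⟨v, hv⟩ : Fin (cK c)) := by
              unfold lt
              rw [dif_pos hv]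
              rfl
            have e2 : stN c i (v, true) = rmN c i v := by
              unfold stN
              rw [if_pos hv]
              rfl
            have e3 : xN c x i (v, true) = xg c x i v := by
              unfold xN
              rw [if_pos hv]
              rfl
            refine ⟨?_, ?_⟩
            · rw [e1, h1, e3]
              rfl
            · rw [e1, e2]
              exact hρ i ⟨v, hv⟩
        · have e1 : lt c (v, b) = 1 := by
            unfold lt
            rw [dif_neg hv]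
          have e2 : stN c i (v, b) = i := by
            unfold stN
            rw [if_neg hv]
          have e3 : xN c x i (v, b) = [] := by
            unfold xN
            rw [if_neg hv]
          refine ⟨?_, ?_⟩
          · rw [e1, e3, cc_one h2]
            exact (c05_nil P).symm
          · rw [e1, e2, rm_one]
      rw [c05_wv_cons, h2, ih, h3.1, h3.2, c05_cons, c05_append]
  exact key l i

theorem c05_sb1 (w : List Wd) (j : ℕ) : sbw w [(j, true)] = w.getD j [] := by
  unfold sbw sbl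
  simp

theorem cert_sound {c : Cd} (h : ValN c) {ρ : RA (gr c) →* Equiv.Perm (Fin (cM c))}
    (hρ : IsRho c ρ) {P : Pres} {z : List Wd × List Wd × List Wd} (hz : Cert c P z) :
    Trn ρ ∧ Nonempty (P.Grp ≃* stb ρ 0) := by
  obtain ⟨w, x, p⟩ := z
  obtain ⟨z1, z2, z3, z4, z5, z6, z7⟩ := hz
  simp only at z1 z2 z3 z4 z5 z6 z7
  obtain ⟨q, hq⟩ : ∃ q : Fin (cM c) → RA (gr c), q = fun i : Fin (cM c) => wv c (p.getD (i : ℕ) []) :=
    ⟨_, rfl⟩
  have hq0 : ∀ i, rm ρ 0 (q i) = i := by
    intro i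
    apply Fin.ext
    rw [hq]
    show ((rm ρ 0 (wv c (p.getD i [])) : Fin (cM c)) : ℕ) = i
    rw [run_eq h hρ]
    exact z6 i i.2
  have hq1 : q 0 = 1 := by
    rw [hq]
    show wv c (p.getD ((0 : Fin (cM c)) : ℕ) []) = 1
    have : ((0 : Fin (cM c)) : ℕ) = 0 := rfl
    rw [this, z5, wv_nil]
  refine ⟨?_, ?_⟩
  · intro i j
    refine ⟨(q i)⁻¹ * q j, ?_⟩
    rw [rm_mul]
    have h1 : rm ρ i (q i)⁻¹ = 0 := by
      have h2 := c05_rm_inv' ρ 0 (q i)
      rw [hq0] at h2
      exact h2
    rw [h1, hq0]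
  · obtain ⟨e, he⟩ := rp_iso c
    have hrel : ∀ r ∈ P.rels, FreeGroup.lift
        (fun i => (PresentedGroup.mk (RP c).rels (FreeGroup.mk (w.getD i [])) : (RP c).Grp)) r = 1 := by
      intro r hr
      rcases hr with ⟨w', hw', rfl⟩ | ⟨i, hi, rfl⟩
      · rw [pres2_lift]
        exact z2 w' hw'
      · rw [FreeGroup.lift_apply_of]
        rw [List.getD_eq_default _ _ (le_trans z1 hi)]
        exact map_one _
    obtain ⟨W, hW⟩ : ∃ W : P.Grp →* RA (gr c), ∀ l, W (c05_mw P l) = wv c (sbw w l) := by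
      refine ⟨e.toMonoidHom.comp (PresentedGroup.toGroup hrel), fun l => ?_⟩
      rw [← he, ← pres2_lift]
      rfl
    have hcoc : Coc ρ (fun (i : Fin (cM c)) (v : Fin (cK c)) => c05_mw P (xg c x i v)) := by
      intro i u v huv
      have h1 := z3 i i.2 u u.2 v v.2 ((gr_adj c u v).1 huv)
      have h2 : c05_mw P (xg c x i u ++ xg c x (rmN c i u) v ++
        FreeGroup.invRev (xg c x i v ++ xg c x (rmN c i v) u)) = 1 := h1
      rw [c05_append, c05_append, c05_inv, c05_append, mul_inv_eq_one] at h2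
      show c05_mw P (xg c x i u) * c05_mw P (xg c x (rm ρ i (gen u) : Fin (cM c)) v) =
        c05_mw P (xg c x i v) * c05_mw P (xg c x (rm ρ i (gen v) : Fin (cM c)) u)
      rw [hρ i u, hρ i v]
      exact h2
    obtain ⟨κ, hκ1, hκ2⟩ := exists_cc hcoc
    have hlift : ∀ i l, κ i (wv c l) = c05_mw P (liftN c x i l) :=
      fun i l => lift_eq h hρ x (fun i v => hκ1 i v) hκ2 i l
    have hof : ∀ j : ℕ, rm ρ 0 (W (PresentedGroup.of j)) = 0 ∧
        κ 0 (W (PresentedGroup.of j)) = PresentedGroup.of j := by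
      intro j
      by_cases hj : j < P.1
      · obtain ⟨a1, a2⟩ := z4 j hj
        have h1 : W (PresentedGroup.of j) = wv c (w.getD j []) := by
          rw [← c05_of, hW, c05_sb1]
        have h2 : c05_mw P (liftN c x 0 (w.getD j []) ++ [(j, false)]) = 1 := a2
        rw [c05_append, c05_of', mul_inv_eq_one] at h2
        refine ⟨?_, ?_⟩
        · apply Fin.ext
          rw [h1, run_eq h hρ]
          exact a1
        · rw [h1, hlift]
          exact h2
      · rw [pres2_one_of_ge j (not_lt.1 hj), map_one, rm_one]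
        exact ⟨rfl, cc_one hκ2 0⟩
    have hall : ∀ y : P.Grp, rm ρ 0 (W y) = 0 ∧ κ 0 (W y) = y := by
      intro y
      have hy : y ∈ Subgroup.closure (Set.range (PresentedGroup.of : ℕ → P.Grp)) := by
        rw [PresentedGroup.closure_range_of]; trivial
      induction hy using Subgroup.closure_induction with
      | mem y hy =>
        obtain ⟨j, rfl⟩ := hy
        exact hof j
      | one => rw [map_one, rm_one]; exact ⟨rfl, cc_one hκ2 0⟩
      | mul a b _ _ ha hb =>
        rw [map_mul, rm_mul, ha.1, hκ2, ha.1, ha.2, hb.2]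
        exact ⟨hb.1, rfl⟩
      | inv a _ ha =>
        have h1 : rm ρ 0 (W a)⁻¹ = 0 := by
          have h2 := c05_rm_inv' ρ 0 (W a)
          rw [ha.1] at h2
          exact h2
        rw [map_inv, c05_cc_inv hκ2, h1, ha.2]
        exact ⟨rfl, rfl⟩
    have hWκ : ∀ i g, W (κ i g) = q i * g * (q (rm ρ i g))⁻¹ := by
      refine cc_ext (ρ := ρ) (κ := fun i g => W (κ i g)) (κ' := fun i g => q i * g * (q (rm ρ i g))⁻¹)
        ?_ ?_ ?_
      · intro i g g'
        show W (κ i (g * g')) = W (κ i g) * W (κ (rm ρ i g) g')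
        rw [hκ2, map_mul]
      · intro i g g'
        show q i * (g * g') * (q (rm ρ i (g * g')))⁻¹ =
          q i * g * (q (rm ρ i g))⁻¹ * (q (rm ρ i g) * g' * (q (rm ρ (rm ρ i g) g'))⁻¹)
        rw [rm_mul]
        group
      · intro i v
        show W (κ i (gen v)) = q i * gen v * (q (rm ρ i (gen v)))⁻¹
        rw [hκ1]
        show W (c05_mw P (xg c x i v)) = _
        rw [hW]
        have h1 := (triv_rp c _).1 (z7 i i.2 v v.2)
        rw [wv_append, wv_inv, mul_inv_eq_one, wv_append, wv_append, wv_inv] at h1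
        rw [h1, hq]
        show wv c (p.getD i []) * wv c [((v : ℕ), true)] * (wv c (p.getD (rmN c i v) []))⁻¹ =
          wv c (p.getD i []) * gen v * (wv c (p.getD (rm ρ i (gen v) : Fin (cM c)) []))⁻¹
        rw [hρ i v, c05_wv_cons, wv_nil, mul_one, c02_gen]
    refine ⟨{
      toFun := fun y => ⟨W y, (hall y).1⟩
      invFun := fun g => κ 0 g.1
      left_inv := fun y => (hall y).2
      right_inv := ?_
      map_mul' := ?_ }⟩
    · intro g
      apply Subtype.ext
      show W (κ 0 g.1) = g.1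
      rw [hWκ, show rm ρ 0 g.1 = 0 from g.2, hq1]
      group
    · intro a b
      apply Subtype.ext
      exact map_mul W a b

theorem cert_complete {c : Cd} (h : ValN c) {ρ : RA (gr c) →* Equiv.Perm (Fin (cM c))}
    (hρ : IsRho c ρ) (ht : Trn ρ) {P : Pres} (e : P.Grp ≃* stb ρ 0) :
    ∃ z : List Wd × List Wd × List Wd, Cert c P z := by
  classical
  -- paths
  have hp' : ∀ i : Fin (cM c), ∃ l : Wd, rm ρ 0 (wv c l) = i ∧ (i = 0 → l = []) := by
    intro i
    by_cases hi : i = 0
    · refine ⟨[], ?_, fun _ => rfl⟩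
      rw [wv_nil, rm_one, hi]
    · obtain ⟨g, hg⟩ := ht 0 i
      obtain ⟨l, hl⟩ := wv_surj c g
      exact ⟨l, by rw [hl, hg], fun h => absurd h hi⟩
  choose pf hpf1 hpf2 using hp'
  obtain ⟨p, hp⟩ : ∃ p : List Wd, ∀ i : Fin (cM c), p.getD i [] = pf i := by
    refine ⟨(List.range (cM c)).map fun i => if h : i < cM c then pf ⟨i, h⟩ else [], fun i => ?_⟩
    rw [List.getD_eq_getElem _ _ (by simpa using i.2)]
    simp only [List.getElem_map, List.getElem_range]
    rw [dif_pos i.2]
  -- the words of the generators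
  have hw' : ∀ j : ℕ, ∃ l : Wd, wv c l = (e (PresentedGroup.of j) : RA (gr c)) := fun j => wv_surj c _
  choose wf hwf using hw'
  obtain ⟨w, hwl, hw⟩ : ∃ w : List Wd, w.length ≤ P.1 ∧
      ∀ j : ℕ, wv c (w.getD j []) = (e (PresentedGroup.of j) : RA (gr c)) := by
    refine ⟨(List.range P.1).map wf, by simp, fun j => ?_⟩
    by_cases hj : j < P.1
    · have h1 : ((List.range P.1).map wf).getD j [] = wf j := by
        rw [List.getD_eq_getElem _ _ (by simpa using hj)]
        simp
      rw [h1, hwf]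
    · have h1 : ((List.range P.1).map wf).getD j [] = [] := by
        rw [List.getD_eq_default _ _ (by simpa using hj)]
      rw [h1, pres2_one_of_ge j (not_lt.1 hj), map_one, wv_nil]
      rfl
  obtain ⟨e0, he0⟩ := rp_iso c
  have hsb : ∀ l : Wd, wv c (sbw w l) = (e (c05_mw P l) : RA (gr c)) := by
    intro l
    have h1 := pres2_eval (P := P) (Q := RP c)
      ((e0.symm.toMonoidHom.comp (stb ρ 0).subtype).comp e.toMonoidHom) (F := w) (by
        intro i
        apply e0.injective
        rw [he0, hw]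
        exact (e0.apply_symm_apply _).symm) l
    have h2 := congrArg e0 h1
    rw [he0] at h2
    rw [h2]
    exact e0.apply_symm_apply _
  -- the cocycle
  obtain ⟨q, hq⟩ : ∃ q : Fin (cM c) → RA (gr c), q = fun i => wv c (pf i) := ⟨_, rfl⟩
  have hq0 : ∀ i, rm ρ 0 (q i) = i := by
    intro i
    rw [hq]
    exact hpf1 i
  have hq0' : ∀ i, rm ρ i (q i)⁻¹ = 0 := by
    intro i
    have h2 := c05_rm_inv' ρ 0 (q i)
    rw [hq0] at h2
    exact h2
  have hq1 : q 0 = 1 := by
    rw [hq]
    show wv c (pf 0) = 1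
    rw [hpf2 0 rfl, wv_nil]
  have hmem : ∀ i g, q i * g * (q (rm ρ i g))⁻¹ ∈ stb ρ 0 := by
    intro i g
    rw [mem_stb, rm_mul, rm_mul, hq0, hq0']
  obtain ⟨κ, hκ⟩ : ∃ κ : Fin (cM c) → RA (gr c) → P.Grp, κ = fun i g => e.symm ⟨_, hmem i g⟩ := ⟨_, rfl⟩
  have heκ : ∀ i g, (e (κ i g) : RA (gr c)) = q i * g * (q (rm ρ i g))⁻¹ := by
    intro i g
    rw [hκ]
    show (e (e.symm ⟨_, hmem i g⟩) : RA (gr c)) = _
    rw [e.apply_symm_apply]
  have hκ2 : ∀ i g g', κ i (g * g') = κ i g * κ (rm ρ i g) g' := by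
    intro i g g'
    apply e.injective
    apply Subtype.ext
    rw [map_mul, Subgroup.coe_mul, heκ, heκ, heκ, rm_mul]
    group
  -- the words of the cocycle
  have hx' : ∀ (i : Fin (cM c)) (v : Fin (cK c)), ∃ l : Wd, c05_mw P l = κ i (gen v) :=
    fun i v => pres2_word _
  choose xf hxf using hx'
  obtain ⟨x, hx⟩ : ∃ x : List Wd, ∀ (i : Fin (cM c)) (v : Fin (cK c)), xg c x i v = xf i v := by
    refine ⟨(List.range (cM c * cK c)).map fun n => if h : n / cK c < cM c ∧ n % cK c < cK c then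
      xf ⟨n / cK c, h.1⟩ ⟨n % cK c, h.2⟩ else [], fun i v => ?_⟩
    unfold xg
    have hK : 0 < cK c := Nat.succ_pos _
    have h1 : (i : ℕ) * cK c + v < cM c * cK c := by
      have h2 : (i : ℕ) + 1 ≤ cM c := i.2
      calc (i : ℕ) * cK c + v < (i : ℕ) * cK c + cK c := by have := v.2; omega
        _ = ((i : ℕ) + 1) * cK c := by ring
        _ ≤ cM c * cK c := Nat.mul_le_mul_right _ h2
    have h2 : ((i : ℕ) * cK c + v) / cK c = i := by
      rw [mul_comm, Nat.mul_add_div hK, Nat.div_eq_of_lt v.2, add_zero]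
    have h3 : ((i : ℕ) * cK c + v) % cK c = v := by
      rw [mul_comm, Nat.mul_add_mod, Nat.mod_eq_of_lt v.2]
    rw [List.getD_eq_getElem _ _ (by simpa using h1)]
    simp only [List.getElem_map, List.getElem_range]
    rw [dif_pos ⟨by rw [h2]; exact i.2, by rw [h3]; exact v.2⟩]
    congr 1
    · exact Fin.ext h2
    · exact Fin.ext h3
  have hxm : ∀ (i : Fin (cM c)) (v : Fin (cK c)), c05_mw P (xg c x i v) = κ i (gen v) := by
    intro i v
    rw [hx, hxf]
  have hlift : ∀ i l, κ i (wv c l) = c05_mw P (liftN c x i l) :=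
    fun i l => lift_eq h hρ x (fun i v => (hxm i v).symm) hκ2 i l
  refine ⟨(w, x, p), hwl, ?_, ?_, ?_, ?_, ?_, ?_⟩
  · intro r hr
    rw [triv_rp]
    show wv c (sbw w r) = 1
    rw [hsb]
    have h1 : c05_mw P r = 1 := PresentedGroup.one_of_mem (Or.inl ⟨r, hr, rfl⟩)
    rw [h1, map_one]
    rfl
  · intro i hi u hu v hv huv
    show c05_mw P (xg c x i u ++ xg c x (rmN c i u) v ++
        FreeGroup.invRev (xg c x i v ++ xg c x (rmN c i v) u)) = 1
    rw [c05_append, c05_append, c05_inv, c05_append, mul_inv_eq_one]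
    have h1 := hxm ⟨i, hi⟩ ⟨u, hu⟩
    have h2 := hxm ⟨i, hi⟩ ⟨v, hv⟩
    have h3 := hxm (rm ρ ⟨i, hi⟩ (gen ⟨u, hu⟩)) ⟨v, hv⟩
    have h4 := hxm (rm ρ ⟨i, hi⟩ (gen ⟨v, hv⟩)) ⟨u, hu⟩
    rw [hρ] at h3 h4
    simp only at h1 h2 h3 h4
    rw [h1, h2, h3, h4, ← hκ2, ← hκ2, gen_comm ((gr_adj c _ _).2 huv)]
  · intro j _
    have h0 : rm ρ 0 (wv c (w.getD j [])) = 0 := by
      rw [hw]
      exact (e (PresentedGroup.of j)).2
    refine ⟨?_, ?_⟩
    · have h1 := run_eq h hρ 0 (w.getD j [])
      rw [h0] at h1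
      exact h1.symm
    · show c05_mw P (liftN c x 0 (w.getD j []) ++ [(j, false)]) = 1
      rw [c05_append, c05_of', mul_inv_eq_one]
      have h1 := hlift 0 (w.getD j [])
      have h2 : c05_mw P (liftN c x 0 (w.getD j [])) = κ 0 (wv c (w.getD j [])) := h1.symm
      rw [h2]
      apply e.injective
      apply Subtype.ext
      rw [heκ, h0, hq1, hw]
      group
  · have h1 := hp 0
    rw [hpf2 0 rfl] at h1
    exact h1
  · intro i hi
    have h1 := run_eq h hρ 0 (pf ⟨i, hi⟩)
    rw [hpf1] at h1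
    show runN c 0 (p.getD i []) = i
    have h2 := hp ⟨i, hi⟩
    simp only at h2
    rw [h2]
    exact h1.symm
  · intro i hi v hv
    rw [triv_rp]
    show wv c (sbw w (xg c x i v) ++ FreeGroup.invRev (p.getD i [] ++ [(v, true)] ++
      FreeGroup.invRev (p.getD (rmN c i v) []))) = 1
    rw [wv_append, wv_inv, mul_inv_eq_one, wv_append, wv_append, wv_inv, hsb]
    have h1 := hxm ⟨i, hi⟩ ⟨v, hv⟩
    have h2 := hp ⟨i, hi⟩
    have h3 := hp (rm ρ ⟨i, hi⟩ (gen ⟨v, hv⟩))
    rw [hρ] at h3
    simp only at h1 h2 h3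
    rw [h1, h2, h3, heκ, c05_wv_cons, wv_nil, mul_one, hq]
    have h4 := c02_gen c ⟨v, hv⟩
    simp only at h4
    rw [h4]

end RaagIso
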