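import Pool.Agent.Lib.MP_32d917_al_raag.C01

/-!
# C06: every subgroup of finite index is given by a code

`V` finite with at least two elements: `e : V ≃ Fin (k + 1)`, `1 ≤ k`; `H` of finite index: `e' : RA Γ ⧸ H ≃ Fin (m + 1)` which maps the coset of `1` to `0`. Adjacency number `a`: `CB.exists_pred` (index `v * (k + 1) + w`, division with remainder by `k + 1`),
`p` and `q`: `CB.exists_dg` or `CB.exists_dig` for the functions `i ↦` (coset `d` with number `i`) `↦` number of `(gen v)⁻¹ • d` and `gen v • d`.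
So `gr c` is isomorphic to `Γ` by `e`, `RA Γ ≃* RA (gr c)` (`ra_lift`, both directions), `ValN c` by translation, `ρ = ` the action of `RA (gr c) ≃* RA Γ` on the cosets transported by `e'`; `stb ρ 0` corresponds to `H`:
`rm ρ 0 x = 0` iff `x⁻¹ • (coset of 1) = coset of 1` iff `x ∈ H`. Transitive: `RA Γ` is transitive on `RA Γ ⧸ H`.
-/

set_option autoImplicit false

namespace RaagIso

open LatIso AdmIso

theorem c06_tab (k n L : ℕ) (G : ℕ → ℕ → ℕ) (hG : ∀ i j, G i j < n + 1) :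
    ∃ w, ∀ i < L, ∀ j < k + 1, CB.dg n w (i * (k + 1) + j) = G i j := by
  obtain ⟨w, -, h⟩ := CB.exists_dg n (fun t => G (t / (k + 1)) (t % (k + 1))) (fun t => hG _ _)
    (L * (k + 1))
  refine ⟨w, fun i hi j hj => ?_⟩
  have h1 : i * (k + 1) + j < L * (k + 1) := by
    calc i * (k + 1) + j < i * (k + 1) + (k + 1) := by omega
      _ = (i + 1) * (k + 1) := by ring
      _ ≤ L * (k + 1) := Nat.mul_le_mul_right _ hi
  rw [h _ h1]
  have h2 : (i * (k + 1) + j) / (k + 1) = i := by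
    rw [mul_comm, Nat.mul_add_div (Nat.succ_pos k), Nat.div_eq_of_lt hj, add_zero]
  have h3 : (i * (k + 1) + j) % (k + 1) = j := by
    rw [mul_comm, Nat.mul_add_mod, Nat.mod_eq_of_lt hj]
  simp only [h2, h3]

section

variable {V : Type} {Γ : SimpleGraph V}

theorem c06_val (hN : NoDom Γ) (hS : NoSep Γ) (H : Subgroup (RA Γ)) (c : Cd) (hc : 1 ≤ c.1.1)
    (e : V ≃ Fin (cK c)) (e' : (RA Γ ⧸ H) ≃ Fin (cM c))
    (hadj : ∀ v w : Fin (cK c), AdN c v w ↔ Γ.Adj (e.symm v) (e.symm w))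
    (hrm : ∀ (i : Fin (cM c)) (v : Fin (cK c)),
      rmN c i v = (e' ((gen (e.symm v) : RA Γ)⁻¹ • e'.symm i) : Fin (cM c)))
    (hri : ∀ (i : Fin (cM c)) (v : Fin (cK c)),
      riN c i v = (e' ((gen (e.symm v) : RA Γ) • e'.symm i) : Fin (cM c))) : ValN c := by
  have hst : ∀ v w : Fin (cK c), StN c v w ↔ e.symm w ∈ st Γ (e.symm v) := by
    intro v w
    show ((w : ℕ) = v ∨ AdN c v w) ↔ (e.symm w = e.symm v ∨ Γ.Adj (e.symm v) (e.symm w))
    rw [hadj, e.symm.injective.eq_iff, Fin.ext_iff]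
  refine ⟨hc, ?_, ?_, ?_, ?_⟩
  · intro i hi v hv
    have h1 : rmN c i v = _ := hrm ⟨i, hi⟩ ⟨v, hv⟩
    have h2 : riN c i v = _ := hri ⟨i, hi⟩ ⟨v, hv⟩
    rw [h1, h2]
    have h3 := hri (e' ((gen (e.symm ⟨v, hv⟩) : RA Γ)⁻¹ • e'.symm ⟨i, hi⟩)) ⟨v, hv⟩
    have h4 := hrm (e' ((gen (e.symm ⟨v, hv⟩) : RA Γ) • e'.symm ⟨i, hi⟩)) ⟨v, hv⟩
    rw [Equiv.symm_apply_apply, smul_inv_smul, Equiv.apply_symm_apply] at h3
    rw [Equiv.symm_apply_apply, inv_smul_smul, Equiv.apply_symm_apply] at h4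
    exact ⟨h3, h4⟩
  · intro i hi v hv w hw h
    have h0 := (hadj ⟨v, hv⟩ ⟨w, hw⟩).1 h
    have h1 : rmN c i v = _ := hrm ⟨i, hi⟩ ⟨v, hv⟩
    have h2 : rmN c i w = _ := hrm ⟨i, hi⟩ ⟨w, hw⟩
    rw [h1, h2]
    have h3 := hrm (e' ((gen (e.symm ⟨v, hv⟩) : RA Γ)⁻¹ • e'.symm ⟨i, hi⟩)) ⟨w, hw⟩
    have h4 := hrm (e' ((gen (e.symm ⟨w, hw⟩) : RA Γ)⁻¹ • e'.symm ⟨i, hi⟩)) ⟨v, hv⟩
    rw [Equiv.symm_apply_apply, smul_smul, ← mul_inv_rev] at h3 h4
    rw [gen_comm h0] at h3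
    exact h3.trans h4.symm
  · intro v hv w hw hvw
    have h1 : e.symm ⟨v, hv⟩ ≠ e.symm ⟨w, hw⟩ := by
      intro h
      exact hvw (congrArg Fin.val (e.symm.injective h))
    obtain ⟨u, hu1, hu2⟩ := hN _ _ h1
    refine ⟨e u, (e u).2, ?_, ?_⟩
    · refine (hadj ⟨v, hv⟩ (e u)).2 ?_
      rwa [Equiv.symm_apply_apply]
    · intro h
      have h2 := (hst ⟨w, hw⟩ (e u)).1 h
      rw [Equiv.symm_apply_apply] at h2
      exact hu2 h2
  · intro v hv s _ hK a ha b hb h1 h2 h3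
    have h4 := hS (e.symm ⟨v, hv⟩) {x | CB.dg 1 s (e x) = 1} ?_ (e.symm ⟨a, ha⟩) (e.symm ⟨b, hb⟩) ?_
      ?_ ?_
    · have h5 : CB.dg 1 s (e (e.symm ⟨b, hb⟩)) = 1 := h4
      rwa [Equiv.apply_symm_apply] at h5
    · intro x y hx hxv hyv hxy
      refine hK (e x) (e x).2 (e y) (e y).2 hx ?_ ?_ ?_
      · intro h
        have h6 := (hst ⟨v, hv⟩ (e x)).1 h
        rw [Equiv.symm_apply_apply] at h6
        exact hxv h6
      · intro h
        have h6 := (hst ⟨v, hv⟩ (e y)).1 h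
        rw [Equiv.symm_apply_apply] at h6
        exact hyv h6
      · refine (hadj (e x) (e y)).2 ?_
        rwa [Equiv.symm_apply_apply, Equiv.symm_apply_apply]
    · show CB.dg 1 s (e (e.symm ⟨a, ha⟩)) = 1
      rw [Equiv.apply_symm_apply]
      exact h1
    · intro h
      exact h2 ((hst ⟨v, hv⟩ ⟨a, ha⟩).2 h)
    · intro h
      exact h3 ((hst ⟨v, hv⟩ ⟨b, hb⟩).2 h)

theorem c06_core (H : Subgroup (RA Γ)) (c : Cd) (hv : ValN c)
    (e : V ≃ Fin (cK c)) (e' : (RA Γ ⧸ H) ≃ Fin (cM c))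
    (he : e' ((1 : RA Γ) : RA Γ ⧸ H) = 0)
    (hadj : ∀ v w : Fin (cK c), AdN c v w ↔ Γ.Adj (e.symm v) (e.symm w))
    (hrm : ∀ (i : Fin (cM c)) (v : Fin (cK c)),
      rmN c i v = (e' ((gen (e.symm v) : RA Γ)⁻¹ • e'.symm i) : Fin (cM c))) :
    ∃ ρ : RA (gr c) →* Equiv.Perm (Fin (cM c)), IsRho c ρ ∧ Trn ρ ∧
      Nonempty (H ≃* stb ρ 0) := by
  obtain ⟨ρ, hρ⟩ := rho_exists c hv
  obtain ⟨F, hF⟩ := ra_lift (Γ := Γ) (K := RA (gr c)) (fun v => gen (e v)) (by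
    intro v w h
    apply gen_comm
    refine (hadj (e v) (e w)).2 ?_
    rwa [Equiv.symm_apply_apply, Equiv.symm_apply_apply])
  obtain ⟨G, hG⟩ := ra_lift (Γ := gr c) (K := RA Γ) (fun v => gen (e.symm v)) (by
    intro v w h
    apply gen_comm
    exact (hadj v w).1 h)
  have e1 : G.comp F = MonoidHom.id _ := by
    apply ra_ext
    intro v
    rw [MonoidHom.comp_apply, hF, hG, Equiv.symm_apply_apply]
    rfl
  have e2 : F.comp G = MonoidHom.id _ := by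
    apply ra_ext
    intro v
    rw [MonoidHom.comp_apply, hG, hF, Equiv.apply_symm_apply]
    rfl
  let φ : RA Γ ≃* RA (gr c) := MonoidHom.toMulEquiv F G e1 e2
  have hφ : ∀ x, φ x = F x := fun x => rfl
  have key : ∀ x : RA Γ, ∀ q : RA Γ ⧸ H, rm ρ (e' q) (φ x) = e' (x⁻¹ • q) := by
    refine ra_ind (C := fun x => ∀ q : RA Γ ⧸ H, rm ρ (e' q) (φ x) = e' (x⁻¹ • q)) ?_ ?_ ?_ ?_
    · intro q
      rw [map_one, rm_one, inv_one, one_smul]
    · intro v q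
      apply Fin.ext
      rw [hφ, hF, hρ, hrm, Equiv.symm_apply_apply, Equiv.symm_apply_apply]
    · intro x y hx hy q
      rw [map_mul, rm_mul, hx, hy, smul_smul, ← mul_inv_rev]
    · intro x hx q
      have h1 := hx (x • q)
      rw [inv_smul_smul] at h1
      rw [map_inv, inv_inv, ← h1, ← rm_mul, mul_inv_cancel, rm_one]
  refine ⟨ρ, hρ, ?_, ?_⟩
  · intro i j
    obtain ⟨g, hg⟩ := MulAction.exists_smul_eq (RA Γ) (e'.symm i) (e'.symm j)
    refine ⟨φ g⁻¹, ?_⟩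
    have h1 := key g⁻¹ (e'.symm i)
    rwa [inv_inv, hg, Equiv.apply_symm_apply, Equiv.apply_symm_apply] at h1
  · have h1 : H.map (φ : RA Γ →* RA (gr c)) = stb ρ 0 := by
      ext y
      obtain ⟨x, rfl⟩ := φ.surjective y
      have hm : φ x ∈ H.map (φ : RA Γ →* RA (gr c)) ↔ x ∈ H := by
        constructor
        · rintro ⟨z, hz, hzx⟩
          have h2 : z = x := φ.injective hzx
          rwa [← h2]
        · intro hx
          exact ⟨x, hx, rfl⟩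
      rw [hm, mem_stb, ← he, key, e'.injective.eq_iff]
      rw [MulAction.Quotient.smul_coe, QuotientGroup.eq]
      simp
    exact ⟨(φ.subgroupMap H).trans (MulEquiv.subgroupCongr h1)⟩

end

theorem code_exists {V : Type} [Finite V] {Γ : SimpleGraph V} (hN : NoDom Γ) (hS : NoSep Γ)
    (h2 : ∃ a b : V, a ≠ b) (H : Subgroup (RA Γ)) (hH : H.FiniteIndex) :
    ∃ c : Cd, ValN c ∧ ∃ ρ : RA (gr c) →* Equiv.Perm (Fin (cM c)), IsRho c ρ ∧ Trn ρ ∧
      Nonempty (H ≃* stb ρ 0) := by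
  classical
  obtain ⟨n, ⟨e⟩⟩ := Finite.exists_equiv_fin V
  have hn : 2 ≤ n := by
    obtain ⟨a, b, hab⟩ := h2
    by_contra hlt
    push Not at hlt
    apply hab
    apply e.injective
    apply Fin.ext
    have h3 := (e a).2
    have h4 := (e b).2
    omega
  obtain ⟨k, rfl⟩ : ∃ k, n = k + 1 := ⟨n - 1, by omega⟩
  have hfin : Finite (RA Γ ⧸ H) := inferInstance
  obtain ⟨n', ⟨e0⟩⟩ := Finite.exists_equiv_fin (RA Γ ⧸ H)
  have hn' : 0 < n' := (Nat.zero_le _).trans_lt (e0 ((1 : RA Γ) : RA Γ ⧸ H)).2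
  obtain ⟨m, rfl⟩ : ∃ m, n' = m + 1 := ⟨n' - 1, by omega⟩
  let e' : (RA Γ ⧸ H) ≃ Fin (m + 1) := e0.trans (Equiv.swap (e0 ((1 : RA Γ) : RA Γ ⧸ H)) 0)
  have he : e' ((1 : RA Γ) : RA Γ ⧸ H) = 0 := by
    show Equiv.swap (e0 ((1 : RA Γ) : RA Γ ⧸ H)) 0 (e0 ((1 : RA Γ) : RA Γ ⧸ H)) = 0
    exact Equiv.swap_apply_left _ _
  have ek : ∀ v : Fin (k + 1), Fin.ofNat (k + 1) (v : ℕ) = v := fun v =>
    Fin.ext (Nat.mod_eq_of_lt v.2)
  have em : ∀ v : Fin (m + 1), Fin.ofNat (m + 1) (v : ℕ) = v := fun v =>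
    Fin.ext (Nat.mod_eq_of_lt v.2)
  obtain ⟨a, ha⟩ := c06_tab k 1 (k + 1)
    (fun i j => if Γ.Adj (e.symm (Fin.ofNat (k + 1) i)) (e.symm (Fin.ofNat (k + 1) j)) then 1
      else 0) (fun i j => by split_ifs <;> omega)
  obtain ⟨p, hp⟩ := c06_tab k m (m + 1)
    (fun i j => (e' ((gen (e.symm (Fin.ofNat (k + 1) j)) : RA Γ)⁻¹ •
      e'.symm (Fin.ofNat (m + 1) i)) : Fin (m + 1))) (fun i j => Fin.is_lt _)
  obtain ⟨q, hq⟩ := c06_tab k m (m + 1)
    (fun i j => (e' ((gen (e.symm (Fin.ofNat (k + 1) j)) : RA Γ) •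
      e'.symm (Fin.ofNat (m + 1) i)) : Fin (m + 1))) (fun i j => Fin.is_lt _)
  have hadj : ∀ v w : Fin (k + 1), AdN ((k, m), a, p, q) v w ↔ Γ.Adj (e.symm v) (e.symm w) := by
    intro v w
    have h3 : CB.dg 1 a ((v : ℕ) * (k + 1) + w) = _ := ha v v.2 w w.2
    have h4 : CB.dg 1 a ((w : ℕ) * (k + 1) + v) = _ := ha w w.2 v v.2
    show (¬ (v : ℕ) = w ∧ (CB.dg 1 a ((v : ℕ) * (k + 1) + w) = 1 ∨
      CB.dg 1 a ((w : ℕ) * (k + 1) + v) = 1)) ↔ _
    rw [h3, h4]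
    simp only [ek]
    constructor
    · rintro ⟨-, h | h⟩
      · by_contra hc
        rw [if_neg hc] at h
        omega
      · by_contra hc
        rw [if_neg (fun h' => hc h'.symm)] at h
        omega
    · intro h
      refine ⟨fun h' => ?_, Or.inl (if_pos h)⟩
      rw [Fin.ext h'] at h
      exact Γ.irrefl h
  have hrm : ∀ (i : Fin (m + 1)) (v : Fin (k + 1)), rmN ((k, m), a, p, q) i v =
      (e' ((gen (e.symm v) : RA Γ)⁻¹ • e'.symm i) : Fin (m + 1)) := by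
    intro i v
    have h3 : CB.dg m p ((i : ℕ) * (k + 1) + v) = _ := hp i i.2 v v.2
    simp only [ek, em] at h3
    exact h3
  have hri : ∀ (i : Fin (m + 1)) (v : Fin (k + 1)), riN ((k, m), a, p, q) i v =
      (e' ((gen (e.symm v) : RA Γ) • e'.symm i) : Fin (m + 1)) := by
    intro i v
    have h3 : CB.dg m q ((i : ℕ) * (k + 1) + v) = _ := hq i i.2 v v.2
    simp only [ek, em] at h3
    exact h3
  have hval : ValN ((k, m), a, p, q) :=
    c06_val hN hS H ((k, m), a, p, q) (show 1 ≤ k by omega) e e' hadj hrm hri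
  exact ⟨((k, m), a, p, q), hval, c06_core H ((k, m), a, p, q) hval e e' he hadj hrm⟩

end RaagIso
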