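import Pool.Agent.Lib.MP_32d917_al_raag.C01
import Pool.Agent.Lib.MP_32d917_al_raag.B05

/-!
# C07: matchings and finite data

`MM c` is the factorial of the number of points, the order of the symmetric group, so `ρ (gen v) ^ MM c = 1` (`pow_card_eq_one`, `Fintype.card_perm`).
`it_eq`: `(rm ρ i (gen v ^ l) : ℕ) = itN c i v l`.

`sol_iff`: the rows of the system are the equations `Nm.lam` and `Nm.sum`: unknown number `ix c i v = i * cK c + v` is `ep i v`; `ix` is injective for `v < cK c`, `i < cM c`, with values `< cM c * cK c`. The sum over the unknowns of a row `rowL`: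
`∑ x, (if x = ix (i w) v then M else 0 - if x = ix i v then M else 0) * ε x = M * ε (ix (i w) v) - M * ε (ix i v)` (`Finset.sum_ite_eq`), `rowS`: exchange the two sums.

`good_of_dt`: `c'.1 = c.1` since `F : Fin (cM c) ≃ Fin (cM c')` and `τ 0 : Fin (cK c) ≃ Fin (cK c')` (`Fin.equiv_iff_eq` or cardinalities). `nm_of_dt` gives `de < MM c`, `ep`, `sn`. Choose the digits by `CB.exists_dg`
(functions on `ℕ` with `i = x / cK c`, `v = x % cK c`). It may be convenient to first generalise: `obtain ⟨⟨k, m⟩, r⟩ := c`, `obtain ⟨⟨k', m'⟩, r'⟩ := c'`, and `subst` the equalities `k' = k`, `m' = m`.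
`dt_of_good`: injective maps of finite sets are bijective; `dt_of_nm`.
-/

set_option autoImplicit false

namespace RaagIso

open LatIso AdmIso

theorem rho_pow {c : Cd} (ρ : RA (gr c) →* Equiv.Perm (Fin (cM c))) (g : RA (gr c)) :
    ρ g ^ MM c = 1 := by
  have h1 : MM c = Fintype.card (Equiv.Perm (Fin (cM c))) := by
    rw [Fintype.card_perm, Fintype.card_fin]
    rfl
  rw [h1]
  exact pow_card_eq_one

theorem it_eq {c : Cd} {ρ : RA (gr c) →* Equiv.Perm (Fin (cM c))} (hρ : IsRho c ρ)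
    (i : Fin (cM c)) (v : Fin (cK c)) (l : ℕ) :
    ((rm ρ i (gen v ^ l) : Fin (cM c)) : ℕ) = itN c i v l := by
  induction l with
  | zero =>
    rw [pow_zero, rm_one]
    rfl
  | succ l ih =>
    rw [pow_succ, rm_mul, hρ, ih]
    unfold itN
    rw [Function.iterate_succ_apply']

theorem c07_it_lt {c : Cd} {i : ℕ} (hi : i < cM c) (v l : ℕ) : itN c i v l < cM c := by
  cases l with
  | zero => exact hi
  | succ l =>
    unfold itN
    rw [Function.iterate_succ_apply']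
    exact rmN_lt _ _ _

theorem c07_ix_lt {c : Cd} {i v : ℕ} (hi : i < cM c) (hv : v < cK c) :
    ix c i v < cM c * cK c := by
  unfold ix
  calc i * cK c + v < i * cK c + cK c := by omega
    _ = (i + 1) * cK c := by ring
    _ ≤ cM c * cK c := Nat.mul_le_mul_right _ hi

theorem c07_div {c : Cd} {i v : ℕ} (hv : v < cK c) : ix c i v / cK c = i := by
  unfold ix
  rw [Nat.mul_comm, Nat.mul_add_div (Nat.succ_pos _), Nat.div_eq_of_lt hv, add_zero]

theorem c07_mod {c : Cd} {i v : ℕ} (hv : v < cK c) : ix c i v % cK c = v := by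
  unfold ix
  rw [Nat.mul_comm, Nat.mul_add_mod, Nat.mod_eq_of_lt hv]

theorem c07_getD {γ : Type} (f : ℕ → γ) (d : γ) {n x : ℕ} (hx : x < n) :
    ((List.range n).map f).getD x d = f x := by
  rw [List.getD_eq_getElem _ _ (by simpa using hx)]
  simp

theorem c07_sum (f : ℕ → PI) (n : ℕ) (τ : ℕ → ℤ) :
    ∑ x ∈ Finset.range n, iv (((List.range n).map f).getD x (0, 0)) * τ x =
      ∑ x ∈ Finset.range n, iv (f x) * τ x := by
  refine Finset.sum_congr rfl (fun x hx => ?_)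
  rw [c07_getD f _ (Finset.mem_range.1 hx)]

theorem c07_one (M : ℕ) {n y : ℕ} (hy : y < n) (τ : ℕ → ℤ) :
    ∑ x ∈ Finset.range n, (((if x = y then M else 0 : ℕ) : ℤ)) * τ x = M * τ y := by
  rw [Finset.sum_eq_single y]
  · rw [if_pos rfl]
  · intro x _ hx
    rw [if_neg hx]
    simp
  · intro h
    exact absurd (Finset.mem_range.2 hy) h

/-- the equations -/
def c07E (c : Cd) (t : Mt) (ep : ℕ → ℕ → ℤ) : Prop :=
  (∀ i < cM c, ∀ v < cK c, ∀ w < cK c, AdN c v w →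
      (dN c t (rmN c i w) v : ℤ) + MM c * ep (rmN c i w) v = dN c t i v + MM c * ep i v) ∧
    ∀ i < cM c, ∀ v < cK c, ∑ l ∈ Finset.range (MM c),
      ((dN c t (itN c i v l) v : ℤ) + MM c * ep (itN c i v l) v) =
        if sN c t i v = 1 then (MM c : ℤ) else -MM c

theorem c07E_congr {c : Cd} {t : Mt} {ep ep' : ℕ → ℕ → ℤ}
    (h : ∀ i, i < cM c → ∀ v < cK c, ep i v = ep' i v) (h1 : c07E c t ep) : c07E c t ep' := by
  constructor
  · intro i hi v hv w hw hvw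
    rw [← h i hi v hv, ← h _ (rmN_lt c i w) v hv]
    exact h1.1 i hi v hv w hw hvw
  · intro i hi v hv
    rw [← h1.2 i hi v hv]
    refine Finset.sum_congr rfl (fun l _ => ?_)
    rw [h _ (c07_it_lt hi v l) v hv]

theorem c07_rowL (c : Cd) (t : Mt) (τ : ℕ → ℤ) {i v w : ℕ} (hi : i < cM c) (hv : v < cK c) :
    (∑ x ∈ Finset.range (cM c * cK c), iv ((rowL c t i v w).1.getD x (0, 0)) * τ x =
      iv (rowL c t i v w).2) ↔ (AdN c v w → (dN c t (rmN c i w) v : ℤ) +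
        MM c * τ (ix c (rmN c i w) v) = dN c t i v + MM c * τ (ix c i v)) := by
  unfold rowL
  by_cases h : AdN c v w
  · rw [if_pos h]
    try dsimp only
    rw [c07_sum]
    have h1 : ∑ x ∈ Finset.range (cM c * cK c),
        iv (if x = ix c (rmN c i w) v then MM c else 0, if x = ix c i v then MM c else 0) * τ x =
        MM c * τ (ix c (rmN c i w) v) - MM c * τ (ix c i v) := by
      rw [← c07_one (MM c) (c07_ix_lt (rmN_lt c i w) hv) τ,
        ← c07_one (MM c) (c07_ix_lt hi hv) τ, ← Finset.sum_sub_distrib]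
      refine Finset.sum_congr rfl (fun x _ => ?_)
      unfold iv
      try dsimp only
      ring
    rw [h1]
    unfold iv
    try dsimp only
    constructor
    · intro h2 _
      linarith
    · intro h2
      linarith [h2 h]
  · rw [if_neg h]
    simp [h, iv]

theorem c07_rowS (c : Cd) (t : Mt) (τ : ℕ → ℤ) {i v : ℕ} (hi : i < cM c) (hv : v < cK c) :
    (∑ x ∈ Finset.range (cM c * cK c), iv ((rowS c t i v).1.getD x (0, 0)) * τ x =
      iv (rowS c t i v).2) ↔ ∑ l ∈ Finset.range (MM c),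
      ((dN c t (itN c i v l) v : ℤ) + MM c * τ (ix c (itN c i v l) v)) =
        if sN c t i v = 1 then (MM c : ℤ) else -MM c := by
  unfold rowS
  try dsimp only
  rw [c07_sum]
  have h1 : ∑ x ∈ Finset.range (cM c * cK c),
      iv (∑ l ∈ Finset.range (MM c), (if x = ix c (itN c i v l) v then MM c else 0), 0) * τ x =
      ∑ l ∈ Finset.range (MM c), (MM c : ℤ) * τ (ix c (itN c i v l) v) := by
    have h2 : ∀ l ∈ Finset.range (MM c), (MM c : ℤ) * τ (ix c (itN c i v l) v) =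
        ∑ x ∈ Finset.range (cM c * cK c),
          (((if x = ix c (itN c i v l) v then MM c else 0 : ℕ) : ℤ)) * τ x := by
      intro l _
      exact (c07_one (MM c) (c07_ix_lt (c07_it_lt hi v l) hv) τ).symm
    rw [Finset.sum_congr rfl h2, Finset.sum_comm]
    refine Finset.sum_congr rfl (fun x _ => ?_)
    unfold iv
    try dsimp only
    rw [← Finset.sum_mul, Nat.cast_sum]
    simp
  rw [h1, Finset.sum_add_distrib]
  have h3 : (∑ l ∈ Finset.range (MM c), (dN c t (itN c i v l) v : ℤ)) =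
      ((sdN c t i v (MM c) : ℕ) : ℤ) := by
    unfold sdN
    rw [Nat.cast_sum]
  rw [h3]
  by_cases h4 : sN c t i v = 1
  · rw [if_pos h4, if_pos h4]
    unfold iv
    try dsimp only
    constructor
    · intro h5
      linarith
    · intro h5
      linarith
  · rw [if_neg h4, if_neg h4]
    unfold iv
    try dsimp only
    push_cast
    constructor
    · intro h5
      linarith
    · intro h5
      linarith

theorem c07_sys (c : Cd) (t : Mt) (τ : ℕ → ℤ) :
    (∀ r ∈ (sysN c t).2, ∑ x ∈ Finset.range (sysN c t).1, iv (r.1.getD x (0, 0)) * τ x =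
      iv r.2) ↔ c07E c t (fun i v => τ (ix c i v)) := by
  unfold sysN
  try dsimp only
  constructor
  · intro h
    constructor
    · intro i hi v hv w hw hvw
      refine (c07_rowL c t τ hi hv).1 (h _ ?_) hvw
      refine List.mem_flatMap.2 ⟨i, List.mem_range.2 hi, ?_⟩
      refine List.mem_flatMap.2 ⟨v, List.mem_range.2 hv, ?_⟩
      exact List.mem_cons_of_mem _ (List.mem_map.2 ⟨w, List.mem_range.2 hw, rfl⟩)
    · intro i hi v hv
      refine (c07_rowS c t τ hi hv).1 (h _ ?_)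
      refine List.mem_flatMap.2 ⟨i, List.mem_range.2 hi, ?_⟩
      refine List.mem_flatMap.2 ⟨v, List.mem_range.2 hv, ?_⟩
      exact List.mem_cons_self
  · intro h r hr
    obtain ⟨i, hi, hr⟩ := List.mem_flatMap.1 hr
    obtain ⟨v, hv, hr⟩ := List.mem_flatMap.1 hr
    rw [List.mem_range] at hi hv
    rcases List.mem_cons.1 hr with rfl | hr
    · exact (c07_rowS c t τ hi hv).2 (h.2 i hi v hv)
    · obtain ⟨w, hw, rfl⟩ := List.mem_map.1 hr
      rw [List.mem_range] at hw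
      exact (c07_rowL c t τ hi hv).2 (h.1 i hi v hv w hw)

theorem sol_iff (c : Cd) (t : Mt) : Sol (sysN c t) ↔ ∃ ep : ℕ → ℕ → ℤ,
    (∀ i < cM c, ∀ v < cK c, ∀ w < cK c, AdN c v w →
      (dN c t (rmN c i w) v : ℤ) + MM c * ep (rmN c i w) v = dN c t i v + MM c * ep i v) ∧
    ∀ i < cM c, ∀ v < cK c, ∑ l ∈ Finset.range (MM c),
      ((dN c t (itN c i v l) v : ℤ) + MM c * ep (itN c i v l) v) =
        if sN c t i v = 1 then (MM c : ℤ) else -MM c := by
  constructor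
  · rintro ⟨τ, hτ⟩
    exact ⟨fun i v => τ (ix c i v), (c07_sys c t τ).1 hτ⟩
  · rintro ⟨ep, hep⟩
    refine ⟨fun x => ep (x / cK c) (x % cK c), (c07_sys c t _).2 ?_⟩
    refine c07E_congr ?_ (show c07E c t ep from hep)
    intro i hi v hv
    try dsimp only
    rw [c07_div hv, c07_mod hv]

/-- tables -/
theorem c07_tab (n k m : ℕ) (G : Fin (m + 1) → Fin (k + 1) → ℕ) (hG : ∀ i v, G i v < n + 1) :
    ∃ w < (n + 1) ^ ((m + 1) * (k + 1)), ∀ (i : Fin (m + 1)) (v : Fin (k + 1)),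
      CB.dg n w (i * (k + 1) + v) = G i v := by
  obtain ⟨w, hw, h⟩ := CB.exists_dg n (fun x => if hx : x / (k + 1) < m + 1 then
    G ⟨x / (k + 1), hx⟩ ⟨x % (k + 1), Nat.mod_lt _ (Nat.succ_pos k)⟩ else 0) (by
      intro x
      try dsimp only
      split_ifs with hx
      · exact hG _ _
      · exact Nat.succ_pos n) ((m + 1) * (k + 1))
  refine ⟨w, hw, fun i v => ?_⟩
  have h1 : (i : ℕ) * (k + 1) + v < (m + 1) * (k + 1) := by
    calc (i : ℕ) * (k + 1) + v < i * (k + 1) + (k + 1) := by omega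
      _ = (i + 1) * (k + 1) := by ring
      _ ≤ (m + 1) * (k + 1) := Nat.mul_le_mul_right _ i.2
  have h2 : ((i : ℕ) * (k + 1) + v) / (k + 1) = i := by
    rw [Nat.mul_comm, Nat.mul_add_div (Nat.succ_pos _), Nat.div_eq_of_lt v.2, add_zero]
  have h3 : ((i : ℕ) * (k + 1) + v) % (k + 1) = v := by
    rw [Nat.mul_comm, Nat.mul_add_mod, Nat.mod_eq_of_lt v.2]
  rw [h _ h1]
  try dsimp only
  rw [dif_pos (by rw [h2]; exact i.2)]
  congr 1
  · congr 1
  · exact Fin.ext h3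

theorem c07_MM_pos (c : Cd) : 0 < MM c := Nat.factorial_pos _

theorem c07_MM {c c' : Cd} (hc : c'.1 = c.1) : MM c' = MM c := by
  unfold MM cM
  rw [hc]

theorem c07_mod_iff {M a b : ℕ} : (a % M = (a + b) % M) ↔ M ∣ b := by
  constructor
  · intro h
    have h1 : a + b ≡ a [MOD M] := h.symm
    have h2 : a + b ≡ a + 0 [MOD M] := h1
    exact (Nat.modEq_zero_iff_dvd).1 (Nat.ModEq.add_left_cancel' a h2)
  · rintro ⟨d, rfl⟩
    rw [Nat.add_mul_mod_self_left]

theorem c07_sdN (c : Cd) (t : Mt) (i v : ℕ) {a b : ℕ} (h : a ≤ b) :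
    sdN c t i v b = sdN c t i v a + ∑ l ∈ Finset.Ico a b, dN c t (itN c i v l) v := by
  unfold sdN
  exact (Finset.sum_range_add_sum_Ico _ h).symm

section

variable {c c' : Cd} {ρ : RA (gr c) →* Equiv.Perm (Fin (cM c))}
  {ρ' : RA (gr c') →* Equiv.Perm (Fin (cM c'))} {F : Fin (cM c) ≃ Fin (cM c')}
  {τ : Fin (cM c) → Fin (cK c) ≃ Fin (cK c')} {t : Mt} {de : Fin (cM c) → Fin (cK c) → ℕ}
  {ep : Fin (cM c) → Fin (cK c) → ℤ} {sn : Fin (cM c) → Fin (cK c) → Bool} {eq : ℕ → ℕ → ℤ}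

theorem c07_good (hρ : IsRho c ρ) (hρ' : IsRho c' ρ') (hc : c'.1 = c.1)
    (hF : ∀ i : Fin (cM c), FN c t i = (F i : ℕ))
    (hτ : ∀ (i : Fin (cM c)) (v : Fin (cK c)), tN c t i v = (τ i v : ℕ))
    (hd : ∀ (i : Fin (cM c)) (v : Fin (cK c)), dN c t i v = de i v)
    (hs : ∀ (i : Fin (cM c)) (v : Fin (cK c)), sN c t i v = 1 ↔ sn i v = true)
    (he : ∀ (i : Fin (cM c)) (v : Fin (cK c)), eq i v = ep i v)
    (h : Nm ρ ρ' (MM c) F τ de ep sn) : MatN c c' t ∧ c07E c t eq := by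
  refine ⟨⟨hc, ?_, ?_, ?_, ?_, ?_, ?_⟩, ?_, ?_⟩
  · intro i hi j hj hij
    have h1 := hF ⟨i, hi⟩
    have h2 := hF ⟨j, hj⟩
    try dsimp only at h1 h2
    rw [h1, h2] at hij
    exact congrArg Fin.val (F.injective (Fin.ext hij))
  · intro i hi v hv w hw hvw
    have h1 := hτ ⟨i, hi⟩ ⟨v, hv⟩
    have h2 := hτ ⟨i, hi⟩ ⟨w, hw⟩
    try dsimp only at h1 h2
    rw [h1, h2] at hvw
    exact congrArg Fin.val ((τ ⟨i, hi⟩).injective (Fin.ext hvw))
  · intro i hi v hv w hw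
    have h1 := hτ ⟨i, hi⟩ ⟨v, hv⟩
    have h2 := hτ ⟨i, hi⟩ ⟨w, hw⟩
    try dsimp only at h1 h2
    rw [h1, h2]
    exact h.adj ⟨i, hi⟩ ⟨v, hv⟩ ⟨w, hw⟩
  · intro i hi v hv w hw hvw
    have h1 := h.tau ⟨i, hi⟩ ⟨v, hv⟩ ⟨w, hw⟩ ((gr_st c _ _).2 hvw)
    have h2 := hτ (rm ρ ⟨i, hi⟩ (gen ⟨v, hv⟩)) ⟨w, hw⟩
    have h3 := hτ ⟨i, hi⟩ ⟨w, hw⟩
    rw [hρ] at h2
    try dsimp only at h2 h3
    rw [h2, h3, h1]
  · intro i hi v hv
    have h1 := h.mul ⟨i, hi⟩ ⟨v, hv⟩
    have h2 := hF (rm ρ ⟨i, hi⟩ (gen ⟨v, hv⟩))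
    rw [hρ] at h2
    try dsimp only at h2
    rw [h2, h1, it_eq hρ']
    have h3 := hF ⟨i, hi⟩
    have h4 := hτ ⟨i, hi⟩ ⟨v, hv⟩
    have h5 := hd ⟨i, hi⟩ ⟨v, hv⟩
    try dsimp only at h3 h4 h5
    rw [h3, h4, h5]
  · intro i hi v hv a ha b hb hab hm
    rw [c07_sdN c t i v hab.le, c07_mod_iff] at hm
    refine h.dis ⟨i, hi⟩ ⟨v, hv⟩ a b hab hb ?_
    have h1 : ∑ l ∈ Finset.Ico a b, de (rm ρ ⟨i, hi⟩ (gen ⟨v, hv⟩ ^ l)) ⟨v, hv⟩ =
        ∑ l ∈ Finset.Ico a b, dN c t (itN c i v l) v := by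
      refine Finset.sum_congr rfl (fun l _ => ?_)
      rw [← hd, it_eq hρ]
    rw [h1]
    exact hm
  · intro i hi v hv w hw hvw
    have h1 := h.lam ⟨i, hi⟩ ⟨v, hv⟩ ⟨w, hw⟩ hvw
    rw [← hd, ← hd, ← he, ← he, hρ] at h1
    exact h1
  · intro i hi v hv
    have h1 := h.sum ⟨i, hi⟩ ⟨v, hv⟩
    have h2 : ∑ l ∈ Finset.range (MM c), ((de (rm ρ ⟨i, hi⟩ (gen ⟨v, hv⟩ ^ l)) ⟨v, hv⟩ : ℤ) +
        MM c * ep (rm ρ ⟨i, hi⟩ (gen ⟨v, hv⟩ ^ l)) ⟨v, hv⟩) =
        ∑ l ∈ Finset.range (MM c),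
      ((dN c t (itN c i v l) v : ℤ) + MM c * eq (itN c i v l) v) := by
      refine Finset.sum_congr rfl (fun l _ => ?_)
      rw [← hd, ← he, it_eq hρ]
    rw [h2] at h1
    rw [h1]
    have h3 := hs ⟨i, hi⟩ ⟨v, hv⟩
    try dsimp only at h3
    by_cases h4 : sn ⟨i, hi⟩ ⟨v, hv⟩ = true
    · rw [if_pos h4, if_pos (h3.2 h4)]
    · rw [if_neg h4, if_neg (fun h5 => h4 (h3.1 h5))]

theorem c07_nm (hρ : IsRho c ρ) (hρ' : IsRho c' ρ')
    (hF : ∀ i : Fin (cM c), FN c t i = (F i : ℕ))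
    (hτ : ∀ (i : Fin (cM c)) (v : Fin (cK c)), tN c t i v = (τ i v : ℕ))
    (hd : ∀ (i : Fin (cM c)) (v : Fin (cK c)), dN c t i v = de i v)
    (hs : ∀ (i : Fin (cM c)) (v : Fin (cK c)), sN c t i v = 1 ↔ sn i v = true)
    (he : ∀ (i : Fin (cM c)) (v : Fin (cK c)), eq i v = ep i v)
    (h : MatN c c' t) (hE : c07E c t eq) : Nm ρ ρ' (MM c) F τ de ep sn := by
  obtain ⟨-, -, -, h4, h5, h6, h7⟩ := h
  refine ⟨?_, ?_, ?_, ?_, ?_, ?_⟩
  · intro i v w
    rw [gr_adj, gr_adj, ← hτ, ← hτ]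
    exact h4 i i.2 v v.2 w w.2
  · intro i v w hw
    apply Fin.ext
    rw [← hτ, ← hτ, hρ]
    exact h5 i i.2 v v.2 w w.2 ((gr_st c v w).1 hw)
  · intro i v
    apply Fin.ext
    rw [← hF, it_eq hρ', hρ, ← hF, ← hτ, ← hd]
    exact h6 i i.2 v v.2
  · intro i v a b hab hb hm
    refine h7 i i.2 v v.2 a (lt_trans hab hb) b hb hab ?_
    rw [c07_sdN c t i v hab.le, c07_mod_iff]
    have h1 : ∑ l ∈ Finset.Ico a b, de (rm ρ i (gen v ^ l)) v =
        ∑ l ∈ Finset.Ico a b, dN c t (itN c i v l) v := by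
      refine Finset.sum_congr rfl (fun l _ => ?_)
      rw [← hd, it_eq hρ]
    rw [← h1]
    exact hm
  · intro i v w hvw
    rw [← hd, ← hd, ← he, ← he, hρ]
    exact hE.1 i i.2 v v.2 w w.2 hvw
  · intro i v
    have h1 := hE.2 i i.2 v v.2
    have h2 : ∑ l ∈ Finset.range (MM c), ((de (rm ρ i (gen v ^ l)) v : ℤ) +
        MM c * ep (rm ρ i (gen v ^ l)) v) =
        ∑ l ∈ Finset.range (MM c),
      ((dN c t (itN c i v l) v : ℤ) + MM c * eq (itN c i v l) v) := by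
      refine Finset.sum_congr rfl (fun l _ => ?_)
      rw [← hd, ← he, it_eq hρ]
    rw [h2, h1]
    have h3 := hs i v
    by_cases h4 : sn i v = true
    · rw [if_pos h4, if_pos (h3.2 h4)]
    · rw [if_neg h4, if_neg (fun h5 => h4 (h3.1 h5))]

end

theorem good_of_dt {c c' : Cd} (h : ValN c) (h' : ValN c')
    {ρ : RA (gr c) →* Equiv.Perm (Fin (cM c))} (hρ : IsRho c ρ)
    {ρ' : RA (gr c') →* Equiv.Perm (Fin (cM c'))} (hρ' : IsRho c' ρ')
    {F : Fin (cM c) ≃ Fin (cM c')} {τ : Fin (cM c) → Fin (cK c) ≃ Fin (cK c')}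
    {la : Fin (cM c) → Fin (cK c) → ℤ} (hd : Dt ρ ρ' F τ la) : ∃ t, InB c t ∧ GoodM c c' t := by
  classical
  have e1 : cM c = cM c' := by
    have := Fintype.card_congr F
    rwa [Fintype.card_fin, Fintype.card_fin] at this
  have e2 : cK c = cK c' := by
    have := Fintype.card_congr (τ ⟨0, Nat.succ_pos _⟩)
    rwa [Fintype.card_fin, Fintype.card_fin] at this
  have hc : c'.1 = c.1 := by
    apply Prod.ext
    · exact (Nat.succ.inj e2).symm
    · exact (Nat.succ.inj e1).symm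
  have hM := c07_MM_pos c
  have hMM := c07_MM hc
  obtain ⟨de, ep, sn, hN, hde, -⟩ := nm_of_dt hM (fun v => rho_pow ρ (gen v))
    (fun v => by rw [← hMM]; exact rho_pow ρ' (gen v)) hd
  obtain ⟨w1, hw1, h1⟩ := CB.exists_dg c.1.2 (fun x => if hx : x < cM c then
    (F ⟨x, hx⟩ : ℕ) else 0) (by
      intro x
      try dsimp only
      split_ifs with hx
      · exact lt_of_lt_of_eq (F ⟨x, hx⟩).2 e1.symm
      · exact Nat.succ_pos _) (cM c)
  obtain ⟨w2, hw2, h2⟩ := c07_tab c.1.1 c.1.1 c.1.2 (fun i v => (τ i v : ℕ))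
    (fun i v => lt_of_lt_of_eq (τ i v).2 e2.symm)
  obtain ⟨w3, hw3, h3⟩ := c07_tab (MM c - 1) c.1.1 c.1.2 de (by
    intro i v
    have := hde i v
    omega)
  obtain ⟨w4, hw4, h4⟩ := c07_tab 1 c.1.1 c.1.2 (fun i v => if sn i v = true then 1 else 0) (by
    intro i v
    try dsimp only
    split_ifs <;> omega)
  obtain ⟨eo, heo⟩ : ∃ eo : ℕ → ℕ → ℤ, ∀ (i : Fin (cM c)) (v : Fin (cK c)), eo i v = ep i v :=
    ⟨fun i v => if hi : i < cM c then (if hv : v < cK c then ep ⟨i, hi⟩ ⟨v, hv⟩ else 0) else 0,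
    (fun i v => by
      try dsimp only
      rw [dif_pos i.2, dif_pos v.2])⟩
  have h5 := c07_good (t := (w1, w2, w3, w4)) (eq := eo) hρ hρ' hc
    (fun i => by
      show CB.dg c.1.2 w1 i = _
      rw [h1 i i.2]
      try dsimp only
      rw [dif_pos i.2])
    (fun i v => h2 i v)
    (fun i v => h3 i v)
    (fun i v => by
      show CB.dg 1 w4 _ = 1 ↔ _
      rw [h4 i v]
      try dsimp only
      by_cases h6 : sn i v = true
      · simp [h6]
      · simp [h6])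
    heo hN
  refine ⟨(w1, w2, w3, w4), ⟨hw1, hw2, ?_, hw4⟩, h5.1, (sol_iff c _).2 ⟨eo, h5.2⟩⟩
  have h6 : MM c - 1 + 1 = MM c := by omega
  rw [h6] at hw3
  exact hw3

theorem dt_of_good {c c' : Cd} (h : ValN c) (h' : ValN c')
    {ρ : RA (gr c) →* Equiv.Perm (Fin (cM c))} (hρ : IsRho c ρ)
    {ρ' : RA (gr c') →* Equiv.Perm (Fin (cM c'))} (hρ' : IsRho c' ρ') {t : Mt}
    (hg : GoodM c c' t) :
    ∃ (F : Fin (cM c) ≃ Fin (cM c')) (τ : Fin (cM c) → Fin (cK c) ≃ Fin (cK c'))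
      (la : Fin (cM c) → Fin (cK c) → ℤ), Dt ρ ρ' F τ la := by
  classical
  obtain ⟨hm, hs⟩ := hg
  have hc : c'.1 = c.1 := hm.1
  have e1 : cM c = cM c' := by unfold cM; rw [hc]
  have e2 : cK c = cK c' := by unfold cK; rw [hc]
  obtain ⟨eq, heq⟩ := (sol_iff c t).1 hs
  have hF0 : Function.Injective (fun i : Fin (cM c) =>
      (⟨FN c t i, lt_of_lt_of_eq (CB.dg_lt _ _ _) e1⟩ : Fin (cM c'))) := by
    intro i j hij
    apply Fin.ext
    exact hm.2.1 i i.2 j j.2 (congrArg Fin.val hij)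
  have hτ0 : ∀ i : Fin (cM c), Function.Injective (fun v : Fin (cK c) =>
      (⟨tN c t i v, lt_of_lt_of_eq (CB.dg_lt _ _ _) e2⟩ : Fin (cK c'))) := by
    intro i v w hvw
    apply Fin.ext
    exact hm.2.2.1 i i.2 v v.2 w w.2 (congrArg Fin.val hvw)
  have hF1 : Function.Bijective (fun i : Fin (cM c) =>
      (⟨FN c t i, lt_of_lt_of_eq (CB.dg_lt _ _ _) e1⟩ : Fin (cM c'))) := by
    rw [Fintype.bijective_iff_injective_and_card]
    refine ⟨hF0, ?_⟩
    rw [Fintype.card_fin, Fintype.card_fin]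
    exact e1
  have hτ1 : ∀ i : Fin (cM c), Function.Bijective (fun v : Fin (cK c) =>
      (⟨tN c t i v, lt_of_lt_of_eq (CB.dg_lt _ _ _) e2⟩ : Fin (cK c'))) := by
    intro i
    rw [Fintype.bijective_iff_injective_and_card]
    refine ⟨hτ0 i, ?_⟩
    rw [Fintype.card_fin, Fintype.card_fin]
    exact e2
  have hN := c07_nm (ρ := ρ) (ρ' := ρ') (F := Equiv.ofBijective _ hF1)
    (τ := fun i => Equiv.ofBijective _ (hτ1 i)) (de := fun i v => dN c t i v)
    (ep := fun i v => eq i v) (sn := fun i v => decide (sN c t i v = 1)) hρ hρ'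
    (fun i => rfl) (fun i v => rfl) (fun i v => rfl) (fun i v => by simp) (fun i v => rfl)
    hm heq
  exact ⟨_, _, _, dt_of_nm (c07_MM_pos c) (fun v => rho_pow ρ (gen v))
    (fun v => by rw [← c07_MM hc]; exact rho_pow ρ' (gen v)) hN⟩

end RaagIso
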