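import Pool.Agent.Lib.MP_32d917_al_raag.C03
import Pool.Agent.Lib.MP_32d917_al_adm.C09

/-!
# C08: the absence of good matchings is recursively enumerable

`matN_p`: primitive recursive. `itN` by `Primrec.nat_iterate` (or `Primrec.nat_rec'`), `sdN` by `AdmIso.p_sumR` (file `MP_32d917_al_adm/C09.lean`), `MM` by `Primrec.nat_rec'` (factorial: `Nat.factorial`, `n ! ` by recursion; `cM c = c.1.2 + 1`).
`p_sysN`: `Primrec.list_flatMap`, `Primrec.list_map`, `Primrec.list_range`, `Primrec.ite`, see `MP_32d917_al_adm/C10.lean`.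
`noGood_re`: for given `t`: `¬ MatN ∨ ¬ Sol` (`AdmIso.not_sol_re`, `re_or`, `re_comp`); the quantifier over `t` is bounded (four nested `re_forall_lt` with the bounds of `InB`), see `AdmIso.noGood_re` in `MP_32d917_al_adm/C10.lean`.
-/

set_option autoImplicit false
set_option synthInstance.maxSize 2000

namespace RaagIso

open LatIso AdmIso

section

variable {β γ δ : Type} [Primcodable β] [Primcodable γ] [Primcodable δ]

private theorem p_mapL {f : β → List γ} {g : β → γ → δ} (hf : Primrec f)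
    (hg : Primrec fun x : β × γ => g x.1 x.2) : Primrec fun x => (f x).map fun y => g x y :=
  Primrec.list_map hf hg

private theorem p_flatMapL {f : β → List γ} {g : β → γ → List δ} (hf : Primrec f)
    (hg : Primrec fun x : β × γ => g x.1 x.2) : Primrec fun x => (f x).flatMap fun y => g x y :=
  Primrec.list_flatMap hf hg

private theorem p_consL {f : β → γ} {g : β → List γ} (hf : Primrec f)
    (hg : Primrec g) : Primrec fun x => f x :: g x :=
  Primrec.list_cons.comp hf hg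

private theorem p_iteL {p : β → Prop} [DecidablePred p] {f g : β → γ} (hp : PrimrecPred p)
    (hf : Primrec f) (hg : Primrec g) : Primrec fun x => if p x then f x else g x :=
  Primrec.ite hp hf hg

private theorem p_rangeL {f : β → ℕ} (hf : Primrec f) : Primrec fun x => List.range (f x) :=
  Primrec.list_range.comp hf

private theorem p_factL {f : β → ℕ} (hf : Primrec f) : Primrec fun x => (f x).factorial := by
  have h1 : Primrec₂ fun (_ : β) (y : ℕ × ℕ) => (y.1 + 1) * y.2 :=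
    CB.p_mul (CB.p_add (CB.p_fst (CB.p_snd CB.p_id)) (Primrec.const 1)) (CB.p_snd (CB.p_snd CB.p_id))
  refine (Primrec.nat_rec' hf (Primrec.const 1) h1).of_eq ?_
  intro x
  generalize f x = n
  induction n with
  | zero => rfl
  | succ n ih =>
    rw [Nat.factorial_succ, ← ih]

variable {c : β → Cd} {t : β → Mt} {i v w l : β → ℕ}

private theorem p_MM (hc : Primrec c) : Primrec fun x => MM (c x) := by
  unfold MM
  exact p_factL (p_cM hc)

private theorem p_FN (hc : Primrec c) (ht : Primrec t) (hi : Primrec i) :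
    Primrec fun x => FN (c x) (t x) (i x) := by
  unfold FN
  exact CB.p_dg (CB.p_snd (CB.p_fst hc)) (CB.p_fst ht) hi

private theorem p_tN (hc : Primrec c) (ht : Primrec t) (hi : Primrec i) (hv : Primrec v) :
    Primrec fun x => tN (c x) (t x) (i x) (v x) := by
  unfold tN
  exact CB.p_dg (CB.p_fst (CB.p_fst hc)) (CB.p_fst (CB.p_snd ht))
    (CB.p_add (CB.p_mul hi (p_cK hc)) hv)

private theorem p_dN (hc : Primrec c) (ht : Primrec t) (hi : Primrec i) (hv : Primrec v) :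
    Primrec fun x => dN (c x) (t x) (i x) (v x) := by
  unfold dN
  exact CB.p_dg (CB.p_sub (p_MM hc) (Primrec.const 1)) (CB.p_fst (CB.p_snd (CB.p_snd ht)))
    (CB.p_add (CB.p_mul hi (p_cK hc)) hv)

private theorem p_sN (hc : Primrec c) (ht : Primrec t) (hi : Primrec i) (hv : Primrec v) :
    Primrec fun x => sN (c x) (t x) (i x) (v x) := by
  unfold sN
  exact CB.p_dg (Primrec.const 1) (CB.p_snd (CB.p_snd (CB.p_snd ht)))
    (CB.p_add (CB.p_mul hi (p_cK hc)) hv)

private theorem p_itN (hc : Primrec c) (hi : Primrec i) (hv : Primrec v) (hl : Primrec l) :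
    Primrec fun x => itN (c x) (i x) (v x) (l x) := by
  unfold itN
  have h1 : Primrec₂ fun (x : β) (j : ℕ) => rmN (c x) j (v x) :=
    p_rmN (hc.comp Primrec.fst) Primrec.snd (hv.comp Primrec.fst)
  exact Primrec.nat_iterate hl hi h1

private theorem p_sdN (hc : Primrec c) (ht : Primrec t) (hi : Primrec i) (hv : Primrec v)
    (hl : Primrec l) : Primrec fun x => sdN (c x) (t x) (i x) (v x) (l x) := by
  unfold sdN
  exact p_sumR hl (p_dN (hc.comp Primrec.fst) (ht.comp Primrec.fst)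
    (p_itN (hc.comp Primrec.fst) (hi.comp Primrec.fst) (hv.comp Primrec.fst) Primrec.snd)
    (hv.comp Primrec.fst))

private theorem p_ix (hc : Primrec c) (hi : Primrec i) (hv : Primrec v) :
    Primrec fun x => ix (c x) (i x) (v x) := by
  unfold ix
  exact CB.p_add (CB.p_mul hi (p_cK hc)) hv

private theorem p_rowL (hc : Primrec c) (ht : Primrec t) (hi : Primrec i) (hv : Primrec v)
    (hw : Primrec w) : Primrec fun x => rowL (c x) (t x) (i x) (v x) (w x) := by
  have hc' : Primrec fun x : β × ℕ => c x.1 := hc.comp Primrec.fst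
  have hi' : Primrec fun x : β × ℕ => i x.1 := hi.comp Primrec.fst
  have hv' : Primrec fun x : β × ℕ => v x.1 := hv.comp Primrec.fst
  have hw' : Primrec fun x : β × ℕ => w x.1 := hw.comp Primrec.fst
  unfold rowL
  refine p_iteL (pp_AdN hc hv hw) (CB.p_pair (p_mapL (p_rangeL (CB.p_mul (p_cM hc) (p_cK hc)))
    (CB.p_pair (p_iteL (CB.pp_eq (CB.p_snd CB.p_id) (p_ix hc' (p_rmN hc' hi' hw') hv'))
      (p_MM hc') (Primrec.const 0))
      (p_iteL (CB.pp_eq (CB.p_snd CB.p_id) (p_ix hc' hi' hv')) (p_MM hc') (Primrec.const 0))))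
    (CB.p_pair (p_dN hc ht hi hv) (p_dN hc ht (p_rmN hc hi hw) hv))) (Primrec.const _)

private theorem p_rowS (hc : Primrec c) (ht : Primrec t) (hi : Primrec i) (hv : Primrec v) :
    Primrec fun x => rowS (c x) (t x) (i x) (v x) := by
  have hc' : Primrec fun x : β × ℕ => c x.1 := hc.comp Primrec.fst
  have hc2 : Primrec fun x : (β × ℕ) × ℕ => c x.1.1 := hc'.comp Primrec.fst
  have hi2 : Primrec fun x : (β × ℕ) × ℕ => i x.1.1 :=
    (hi.comp (Primrec.fst (α := β) (β := ℕ))).comp Primrec.fst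
  have hv2 : Primrec fun x : (β × ℕ) × ℕ => v x.1.1 :=
    (hv.comp (Primrec.fst (α := β) (β := ℕ))).comp Primrec.fst
  unfold rowS
  refine CB.p_pair (p_mapL (p_rangeL (CB.p_mul (p_cM hc) (p_cK hc)))
    (CB.p_pair (p_sumR (p_MM hc') (p_iteL (CB.pp_eq (CB.p_snd (CB.p_fst CB.p_id))
      (p_ix hc2 (p_itN hc2 hi2 hv2 (CB.p_snd CB.p_id)) hv2)) (p_MM hc2) (Primrec.const 0)))
      (Primrec.const 0)))
    (p_iteL (CB.pp_eq (p_sN hc ht hi hv) (Primrec.const 1))
      (CB.p_pair (p_MM hc) (p_sdN hc ht hi hv (p_MM hc)))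
      (CB.p_pair (Primrec.const 0) (CB.p_add (p_MM hc) (p_sdN hc ht hi hv (p_MM hc)))))

end

theorem matN_p : PrimrecPred fun x : (Cd × Cd) × Mt => MatN x.1.1 x.1.2 x.2 := by
  unfold MatN
  (repeat' (with_reducible first | assumption | exact CB.p_id | exact Primrec.const _ | exact CB.pp_const _ | apply p_cK | apply p_cM | apply p_MM | apply pp_AdN | apply pp_StN | apply p_rmN | apply p_riN | apply p_FN | apply p_tN | apply p_dN | apply p_sN | apply p_itN | apply p_sdN | apply CB.p_fst | apply CB.p_snd | apply CB.p_pair | apply CB.p_add | apply CB.p_sub | apply CB.p_mul | apply CB.p_div | apply CB.p_mod | apply CB.p_pow | apply CB.p_dg | apply CB.pp_all | apply CB.pp_ex | apply CB.pp_and | apply CB.pp_or | apply CB.pp_not | apply CB.pp_iff | apply CB.pp_imp | apply CB.pp_lt | apply CB.pp_eq))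

theorem p_sysN : Primrec fun x : Cd × Mt => sysN x.1 x.2 := by
  unfold sysN
  refine CB.p_pair (CB.p_mul (p_cM (CB.p_fst CB.p_id)) (p_cK (CB.p_fst CB.p_id))) ?_
  refine p_flatMapL (p_rangeL (p_cM (CB.p_fst CB.p_id))) ?_
  refine p_flatMapL (p_rangeL (p_cK (CB.p_fst (CB.p_fst CB.p_id)))) ?_
  refine p_consL (p_rowS (CB.p_fst (CB.p_fst (CB.p_fst CB.p_id)))
    (CB.p_snd (CB.p_fst (CB.p_fst CB.p_id))) (CB.p_snd (CB.p_fst CB.p_id)) (CB.p_snd CB.p_id)) ?_
  refine p_mapL (p_rangeL (p_cK (CB.p_fst (CB.p_fst (CB.p_fst CB.p_id))))) ?_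
  exact p_rowL (CB.p_fst (CB.p_fst (CB.p_fst (CB.p_fst CB.p_id))))
    (CB.p_snd (CB.p_fst (CB.p_fst (CB.p_fst CB.p_id)))) (CB.p_snd (CB.p_fst (CB.p_fst CB.p_id)))
    (CB.p_snd (CB.p_fst CB.p_id)) (CB.p_snd CB.p_id)

private theorem re_sol {β : Type} [Primcodable β] {s : β → Sys} (hs : Primrec s) :
    REPred fun x => ¬ Sol (s x) :=
  re_comp (p := fun y : Sys => ¬ Sol y) (f := s) not_sol_re (Primrec.to_comp hs)

private theorem notGood_re : REPred fun x : (Cd × Cd) × Mt => ¬ GoodM x.1.1 x.1.2 x.2 := by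
  have h1 : REPred fun x : (Cd × Cd) × Mt => ¬ MatN x.1.1 x.1.2 x.2 := re_of_prim matN_p.not
  have h2 : REPred fun x : (Cd × Cd) × Mt => ¬ Sol (sysN x.1.1 x.2) := by
    apply re_sol
    exact Primrec.comp (f := fun y : Cd × Mt => sysN y.1 y.2)
      (g := fun x : (Cd × Cd) × Mt => ((x.1.1, x.2) : Cd × Mt)) p_sysN
      (CB.p_pair (CB.p_fst (CB.p_fst CB.p_id)) (CB.p_snd CB.p_id))
  refine (re_or h1 h2).of_eq ?_
  intro x
  unfold GoodM
  tauto

theorem noGood_re : REPred fun x : Cd × Cd => ∀ t : Mt, InB x.1 t → ¬ GoodM x.1 x.2 t := by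
  have hf : Primrec fun x : ((((Cd × Cd) × ℕ) × ℕ) × ℕ) × ℕ =>
      ((x.1.1.1.1, (x.1.1.1.2, x.1.1.2, x.1.2, x.2)) : (Cd × Cd) × Mt) := by
    (repeat' (with_reducible first | exact CB.p_id | apply CB.p_fst | apply CB.p_snd | apply CB.p_pair))
  have h0 := re_comp notGood_re hf.to_comp
  have b0 : ∀ {β : Type} [Primcodable β] {f : β → Cd}, Primrec f →
      Primrec fun x => cM (f x) * cK (f x) := fun hc => CB.p_mul (p_cM hc) (p_cK hc)
  have h1 := re_forall_lt (p := fun (x : (((Cd × Cd) × ℕ) × ℕ) × ℕ) (g : ℕ) =>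
      ¬ GoodM x.1.1.1.1 x.1.1.1.2 (x.1.1.2, x.1.2, x.2, g))
    (f := fun x => 2 ^ (cM x.1.1.1.1 * cK x.1.1.1.1))
    (CB.p_pow (Primrec.const 2) (b0 (CB.p_fst (CB.p_fst (CB.p_fst (CB.p_fst CB.p_id)))))) h0
  have h2 := re_forall_lt (p := fun (x : ((Cd × Cd) × ℕ) × ℕ) (d : ℕ) =>
      ∀ g < 2 ^ (cM x.1.1.1 * cK x.1.1.1),
      ¬ GoodM x.1.1.1 x.1.1.2 (x.1.2, x.2, d, g))
    (f := fun x => MM x.1.1.1 ^ (cM x.1.1.1 * cK x.1.1.1))
    (CB.p_pow (p_MM (CB.p_fst (CB.p_fst (CB.p_fst CB.p_id))))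
      (b0 (CB.p_fst (CB.p_fst (CB.p_fst CB.p_id))))) h1
  have h3 := re_forall_lt (p := fun (x : (Cd × Cd) × ℕ) (b : ℕ) =>
      ∀ d < MM x.1.1 ^ (cM x.1.1 * cK x.1.1), ∀ g < 2 ^ (cM x.1.1 * cK x.1.1),
      ¬ GoodM x.1.1 x.1.2 (x.2, b, d, g))
    (f := fun x => cK x.1.1 ^ (cM x.1.1 * cK x.1.1))
    (CB.p_pow (p_cK (CB.p_fst (CB.p_fst CB.p_id))) (b0 (CB.p_fst (CB.p_fst CB.p_id)))) h2
  have h4 := re_forall_lt (p := fun (x : Cd × Cd) (a : ℕ) =>
      ∀ b < cK x.1 ^ (cM x.1 * cK x.1), ∀ d < MM x.1 ^ (cM x.1 * cK x.1),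
      ∀ g < 2 ^ (cM x.1 * cK x.1), ¬ GoodM x.1 x.2 (a, b, d, g))
    (f := fun x => cM x.1 ^ cM x.1)
    (CB.p_pow (p_cM (CB.p_fst CB.p_id)) (p_cM (CB.p_fst CB.p_id))) h3
  refine h4.of_eq ?_
  intro x
  constructor
  · rintro h ⟨a, b, d, g⟩ ⟨k1, k2, k3, k4⟩
    exact h a k1 b k2 d k3 g k4
  · intro h a k1 b k2 d k3 g k4
    exact h (a, b, d, g) ⟨k1, k2, k3, k4⟩

end RaagIso
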