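import Pool.Agent.Lib.MP_32d917_al_raag.O01

/-!
# C09: small graphs and commutativity

`small`: if `V` has at most one element then `RA Γ` is trivial or infinite cyclic, and so is every subgroup of finite index: `V` empty: `RA Γ` is trivial (`ra_ind`). `V = {v}`: `RA Γ ≃* Multiplicative ℤ` (all elements are powers of `gen v`, `gen_zpow_inj`);
a subgroup of finite index is not trivial (it contains a power `gen v ^ n`, `n > 0`) and is infinite cyclic (subgroups of `ℤ`: `Int.subgroup_cyclic`, `zpowers` of `gen v ^ d`, `d ≠ 0`, isomorphic to `Multiplicative ℤ` by `n ↦ (gen v ^ d) ^ n`).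

`noncomm`: if `NoDom Γ` and `V` has two elements `v ≠ w` then there are two non adjacent different vertices: otherwise all vertices are pairwise adjacent and `NoDom v w` gives `u ∉ st Γ w`, contradiction. If `s ≠ t` are not adjacent and
`gen s ^ n`, `gen t ^ n ∈ H`, `n > 0` (finite index: `Subgroup.exists_pow_mem_of_index_ne_zero` or the normal core) then they do not commute (`cen_gen`, `t ∉ st Γ s`: `gen t ^ n ∈ PP Γ (st Γ s)`, but the exponent sum `ab Γ t` is `n`, and `ab_pp`).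
-/

set_option autoImplicit false

namespace RaagIso

theorem c09_pow {V : Type} {Γ : SimpleGraph V} (h : ∀ a b : V, a = b) (v : V) (x : RA Γ) :
    ∃ n : ℤ, gen v ^ n = x := by
  refine ra_ind (C := fun x => ∃ n : ℤ, gen v ^ n = x) ⟨0, zpow_zero _⟩ ?_ ?_ ?_ x
  · intro w
    exact ⟨1, by rw [zpow_one, h v w]⟩
  · rintro x y ⟨n, rfl⟩ ⟨m, rfl⟩
    exact ⟨n + m, zpow_add _ _ _⟩
  · rintro x ⟨n, rfl⟩
    exact ⟨-n, zpow_neg _ _⟩

theorem small {V : Type} {Γ : SimpleGraph V} (h : ∀ a b : V, a = b) (H : Subgroup (RA Γ))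
    (hH : H.FiniteIndex) : Subsingleton H ∨ Nonempty (H ≃* Multiplicative ℤ) := by
  rcases isEmpty_or_nonempty V with hV | ⟨⟨v⟩⟩
  · left
    have h1 : ∀ x : RA Γ, x = 1 := by
      intro x
      refine ra_ind (C := fun x => x = 1) rfl (fun v => (hV.false v).elim) ?_ ?_ x
      · rintro x y rfl rfl
        exact mul_one 1
      · rintro x rfl
        exact inv_one
    constructor
    intro a b
    apply Subtype.ext
    rw [h1 a, h1 b]
  · right
    have hc : IsCyclic (RA Γ) := ⟨⟨gen v, fun x => c09_pow h v x⟩⟩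
    obtain ⟨g, hg⟩ := (Subgroup.isCyclic H).exists_generator
    obtain ⟨d, hd⟩ := c09_pow h v (g : RA Γ)
    have hd0 : d ≠ 0 := by
      rintro rfl
      rw [zpow_zero] at hd
      obtain ⟨n, hn, -, hn2⟩ := Subgroup.exists_pow_mem_of_index_ne_zero hH.index_ne_zero (gen v : RA Γ)
      obtain ⟨k, hk⟩ := hg ⟨_, hn2⟩
      have h1 := congrArg (fun y : H => (y : RA Γ)) hk
      have h2 : ((g ^ k : H) : RA Γ) = gen v ^ n := h1
      rw [Subgroup.coe_zpow, ← hd, one_zpow] at h2
      have h3 : (gen v : RA Γ) ^ (0 : ℤ) = gen v ^ (n : ℤ) := by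
        rw [zpow_zero, zpow_natCast]; exact h2
      have h4 := gen_zpow_inj h3
      omega
    refine ⟨(MulEquiv.ofBijective (zpowersHom H g) ⟨?_, ?_⟩).symm⟩
    · intro a b hab
      have h1 : g ^ (Multiplicative.toAdd a) = g ^ (Multiplicative.toAdd b) := hab
      have h2 := congrArg (fun y : H => (y : RA Γ)) h1
      have h3 : (g : RA Γ) ^ (Multiplicative.toAdd a) = (g : RA Γ) ^ (Multiplicative.toAdd b) := by
        simpa using h2
      rw [← hd, ← zpow_mul, ← zpow_mul] at h3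
      have h4 := gen_zpow_inj h3
      exact Multiplicative.toAdd.injective (mul_left_cancel₀ hd0 h4)
    · intro x
      obtain ⟨k, hk⟩ := hg x
      exact ⟨Multiplicative.ofAdd k, hk⟩

theorem noncomm {V : Type} {Γ : SimpleGraph V} (hN : NoDom Γ) (h2 : ∃ a b : V, a ≠ b)
    (H : Subgroup (RA Γ)) (hH : H.FiniteIndex) : ∃ x y : H, x * y ≠ y * x := by
  obtain ⟨v, w, hvw⟩ := h2
  obtain ⟨u, -, hu⟩ := hN v w hvw
  obtain ⟨n, hn, -, hn2⟩ := Subgroup.exists_pow_mem_of_index_ne_zero hH.index_ne_zero (gen w : RA Γ)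
  obtain ⟨m, hm, -, hm2⟩ := Subgroup.exists_pow_mem_of_index_ne_zero hH.index_ne_zero (gen u : RA Γ)
  refine ⟨⟨_, hm2⟩, ⟨_, hn2⟩, fun h => ?_⟩
  have h1 : (gen u : RA Γ) ^ m * gen w ^ n = gen w ^ n * gen u ^ m :=
    congrArg (fun y : H => (y : RA Γ)) h
  have hn' : (n : ℤ) ≠ 0 := by omega
  have hm' : (m : ℤ) ≠ 0 := by omega
  have h3 : (gen u : RA Γ) ^ (m : ℤ) ∈ PP Γ (st Γ w) := by
    apply cen_gen hn'
    rw [zpow_natCast, zpow_natCast]
    exact h1
  exact hu ((gen_zpow_mem_iff hm').1 h3)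

end RaagIso
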