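import Pool.Agent.Lib.MP_32d917_al_raag.E01

/-!
# O01: finite outer automorphism group implies no domination and no separating stars

`Out` is finite iff the group of inner automorphisms has finite index in `MulAut (RA Γ)`.

`noDom_of_out`: let `v ≠ w` with `∀ u, Γ.Adj v u → u ∈ st Γ w`. Transvection: `gen v ↦ gen v * gen w`, other generators fixed (`ra_lift`: for `u` adjacent to `v`, `gen u` commutes
with `gen v` and `gen w`). Its inverse is `gen v ↦ gen v * (gen w)⁻¹`. So we have `t : MulAut (RA Γ)`, `(t ^ n) (gen v) = gen v * gen w ^ n`. Some power `n > 0` is inner (finite index):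
`gen v * gen w ^ n = g * gen v * g⁻¹`; apply `ab Γ w`: `n = 0`.

`noSep_of_out`: let `K` be closed under adjacency outside `st Γ v`, `a ∈ K`, `a ∉ st Γ v`, `b ∉ st Γ v`, `b ∉ K`. Partial conjugation: `gen k ↦ gen v * gen k * (gen v)⁻¹` for `k ∈ K`, `k ∉ st Γ v`,
other generators fixed. (`ra_lift`: adjacent `k, u`: if both are moved fine; if `k` is moved and `u` not then `u ∈ st Γ v`, and `u ≠ v` since `k ∉ st Γ v`; so `gen u` commutes with `gen v` and
`gen k`.) Its inverse: with `(gen v)⁻¹`. The power `n > 0` is inner, by `g`: `g` commutes with `gen b`, so `g ∈ PP Γ (st Γ b)` (`cen_gen`) and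
`(gen v ^ n)⁻¹ * g` commutes with `gen a`, so is in `PP Γ (st Γ a)`. `v` is not in `st Γ a` or `st Γ b`, so `ab Γ v` vanishes on both (`ab_pp`): `n = 0`.
-/

set_option autoImplicit false

namespace RaagIso

open Classical

section

variable {V : Type} {Γ : SimpleGraph V}

theorem o01_ofAdd_pow (n : ℕ) (h : (Multiplicative.ofAdd (1 : ℤ)) ^ n = 1) : n = 0 := by
  have h1 : Multiplicative.toAdd ((Multiplicative.ofAdd (1 : ℤ)) ^ n) = 0 := by rw [h]; rfl
  rw [toAdd_pow, toAdd_ofAdd, nsmul_eq_mul, mul_one] at h1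
  exact_mod_cast h1

theorem o01_gen_st {v u : V} (h : u ∈ st Γ v) : (gen v : RA Γ) * gen u = gen u * gen v := by
  rcases h with h | h
  · rw [h]
  · exact gen_comm h

/-- two endomorphisms inverse to each other on generators give an automorphism -/
theorem o01_aut (F G : RA Γ →* RA Γ) (h1 : ∀ u, G (F (gen u)) = gen u)
    (h2 : ∀ u, F (G (gen u)) = gen u) : ∃ t : MulAut (RA Γ), ∀ x, t x = F x := by
  have e1 : G.comp F = MonoidHom.id _ := ra_ext fun u => by simpa using h1 u
  have e2 : F.comp G = MonoidHom.id _ := ra_ext fun u => by simpa using h2 u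
  exact ⟨MonoidHom.toMulEquiv F G e1 e2, fun x => rfl⟩

/-- transvections -/
theorem o01_trans {v w : V} (h : ∀ u, Γ.Adj v u → u ∈ st Γ w) (c : RA Γ)
    (hc : ∀ u, u ∈ st Γ w → c * gen u = gen u * c) :
    ∃ F : RA Γ →* RA Γ, ∀ u, F (gen u) = if u = v then gen v * c else gen u := by
  refine ra_lift (fun u => if u = v then gen v * c else gen u) ?_
  have key : ∀ b, Γ.Adj v b → (gen v * c) * gen b = gen b * (gen v * c) := by
    intro b hb
    rw [mul_assoc, hc b (h b hb), ← mul_assoc, gen_comm hb, mul_assoc]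
  intro a b hab
  show (if a = v then gen v * c else gen a) * (if b = v then gen v * c else gen b) =
    (if b = v then gen v * c else gen b) * (if a = v then gen v * c else gen a)
  by_cases ha : a = v
  · have hb : b ≠ v := by
      intro hb
      rw [ha, hb] at hab
      exact Γ.irrefl hab
    rw [if_pos ha, if_neg hb]
    rw [ha] at hab
    exact key b hab
  · rw [if_neg ha]
    by_cases hb : b = v
    · rw [if_pos hb]
      rw [hb] at hab
      exact (key a hab.symm).symm
    · rw [if_neg hb]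
      exact gen_comm hab

theorem noDom_of_out (h : ((MulAut.conj : RA Γ →* MulAut (RA Γ)).range).FiniteIndex) : NoDom Γ := by
  intro v w hvw
  by_contra hcon
  push Not at hcon
  have hc1 : ∀ u, u ∈ st Γ w → (gen w : RA Γ) * gen u = gen u * gen w := fun u hu => o01_gen_st hu
  have hc2 : ∀ u, u ∈ st Γ w → (gen w : RA Γ)⁻¹ * gen u = gen u * (gen w)⁻¹ := by
    intro u hu
    have := hc1 u hu
    rw [inv_mul_eq_iff_eq_mul, ← mul_assoc, this, mul_assoc, mul_inv_cancel, mul_one]
  obtain ⟨F, hF⟩ := o01_trans hcon (gen w) hc1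
  obtain ⟨G, hG⟩ := o01_trans hcon (gen w)⁻¹ hc2
  have hwv : w ≠ v := fun e => hvw e.symm
  have hFw : F (gen w) = gen w := by rw [hF, if_neg hwv]
  have hGw : G (gen w) = gen w := by rw [hG, if_neg hwv]
  have hFv : F (gen v) = gen v * gen w := by rw [hF, if_pos rfl]
  have hGv : G (gen v) = gen v * (gen w)⁻¹ := by rw [hG, if_pos rfl]
  obtain ⟨t, ht⟩ := o01_aut F G
    (fun u => by
      by_cases hu : u = v
      · rw [hu, hFv, map_mul, hGv, hGw, inv_mul_cancel_right]
      · rw [hF, if_neg hu, hG, if_neg hu])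
    (fun u => by
      by_cases hu : u = v
      · rw [hu, hGv, map_mul, map_inv, hFv, hFw, mul_inv_cancel_right]
      · rw [hG, if_neg hu, hF, if_neg hu])
  have htw : ∀ n : ℕ, (t ^ n) (gen w) = gen w := by
    intro n
    induction n with
    | zero => rfl
    | succ n ih => rw [pow_succ, MulAut.mul_apply, ht, hFw, ih]
  have htv : ∀ n : ℕ, (t ^ n) (gen v) = gen v * gen w ^ n := by
    intro n
    induction n with
    | zero => rw [pow_zero, pow_zero, mul_one]; rfl
    | succ n ih => rw [pow_succ, MulAut.mul_apply, ht, hFv, map_mul, ih, htw, mul_assoc, ← pow_succ]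
  obtain ⟨n, hn0, -, g, hg⟩ := Subgroup.exists_pow_mem_of_index_ne_zero h.index_ne_zero t
  have h1 : g * gen v * g⁻¹ = gen v * gen w ^ n := by
    rw [← htv n, ← hg, MulAut.conj_apply]
  have h2 := congrArg (ab Γ w) h1
  rw [ab_conj, map_mul, map_pow, ab_gen, ab_gen, if_neg hvw, if_pos rfl, one_mul] at h2
  exact absurd (o01_ofAdd_pow n h2.symm) (by omega)

/-- partial conjugations -/
theorem o01_pconj {v : V} {K : Set V}
    (hK : ∀ a b, a ∈ K → a ∉ st Γ v → b ∉ st Γ v → Γ.Adj a b → b ∈ K) (c : RA Γ)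
    (hc : ∀ u, u ∈ st Γ v → c * gen u = gen u * c) :
    ∃ F : RA Γ →* RA Γ, ∀ u, F (gen u) = if u ∈ K ∧ u ∉ st Γ v then c * gen u * c⁻¹ else gen u := by
  refine ra_lift (fun u => if u ∈ K ∧ u ∉ st Γ v then c * gen u * c⁻¹ else gen u) ?_
  have key : ∀ a b, Γ.Adj a b → (a ∈ K ∧ a ∉ st Γ v) → ¬ (b ∈ K ∧ b ∉ st Γ v) →
      (c * gen a * c⁻¹) * gen b = gen b * (c * gen a * c⁻¹) := by
    intro a b hab ha hb
    have hb' : b ∈ st Γ v := by
      by_contra hb'
      exact hb ⟨hK a b ha.1 ha.2 hb' hab, hb'⟩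
    have h1 := hc b hb'
    have h2 : c⁻¹ * gen b = gen b * c⁻¹ := by
      rw [inv_mul_eq_iff_eq_mul, ← mul_assoc, h1, mul_assoc, mul_inv_cancel, mul_one]
    have h3 : (gen a : RA Γ) * gen b = gen b * gen a := gen_comm hab
    calc (c * gen a * c⁻¹) * gen b = c * gen a * (c⁻¹ * gen b) := by group
      _ = c * (gen a * gen b) * c⁻¹ := by rw [h2]; group
      _ = (c * gen b) * gen a * c⁻¹ := by rw [h3]; group
      _ = gen b * (c * gen a * c⁻¹) := by rw [h1]; group
  intro a b hab
  show (if a ∈ K ∧ a ∉ st Γ v then c * gen a * c⁻¹ else gen a) *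
      (if b ∈ K ∧ b ∉ st Γ v then c * gen b * c⁻¹ else gen b) =
    (if b ∈ K ∧ b ∉ st Γ v then c * gen b * c⁻¹ else gen b) *
      (if a ∈ K ∧ a ∉ st Γ v then c * gen a * c⁻¹ else gen a)
  by_cases ha : a ∈ K ∧ a ∉ st Γ v
  · rw [if_pos ha]
    by_cases hb : b ∈ K ∧ b ∉ st Γ v
    · rw [if_pos hb]
      have h3 : (gen a : RA Γ) * gen b = gen b * gen a := gen_comm hab
      calc (c * gen a * c⁻¹) * (c * gen b * c⁻¹) = c * (gen a * gen b) * c⁻¹ := by group
        _ = (c * gen b * c⁻¹) * (c * gen a * c⁻¹) := by rw [h3]; group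
    · rw [if_neg hb]
      exact key a b hab ha hb
  · rw [if_neg ha]
    by_cases hb : b ∈ K ∧ b ∉ st Γ v
    · rw [if_pos hb]
      exact (key b a hab.symm hb ha).symm
    · rw [if_neg hb]
      exact gen_comm hab

theorem noSep_of_out (h : ((MulAut.conj : RA Γ →* MulAut (RA Γ)).range).FiniteIndex) : NoSep Γ := by
  intro v K hK a b haK hav hbv
  by_contra hbK
  have hc1 : ∀ u, u ∈ st Γ v → (gen v : RA Γ) * gen u = gen u * gen v := fun u hu => o01_gen_st hu
  have hc2 : ∀ u, u ∈ st Γ v → (gen v : RA Γ)⁻¹ * gen u = gen u * (gen v)⁻¹ := by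
    intro u hu
    have := hc1 u hu
    rw [inv_mul_eq_iff_eq_mul, ← mul_assoc, this, mul_assoc, mul_inv_cancel, mul_one]
  obtain ⟨F, hF⟩ := o01_pconj hK (gen v) hc1
  obtain ⟨G, hG⟩ := o01_pconj hK (gen v)⁻¹ hc2
  have hvv : ¬ (v ∈ K ∧ v ∉ st Γ v) := fun hh => hh.2 (Or.inl rfl)
  have hFv : F (gen v) = gen v := by rw [hF, if_neg hvv]
  have hGv : G (gen v) = gen v := by rw [hG, if_neg hvv]
  obtain ⟨t, ht⟩ := o01_aut F G
    (fun u => by
      by_cases hu : u ∈ K ∧ u ∉ st Γ v
      · rw [hF, if_pos hu, map_mul, map_mul, map_inv, hGv, hG, if_pos hu]; group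
      · rw [hF, if_neg hu, hG, if_neg hu])
    (fun u => by
      by_cases hu : u ∈ K ∧ u ∉ st Γ v
      · rw [hG, if_pos hu]; simp only [map_mul, map_inv]; rw [hFv, hF, if_pos hu]; group
      · rw [hG, if_neg hu, hF, if_neg hu])
  have htv : ∀ n : ℕ, (t ^ n) (gen v) = gen v := by
    intro n
    induction n with
    | zero => rfl
    | succ n ih => rw [pow_succ, MulAut.mul_apply, ht, hFv, ih]
  have hFa : F (gen a) = gen v * gen a * (gen v)⁻¹ := by rw [hF, if_pos ⟨haK, hav⟩]
  have hFb : F (gen b) = gen b := by rw [hF, if_neg (fun hh => hbK hh.1)]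
  have hta : ∀ n : ℕ, (t ^ n) (gen a) = gen v ^ n * gen a * (gen v ^ n)⁻¹ := by
    intro n
    induction n with
    | zero => simp
    | succ n ih =>
      rw [pow_succ t, MulAut.mul_apply, ht, hFa, map_mul, map_mul, map_inv, htv, ih, pow_succ' (gen v)]
      group
  have htb : ∀ n : ℕ, (t ^ n) (gen b) = gen b := by
    intro n
    induction n with
    | zero => rfl
    | succ n ih => rw [pow_succ, MulAut.mul_apply, ht, hFb, ih]
  obtain ⟨n, hn0, -, g, hg⟩ := Subgroup.exists_pow_mem_of_index_ne_zero h.index_ne_zero t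
  have h1 : g * gen b * g⁻¹ = gen b := by
    rw [← MulAut.conj_apply, hg, htb]
  have h2 : g * gen a * g⁻¹ = gen v ^ n * gen a * (gen v ^ n)⁻¹ := by
    rw [← hta n, ← hg, MulAut.conj_apply]
  have h3 : g ∈ PP Γ (st Γ b) := by
    refine cen_gen (n := 1) one_ne_zero ?_
    rw [zpow_one]
    exact mul_inv_eq_iff_eq_mul.1 h1
  have h4 : (gen v ^ n)⁻¹ * g ∈ PP Γ (st Γ a) := by
    refine cen_gen (n := 1) one_ne_zero ?_
    rw [zpow_one]
    have h5 : g * gen a = gen v ^ n * gen a * (gen v ^ n)⁻¹ * g := mul_inv_eq_iff_eq_mul.1 h2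
    rw [mul_assoc, h5]
    group
  have hva : v ∉ st Γ a := by
    rintro (e | e)
    · exact hav (Or.inl e.symm)
    · exact hav (Or.inr e.symm)
  have hvb : v ∉ st Γ b := by
    rintro (e | e)
    · exact hbv (Or.inl e.symm)
    · exact hbv (Or.inr e.symm)
  have h6 := ab_pp hvb h3
  have h7 := ab_pp hva h4
  rw [map_mul, h6, mul_one, map_inv, map_pow, ab_gen, if_pos rfl, inv_eq_one] at h7
  exact absurd (o01_ofAdd_pow n h7) (by omega)

end

end RaagIso
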