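import Pool.Agent.Lib.MP_32d917_al.Final
import Pool.Agent.Lib.MP_32d917_al_raag.C04
import Pool.Agent.Lib.MP_32d917_al_raag.C05
import Pool.Agent.Lib.MP_32d917_al_raag.C06
import Pool.Agent.Lib.MP_32d917_al_raag.C07
import Pool.Agent.Lib.MP_32d917_al_raag.C08
import Pool.Agent.Lib.MP_32d917_al_raag.C09
import Pool.Agent.Lib.MP_32d917_al_raag.B03
import Pool.Agent.Lib.MP_32d917_al_raag.B04
import Pool.Agent.Lib.MP_32d917_al_raag.O01

/-!
# The isomorphism problem for subgroups of finite index of right-angled Artin groups with finite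
outer automorphism group: assembly
-/

set_option autoImplicit false
set_option synthInstance.maxSize 2000

namespace RaagIso

open LatIso AdmIso

/-- the class of groups -/
def IsCls (G : Type) [Group G] : Prop :=
  ∃ (V : Type) (_ : Finite V) (Γ : SimpleGraph V) (H : Subgroup (RA Γ)),
    ((MulAut.conj : RA Γ →* MulAut (RA Γ)).range).FiniteIndex ∧ H.FiniteIndex ∧
      Nonempty (G ≃* H)

/-- the trivial presentation -/
def P0 : Pres := (0, [])

/-- the presentation of the infinite cyclic group -/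
def P1 : Pres := (1, [])

theorem p0_sub : Subsingleton P0.Grp := by
  have h : ∀ x : P0.Grp, x = 1 := by
    intro x
    obtain ⟨y, rfl⟩ := PresentedGroup.mk_surjective P0.rels x
    induction y using FreeGroup.induction_on with
    | C1 => exact map_one _
    | of i => exact PresentedGroup.one_of_mem (Or.inr ⟨i, Nat.zero_le _, rfl⟩)
    | inv_of i h => rw [map_inv, h, inv_one]
    | mul x y hx hy => rw [map_mul, hx, hy, mul_one]
  exact ⟨fun x y => by rw [h x, h y]⟩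

theorem p1_iso : Nonempty (P1.Grp ≃* Multiplicative ℤ) := by
  let f0 : ℕ → Multiplicative ℤ := fun i => if i = 0 then Multiplicative.ofAdd 1 else 1
  have hf0 : ∀ r ∈ P1.rels, FreeGroup.lift f0 r = 1 := by
    rintro r (⟨w, hw, rfl⟩ | ⟨i, hi, rfl⟩)
    · simp [P1] at hw
    · rw [FreeGroup.lift_apply_of]
      have : i ≠ 0 := by
        intro h
        rw [h] at hi
        exact absurd hi (by decide)
      simp [f0, this]
  let F : P1.Grp →* Multiplicative ℤ := PresentedGroup.toGroup hf0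
  let G : Multiplicative ℤ →* P1.Grp := zpowersHom P1.Grp (PresentedGroup.of 0)
  have hF : F (PresentedGroup.of 0) = Multiplicative.ofAdd 1 := by
    show PresentedGroup.toGroup hf0 _ = _
    rw [PresentedGroup.toGroup.of]
    simp [f0]
  have h1 : G.comp F = MonoidHom.id _ := by
    apply PresentedGroup.ext
    intro i
    by_cases hi : i = 0
    · subst hi
      show G (F (PresentedGroup.of 0)) = PresentedGroup.of 0
      rw [hF]
      simp [G]
    · have h2 : (PresentedGroup.of i : P1.Grp) = 1 :=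
        PresentedGroup.one_of_mem (Or.inr ⟨i, Nat.one_le_iff_ne_zero.2 hi, rfl⟩)
      rw [h2, map_one, map_one]
  have h2 : F.comp G = MonoidHom.id _ := by
    apply MonoidHom.ext_mint
    show F (G (Multiplicative.ofAdd 1)) = Multiplicative.ofAdd 1
    have : G (Multiplicative.ofAdd 1) = PresentedGroup.of 0 := by simp [G]
    rw [this, hF]
  exact ⟨MonoidHom.toMulEquiv F G h1 h2⟩

/-- small groups -/
def Sm (P : Pres) : Prop := Nonempty (P.Grp ≃* P0.Grp) ∨ Nonempty (P.Grp ≃* P1.Grp)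

theorem sm_comm {P : Pres} (h : Sm P) (x y : P.Grp) : x * y = y * x := by
  rcases h with h | h
  · obtain ⟨e⟩ := h
    have := p0_sub
    exact e.injective (Subsingleton.elim _ _)
  · obtain ⟨e⟩ := h
    obtain ⟨e'⟩ := p1_iso
    apply e.injective
    apply e'.injective
    rw [map_mul, map_mul, map_mul, map_mul, mul_comm]

/-- certificates of non-isomorphism -/
def NoCert (P Q : Pres) : Prop :=
  (Nonempty (P.Grp ≃* P0.Grp) ∧ Nonempty (Q.Grp ≃* P1.Grp)) ∨
  (Nonempty (P.Grp ≃* P1.Grp) ∧ Nonempty (Q.Grp ≃* P0.Grp)) ∨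
  (Sm P ∧ ∃ c, CodeFor Q c) ∨ (Sm Q ∧ ∃ c, CodeFor P c) ∨
  ∃ z : Cd × Cd, CodeFor P z.1 ∧ CodeFor Q z.2 ∧ ∀ t : Mt, InB z.1 t → ¬ GoodM z.1 z.2 t

theorem isoC_re (R : Pres) : REPred fun x : Pres => Nonempty (x.Grp ≃* R.Grp) :=
  re_comp iso_re (f := fun x : Pres => (x, R)) (Primrec.pair Primrec.id (Primrec.const R)).to_comp

theorem sm_re : REPred Sm := re_or (isoC_re P0) (isoC_re P1)

theorem exCode_re : REPred fun P : Pres => ∃ c, CodeFor P c :=
  re_exists (p := fun (P : Pres) (c : Cd) => CodeFor P c) codeFor_re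

theorem noCert_re : REPred fun x : Pres × Pres => NoCert x.1 x.2 := by
  have f1 : Computable (Prod.fst : Pres × Pres → Pres) := Computable.fst
  have f2 : Computable (Prod.snd : Pres × Pres → Pres) := Computable.snd
  have a0 := re_comp (isoC_re P0) f1
  have a1 := re_comp (isoC_re P1) f1
  have b0 := re_comp (isoC_re P0) f2
  have b1 := re_comp (isoC_re P1) f2
  have h1 := re_comp codeFor_re (f := fun x : (Pres × Pres) × (Cd × Cd) => (x.1.1, x.2.1))
    (Primrec.pair (Primrec.fst.comp Primrec.fst) (Primrec.fst.comp Primrec.snd)).to_comp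
  have h2 := re_comp codeFor_re (f := fun x : (Pres × Pres) × (Cd × Cd) => (x.1.2, x.2.2))
    (Primrec.pair (Primrec.snd.comp Primrec.fst) (Primrec.snd.comp Primrec.snd)).to_comp
  have h3 := re_comp noGood_re (f := fun x : (Pres × Pres) × (Cd × Cd) => x.2) Primrec.snd.to_comp
  have h4 := re_exists (p := fun (x : Pres × Pres) (z : Cd × Cd) =>
    CodeFor x.1 z.1 ∧ CodeFor x.2 z.2 ∧ ∀ t : Mt, InB z.1 t → ¬ GoodM z.1 z.2 t)
    (re_and h1 (re_and h2 h3))
  exact re_or (re_and a0 b1) (re_or (re_and a1 b0) (re_or (re_and (re_comp sm_re f1)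
    (re_comp exCode_re f2)) (re_or (re_and (re_comp sm_re f2) (re_comp exCode_re f1)) h4)))

theorem code_noncomm {P : Pres} {c : Cd} (h : CodeFor P c) : ∃ x y : P.Grp, x * y ≠ y * x := by
  obtain ⟨hv, z, hz⟩ := h
  obtain ⟨ρ, hρ⟩ := rho_exists c hv
  obtain ⟨-, ⟨e⟩⟩ := cert_sound hv hρ hz
  obtain ⟨x, y, hxy⟩ := noncomm (nodom_code hv) (two_code hv) (stb ρ 0) (stb_fin ρ 0)
  refine ⟨e.symm x, e.symm y, fun h => hxy ?_⟩
  have := congrArg e h
  rwa [map_mul, map_mul, e.apply_symm_apply, e.apply_symm_apply] at this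

theorem noCert_sound (P Q : Pres) (h : NoCert P Q) : ¬ Nonempty (P.Grp ≃* Q.Grp) := by
  rintro ⟨e⟩
  have key : ¬ Nonempty (P0.Grp ≃* P1.Grp) := by
    rintro ⟨e1⟩
    obtain ⟨e2⟩ := p1_iso
    have := p0_sub
    have h1 : (Multiplicative.ofAdd (1 : ℤ)) = 1 := by
      apply (e1.trans e2).symm.injective
      exact Subsingleton.elim _ _
    have h2 := congrArg Multiplicative.toAdd h1
    simp at h2
  rcases h with ⟨⟨a⟩, ⟨b⟩⟩ | ⟨⟨a⟩, ⟨b⟩⟩ | ⟨a, c, hc⟩ | ⟨a, c, hc⟩ | ⟨⟨c, c'⟩, hc, hc', hno⟩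
  · exact key ⟨a.symm.trans (e.trans b)⟩
  · exact key ⟨b.symm.trans (e.symm.trans a)⟩
  · obtain ⟨x, y, hxy⟩ := code_noncomm hc
    apply hxy
    apply e.symm.injective
    rw [map_mul, map_mul]
    exact sm_comm a _ _
  · obtain ⟨x, y, hxy⟩ := code_noncomm hc
    apply hxy
    apply e.injective
    rw [map_mul, map_mul]
    exact sm_comm a _ _
  · obtain ⟨hv, z, hz⟩ := hc
    obtain ⟨hv', z', hz'⟩ := hc'
    simp only at hv z hz hv' z' hz' hno
    obtain ⟨ρ, hρ⟩ := rho_exists c hv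
    obtain ⟨ρ', hρ'⟩ := rho_exists c' hv'
    obtain ⟨ht, ⟨i⟩⟩ := cert_sound hv hρ hz
    obtain ⟨ht', ⟨i'⟩⟩ := cert_sound hv' hρ' hz'
    obtain ⟨F, τ, la, hD⟩ := dt_of_iso (nodom_code hv) (nosep_code hv) (nodom_code hv')
      (nosep_code hv') (two_code hv) (two_code hv') ht ht' (i.symm.trans (e.trans i'))
    obtain ⟨t, ht, hg⟩ := good_of_dt hv hv' hρ hρ' hD
    exact hno t ht hg

theorem cls_cases (P : Pres) (h : IsCls P.Grp) :
    Nonempty (P.Grp ≃* P0.Grp) ∨ Nonempty (P.Grp ≃* P1.Grp) ∨ ∃ c, CodeFor P c := by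
  obtain ⟨V, _, Γ, H, ho, hH, ⟨e⟩⟩ := h
  by_cases h2 : ∃ a b : V, a ≠ b
  · right; right
    obtain ⟨c, hv, ρ, hρ, ht, ⟨i⟩⟩ := code_exists (noDom_of_out ho) (noSep_of_out ho) h2 H hH
    obtain ⟨z, hz⟩ := cert_complete hv hρ ht (e.trans i)
    exact ⟨c, hv, z, hz⟩
  · push Not at h2
    rcases small h2 H hH with h3 | h3
    · left
      have := p0_sub
      have h4 : Subsingleton P.Grp := e.toEquiv.subsingleton
      exact ⟨MonoidHom.toMulEquiv (1 : P.Grp →* P0.Grp) (1 : P0.Grp →* P.Grp)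
        (MonoidHom.ext fun _ => Subsingleton.elim _ _)
        (MonoidHom.ext fun _ => Subsingleton.elim _ _)⟩
    · right; left
      obtain ⟨i⟩ := h3
      obtain ⟨j⟩ := p1_iso
      exact ⟨e.trans (i.trans j.symm)⟩

theorem noCert_complete (P Q : Pres) (hP : IsCls P.Grp) (hQ : IsCls Q.Grp)
    (h : ¬ Nonempty (P.Grp ≃* Q.Grp)) : NoCert P Q := by
  rcases cls_cases P hP with a | a | ⟨c, hv, z, hz⟩ <;> rcases cls_cases Q hQ with b | b | ⟨c', hv', z', hz'⟩
  · exact absurd (a.elim fun a => b.elim fun b => ⟨a.trans b.symm⟩) h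
  · exact Or.inl ⟨a, b⟩
  · exact Or.inr (Or.inr (Or.inl ⟨Or.inl a, c', hv', z', hz'⟩))
  · exact Or.inr (Or.inl ⟨a, b⟩)
  · exact absurd (a.elim fun a => b.elim fun b => ⟨a.trans b.symm⟩) h
  · exact Or.inr (Or.inr (Or.inl ⟨Or.inr a, c', hv', z', hz'⟩))
  · exact Or.inr (Or.inr (Or.inr (Or.inl ⟨Or.inl b, c, hv, z, hz⟩)))
  · exact Or.inr (Or.inr (Or.inr (Or.inl ⟨Or.inr b, c, hv, z, hz⟩)))
  · refine Or.inr (Or.inr (Or.inr (Or.inr ⟨(c, c'), ⟨hv, z, hz⟩, ⟨hv', z', hz'⟩, ?_⟩)))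
    intro t _ hg
    apply h
    obtain ⟨ρ, hρ⟩ := rho_exists c hv
    obtain ⟨ρ', hρ'⟩ := rho_exists c' hv'
    obtain ⟨ht, ⟨i⟩⟩ := cert_sound hv hρ hz
    obtain ⟨ht', ⟨i'⟩⟩ := cert_sound hv' hρ' hz'
    obtain ⟨F, τ, la, hD⟩ := dt_of_good hv hv' hρ hρ' hg
    obtain ⟨j⟩ := iso_of_dt hD ht' 0 0
    exact ⟨i.trans (j.trans i'.symm)⟩

/-- The isomorphism problem is solvable for subgroups of finite index of right-angled Artin groups with
finite outer automorphism group. -/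
theorem final : ∃ f : Pres × Pres →. Bool, Partrec f ∧ ∀ P Q : Pres,
    IsCls P.Grp → IsCls Q.Grp → ∃ b ∈ f (P, Q), (b = true ↔ Nonempty (P.Grp ≃* Q.Grp)) := by
  obtain ⟨f, hf, h1, h2, h3⟩ := par_search iso_re noCert_re
  refine ⟨f, hf, fun P Q hP hQ => ?_⟩
  have g2 : true ∈ f (P, Q) → Nonempty (P.Grp ≃* Q.Grp) := fun h => h2 (P, Q) h
  have g3 : false ∈ f (P, Q) → NoCert P Q := fun h => h3 (P, Q) h
  have hd : (f (P, Q)).Dom := by
    apply h1
    by_cases h : Nonempty (P.Grp ≃* Q.Grp)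
    · exact Or.inl h
    · exact Or.inr (noCert_complete P Q hP hQ h)
  refine ⟨(f (P, Q)).get hd, Part.get_mem hd, ?_⟩
  have hm := Part.get_mem hd
  rcases hb : (f (P, Q)).get hd with _ | _
  · rw [hb] at hm
    have h4 := noCert_sound P Q (g3 hm)
    exact ⟨fun h => by simp at h, fun h => absurd h h4⟩
  · rw [hb] at hm
    exact ⟨fun _ => g2 hm, fun _ => rfl⟩

end RaagIso
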