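import Pool.Agent.Lib.MP_32d917_al.CODEB
import Pool.Agent.Lib.MP_32d917_al.PRES2
import Pool.Agent.Lib.MP_32d917_al_adm.CDefs
import Pool.Agent.Lib.MP_32d917_al_raag.BDefs

/-!
# Codes: definitions

A code `((k, m), a, p, q)` describes a graph with the vertices `0, ..., k` (adjacency: digits of `a` in
base two), and an action of its right-angled Artin group on the right on the points
`0, ..., m` (digits of `p`, and of `q` for the inverses of the generators).
-/

set_option autoImplicit false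

namespace RaagIso

open LatIso AdmIso

/-- codes -/
abbrev Cd : Type := (ℕ × ℕ) × ℕ × ℕ × ℕ

/-- number of vertices -/
abbrev cK (c : Cd) : ℕ := c.1.1 + 1

/-- number of points -/
abbrev cM (c : Cd) : ℕ := c.1.2 + 1

/-- adjacency -/
def AdN (c : Cd) (v w : ℕ) : Prop := ¬ v = w ∧
  (CB.dg 1 c.2.1 (v * cK c + w) = 1 ∨ CB.dg 1 c.2.1 (w * cK c + v) = 1)

instance (c : Cd) (v w : ℕ) : Decidable (AdN c v w) := by unfold AdN; infer_instance

/-- star -/
def StN (c : Cd) (v w : ℕ) : Prop := w = v ∨ AdN c v w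

instance (c : Cd) (v w : ℕ) : Decidable (StN c v w) := by unfold StN; infer_instance

/-- right multiplication by a generator -/
def rmN (c : Cd) (i v : ℕ) : ℕ := CB.dg c.1.2 c.2.2.1 (i * cK c + v)

/-- right multiplication by the inverse of a generator -/
def riN (c : Cd) (i v : ℕ) : ℕ := CB.dg c.1.2 c.2.2.2 (i * cK c + v)

/-- the graph of a code -/
def gr (c : Cd) : SimpleGraph (Fin (cK c)) where
  Adj v w := AdN c v w
  symm := by
    constructor
    intro v w h
    exact ⟨fun e => h.1 e.symm, h.2.symm⟩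
  loopless := by
    constructor
    intro v h
    exact h.1 rfl

/-- validity of codes -/
def ValN (c : Cd) : Prop :=
  1 ≤ c.1.1 ∧
  (∀ i < cM c, ∀ v < cK c, riN c (rmN c i v) v = i ∧ rmN c (riN c i v) v = i) ∧
  (∀ i < cM c, ∀ v < cK c, ∀ w < cK c, AdN c v w → rmN c (rmN c i v) w = rmN c (rmN c i w) v) ∧
  (∀ v < cK c, ∀ w < cK c, ¬ v = w → ∃ u < cK c, AdN c v u ∧ ¬ StN c w u) ∧
  (∀ v < cK c, ∀ s < 2 ^ cK c,
    (∀ a < cK c, ∀ b < cK c, CB.dg 1 s a = 1 → ¬ StN c v a → ¬ StN c v b → AdN c a b →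
      CB.dg 1 s b = 1) →
    ∀ a < cK c, ∀ b < cK c, CB.dg 1 s a = 1 → ¬ StN c v a → ¬ StN c v b → CB.dg 1 s b = 1)

/-- the action given by a code -/
def IsRho (c : Cd) (ρ : RA (gr c) →* Equiv.Perm (Fin (cM c))) : Prop :=
  ∀ (i : Fin (cM c)) (v : Fin (cK c)), ((rm ρ i (gen v) : Fin (cM c)) : ℕ) = rmN c i v

/-! ### Words -/

/-- value of a letter -/
def lt (c : Cd) (a : ℕ × Bool) : RA (gr c) := if h : a.1 < cK c then gl (⟨a.1, h⟩, a.2) else 1

/-- value of a word -/
def wv (c : Cd) (l : Wd) : RA (gr c) := (l.map (lt c)).prod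

/-- presentation of the right-angled Artin group -/
def RP (c : Cd) : Pres := (cK c, (List.range (cK c)).flatMap fun v =>
  (List.range (cK c)).flatMap fun w => if AdN c v w then [cmW v w] else [])

/-- action of a letter on the points -/
def stN (c : Cd) (i : ℕ) (a : ℕ × Bool) : ℕ :=
  if a.1 < cK c then (if a.2 = true then rmN c i a.1 else riN c i a.1) else i

/-- action of a word on the points -/
def runN (c : Cd) (i : ℕ) (l : Wd) : ℕ := l.foldl (stN c) i

/-- entry of a list of words indexed by points and vertices -/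
def xg (c : Cd) (x : List Wd) (i v : ℕ) : Wd := x.getD (i * cK c + v) []

/-- image of a letter at the point `i` -/
def xN (c : Cd) (x : List Wd) (i : ℕ) (a : ℕ × Bool) : Wd :=
  if a.1 < cK c then (if a.2 = true then xg c x i a.1
    else FreeGroup.invRev (xg c x (riN c i a.1) a.1)) else []

/-- one step of the lift -/
def lfN (c : Cd) (x : List Wd) (s : ℕ × Wd) (a : ℕ × Bool) : ℕ × Wd :=
  (stN c s.1 a, s.2 ++ xN c x s.1 a)

/-- the lift of a word starting at the point `i` -/
def liftN (c : Cd) (x : List Wd) (i : ℕ) (l : Wd) : Wd := (l.foldl (lfN c x) (i, [])).2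

/-- Certificates: the words `w` define a homomorphism from the group of `P` to the right-angled
Artin group, the words `x` define a cocycle with values in the group of `P`, the words `p` are paths
from the point `0` to the other points. -/
def Cert (c : Cd) (P : Pres) (z : List Wd × List Wd × List Wd) : Prop :=
  z.1.length ≤ P.1 ∧
  (∀ r ∈ P.2, TrivW (RP c) (sbw z.1 r)) ∧
  (∀ i < cM c, ∀ u < cK c, ∀ v < cK c, AdN c u v → TrivW P
    (xg c z.2.1 i u ++ xg c z.2.1 (rmN c i u) v ++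
      FreeGroup.invRev (xg c z.2.1 i v ++ xg c z.2.1 (rmN c i v) u))) ∧
  (∀ j < P.1, runN c 0 (z.1.getD j []) = 0 ∧
    TrivW P (liftN c z.2.1 0 (z.1.getD j []) ++ [(j, false)])) ∧
  z.2.2.getD 0 [] = [] ∧
  (∀ i < cM c, runN c 0 (z.2.2.getD i []) = i) ∧
  (∀ i < cM c, ∀ v < cK c, TrivW (RP c) (sbw z.1 (xg c z.2.1 i v) ++
    FreeGroup.invRev (z.2.2.getD i [] ++ [(v, true)] ++
      FreeGroup.invRev (z.2.2.getD (rmN c i v) []))))

/-- `c` is a code of the group presented by `P` -/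
def CodeFor (P : Pres) (c : Cd) : Prop := ValN c ∧ ∃ z : List Wd × List Wd × List Wd, Cert c P z

/-! ### Matchings -/

/-- matchings: digits of `F`, `τ`, `de`, `sn` -/
abbrev Mt : Type := ℕ × ℕ × ℕ × ℕ

/-- the modulus -/
def MM (c : Cd) : ℕ := (cM c).factorial

def FN (c : Cd) (t : Mt) (i : ℕ) : ℕ := CB.dg c.1.2 t.1 i
def tN (c : Cd) (t : Mt) (i v : ℕ) : ℕ := CB.dg c.1.1 t.2.1 (i * cK c + v)
def dN (c : Cd) (t : Mt) (i v : ℕ) : ℕ := CB.dg (MM c - 1) t.2.2.1 (i * cK c + v)
def sN (c : Cd) (t : Mt) (i v : ℕ) : ℕ := CB.dg 1 t.2.2.2 (i * cK c + v)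

/-- iterated right multiplication -/
def itN (c : Cd) (i v l : ℕ) : ℕ := (fun j => rmN c j v)^[l] i

/-- sums of the numbers `dN` -/
def sdN (c : Cd) (t : Mt) (i v n : ℕ) : ℕ := ∑ l ∈ Finset.range n, dN c t (itN c i v l) v

/-- combinatorial conditions -/
def MatN (c c' : Cd) (t : Mt) : Prop :=
  c'.1 = c.1 ∧
  (∀ i < cM c, ∀ j < cM c, FN c t i = FN c t j → i = j) ∧
  (∀ i < cM c, ∀ v < cK c, ∀ w < cK c, tN c t i v = tN c t i w → v = w) ∧
  (∀ i < cM c, ∀ v < cK c, ∀ w < cK c, (AdN c v w ↔ AdN c' (tN c t i v) (tN c t i w))) ∧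
  (∀ i < cM c, ∀ v < cK c, ∀ w < cK c, StN c v w → tN c t (rmN c i v) w = tN c t i w) ∧
  (∀ i < cM c, ∀ v < cK c, FN c t (rmN c i v) = itN c' (FN c t i) (tN c t i v) (dN c t i v)) ∧
  (∀ i < cM c, ∀ v < cK c, ∀ a < MM c, ∀ b < MM c, a < b →
    ¬ sdN c t i v a % MM c = sdN c t i v b % MM c)

/-- number of the unknown `ep i v` -/
def ix (c : Cd) (i v : ℕ) : ℕ := i * cK c + v

/-- equation for adjacent `v`, `w` at the point `i` -/
def rowL (c : Cd) (t : Mt) (i v w : ℕ) : List PI × PI :=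
  if AdN c v w then
    ((List.range (cM c * cK c)).map fun x =>
      (if x = ix c (rmN c i w) v then MM c else 0, if x = ix c i v then MM c else 0),
      (dN c t i v, dN c t (rmN c i w) v))
  else ([], (0, 0))

/-- equation for the sum over the powers of `v` at the point `i` -/
def rowS (c : Cd) (t : Mt) (i v : ℕ) : List PI × PI :=
  ((List.range (cM c * cK c)).map fun x =>
    (∑ l ∈ Finset.range (MM c), (if x = ix c (itN c i v l) v then MM c else 0), 0),
    (if sN c t i v = 1 then (MM c, sdN c t i v (MM c)) else (0, MM c + sdN c t i v (MM c))))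

/-- the linear system -/
def sysN (c : Cd) (t : Mt) : Sys :=
  (cM c * cK c, (List.range (cM c)).flatMap fun i => (List.range (cK c)).flatMap fun v =>
    rowS c t i v :: (List.range (cK c)).map fun w => rowL c t i v w)

/-- the matching is good -/
def GoodM (c c' : Cd) (t : Mt) : Prop := MatN c c' t ∧ Sol (sysN c t)

/-- bounds for matchings -/
def InB (c : Cd) (t : Mt) : Prop :=
  t.1 < cM c ^ cM c ∧ t.2.1 < cK c ^ (cM c * cK c) ∧
    t.2.2.1 < MM c ^ (cM c * cK c) ∧ t.2.2.2 < 2 ^ (cM c * cK c)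

end RaagIso
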