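import Pool.Agent.Lib.MP_32d917_al_raag.GDefs

/-!
# G01: homomorphisms defined by systems

Throughout `c.Valid` and `Sy c q0 X E T` (relations of a code). `ke c.ρ E` is a cocycle (`ke_spec` with `Sy.coc`), `c.kp u` is a cocycle (`ck_mul`), `cc_one` gives the values at `1`.

`sy_ke`: `T u q * ke E q x = ke E (β u q) (c.kp u q x) * T u (rm ρ q x)`, by `ra_ind` on `x`, for all `q`. Generators: `Sy.sym`, `ck_gen`. Products:
`ke E q (x * y) = ke E q x * ke E (rm ρ q x) y`, `ke E (β u q) (kp u q x * kp u (rm ρ q x) y) = ke E (β u q) (kp u q x) * ke E (rm ρ (β u q) (kp u q x)) (kp u (rm ρ q x) y)` and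
`rm ρ (β u q) (kp u q x) = β u (rm ρ q x)` (`ck_F`). Inverses: use the formula for `x` at the point `r = rm ρ q x⁻¹`, with `rm ρ r x = q`; `ke E q x⁻¹ = (ke E r x)⁻¹` since
`1 = ke E r (x * x⁻¹) = ke E r x * ke E q x⁻¹`, and in the same way `kp u q x⁻¹ = (kp u r x)⁻¹` and `ke E (β u q) (kp u q x⁻¹) = (ke E (β u r) (kp u r x))⁻¹`.

`sy_T1`: `Sy.mul` with `u = u' = 1` and `β 1 = 1` gives `T 1 q * T 1 q = T 1 q`.

`univ_hom`: the map `(a, u) ↦ ke E q0 a * T u q0` is multiplicative: `(a, u) * (a', u') = (a * kp u q0 a', u * u')`,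
`ke E q0 (a * kp u q0 a') = ke E q0 a * ke E (β u q0) (kp u q0 a')` (`rm ρ q0 a = β u q0`), `ke E (β u q0) (kp u q0 a') * T u (β u' q0) = T u q0 * ke E q0 a'` (`sy_ke`, with
`rm ρ q0 a' = β u' q0`), and `T (u * u') q0 = T u (β u' q0) * T u' q0`. Use `MonoidHom.mk'`.
-/

set_option autoImplicit false

namespace RaagIso

section

variable {V C D K : Type} [Group D] [Group K] {c : Cod V C D} {q0 : C} {X : C → RA c.Γ}
  {E : C → V → K} {T : D → C → K}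

/-- inverses in cocycles -/
theorem ke_inv {ρ : RA c.Γ →* Equiv.Perm C} {κ : C → RA c.Γ → K}
    (h : ∀ q g h, κ q (g * h) = κ q g * κ (rm ρ q g) h) (q : C) (x : RA c.Γ) :
    κ q x⁻¹ = (κ (rm ρ q x⁻¹) x)⁻¹ := by
  have h1 := h q x⁻¹ x
  rw [inv_mul_cancel, cc_one h] at h1
  exact eq_inv_of_mul_eq_one_left h1.symm

theorem sy_ke (h : c.Valid) (hS : Sy c q0 X E T) (u : D) (q : C) (x : RA c.Γ) :
    T u q * ke c.ρ E q x = ke c.ρ E (c.β u q) (c.kp u q x) * T u (rm c.ρ q x) := by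
  have hk := (ke_spec hS.coc).2
  have hg := (ke_spec hS.coc).1
  induction x using ra_ind generalizing q with
  | h1 => rw [cc_one hk, ck_one h, cc_one hk, rm_one, mul_one, one_mul]
  | hg v => rw [hg, ck_gen h, hS.sym]
  | hm x y hx hy =>
    rw [hk q x y, ← mul_assoc, hx, mul_assoc, hy, ck_mul h, hk (c.β u q), ← ck_F h, rm_mul,
      mul_assoc]
  | hi x hx =>
    have h1 := hx (rm c.ρ q x⁻¹)
    rw [← rm_mul, inv_mul_cancel, rm_one] at h1
    have h2 := ke_inv hk q x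
    have h3 := ke_inv (ck_kap h u).2 q x
    have h4 := ke_inv hk (c.β u (rm c.ρ q x⁻¹)) (c.kp u (rm c.ρ q x⁻¹) x)
    have h5 : ke c.ρ E (c.β u q) (c.kp u q x⁻¹) =
        (ke c.ρ E (c.β u (rm c.ρ q x⁻¹)) (c.kp u (rm c.ρ q x⁻¹) x))⁻¹ := by
      have h6 := ke_inv hk (c.β u q) (c.kp u (rm c.ρ q x⁻¹) x)
      rw [h3, h6]
      congr 2
      have h7 := ck_F h u (rm c.ρ q x⁻¹) x
      rw [← rm_mul, inv_mul_cancel, rm_one] at h7
      rw [h7, ← rm_mul, mul_inv_cancel, rm_one]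
    rw [h5, h2, eq_inv_mul_iff_mul_eq, ← mul_assoc, ← h1, mul_inv_cancel_right]

theorem sy_T1 (hS : Sy c q0 X E T) (q : C) : T 1 q = 1 := by
  have h1 := hS.mul 1 1 q
  rw [map_one, one_mul] at h1
  exact mul_eq_left.1 h1

theorem univ_hom (h : c.Valid) (hS : Sy c q0 X E T) :
    ∃ F : GC c h q0 →* K, ∀ p : GC c h q0, F p = ke c.ρ E q0 p.1.1 * T p.1.2 q0 := by
  refine ⟨MonoidHom.mk' (fun p => ke c.ρ E q0 p.1.1 * T p.1.2 q0) ?_, fun p => rfl⟩
  intro p r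
  have hk := (ke_spec hS.coc).2
  show ke c.ρ E q0 (p * r).1.1 * T (p * r).1.2 q0 =
    ke c.ρ E q0 p.1.1 * T p.1.2 q0 * (ke c.ρ E q0 r.1.1 * T r.1.2 q0)
  rw [gc_mul1, gc_mul2, hk, p.2, ← hS.mul, mul_assoc, mul_assoc, ← mul_assoc (T p.1.2 q0),
    sy_ke h hS, r.2, mul_assoc]

end

end RaagIso
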