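import Pool.Agent.Lib.MP_32d917_al_raag.G01

/-!
# G02: presentation of the group of a code
-/

set_option autoImplicit false

namespace RaagIso

section

variable {V C D : Type} [Group D] {c : Cod V C D}

theorem g02_back {Γ : SimpleGraph V} {ρ : RA Γ →* Equiv.Perm C} {q0 q : C} {x : RA Γ}
    (h : rm ρ q0 x = q) : rm ρ q x⁻¹ = q0 := by
  rw [← h, ← rm_mul, mul_inv_cancel, rm_one]

theorem g02_w {q0 : C} {X : C → RA c.Γ} (hX : ∀ q, rm c.ρ q0 (X q) = q) (q : C) (x : RA c.Γ) :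
    rm c.ρ q0 (X q * x * (X (rm c.ρ q x))⁻¹) = q0 := by
  rw [rm_mul, rm_mul, hX]
  exact g02_back (hX _)

/-- the generators `E q v` of the group of a code -/
theorem exists_ee (h : c.Valid) (q0 : C) (X : C → RA c.Γ) (hX : ∀ q, rm c.ρ q0 (X q) = q) :
    ∃ E : C → V → GC c h q0, Coc c.ρ E ∧ (∀ q x, (ke c.ρ E q x).1.1 = X q * x * (X (rm c.ρ q x))⁻¹ ∧
      (ke c.ρ E q x).1.2 = 1) ∧ ∀ q x, ke c.ρ E q x ∈
        Subgroup.closure (Set.range fun p : C × V => E p.1 p.2) := by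
  let ee : C → RA c.Γ → GC c h q0 := fun q x => ⟨(X q * x * (X (rm c.ρ q x))⁻¹, 1), by
    show rm c.ρ q0 (X q * x * (X (rm c.ρ q x))⁻¹) = c.β 1 q0
    rw [g02_w hX, map_one]
    rfl⟩
  have hee : ∀ q x y, ee q (x * y) = ee q x * ee (rm c.ρ q x) y := by
    intro q x y
    apply gc_ext
    · rw [gc_mul1]
      show X q * (x * y) * (X (rm c.ρ q (x * y)))⁻¹ = X q * x * (X (rm c.ρ q x))⁻¹ *
        c.kp 1 q0 (X (rm c.ρ q x) * y * (X (rm c.ρ (rm c.ρ q x) y))⁻¹)
      rw [ck_unit h, rm_mul]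
      group
    · rw [gc_mul2]
      exact (mul_one (1 : D)).symm
  have hc : Coc c.ρ (fun q v => ee q (gen v)) := by
    intro q v w hvw
    show ee q (gen v) * ee (rm c.ρ q (gen v)) (gen w) = ee q (gen w) * ee (rm c.ρ q (gen w)) (gen v)
    rw [← hee, ← hee, gen_comm hvw]
  have hk : ∀ q x, ke c.ρ (fun q v => ee q (gen v)) q x = ee q x := fun q x =>
    cc_ext (ke_spec hc).2 hee (fun q v => (ke_spec hc).1 q v) q x
  refine ⟨fun q v => ee q (gen v), hc, fun q x => ?_, fun q x => ?_⟩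
  · rw [hk]
    exact ⟨rfl, rfl⟩
  · induction x using ra_ind generalizing q with
    | h1 =>
      rw [cc_one (ke_spec hc).2]
      exact one_mem _
    | hg v =>
      rw [(ke_spec hc).1]
      exact Subgroup.subset_closure ⟨(q, v), rfl⟩
    | hm x y hx hy =>
      rw [(ke_spec hc).2]
      exact mul_mem (hx q) (hy _)
    | hi x hx =>
      rw [ke_inv (ke_spec hc).2]
      exact inv_mem (hx _)

/-- the group of a code has a presentation with the generators `E q v`, `T u q` and the relations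
in `Sy` -/
theorem gc_sys (h : c.Valid) (q0 : C) (X : C → RA c.Γ)
    (hX : ∀ q, rm c.ρ q0 (X q) = q) (hX0 : X q0 = 1) :
    ∃ (E : C → V → GC c h q0) (T : D → C → GC c h q0), Sy c q0 X E T ∧
      Subgroup.closure (Set.range (fun p : C × V => E p.1 p.2) ∪
        Set.range (fun p : D × C => T p.1 p.2)) = ⊤ ∧
      ∀ (K : Type) [Group K] (E' : C → V → K) (T' : D → C → K), Sy c q0 X E' T' →
        ∃ F : GC c h q0 →* K, (∀ q v, F (E q v) = E' q v) ∧ ∀ u q, F (T u q) = T' u q := by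
  obtain ⟨E, hc, hE, hcl⟩ := exists_ee h q0 X hX
  have hb : ∀ u q, rm c.ρ (c.β u q) (c.kp u q0 (X q))⁻¹ = c.β u q0 := by
    intro u q
    apply g02_back
    rw [← ck_F h, hX]
  have hE1 : ∀ q v, (E q v).1.1 = X q * gen v * (X (rm c.ρ q (gen v)))⁻¹ := by
    intro q v
    rw [← (ke_spec hc).1 q v]
    exact (hE q (gen v)).1
  have hE2 : ∀ q v, (E q v).1.2 = 1 := by
    intro q v
    rw [← (ke_spec hc).1 q v]
    exact (hE q (gen v)).2
  let T : D → C → GC c h q0 := fun u q => ⟨(X (c.β u q) * (c.kp u q0 (X q))⁻¹, u), by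
    show rm c.ρ q0 (X (c.β u q) * (c.kp u q0 (X q))⁻¹) = c.β u q0
    rw [rm_mul, hX, hb]⟩
  have hT1 : ∀ u q, (T u q).1.1 = X (c.β u q) * (c.kp u q0 (X q))⁻¹ := fun _ _ => rfl
  have hT2 : ∀ u q, (T u q).1.2 = u := fun _ _ => rfl
  have hS : Sy c q0 X E T := by
    refine ⟨hc, ?_, ?_, ?_⟩
    · intro u q v
      apply gc_ext
      · rw [gc_mul1, gc_mul1, hT1, hT1, hT2, hE1, (hE _ _).1, (hE _ _).2, ck_unit h, ← ck_gen h,
          ← ck_F h, ck_mul h, ck_mul h, hX, rm_mul, hX]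
        have e1 : c.kp u (rm c.ρ q (gen v)) (X (rm c.ρ q (gen v)))⁻¹ =
            (c.kp u q0 (X (rm c.ρ q (gen v))))⁻¹ := by
          rw [ke_inv (ck_kap h u).2, g02_back (hX _)]
        rw [e1]
        group
      · rw [gc_mul2, gc_mul2]
        exact (congrArg (fun z => u * z) (hE2 q v)).trans ((mul_one u).trans
          ((one_mul u).symm.trans (congrArg (fun z => z * u) (hE _ _).2.symm)))
    · intro u u' q
      apply gc_ext
      · rw [gc_mul1, hT1, hT1, hT1, hT2, ck_mul h, hX]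
        have e1 : c.kp u (c.β u' q) (c.kp u' q0 (X q))⁻¹ = (c.kp (u * u') q0 (X q))⁻¹ := by
          rw [ke_inv (ck_kap h u).2, hb, ck_comp h]
        rw [e1, map_mul, Equiv.Perm.mul_apply]
        group
      · rw [gc_mul2, hT2, hT2, hT2]
    · intro q
      apply gc_ext
      · rw [(hE _ _).1, hX, hX0, one_mul, mul_inv_cancel, gc_one1]
      · rw [(hE _ _).2, gc_one2]
  refine ⟨E, T, hS, ?_, ?_⟩
  · rw [eq_top_iff]
    intro p _
    have e1 : p = ke c.ρ E q0 p.1.1 * T p.1.2 q0 := by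
      apply gc_ext
      · rw [gc_mul1, (hE _ _).1, (hE _ _).2, ck_unit h, hT1, hX0, ck_one h, p.2]
        group
      · rw [gc_mul2, (hE _ _).2, hT2, one_mul]
    rw [e1]
    refine mul_mem ?_ (Subgroup.subset_closure (Or.inr ⟨(p.1.2, q0), rfl⟩))
    exact Subgroup.closure_mono Set.subset_union_left (hcl _ _)
  · intro K _ E' T' hS'
    obtain ⟨F, hF⟩ := univ_hom h hS'
    have hk := (ke_spec hS'.coc).2
    refine ⟨F, fun q v => ?_, fun u q => ?_⟩
    · rw [hF, hE1, hE2, hk, hk, hS'.tree, hX, rm_mul, hX, ke_inv hk, g02_back (hX _), hS'.tree,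
        sy_T1 hS', (ke_spec hS'.coc).1]
      simp
    · rw [hF, hT1, hT2, hk, hS'.tree, hX, ke_inv hk, hb]
      have e1 := sy_ke h hS' u q0 (X q)
      rw [hS'.tree, mul_one, hX] at e1
      rw [e1, one_mul, inv_mul_cancel_left]

end

end RaagIso
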