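import Pool.Agent.Lib.MP_32d917_al_raag.G01

/-!
# G03: refinements have the same group
-/

set_option autoImplicit false

namespace RaagIso

section

variable {V C D R D1 : Type} [Group D] [Group D1]

theorem rm_map {Γ : SimpleGraph V} {ρ1 : RA Γ →* Equiv.Perm R} {ρ : RA Γ →* Equiv.Perm C}
    {a : R → C} (h : ∀ r v, a (rm ρ1 r (gen v)) = rm ρ (a r) (gen v)) (r : R) (x : RA Γ) :
    a (rm ρ1 r x) = rm ρ (a r) x := by
  induction x using ra_ind generalizing r with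
  | h1 => rw [rm_one, rm_one]
  | hg v => exact h r v
  | hm x y hx hy => rw [rm_mul, rm_mul, hy, hx]
  | hi x hx =>
    have h1 := hx (rm ρ1 r x⁻¹)
    rw [← rm_mul, inv_mul_cancel, rm_one] at h1
    rw [h1, ← rm_mul, mul_inv_cancel, rm_one]

theorem ref_sur {c1 : Cod V R D1} {c : Cod V C D} (h : c.Valid) {a : R → C} {π : D1 →* D}
    (hr : Ref c1 c a π) (r : R) : Function.Surjective a := by
  obtain ⟨Γ1, ρ1, β1, τ1, la1⟩ := c1
  obtain ⟨Γ0, ρ, β, τ, la⟩ := c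
  obtain rfl : Γ1 = Γ0 := hr.gr
  intro d
  obtain ⟨x, hx⟩ := h.trn (a r) d
  exact ⟨rm ρ1 r x, (rm_map hr.mv r x).trans hx⟩

/-- refinements have isomorphic groups -/
theorem ref_iso {c1 : Cod V R D1} {c : Cod V C D} (h1 : c1.Valid) (h : c.Valid) {a : R → C}
    {π : D1 →* D} (hr : Ref c1 c a π) (r : R) : Nonempty (GC c1 h1 r ≃* GC c h (a r)) := by
  obtain ⟨Γ1, ρ1, β1, τ1, la1⟩ := c1
  obtain ⟨Γ0, ρ, β, τ, la⟩ := c
  obtain rfl : Γ1 = Γ0 := hr.gr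
  have hm : ∀ r x, a (rm ρ1 r x) = rm ρ (a r) x := fun r x => rm_map hr.mv r x
  have hk : ∀ (u : D1) (r : R) (x : RA Γ1),
      (⟨Γ1, ρ1, β1, τ1, la1⟩ : Cod V R D1).kp u r x =
        (⟨Γ1, ρ, β, τ, la⟩ : Cod V C D).kp (π u) (a r) x := by
    intro u r x
    refine cc_ext (ρ := ρ1) (κ := fun r x => (⟨Γ1, ρ1, β1, τ1, la1⟩ : Cod V R D1).kp u r x)
      (κ' := fun r x => (⟨Γ1, ρ, β, τ, la⟩ : Cod V C D).kp (π u) (a r) x) ?_ ?_ ?_ r x
    · intro r x y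
      exact ck_mul h1 u r x y
    · intro r x y
      show (⟨Γ1, ρ, β, τ, la⟩ : Cod V C D).kp (π u) (a r) (x * y) = _
      rw [ck_mul h]
      show _ * (⟨Γ1, ρ, β, τ, la⟩ : Cod V C D).kp (π u) (rm ρ (a r) x) y = _
      rw [← hm]
    · intro r v
      show (⟨Γ1, ρ1, β1, τ1, la1⟩ : Cod V R D1).kp u r (gen v) =
        (⟨Γ1, ρ, β, τ, la⟩ : Cod V C D).kp (π u) (a r) (gen v)
      have e1 := ck_gen h1 u r v
      have e2 := ck_gen h (π u) (a r) v
      rw [e1, e2]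
      have e3 : τ1 u r v = τ (π u) (a r) v := hr.tau u r v
      have e4 : la1 u r v = la (π u) (a r) v := hr.lam u r v
      show gen (τ1 u r v) ^ la1 u r v = gen (τ (π u) (a r) v) ^ la (π u) (a r) v
      rw [e3, e4]
  have he : ∀ u r, a (β1 u r) = β (π u) (a r) := hr.eqv
  let f : GC (⟨Γ1, ρ1, β1, τ1, la1⟩ : Cod V R D1) h1 r →
      GC (⟨Γ1, ρ, β, τ, la⟩ : Cod V C D) h (a r) := fun p => ⟨(p.1.1, π p.1.2), by
    show rm ρ (a r) p.1.1 = β (π p.1.2) (a r)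
    rw [← hm, ← he]
    exact congrArg a p.2⟩
  have hf : ∀ p q, f (p * q) = f p * f q := by
    intro p q
    apply gc_ext
    · show (p * q).1.1 = _
      rw [gc_mul1, gc_mul1, hk]
    · show π (p * q).1.2 = _
      rw [gc_mul2, gc_mul2, map_mul]
  refine ⟨MulEquiv.ofBijective (MonoidHom.mk' f hf) ⟨?_, ?_⟩⟩
  · rw [injective_iff_map_eq_one]
    intro p hp
    have e1 : p.1.1 = 1 := congrArg (fun z => z.1.1) hp
    have e2 : π p.1.2 = 1 := congrArg (fun z => z.1.2) hp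
    have e3 : β1 p.1.2 r = r := by
      have e4 : rm ρ1 r p.1.1 = β1 p.1.2 r := p.2
      rw [e1, rm_one] at e4
      exact e4.symm
    exact gc_ext e1 (hr.free _ _ e2 e3)
  · intro p
    obtain ⟨d0, hd0⟩ := hr.sur p.1.2
    have e1 : a (rm ρ1 r p.1.1) = a (β1 d0 r) := by
      rw [hm, he, hd0]
      exact p.2
    obtain ⟨z, hz, hz'⟩ := hr.tr _ _ e1.symm
    refine ⟨⟨(p.1.1, z * d0), ?_⟩, ?_⟩
    · show rm ρ1 r p.1.1 = β1 (z * d0) r
      rw [map_mul, Equiv.Perm.mul_apply]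
      exact hz'.symm
    · apply gc_ext
      · rfl
      · show π (z * d0) = p.1.2
        rw [map_mul, hz, one_mul, hd0]

end

end RaagIso
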