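import Pool.Agent.Lib.MP_32d917_al_raag.G01

/-!
# G04: similar codes have isomorphic groups

Let `κ = kp c.ρ τ la : C → RA c.Γ → RA c'.Γ`, `Kap c.ρ τ la κ` (`kp_kap`, `exists_kap` with `Sim.dt`).

`sim_comp`: `κ (c.β u q) (c.kp u q x) = c'.kp (ψ u) (F q) (κ q x)`: `cc_ext` over `c.ρ` for both sides as functions of `(q, x)`. Left side: cocycle by `ck_mul`, `Kap`, `ck_F`; right side: cocycle by `Kap`, `ck_mul` (for `c'`) and
`F (rm ρ q x) = rm ρ' (F q) (κ q x)` (`cc_F`). On generators: left `κ (β u q) (gen w ^ n) = gen (τ (β u q) w) ^ sh ... n` with `w = c.τ u q v`, `n = c.la u q v` (`ck_gen`, `cc_line`); right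
`c'.kp (ψ u) (F q) (gen (τ q v) ^ la q v) = gen (c'.τ (ψ u) (F q) (τ q v)) ^ sh ... (la q v)` (`ck_line`); they are equal by `Sim.tau`, `Sim.lam`.

`sim_iso`: the map `GC c h q → GC c' h' (F q)`, `(x, u) ↦ (κ q x, ψ u)`. Well defined: `rm ρ' (F q) (κ q x) = F (rm ρ q x) = F (β u q) = β' (ψ u) (F q)`. Homomorphism:
`κ q (x * kp u q x') = κ q x * κ (β u q) (kp u q x')` and `sim_comp`. Bijective: `cc_inj`, `cc_surj`; if `rm ρ' (F q) y = β' u' (F q)`, `y = κ q x`, `u' = ψ u` then `F (rm ρ q x) = F (β u q)`.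
-/

set_option autoImplicit false

namespace RaagIso

section

variable {V V' C C' D D' : Type} [Group D] [Group D'] {c : Cod V C D} {c' : Cod V' C' D'}
  {F : C ≃ C'} {ψ : D ≃* D'} {τ : C → V ≃ V'} {la : C → V → ℤ}

theorem sim_comp (h : c.Valid) (h' : c'.Valid) (hs : Sim c c' F ψ τ la)
    {κ : C → RA c.Γ → RA c'.Γ} (hκ : Kap c.ρ τ la κ) (u : D) (q : C) (x : RA c.Γ) :
    κ (c.β u q) (c.kp u q x) = c'.kp (ψ u) (F q) (κ q x) := by
  refine cc_ext (ρ := c.ρ) (κ := fun q x => κ (c.β u q) (c.kp u q x))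
    (κ' := fun q x => c'.kp (ψ u) (F q) (κ q x)) ?_ ?_ ?_ q x
  · intro q x y
    show κ (c.β u q) (c.kp u q (x * y)) = _
    rw [ck_mul h, hκ.2, ← ck_F h]
  · intro q x y
    show c'.kp (ψ u) (F q) (κ q (x * y)) = _
    rw [hκ.2, ck_mul h', ← cc_F hs.dt hκ]
  · intro q v
    show κ (c.β u q) (c.kp u q (gen v)) = c'.kp (ψ u) (F q) (κ q (gen v))
    rw [ck_gen h, cc_line hs.dt hκ, hκ.1, ck_line h', hs.tau, hs.lam]

/-- similar codes have isomorphic groups -/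
theorem sim_iso (h : c.Valid) (h' : c'.Valid) (hs : Sim c c' F ψ τ la) (q : C) :
    Nonempty (GC c h q ≃* GC c' h' (F q)) := by
  obtain ⟨κ, hκ⟩ := exists_kap hs.dt
  have hw : ∀ p : GC c h q, rm c'.ρ (F q) (κ q p.1.1) = c'.β (ψ p.1.2) (F q) := by
    intro p
    rw [← cc_F hs.dt hκ, p.2, hs.eqv]
  let f : GC c h q → GC c' h' (F q) := fun p => ⟨(κ q p.1.1, ψ p.1.2), hw p⟩
  have hf : ∀ p r, f (p * r) = f p * f r := by
    intro p r
    apply gc_ext
    · show κ q (p * r).1.1 = κ q p.1.1 * c'.kp (ψ p.1.2) (F q) (κ q r.1.1)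
      rw [gc_mul1, hκ.2, p.2, sim_comp h h' hs hκ]
    · show ψ (p * r).1.2 = ψ p.1.2 * ψ r.1.2
      rw [gc_mul2, map_mul]
  have hb : Function.Bijective f := by
    constructor
    · intro p r hpr
      have h1 : κ q p.1.1 = κ q r.1.1 := congrArg (fun t : GC c' h' (F q) => t.1.1) hpr
      have h2 : ψ p.1.2 = ψ r.1.2 := congrArg (fun t : GC c' h' (F q) => t.1.2) hpr
      exact gc_ext (cc_inj hs.dt hκ q h1) (ψ.injective h2)
    · intro r
      obtain ⟨x, hx⟩ := cc_surj hs.dt hκ q r.1.1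
      obtain ⟨u, hu⟩ := ψ.surjective r.1.2
      have h1 : rm c.ρ q x = c.β u q := by
        apply F.injective
        rw [cc_F hs.dt hκ, hx, r.2, hs.eqv, hu]
      refine ⟨⟨(x, u), h1⟩, gc_ext hx hu⟩
  exact ⟨MulEquiv.ofBijective (MonoidHom.mk' f hf) hb⟩

end

end RaagIso
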