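import Pool.Agent.Lib.MP_32d917_al_raag.G01

/-!
# G05: change of the base point

Let `rm ρ q x = q'` (`Trn`). The map `GC c h q → GC c h q'`, `(a, u) ↦ (x⁻¹ * a * kp u q x, u)`. Well defined: `rm ρ q' (x⁻¹ * a * kp u q x) = rm ρ q (a * kp u q x) = rm ρ (β u q) (kp u q x) = β u q'` (`ck_F`).
Homomorphism: `(a, u) * (a', u') = (a * kp u q a', u * u')`. `kp u q' (x⁻¹ * a' * kp u' q x) = kp u q' x⁻¹ * kp u q a' * kp u (β u' q) (kp u' q x)` (`ck_mul`, `rm ρ q' x⁻¹ = q`, `rm ρ q a' = β u' q`), where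
`kp u q' x⁻¹ = (kp u q x)⁻¹` (`ke_inv`) and `kp u (β u' q) (kp u' q x) = kp (u * u') q x` (`ck_comp`). So the product of the images is
`x⁻¹ * a * kp u q x * (kp u q x)⁻¹ * kp u q a' * kp (u * u') q x`. Bijective: for fixed `u` it is `a ↦ x⁻¹ * a * y`; for surjectivity: `(b, u)` with `rm ρ q' b = β u q'` is the image of `a = x * b * (kp u q x)⁻¹`, and
`rm ρ q a = rm ρ (rm ρ q' b) (kp u q x)⁻¹ = rm ρ (β u q') (kp u q x)⁻¹ = β u q` because `rm ρ (β u q) (kp u q x) = β u q'`.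
-/

set_option autoImplicit false

namespace RaagIso

section

variable {V C D : Type} [Group D] {c : Cod V C D}

theorem gc_base (h : c.Valid) (q q' : C) : Nonempty (GC c h q ≃* GC c h q') := by
  obtain ⟨x, hx⟩ := h.trn q q'
  have hxi : rm c.ρ q' x⁻¹ = q := by
    rw [← hx, ← rm_mul, mul_inv_cancel, rm_one]
  have hu : ∀ u : D, rm c.ρ (c.β u q) (c.kp u q x) = c.β u q' := by
    intro u
    rw [← ck_F h, hx]
  have hw : ∀ p : GC c h q, rm c.ρ q' (x⁻¹ * p.1.1 * c.kp p.1.2 q x) = c.β p.1.2 q' := by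
    intro p
    rw [rm_mul, rm_mul, hxi, p.2, hu]
  let f : GC c h q → GC c h q' := fun p => ⟨(x⁻¹ * p.1.1 * c.kp p.1.2 q x, p.1.2), hw p⟩
  have hi : ∀ u : D, c.kp u q' x⁻¹ = (c.kp u q x)⁻¹ := by
    intro u
    rw [ke_inv (c := c) (ρ := c.ρ) (κ := c.kp u) (ck_kap h u).2, hxi]
  have hf : ∀ p r, f (p * r) = f p * f r := by
    intro p r
    apply gc_ext
    · show x⁻¹ * (p * r).1.1 * c.kp (p * r).1.2 q x = x⁻¹ * p.1.1 * c.kp p.1.2 q x *
        c.kp p.1.2 q' (x⁻¹ * r.1.1 * c.kp r.1.2 q x)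
      rw [gc_mul1, gc_mul2, ck_mul h, ck_mul h, hi, hxi, rm_mul, hxi, r.2, ck_comp h]
      group
    · rfl
  have hb : Function.Bijective f := by
    constructor
    · intro p r hpr
      have h1 : x⁻¹ * p.1.1 * c.kp p.1.2 q x = x⁻¹ * r.1.1 * c.kp r.1.2 q x :=
        congrArg (fun t : GC c h q' => t.1.1) hpr
      have h2 : p.1.2 = r.1.2 := congrArg (fun t : GC c h q' => t.1.2) hpr
      rw [h2] at h1
      exact gc_ext (mul_left_cancel (mul_right_cancel h1)) h2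
    · intro r
      have h1 : rm c.ρ q (x * r.1.1 * (c.kp r.1.2 q x)⁻¹) = c.β r.1.2 q := by
        rw [rm_mul, rm_mul, hx, r.2, ← hu, ← rm_mul, mul_inv_cancel, rm_one]
      refine ⟨⟨(x * r.1.1 * (c.kp r.1.2 q x)⁻¹, r.1.2), h1⟩, gc_ext ?_ rfl⟩
      show x⁻¹ * (x * r.1.1 * (c.kp r.1.2 q x)⁻¹) * c.kp r.1.2 q x = r.1.1
      group
  exact ⟨MulEquiv.ofBijective (MonoidHom.mk' f hf) hb⟩

end

end RaagIso
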