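import Pool.Agent.Lib.MP_32d917_al_raag.B03
import Pool.Agent.Lib.MP_32d917_al_raag.E01

/-!
# G06: uniqueness of equivariant generalised isomorphisms

`gen_pow_eq`: `gen_pow_sup` gives `{v} = sup (gen v ^ n) = sup (gen w ^ m)`, where `m ≠ 0` (otherwise `gen v ^ n = 1`, `gen_zpow_inj` with `gen v ^ 0`), so `v = w`; then `gen_zpow_inj`.

`gi_line0`: `f (x * gen v ^ n) = f x * gen (τ x v) ^ k` with `k ≠ 0` for `n ≠ 0` (`gi_line`; `f` is injective and `x * gen v ^ n ≠ x` by `gen_zpow_inj`).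

`gi_unique`: let `x : RA Γ`, `v : V`. As `H` has finite index there is `n > 0` with `h = x * gen v ^ n * x⁻¹ ∈ H` (`(x * gen v * x⁻¹) ^ n`; `Subgroup.exists_pow_mem_of_index_ne_zero` or similar). `f i (x * gen v ^ n) = f i (h * x) = φ h * f i x`, and
`f i (x * gen v ^ n) = f i x * gen (τ i x v) ^ k i`, `k i ≠ 0`. So `φ h = f i x * gen (τ i x v) ^ k i * (f i x)⁻¹`. By `zpow_eq` (`conj_zpow`) and `conj_eq` `(f₁ x)⁻¹ * f₂ x ∈ PP Γ' (st Γ' (τ₁ x v))`. As `τ₁ x` is surjective this element is in all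
`PP Γ' (st Γ' v')`, so it is `1` by `center`.
-/

set_option autoImplicit false

namespace RaagIso

section

variable {V V' : Type} {Γ : SimpleGraph V} {Γ' : SimpleGraph V'}

theorem gen_pow_eq {v w : V} {n m : ℤ} (hn : n ≠ 0) (h : (gen v : RA Γ) ^ n = gen w ^ m) :
    v = w ∧ n = m := by
  have h1 : ((1 : RA Γ) * gen v * 1⁻¹) ^ n = (1 * gen w * 1⁻¹) ^ m := by
    rw [one_mul, inv_one, mul_one, one_mul, mul_one]
    exact h
  obtain ⟨h2, h3, -⟩ := zpow_eq hn h1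
  exact ⟨h3, h2⟩

theorem g06_ne (x : RA Γ) (v : V) {n : ℤ} (hn : n ≠ 0) : x * gen v ^ n ≠ x := by
  intro h
  have h1 : (gen v : RA Γ) ^ n = gen v ^ (0 : ℤ) := by
    rw [zpow_zero]
    exact mul_eq_left.mp h
  exact hn (gen_zpow_inj h1)

theorem gi_line0 {f : RA Γ → RA Γ'} (hf : Function.Injective f) {τ : RA Γ → V ≃ V'}
    {la : RA Γ → V → ℤ} (hG : GI Γ Γ' f τ la) (x : RA Γ) (v : V) {n : ℤ} (hn : n ≠ 0) :
    ∃ k : ℤ, k ≠ 0 ∧ f (x * gen v ^ n) = f x * gen (τ x v) ^ k := by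
  obtain ⟨k, hk⟩ := (gi_line hG x v n).2
  refine ⟨k, ?_, hk⟩
  intro h0
  rw [h0, zpow_zero, mul_one] at hk
  exact g06_ne x v hn (hf hk)

theorem gi_la {f : RA Γ → RA Γ'} (hf : Function.Injective f) {τ : RA Γ → V ≃ V'}
    {la : RA Γ → V → ℤ} (hG : GI Γ Γ' f τ la) (x : RA Γ) (v : V) : la x v ≠ 0 := by
  intro h0
  have h1 := hG.mul x v
  rw [h0, zpow_zero, mul_one] at h1
  have h2 := g06_ne x v (one_ne_zero)
  rw [zpow_one] at h2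
  exact h2 (hf h1)

theorem g06_phi {H : Subgroup (RA Γ)} {φ : H → RA Γ'} {f : RA Γ → RA Γ'}
    (hf : Function.Injective f) {τ : RA Γ → V ≃ V'} {la : RA Γ → V → ℤ} (hG : GI Γ Γ' f τ la)
    (he : ∀ (h : H) (x : RA Γ), f (h * x) = φ h * f x) (x : RA Γ) (v : V) {n : ℤ} (hn : n ≠ 0)
    (h : H) (hh : (h : RA Γ) = x * gen v ^ n * x⁻¹) :
    ∃ k : ℤ, k ≠ 0 ∧ φ h = (f x * gen (τ x v) * (f x)⁻¹) ^ k := by
  obtain ⟨k, hk0, hk⟩ := gi_line0 hf hG x v hn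
  refine ⟨k, hk0, ?_⟩
  have h1 := he h x
  rw [hh, inv_mul_cancel_right, hk] at h1
  rw [conj_zpow, h1, mul_inv_cancel_right]

theorem gi_unique (hN' : NoDom Γ') (h2' : ∃ a b : V', a ≠ b) (H : Subgroup (RA Γ))
    (hH : H.FiniteIndex) (φ : H → RA Γ') {f₁ f₂ : RA Γ → RA Γ'} (hf₁ : Function.Injective f₁)
    (hf₂ : Function.Injective f₂) {τ₁ τ₂ : RA Γ → V ≃ V'} {la₁ la₂ : RA Γ → V → ℤ}
    (hG₁ : GI Γ Γ' f₁ τ₁ la₁) (hG₂ : GI Γ Γ' f₂ τ₂ la₂)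
    (he₁ : ∀ (h : H) (x : RA Γ), f₁ (h * x) = φ h * f₁ x)
    (he₂ : ∀ (h : H) (x : RA Γ), f₂ (h * x) = φ h * f₂ x) (x : RA Γ) : f₁ x = f₂ x := by
  have key : ∀ v : V, (f₁ x)⁻¹ * f₂ x ∈ PP Γ' (st Γ' (τ₁ x v)) := by
    intro v
    obtain ⟨n, hn, -, hm⟩ := Subgroup.exists_pow_mem_of_index_ne_zero hH.index_ne_zero
      (x * gen v * x⁻¹)
    have hn' : (n : ℤ) ≠ 0 := by exact_mod_cast hn.ne'
    have hh : (((⟨(x * gen v * x⁻¹) ^ n, hm⟩ : H) : RA Γ)) = x * gen v ^ (n : ℤ) * x⁻¹ := by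
      show (x * gen v * x⁻¹) ^ n = _
      rw [conj_pow, zpow_natCast]
    obtain ⟨k₁, hk₁, e₁⟩ := g06_phi hf₁ hG₁ he₁ x v hn' _ hh
    obtain ⟨k₂, hk₂, e₂⟩ := g06_phi hf₂ hG₂ he₂ x v hn' _ hh
    obtain ⟨-, -, h3⟩ := zpow_eq hk₁ (e₁.symm.trans e₂)
    exact (conj_eq h3).2
  have h1 := center hN' h2' (x := (f₁ x)⁻¹ * f₂ x) (by
    intro v'
    have h2 := key ((τ₁ x).symm v')
    rwa [Equiv.apply_symm_apply] at h2)
  exact inv_mul_eq_one.1 h1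

/-- local data are determined by the map -/
theorem gi_data {f : RA Γ → RA Γ'} (hf : Function.Injective f) {τ₁ τ₂ : RA Γ → V ≃ V'}
    {la₁ la₂ : RA Γ → V → ℤ} {x : RA Γ}
    (h1 : ∀ v, f (x * gen v) = f x * gen (τ₁ x v) ^ la₁ x v)
    (h2 : ∀ v, f (x * gen v) = f x * gen (τ₂ x v) ^ la₂ x v) :
    τ₁ x = τ₂ x ∧ la₁ x = la₂ x := by
  have key : ∀ v, τ₁ x v = τ₂ x v ∧ la₁ x v = la₂ x v := by
    intro v
    have h0 : la₁ x v ≠ 0 := by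
      intro h0
      have h3 := h1 v
      rw [h0, zpow_zero, mul_one] at h3
      have h4 := g06_ne x v (one_ne_zero)
      rw [zpow_one] at h4
      exact h4 (hf h3)
    exact gen_pow_eq h0 (mul_left_cancel ((h1 v).symm.trans (h2 v)))
  exact ⟨Equiv.ext fun v => (key v).1, funext fun v => (key v).2⟩

end

end RaagIso
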