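import Pool.Agent.Lib.MP_32d917_al_raag.G06

/-!
# G06L: uniqueness for maps which preserve lines
-/

set_option autoImplicit false

namespace RaagIso

section

variable {V V' : Type} {Γ : SimpleGraph V} {Γ' : SimpleGraph V'}

/-- lines are mapped injectively to lines -/
def Lp (f : RA Γ → RA Γ') (τ : RA Γ → V ≃ V') : Prop :=
  ∀ x v (n : ℤ), n ≠ 0 → ∃ k : ℤ, k ≠ 0 ∧ f (x * gen v ^ n) = f x * gen (τ x v) ^ k

theorem lp_of_gi {f : RA Γ → RA Γ'} (hf : Function.Injective f) {τ : RA Γ → V ≃ V'}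
    {la : RA Γ → V → ℤ} (hG : GI Γ Γ' f τ la) : Lp f τ :=
  fun x v _ hn => gi_line0 hf hG x v hn

theorem lp_comp {V'' : Type} {Γ'' : SimpleGraph V''} {f : RA Γ → RA Γ'} {f' : RA Γ' → RA Γ''}
    {τ : RA Γ → V ≃ V'} {τ' : RA Γ' → V' ≃ V''} (h : Lp f τ) (h' : Lp f' τ') :
    Lp (fun x => f' (f x)) (fun x => (τ x).trans (τ' (f x))) := by
  intro x v n hn
  obtain ⟨k, hk, h1⟩ := h x v n hn
  obtain ⟨l, hl, h2⟩ := h' (f x) (τ x v) k hk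
  exact ⟨l, hl, (congrArg f' h1).trans h2⟩

theorem g06l_phi {H : Subgroup (RA Γ)} {φ : H → RA Γ'} {f : RA Γ → RA Γ'}
    {τ : RA Γ → V ≃ V'} (hL : Lp f τ) (he : ∀ (h : H) (x : RA Γ), f (h * x) = φ h * f x)
    (x : RA Γ) (v : V) {n : ℤ} (hn : n ≠ 0) (h : (x * gen v * x⁻¹) ^ n ∈ H) :
    ∃ k : ℤ, k ≠ 0 ∧ φ ⟨_, h⟩ = (f x * gen (τ x v) * (f x)⁻¹) ^ k := by
  obtain ⟨k, hk, h1⟩ := hL x v n hn
  refine ⟨k, hk, ?_⟩
  have h2 := he ⟨_, h⟩ x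
  have h3 : (x * gen v * x⁻¹) ^ n * x = x * gen v ^ n := by
    rw [conj_zpow]; group
  rw [h3, h1] at h2
  have h4 : φ ⟨_, h⟩ = f x * gen (τ x v) ^ k * (f x)⁻¹ := by
    rw [h2, mul_inv_cancel_right]
  rw [h4, conj_zpow]

theorem lp_unique (hN' : NoDom Γ') (h2' : ∃ a b : V', a ≠ b) (H : Subgroup (RA Γ))
    (hH : H.FiniteIndex) (φ : H → RA Γ') {f₁ f₂ : RA Γ → RA Γ'} {τ₁ τ₂ : RA Γ → V ≃ V'}
    (h₁ : Lp f₁ τ₁) (h₂ : Lp f₂ τ₂) (he₁ : ∀ (h : H) (x : RA Γ), f₁ (h * x) = φ h * f₁ x)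
    (he₂ : ∀ (h : H) (x : RA Γ), f₂ (h * x) = φ h * f₂ x) (x : RA Γ) : f₁ x = f₂ x := by
  have h5 : ∀ v', (f₁ x)⁻¹ * f₂ x ∈ PP Γ' (st Γ' v') := by
    intro v'
    obtain ⟨v, rfl⟩ := (τ₁ x).surjective v'
    obtain ⟨n, hn, -, hmem⟩ := Subgroup.exists_pow_mem_of_index_ne_zero hH.index_ne_zero
      (x * gen v * x⁻¹)
    have hn' : ((n : ℕ) : ℤ) ≠ 0 := by exact_mod_cast hn.ne'
    have hmem' : (x * gen v * x⁻¹) ^ ((n : ℕ) : ℤ) ∈ H := by rwa [zpow_natCast]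
    obtain ⟨k, hk, e1⟩ := g06l_phi h₁ he₁ x v hn' hmem'
    obtain ⟨l, hl, e2⟩ := g06l_phi h₂ he₂ x v hn' hmem'
    exact (conj_eq (zpow_eq hk (e1.symm.trans e2)).2.2).2
  have h6 := center hN' h2' h5
  rwa [inv_mul_eq_one] at h6

end

end RaagIso
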