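import Pool.Agent.Lib.MP_32d917_al_raag.GRDefs

/-!
# G07: realisations and groups of codes

`rz_kp`: by `ra_ind` on `y` for all `x`, with `ck_mul`, `ck_gen`, `Rz.mv`, `Rz.mul`; for inverses use the formula at the point `x * y⁻¹`.

`rz_iso`: `g ↦ (γ g 1, π g)`. Membership: `rm ρ (pt 1) (γ g 1) = pt (γ g 1) = β (π g) (pt 1)`. Homomorphism: `γ (g * g') 1 = γ g (γ g' 1) = γ g 1 * kp (π g) (pt 1) (γ g' 1)` (`rz_kp`). Injective: `Rz.inj`. Surjective: `(a, u)`,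
`u = π g`: `pt (γ g 1) = β u (pt 1) = rm ρ (pt 1) a = pt a`, so by `tr` there is `n` with `π n = 1`, `γ n (γ g 1) = a`; take `n * g`.

`gc_rz`: `γ p x = p.1.1 * kp p.1.2 q x`. `γ (p * r) x = γ p (γ r x)`: `ck_mul`, `r.2`, `ck_comp`; `γ 1 = id`: `ck_unit`. A monoid homomorphism into the functions which are composed gives a homomorphism into the permutations (`MonoidHom.toHomPerm`,
or define the permutation with the inverse `γ p⁻¹`). `Rz`: `sur` and `psur` from `Trn`; `mv` is `rm_mul`; `eqv` is `ck_F` and `p.2`; `mul` is `ck_mul`, `ck_gen`; `ker`, `inj`: `ck_unit`, `ck_one`; `tr`: `p = (y * x⁻¹, 1)`.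
-/

set_option autoImplicit false

namespace RaagIso

section

variable {V C D G : Type} [Group D] [Group G] {c : Cod V C D}

theorem rz_kp (h : c.Valid) {γ : G →* Equiv.Perm (RA c.Γ)} {pt : RA c.Γ → C} {π : G →* D}
    (hr : Rz c γ pt π) (g : G) (x y : RA c.Γ) : γ g (x * y) = γ g x * c.kp (π g) (pt x) y := by
  induction y using ra_ind generalizing x with
  | h1 => rw [mul_one, ck_one h, mul_one]
  | hg v => rw [hr.mul, ck_gen h]
  | hm y z hy hz => rw [← mul_assoc, hz, hy, ck_mul h, hr.mv, mul_assoc]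
  | hi y hy =>
    have h1 := hy (x * y⁻¹)
    rw [inv_mul_cancel_right] at h1
    have h2 := ck_mul h (π g) (pt x) y⁻¹ y
    rw [inv_mul_cancel, ck_one h, hr.mv] at h2
    rw [h1, mul_assoc, mul_eq_one_comm.1 h2.symm, mul_one]

/-- the group of a code is isomorphic to every group which realises it -/
theorem rz_iso (h : c.Valid) {γ : G →* Equiv.Perm (RA c.Γ)} {pt : RA c.Γ → C} {π : G →* D}
    (hr : Rz c γ pt π) : Nonempty (G ≃* GC c h (pt 1)) := by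
  have hm : ∀ g, rm c.ρ (pt 1) (γ g 1) = c.β (π g) (pt 1) := by
    intro g
    rw [hr.mv, one_mul, hr.eqv]
  obtain ⟨F, hF⟩ : ∃ F : G →* GC c h (pt 1), ∀ g, (F g).1 = (γ g 1, π g) := by
    refine ⟨MonoidHom.mk' (fun g => ⟨(γ g 1, π g), hm g⟩) ?_, fun g => rfl⟩
    intro g g'
    refine gc_ext ?_ (map_mul π g g')
    show γ (g * g') 1 = γ g 1 * c.kp (π g) (pt 1) (γ g' 1)
    rw [← rz_kp h hr, one_mul, map_mul γ g g', Equiv.Perm.mul_apply]
  refine ⟨MulEquiv.ofBijective F ⟨?_, ?_⟩⟩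
  · rw [injective_iff_map_eq_one]
    intro g hg
    have h1 : (F g).1 = (1 : GC c h (pt 1)).1 := congrArg Subtype.val hg
    rw [hF] at h1
    exact hr.inj g (congrArg Prod.snd h1) (congrArg Prod.fst h1)
  · intro p
    obtain ⟨g, hg⟩ := hr.sur p.1.2
    have h1 : pt (γ g 1) = pt p.1.1 := by
      rw [← hr.eqv, hg, ← p.2, hr.mv, one_mul]
    obtain ⟨n, hn, hn'⟩ := hr.tr _ _ h1
    refine ⟨n * g, Subtype.ext ?_⟩
    rw [hF]
    refine Prod.ext ?_ ?_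
    · show γ (n * g) 1 = p.1.1
      rw [map_mul γ n g, Equiv.Perm.mul_apply, hn']
    · show π (n * g) = p.1.2
      rw [map_mul π n g, hn, one_mul, hg]

/-- the group of a code realises it -/
theorem gc_rz (h : c.Valid) (q : C) :
    ∃ (γ : GC c h q →* Equiv.Perm (RA c.Γ)) (π : GC c h q →* D),
      (∀ p x, γ p x = p.1.1 * c.kp p.1.2 q x) ∧ (∀ p, π p = p.1.2) ∧
        Rz c γ (fun x => rm c.ρ q x) π := by
  have hmul : ∀ (p r : GC c h q) x, (p * r).1.1 * c.kp (p * r).1.2 q x =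
      p.1.1 * c.kp p.1.2 q (r.1.1 * c.kp r.1.2 q x) := by
    intro p r x
    rw [gc_mul1, gc_mul2, ck_mul h p.1.2 q r.1.1, r.2, ck_comp h, mul_assoc]
  have hone : ∀ x, (1 : GC c h q).1.1 * c.kp (1 : GC c h q).1.2 q x = x := by
    intro x
    rw [gc_one1, gc_one2, ck_unit h, one_mul]
  obtain ⟨γ, hγ⟩ : ∃ γ : GC c h q →* Equiv.Perm (RA c.Γ), ∀ p x, γ p x = p.1.1 * c.kp p.1.2 q x := by
    refine ⟨MonoidHom.mk' (fun p => ⟨fun x => p.1.1 * c.kp p.1.2 q x,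
      fun x => p⁻¹.1.1 * c.kp p⁻¹.1.2 q x, ?_, ?_⟩) ?_, fun p x => rfl⟩
    · intro x
      show p⁻¹.1.1 * c.kp p⁻¹.1.2 q (p.1.1 * c.kp p.1.2 q x) = x
      rw [← hmul, inv_mul_cancel, hone]
    · intro x
      show p.1.1 * c.kp p.1.2 q (p⁻¹.1.1 * c.kp p⁻¹.1.2 q x) = x
      rw [← hmul, mul_inv_cancel, hone]
    · intro p r
      exact Equiv.ext fun x => hmul p r x
  obtain ⟨π, hπ⟩ : ∃ π : GC c h q →* D, ∀ p, π p = p.1.2 :=
    ⟨MonoidHom.mk' (fun p => p.1.2) (fun p r => gc_mul2 h q p r), fun p => rfl⟩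
  refine ⟨γ, π, hγ, hπ, ?_, ?_, ?_, ?_, ?_, ?_, ?_, ?_⟩
  · intro u
    obtain ⟨a, ha⟩ := h.trn q (c.β u q)
    exact ⟨⟨(a, u), ha⟩, hπ _⟩
  · intro q'
    exact h.trn q q'
  · intro x y
    show rm c.ρ (rm c.ρ q x) y = rm c.ρ q (x * y)
    rw [rm_mul]
  · intro p x
    show c.β (π p) (rm c.ρ q x) = rm c.ρ q (γ p x)
    rw [hπ, hγ, rm_mul, p.2, ck_F h]
  · intro p x v
    rw [hγ, hγ, hπ, ck_mul h, ck_gen h, mul_assoc]
  · intro p hp x
    rw [hπ] at hp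
    rw [hγ, hγ, hp, ck_unit h, ck_unit h, mul_one]
  · intro p hp hp'
    rw [hπ] at hp
    rw [hγ, hp, ck_unit h, mul_one] at hp'
    exact gc_ext hp' hp
  · intro x y hxy
    have h1 : rm c.ρ q x = rm c.ρ q y := hxy
    have h2 : rm c.ρ q (y * x⁻¹) = c.β 1 q := by
      rw [rm_mul, ← h1, ← rm_mul, mul_inv_cancel, rm_one, map_one]
      rfl
    obtain ⟨p, hp⟩ : ∃ p : GC c h q, p.1 = (y * x⁻¹, 1) := ⟨⟨_, h2⟩, rfl⟩
    refine ⟨p, by rw [hπ, hp], ?_⟩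
    rw [hγ, hp, ck_unit h, inv_mul_cancel_right]

end

end RaagIso
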