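import Pool.Agent.Lib.MP_32d917_al_raag.GRDefs
import Pool.Agent.Lib.MP_32d917_al_raag.G06

/-!
# G08: validity of realised codes

Let `c` be realised. `rv_line`: for `u = π g`: `γ g (x * gen v ^ n) = γ g x * gen (c.τ u (pt x) v) ^ sh (pv c.ρ v) (fun d => c.la u d v) (pt x) n` (`Int.induction_on`; `c.τ u (pt (x * gen v ^ n)) v = c.τ u (pt x) v` by `GI.tau`; `(pv c.ρ v ^ n) (pt x) = pt (x * gen v ^ n)` by
`pv_zpow`, `Rz.mv`; `sh_add`, `sh_one` or `sh_unique`).

`valid_of_rz`. `trn`: `rm ρ (pt x) (x⁻¹ * y) = pt y`, `psur`. Let `u = π g`, `q = pt x` (`sur`, `psur`). `dt u`: `adj`, `tau`, `lam` are the conditions of `GI` (`rm ρ (pt x) (gen v) = pt (x * gen v)`);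
`mul`: `β u (rm ρ q (gen v)) = pt (γ g (x * gen v)) = pt (γ g x * gen _ ^ _) = rm ρ (pt (γ g x)) _ = rm ρ (β u q) _`. `bij`: injective since `γ g` is injective (`rv_line`, `gen_zpow_inj`), surjective by `hl` and `rv_line` (`gen_zpow_inj`).
`tau`, `lam`: with `u = π g`, `u' = π g'`, `q = pt x`: `γ (g * g') (x * gen v) = γ g (γ g' x * gen w ^ l)`, `w = c.τ u' q v`, `l = c.la u' q v`, which is `γ g (γ g' x) * gen (c.τ u (pt (γ g' x)) w) ^ sh ... l` by `rv_line`, and it is
`γ (g * g') x * gen (c.τ (u * u') q v) ^ c.la (u * u') q v`. Both exponents are different from `0` (`gi_la`), so `gen_pow_eq` gives both equalities.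
-/

set_option autoImplicit false

namespace RaagIso

section

variable {V C D G : Type} [Group D] [Group G] {c : Cod V C D}

theorem rv_line {γ : G →* Equiv.Perm (RA c.Γ)} {pt : RA c.Γ → C} {π : G →* D}
    (hr : Rz c γ pt π) (hG : ∀ g, GI c.Γ c.Γ (γ g) (fun x => c.τ (π g) (pt x))
      (fun x => c.la (π g) (pt x))) (g : G) (x : RA c.Γ) (v : V) (n : ℤ) :
    γ g (x * gen v ^ n) = γ g x * gen (c.τ (π g) (pt x) v) ^
      sh (pv c.ρ v) (fun d => c.la (π g) d v) (pt x) n := by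
  have h1 : ∀ n : ℤ, c.τ (π g) (pt (x * gen v ^ n)) v = c.τ (π g) (pt x) v := fun n =>
    (gi_line (hG g) x v n).1 v (Or.inl rfl)
  choose k hk using fun n : ℤ => (gi_line (hG g) x v n).2
  have h0 : k 0 = 0 := by
    have h := hk 0
    rw [zpow_zero, mul_one] at h
    have h3 : (gen (c.τ (π g) (pt x) v) : RA c.Γ) ^ k 0 = gen (c.τ (π g) (pt x) v) ^ (0 : ℤ) := by
      rw [zpow_zero]
      exact (mul_eq_left.1 h.symm)
    exact gen_zpow_inj h3
  have hs : ∀ n : ℤ, k (n + 1) = k n + c.la (π g) ((pv c.ρ v ^ n) (pt x)) v := by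
    intro n
    have h := hk (n + 1)
    rw [zpow_add_one, ← mul_assoc, hr.mul, hk n, h1 n, mul_assoc, ← zpow_add] at h
    rw [pv_zpow, hr.mv]
    exact (gen_zpow_inj (mul_left_cancel h)).symm
  rw [← sh_unique (σ := pv c.ρ v) (l := fun d => c.la (π g) d v) (pt x) k h0 hs n]
  exact hk n

/-- a code which is realised by generalised automorphisms is valid -/
theorem valid_of_rz {γ : G →* Equiv.Perm (RA c.Γ)} {pt : RA c.Γ → C} {π : G →* D}
    (hr : Rz c γ pt π) (hG : ∀ g, GI c.Γ c.Γ (γ g) (fun x => c.τ (π g) (pt x))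
      (fun x => c.la (π g) (pt x)))
    (hl : ∀ g x v (k : ℤ), ∃ n : ℤ, γ g (x * gen v ^ n) =
      γ g x * gen (c.τ (π g) (pt x) v) ^ k) : c.Valid := by
  have key : ∀ g g' x v, c.τ (π g) (c.β (π g') (pt x)) (c.τ (π g') (pt x) v) =
      c.τ (π g * π g') (pt x) v ∧
      sh (pv c.ρ (c.τ (π g') (pt x) v)) (fun d => c.la (π g) d (c.τ (π g') (pt x) v))
        (c.β (π g') (pt x)) (c.la (π g') (pt x) v) = c.la (π g * π g') (pt x) v := by
    intro g g' x v
    have h1 := hr.mul (g * g') x v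
    have h2 : γ (g * g') (x * gen v) = γ g (γ g' x) *
        gen (c.τ (π g) (pt (γ g' x)) (c.τ (π g') (pt x) v)) ^
        sh (pv c.ρ (c.τ (π g') (pt x) v)) (fun d => c.la (π g) d (c.τ (π g') (pt x) v))
          (pt (γ g' x)) (c.la (π g') (pt x) v) := by
      rw [map_mul γ g g', Equiv.Perm.mul_apply, hr.mul g' x v, rv_line hr hG]
    have h3 : γ (g * g') x = γ g (γ g' x) := by rw [map_mul γ g g', Equiv.Perm.mul_apply]
    rw [h2, h3] at h1
    have h4 : c.la (π (g * g')) (pt x) v ≠ 0 :=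
      gi_la (γ (g * g')).injective (hG (g * g')) x v
    have h5 := gen_pow_eq h4 (mul_left_cancel h1).symm
    rw [map_mul π g g'] at h5
    rw [hr.eqv]
    exact ⟨h5.1.symm, h5.2.symm⟩
  refine ⟨?_, ?_, ?_, ?_⟩
  · intro q q'
    obtain ⟨x, rfl⟩ := hr.psur q
    obtain ⟨y, rfl⟩ := hr.psur q'
    exact ⟨x⁻¹ * y, by rw [hr.mv, mul_inv_cancel_left]⟩
  · intro u
    obtain ⟨g, rfl⟩ := hr.sur u
    refine ⟨?_, ?_, ?_, ?_, ?_⟩
    · intro q v w
      obtain ⟨x, rfl⟩ := hr.psur q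
      exact (hG g).adj x v w
    · intro q v w hw
      obtain ⟨x, rfl⟩ := hr.psur q
      rw [hr.mv]
      exact (hG g).tau x v w hw
    · intro q v w hw
      obtain ⟨x, rfl⟩ := hr.psur q
      rw [hr.mv]
      exact (hG g).lam x v w hw
    · intro q v
      obtain ⟨x, rfl⟩ := hr.psur q
      rw [hr.mv, hr.eqv, hr.eqv, hr.mul, hr.mv]
    · intro q v
      obtain ⟨x, rfl⟩ := hr.psur q
      constructor
      · intro n m hnm
        have h1 := rv_line hr hG g x v n
        have h2 := rv_line hr hG g x v m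
        have h3 : sh (pv c.ρ v) (fun d => c.la (π g) d v) (pt x) n =
          sh (pv c.ρ v) (fun d => c.la (π g) d v) (pt x) m := hnm
        rw [h3, ← h2] at h1
        exact gen_zpow_inj (mul_left_cancel ((γ g).injective h1))
      · intro k
        obtain ⟨n, hn⟩ := hl g x v k
        refine ⟨n, ?_⟩
        rw [rv_line hr hG g x v n] at hn
        exact gen_zpow_inj (mul_left_cancel hn)
  · intro u u' q v
    obtain ⟨g, rfl⟩ := hr.sur u
    obtain ⟨g', rfl⟩ := hr.sur u'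
    obtain ⟨x, rfl⟩ := hr.psur q
    exact (key g g' x v).1
  · intro u u' q v
    obtain ⟨g, rfl⟩ := hr.sur u
    obtain ⟨g', rfl⟩ := hr.sur u'
    obtain ⟨x, rfl⟩ := hr.psur q
    exact (key g g' x v).2

end

end RaagIso
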