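import Pool.Agent.Lib.MP_32d917_al_raag.G08

/-!
# G09: the code of an action

Let `GA Γ γ τ la N`. For `n ∈ N`: `γ n (x * y) = γ n 1 * x * y = γ n x * y` (`act`). For `g : G`, `n' = g * n * g⁻¹ ∈ N` and `γ (g * n) = γ (n' * g)`.

`ga_left`: `γ (g * n) x = γ (g * n * g⁻¹) 1 * γ g x`: `g * n = (g * n * g⁻¹) * g` and `act`.
`ga_data`: (1) `τ (g * n) x = τ g x`, `la (g * n) x = la g x`: by `gi_data` for the map `γ (g * n)` at the point `x`: `γ (g * n) (x * gen v) = γ n' 1 * γ g (x * gen v) = γ n' 1 * γ g x * gen (τ g x v) ^ la g x v = γ (g * n) x * gen (τ g x v) ^ la g x v`.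
(2) `τ g (γ n x) = τ (g * n) x`, `la g (γ n x) = la (g * n) x`: `γ g (γ n x * gen v) = γ g (γ n (x * gen v)) = γ (g * n) (x * gen v)`; again `gi_data`, for the map `γ g` at the point `γ n x`.

`code_of_ga`: `K` from `ifin`, `C = RA Γ ⧸ K`, `pt x = (x⁻¹ : RA Γ ⧸ K)`, `ρ = MulAction.toPermHom (RA Γ) (RA Γ ⧸ K)`, so `rm ρ (pt x) y = y⁻¹ • pt x = pt (x * y)`. `pt x = pt y` iff `x * y⁻¹ ∈ K` iff there is `n ∈ N` with `γ n y = x`
(`γ n y = γ n 1 * y`). `D = G ⧸ N`, `π = QuotientGroup.mk' N`. `β (π g) (pt x) = pt (γ g x)`, `τ' (π g) (pt x) = τ g x`, `la' (π g) (pt x) = la g x`: well defined by `ga_left`, `ga_data`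
(`γ g (γ n x) = γ (g * n) x = γ n' 1 * γ g x = γ n' (γ g x)`). It may be convenient to define `β`, `τ'`, `la'` with representatives chosen by `Function.surjInv` and to prove that the values do not depend on the choice. `β u` is a permutation with the inverse
`β u⁻¹`. `Rz`: `ker`, `inj` from `act`, `inj`; `tr`: see above. `Valid` by `valid_of_rz` (`GA.gi`, `GA.line`). `C` is finite since `K` has finite index.
-/

set_option autoImplicit false

namespace RaagIso

section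

variable {V G : Type} [Group G] {Γ : SimpleGraph V} {γ : G →* Equiv.Perm (RA Γ)}
  {τ : G → RA Γ → V ≃ V} {la : G → RA Γ → V → ℤ} {N : Subgroup G}

theorem ga_left (h : GA Γ γ τ la N) (g : G) {n : G} (hn : n ∈ N) (x : RA Γ) :
    γ (g * n) x = γ (g * n * g⁻¹) 1 * γ g x := by
  have h1 : g * n * g⁻¹ ∈ N := h.nor.conj_mem n hn g
  have h2 : g * n = g * n * g⁻¹ * g := by group
  rw [← h.act _ h1 (γ g x), ← Equiv.Perm.mul_apply, ← map_mul, ← h2]

theorem ga_data (h : GA Γ γ τ la N) (g : G) {n : G} (hn : n ∈ N) (x : RA Γ) :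
    τ (g * n) x = τ g x ∧ la (g * n) x = la g x ∧ τ g (γ n x) = τ g x ∧ la g (γ n x) = la g x := by
  have h1 : τ (g * n) x = τ g x ∧ la (g * n) x = la g x := by
    refine gi_data (f := γ (g * n)) (γ (g * n)).injective (fun v => (h.gi (g * n)).mul x v) ?_
    intro v
    rw [ga_left h g hn, (h.gi g).mul, ← mul_assoc, ← ga_left h g hn]
  have h2 : ∀ v, γ g (γ n x * gen v) = γ g (γ n x) * gen (τ g x v) ^ la g x v := by
    intro v
    have h3 : γ n x * gen v = γ n (x * gen v) := by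
      rw [h.act n hn x, h.act n hn (x * gen v), mul_assoc]
    rw [h3, ← Equiv.Perm.mul_apply, ← Equiv.Perm.mul_apply, ← map_mul, (h.gi (g * n)).mul, h1.1,
      h1.2]
  have h4 : τ g (γ n x) = (fun _ => τ g x) (γ n x) ∧ la g (γ n x) = (fun _ => la g x) (γ n x) :=
    gi_data (f := γ g) (γ g).injective (τ₁ := τ g) (la₁ := la g) (τ₂ := fun _ => τ g x)
      (la₂ := fun _ => la g x) (x := γ n x) (fun v => (h.gi g).mul (γ n x) v) h2
  exact ⟨h1.1, h1.2, h4.1, h4.2⟩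

/-- an action has a code -/
theorem code_of_ga (h : GA Γ γ τ la N) :
    ∃ (C D : Type) (_ : Group D) (ρ : RA Γ →* Equiv.Perm C) (β : D →* Equiv.Perm C)
      (τ' : D → C → V ≃ V) (la' : D → C → V → ℤ) (pt : RA Γ → C) (π : G →* D),
      Finite C ∧ Finite D ∧ (⟨Γ, ρ, β, τ', la'⟩ : Cod V C D).Valid ∧
      Rz (⟨Γ, ρ, β, τ', la'⟩ : Cod V C D) γ pt π ∧ π.ker = N ∧
      (∀ g x, τ' (π g) (pt x) = τ g x) ∧ ∀ g x, la' (π g) (pt x) = la g x := by
  obtain ⟨K, hK, hKN⟩ := h.ifin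
  have hNn : N.Normal := h.nor
  have hNf : N.FiniteIndex := h.fin
  let pt : RA Γ → RA Γ ⧸ K := fun x => ((x⁻¹ : RA Γ) : RA Γ ⧸ K)
  have hpt : ∀ x y, pt x = pt y ↔ ∃ n ∈ N, γ n x = y := by
    intro x y
    have h1 : pt x = pt y ↔ y * x⁻¹ ∈ K := by
      show ((x⁻¹ : RA Γ) : RA Γ ⧸ K) = ((y⁻¹ : RA Γ) : RA Γ ⧸ K) ↔ _
      rw [eq_comm, QuotientGroup.eq, inv_inv]
    rw [h1, hKN]
    constructor
    · rintro ⟨n, hn, h2⟩
      exact ⟨n, hn, by rw [h.act n hn x, h2]; group⟩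
    · rintro ⟨n, hn, h2⟩
      refine ⟨n, hn, ?_⟩
      rw [h.act n hn x] at h2
      rw [← h2]; group
  have psur : Function.Surjective pt := by
    intro c
    obtain ⟨x, hx⟩ := QuotientGroup.mk_surjective c
    exact ⟨x⁻¹, by show (((x⁻¹)⁻¹ : RA Γ) : RA Γ ⧸ K) = c; rw [inv_inv]; exact hx⟩
  let s : RA Γ ⧸ K → RA Γ := Function.surjInv psur
  have hs : ∀ c, pt (s c) = c := Function.surjInv_eq psur
  -- invariance
  have hinv : ∀ g x y, pt x = pt y → pt (γ g x) = pt (γ g y) := by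
    intro g x y hxy
    obtain ⟨n, hn, h2⟩ := (hpt x y).1 hxy
    refine (hpt _ _).2 ⟨g * n * g⁻¹, hNn.conj_mem n hn g, ?_⟩
    rw [← h2, ← Equiv.Perm.mul_apply, ← Equiv.Perm.mul_apply, ← map_mul, ← map_mul]
    congr 2
    group
  let bf : G →* Function.End (RA Γ ⧸ K) :=
    { toFun := fun g c => pt (γ g (s c))
      map_one' := by
        funext c
        show pt (γ 1 (s c)) = c
        rw [map_one, Equiv.Perm.one_apply, hs]
      map_mul' := by
        intro g g'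
        funext c
        show pt (γ (g * g') (s c)) = pt (γ g (s (pt (γ g' (s c)))))
        rw [map_mul, Equiv.Perm.mul_apply]
        exact hinv g _ _ (hs _).symm }
  let bp : G →* Equiv.Perm (RA Γ ⧸ K) := bf.toHomPerm
  have hbp : ∀ g x, bp g (pt x) = pt (γ g x) := by
    intro g x
    show pt (γ g (s (pt x))) = pt (γ g x)
    exact hinv g _ _ (hs _)
  have hker : ∀ n ∈ N, bp n = 1 := by
    intro n hn
    ext c
    obtain ⟨x, rfl⟩ := psur c
    rw [hbp, Equiv.Perm.one_apply]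
    exact ((hpt x (γ n x)).2 ⟨n, hn, rfl⟩).symm
  let β : G ⧸ N →* Equiv.Perm (RA Γ ⧸ K) := QuotientGroup.lift N bp hker
  let π : G →* G ⧸ N := QuotientGroup.mk' N
  have πsur : Function.Surjective π := QuotientGroup.mk'_surjective N
  let t : G ⧸ N → G := Function.surjInv πsur
  have ht : ∀ u, π (t u) = u := Function.surjInv_eq πsur
  have hπ : ∀ g, π g = 1 ↔ g ∈ N := fun g => QuotientGroup.eq_one_iff g
  have hβ : ∀ g x, β (π g) (pt x) = pt (γ g x) := by
    intro g x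
    show bp g (pt x) = _
    exact hbp g x
  -- representatives
  have hrep : ∀ g x, ∃ n ∈ N, ∃ m ∈ N, t (π g) = g * n ∧ s (pt x) = γ m x := by
    intro g x
    obtain ⟨m, hm, h2⟩ := (hpt x (s (pt x))).1 (hs _).symm
    refine ⟨g⁻¹ * t (π g), ?_, m, hm, by group, h2.symm⟩
    rw [← hπ, map_mul, map_inv, ht, inv_mul_cancel]
  have hτ : ∀ g x, τ (t (π g)) (s (pt x)) = τ g x := by
    intro g x
    obtain ⟨n, hn, m, hm, e1, e2⟩ := hrep g x
    rw [e1, e2, (ga_data h (g * n) hm x).2.2.1, (ga_data h g hn x).1]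
  have hla : ∀ g x, la (t (π g)) (s (pt x)) = la g x := by
    intro g x
    obtain ⟨n, hn, m, hm, e1, e2⟩ := hrep g x
    rw [e1, e2, (ga_data h (g * n) hm x).2.2.2, (ga_data h g hn x).2.1]
  let ρ : RA Γ →* Equiv.Perm (RA Γ ⧸ K) := MulAction.toPermHom (RA Γ) (RA Γ ⧸ K)
  have hρ : ∀ x y, rm ρ (pt x) y = pt (x * y) := by
    intro x y
    show ((y⁻¹ * x⁻¹ : RA Γ) : RA Γ ⧸ K) = (((x * y)⁻¹ : RA Γ) : RA Γ ⧸ K)
    rw [mul_inv_rev]
  let c : Cod V (RA Γ ⧸ K) (G ⧸ N) :=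
    ⟨Γ, ρ, β, fun u q => τ (t u) (s q), fun u q => la (t u) (s q)⟩
  have hr : Rz c γ pt π := by
    constructor
    · exact πsur
    · exact psur
    · exact hρ
    · exact hβ
    · intro g x v
      show γ g (x * gen v) = γ g x * gen (τ (t (π g)) (s (pt x)) v) ^ la (t (π g)) (s (pt x)) v
      rw [hτ, hla]
      exact (h.gi g).mul x v
    · intro g hg x
      exact h.act g ((hπ g).1 hg) x
    · intro g hg h1
      exact h.inj g ((hπ g).1 hg) h1
    · intro x y hxy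
      obtain ⟨n, hn, h2⟩ := (hpt x y).1 hxy
      exact ⟨n, (hπ n).2 hn, h2⟩
  have hG : ∀ g, GI c.Γ c.Γ (γ g) (fun x => c.τ (π g) (pt x)) (fun x => c.la (π g) (pt x)) := by
    intro g
    have e1 : (fun x => c.τ (π g) (pt x)) = τ g := funext fun x => hτ g x
    have e2 : (fun x => c.la (π g) (pt x)) = la g := funext fun x => hla g x
    rw [e1, e2]
    exact h.gi g
  have hl : ∀ g x v (k : ℤ), ∃ n : ℤ, γ g (x * gen v ^ n) =
      γ g x * gen (c.τ (π g) (pt x) v) ^ k := by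
    intro g x v k
    obtain ⟨n, hn⟩ := h.line g x v k
    refine ⟨n, ?_⟩
    show _ = γ g x * gen (τ (t (π g)) (s (pt x)) v) ^ k
    rw [hτ]
    exact hn
  refine ⟨RA Γ ⧸ K, G ⧸ N, inferInstance, ρ, β, fun u q => τ (t u) (s q),
    fun u q => la (t u) (s q), pt, π, inferInstance, inferInstance, valid_of_rz hr hG hl, hr,
    QuotientGroup.ker_mk' N, hτ, hla⟩

end

end RaagIso
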