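import Pool.Agent.Lib.MP_32d917_al_raag.G07
import Pool.Agent.Lib.MP_32d917_al_raag.G09

/-!
# G10: normal subgroups give refinements

`ga_of_rz`: `gi`: from `Cod.Valid.dt (π g)` at `q = pt x` and `rm ρ (pt x) (gen v) = pt (x * gen v)`, `Rz.mul`. `line`: `γ g (x * gen v ^ n) = γ g x * kp (π g) (pt x) (gen v ^ n)` (`rz_kp`) `= γ g x * gen (τ (π g) (pt x) v) ^ sh ... n` (`ck_line`), and `sh` is bijective (`Dt.bij`).
`act`, `inj`: `Rz.ker`, `Rz.inj`. `ifin`: the map `n ↦ γ n 1` is a homomorphism `θ : π.ker →* RA c.Γ` (`γ (n * n') 1 = γ n (γ n' 1) = γ n 1 * γ n' 1`); its range is `stb ρ (pt 1)` (`pt (γ n 1) = β 1 (pt 1) = pt 1`; conversely `Rz.tr`), which has finite index (`stb_fin`).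
`K = (M.subgroupOf π.ker).map θ` has finite index (`Subgroup.index_map`: `(H.map f).index = (H ⊔ f.ker).index * f.range.index`; `M.subgroupOf π.ker` has finite index).

`ref_of_rz`: `code_of_ga` for `ga_of_rz`. `p : D1 →* D` with `p (π1 g) = π g`: `π1` is surjective with kernel `M ≤ π.ker` (`MonoidHom.liftOfSurjective`, or `QuotientGroup.lift` and `QuotientGroup.quotientKerEquivOfSurjective`, or choose representatives). `a : R → C` with `a (pt1 x) = pt x`: `pt1 x = pt1 y` gives `g` with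
`π1 g = 1`, `γ g x = y` (`Rz.tr`), so `π g = 1` and `pt y = β 1 (pt x) = pt x`. `Ref`: `gr` is `rfl`; `mv`, `eqv`, `tau`, `lam`, `sur`: evaluate at `pt1 x`, `π1 g`. `tr`: `pt x = pt y` gives `g`, `π g = 1`, `γ g x = y`; `u = π1 g`.
`free`: `u = π1 g`, `r = pt1 x`: `pt1 (γ g x) = pt1 x` gives `m` with `π1 m = 1`, `γ m (γ g x) = x`; `π (m * g) = 1` (`π m = p (π1 m) = 1`), and `γ (m * g) 1 = 1` (`Rz.ker`), so `m * g = 1` (`Rz.inj`), so `π1 g = 1`.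
-/

set_option autoImplicit false

namespace RaagIso

section

variable {V C D G : Type} [Group D] [Group G] {c : Cod V C D}

theorem g10_gi (h : c.Valid) {γ : G →* Equiv.Perm (RA c.Γ)} {pt : RA c.Γ → C}
    {π : G →* D} (hr : Rz c γ pt π) (g : G) :
    GI c.Γ c.Γ (γ g) (fun x => c.τ (π g) (pt x)) (fun x => c.la (π g) (pt x)) := by
  refine ⟨?_, ?_, ?_, ?_⟩
  · intro x v w
    exact (h.dt (π g)).adj (pt x) v w
  · intro x v
    exact hr.mul g x v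
  · intro x v w hw
    have h1 := (h.dt (π g)).tau (pt x) v w hw
    rw [hr.mv] at h1
    exact h1
  · intro x v w hw
    have h1 := (h.dt (π g)).lam (pt x) v w hw
    rw [hr.mv] at h1
    exact h1

theorem g10_line (h : c.Valid) {γ : G →* Equiv.Perm (RA c.Γ)} {pt : RA c.Γ → C}
    {π : G →* D} (hr : Rz c γ pt π) (g : G) (x : RA c.Γ) (v : V) (k : ℤ) :
    ∃ n : ℤ, γ g (x * gen v ^ n) = γ g x * gen (c.τ (π g) (pt x) v) ^ k := by
  obtain ⟨n, hn⟩ := ((h.dt (π g)).bij (pt x) v).2 k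
  exact ⟨n, by rw [rz_kp h hr, ck_line h, hn]⟩

theorem g10_fin [Finite C] {γ : G →* Equiv.Perm (RA c.Γ)} {pt : RA c.Γ → C}
    {π : G →* D} (hr : Rz c γ pt π) (M : Subgroup G) (hf : M.FiniteIndex)
    (hk : M ≤ π.ker) : ∃ K : Subgroup (RA c.Γ), K.FiniteIndex ∧ ∀ y, y ∈ K ↔ ∃ n ∈ M, γ n 1 = y := by
  obtain ⟨θ, hθ⟩ : ∃ θ : π.ker →* RA c.Γ, ∀ n, θ n = γ n 1 := by
    refine ⟨MonoidHom.mk' (fun n : π.ker => γ n 1) ?_, fun n => rfl⟩
    intro n m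
    show γ ((n : G) * m) 1 = γ n 1 * γ m 1
    rw [map_mul γ (n : G) m, Equiv.Perm.mul_apply, hr.ker n n.2 (γ m 1)]
  have hrange : θ.range = stb c.ρ (pt 1) := by
    ext y
    rw [mem_stb]
    constructor
    · rintro ⟨n, rfl⟩
      rw [hθ, hr.mv, one_mul, ← hr.eqv, show π n = 1 from n.2, map_one]
      rfl
    · intro hy
      rw [hr.mv, one_mul] at hy
      obtain ⟨g, hg, hg'⟩ := hr.tr 1 y hy.symm
      exact ⟨⟨g, hg⟩, by rw [hθ]; exact hg'⟩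
  refine ⟨(M.subgroupOf π.ker).map θ, ⟨?_⟩, ?_⟩
  · rw [Subgroup.index_map, hrange]
    refine mul_ne_zero ?_ (stb_fin c.ρ (pt 1)).index_ne_zero
    have h3 : (M.subgroupOf π.ker).FiniteIndex := inferInstance
    have h4 : (M.subgroupOf π.ker ⊔ θ.ker).FiniteIndex := Subgroup.finiteIndex_of_le le_sup_left
    exact h4.index_ne_zero
  · intro y
    constructor
    · rintro ⟨n, hn, rfl⟩
      exact ⟨n, hn, (hθ n).symm⟩
    · rintro ⟨n, hn, rfl⟩
      exact ⟨⟨n, hk hn⟩, hn, hθ _⟩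

theorem ga_of_rz [Finite C] (h : c.Valid) {γ : G →* Equiv.Perm (RA c.Γ)} {pt : RA c.Γ → C}
    {π : G →* D} (hr : Rz c γ pt π) (M : Subgroup G) (hM : M.Normal) (hf : M.FiniteIndex)
    (hk : M ≤ π.ker) :
    GA c.Γ γ (fun g x => c.τ (π g) (pt x)) (fun g x => c.la (π g) (pt x)) M :=
  ⟨fun g => g10_gi h hr g, fun g x v k => g10_line h hr g x v k, hM, hf,
    fun n hn x => hr.ker n (hk hn) x, fun n hn h1 => hr.inj n (hk hn) h1, g10_fin hr M hf hk⟩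

/-- normal subgroups give refinements -/
theorem ref_of_rz [Finite C] (h : c.Valid) {γ : G →* Equiv.Perm (RA c.Γ)} {pt : RA c.Γ → C}
    {π : G →* D} (hr : Rz c γ pt π) (M : Subgroup G) (hM : M.Normal) (hf : M.FiniteIndex)
    (hk : M ≤ π.ker) :
    ∃ (R D1 : Type) (_ : Group D1) (ρ1 : RA c.Γ →* Equiv.Perm R) (β1 : D1 →* Equiv.Perm R)
      (τ1 : D1 → R → V ≃ V) (la1 : D1 → R → V → ℤ) (pt1 : RA c.Γ → R) (π1 : G →* D1)
      (a : R → C) (p : D1 →* D),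
      Finite R ∧ Finite D1 ∧ (⟨c.Γ, ρ1, β1, τ1, la1⟩ : Cod V R D1).Valid ∧
      Rz (⟨c.Γ, ρ1, β1, τ1, la1⟩ : Cod V R D1) γ pt1 π1 ∧ π1.ker = M ∧
      Ref (⟨c.Γ, ρ1, β1, τ1, la1⟩ : Cod V R D1) c a p ∧ ∀ g, p (π1 g) = π g := by
  obtain ⟨R, D1, _, ρ1, β1, τ1, la1, pt1, π1, fR, fD, v1, r1, k1, ht, hl⟩ :=
    code_of_ga (ga_of_rz h hr M hM hf hk)
  have hk1 : ∀ g, π1 g = 1 → π g = 1 := by
    intro g hg
    have : g ∈ M := by rw [← k1]; exact hg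
    exact hk this
  have hpt : ∀ x y, pt1 x = pt1 y → pt x = pt y := by
    intro x y hxy
    obtain ⟨g, hg, rfl⟩ := r1.tr x y hxy
    rw [← hr.eqv, hk1 g hg, map_one]
    rfl
  have hpi : ∀ g g', π1 g = π1 g' → π g = π g' := by
    intro g g' hgg
    have h1 : π1 (g * g'⁻¹) = 1 := by rw [map_mul, map_inv, hgg, mul_inv_cancel]
    have h2 := hk1 _ h1
    rwa [map_mul, map_inv, mul_inv_eq_one] at h2
  obtain ⟨a, ha⟩ : ∃ a : R → C, ∀ x, a (pt1 x) = pt x :=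
    ⟨fun r => pt (Function.surjInv r1.psur r), fun x =>
      hpt _ _ (Function.surjInv_eq r1.psur (pt1 x))⟩
  obtain ⟨p, hp⟩ : ∃ p : D1 →* D, ∀ g, p (π1 g) = π g := by
    refine ⟨MonoidHom.mk' (fun u => π (Function.surjInv r1.sur u)) ?_, fun g =>
      hpi _ _ (Function.surjInv_eq r1.sur (π1 g))⟩
    intro u u'
    rw [← map_mul]
    apply hpi
    rw [map_mul, Function.surjInv_eq r1.sur, Function.surjInv_eq r1.sur,
      Function.surjInv_eq r1.sur]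
  refine ⟨R, D1, inferInstance, ρ1, β1, τ1, la1, pt1, π1, a, p, fR, fD, v1, r1, k1, ?_, hp⟩
  refine ⟨rfl, ?_, ?_, ?_, ?_, ?_, ?_, ?_⟩
  · intro r v
    obtain ⟨x, rfl⟩ := r1.psur r
    have h1 := r1.mv x (gen v)
    show a (rm ρ1 (pt1 x) (gen v)) = _
    rw [show rm ρ1 (pt1 x) (gen v) = pt1 (x * gen v) from h1, ha, ha, hr.mv]
  · intro u r
    obtain ⟨x, rfl⟩ := r1.psur r
    obtain ⟨g, rfl⟩ := r1.sur u
    show a (β1 (π1 g) (pt1 x)) = _
    rw [show β1 (π1 g) (pt1 x) = pt1 (γ g x) from r1.eqv g x, ha, hp, ha, hr.eqv]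
  · intro u r v
    obtain ⟨x, rfl⟩ := r1.psur r
    obtain ⟨g, rfl⟩ := r1.sur u
    show τ1 (π1 g) (pt1 x) v = _
    rw [ht, hp, ha]
  · intro u r v
    obtain ⟨x, rfl⟩ := r1.psur r
    obtain ⟨g, rfl⟩ := r1.sur u
    show la1 (π1 g) (pt1 x) v = _
    rw [hl, hp, ha]
  · intro u
    obtain ⟨g, rfl⟩ := hr.sur u
    exact ⟨π1 g, hp g⟩
  · intro r r' hrr
    obtain ⟨x, rfl⟩ := r1.psur r
    obtain ⟨y, rfl⟩ := r1.psur r'
    rw [ha, ha] at hrr
    obtain ⟨g, hg, rfl⟩ := hr.tr x y hrr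
    exact ⟨π1 g, by rw [hp, hg], r1.eqv g x⟩
  · intro u r hu hur
    obtain ⟨x, rfl⟩ := r1.psur r
    obtain ⟨g, rfl⟩ := r1.sur u
    rw [hp] at hu
    have h1 : β1 (π1 g) (pt1 x) = pt1 (γ g x) := r1.eqv g x
    have h2 : pt1 (γ g x) = pt1 x := h1.symm.trans hur
    obtain ⟨m, hm, hm'⟩ := r1.tr _ _ h2
    have h3 : π (m * g) = 1 := by rw [map_mul, hk1 m hm, hu, one_mul]
    have h4 : γ (m * g) x = x := by rw [map_mul γ m g, Equiv.Perm.mul_apply, hm']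
    have h5 : γ (m * g) 1 = 1 := by
      rw [hr.ker _ h3 x] at h4
      exact mul_eq_right.1 h4
    have h6 := hr.inj _ h3 h5
    have h7 : π1 m * π1 g = 1 := by rw [← map_mul, h6, map_one]
    rwa [hm, one_mul] at h7

end

end RaagIso
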