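import Pool.Agent.Lib.MP_32d917_al_raag.G07
import Pool.Agent.Lib.MP_32d917_al_raag.G06L

/-!
# G11: isomorphisms of realised codes give similarities

`rz_stb`: the map `n ↦ γ n 1` is an isomorphism of `π.ker` onto `stb c.ρ (pt 1)`: homomorphism since `γ (n * n') 1 = γ n (γ n' 1) = γ n 1 * γ n' 1` (`Rz.ker`), injective (`Rz.inj`), `rm ρ (pt 1) (γ n 1) = pt (γ n 1) = β 1 (pt 1) = pt 1`, and
if `rm ρ (pt 1) x = pt x = pt 1` then `Rz.tr` gives `n` with `γ n 1 = x`.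

`sim_of_rz`: `φ` restricts to an isomorphism of `π.ker` onto `π'.ker`, so there is `φ' : stb c.ρ (pt 1) ≃* stb c'.ρ (pt' 1)` with `φ' (γ n 1) = γ' (φ n) 1`. `rigid` (the stabilisers have finite index, `stb_fin`) gives `f`, `τ0`, `la0` with
`f (γ n x) = f (γ n 1 * x) = γ' (φ n) 1 * f x = γ' (φ n) (f x)` for `n ∈ π.ker`. Then `f (γ g x) = γ' (φ g) (f x)` for all `g`, `x`: `lp_unique` for `H = stb c.ρ (pt 1)`, `f₁ x = f (γ g x)`, `f₂ x = γ' (φ g) (f x)`;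
for `k = γ n 1`: `f₁ (k * x) = f (γ (g * n * g⁻¹) (γ g x)) = γ' (φ (g * n * g⁻¹)) 1 * f₁ x` and `f₂ (k * x) = γ' (φ g) (γ' (φ n) (f x)) = γ' (φ (g * n * g⁻¹)) (γ' (φ g) (f x)) = γ' (φ (g * n * g⁻¹)) 1 * f₂ x`.
`Lp` for `γ g`, `γ' (φ g)` and `f`: `lp_of_gi`, `lp_comp`; `γ g` is `GI` with `τ = fun x => c.τ (π g) (pt x)`, `la = fun x => c.la (π g) (pt x)` (`Cod.Valid.dt`, `Rz.mv`, `Rz.mul`).
`dt_of_gi` (with `ρ = c.ρ`, `ρ' = c'.ρ`, `c0 = pt 1`, `c0' = pt' 1`, `φ'`) gives `F`, `τ`, `la` with `Dt`, `F (rm c.ρ (pt 1) x) = rm c'.ρ (pt' 1) (f x)`, i.e. `F (pt x) = pt' (f x)` (`Rz.mv`), `τ (pt x) = τ0 x`, `la (pt x) = la0 x`.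
`ψ (π g) = π' (φ g)`: well defined and injective by `hφ`, surjective (`MulEquiv.ofBijective`; or `QuotientGroup.quotientKerEquivOfSurjective`).
`Sim.eqv`: `q = pt x`, `u = π g`: `F (β u q) = F (pt (γ g x)) = pt' (f (γ g x)) = pt' (γ' (φ g) (f x)) = β' (ψ u) (F q)`.
`Sim.tau`, `Sim.lam`: `f (γ g (x * gen v)) = f (γ g x * gen w ^ l)`, `w = c.τ u q v`, `l = c.la u q v`, is `f (γ g x) * gen (τ (β u q) w) ^ sh (pv c.ρ w) (fun d => la d w) (β u q) l`: with `κ = kp c.ρ τ la`, `f (x * y) = f x * κ (pt x) y` for all `y`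
(both sides: `ra_ind` or `cc_ext`) and `cc_line`. In the same way (`rz_kp`, `ck_line`) `γ' (φ g) (f (x * gen v)) = γ' (φ g) (f x * gen (τ q v) ^ la q v) = γ' (φ g) (f x) * gen (c'.τ (ψ u) (F q) (τ q v)) ^ sh ... (la q v)`. The exponents are not `0`
(`Dt.bij`, `sh_zero`, `la ≠ 0` by `gi_la`), so `gen_pow_eq` gives both equalities.
-/

set_option autoImplicit false

namespace RaagIso

section

variable {V V' C C' D D' G G' : Type} [Group D] [Group D'] [Group G] [Group G']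
  {c : Cod V C D} {c' : Cod V' C' D'}

theorem g11_pt {γ : G →* Equiv.Perm (RA c.Γ)} {pt : RA c.Γ → C} {π : G →* D}
    (hr : Rz c γ pt π) (x : RA c.Γ) : rm c.ρ (pt 1) x = pt x := by
  rw [hr.mv, one_mul]

theorem g11_ker {γ : G →* Equiv.Perm (RA c.Γ)} {pt : RA c.Γ → C} {π : G →* D}
    (hr : Rz c γ pt π) {n : G} (hn : π n = 1) (x : RA c.Γ) : pt (γ n x) = pt x := by
  rw [← hr.eqv, hn, map_one]
  rfl

theorem rz_stb {γ : G →* Equiv.Perm (RA c.Γ)} {pt : RA c.Γ → C} {π : G →* D}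
    (hr : Rz c γ pt π) : ∃ e : π.ker ≃* stb c.ρ (pt 1), ∀ n, (e n : RA c.Γ) = γ n 1 := by
  let f : π.ker →* stb c.ρ (pt 1) :=
    { toFun := fun n => ⟨γ n 1, by rw [mem_stb, g11_pt hr, g11_ker hr n.2]⟩
      map_one' := Subtype.ext (by
        show (γ ((1 : π.ker) : G)) (1 : RA c.Γ) = 1
        rw [OneMemClass.coe_one, map_one γ, Equiv.Perm.one_apply])
      map_mul' := fun a b => Subtype.ext (by
        show γ ((a * b : π.ker) : G) 1 = γ a 1 * γ b 1
        rw [Subgroup.coe_mul, map_mul, Equiv.Perm.mul_apply, hr.ker a a.2]) }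
  refine ⟨MulEquiv.ofBijective f ⟨?_, ?_⟩, fun n => rfl⟩
  · rw [injective_iff_map_eq_one]
    intro n hn
    exact Subtype.ext (hr.inj n n.2 (congrArg Subtype.val hn))
  · intro y
    have h1 : pt 1 = pt (y : RA c.Γ) := by
      rw [← g11_pt hr y]
      exact (mem_stb.1 y.2).symm
    obtain ⟨n, hn, h2⟩ := hr.tr 1 y h1
    exact ⟨⟨n, hn⟩, Subtype.ext h2⟩

theorem g11_gi {γ : G →* Equiv.Perm (RA c.Γ)} {pt : RA c.Γ → C} {π : G →* D}
    (h : c.Valid) (hr : Rz c γ pt π) (g : G) :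
    GI c.Γ c.Γ (γ g) (fun x => c.τ (π g) (pt x)) (fun x => c.la (π g) (pt x)) where
  adj x v w := (h.dt (π g)).adj (pt x) v w
  mul x v := hr.mul g x v
  tau x v w hw := by
    show c.τ (π g) (pt (x * gen v)) w = c.τ (π g) (pt x) w
    rw [← hr.mv]
    exact (h.dt _).tau _ _ _ hw
  lam x v w hw := by
    show c.la (π g) (pt (x * gen w)) v = c.la (π g) (pt x) v
    rw [← hr.mv]
    exact (h.dt _).lam _ _ _ hw

/-- a function which is given by a cocycle on generators is given by it everywhere -/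
theorem g11_kp {Γ : SimpleGraph V} {Γ' : SimpleGraph V'} {ρ : RA Γ →* Equiv.Perm C}
    {κ : C → RA Γ → RA Γ'} (hκ : ∀ q x y, κ q (x * y) = κ q x * κ (rm ρ q x) y)
    {pt : RA Γ → C} (hp : ∀ x y, rm ρ (pt x) y = pt (x * y)) {f : RA Γ → RA Γ'}
    (hf : ∀ x v, f (x * gen v) = f x * κ (pt x) (gen v)) (x y : RA Γ) :
    f (x * y) = f x * κ (pt x) y := by
  revert x
  refine ra_ind (C := fun y => ∀ x, f (x * y) = f x * κ (pt x) y) ?_ ?_ ?_ ?_ y
  · intro x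
    rw [cc_one hκ, mul_one, mul_one]
  · intro v x
    exact hf x v
  · intro a b ha hb x
    rw [← mul_assoc, hb, ha, hκ, hp, mul_assoc]
  · intro a ha x
    have h1 := ha (x * a⁻¹)
    rw [inv_mul_cancel_right] at h1
    have h2 := hκ (pt x) a⁻¹ a
    rw [inv_mul_cancel, cc_one hκ, hp] at h2
    rw [h1, mul_assoc]
    have h3 : κ (pt (x * a⁻¹)) a * κ (pt x) a⁻¹ = 1 := by
      rw [mul_eq_one_iff_eq_inv, eq_inv_of_mul_eq_one_right h2.symm]
    rw [h3, mul_one]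

/-- an isomorphism which preserves the subgroups acting by left multiplications gives a similarity -/
theorem sim_of_rz [Finite V] [Finite V'] [Finite C] [Finite C'] (h : c.Valid) (h' : c'.Valid)
    (hN : NoDom c.Γ) (hS : NoSep c.Γ) (hN' : NoDom c'.Γ) (hS' : NoSep c'.Γ)
    (h2 : ∃ a b : V, a ≠ b) (h2' : ∃ a b : V', a ≠ b)
    {γ : G →* Equiv.Perm (RA c.Γ)} {pt : RA c.Γ → C} {π : G →* D} (hr : Rz c γ pt π)
    {γ' : G' →* Equiv.Perm (RA c'.Γ)} {pt' : RA c'.Γ → C'} {π' : G' →* D'} (hr' : Rz c' γ' pt' π')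
    (φ : G ≃* G') (hφ : ∀ g, π g = 1 ↔ π' (φ g) = 1) :
    ∃ (F : C ≃ C') (ψ : D ≃* D') (τ : C → V ≃ V') (la : C → V → ℤ),
      Sim c c' F ψ τ la ∧ ∀ g, ψ (π g) = π' (φ g) := by
  obtain ⟨e, he⟩ := rz_stb hr
  obtain ⟨e', he'⟩ := rz_stb hr'
  let φK : π.ker ≃* π'.ker :=
    { toFun := fun n => ⟨φ n, (hφ n).1 n.2⟩
      invFun := fun n => ⟨φ.symm n, (hφ _).2 (by rw [φ.apply_symm_apply]; exact n.2)⟩
      left_inv := fun n => Subtype.ext (φ.symm_apply_apply _)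
      right_inv := fun n => Subtype.ext (φ.apply_symm_apply _)
      map_mul' := fun a b => Subtype.ext (map_mul φ _ _) }
  let φ' : stb c.ρ (pt 1) ≃* stb c'.ρ (pt' 1) := (e.symm.trans φK).trans e'
  have hφ' : ∀ n : π.ker, (φ' (e n) : RA c'.Γ) = γ' (φ n) 1 := by
    intro n
    show (e' (φK (e.symm (e n))) : RA c'.Γ) = γ' (φ n) 1
    rw [e.symm_apply_apply, he']
    rfl
  obtain ⟨f, τ0, la0, hG, hE, hs⟩ := rigid hN hS hN' hS' h2 h2' (stb c.ρ (pt 1)) (stb c'.ρ (pt' 1))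
    (stb_fin _ _) (stb_fin _ _) φ'
  -- the elements of the kernel
  have hK : ∀ n, π n = 1 → ∀ x, f (γ n x) = γ' (φ n) (f x) := by
    intro n hn x
    rw [hr.ker n hn, hr'.ker _ ((hφ n).1 hn)]
    have h3 := (hE (e ⟨n, hn⟩) x).1
    rw [he, hφ'] at h3
    exact h3
  have hKn : ∀ g (n : π.ker), π (g * n * g⁻¹) = 1 := by
    intro g n
    rw [map_mul, map_mul, show π n = 1 from n.2, mul_one, ← map_mul, mul_inv_cancel, map_one]
  -- equivariance
  have hA : ∀ g x, f (γ g x) = γ' (φ g) (f x) := by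
    intro g x
    refine lp_unique hN' h2' (stb c.ρ (pt 1)) (stb_fin _ _)
      (fun k => γ' (φ (g * (e.symm k : π.ker) * g⁻¹)) 1)
      (f₁ := fun x => f (γ g x)) (f₂ := fun x => γ' (φ g) (f x))
      (lp_comp (lp_of_gi (γ g).injective (g11_gi h hr g)) (lp_of_gi f.injective hG))
      (lp_comp (lp_of_gi f.injective hG) (lp_of_gi (γ' (φ g)).injective (g11_gi h' hr' (φ g))))
      ?_ ?_ x
    · intro k x
      obtain ⟨n, rfl⟩ := e.surjective k
      show f (γ g ((e n : RA c.Γ) * x)) = γ' (φ (g * (e.symm (e n) : π.ker) * g⁻¹)) 1 * f (γ g x)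
      rw [e.symm_apply_apply, he, ← hr.ker n n.2, ← Equiv.Perm.mul_apply, ← map_mul,
        ← hr'.ker _ ((hφ _).1 (hKn g n)), ← hK _ (hKn g n), ← Equiv.Perm.mul_apply, ← map_mul,
        inv_mul_cancel_right]
    · intro k x
      obtain ⟨n, rfl⟩ := e.surjective k
      show γ' (φ g) (f ((e n : RA c.Γ) * x)) =
        γ' (φ (g * (e.symm (e n) : π.ker) * g⁻¹)) 1 * γ' (φ g) (f x)
      rw [e.symm_apply_apply, he, ← hr.ker n n.2, hK n n.2,
        ← hr'.ker _ ((hφ _).1 (hKn g n)), ← Equiv.Perm.mul_apply, ← map_mul, ← map_mul,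
        ← Equiv.Perm.mul_apply, ← map_mul, ← map_mul, inv_mul_cancel_right]
  obtain ⟨F, τ, la, hD, hF, hτ, hla⟩ := dt_of_gi h.trn h'.trn φ' f τ0 la0 hG hE hs
  have hF2 : ∀ x, F (pt x) = pt' (f x) := by
    intro x
    rw [← g11_pt hr x, hF, g11_pt hr']
  have hτ2 : ∀ x, τ (pt x) = τ0 x := by
    intro x
    rw [← g11_pt hr x, hτ]
  have hla2 : ∀ x, la (pt x) = la0 x := by
    intro x
    rw [← g11_pt hr x, hla]
  -- the isomorphism of the finite groups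
  have hπ : ∀ g g', π g = π g' ↔ π' (φ g) = π' (φ g') := by
    intro g g'
    have h3 := hφ (g * g'⁻¹)
    rw [map_mul, map_mul, map_mul, map_inv, map_inv, map_inv, mul_inv_eq_one, mul_inv_eq_one] at h3
    exact h3
  choose s hsu using hr.sur
  have hψ0 : ∀ g, π' (φ (s (π g))) = π' (φ g) := fun g => (hπ _ _).1 (hsu _)
  let ψ0 : D →* D' :=
    { toFun := fun u => π' (φ (s u))
      map_one' := by
        have h3 := hψ0 1
        rw [map_one, map_one, map_one] at h3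
        exact h3
      map_mul' := fun u u' => by
        have h3 := hψ0 (s u * s u')
        rw [map_mul, hsu, hsu, map_mul, map_mul] at h3
        exact h3 }
  have hψb : Function.Bijective ψ0 := by
    constructor
    · intro u u' huu
      have h3 := (hπ (s u) (s u')).2 huu
      rwa [hsu, hsu] at h3
    · intro u'
      obtain ⟨g', hg'⟩ := hr'.sur u'
      refine ⟨π (φ.symm g'), ?_⟩
      show π' (φ (s (π (φ.symm g')))) = u'
      rw [hψ0, φ.apply_symm_apply, hg']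
  let ψ : D ≃* D' := MulEquiv.ofBijective ψ0 hψb
  have hψ : ∀ g, ψ (π g) = π' (φ g) := hψ0
  have heqv : ∀ u q, F (c.β u q) = c'.β (ψ u) (F q) := by
    intro u q
    obtain ⟨g, rfl⟩ := hr.sur u
    obtain ⟨x, rfl⟩ := hr.psur q
    rw [hr.eqv, hF2, hF2, hA, hψ, hr'.eqv]
  obtain ⟨κ, hκ⟩ := exists_kap hD
  have hfκ : ∀ x y, f (x * y) = f x * κ (pt x) y := by
    refine g11_kp hκ.2 hr.mv ?_
    intro x v
    rw [hκ.1, hτ2, hla2]
    exact hG.mul x v
  have hγκ : ∀ g x y, γ' g (x * y) = γ' g x * c'.kp (π' g) (pt' x) y := by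
    intro g
    refine g11_kp (fun q x y => ck_mul h' (π' g) q x y) hr'.mv ?_
    intro x v
    rw [ck_gen h']
    exact hr'.mul g x v
  have key : ∀ u q v, τ (c.β u q) (c.τ u q v) = c'.τ (ψ u) (F q) (τ q v) ∧
      sh (pv c.ρ (c.τ u q v)) (fun d => la d (c.τ u q v)) (c.β u q) (c.la u q v) =
        sh (pv c'.ρ (τ q v)) (fun d => c'.la (ψ u) d (τ q v)) (F q) (la q v) := by
    intro u q v
    obtain ⟨g, rfl⟩ := hr.sur u
    obtain ⟨x, rfl⟩ := hr.psur q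
    have e1 : f (γ g (x * gen v)) = f (γ g x) * gen (τ (c.β (π g) (pt x)) (c.τ (π g) (pt x) v)) ^
        sh (pv c.ρ (c.τ (π g) (pt x) v)) (fun d => la d (c.τ (π g) (pt x) v)) (c.β (π g) (pt x))
          (c.la (π g) (pt x) v) := by
      rw [hr.mul, hfκ, ← hr.eqv, cc_line hD hκ]
    have e2 : γ' (φ g) (f (x * gen v)) = γ' (φ g) (f x) *
        gen (c'.τ (ψ (π g)) (F (pt x)) (τ (pt x) v)) ^
          sh (pv c'.ρ (τ (pt x) v)) (fun d => c'.la (ψ (π g)) d (τ (pt x) v)) (F (pt x))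
            (la (pt x) v) := by
      rw [hfκ, hκ.1, hγκ, ck_line h', hψ, hF2]
    have e3 := hA g (x * gen v)
    rw [e1, e2, hA] at e3
    refine gen_pow_eq ?_ (mul_left_cancel e3)
    intro h0
    have h3 : c.la (π g) (pt x) v = 0 := by
      refine (hD.bij (c.β (π g) (pt x)) (c.τ (π g) (pt x) v)).1 ?_
      rw [h0, sh_zero]
    exact gi_la (γ g).injective (g11_gi h hr g) x v h3
  exact ⟨F, ψ, τ, la, ⟨hD, heqv, fun u q v => (key u q v).1, fun u q v => (key u q v).2⟩, hψ⟩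

end

end RaagIso
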