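import Pool.Agent.Lib.MP_32d917_al_raag.G07
import Pool.Agent.Lib.MP_32d917_al_raag.G09
import Pool.Agent.Lib.MP_32d917_al_raag.G06L

/-!
# G12: commensurable groups have codes

Let `N` be the normal core of `H` in `G` (`Subgroup.normalCore`, finite index), `ι : N →* RA Γ` the composition `N ≤ H ≃* H' ≤ RA Γ`, injective with range `K` of finite index (the image of a subgroup of finite index of `H` in `H'`, `H'` of finite index:
`Subgroup.index_map` for `H.subtype`, ... or `Subgroup.relIndex`). For `g : G` conjugation gives an automorphism of `N`, hence `φ_g : K ≃* K`, `φ_g (ι n) = ι (g * n * g⁻¹)`. `rigid` (for `K`, `K`, `φ_g`) gives `f_g : RA Γ ≃ RA Γ`, `τ g`, `la g`, `GI` and lines, with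
`f_g (ι n * x) = ι (g * n * g⁻¹) * f_g x`. Uniqueness (`gi_unique` or `lp_unique` with `H = K`): `f_(g * g') x = f_g (f_g' x)` (`lp_comp`; both are equivariant for `ι n ↦ ι (g * g' * n * (g * g')⁻¹)`), `f_1 = id`
(`GI Γ Γ id (fun _ => Equiv.refl V) (fun _ _ => 1)`), and `f_n x = ι n * x` for `n ∈ N` (`GI Γ Γ (fun x => ι n * x) (fun _ => Equiv.refl V) (fun _ _ => 1)`; `ι n * (ι m * x) = ι (n * m * n⁻¹) * (ι n * x)`).
So `γ g = f_g` is a homomorphism `G →* Equiv.Perm (RA Γ)` and `GA Γ γ τ la N` holds. `code_of_ga` and `rz_iso` give the theorem with `c = ⟨Γ, ρ, β, τ', la'⟩`.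
-/

set_option autoImplicit false

namespace RaagIso

section

variable {V : Type}

/-- groups commensurable with `RA Γ` act on the set `RA Γ` by generalised automorphisms -/
theorem ga_of_comm [Finite V] {Γ : SimpleGraph V} (hN : NoDom Γ) (hS : NoSep Γ)
    (h2 : ∃ a b : V, a ≠ b) (G : Type) [Group G] (H : Subgroup G) (H' : Subgroup (RA Γ))
    (hf : H.FiniteIndex) (hf' : H'.FiniteIndex) (e : H ≃* H') :
    ∃ (γ : G →* Equiv.Perm (RA Γ)) (τ : G → RA Γ → V ≃ V) (la : G → RA Γ → V → ℤ)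
      (N : Subgroup G), GA Γ γ τ la N := by
  obtain ⟨N, hNdef⟩ : ∃ N, N = H.normalCore := ⟨_, rfl⟩
  have hnor : N.Normal := by rw [hNdef]; infer_instance
  have hfin : N.FiniteIndex := by rw [hNdef]; infer_instance
  have hNH : N ≤ H := by rw [hNdef]; exact H.normalCore_le
  obtain ⟨θ, hθdef⟩ : ∃ θ : H →* RA Γ, θ = H'.subtype.comp e.toMonoidHom := ⟨_, rfl⟩
  have hθi : Function.Injective θ := by
    rw [hθdef]
    exact H'.subtype_injective.comp e.injective
  have hθr : θ.range = H' := by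
    ext y
    rw [hθdef]
    constructor
    · rintro ⟨x, rfl⟩
      exact (e x).2
    · intro hy
      exact ⟨e.symm ⟨y, hy⟩, by simp⟩
  obtain ⟨ι, hι⟩ : ∃ ι : N →* RA Γ, ∀ n : N, ι n = θ ⟨n, hNH n.2⟩ :=
    ⟨θ.comp (Subgroup.inclusion hNH), fun n => rfl⟩
  have hιi : Function.Injective ι := by
    intro a b hab
    rw [hι, hι] at hab
    have h0 := congrArg Subtype.val (hθi hab)
    exact Subtype.ext h0
  have hKf : ι.range.FiniteIndex := by
    have h1 : ι.range = (N.subgroupOf H).map θ := by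
      ext y
      constructor
      · rintro ⟨n, rfl⟩
        exact ⟨⟨n, hNH n.2⟩, n.2, (hι n).symm⟩
      · rintro ⟨x, hx, rfl⟩
        exact ⟨⟨x, hx⟩, hι _⟩
    rw [h1]
    refine ⟨?_⟩
    rw [Subgroup.index_map, hθr]
    refine mul_ne_zero ?_ hf'.index_ne_zero
    have h3 : (N.subgroupOf H).FiniteIndex := inferInstance
    have h4 : (N.subgroupOf H ⊔ θ.ker).FiniteIndex := Subgroup.finiteIndex_of_le le_sup_left
    exact h4.index_ne_zero
  obtain ⟨eK, heK⟩ : ∃ eK : N ≃* ι.range, ∀ n, (eK n : RA Γ) = ι n :=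
    ⟨MonoidHom.ofInjective hιi, fun n => rfl⟩
  obtain ⟨φ, hφ⟩ : ∃ φ : G → (ι.range ≃* ι.range), ∀ g n, φ g (eK n) =
      eK ⟨g * n * g⁻¹, hnor.conj_mem n n.2 g⟩ := by
    refine ⟨fun g => eK.symm.trans ((MulAut.conjNormal g).trans eK), fun g n => ?_⟩
    simp only [MulEquiv.trans_apply, MulEquiv.symm_apply_apply]
    congr 1
  choose f τ la hGI heq hline using fun g => rigid hN hS hN hS h2 h2 ι.range ι.range hKf hKf (φ g)
  have hLp : ∀ g, Lp (f g) (τ g) := fun g => lp_of_gi (f g).injective (hGI g)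
  have hmul : ∀ g g' x, f (g * g') x = f g (f g' x) := by
    intro g g' x
    refine lp_unique hN h2 ι.range hKf (fun k => (φ (g * g') k : RA Γ)) (hLp (g * g'))
      (lp_comp (hLp g') (hLp g)) (fun k x => (heq _ k x).1) ?_ x
    intro k x
    show f g (f g' (k * x)) = _
    rw [(heq g' k x).1, (heq g _ _).1]
    obtain ⟨n, rfl⟩ := eK.surjective k
    rw [hφ, hφ, hφ]
    congr 3
    apply Subtype.ext
    show g * (g' * n * g'⁻¹) * g⁻¹ = g * g' * n * (g * g')⁻¹
    group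
  have hact : ∀ (n : N) x, f n x = ι n * x := by
    intro n x
    have hl : Lp (fun x : RA Γ => ι n * x) (fun _ => Equiv.refl V) := by
      intro x v m hm
      exact ⟨m, hm, (mul_assoc (ι n) x (gen v ^ m)).symm⟩
    refine lp_unique hN h2 ι.range hKf (fun k => (φ n k : RA Γ)) (hLp n) hl
      (fun k x => (heq _ k x).1) ?_ x
    intro k x
    obtain ⟨m, rfl⟩ := eK.surjective k
    show ι n * (eK m * x) = φ n (eK m) * (ι n * x)
    rw [hφ, heK, heK]
    have h5 : ι ⟨(n : G) * m * (n : G)⁻¹, hnor.conj_mem m m.2 n⟩ = ι n * ι m * (ι n)⁻¹ := by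
      rw [← map_mul, ← map_inv, ← map_mul]
      rfl
    rw [h5]
    group
  refine ⟨MonoidHom.mk' f (fun g g' => Equiv.ext fun x => hmul g g' x), τ, la, N, ?_⟩
  have h1 : ∀ n (hn : n ∈ N) x, f n x = ι ⟨n, hn⟩ * x := fun n hn x => hact ⟨n, hn⟩ x
  refine ⟨hGI, hline, hnor, hfin, ?_, ?_, ι.range, hKf, ?_⟩
  · intro n hn x
    show f n x = f n 1 * x
    rw [h1 n hn, h1 n hn, mul_one]
  · intro n hn h3
    have h4 : f n 1 = 1 := h3
    rw [h1 n hn, mul_one] at h4
    have h5 := hιi (h4.trans (map_one ι).symm)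
    exact congrArg Subtype.val h5
  · intro y
    constructor
    · rintro ⟨n, rfl⟩
      exact ⟨n, n.2, by show f n 1 = _; rw [hact, mul_one]⟩
    · rintro ⟨n, hn, rfl⟩
      refine ⟨⟨n, hn⟩, ?_⟩
      show _ = f n 1
      rw [h1 n hn, mul_one]

/-- every group which is commensurable with `RA Γ` has a code -/
theorem code_of_comm [Finite V] {Γ : SimpleGraph V} (hN : NoDom Γ) (hS : NoSep Γ)
    (h2 : ∃ a b : V, a ≠ b) (G : Type) [Group G] (H : Subgroup G) (H' : Subgroup (RA Γ))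
    (hf : H.FiniteIndex) (hf' : H'.FiniteIndex) (e : H ≃* H') :
    ∃ (C D : Type) (_ : Group D) (c : Cod V C D) (h : c.Valid) (q : C),
      Finite C ∧ Finite D ∧ c.Γ = Γ ∧ Nonempty (G ≃* GC c h q) := by
  obtain ⟨γ, τ, la, N, hA⟩ := ga_of_comm hN hS h2 G H H' hf hf' e
  obtain ⟨C, D, _, ρ, β, τ', la', pt, π, fC, fD, hv, hr, -⟩ := code_of_ga hA
  exact ⟨C, D, inferInstance, ⟨Γ, ρ, β, τ', la'⟩, hv, pt 1, fC, fD, rfl, rz_iso hv hr⟩

end

end RaagIso
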