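import Pool.Agent.Lib.MP_32d917_al_raag.GRDefs
import Pool.Agent.Lib.MP_32d917_al_raag.G03

/-!
# G13: transport of codes and cardinalities

`sh_conj`: `sh (F.symm.permCongr σ) l c n = sh σ (l ∘ F.symm) (F c) n`: `sh_unique` (or `Int.induction_on`), `((F.symm.permCongr σ) ^ n) c = F.symm ((σ ^ n) (F c))`.

`tr_valid`: everything is computed at `F q`, `ψ u`: `rm (c.tr F ψ).ρ q x = F.symm (rm c.ρ (F q) x)`, `(c.tr F ψ).β u q = F.symm (c.β (ψ u) (F q))`. `tr_ref`: `a ∘ F`, `π ∘ ψ`. `tr_sim`: `Sim c c' F ψ τ la` gives `Sim c (c'.tr F ψ) (Equiv.refl C) (MulEquiv.refl D) τ la`.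

`card_D1`: `u ↦ (p u, π' u)` is injective from `D1` into `D × D'`. `card_R`: choose for every `q : C` in the range of `a` a point `s q` with `a (s q) = q`. For `r : R` choose `w r : D1` with `p (w r) = 1` and `c1.β (w r) (s (a r)) = r` (`Ref.tr`). The map
`r ↦ (a r, π' (w r))` is injective: if `a r = a r'` and `π' (w r) = π' (w r')` then `w r' * (w r)⁻¹` is in both kernels, so `w r = w r'` and `r = r'`. (`Finite.card_le_of_injective`, `Nat.card_prod`.)
-/

set_option autoImplicit false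

namespace RaagIso

section

variable {V V' C C' D D' R D1 : Type} [Group D] [Group D'] [Group D1]

theorem sh_conj (F : C ≃ C') (σ : Equiv.Perm C') (l : C → ℤ) (c : C) (n : ℤ) :
    sh (F.symm.permCongr σ) l c n = sh σ (fun d => l (F.symm d)) (F c) n := by
  let Φ : C' × ℤ ≃ C × ℤ := F.symm.prodCongr (Equiv.refl ℤ)
  have h1 : shP (F.symm.permCongr σ) l = Φ.permCongrHom (shP σ (fun d => l (F.symm d))) := by
    apply Equiv.ext
    rintro ⟨c, k⟩
    show (F.symm (σ (F c)), k + l c) = (F.symm (σ (F c)), k + l (F.symm (F c)))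
    rw [F.symm_apply_apply]
  unfold sh
  rw [h1, ← map_zpow]
  rfl

theorem tr_rm (c : Cod V C' D') (F : C ≃ C') (ψ : D ≃* D') (q : C) (x : RA c.Γ) :
    rm (c.tr F ψ).ρ q x = F.symm (rm c.ρ (F q) x) := rfl

theorem g13_beta (c : Cod V C' D') (F : C ≃ C') (ψ : D ≃* D') (q : C) (u : D) :
    (c.tr F ψ).β u q = F.symm (c.β (ψ u) (F q)) := rfl

theorem g13_pv (c : Cod V C' D') (F : C ≃ C') (ψ : D ≃* D') (v : V) :
    pv (c.tr F ψ).ρ v = F.symm.permCongr (pv c.ρ v) := by
  apply Equiv.ext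
  intro q
  rw [pv_apply]
  show F.symm (rm c.ρ (F q) (gen v)) = F.symm (pv c.ρ v (F q))
  rw [pv_apply]

theorem g13_sh (c : Cod V C' D') (F : C ≃ C') (ψ : D ≃* D') (u : D) (v w : V) (q : C) (n : ℤ) :
    sh (pv (c.tr F ψ).ρ v) (fun d => (c.tr F ψ).la u d w) q n =
      sh (pv c.ρ v) (fun d => c.la (ψ u) d w) (F q) n := by
  rw [g13_pv, sh_conj]
  have h1 : (fun d => (c.tr F ψ).la u (F.symm d) w) = fun d => c.la (ψ u) d w := by
    funext d
    show c.la (ψ u) (F (F.symm d)) w = _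
    rw [F.apply_symm_apply]
  rw [h1]

theorem tr_valid {c : Cod V C' D'} (h : c.Valid) (F : C ≃ C') (ψ : D ≃* D') :
    (c.tr F ψ).Valid := by
  refine ⟨?_, ?_, ?_, ?_⟩
  · intro q q'
    obtain ⟨x, hx⟩ := h.trn (F q) (F q')
    refine ⟨x, ?_⟩
    rw [tr_rm, hx, F.symm_apply_apply]
  · intro u
    have hd := h.dt (ψ u)
    refine ⟨?_, ?_, ?_, ?_, ?_⟩
    · intro q v w
      exact hd.adj (F q) v w
    · intro q v w hw
      show c.τ (ψ u) (F (F.symm (rm c.ρ (F q) (gen v)))) w = c.τ (ψ u) (F q) w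
      rw [F.apply_symm_apply]
      exact hd.tau (F q) v w hw
    · intro q v w hw
      show c.la (ψ u) (F (F.symm (rm c.ρ (F q) (gen w)))) v = c.la (ψ u) (F q) v
      rw [F.apply_symm_apply]
      exact hd.lam (F q) v w hw
    · intro q v
      show F.symm (c.β (ψ u) (F (F.symm (rm c.ρ (F q) (gen v))))) =
        F.symm (rm c.ρ (F (F.symm (c.β (ψ u) (F q))))
          (gen (c.τ (ψ u) (F q) v) ^ c.la (ψ u) (F q) v))
      rw [F.apply_symm_apply, F.apply_symm_apply]
      exact congrArg F.symm (hd.mul (F q) v)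
    · intro q v
      have h1 : sh (pv (c.tr F ψ).ρ v) (fun d => (c.tr F ψ).la u d v) q =
          sh (pv c.ρ v) (fun d => c.la (ψ u) d v) (F q) := by
        funext n
        exact g13_sh c F ψ u v v q n
      rw [h1]
      exact hd.bij (F q) v
  · intro u u' q v
    show c.τ (ψ u) (F (F.symm (c.β (ψ u') (F q)))) (c.τ (ψ u') (F q) v) = c.τ (ψ (u * u')) (F q) v
    rw [F.apply_symm_apply, map_mul]
    exact h.tau (ψ u) (ψ u') (F q) v
  · intro u u' q v
    rw [g13_sh, g13_beta, F.apply_symm_apply]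
    show _ = c.la (ψ (u * u')) (F q) v
    rw [map_mul]
    exact h.lam (ψ u) (ψ u') (F q) v

theorem tr_ref {c1 : Cod V C' D'} {c : Cod V R D1} {a : C' → R} {π : D' →* D1}
    (h : Ref c1 c a π) (F : C ≃ C') (ψ : D ≃* D') :
    Ref (c1.tr F ψ) c (fun q => a (F q)) (π.comp ψ.toMonoidHom) := by
  refine ⟨h.gr, ?_, ?_, ?_, ?_, ?_, ?_, ?_⟩
  · intro r v
    show a (F (F.symm (rm c1.ρ (F r) (gen v)))) = rm c.ρ (a (F r)) (gen v)
    rw [F.apply_symm_apply]
    exact h.mv (F r) v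
  · intro u r
    show a (F ((c1.tr F ψ).β u r)) = c.β (π (ψ u)) (a (F r))
    rw [g13_beta, F.apply_symm_apply]
    exact h.eqv (ψ u) (F r)
  · intro u r v
    exact h.tau (ψ u) (F r) v
  · intro u r v
    exact h.lam (ψ u) (F r) v
  · exact h.sur.comp ψ.surjective
  · intro r r' hr
    obtain ⟨u, hu, hu'⟩ := h.tr (F r) (F r') hr
    refine ⟨ψ.symm u, ?_, ?_⟩
    · show π (ψ (ψ.symm u)) = 1
      rw [ψ.apply_symm_apply]
      exact hu
    · rw [g13_beta, ψ.apply_symm_apply, hu', F.symm_apply_apply]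
  · intro u r hu hr
    rw [g13_beta] at hr
    have h1 : c1.β (ψ u) (F r) = F r := by
      rw [← F.apply_symm_apply (c1.β (ψ u) (F r)), hr]
    have h2 := h.free (ψ u) (F r) hu h1
    rwa [map_eq_one_iff ψ ψ.injective] at h2

theorem tr_sim {c : Cod V C D} {c' : Cod V' C' D'} {F : C ≃ C'} {ψ : D ≃* D'} {τ : C → V ≃ V'}
    {la : C → V → ℤ} (h : Sim c c' F ψ τ la) :
    Sim c (c'.tr F ψ) (Equiv.refl C) (MulEquiv.refl D) τ la := by
  refine ⟨⟨?_, ?_, ?_, ?_, ?_⟩, ?_, ?_, ?_⟩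
  · exact h.dt.adj
  · exact h.dt.tau
  · exact h.dt.lam
  · intro q v
    show rm c.ρ q (gen v) = F.symm (rm c'.ρ (F q) (gen (τ q v) ^ la q v))
    have h1 := h.dt.mul q v
    apply F.injective
    rw [F.apply_symm_apply]
    exact h1
  · exact h.dt.bij
  · intro u q
    show c.β u q = (c'.tr F ψ).β u q
    rw [g13_beta, ← h.eqv, F.symm_apply_apply]
  · intro u q v
    exact h.tau u q v
  · intro u q v
    rw [h.lam]
    exact (g13_sh c' F ψ u (τ q v) (τ q v) q (la q v)).symm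

theorem card_D1 [Finite D] [Finite D'] (p : D1 →* D) (π' : D1 →* D')
    (hi : ∀ u, p u = 1 → π' u = 1 → u = 1) : Nat.card D1 ≤ Nat.card D * Nat.card D' := by
  rw [← Nat.card_prod]
  refine Nat.card_le_card_of_injective (fun u => (p u, π' u)) ?_
  intro u w huw
  have h1 : p u = p w := congrArg Prod.fst huw
  have h2 : π' u = π' w := congrArg Prod.snd huw
  have h3 := hi (u * w⁻¹) (by rw [map_mul, map_inv, h1, mul_inv_cancel])
    (by rw [map_mul, map_inv, h2, mul_inv_cancel])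
  exact mul_inv_eq_one.1 h3

theorem card_R [Finite C] [Finite D'] {c1 : Cod V R D1} {c : Cod V C D} {a : R → C} {p : D1 →* D}
    (hr : Ref c1 c a p) (π' : D1 →* D') (hi : ∀ u, p u = 1 → π' u = 1 → u = 1) :
    Nat.card R ≤ Nat.card C * Nat.card D' := by
  classical
  rcases isEmpty_or_nonempty R with h0 | h0
  · rw [Nat.card_of_isEmpty]
    exact Nat.zero_le _
  rw [← Nat.card_prod]
  have hs : ∀ r : R, ∃ w : D1, p w = 1 ∧ c1.β w (Function.invFun (fun t : R => a t) (a r)) = r := by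
    intro r
    have h1 : a (Function.invFun (fun t : R => a t) (a r)) = a r :=
      Function.invFun_eq (f := fun t : R => a t) ⟨r, rfl⟩
    exact hr.tr _ _ h1
  choose w hw1 hw2 using hs
  refine Nat.card_le_card_of_injective (fun r => (a r, π' (w r))) ?_
  intro r r' h
  have h1 : a r = a r' := congrArg Prod.fst h
  have h2 : π' (w r) = π' (w r') := congrArg Prod.snd h
  have h3 := hi (w r * (w r')⁻¹) (by rw [map_mul, map_inv, hw1, hw1, inv_one, mul_one])
    (by rw [map_mul, map_inv, h2, mul_inv_cancel])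
  have h4 : w r = w r' := mul_inv_eq_one.1 h3
  rw [← hw2 r, ← hw2 r', h4, h1]

end

end RaagIso
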