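import Pool.Agent.Lib.MP_32d917_al_raag.B04

/-!
# Codes of groups which are commensurable with right-angled Artin groups
-/

set_option autoImplicit false

namespace RaagIso

open Classical

section

variable {V V' C C' : Type} {Γ : SimpleGraph V} {Γ' : SimpleGraph V'}

/-- the cocycle of local data -/
noncomputable def kp (ρ : RA Γ →* Equiv.Perm C) (τ : C → V ≃ V') (la : C → V → ℤ) :
    C → RA Γ → RA Γ' :=
  if h : ∃ κ : C → RA Γ → RA Γ', Kap ρ τ la κ then h.choose else fun _ _ => 1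

theorem kp_kap {ρ : RA Γ →* Equiv.Perm C} {τ : C → V ≃ V'} {la : C → V → ℤ}
    (h : ∃ κ : C → RA Γ → RA Γ', Kap ρ τ la κ) :
    Kap ρ τ la (kp ρ τ la : C → RA Γ → RA Γ') := by
  unfold kp
  rw [dif_pos h]
  exact h.choose_spec

theorem kp_eq {ρ : RA Γ →* Equiv.Perm C} {τ : C → V ≃ V'} {la : C → V → ℤ}
    {κ : C → RA Γ → RA Γ'} (h : Kap ρ τ la κ) (q : C) (x : RA Γ) : kp ρ τ la q x = κ q x :=
  cc_ext (kp_kap ⟨κ, h⟩).2 h.2 (fun c v => by rw [(kp_kap ⟨κ, h⟩).1, h.1]) q x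

/-- the cocycle of a function with values in a group -/
noncomputable def ke {K : Type} [Group K] (ρ : RA Γ →* Equiv.Perm C) (E : C → V → K) :
    C → RA Γ → K :=
  if h : ∃ κ : C → RA Γ → K, (∀ c v, κ c (gen v) = E c v) ∧
    ∀ c g h, κ c (g * h) = κ c g * κ (rm ρ c g) h then h.choose else fun _ _ => 1

theorem ke_spec {K : Type} [Group K] {ρ : RA Γ →* Equiv.Perm C} {E : C → V → K}
    (h : Coc ρ E) : (∀ c v, ke ρ E c (gen v) = E c v) ∧
      ∀ c g h, ke ρ E c (g * h) = ke ρ E c g * ke ρ E (rm ρ c g) h := by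
  have h1 := exists_cc h
  unfold ke
  rw [dif_pos h1]
  exact h1.choose_spec

end

section

/-- codes: a graph `Γ`, a right action `ρ` of its right-angled Artin group on `C`, a group `D` acting on
`C` by permutations which are generalised automorphisms with local data `τ`, `la` -/
structure Cod (V C D : Type) [Group D] where
  Γ : SimpleGraph V
  ρ : RA Γ →* Equiv.Perm C
  β : D →* Equiv.Perm C
  τ : D → C → V ≃ V
  la : D → C → V → ℤ

variable {V C D : Type} [Group D]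

/-- validity -/
structure Cod.Valid (c : Cod V C D) : Prop where
  trn : Trn c.ρ
  dt : ∀ u, Dt c.ρ c.ρ (c.β u) (c.τ u) (c.la u)
  tau : ∀ u u' q v, c.τ u (c.β u' q) (c.τ u' q v) = c.τ (u * u') q v
  lam : ∀ u u' q v, sh (pv c.ρ (c.τ u' q v)) (fun d => c.la u d (c.τ u' q v)) (c.β u' q)
    (c.la u' q v) = c.la (u * u') q v

/-- the cocycle of `u` -/
noncomputable def Cod.kp (c : Cod V C D) (u : D) : C → RA c.Γ → RA c.Γ :=
  RaagIso.kp c.ρ (c.τ u) (c.la u)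

variable {c : Cod V C D}

theorem ck_kap (h : c.Valid) (u : D) : Kap c.ρ (c.τ u) (c.la u) (c.kp u) :=
  kp_kap (exists_kap (h.dt u))

theorem ck_gen (h : c.Valid) (u : D) (q : C) (v : V) :
    c.kp u q (gen v) = gen (c.τ u q v) ^ c.la u q v := (ck_kap h u).1 q v

theorem ck_mul (h : c.Valid) (u : D) (q : C) (x y : RA c.Γ) :
    c.kp u q (x * y) = c.kp u q x * c.kp u (rm c.ρ q x) y := (ck_kap h u).2 q x y

theorem ck_one (h : c.Valid) (u : D) (q : C) : c.kp u q 1 = 1 := cc_one (ck_kap h u).2 q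

theorem ck_line (h : c.Valid) (u : D) (q : C) (v : V) (n : ℤ) :
    c.kp u q (gen v ^ n) = gen (c.τ u q v) ^ sh (pv c.ρ v) (fun d => c.la u d v) q n :=
  cc_line (h.dt u) (ck_kap h u) q v n

theorem ck_F (h : c.Valid) (u : D) (q : C) (x : RA c.Γ) :
    c.β u (rm c.ρ q x) = rm c.ρ (c.β u q) (c.kp u q x) := cc_F (h.dt u) (ck_kap h u) q x

theorem ck_inj (h : c.Valid) (u : D) (q : C) : Function.Injective (c.kp u q) :=
  cc_inj (h.dt u) (ck_kap h u) q

theorem ck_surj (h : c.Valid) (u : D) (q : C) : Function.Surjective (c.kp u q) :=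
  cc_surj (h.dt u) (ck_kap h u) q

/-- composition of the cocycles -/
theorem ck_comp (h : c.Valid) (u u' : D) (q : C) (x : RA c.Γ) :
    c.kp u (c.β u' q) (c.kp u' q x) = c.kp (u * u') q x := by
  refine cc_ext (ρ := c.ρ) (κ := fun q x => c.kp u (c.β u' q) (c.kp u' q x))
    (κ' := c.kp (u * u')) ?_ (ck_kap h (u * u')).2 ?_ q x
  · intro q x y
    show c.kp u (c.β u' q) (c.kp u' q (x * y)) = _
    rw [ck_mul h, ck_mul h, ← ck_F h]
  · intro q v
    show c.kp u (c.β u' q) (c.kp u' q (gen v)) = _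
    rw [ck_gen h, ck_line h, ck_gen h, h.tau, h.lam]

theorem ck_unit (h : c.Valid) (q : C) (x : RA c.Γ) : c.kp 1 q x = x := by
  have h1 := ck_comp h 1 1 q x
  rw [map_one, mul_one] at h1
  exact ck_inj h 1 q h1

/-- the group of a code with base point `q` -/
def GC (c : Cod V C D) (_ : c.Valid) (q : C) : Type :=
  {p : RA c.Γ × D // rm c.ρ q p.1 = c.β p.2 q}

noncomputable instance (h : c.Valid) (q : C) : Group (GC c h q) where
  mul p r := ⟨(p.1.1 * c.kp p.1.2 q r.1.1, p.1.2 * r.1.2), by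
    show rm c.ρ q (p.1.1 * c.kp p.1.2 q r.1.1) = c.β (p.1.2 * r.1.2) q
    rw [rm_mul, p.2, ← ck_F h, r.2, map_mul, Equiv.Perm.mul_apply]⟩
  one := ⟨(1, 1), by
    show rm c.ρ q 1 = c.β 1 q
    rw [rm_one, map_one]; rfl⟩
  inv p := ⟨((c.kp p.1.2⁻¹ q p.1.1)⁻¹, p.1.2⁻¹), by
    show rm c.ρ q (c.kp p.1.2⁻¹ q p.1.1)⁻¹ = c.β p.1.2⁻¹ q
    have h1 := ck_F h p.1.2⁻¹ q p.1.1
    rw [p.2, ← Equiv.Perm.mul_apply, ← map_mul, inv_mul_cancel, map_one, Equiv.Perm.one_apply] at h1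
    calc rm c.ρ q (c.kp p.1.2⁻¹ q p.1.1)⁻¹ = rm c.ρ (rm c.ρ (c.β p.1.2⁻¹ q)
          (c.kp p.1.2⁻¹ q p.1.1)) (c.kp p.1.2⁻¹ q p.1.1)⁻¹ :=
          congrArg (fun t => rm c.ρ t (c.kp p.1.2⁻¹ q p.1.1)⁻¹) h1
      _ = c.β p.1.2⁻¹ q := by rw [← rm_mul, mul_inv_cancel, rm_one]⟩
  mul_assoc p r s := by
    apply Subtype.ext
    refine Prod.ext ?_ (mul_assoc _ _ _)
    show p.1.1 * c.kp p.1.2 q r.1.1 * c.kp (p.1.2 * r.1.2) q s.1.1 =
      p.1.1 * c.kp p.1.2 q (r.1.1 * c.kp r.1.2 q s.1.1)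
    rw [ck_mul h, r.2, ck_comp h, mul_assoc]
  one_mul p := by
    apply Subtype.ext
    refine Prod.ext ?_ (one_mul _)
    show 1 * c.kp 1 q p.1.1 = p.1.1
    rw [one_mul, ck_unit h]
  mul_one p := by
    apply Subtype.ext
    refine Prod.ext ?_ (mul_one _)
    show p.1.1 * c.kp p.1.2 q 1 = p.1.1
    rw [ck_one h, mul_one]
  inv_mul_cancel p := by
    apply Subtype.ext
    refine Prod.ext ?_ (inv_mul_cancel _)
    show (c.kp p.1.2⁻¹ q p.1.1)⁻¹ * c.kp p.1.2⁻¹ q p.1.1 = 1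
    rw [inv_mul_cancel]

theorem gc_mul1 (h : c.Valid) (q : C) (p r : GC c h q) :
    (p * r).1.1 = p.1.1 * c.kp p.1.2 q r.1.1 := rfl

theorem gc_mul2 (h : c.Valid) (q : C) (p r : GC c h q) : (p * r).1.2 = p.1.2 * r.1.2 := rfl

theorem gc_one1 (h : c.Valid) (q : C) : (1 : GC c h q).1.1 = 1 := rfl

theorem gc_one2 (h : c.Valid) (q : C) : (1 : GC c h q).1.2 = 1 := rfl

theorem gc_ext {h : c.Valid} {q : C} {p r : GC c h q} (h1 : p.1.1 = r.1.1) (h2 : p.1.2 = r.1.2) :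
    p = r := Subtype.ext (Prod.ext h1 h2)

/-- systems of elements of a group which satisfy the relations of a code with base point `q0`; the
elements `X q` describe paths from `q0` to `q` -/
structure Sy (c : Cod V C D) (q0 : C) (X : C → RA c.Γ) {K : Type} [Group K] (E : C → V → K)
    (T : D → C → K) : Prop where
  coc : Coc c.ρ E
  sym : ∀ u q v, T u q * E q v = ke c.ρ E (c.β u q) (gen (c.τ u q v) ^ c.la u q v) *
    T u (rm c.ρ q (gen v))
  mul : ∀ u u' q, T u (c.β u' q) * T u' q = T (u * u') q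
  tree : ∀ q, ke c.ρ E q0 (X q) = 1

/-- refinements of codes -/
structure Ref {R D1 : Type} [Group D1] (c1 : Cod V R D1) (c : Cod V C D) (a : R → C)
    (π : D1 →* D) : Prop where
  gr : c1.Γ = c.Γ
  mv : ∀ r v, a (rm c1.ρ r (gen v)) = rm c.ρ (a r) (gen v)
  eqv : ∀ u r, a (c1.β u r) = c.β (π u) (a r)
  tau : ∀ u r v, c1.τ u r v = c.τ (π u) (a r) v
  lam : ∀ u r v, c1.la u r v = c.la (π u) (a r) v
  sur : Function.Surjective π
  tr : ∀ r r', a r = a r' → ∃ u, π u = 1 ∧ c1.β u r = r'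
  free : ∀ u r, π u = 1 → c1.β u r = r → u = 1

/-- similarity of codes -/
structure Sim {V' C' D' : Type} [Group D'] (c : Cod V C D) (c' : Cod V' C' D') (F : C ≃ C')
    (ψ : D ≃* D') (τ : C → V ≃ V') (la : C → V → ℤ) : Prop where
  dt : Dt c.ρ c'.ρ F τ la
  eqv : ∀ u q, F (c.β u q) = c'.β (ψ u) (F q)
  tau : ∀ u q v, τ (c.β u q) (c.τ u q v) = c'.τ (ψ u) (F q) (τ q v)
  lam : ∀ u q v, sh (pv c.ρ (c.τ u q v)) (fun d => la d (c.τ u q v)) (c.β u q) (c.la u q v) =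
    sh (pv c'.ρ (τ q v)) (fun d => c'.la (ψ u) d (τ q v)) (F q) (la q v)

end

end RaagIso
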