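import Pool.Agent.Lib.MP_32d917_al_raag.G02
import Pool.Agent.Lib.MP_32d917_al_raag.G04
import Pool.Agent.Lib.MP_32d917_al_raag.G05
import Pool.Agent.Lib.MP_32d917_al_raag.G10
import Pool.Agent.Lib.MP_32d917_al_raag.G11
import Pool.Agent.Lib.MP_32d917_al_raag.G12
import Pool.Agent.Lib.MP_32d917_al_raag.G13

/-!
# Interface for the coding part

`gc_sys` is in `G02`, `code_of_comm` in `G12`.
-/

set_option autoImplicit false

namespace RaagIso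

section

variable {V V' C C' D D' : Type} [Group D] [Group D']

/-- similar codes have isomorphic groups -/
theorem iso_of_sim {c : Cod V C D} {c' : Cod V' C' D'} (h : c.Valid) (h' : c'.Valid)
    {F : C ≃ C'} {ψ : D ≃* D'} {τ : C → V ≃ V'} {la : C → V → ℤ} (hs : Sim c c' F ψ τ la)
    (q : C) (q' : C') : Nonempty (GC c h q ≃* GC c' h' q') := by
  obtain ⟨e⟩ := sim_iso h h' hs q
  obtain ⟨e'⟩ := gc_base h' (F q) q'
  exact ⟨e.trans e'⟩

/-- similar refinements give isomorphic groups -/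
theorem iso_of_match {R D1 : Type} [Group D1] {c : Cod V C D} {c' : Cod V' C' D'}
    {c1 : Cod V R D1} {c1' : Cod V' R D1} (h : c.Valid) (h' : c'.Valid) (h1 : c1.Valid)
    (h1' : c1'.Valid) {a : R → C} {π : D1 →* D} {a' : R → C'} {π' : D1 →* D'}
    (hr : Ref c1 c a π) (hr' : Ref c1' c' a' π') {τ : R → V ≃ V'} {la : R → V → ℤ}
    (hs : Sim c1 c1' (Equiv.refl R) (MulEquiv.refl D1) τ la) (r : R) (q : C) (q' : C') :
    Nonempty (GC c h q ≃* GC c' h' q') := by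
  obtain ⟨e1⟩ := ref_iso h1 h hr r
  obtain ⟨e2⟩ := gc_base h (a r) q
  obtain ⟨e3⟩ := sim_iso h1 h1' hs r
  obtain ⟨e4⟩ := ref_iso h1' h' hr' r
  obtain ⟨e5⟩ := gc_base h' (a' r) q'
  exact ⟨(e1.trans e2).symm.trans (e3.trans (e4.trans e5))⟩

/-- isomorphic groups have similar refinements -/
theorem match_of_iso [Finite V] [Finite V'] [Finite C] [Finite C'] [Finite D] [Finite D']
    {c : Cod V C D} {c' : Cod V' C' D'} (h : c.Valid) (h' : c'.Valid)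
    (hN : NoDom c.Γ) (hS : NoSep c.Γ) (hN' : NoDom c'.Γ) (hS' : NoSep c'.Γ)
    (h2 : ∃ a b : V, a ≠ b) (h2' : ∃ a b : V', a ≠ b) {q : C} {q' : C'}
    (φ : GC c h q ≃* GC c' h' q') :
    ∃ (R D1 : Type) (_ : Group D1) (c1 : Cod V R D1) (c1' : Cod V' R D1) (a : R → C) (π : D1 →* D)
      (a' : R → C') (π' : D1 →* D') (τ : R → V ≃ V') (la : R → V → ℤ),
      Finite R ∧ Finite D1 ∧ Nonempty R ∧ Nat.card R ≤ Nat.card C * Nat.card D' ∧
      Nat.card D1 ≤ Nat.card D * Nat.card D' ∧ c1.Valid ∧ c1'.Valid ∧ Ref c1 c a π ∧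
      Ref c1' c' a' π' ∧ Sim c1 c1' (Equiv.refl R) (MulEquiv.refl D1) τ la := by
  obtain ⟨γ, π, -, -, hr⟩ := gc_rz h q
  obtain ⟨γ', π', -, -, hr'⟩ := gc_rz h' q'
  obtain ⟨M, hMdef⟩ : ∃ M, M = (π.prod (π'.comp φ.toMonoidHom)).ker := ⟨_, rfl⟩
  have hkn : M.Normal := by rw [hMdef]; infer_instance
  have hkf : M.FiniteIndex := by rw [hMdef]; exact Subgroup.finiteIndex_ker _
  have hm : ∀ g, g ∈ M ↔ π g = 1 ∧ π' (φ g) = 1 := by
    intro g
    rw [hMdef, MonoidHom.mem_ker]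
    exact Prod.mk_eq_one
  obtain ⟨R, D1, _, ρ1, β1, τ1, la1, pt1, π1, a, p, fR, fD, v1, rz1, k1, ref1, hp⟩ :=
    ref_of_rz h hr M hkn hkf (fun g hg => ((hm g).1 hg).1)
  obtain ⟨M', hM'def⟩ : ∃ M', M' = M.map φ.toMonoidHom := ⟨_, rfl⟩
  have hmn : M'.Normal := by
    rw [hM'def]
    exact hkn.map φ.toMonoidHom φ.surjective
  have hmf : M'.FiniteIndex := by
    rw [hM'def]
    refine ⟨?_⟩
    rw [Subgroup.index_map_of_bijective (f := φ.toMonoidHom) φ.bijective]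
    exact hkf.index_ne_zero
  have hm' : ∀ g, φ g ∈ M' ↔ g ∈ M := by
    intro g
    rw [hM'def]
    exact Subgroup.mem_map_iff_mem (f := φ.toMonoidHom) φ.injective
  have hmk : M' ≤ π'.ker := by
    intro g' hg'
    obtain ⟨g, rfl⟩ := φ.surjective g'
    exact ((hm g).1 ((hm' g).1 hg')).2
  obtain ⟨R', D1', _, ρ1', β1', τ1', la1', pt1', π1', a', p', fR', fD', v1', rz1', k1', ref1', hp'⟩ :=
    ref_of_rz h' hr' M' hmn hmf hmk
  have hk1 : ∀ g, π1 g = 1 ↔ g ∈ M := fun g => by rw [← k1]; exact Iff.rfl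
  have hk1' : ∀ g, π1' g = 1 ↔ g ∈ M' := fun g => by rw [← k1']; exact Iff.rfl
  obtain ⟨F, ψ, τ, la, hs, hψ⟩ := sim_of_rz v1 v1' hN hS hN' hS' h2 h2' rz1 rz1' φ
    (fun g => by rw [hk1, hk1', hm'])
  have hi : ∀ u, p u = 1 → (p'.comp ψ.toMonoidHom) u = 1 → u = 1 := by
    intro u hu hu'
    obtain ⟨g, rfl⟩ := rz1.sur u
    rw [hp] at hu
    have hu2 : p' (ψ (π1 g)) = 1 := hu'
    rw [hψ, hp'] at hu2
    exact (hk1 g).2 ((hm g).2 ⟨hu, hu2⟩)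
  exact ⟨R, D1, inferInstance, ⟨c.Γ, ρ1, β1, τ1, la1⟩,
    (⟨c'.Γ, ρ1', β1', τ1', la1'⟩ : Cod V' R' D1').tr F ψ, a, p, fun r => a' (F r),
    p'.comp ψ.toMonoidHom, τ, la, fR, fD, ⟨pt1 1⟩, card_R ref1 _ hi, card_D1 p _ hi, v1,
    tr_valid v1' F ψ, ref1, tr_ref ref1' F ψ, tr_sim hs⟩

end

end RaagIso
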