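import Pool.Agent.Lib.MP_32d917_al_raag.GDefs

/-!
# Realisations of codes, transport of codes
-/

set_option autoImplicit false

namespace RaagIso

section

variable {V C D : Type} [Group D]

/-- the code `c` is realised by an action `γ` of the group `G` on the set `RA c.Γ`: `pt` is the quotient
by the kernel of `π`, which acts by left multiplications -/
structure Rz {G : Type} [Group G] (c : Cod V C D) (γ : G →* Equiv.Perm (RA c.Γ))
    (pt : RA c.Γ → C) (π : G →* D) : Prop where
  sur : Function.Surjective π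
  psur : Function.Surjective pt
  mv : ∀ x y, rm c.ρ (pt x) y = pt (x * y)
  eqv : ∀ g x, c.β (π g) (pt x) = pt (γ g x)
  mul : ∀ g x v, γ g (x * gen v) = γ g x * gen (c.τ (π g) (pt x) v) ^ c.la (π g) (pt x) v
  ker : ∀ g, π g = 1 → ∀ x, γ g x = γ g 1 * x
  inj : ∀ g, π g = 1 → γ g 1 = 1 → g = 1
  tr : ∀ x y, pt x = pt y → ∃ g, π g = 1 ∧ γ g x = y

/-- a group `G` acting on the set `RA Γ` by generalised automorphisms, such that the normal subgroup
`N` of finite index acts by left multiplications by the elements of a subgroup of finite index -/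
structure GA {G : Type} [Group G] (Γ : SimpleGraph V) (γ : G →* Equiv.Perm (RA Γ))
    (τ : G → RA Γ → V ≃ V) (la : G → RA Γ → V → ℤ) (N : Subgroup G) : Prop where
  gi : ∀ g, GI Γ Γ (γ g) (τ g) (la g)
  line : ∀ g x v (k : ℤ), ∃ n : ℤ, γ g (x * gen v ^ n) = γ g x * gen (τ g x v) ^ k
  nor : N.Normal
  fin : N.FiniteIndex
  act : ∀ n ∈ N, ∀ x, γ n x = γ n 1 * x
  inj : ∀ n ∈ N, γ n 1 = 1 → n = 1
  ifin : ∃ K : Subgroup (RA Γ), K.FiniteIndex ∧ ∀ y, y ∈ K ↔ ∃ n ∈ N, γ n 1 = y

/-- transport of a code along bijections -/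
def Cod.tr {C' D' : Type} [Group D'] (c : Cod V C' D') (F : C ≃ C') (ψ : D ≃* D') :
    Cod V C D where
  Γ := c.Γ
  ρ := F.symm.permCongrHom.toMonoidHom.comp c.ρ
  β := (F.symm.permCongrHom.toMonoidHom.comp c.β).comp ψ.toMonoidHom
  τ u q := c.τ (ψ u) (F q)
  la u q := c.la (ψ u) (F q)

end

end RaagIso
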