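import Pool.Agent.Lib.MP_32d917_al_raag.KDefs
import Pool.Agent.Lib.MP_32d917_al_raag.C07

/-!
# K00: numerical displacement functions

All statements are about one permutation `σ = pv X.ρ v` with `σ ^ M = 1`, `M = MM (bs c)`, and the function `l = X.la u · v`; `sh_nat`, `sh_add`, `pv_zpow` in B02 / BDefs, `it_eq` in C07 (for `gen v ^ l`; it is stated for
`ρ : RA (gr c) →* ...` with `IsRho`; after `rcases X with ⟨Γ, ρ, β, τ, la⟩` and `obtain rfl : Γ = gr (bs c) := hX.gr` this applies).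

`k0_M`: `sh (n + k * M) = sh n + k * sh M` for `n k : ℤ`: `σ ^ M = 1`, so `sh (n + M) = sh (M + n) = sh M + sh n`, induction.
`sh_shE`: `sh_nat` and `it_eq`. `sh_shZ`: `iv n = n.1 - n.2 = (n.1 + (M - 1) * n.2) - M * n.2` and `k0_M`. `k0_act`: `gen w ^ iv n` and `gen w ^ arg M n` act in the same way on the points.
-/

set_option autoImplicit false

namespace RaagIso

open LatIso AdmIso

theorem k0_M {C : Type} {σ : Equiv.Perm C} {l : C → ℤ} {M : ℕ} (hσ : σ ^ M = 1) (c : C) (n k : ℤ) :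
    sh σ l c (n + k * M) = sh σ l c n + k * sh σ l c M := by
  have h1 : ∀ y : ℤ, sh σ l c (M + y) = sh σ l c M + sh σ l c y := by
    intro y
    rw [sh_add, zpow_natCast, hσ, Equiv.Perm.one_apply]
  induction k using Int.induction_on with
  | zero => simp
  | succ k ih =>
    have h2 : n + ((k : ℤ) + 1) * M = M + (n + k * M) := by ring
    rw [h2, h1, ih]
    ring
  | pred k ih =>
    have h2 : n + -(k : ℤ) * M = M + (n + (-(k : ℤ) - 1) * M) := by ring
    rw [h2, h1] at ih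
    linarith

theorem k0_pos (c : Cd) : 0 < MM c := Nat.factorial_pos _

/-- `pv X.ρ v ^ M = 1` -/
theorem k0_pv {V : Type} {Γ : SimpleGraph V} {n : ℕ} (ρ : RA Γ →* Equiv.Perm (Fin n)) (v : V) :
    pv ρ v ^ n.factorial = 1 := by
  have h1 : n.factorial = Fintype.card (Equiv.Perm (Fin n)) := by
    rw [Fintype.card_perm, Fintype.card_fin]
  rw [h1]
  exact pow_card_eq_one

section

variable {c : Ce} [Group (GF c.1.2.2)] {X : Cod (Fin (eV c)) (Fin (eC c)) (GF c.1.2.2)}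

theorem k0_it (hX : IsC c X) (i : Fin (eC c)) (v : Fin (eV c)) (l : ℕ) :
    ((rm X.ρ i (gen v ^ l) : Fin (eC c)) : ℕ) = itN (bs c) i v l := by
  induction l with
  | zero =>
    rw [pow_zero, rm_one]
    rfl
  | succ l ih =>
    rw [pow_succ, rm_mul, hX.mv, ih]
    unfold itN
    rw [Function.iterate_succ_apply']

theorem k0_zp (X : Cod (Fin (eV c)) (Fin (eC c)) (GF c.1.2.2)) (i : Fin (eC c)) (v : Fin (eV c))
    (n k : ℤ) : rm X.ρ i (gen v ^ (n + k * (MM (bs c) : ℤ))) = rm X.ρ i (gen v ^ n) := by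
  rw [← pv_zpow, ← pv_zpow, zpow_add, mul_comm k, zpow_mul, zpow_natCast,
    show pv X.ρ v ^ MM (bs c) = 1 from k0_pv X.ρ v, one_zpow, mul_one]

theorem k0_iv (M : ℕ) (hM : 0 < M) (n : PI) : iv n = (arg M n : ℤ) + -(n.2 : ℤ) * (M : ℤ) := by
  obtain ⟨m, rfl⟩ : ∃ m, M = m + 1 := ⟨M - 1, by omega⟩
  unfold iv arg
  rw [Nat.add_sub_cancel]
  push_cast
  ring

theorem k0_act (hX : IsC c X) (i : Fin (eC c)) (v : Fin (eV c)) (n : PI) :
    ((rm X.ρ i (gen v ^ iv n) : Fin (eC c)) : ℕ) = itN (bs c) i v (arg (MM (bs c)) n) := by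
  rw [k0_iv (MM (bs c)) (k0_pos _) n, k0_zp, zpow_natCast, k0_it hX]

theorem sh_shE (hX : IsC c X) (u : GF c.1.2.2) (i : Fin (eC c)) (v : Fin (eV c)) (n : ℕ) :
    sh (pv X.ρ v) (fun d => X.la u d v) i (n : ℤ) = iv (shE c u.n i v n) := by
  rw [sh_nat]
  unfold shE iv
  rw [Nat.cast_sum, Nat.cast_sum, ← Finset.sum_sub_distrib]
  refine Finset.sum_congr rfl (fun l _ => ?_)
  have h1 : (pv X.ρ v ^ l) i = rm X.ρ i (gen v ^ l) := by
    have h2 := pv_zpow X.ρ v (l : ℤ) i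
    rwa [zpow_natCast, zpow_natCast] at h2
  rw [h1, hX.la, k0_it hX]
  rfl

theorem sh_shZ (hX : IsC c X) (u : GF c.1.2.2) (i : Fin (eC c)) (v : Fin (eV c)) (n : PI) :
    sh (pv X.ρ v) (fun d => X.la u d v) i (iv n) = iv (shZ c u.n i v n) := by
  rw [k0_iv (MM (bs c)) (k0_pos _) n, k0_M (show pv X.ρ v ^ MM (bs c) = 1 from k0_pv X.ρ v),
    sh_shE hX, sh_shE hX]
  unfold shZ iv psub pmul
  push_cast
  ring

end

end RaagIso
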