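import Pool.Agent.Lib.MP_32d917_al_raag.K00
import Pool.Agent.Lib.MP_32d917_al_adm.C01

/-!
# K01: a valid code defines a `Cod`

`grp_exists`: `Group.ofLeftAxioms` (or by hand) on `GF c.1.2.2 = Fin (eD c)` with the multiplication `muE`, unit number `0`.

`cod_exists`: the unit of the given group structure has the number `0` (`z * z = z` for the element number `0`). Graph `gr (bs c)`, `ρ` from `rho_exists` (C01). `β u` is the permutation `i ↦ beE c u.n i` with inverse `beE c u⁻¹.n`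
(`GrpE`: `beE` is multiplicative, `beE c 0 = id`). `τ u i` is the bijection `v ↦ taE c u.n i v` with inverse `w ↦ taE c u⁻¹.n (beE c u.n i) w` (`taE` multiplicative and `taE c 0 i v = v`). `la u i v = iv (laE c u.n i v)`.
Validity. `trn`: the set of points reachable from `0` (as number `s`, `CB.exists_pred`) is closed under the moves, so it is everything; then use inverses. `dt`: `adj`, `tau` from `AutE`; `lam` from `PEq` (`AdmIso.peq_iff`: `PEq x y ↔ iv x = iv y`, file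
`MP_32d917_al_adm/C01.lean`); `mul` with `k0_act`; `bij` with `sh_bij_iff` (B02, `M = MM (bs c)`, `k0_pv`) and `sh_shE`: divisibility of `iv x - iv y` by `M` is the congruence of `x.1 + y.2` and `y.1 + x.2`. `tau`, `lam` of `Valid`: `sh_shZ`.
(`sh_shE` etc. need `IsC c X` only, so first define `X`, prove `IsC c X`, then the validity.)
-/

set_option autoImplicit false

namespace RaagIso

open LatIso AdmIso

theorem k1_lt {d : ℕ} (u : GF d) : u.n < d + 1 := Fin.isLt u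

theorem k1_ext {d : ℕ} {u u' : GF d} (h : u.n = u'.n) : u = u' := Fin.ext h

theorem grp_exists (c : Ce) (h : GrpE c) :
    ∃ _ : Group (GF c.1.2.2), ∀ u u' : GF c.1.2.2, (u * u').n = muE c u.n u'.n := by
  have hlt : ∀ x y, muE c x y < c.1.2.2 + 1 := fun x y => CB.dg_lt _ _ _
  have hinv : ∀ u : GF c.1.2.2, ∃ u' : GF c.1.2.2, muE c u'.n u.n = 0 := by
    intro u
    obtain ⟨u', hu', h'⟩ := h.2.2.1 u.n (k1_lt u)
    exact ⟨(⟨u', hu'⟩ : Fin (c.1.2.2 + 1)), h'⟩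
  choose inv hinv' using hinv
  let _ : Mul (GF c.1.2.2) := ⟨fun u u' => (⟨muE c u.n u'.n, hlt _ _⟩ : Fin (c.1.2.2 + 1))⟩
  let _ : One (GF c.1.2.2) := ⟨(⟨0, Nat.succ_pos _⟩ : Fin (c.1.2.2 + 1))⟩
  let _ : Inv (GF c.1.2.2) := ⟨inv⟩
  refine ⟨Group.ofLeftAxioms ?_ ?_ ?_, fun u u' => rfl⟩
  · intro u u' u''
    exact k1_ext (h.1 u.n (k1_lt u) u'.n (k1_lt u') u''.n (k1_lt u''))
  · intro u
    exact k1_ext (h.2.1 u.n (k1_lt u)).1
  · intro u
    exact k1_ext (hinv' u)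

theorem gf_one {c : Ce} (h : GrpE c) [I : Group (GF c.1.2.2)]
    (hI : ∀ u u' : GF c.1.2.2, (u * u').n = muE c u.n u'.n) : (1 : GF c.1.2.2).n = 0 := by
  obtain ⟨z, hz⟩ : ∃ z : GF c.1.2.2, z.n = 0 := ⟨(⟨0, Nat.succ_pos _⟩ : Fin (c.1.2.2 + 1)), rfl⟩
  have h1 : z * z = z := by
    apply k1_ext
    rw [hI, hz]
    exact (h.2.1 0 (Nat.succ_pos _)).1
  rw [← mul_eq_left.1 h1]
  exact hz

theorem isC_exists (c : Ce) (h : ValE c) [I : Group (GF c.1.2.2)]
    (hI : ∀ u u' : GF c.1.2.2, (u * u').n = muE c u.n u'.n) :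
    ∃ X : Cod (Fin (eV c)) (Fin (eC c)) (GF c.1.2.2), IsC c X := by
  have hG := h.2.2.1
  have h1 := gf_one hG hI
  obtain ⟨ρ, hρ⟩ := rho_exists (bs c) h.1
  have hbl : ∀ u i, beE c u i < eC c := fun u i => CB.dg_lt _ _ _
  have htl : ∀ u i v, taE c u i v < eV c := fun u i v => CB.dg_lt _ _ _
  have hb : ∀ (u u' : GF c.1.2.2) (i : ℕ), i < eC c →
      beE c u.n (beE c u'.n i) = beE c (u * u').n i := by
    intro u u' i hi
    rw [hI]
    exact (hG.2.2.2.1 u.n (k1_lt u) u'.n (k1_lt u') i hi).symm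
  have hb1 : ∀ i : ℕ, i < eC c → beE c (1 : GF c.1.2.2).n i = i := by
    intro i hi
    rw [h1]
    exact hG.2.2.2.2.1 i hi
  have ht : ∀ (u u' : GF c.1.2.2) (i v : ℕ), i < eC c → v < eV c →
      taE c u.n (beE c u'.n i) (taE c u'.n i v) = taE c (u * u').n i v := by
    intro u u' i v hi hv
    rw [hI]
    exact hG.2.2.2.2.2.1 u.n (k1_lt u) u'.n (k1_lt u') i hi v hv
  have ht1 : ∀ i v : ℕ, i < eC c → v < eV c → taE c (1 : GF c.1.2.2).n i v = v := by
    intro i v hi hv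
    rw [h1]
    exact hG.2.2.2.2.2.2 i hi v hv
  let pb : GF c.1.2.2 → Equiv.Perm (Fin (eC c)) := fun u =>
    { toFun := fun i => ⟨beE c u.n i, hbl _ _⟩
      invFun := fun i => ⟨beE c u⁻¹.n i, hbl _ _⟩
      left_inv := fun i => Fin.ext (by
        show beE c u⁻¹.n (beE c u.n i) = i
        rw [hb _ _ _ i.2, inv_mul_cancel, hb1 _ i.2])
      right_inv := fun i => Fin.ext (by
        show beE c u.n (beE c u⁻¹.n i) = i
        rw [hb _ _ _ i.2, mul_inv_cancel, hb1 _ i.2]) }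
  let β : GF c.1.2.2 →* Equiv.Perm (Fin (eC c)) := MonoidHom.mk' pb (fun u u' =>
    Equiv.ext fun i => Fin.ext (hb u u' i i.2).symm)
  let τ : GF c.1.2.2 → Fin (eC c) → Fin (eV c) ≃ Fin (eV c) := fun u i =>
    { toFun := fun v => ⟨taE c u.n i v, htl _ _ _⟩
      invFun := fun w => ⟨taE c u⁻¹.n (beE c u.n i) w, htl _ _ _⟩
      left_inv := fun v => Fin.ext (by
        show taE c u⁻¹.n (beE c u.n i) (taE c u.n i v) = v
        rw [ht _ _ _ _ i.2 v.2, inv_mul_cancel, ht1 _ _ i.2 v.2])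
      right_inv := fun w => Fin.ext (by
        show taE c u.n i (taE c u⁻¹.n (beE c u.n i) w) = w
        have h2 := ht u u⁻¹ (beE c u.n i) w (hbl _ _) w.2
        rw [hb _ _ _ i.2, inv_mul_cancel, hb1 _ i.2, mul_inv_cancel, ht1 _ _ (hbl _ _) w.2] at h2
        exact h2) }
  exact ⟨⟨gr (bs c), ρ, β, τ, fun u i v => iv (laE c u.n i v)⟩, rfl, hρ, hI, fun u i => rfl,
    fun u i v => rfl, fun u i v => rfl⟩

theorem isC_valid {c : Ce} (h : ValE c) [I : Group (GF c.1.2.2)]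
    {X : Cod (Fin (eV c)) (Fin (eC c)) (GF c.1.2.2)} (hX : IsC c X) : X.Valid := by
  have hV := h.1
  have hT := h.2.1
  have hG := h.2.2.1
  have hA := h.2.2.2.1
  have hL := h.2.2.2.2
  refine ⟨?_, ?_, ?_, ?_⟩
  · -- transitivity
    have h0 : ∀ i : Fin (eC c), ∃ x, rm X.ρ (0 : Fin (eC c)) x = i := by
      obtain ⟨s, hs, hsK⟩ := CB.exists_pred c.1.2.1 (fun i : Fin (c.1.2.1 + 1) =>
        ∃ x, rm X.ρ (0 : Fin (eC c)) x = i)
      have h1 := hT s hs ((hsK 0).2 ⟨1, rm_one _ _⟩) (by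
        intro i hi v hv h2
        obtain ⟨x, hx⟩ := (hsK ⟨i, hi⟩).1 h2
        have h3 := hX.mv ⟨i, hi⟩ ⟨v, hv⟩
        rw [← hx, ← rm_mul] at h3
        have h4 := (hsK (rm X.ρ (0 : Fin (eC c)) (x * gen ⟨v, hv⟩))).2 ⟨_, rfl⟩
        rw [h3, hx] at h4
        exact h4)
      intro i
      exact (hsK i).1 (h1 i i.2)
    intro i j
    obtain ⟨x, hx⟩ := h0 i
    obtain ⟨y, hy⟩ := h0 j
    exact ⟨x⁻¹ * y, by rw [← hx, ← rm_mul, mul_inv_cancel_left, hy]⟩
  · intro u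
    refine ⟨?_, ?_, ?_, ?_, ?_⟩
    · intro i v w
      rw [hX.gr, gr_adj, gr_adj, hX.ta, hX.ta]
      exact hA.1 u.n (k1_lt u) i i.2 v v.2 w w.2
    · intro i v w hw
      apply Fin.ext
      rw [hX.ta, hX.ta, hX.mv]
      refine hA.2.1 u.n (k1_lt u) i i.2 v v.2 w w.2 ?_
      rw [hX.gr] at hw
      exact (gr_st (bs c) v w).1 hw
    · intro i v w hvw
      rw [hX.la, hX.la, hX.mv]
      rw [hX.gr] at hvw
      exact (peq_iff _ _).1 (hA.2.2.1 u.n (k1_lt u) i i.2 v v.2 w w.2 hvw)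
    · intro i v
      apply Fin.ext
      rw [hX.be, hX.mv, hX.la, k0_act hX, hX.be, hX.ta]
      exact hA.2.2.2.1 u.n (k1_lt u) i i.2 v v.2
    · intro i v
      have hM : 0 < MM (bs c) := k0_pos _
      have hσ : pv X.ρ v ^ MM (bs c) = 1 := k0_pv X.ρ v
      obtain ⟨h1, h2⟩ := hA.2.2.2.2 u.n (k1_lt u) i i.2 v v.2
      refine (sh_bij_iff hM hσ i).2 ⟨?_, ?_⟩
      · rw [sh_shE hX]
        rcases h1 with h1 | h1
        · left
          rw [(peq_iff _ _).1 h1]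
          simp [iv]
        · right
          rw [(peq_iff _ _).1 h1]
          simp [iv]
      · intro a b hab hb hd
        apply h2 a (by omega) b hb hab
        rw [sh_shE hX, sh_shE hX] at hd
        have h3 : ((shE c u.n i v a).1 + (shE c u.n i v b).2) ≡
            ((shE c u.n i v b).1 + (shE c u.n i v a).2) [MOD MM (bs c)] := by
          rw [Nat.modEq_iff_dvd]
          refine hd.trans (dvd_of_eq ?_)
          unfold iv
          push_cast
          ring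
        exact h3.symm
  · intro u u' i v
    apply Fin.ext
    rw [hX.ta, hX.ta, hX.ta, hX.be, hX.mul]
    exact hG.2.2.2.2.2.1 u.n (k1_lt u) u'.n (k1_lt u') i i.2 v v.2
  · intro u u' i v
    rw [hX.la u', sh_shZ hX, hX.la, hX.ta, hX.be, hX.mul]
    exact (peq_iff _ _).1 (hL u.n (k1_lt u) u'.n (k1_lt u') i i.2 v v.2)

theorem isC_graph {c : Ce} (h : ValE c) [I : Group (GF c.1.2.2)]
    {X : Cod (Fin (eV c)) (Fin (eC c)) (GF c.1.2.2)} (hX : IsC c X) :
    NoDom X.Γ ∧ NoSep X.Γ ∧ ∃ a b : Fin (eV c), a ≠ b := by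
  rw [hX.gr]
  exact ⟨nodom_code h.1, nosep_code h.1, two_code h.1⟩

end RaagIso
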