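import Pool.Agent.Lib.MP_32d917_al_raag.K00

/-!
# K02: the code of a valid `Cod` is valid

Translation of every condition of `ValE` (see K01 for the other direction). `ValN (bs c)`: the moves are given by the homomorphism `X.ρ`; `NoDom`, `NoSep` for `gr (bs c) = X.Γ` (the subset of the number `s`: `{a | CB.dg 1 s a = 1}`).
Transitivity: `Trn X.ρ`: a set containing `0` and closed under the moves `rm ρ i (gen v)` is closed under the inverses (finite set: the permutation maps the set into itself, so onto itself), so it is everything (`ra_ind` or `wv_surj`, `run_eq`).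
-/

set_option autoImplicit false

namespace RaagIso

open LatIso AdmIso

theorem k02_peq (x y : PI) : PEq x y ↔ iv x = iv y := by
  unfold PEq iv
  omega

theorem k02_adj {c : Ce} [Group (GF c.1.2.2)]
    {X : Cod (Fin (eV c)) (Fin (eC c)) (GF c.1.2.2)} (hX : IsC c X) (v w : Fin (eV c)) :
    X.Γ.Adj v w ↔ AdN (bs c) v w := by
  rw [hX.gr]
  exact Iff.rfl

theorem k02_st {c : Ce} [Group (GF c.1.2.2)]
    {X : Cod (Fin (eV c)) (Fin (eC c)) (GF c.1.2.2)} (hX : IsC c X) (v w : Fin (eV c)) :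
    w ∈ st X.Γ v ↔ StN (bs c) v w := by
  rw [hX.gr]
  exact gr_st _ _ _

/-- the element with a given number -/
def k02U {d : ℕ} (u : ℕ) (hu : u < d + 1) : GF d := (⟨u, hu⟩ : Fin (d + 1))

theorem k02_ext {d : ℕ} {u u' : GF d} (h : u.n = u'.n) : u = u' := Fin.ext h

theorem k02_lt {d : ℕ} (u : GF d) : u.n < d + 1 := Fin.isLt u

/-- a set of points closed under the moves is invariant -/
theorem k02_inv {n : ℕ} {V : Type} {Γ : SimpleGraph V} (ρ : RA Γ →* Equiv.Perm (Fin n))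
    (S : Fin n → Prop) (hS : ∀ i v, S i → S (rm ρ i (gen v))) (x : RA Γ) :
    ∀ i, S i ↔ S (rm ρ i x) := by
  induction x using ra_ind with
  | h1 =>
    intro i
    rw [rm_one]
  | hg v =>
    intro i
    refine ⟨hS i v, fun h => ?_⟩
    have h1 : ∀ m : ℕ, ∀ j, S j → S ((pv ρ v ^ m) j) := by
      intro m
      induction m with
      | zero =>
        intro j hj
        simpa using hj
      | succ m ih =>
        intro j hj
        rw [pow_succ', Equiv.Perm.mul_apply, pv_apply]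
        exact hS _ _ (ih j hj)
    have h2 := h1 (n.factorial - 1) _ h
    have h3 : (pv ρ v ^ (n.factorial - 1)) (rm ρ i (gen v)) = i := by
      rw [← pv_apply, ← Equiv.Perm.mul_apply, ← pow_succ,
        Nat.sub_add_cancel (Nat.factorial_pos n), k0_pv]
      rfl
    rwa [h3] at h2
  | hm x y hx hy =>
    intro i
    rw [rm_mul, ← hy, ← hx]
  | hi x hx =>
    intro i
    rw [hx (rm ρ i x⁻¹), ← rm_mul, inv_mul_cancel, rm_one]

theorem k02_valN {c : Ce} [I : Group (GF c.1.2.2)]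
    {X : Cod (Fin (eV c)) (Fin (eC c)) (GF c.1.2.2)} (hX : IsC c X)
    (hk : 1 ≤ c.1.1) (hN : NoDom X.Γ) (hS : NoSep X.Γ)
    (hr : ∀ (i : Fin (eC c)) (v : Fin (eV c)),
      ((rm X.ρ i (gen v)⁻¹ : Fin (eC c)) : ℕ) = riN (bs c) i v) : ValN (bs c) := by
  refine ⟨hk, ?_, ?_, ?_, ?_⟩
  · intro i hi v hv
    have h1 := hX.mv ⟨i, hi⟩ ⟨v, hv⟩
    have h2 := hr ⟨i, hi⟩ ⟨v, hv⟩
    constructor
    · have h3 := hr (rm X.ρ ⟨i, hi⟩ (gen ⟨v, hv⟩)) ⟨v, hv⟩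
      rw [h1, ← rm_mul, mul_inv_cancel, rm_one] at h3
      exact h3.symm
    · have h3 := hX.mv (rm X.ρ ⟨i, hi⟩ (gen ⟨v, hv⟩)⁻¹) ⟨v, hv⟩
      rw [h2, ← rm_mul, inv_mul_cancel, rm_one] at h3
      exact h3.symm
  · intro i hi v hv w hw h
    have h1 := hX.mv ⟨i, hi⟩ ⟨v, hv⟩
    have h2 := hX.mv ⟨i, hi⟩ ⟨w, hw⟩
    have h3 := hX.mv (rm X.ρ ⟨i, hi⟩ (gen ⟨v, hv⟩)) ⟨w, hw⟩
    have h4 := hX.mv (rm X.ρ ⟨i, hi⟩ (gen ⟨w, hw⟩)) ⟨v, hv⟩
    rw [h1, ← rm_mul, gen_comm ((k02_adj hX ⟨v, hv⟩ ⟨w, hw⟩).2 h)] at h3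
    rw [h2, ← rm_mul] at h4
    exact h3.symm.trans h4
  · intro v hv w hw hvw
    obtain ⟨u, h1, h2⟩ := hN ⟨v, hv⟩ ⟨w, hw⟩ (fun e => hvw (congrArg Fin.val e))
    exact ⟨u, u.2, (k02_adj hX _ _).1 h1, fun h3 => h2 ((k02_st hX _ _).2 h3)⟩
  · intro v hv s _ h a ha b hb h1 h2 h3
    exact hS ⟨v, hv⟩ {a | CB.dg 1 s a = 1} (by
      intro a b h4 h5 h6 h7
      exact h a a.2 b b.2 h4 (fun h8 => h5 ((k02_st hX _ _).2 h8))
        (fun h8 => h6 ((k02_st hX _ _).2 h8)) ((k02_adj hX _ _).1 h7)) ⟨a, ha⟩ ⟨b, hb⟩ h1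
        (fun h8 => h2 ((k02_st hX _ _).1 h8)) (fun h8 => h3 ((k02_st hX _ _).1 h8))

theorem k02_grp {c : Ce} [I : Group (GF c.1.2.2)]
    {X : Cod (Fin (eV c)) (Fin (eC c)) (GF c.1.2.2)} (hX : IsC c X) (hv : X.Valid)
    (h1 : (1 : GF c.1.2.2).n = 0) : GrpE c := by
  refine ⟨?_, ?_, ?_, ?_, ?_, ?_, ?_⟩
  · intro u hu u' hu' u'' hu''
    have h := congrArg GF.n (mul_assoc (k02U u hu) (k02U u' hu') (k02U u'' hu''))
    rw [hX.mul, hX.mul, hX.mul, hX.mul] at h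
    exact h
  · intro u hu
    constructor
    · have h := congrArg GF.n (one_mul (k02U u hu))
      rw [hX.mul, h1] at h
      exact h
    · have h := congrArg GF.n (mul_one (k02U u hu))
      rw [hX.mul, h1] at h
      exact h
  · intro u hu
    refine ⟨(k02U u hu)⁻¹.n, k02_lt _, ?_⟩
    have h := congrArg GF.n (inv_mul_cancel (k02U u hu))
    rw [hX.mul, h1] at h
    exact h
  · intro u hu u' hu' i hi
    have h2 := hX.be (k02U u hu * k02U u' hu') ⟨i, hi⟩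
    have h3 := hX.be (k02U u' hu') ⟨i, hi⟩
    have h4 := hX.be (k02U u hu) (X.β (k02U u' hu') ⟨i, hi⟩)
    rw [map_mul, Equiv.Perm.mul_apply, hX.mul] at h2
    rw [h3] at h4
    exact h2.symm.trans h4
  · intro i hi
    have h2 := hX.be 1 ⟨i, hi⟩
    rw [map_one, h1] at h2
    exact h2.symm
  · intro u hu u' hu' i hi v hv'
    have h2 := hX.ta (k02U u hu * k02U u' hu') ⟨i, hi⟩ ⟨v, hv'⟩
    have h3 := hX.ta (k02U u' hu') ⟨i, hi⟩ ⟨v, hv'⟩
    have h4 := hX.ta (k02U u hu) (X.β (k02U u' hu') ⟨i, hi⟩) (X.τ (k02U u' hu') ⟨i, hi⟩ ⟨v, hv'⟩)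
    rw [hX.mul] at h2
    rw [hv.tau, hX.be, h3] at h4
    exact h4.symm.trans h2
  · intro i hi v hv'
    have h2 := hX.ta 1 ⟨i, hi⟩ ⟨v, hv'⟩
    have h3 := hv.tau 1 1 ⟨i, hi⟩ ⟨v, hv'⟩
    rw [map_one, mul_one, Equiv.Perm.one_apply] at h3
    have h4 := (X.τ 1 ⟨i, hi⟩).injective h3
    rw [h4, h1] at h2
    exact h2.symm

theorem k02_aut {c : Ce} [I : Group (GF c.1.2.2)]
    {X : Cod (Fin (eV c)) (Fin (eC c)) (GF c.1.2.2)} (hX : IsC c X) (hv : X.Valid) : AutE c := by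
  refine ⟨?_, ?_, ?_, ?_, ?_⟩
  · intro u hu i hi v hv' w hw
    have h := (hv.dt (k02U u hu)).adj ⟨i, hi⟩ ⟨v, hv'⟩ ⟨w, hw⟩
    rw [k02_adj hX, k02_adj hX, hX.ta, hX.ta] at h
    exact h
  · intro u hu i hi v hv' w hw h
    have h1 := (hv.dt (k02U u hu)).tau ⟨i, hi⟩ ⟨v, hv'⟩ ⟨w, hw⟩ ((k02_st hX ⟨v, hv'⟩ ⟨w, hw⟩).2 h)
    have h2 := congrArg Fin.val h1
    rw [hX.ta, hX.ta, hX.mv] at h2
    exact h2
  · intro u hu i hi v hv' w hw h
    have h1 := (hv.dt (k02U u hu)).lam ⟨i, hi⟩ ⟨v, hv'⟩ ⟨w, hw⟩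
      ((k02_adj hX ⟨v, hv'⟩ ⟨w, hw⟩).2 h)
    rw [hX.la, hX.la, hX.mv] at h1
    exact (k02_peq _ _).2 h1
  · intro u hu i hi v hv'
    have h1 := (hv.dt (k02U u hu)).mul ⟨i, hi⟩ ⟨v, hv'⟩
    have h2 := congrArg Fin.val h1
    rw [hX.be, hX.mv, hX.la, k0_act hX, hX.be, hX.ta] at h2
    exact h2
  · intro u hu i hi v hv'
    have h1 := (hv.dt (k02U u hu)).bij ⟨i, hi⟩ ⟨v, hv'⟩
    rw [sh_bij_iff (M := MM (bs c)) (k0_pos (bs c)) (k0_pv X.ρ ⟨v, hv'⟩)] at h1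
    obtain ⟨h2, h3⟩ := h1
    rw [sh_shE hX] at h2
    constructor
    · rcases h2 with h2 | h2
      · left
        rw [k02_peq]
        exact h2.trans (by simp [iv])
      · right
        rw [k02_peq]
        exact h2.trans (by simp [iv])
    · intro a ha b hb hab h4
      refine h3 a b hab hb ?_
      rw [sh_shE hX, sh_shE hX]
      have h5 : (((shE c u i v b).1 + (shE c u i v a).2 : ℕ) : ℤ) ≡
          (((shE c u i v a).1 + (shE c u i v b).2 : ℕ) : ℤ) [ZMOD (MM (bs c) : ℕ)] :=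
        (Int.natCast_modEq_iff).2 h4
      have h6 := (Int.modEq_iff_dvd.1 h5.symm)
      have h7 : iv (shE c u i v b) - iv (shE c u i v a) =
          (((shE c u i v b).1 + (shE c u i v a).2 : ℕ) : ℤ) -
            (((shE c u i v a).1 + (shE c u i v b).2 : ℕ) : ℤ) := by
        unfold iv
        push_cast
        ring
      rw [← h7] at h6
      exact h6

theorem val_of_isC {c : Ce} [I : Group (GF c.1.2.2)]
    {X : Cod (Fin (eV c)) (Fin (eC c)) (GF c.1.2.2)} (hX : IsC c X) (hv : X.Valid)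
    (h1 : (1 : GF c.1.2.2).n = 0) (hk : 1 ≤ c.1.1) (hN : NoDom X.Γ) (hS : NoSep X.Γ)
    (hr : ∀ (i : Fin (eC c)) (v : Fin (eV c)),
      ((rm X.ρ i (gen v)⁻¹ : Fin (eC c)) : ℕ) = riN (bs c) i v) : ValE c := by
  refine ⟨k02_valN hX hk hN hS hr, ?_, k02_grp hX hv h1, k02_aut hX hv, ?_⟩
  · intro s _ h0 hs i hi
    have h2 : ∀ (i : Fin (eC c)) (v : Fin (eV c)), CB.dg 1 s i = 1 →
        CB.dg 1 s (rm X.ρ i (gen v) : Fin (eC c)) = 1 := by
      intro i v h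
      rw [hX.mv]
      exact hs i i.2 v v.2 h
    obtain ⟨x, hx⟩ := hv.trn ⟨0, Nat.succ_pos _⟩ ⟨i, hi⟩
    have h3 := (k02_inv X.ρ (fun i => CB.dg 1 s i = 1) h2 x ⟨0, Nat.succ_pos _⟩).1 h0
    rw [hx] at h3
    exact h3
  · intro u hu u' hu' i hi v hv'
    have h2 := hv.lam (k02U u hu) (k02U u' hu') ⟨i, hi⟩ ⟨v, hv'⟩
    rw [hX.la, hX.la, sh_shZ hX, hX.mul, hX.be, hX.ta] at h2
    exact (k02_peq _ _).2 h2

end RaagIso
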