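import Pool.Agent.Lib.MP_32d917_al_raag.GDefs

/-!
# K04: transport of codes along bijections

`tq_exists`: the graph `Γ'` with `Γ'.Adj a b ↔ c.Γ.Adj (eV.symm a) (eV.symm b)`; `RA Γ' →* RA c.Γ` by `ra_lift` (`gen a ↦ gen (eV.symm a)`), followed by `c.ρ` and conjugation with `eC` (`Equiv.permCongr` is a group isomorphism: `Equiv.Perm.permCongrHom` or similar).
`β'`, `τ'`, `la'` by conjugation. Validity: transport of every condition; `sh`: `(shP σ' l' ^ n) (eC c, m)` corresponds to `(shP σ l ^ n) (c, m)`; lemma: if `σ' (e c) = e (σ c)` and `l' (e c) = l c` then `sh σ' l' (e c) n = sh σ l c n` (`k4_sh`, by `sh_unique` or induction).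
`Trn`: every element of `RA c.Γ` is a word in the generators; or use that `RA Γ' →* RA c.Γ` is surjective.

`tq_sim`: `sh` of the constant function `1` is the identity (`sh σ (fun _ => 1) c n = n`).
-/

set_option autoImplicit false

namespace RaagIso

section

variable {V V' C C' D D' : Type} [Group D] [Group D']

theorem k04_zpow {C C' : Type} {σ : Equiv.Perm C} {σ' : Equiv.Perm C'} (e : C ≃ C')
    (h1 : ∀ c, σ' (e c) = e (σ c)) (c : C) (n : ℤ) : (σ' ^ n) (e c) = e ((σ ^ n) c) := by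
  have h2 : σ' = e.permCongrHom σ := by
    ext x
    obtain ⟨y, rfl⟩ := e.surjective x
    rw [h1]
    simp
  rw [h2, ← map_zpow]
  simp

theorem k4_sh {C C' : Type} {σ : Equiv.Perm C} {σ' : Equiv.Perm C'} {l : C → ℤ} {l' : C' → ℤ}
    (e : C ≃ C') (h1 : ∀ c, σ' (e c) = e (σ c)) (h2 : ∀ c, l' (e c) = l c) (c : C) (n : ℤ) :
    sh σ' l' (e c) n = sh σ l c n := by
  refine sh_unique (σ := σ) (l := l) c (sh σ' l' (e c)) (sh_zero _) ?_ n
  intro m
  rw [b02_succ, k04_zpow e h1, h2]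

/-- `c'` is the transport of `c` -/
structure TrR (c : Cod V C D) (c' : Cod V' C' D') (eV : V ≃ V') (eC : C ≃ C') (eD : D ≃* D') :
    Prop where
  adj : ∀ v w, c.Γ.Adj v w ↔ c'.Γ.Adj (eV v) (eV w)
  mv : ∀ i v, rm c'.ρ (eC i) (gen (eV v)) = eC (rm c.ρ i (gen v))
  be : ∀ u i, c'.β (eD u) (eC i) = eC (c.β u i)
  ta : ∀ u i v, c'.τ (eD u) (eC i) (eV v) = eV (c.τ u i v)
  la : ∀ u i v, c'.la (eD u) (eC i) (eV v) = c.la u i v

theorem k04_pv {c : Cod V C D} {c' : Cod V' C' D'} {eV : V ≃ V'} {eC : C ≃ C'} {eD : D ≃* D'}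
    (h : TrR c c' eV eC eD) (v : V) (i : C) : pv c'.ρ (eV v) (eC i) = eC (pv c.ρ v i) := by
  rw [pv_apply, pv_apply, h.mv]

theorem k04_pow {c : Cod V C D} {c' : Cod V' C' D'} {eV : V ≃ V'} {eC : C ≃ C'} {eD : D ≃* D'}
    (h : TrR c c' eV eC eD) (v : V) (i : C) (n : ℤ) :
    rm c'.ρ (eC i) (gen (eV v) ^ n) = eC (rm c.ρ i (gen v ^ n)) := by
  rw [← pv_zpow, ← pv_zpow, k04_zpow eC (k04_pv h v)]

theorem k04_shla {c : Cod V C D} {c' : Cod V' C' D'} {eV : V ≃ V'} {eC : C ≃ C'} {eD : D ≃* D'}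
    (h : TrR c c' eV eC eD) (u : D) (v : V) (i : C) (n : ℤ) :
    sh (pv c'.ρ (eV v)) (fun d => c'.la (eD u) d (eV v)) (eC i) n =
      sh (pv c.ρ v) (fun d => c.la u d v) i n :=
  k4_sh eC (k04_pv h v) (fun d => h.la u d v) i n

theorem k04_st {c : Cod V C D} {c' : Cod V' C' D'} {eV : V ≃ V'} {eC : C ≃ C'} {eD : D ≃* D'}
    (h : TrR c c' eV eC eD) (v w : V) : eV w ∈ st c'.Γ (eV v) ↔ w ∈ st c.Γ v := by
  unfold st
  simp only [Set.mem_ofPred_eq, EmbeddingLike.apply_eq_iff_eq, ← h.adj]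

theorem k04_word {c : Cod V C D} {c' : Cod V' C' D'} {eV : V ≃ V'} {eC : C ≃ C'} {eD : D ≃* D'}
    (h : TrR c c' eV eC eD) (x : RA c.Γ) :
    ∃ x' : RA c'.Γ, ∀ q, rm c'.ρ (eC q) x' = eC (rm c.ρ q x) := by
  refine ra_ind (C := fun x => ∃ x' : RA c'.Γ, ∀ q, rm c'.ρ (eC q) x' = eC (rm c.ρ q x))
    ?_ ?_ ?_ ?_ x
  · exact ⟨1, fun q => by rw [rm_one, rm_one]⟩
  · intro v
    exact ⟨gen (eV v), fun q => h.mv q v⟩
  · rintro x y ⟨x', hx⟩ ⟨y', hy⟩
    exact ⟨x' * y', fun q => by rw [rm_mul, rm_mul, hx, hy]⟩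
  · rintro x ⟨x', hx⟩
    refine ⟨x'⁻¹, fun q => ?_⟩
    have h1 := hx (rm c.ρ q x⁻¹)
    rw [← rm_mul, inv_mul_cancel, rm_one] at h1
    rw [← h1, ← rm_mul, mul_inv_cancel, rm_one]

theorem k04_valid {c : Cod V C D} {c' : Cod V' C' D'} {eV : V ≃ V'} {eC : C ≃ C'} {eD : D ≃* D'}
    (h : TrR c c' eV eC eD) (hv : c.Valid) : c'.Valid where
  trn := by
    intro a b
    obtain ⟨a, rfl⟩ := eC.surjective a
    obtain ⟨b, rfl⟩ := eC.surjective b
    obtain ⟨x, hx⟩ := hv.trn a b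
    obtain ⟨x', hx'⟩ := k04_word h x
    exact ⟨x', by rw [hx', hx]⟩
  dt := by
    intro u
    obtain ⟨u, rfl⟩ := eD.surjective u
    have hd := hv.dt u
    refine ⟨?_, ?_, ?_, ?_, ?_⟩
    · intro q v w
      obtain ⟨q, rfl⟩ := eC.surjective q
      obtain ⟨v, rfl⟩ := eV.surjective v
      obtain ⟨w, rfl⟩ := eV.surjective w
      rw [h.ta, h.ta, ← h.adj, ← h.adj]
      exact hd.adj q v w
    · intro q v w hw
      obtain ⟨q, rfl⟩ := eC.surjective q
      obtain ⟨v, rfl⟩ := eV.surjective v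
      obtain ⟨w, rfl⟩ := eV.surjective w
      rw [h.mv, h.ta, h.ta, hd.tau q v w ((k04_st h v w).1 hw)]
    · intro q v w hw
      obtain ⟨q, rfl⟩ := eC.surjective q
      obtain ⟨v, rfl⟩ := eV.surjective v
      obtain ⟨w, rfl⟩ := eV.surjective w
      rw [h.mv, h.la, h.la, hd.lam q v w ((h.adj v w).2 hw)]
    · intro q v
      obtain ⟨q, rfl⟩ := eC.surjective q
      obtain ⟨v, rfl⟩ := eV.surjective v
      rw [h.mv, h.be, h.be, h.ta, h.la, k04_pow h, hd.mul]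
    · intro q v
      obtain ⟨q, rfl⟩ := eC.surjective q
      obtain ⟨v, rfl⟩ := eV.surjective v
      have h1 : sh (pv c'.ρ (eV v)) (fun d => c'.la (eD u) d (eV v)) (eC q) =
          sh (pv c.ρ v) (fun d => c.la u d v) q := funext (k04_shla h u v q)
      rw [h1]
      exact hd.bij q v
  tau := by
    intro u u' q v
    obtain ⟨u, rfl⟩ := eD.surjective u
    obtain ⟨u', rfl⟩ := eD.surjective u'
    obtain ⟨q, rfl⟩ := eC.surjective q
    obtain ⟨v, rfl⟩ := eV.surjective v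
    rw [h.be, h.ta, h.ta, ← map_mul, h.ta, hv.tau]
  lam := by
    intro u u' q v
    obtain ⟨u, rfl⟩ := eD.surjective u
    obtain ⟨u', rfl⟩ := eD.surjective u'
    obtain ⟨q, rfl⟩ := eC.surjective q
    obtain ⟨v, rfl⟩ := eV.surjective v
    rw [h.be, h.ta, h.la, ← map_mul, h.la, k04_shla h, hv.lam]

theorem tq_exists (c : Cod V C D) (hv : c.Valid) (eV : V ≃ V') (eC : C ≃ C') (eD : D ≃* D') :
    ∃ c' : Cod V' C' D', c'.Valid ∧ TrR c c' eV eC eD := by
  obtain ⟨F, hF⟩ := ra_lift (Γ := c.Γ.comap eV.symm) (K := RA c.Γ)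
    (fun a => gen (eV.symm a)) (fun v w hvw => gen_comm hvw)
  let c' : Cod V' C' D' :=
    { Γ := c.Γ.comap eV.symm
      ρ := (eC.permCongrHom.toMonoidHom.comp c.ρ).comp F
      β := (eC.permCongrHom.toMonoidHom.comp c.β).comp eD.symm.toMonoidHom
      τ := fun u q => eV.symm.trans ((c.τ (eD.symm u) (eC.symm q)).trans eV)
      la := fun u q v => c.la (eD.symm u) (eC.symm q) (eV.symm v) }
  have h : TrR c c' eV eC eD := by
    refine ⟨?_, ?_, ?_, ?_, ?_⟩
    · intro v w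
      show c.Γ.Adj v w ↔ c.Γ.Adj (eV.symm (eV v)) (eV.symm (eV w))
      rw [Equiv.symm_apply_apply, Equiv.symm_apply_apply]
    · intro i v
      show eC.permCongrHom (c.ρ (F (gen (eV v))⁻¹)) (eC i) = eC (c.ρ (gen v)⁻¹ i)
      rw [map_inv F, hF, Equiv.symm_apply_apply]
      simp
    · intro u i
      show eC.permCongrHom (c.β (eD.symm (eD u))) (eC i) = eC (c.β u i)
      rw [MulEquiv.symm_apply_apply]
      simp
    · intro u i v
      show eV (c.τ (eD.symm (eD u)) (eC.symm (eC i)) (eV.symm (eV v))) = eV (c.τ u i v)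
      rw [MulEquiv.symm_apply_apply, Equiv.symm_apply_apply, Equiv.symm_apply_apply]
    · intro u i v
      show c.la (eD.symm (eD u)) (eC.symm (eC i)) (eV.symm (eV v)) = c.la u i v
      rw [MulEquiv.symm_apply_apply, Equiv.symm_apply_apply, Equiv.symm_apply_apply]
  exact ⟨c', k04_valid h hv, h⟩

theorem tq_graph {c : Cod V C D} {c' : Cod V C' D'} {eC : C ≃ C'} {eD : D ≃* D'}
    (h : TrR c c' (Equiv.refl V) eC eD) : c'.Γ = c.Γ := by
  ext v w
  exact (h.adj v w).symm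

theorem tq_nodom {c : Cod V C D} {c' : Cod V' C' D'} {eV : V ≃ V'} {eC : C ≃ C'} {eD : D ≃* D'}
    (h : TrR c c' eV eC eD) (hN : NoDom c.Γ) (hS : NoSep c.Γ) : NoDom c'.Γ ∧ NoSep c'.Γ := by
  constructor
  · intro v w hvw
    obtain ⟨v, rfl⟩ := eV.surjective v
    obtain ⟨w, rfl⟩ := eV.surjective w
    obtain ⟨u, hu1, hu2⟩ := hN v w (fun e => hvw (by rw [e]))
    exact ⟨eV u, (h.adj v u).1 hu1, fun h2 => hu2 ((k04_st h w u).1 h2)⟩
  · intro v K hK a b ha1 ha2 hb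
    obtain ⟨v, rfl⟩ := eV.surjective v
    obtain ⟨a, rfl⟩ := eV.surjective a
    obtain ⟨b, rfl⟩ := eV.surjective b
    have h1 := hS v (eV ⁻¹' K) ?_ a b ha1 (fun h2 => ha2 ((k04_st h v a).2 h2))
      (fun h2 => hb ((k04_st h v b).2 h2))
    · exact h1
    · intro x y hx hx2 hy hxy
      exact hK (eV x) (eV y) hx (fun h2 => hx2 ((k04_st h v x).1 h2))
        (fun h2 => hy ((k04_st h v y).1 h2)) ((h.adj x y).1 hxy)

theorem k04_sh1 {C : Type} (σ : Equiv.Perm C) (c : C) (n : ℤ) :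
    sh σ (fun _ => 1) c n = n := by
  refine (sh_unique (σ := σ) (l := fun _ => (1 : ℤ)) c (fun n => n) rfl (fun n => rfl) n).symm

theorem tq_sim {c : Cod V C D} {c' : Cod V' C' D'} {eV : V ≃ V'} {eC : C ≃ C'} {eD : D ≃* D'}
    (h : TrR c c' eV eC eD) : Sim c c' eC eD (fun _ => eV) (fun _ _ => 1) := by
  refine ⟨⟨?_, ?_, ?_, ?_, ?_⟩, ?_, ?_, ?_⟩
  · intro q v w
    exact h.adj v w
  · intro q v w _
    rfl
  · intro q v w _
    rfl
  · intro q v
    rw [zpow_one, h.mv]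
  · intro q v
    have h1 : sh (pv c.ρ v) (fun _ => (1 : ℤ)) q = id := funext (fun n => k04_sh1 _ q n)
    show Function.Bijective (sh (pv c.ρ v) (fun _ => (1 : ℤ)) q)
    rw [h1]
    exact Function.bijective_id
  · intro u q
    exact (h.be u q).symm
  · intro u q v
    exact (h.ta u q v).symm
  · intro u q v
    show sh (pv c.ρ (c.τ u q v)) (fun _ => (1 : ℤ)) (c.β u q) (c.la u q v) =
      sh (pv c'.ρ (eV v)) (fun d => c'.la (eD u) d (eV v)) (eC q) 1
    rw [k04_sh1, sh_one, h.la]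

theorem tq_ref {R R' D1 D1' : Type} [Group D1] [Group D1'] {c1 : Cod V R D1} {c1' : Cod V R' D1'}
    {c : Cod V C D} {eR : R ≃ R'} {eD : D1 ≃* D1'} (h : TrR c1 c1' (Equiv.refl V) eR eD) {a : R → C}
    {π : D1 →* D} (hr : Ref c1 c a π) :
    Ref c1' c (fun r => a (eR.symm r)) (π.comp eD.symm.toMonoidHom) := by
  have hπ : ∀ u, (π.comp eD.symm.toMonoidHom) (eD u) = π u := by
    intro u
    show π (eD.symm (eD u)) = π u
    rw [MulEquiv.symm_apply_apply]
  refine ⟨(tq_graph h).trans hr.gr, ?_, ?_, ?_, ?_, ?_, ?_, ?_⟩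
  · intro r v
    obtain ⟨r, rfl⟩ := eR.surjective r
    have h1 : rm c1'.ρ (eR r) (gen v) = eR (rm c1.ρ r (gen v)) := h.mv r v
    show a (eR.symm (rm c1'.ρ (eR r) (gen v))) = rm c.ρ (a (eR.symm (eR r))) (gen v)
    rw [h1, Equiv.symm_apply_apply, Equiv.symm_apply_apply, hr.mv]
  · intro u r
    obtain ⟨u, rfl⟩ := eD.surjective u
    obtain ⟨r, rfl⟩ := eR.surjective r
    rw [hπ]
    show a (eR.symm (c1'.β (eD u) (eR r))) = c.β (π u) (a (eR.symm (eR r)))
    rw [h.be, Equiv.symm_apply_apply, Equiv.symm_apply_apply, hr.eqv]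
  · intro u r v
    obtain ⟨u, rfl⟩ := eD.surjective u
    obtain ⟨r, rfl⟩ := eR.surjective r
    rw [hπ]
    show c1'.τ (eD u) (eR r) v = c.τ (π u) (a (eR.symm (eR r))) v
    have h1 : c1'.τ (eD u) (eR r) v = c1.τ u r v := h.ta u r v
    rw [h1, Equiv.symm_apply_apply, hr.tau]
  · intro u r v
    obtain ⟨u, rfl⟩ := eD.surjective u
    obtain ⟨r, rfl⟩ := eR.surjective r
    rw [hπ]
    show c1'.la (eD u) (eR r) v = c.la (π u) (a (eR.symm (eR r))) v
    have h1 : c1'.la (eD u) (eR r) v = c1.la u r v := h.la u r v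
    rw [h1, Equiv.symm_apply_apply, hr.lam]
  · intro u
    obtain ⟨w, hw⟩ := hr.sur u
    exact ⟨eD w, by rw [hπ, hw]⟩
  · intro r r' hrr
    obtain ⟨r, rfl⟩ := eR.surjective r
    obtain ⟨r', rfl⟩ := eR.surjective r'
    have h1 : a r = a r' := by
      have h2 : a (eR.symm (eR r)) = a (eR.symm (eR r')) := hrr
      rwa [Equiv.symm_apply_apply, Equiv.symm_apply_apply] at h2
    obtain ⟨u, hu1, hu2⟩ := hr.tr r r' h1
    exact ⟨eD u, by rw [hπ, hu1], by rw [h.be, hu2]⟩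
  · intro u r hu1 hu2
    obtain ⟨u, rfl⟩ := eD.surjective u
    obtain ⟨r, rfl⟩ := eR.surjective r
    rw [hπ] at hu1
    rw [h.be] at hu2
    rw [hr.free u r hu1 (eR.injective hu2), map_one]

theorem tq_sims {R R' D1 D1' : Type} [Group D1] [Group D1'] {c1 : Cod V R D1}
    {c1' : Cod V R' D1'} {c2 : Cod V' R D1} {c2' : Cod V' R' D1'} {eR : R ≃ R'} {eD : D1 ≃* D1'}
    (h : TrR c1 c1' (Equiv.refl V) eR eD) (h' : TrR c2 c2' (Equiv.refl V') eR eD)
    {τ : R → V ≃ V'} {la : R → V → ℤ}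
    (hs : Sim c1 c2 (Equiv.refl R) (MulEquiv.refl D1) τ la) :
    Sim c1' c2' (Equiv.refl R') (MulEquiv.refl D1') (fun r => τ (eR.symm r))
      (fun r v => la (eR.symm r) v) := by
  have hmv : ∀ r v, rm c1'.ρ (eR r) (gen v) = eR (rm c1.ρ r (gen v)) := fun r v => h.mv r v
  have hta : ∀ u r v, c1'.τ (eD u) (eR r) v = c1.τ u r v := fun u r v => h.ta u r v
  have hla : ∀ u r v, c1'.la (eD u) (eR r) v = c1.la u r v := fun u r v => h.la u r v
  have hta' : ∀ u r v, c2'.τ (eD u) (eR r) v = c2.τ u r v := fun u r v => h'.ta u r v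
  have hla' : ∀ u r v, c2'.la (eD u) (eR r) v = c2.la u r v := fun u r v => h'.la u r v
  have hsh : ∀ r v n, sh (pv c1'.ρ v) (fun d => la (eR.symm d) v) (eR r) n =
      sh (pv c1.ρ v) (fun d => la d v) r n := by
    intro r v n
    refine k4_sh eR (fun q => k04_pv h v q) (fun q => ?_) r n
    show la (eR.symm (eR q)) v = la q v
    rw [Equiv.symm_apply_apply]
  refine ⟨⟨?_, ?_, ?_, ?_, ?_⟩, ?_, ?_, ?_⟩
  · intro r v w
    obtain ⟨r, rfl⟩ := eR.surjective r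
    rw [Equiv.symm_apply_apply]
    have h1 := hs.dt.adj r v w
    have h2 := h.adj v w
    have h3 := h'.adj (τ r v) (τ r w)
    exact (h2.symm.trans h1).trans h3
  · intro r v w hw
    obtain ⟨r, rfl⟩ := eR.surjective r
    rw [hmv, Equiv.symm_apply_apply, Equiv.symm_apply_apply]
    exact hs.dt.tau r v w ((k04_st h v w).1 hw)
  · intro r v w hw
    obtain ⟨r, rfl⟩ := eR.surjective r
    rw [hmv, Equiv.symm_apply_apply, Equiv.symm_apply_apply]
    exact hs.dt.lam r v w ((h.adj v w).2 hw)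
  · intro r v
    obtain ⟨r, rfl⟩ := eR.surjective r
    rw [hmv, Equiv.symm_apply_apply]
    have h1 : rm c2'.ρ (eR r) (gen (τ r v) ^ la r v) = eR (rm c2.ρ r (gen (τ r v) ^ la r v)) :=
      k04_pow h' (τ r v) r (la r v)
    show eR (rm c1.ρ r (gen v)) = rm c2'.ρ (eR r) (gen (τ r v) ^ la r v)
    rw [h1]
    exact congrArg eR (hs.dt.mul r v)
  · intro r v
    obtain ⟨r, rfl⟩ := eR.surjective r
    have h1 : sh (pv c1'.ρ v) (fun d => la (eR.symm d) v) (eR r) =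
        sh (pv c1.ρ v) (fun d => la d v) r := funext (hsh r v)
    show Function.Bijective (sh (pv c1'.ρ v) (fun d => la (eR.symm d) v) (eR r))
    rw [h1]
    exact hs.dt.bij r v
  · intro u r
    obtain ⟨u, rfl⟩ := eD.surjective u
    obtain ⟨r, rfl⟩ := eR.surjective r
    show c1'.β (eD u) (eR r) = c2'.β (eD u) (eR r)
    rw [h.be, h'.be]
    exact congrArg eR (hs.eqv u r)
  · intro u r v
    obtain ⟨u, rfl⟩ := eD.surjective u
    obtain ⟨r, rfl⟩ := eR.surjective r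
    show τ (eR.symm (c1'.β (eD u) (eR r))) (c1'.τ (eD u) (eR r) v) =
      c2'.τ (eD u) (eR r) (τ (eR.symm (eR r)) v)
    rw [h.be, Equiv.symm_apply_apply, Equiv.symm_apply_apply, hta, hta']
    exact hs.tau u r v
  · intro u r v
    obtain ⟨u, rfl⟩ := eD.surjective u
    obtain ⟨r, rfl⟩ := eR.surjective r
    show sh (pv c1'.ρ (c1'.τ (eD u) (eR r) v)) (fun d => la (eR.symm d) (c1'.τ (eD u) (eR r) v))
      (c1'.β (eD u) (eR r)) (c1'.la (eD u) (eR r) v) =
      sh (pv c2'.ρ (τ (eR.symm (eR r)) v)) (fun d => c2'.la (eD u) d (τ (eR.symm (eR r)) v)) (eR r)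
        (la (eR.symm (eR r)) v)
    rw [h.be, Equiv.symm_apply_apply, hta, hla, hsh]
    have h1 : sh (pv c2'.ρ (τ r v)) (fun d => c2'.la (eD u) d (τ r v)) (eR r) (la r v) =
        sh (pv c2.ρ (τ r v)) (fun d => c2.la u d (τ r v)) r (la r v) := k04_shla h' u (τ r v) r _
    rw [h1]
    exact hs.lam u r v

end

end RaagIso
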