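import Pool.Agent.Lib.MP_32d917_al_raag.K00

/-!
# K05: tables

`fin_grp`: `D` finite: a bijection `D ≃ Fin (d + 1)` which maps `1` to `0` (compose any bijection with a transposition `Equiv.swap`), and transport of the group structure (`Equiv.group`, `Equiv.mulEquiv`).

`isC_table`: `X : Cod (Fin (k + 1)) (Fin (m + 1)) (GF d)`, adjacency number `a`, a palette `L` and indices `li` with `X.la u i v = iv (L.getD (li u i v) (0, 0))`, `li ≤ L.length`. The tables: `c07_tab` (C07) for tables with two indices (`p`, `q` in base `m + 1`;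
`b` in base `m + 1`; `g` is given, see `mul_table`), three indices: index `(u * (m + 1) + i) * (k + 1) + v` (`CB.exists_dg` with `x / (k + 1) / (m + 1)` etc., or `c07_tab` with `Fin ((d + 1) * (m + 1))`).

`isC_code`: choose `a` by `CB.exists_pred` or `c07_tab` for the graph `X.Γ`, and the palette `L` = list of all values (`AdmIso.iv_surj`), for instance `L = (List.range ((d+1)*(m+1)*(k+1))).map ...` and `li u i v = (u * (m + 1) + i) * (k + 1) + v`.
-/

set_option autoImplicit false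

namespace RaagIso

open LatIso AdmIso

theorem fin_grp (D : Type) [Group D] [Finite D] :
    ∃ (d : ℕ) (_ : Group (GF d)) (_ : D ≃* GF d), (1 : GF d).n = 0 ∧ Nat.card D = d + 1 := by
  obtain ⟨d, hd⟩ : ∃ d, Nat.card D = d + 1 :=
    ⟨Nat.card D - 1, by have := Nat.card_pos (α := D); omega⟩
  let e0 : D ≃ Fin (d + 1) := Finite.equivFinOfCardEq hd
  let e : GF d ≃ D := (e0.trans (Equiv.swap (e0 1) 0)).symm
  let : Group (GF d) := e.group
  refine ⟨d, e.group, e.mulEquiv.symm, ?_, hd⟩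
  show (((Equiv.swap (e0 1) 0) (e0 1) : Fin (d + 1)) : ℕ) = 0
  rw [Equiv.swap_apply_left]
  rfl

theorem adj_table {k : ℕ} (Γ : SimpleGraph (Fin (k + 1))) : ∃ a : ℕ, ∀ v w : Fin (k + 1),
    Γ.Adj v w ↔ (¬ (v : ℕ) = w ∧ (CB.dg 1 a (v * (k + 1) + w) = 1 ∨
      CB.dg 1 a (w * (k + 1) + v) = 1)) := by
  classical
  obtain ⟨a, -, ha⟩ := c07_tab 1 k k (fun v w => if Γ.Adj v w then 1 else 0) (by
    intro v w
    try dsimp only
    split_ifs <;> omega)
  refine ⟨a, fun v w => ?_⟩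
  have h1 : ∀ v w : Fin (k + 1), CB.dg 1 a (v * (k + 1) + w) = 1 ↔ Γ.Adj v w := by
    intro v w
    rw [ha]
    by_cases h : Γ.Adj v w
    · rw [if_pos h]
      exact ⟨fun _ => h, fun _ => rfl⟩
    · rw [if_neg h]
      exact ⟨fun h2 => absurd h2 (by omega), fun h2 => absurd h2 h⟩
  rw [h1, h1]
  constructor
  · intro h
    exact ⟨fun e => h.ne (Fin.ext e), Or.inl h⟩
  · rintro ⟨-, h | h⟩
    · exact h
    · exact h.symm

theorem mul_table {d : ℕ} [Group (GF d)] : ∃ g < (d + 1) ^ ((d + 1) * (d + 1)),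
    ∀ u u' : GF d, (u * u').n = CB.dg d g (u.n * (d + 1) + u'.n) := by
  obtain ⟨g, hg, h⟩ := c07_tab d d d
    (fun u u' => GF.n (d := d) ((show GF d from u) * (show GF d from u')))
    (fun u u' => Fin.is_lt (n := d + 1) ((show GF d from u) * (show GF d from u')))
  exact ⟨g, hg, fun u u' => (h u u').symm⟩

/-- decoding of three indices -/
theorem k05_idx {k m d : ℕ} (u : Fin (d + 1)) (i : Fin (m + 1)) (v : Fin (k + 1)) :
    ((u : ℕ) * (m + 1) + i) * (k + 1) + v < (d + 1) * (m + 1) * (k + 1) ∧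
    (((u : ℕ) * (m + 1) + i) * (k + 1) + v) / (k + 1) / (m + 1) % (d + 1) = u ∧
    (((u : ℕ) * (m + 1) + i) * (k + 1) + v) / (k + 1) % (m + 1) = i ∧
    (((u : ℕ) * (m + 1) + i) * (k + 1) + v) % (k + 1) = v := by
  have h2 : (((u : ℕ) * (m + 1) + i) * (k + 1) + v) / (k + 1) = (u : ℕ) * (m + 1) + i := by
    rw [Nat.mul_comm _ (k + 1), Nat.mul_add_div (Nat.succ_pos _), Nat.div_eq_of_lt v.2, add_zero]
  have h3 : ((u : ℕ) * (m + 1) + i) / (m + 1) = u := by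
    rw [Nat.mul_comm _ (m + 1), Nat.mul_add_div (Nat.succ_pos _), Nat.div_eq_of_lt i.2, add_zero]
  have h4 : (u : ℕ) * (m + 1) + i < (d + 1) * (m + 1) := by
    calc (u : ℕ) * (m + 1) + i < u * (m + 1) + (m + 1) := by omega
      _ = (u + 1) * (m + 1) := by ring
      _ ≤ (d + 1) * (m + 1) := Nat.mul_le_mul_right _ u.2
  refine ⟨?_, ?_, ?_, ?_⟩
  · calc ((u : ℕ) * (m + 1) + i) * (k + 1) + v < (u * (m + 1) + i) * (k + 1) + (k + 1) := by omega
      _ = (u * (m + 1) + i + 1) * (k + 1) := by ring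
      _ ≤ (d + 1) * (m + 1) * (k + 1) := Nat.mul_le_mul_right _ h4
  · rw [h2, h3, Nat.mod_eq_of_lt u.2]
  · rw [h2, Nat.mul_comm, Nat.mul_add_mod, Nat.mod_eq_of_lt i.2]
  · rw [Nat.mul_comm _ (k + 1), Nat.mul_add_mod, Nat.mod_eq_of_lt v.2]

/-- the function of one index given by a function of three indices -/
def k05F {γ : Type} {k m d : ℕ} (G : Fin (d + 1) → Fin (m + 1) → Fin (k + 1) → γ) (x : ℕ) : γ :=
  G ⟨x / (k + 1) / (m + 1) % (d + 1), Nat.mod_lt _ (Nat.succ_pos d)⟩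
    ⟨x / (k + 1) % (m + 1), Nat.mod_lt _ (Nat.succ_pos m)⟩ ⟨x % (k + 1), Nat.mod_lt _ (Nat.succ_pos k)⟩

theorem k05F_eq {γ : Type} {k m d : ℕ} (G : Fin (d + 1) → Fin (m + 1) → Fin (k + 1) → γ)
    (u : Fin (d + 1)) (i : Fin (m + 1)) (v : Fin (k + 1)) :
    k05F G (((u : ℕ) * (m + 1) + i) * (k + 1) + v) = G u i v := by
  obtain ⟨-, h1, h2, h3⟩ := k05_idx u i v
  unfold k05F
  congr 1
  · exact Fin.ext h1
  · exact Fin.ext h2
  · exact Fin.ext h3

/-- tables with three indices -/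
theorem k05_tab (n k m d : ℕ) (G : Fin (d + 1) → Fin (m + 1) → Fin (k + 1) → ℕ)
    (hG : ∀ u i v, G u i v < n + 1) :
    ∃ w < (n + 1) ^ ((d + 1) * (m + 1) * (k + 1)), ∀ (u : Fin (d + 1)) (i : Fin (m + 1))
      (v : Fin (k + 1)), CB.dg n w ((u * (m + 1) + i) * (k + 1) + v) = G u i v := by
  obtain ⟨w, hw, h⟩ := CB.exists_dg n (k05F G) (fun x => hG _ _ _) ((d + 1) * (m + 1) * (k + 1))
  refine ⟨w, hw, fun u i v => ?_⟩
  rw [h _ (k05_idx u i v).1, k05F_eq]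

theorem isC_table {k m d : ℕ} [Group (GF d)] (X : Cod (Fin (k + 1)) (Fin (m + 1)) (GF d)) (a : ℕ)
    (ha : ∀ v w : Fin (k + 1), X.Γ.Adj v w ↔ (¬ (v : ℕ) = w ∧ (CB.dg 1 a (v * (k + 1) + w) = 1 ∨
      CB.dg 1 a (w * (k + 1) + v) = 1))) (L : List PI)
    (li : GF d → Fin (m + 1) → Fin (k + 1) → ℕ) (hli : ∀ u i v, li u i v ≤ L.length)
    (hla : ∀ u i v, X.la u i v = iv (L.getD (li u i v) (0, 0))) (g : ℕ)
    (hg : ∀ u u' : GF d, (u * u').n = CB.dg d g (u.n * (d + 1) + u'.n)) :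
    ∃ p < (m + 1) ^ ((m + 1) * (k + 1)), ∃ q < (m + 1) ^ ((m + 1) * (k + 1)),
    ∃ b < (m + 1) ^ ((d + 1) * (m + 1)),
    ∃ t < (k + 1) ^ ((d + 1) * (m + 1) * (k + 1)),
    ∃ l < (L.length + 1) ^ ((d + 1) * (m + 1) * (k + 1)),
      IsC ((k, m, d), (a, L), p, q, g, b, t, l) X ∧
      (∀ (i : Fin (m + 1)) (v : Fin (k + 1)), ((rm X.ρ i (gen v)⁻¹ : Fin (m + 1)) : ℕ) =
        riN (bs ((k, m, d), (a, L), p, q, g, b, t, l)) i v) ∧
      ∀ (u : GF d) (i : Fin (m + 1)) (v : Fin (k + 1)),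
        laE ((k, m, d), (a, L), p, q, g, b, t, l) u.n i v = L.getD (li u i v) (0, 0) := by
  obtain ⟨p, hp, hp'⟩ := c07_tab m k m (fun i v => ((rm X.ρ i (gen v) : Fin (m + 1)) : ℕ))
    (fun i v => Fin.is_lt _)
  obtain ⟨q, hq, hq'⟩ := c07_tab m k m (fun i v => ((rm X.ρ i (gen v)⁻¹ : Fin (m + 1)) : ℕ))
    (fun i v => Fin.is_lt _)
  obtain ⟨b, hb, hb'⟩ := c07_tab m m d (fun u i => ((X.β (u : GF d) i : Fin (m + 1)) : ℕ))
    (fun u i => Fin.is_lt _)
  obtain ⟨t, ht, ht'⟩ := k05_tab k k m d (fun u i v => ((X.τ (u : GF d) i v : Fin (k + 1)) : ℕ))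
    (fun u i v => Fin.is_lt _)
  obtain ⟨l, hl, hl'⟩ := k05_tab L.length k m d (fun u i v => li (u : GF d) i v)
    (fun u i v => Nat.lt_succ_of_le (hli _ _ _))
  have hla2 : ∀ (u : GF d) (i : Fin (m + 1)) (v : Fin (k + 1)),
        laE ((k, m, d), (a, L), p, q, g, b, t, l) u.n i v = L.getD (li u i v) (0, 0) :=
    fun u i v => congrArg (fun x => L.getD x (0, 0)) (hl' u i v)
  refine ⟨p, hp, q, hq, b, hb, t, ht, l, hl, ⟨?_, ?_, ?_, ?_, ?_, ?_⟩, ?_, hla2⟩
  · exact SimpleGraph.ext (by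
      funext v w
      exact propext (ha v w))
  · exact fun i v => (hp' i v).symm
  · exact hg
  · exact fun u i => (hb' u i).symm
  · exact fun u i v => (ht' u i v).symm
  · intro u i v
    rw [hla2]
    exact hla u i v
  · exact fun i v => (hq' i v).symm

theorem k05_iv (z : ℤ) : ∃ x : PI, iv x = z := by
  refine ⟨(z.toNat, (-z).toNat), ?_⟩
  unfold iv
  dsimp only
  omega

theorem isC_code {k m d : ℕ} [Group (GF d)] (X : Cod (Fin (k + 1)) (Fin (m + 1)) (GF d)) :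
    ∃ A : (ℕ × List PI) × ℕ × ℕ × ℕ × ℕ × ℕ × ℕ, IsC ((k, m, d), A) X ∧
      ∀ (i : Fin (m + 1)) (v : Fin (k + 1)), ((rm X.ρ i (gen v)⁻¹ : Fin (m + 1)) : ℕ) =
        riN (bs ((k, m, d), A)) i v := by
  obtain ⟨a, ha⟩ := adj_table X.Γ
  obtain ⟨g, -, hg⟩ := mul_table (d := d)
  choose z hz using k05_iv
  let Fl : ℕ → PI := k05F (fun (u : Fin (d + 1)) (i : Fin (m + 1)) (v : Fin (k + 1)) =>
    z (X.la (u : GF d) i v))
  let L : List PI := (List.range ((d + 1) * (m + 1) * (k + 1))).map Fl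
  have hL : L.length = (d + 1) * (m + 1) * (k + 1) := by
    rw [List.length_map, List.length_range]
  obtain ⟨p, -, q, -, b, -, t, -, l, -, h1, h2, -⟩ := isC_table X a ha L
    (fun u i v => (((u.n : ℕ) * (m + 1) + i) * (k + 1) + v))
    (fun u i v => by
      rw [hL]
      exact (k05_idx (show Fin (d + 1) from u) i v).1.le)
    (fun u i v => by
      have h3 := c07_getD Fl (0, 0) (k05_idx (show Fin (d + 1) from u) i v).1
      have h4 : Fl (((u.n : ℕ) * (m + 1) + i) * (k + 1) + v) = z (X.la u i v) :=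
        k05F_eq (fun (u : Fin (d + 1)) (i : Fin (m + 1)) (v : Fin (k + 1)) =>
          z (X.la (u : GF d) i v)) u i v
      have h5 : L.getD (((u.n : ℕ) * (m + 1) + i) * (k + 1) + v) (0, 0) = z (X.la u i v) :=
        h3.trans h4
      rw [h5, hz]) g hg
  exact ⟨((a, L), p, q, g, b, t, l), h1, h2⟩

end RaagIso
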