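import Pool.Agent.Lib.MP_32d917_al_raag.K00
import Pool.Agent.Lib.MP_32d917_al_raag.C05
import Pool.Agent.Lib.MP_32d917_al_raag.GMain

/-!
# K06: the presentation of a code

`k6_lift`: let `P` be a presentation and `κ` a cocycle (values in `P.Grp`, for `X.ρ`) with `κ i (gen v) = PresentedGroup.of (ge c i v)`. Then `κ i (wv (bs c) l) = mk (liftN (bs c) (idl c) i l)`: `lift_eq` (C05) with `x = idl c`: `xg (bs c) (idl c) i v = [(ge c i v, true)]` for
`i < eC c`, `v < eV c`. (`lift_eq` is stated for `ρ : RA (gr (bs c)) →* ..` with `IsRho`: `rcases X` and `subst` the equation `X.Γ = gr (bs c)`.)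

`prE_iso`: `gc_sys` (GMain) with `X q = wv (bs c) (x.getD q [])` gives `E`, `T` in `GC X hv 0`.
(1) homomorphism `(prE c x).Grp →* GC X hv 0`: `PresentedGroup.toGroup` with `ge c i v ↦ E i v`, `gt c u i ↦ T u i` (decode the number `j`: if `j < eC c * eV c` then `i = j / eV c`, `v = j % eV c`, else the rest; numbers `≥ (prE c x).1` to `1`). The four kinds of relators hold by `Sy`
(the lift of a word: as in `pres2_lift`, the value of `liftN (bs c) (idl c) i l` under the homomorphism of free groups is `ke X.ρ E i (wv (bs c) l)`; prove this first for any group `K` and any `E : .. → K` with `Coc`; `wv (bs c) (pwL w n) = gen w ^ iv n`).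
(2) homomorphism `GC X hv 0 →* (prE c x).Grp`: universal property with `E' i v = of (ge c i v)`, `T' u i = of (gt c u i)`: `Sy` holds by the relators.
(3) the two compositions fix the generators (closure `= ⊤` in `gc_sys`; `PresentedGroup.ext`, generators `≥ (prE c x).1` are trivial on both sides).
-/

set_option autoImplicit false

namespace RaagIso

open LatIso AdmIso

theorem k6_rep (c : Cd) (w : Fin (cK c)) (n : ℕ) (b : Bool) :
    wv c (List.replicate n ((w : ℕ), b)) = (lt c ((w : ℕ), b)) ^ n := by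
  induction n with
  | zero => rw [List.replicate_zero, pow_zero, wv_nil]
  | succ n ih => rw [List.replicate_succ, c05_wv_cons, ih, pow_succ']

theorem k6_pw (c : Cd) (w : Fin (cK c)) (n : PI) : wv c (pwL w n) = gen w ^ iv n := by
  unfold pwL
  rw [wv_append, k6_rep, k6_rep]
  have h1 : lt c ((w : ℕ), false) = (gen w)⁻¹ := by
    have h2 := c01_lt_inv c ((w : ℕ), true)
    rw [c02_gen] at h2
    exact h2
  rw [h1, c02_gen]
  unfold iv
  rw [zpow_sub, zpow_natCast, zpow_natCast, inv_pow]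

/-- the value of a lift -/
theorem k6_lift {b : Cd} {K : Type} [Group K] (h : ValN b)
    {ρ : RA (gr b) →* Equiv.Perm (Fin (cM b))} (hρ : IsRho b ρ)
    {E : Fin (cM b) → Fin (cK b) → K} (hE : Coc ρ E) (Φ : FreeGroup ℕ →* K) (x : List Wd)
    (hΦ : ∀ (i : Fin (cM b)) (v : Fin (cK b)), Φ (FreeGroup.mk (xg b x i v)) = E i v) (l : Wd) :
    ∀ i : Fin (cM b), Φ (FreeGroup.mk (liftN b x i l)) = ke ρ E i (wv b l) := by
  obtain ⟨k1, k2⟩ := ke_spec hE
  induction l with
  | nil =>
    intro i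
    rw [wv_nil, cc_one k2]
    exact map_one _
  | cons a l ih =>
    intro i
    have h3 : ke ρ E i (lt b a) = Φ (FreeGroup.mk (xN b x i a)) ∧
        ((rm ρ i (lt b a) : Fin (cM b)) : ℕ) = stN b i a := by
      obtain ⟨v, d⟩ := a
      by_cases hv : v < cK b
      · cases d
        · have e1 : lt b (v, false) = (gen (⟨v, hv⟩ : Fin (cK b)))⁻¹ := by
            unfold lt
            rw [dif_pos hv]
            rfl
          have e2 : stN b i (v, false) = riN b i v := by
            unfold stN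
            rw [if_pos hv]
            rfl
          have e3 : xN b x i (v, false) = FreeGroup.invRev (xg b x (riN b i v) v) := by
            unfold xN
            rw [if_pos hv]
            rfl
          have e4 := rho_inv h hρ i ⟨v, hv⟩
          refine ⟨?_, ?_⟩
          · rw [e1, c05_cc_inv k2, k1, e3, ← FreeGroup.inv_mk, map_inv, ← hΦ, e4]
          · rw [e1, e2, e4]
        · have e1 : lt b (v, true) = gen (⟨v, hv⟩ : Fin (cK b)) := by
            unfold lt
            rw [dif_pos hv]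
            rfl
          have e2 : stN b i (v, true) = rmN b i v := by
            unfold stN
            rw [if_pos hv]
            rfl
          have e3 : xN b x i (v, true) = xg b x i v := by
            unfold xN
            rw [if_pos hv]
            rfl
          refine ⟨?_, ?_⟩
          · rw [e1, k1, e3, ← hΦ]
          · rw [e1, e2]
            exact hρ i ⟨v, hv⟩
      · have e1 : lt b (v, d) = 1 := by
          unfold lt
          rw [dif_neg hv]
        have e2 : stN b i (v, d) = i := by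
          unfold stN
          rw [if_neg hv]
        have e3 : xN b x i (v, d) = [] := by
          unfold xN
          rw [if_neg hv]
        refine ⟨?_, ?_⟩
        · rw [e1, e3, cc_one k2]
          exact (map_one Φ).symm
        · rw [e1, e2, rm_one]
    rw [c05_wv_cons, k2, ← ih, h3.1, c05_cons, ← FreeGroup.mul_mk, map_mul, h3.2]

theorem k6_idx {K M i v : ℕ} (hi : i < M) (hv : v < K) : i * K + v < M * K :=
  calc i * K + v < i * K + K := by omega
    _ = (i + 1) * K := by ring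
    _ ≤ M * K := Nat.mul_le_mul_right _ hi

theorem k6_div {K i v : ℕ} (hv : v < K) : (i * K + v) / K = i := by
  rw [mul_comm, Nat.mul_add_div (by omega), Nat.div_eq_of_lt hv, add_zero]

theorem k6_mod {K i v : ℕ} (hv : v < K) : (i * K + v) % K = v := by
  rw [mul_comm, Nat.mul_add_mod, Nat.mod_eq_of_lt hv]

theorem k6_xg (c : Ce) (i : Fin (eC c)) (v : Fin (eV c)) :
    xg (bs c) (idl c) i v = [(ge c i v, true)] := by
  unfold xg idl
  have h1 : (i : ℕ) * cK (bs c) + v < eC c * eV c := k6_idx i.2 v.2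
  rw [List.getD_eq_getElem _ _ (by simpa using h1)]
  simp only [List.getElem_map, List.getElem_range]
  rfl

theorem k6_l {K : Type} [Group K] (Φ : FreeGroup ℕ →* K) (j : ℕ) :
    Φ (FreeGroup.mk [(j, true)]) = Φ (FreeGroup.of j) := rfl

theorem k6_l' {K : Type} [Group K] (Φ : FreeGroup ℕ →* K) (j : ℕ) :
    Φ (FreeGroup.mk [(j, false)]) = (Φ (FreeGroup.of j))⁻¹ := by
  rw [← map_inv, FreeGroup.of, FreeGroup.inv_mk]
  rfl

theorem k6_cons {K : Type} [Group K] (Φ : FreeGroup ℕ →* K) (a : ℕ × Bool) (l : Wd) :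
    Φ (FreeGroup.mk (a :: l)) = Φ (FreeGroup.mk [a]) * Φ (FreeGroup.mk l) := by
  rw [← map_mul, FreeGroup.mul_mk]
  rfl

/-- the four kinds of relators -/
theorem k6_mem (c : Ce) (x : List Wd) (p : Wd → Prop) : (∀ w ∈ (prE c x).2, p w) ↔
    (∀ i < eC c, ∀ v < eV c, ∀ w < eV c, AdN (bs c) v w →
      p [(ge c i v, true), (ge c (rmN (bs c) i v) w, true),
        (ge c (rmN (bs c) i w) v, false), (ge c i w, false)]) ∧
    (∀ i < eC c, p (liftN (bs c) (idl c) 0 (x.getD i []))) ∧
    (∀ u < eD c, ∀ i < eC c, ∀ v < eV c,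
      p ([(gt c u i, true), (ge c i v, true)] ++ FreeGroup.invRev
        (liftN (bs c) (idl c) (beE c u i) (pwL (taE c u i v) (laE c u i v)) ++
          [(gt c u (rmN (bs c) i v), true)]))) ∧
    (∀ u < eD c, ∀ u' < eD c, ∀ i < eC c,
      p [(gt c u (beE c u' i), true), (gt c u' i, true), (gt c (muE c u u') i, false)]) := by
  unfold prE
  constructor
  · intro h
    refine ⟨fun i hi v hv w hw hvw => ?_, fun i hi => ?_, fun u hu i hi v hv => ?_,
      fun u hu u' hu' i hi => ?_⟩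
    · refine h _ (List.mem_append_left _ (List.mem_append_left _ (List.mem_append_left _ ?_)))
      refine List.mem_flatMap.2 ⟨i, List.mem_range.2 hi, List.mem_flatMap.2 ⟨v, List.mem_range.2 hv,
        List.mem_flatMap.2 ⟨w, List.mem_range.2 hw, ?_⟩⟩⟩
      rw [if_pos hvw]
      exact List.mem_singleton.2 rfl
    · refine h _ (List.mem_append_left _ (List.mem_append_left _ (List.mem_append_right _ ?_)))
      exact List.mem_map.2 ⟨i, List.mem_range.2 hi, rfl⟩
    · refine h _ (List.mem_append_left _ (List.mem_append_right _ ?_))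
      exact List.mem_flatMap.2 ⟨u, List.mem_range.2 hu, List.mem_flatMap.2 ⟨i, List.mem_range.2 hi,
        List.mem_map.2 ⟨v, List.mem_range.2 hv, rfl⟩⟩⟩
    · refine h _ (List.mem_append_right _ ?_)
      exact List.mem_flatMap.2 ⟨u, List.mem_range.2 hu, List.mem_flatMap.2 ⟨u', List.mem_range.2 hu',
        List.mem_map.2 ⟨i, List.mem_range.2 hi, rfl⟩⟩⟩
  · rintro ⟨h1, h2, h3, h4⟩ w hw
    rcases List.mem_append.1 hw with hw | hw
    · rcases List.mem_append.1 hw with hw | hw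
      · rcases List.mem_append.1 hw with hw | hw
        · obtain ⟨i, hi, hw⟩ := List.mem_flatMap.1 hw
          obtain ⟨v, hv, hw⟩ := List.mem_flatMap.1 hw
          obtain ⟨w', hw', hw⟩ := List.mem_flatMap.1 hw
          by_cases hvw : AdN (bs c) v w'
          · rw [if_pos hvw] at hw
            rw [List.mem_singleton.1 hw]
            exact h1 i (List.mem_range.1 hi) v (List.mem_range.1 hv) w' (List.mem_range.1 hw') hvw
          · rw [if_neg hvw] at hw
            exact absurd hw List.not_mem_nil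
        · obtain ⟨i, hi, rfl⟩ := List.mem_map.1 hw
          exact h2 i (List.mem_range.1 hi)
      · obtain ⟨u, hu, hw⟩ := List.mem_flatMap.1 hw
        obtain ⟨i, hi, hw⟩ := List.mem_flatMap.1 hw
        obtain ⟨v, hv, rfl⟩ := List.mem_map.1 hw
        exact h3 u (List.mem_range.1 hu) i (List.mem_range.1 hi) v (List.mem_range.1 hv)
    · obtain ⟨u, hu, hw⟩ := List.mem_flatMap.1 hw
      obtain ⟨u', hu', hw⟩ := List.mem_flatMap.1 hw
      obtain ⟨i, hi, rfl⟩ := List.mem_map.1 hw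
      exact h4 u (List.mem_range.1 hu) u' (List.mem_range.1 hu') i (List.mem_range.1 hi)

theorem k6_n {d : ℕ} (u : GF d) : u.n < d + 1 := Fin.is_lt (n := d + 1) u

theorem k6_ns {d : ℕ} {u : ℕ} (hu : u < d + 1) : ∃ w : GF d, w.n = u :=
  ⟨(⟨u, hu⟩ : Fin (d + 1)), rfl⟩

theorem k6_val {c : Ce} (h : ValE c) : ValN (bs c) := h.1

/-- the relators are equivalent to the relations of the code -/
theorem k6_iff {c : Ce} (h : ValE c) [I : Group (GF c.1.2.2)]
    {ρ : RA (gr (bs c)) →* Equiv.Perm (Fin (eC c))} {β : GF c.1.2.2 →* Equiv.Perm (Fin (eC c))}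
    {τ : GF c.1.2.2 → Fin (eC c) → Fin (eV c) ≃ Fin (eV c)}
    {la : GF c.1.2.2 → Fin (eC c) → Fin (eV c) → ℤ}
    (hX : IsC c ⟨gr (bs c), ρ, β, τ, la⟩) (x : List Wd) {K : Type} [Group K]
    (Φ : FreeGroup ℕ →* K) :
    (∀ w ∈ (prE c x).2, Φ (FreeGroup.mk w) = 1) ↔
      Sy ⟨gr (bs c), ρ, β, τ, la⟩ 0 (fun q : Fin (eC c) => wv (bs c) (x.getD q []))
        (fun (i : Fin (eC c)) (v : Fin (eV c)) => Φ (FreeGroup.of (ge c i v)))
        (fun (u : GF c.1.2.2) (i : Fin (eC c)) => Φ (FreeGroup.of (gt c u.n i))) := by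
  have hρ : IsRho (bs c) ρ := hX.mv
  have hv := k6_val h
  rw [k6_mem c x (fun w => Φ (FreeGroup.mk w) = 1)]
  obtain ⟨E, hE⟩ : ∃ E : Fin (eC c) → Fin (eV c) → K,
      E = fun (i : Fin (eC c)) (v : Fin (eV c)) => Φ (FreeGroup.of (ge c i v)) :=
    ⟨_, rfl⟩
  obtain ⟨T, hT⟩ : ∃ T : GF c.1.2.2 → Fin (eC c) → K,
      T = fun (u : GF c.1.2.2) (i : Fin (eC c)) => Φ (FreeGroup.of (gt c u.n i)) :=
    ⟨_, rfl⟩
  rw [← hE, ← hT]
  -- the commutation relations
  have hA : (∀ i < eC c, ∀ v < eV c, ∀ w < eV c, AdN (bs c) v w →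
      Φ (FreeGroup.mk [(ge c i v, true), (ge c (rmN (bs c) i v) w, true),
        (ge c (rmN (bs c) i w) v, false), (ge c i w, false)]) = 1) ↔ Coc ρ E := by
    have key : ∀ (i : Fin (eC c)) (v w : Fin (eV c)),
        (Φ (FreeGroup.mk [(ge c i v, true), (ge c (rmN (bs c) i v) w, true),
        (ge c (rmN (bs c) i w) v, false), (ge c i w, false)]) = 1 ↔
        E i v * E (rm ρ i (gen v)) w = E i w * E (rm ρ i (gen w)) v) := by
      intro i v w
      rw [k6_cons, k6_cons Φ (ge c (rmN (bs c) i v) w, true), k6_cons Φ (ge c (rmN (bs c) i w) v, false),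
        k6_l, k6_l, k6_l', k6_l', hE]
      show _ ↔ Φ (FreeGroup.of (ge c i v)) * Φ (FreeGroup.of (ge c (rm ρ i (gen v) : Fin (eC c)) w)) =
        Φ (FreeGroup.of (ge c i w)) * Φ (FreeGroup.of (ge c (rm ρ i (gen w) : Fin (eC c)) v))
      rw [hρ i v, hρ i w, ← mul_assoc, ← mul_inv_rev, mul_inv_eq_one]
    constructor
    · intro h1 i v w hvw
      exact (key i v w).1 (h1 i i.2 v v.2 w w.2 hvw)
    · intro h1 i hi v hv' w hw hvw
      exact (key ⟨i, hi⟩ ⟨v, hv'⟩ ⟨w, hw⟩).2 (h1 ⟨i, hi⟩ ⟨v, hv'⟩ ⟨w, hw⟩ hvw)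
  have hL : Coc ρ E → ∀ (l : Wd) (i : Fin (eC c)), Φ (FreeGroup.mk (liftN (bs c) (idl c) i l)) =
      ke ρ E i (wv (bs c) l) := by
    intro hco l i
    refine k6_lift hv hρ hco Φ (idl c) (fun i v => ?_) l i
    rw [k6_xg, k6_l, hE]
  have hB : Coc ρ E → ((∀ i < eC c, Φ (FreeGroup.mk (liftN (bs c) (idl c) 0 (x.getD i []))) = 1) ↔
      ∀ q : Fin (eC c), ke ρ E 0 (wv (bs c) (x.getD q [])) = 1) := by
    intro hco
    have key := fun i : Fin (eC c) => hL hco (x.getD i []) 0
    constructor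
    · intro h1 i
      rw [← key]
      exact h1 i i.2
    · intro h1 i hi
      exact (key ⟨i, hi⟩).trans (h1 ⟨i, hi⟩)
  have hC : Coc ρ E → ((∀ u < eD c, ∀ i < eC c, ∀ v < eV c,
      Φ (FreeGroup.mk ([(gt c u i, true), (ge c i v, true)] ++ FreeGroup.invRev
        (liftN (bs c) (idl c) (beE c u i) (pwL (taE c u i v) (laE c u i v)) ++
          [(gt c u (rmN (bs c) i v), true)]))) = 1) ↔
      ∀ (u : GF c.1.2.2) (q : Fin (eC c)) (v : Fin (eV c)),
        T u q * E q v = ke ρ E (β u q) (gen (τ u q v) ^ la u q v) * T u (rm ρ q (gen v))) := by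
    intro hco
    have key : ∀ (u : GF c.1.2.2) (i : Fin (eC c)) (v : Fin (eV c)),
        (Φ (FreeGroup.mk ([(gt c u.n i, true), (ge c i v, true)] ++ FreeGroup.invRev
        (liftN (bs c) (idl c) (beE c u.n i) (pwL (taE c u.n i v) (laE c u.n i v)) ++
          [(gt c u.n (rmN (bs c) i v), true)]))) = 1 ↔
        T u i * E i v = ke ρ E (β u i) (gen (τ u i v) ^ la u i v) * T u (rm ρ i (gen v))) := by
      intro u i v
      have e1 : ((β u i : Fin (eC c)) : ℕ) = beE c u.n i := hX.be u i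
      have e2 : ((τ u i v : Fin (eV c)) : ℕ) = taE c u.n i v := hX.ta u i v
      have e3 : la u i v = iv (laE c u.n i v) := hX.la u i v
      have e4 := hL hco (pwL (τ u i v : Fin (eV c)) (laE c u.n i v)) (β u i)
      have e5 := k6_pw (bs c) (τ u i v) (laE c u.n i v)
      rw [e5, ← e3, e1, e2] at e4
      rw [← e4, ← FreeGroup.mul_mk, map_mul, ← FreeGroup.inv_mk, map_inv, ← FreeGroup.mul_mk, map_mul,
        mul_inv_eq_one, k6_cons, k6_l, k6_l, k6_l, hE, hT]
      show _ ↔ Φ (FreeGroup.of (gt c u.n i)) * Φ (FreeGroup.of (ge c i v)) =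
        _ * Φ (FreeGroup.of (gt c u.n (rm ρ i (gen v) : Fin (eC c))))
      rw [hρ i v]
    constructor
    · intro h1 u i v
      exact (key u i v).1 (h1 u.n (k6_n u) i i.2 v v.2)
    · intro h1 u hu i hi v hv'
      obtain ⟨u', rfl⟩ := k6_ns hu
      exact (key u' ⟨i, hi⟩ ⟨v, hv'⟩).2 (h1 u' ⟨i, hi⟩ ⟨v, hv'⟩)
  have hD : (∀ u < eD c, ∀ u' < eD c, ∀ i < eC c,
      Φ (FreeGroup.mk [(gt c u (beE c u' i), true), (gt c u' i, true),
        (gt c (muE c u u') i, false)]) = 1) ↔
      ∀ (u u' : GF c.1.2.2) (q : Fin (eC c)), T u (β u' q) * T u' q = T (u * u') q := by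
    have key : ∀ (u u' : GF c.1.2.2) (i : Fin (eC c)),
        (Φ (FreeGroup.mk [(gt c u.n (beE c u'.n i), true), (gt c u'.n i, true),
          (gt c (muE c u.n u'.n) i, false)]) = 1 ↔ T u (β u' i) * T u' i = T (u * u') i) := by
      intro u u' i
      have e1 : ((β u' i : Fin (eC c)) : ℕ) = beE c u'.n i := hX.be u' i
      rw [k6_cons, k6_cons Φ (gt c u'.n i, true), k6_l, k6_l, k6_l', hT]
      show _ ↔ Φ (FreeGroup.of (gt c u.n (β u' i : Fin (eC c)))) * Φ (FreeGroup.of (gt c u'.n i)) =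
        Φ (FreeGroup.of (gt c (u * u').n i))
      rw [e1, hX.mul, ← mul_assoc, mul_inv_eq_one]
    constructor
    · intro h1 u u' i
      exact (key u u' i).1 (h1 u.n (k6_n u) u'.n (k6_n u') i i.2)
    · intro h1 u hu u' hu' i hi
      obtain ⟨w, rfl⟩ := k6_ns hu
      obtain ⟨w', rfl⟩ := k6_ns hu'
      exact (key w w' ⟨i, hi⟩).2 (h1 w w' ⟨i, hi⟩)
  constructor
  · rintro ⟨h1, h2, h3, h4⟩
    have hco := hA.1 h1
    exact ⟨hco, (hC hco).1 h3, hD.1 h4, (hB hco).1 h2⟩
  · intro hS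
    have hco : Coc ρ E := hS.coc
    exact ⟨hA.2 hco, (hB hco).2 hS.tree, (hC hco).2 hS.sym, hD.2 hS.mul⟩

/-- a function on the numbers of the generators -/
theorem k6_fun {c : Ce} {K : Type} [Group K] (E : Fin (eC c) → Fin (eV c) → K)
    (T : GF c.1.2.2 → Fin (eC c) → K) : ∃ f : ℕ → K, (∀ i v, f (ge c (i : Fin (eC c)) (v : Fin (eV c))) =
      E i v) ∧ (∀ u i, f (gt c (GF.n u) (i : Fin (eC c))) = T u i) ∧
      ∀ j, eC c * eV c + eD c * eC c ≤ j → f j = 1 := by
  refine ⟨fun j => if j < eC c * eV c then (if h : j / eV c < eC c ∧ j % eV c < eV c then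
      E ⟨j / eV c, h.1⟩ ⟨j % eV c, h.2⟩ else 1) else
    (if h : (j - eC c * eV c) / eC c < eD c ∧ (j - eC c * eV c) % eC c < eC c then
      T (⟨(j - eC c * eV c) / eC c, h.1⟩ : Fin (eD c)) ⟨(j - eC c * eV c) % eC c, h.2⟩ else 1),
    ?_, ?_, ?_⟩
  · intro i v
    have h1 : ge c i v < eC c * eV c := k6_idx i.2 v.2
    have h2 : ge c i v / eV c = i := k6_div v.2
    have h3 : ge c i v % eV c = v := k6_mod v.2
    simp only
    rw [if_pos h1, dif_pos ⟨by rw [h2]; exact i.2, by rw [h3]; exact v.2⟩]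
    exact congrArg₂ E (Fin.ext h2) (Fin.ext h3)
  · intro u i
    have h1 : ¬ gt c u.n i < eC c * eV c := by unfold gt; omega
    have h4 : gt c u.n i - eC c * eV c = u.n * eC c + i := by unfold gt; omega
    have h2 : (gt c u.n i - eC c * eV c) / eC c = u.n := by rw [h4]; exact k6_div i.2
    have h3 : (gt c u.n i - eC c * eV c) % eC c = i := by rw [h4]; exact k6_mod i.2
    simp only
    rw [if_neg h1, dif_pos ⟨by rw [h2]; exact k6_n u, by rw [h3]; exact i.2⟩]
    have h5 : ((⟨(gt c u.n i - eC c * eV c) / eC c, by rw [h2]; exact k6_n u⟩ : Fin (eD c)) : GF c.1.2.2) = u :=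
      Fin.ext h2
    exact congrArg₂ T h5 (Fin.ext h3)
  · intro j hj
    have h1 : ¬ j < eC c * eV c := by
      have := Nat.zero_le (eD c * eC c)
      omega
    have h2 : ¬ ((j - eC c * eV c) / eC c < eD c ∧ (j - eC c * eV c) % eC c < eC c) := by
      rintro ⟨h3, -⟩
      have h4 : j - eC c * eV c < eD c * eC c := (Nat.div_lt_iff_lt_mul (Nat.succ_pos _)).1 h3
      omega
    simp only
    rw [if_neg h1, dif_neg h2]

theorem k6_cases {c : Ce} (j : ℕ) (hj : j < eC c * eV c + eD c * eC c) :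
    (∃ (i : Fin (eC c)) (v : Fin (eV c)), j = ge c i v) ∨
      ∃ (u : GF c.1.2.2) (i : Fin (eC c)), j = gt c u.n i := by
  by_cases h : j < eC c * eV c
  · left
    refine ⟨⟨j / eV c, ?_⟩, ⟨j % eV c, Nat.mod_lt _ (Nat.succ_pos _)⟩, ?_⟩
    · rw [Nat.div_lt_iff_lt_mul (Nat.succ_pos _)]
      exact h
    · show j = j / eV c * eV c + j % eV c
      rw [mul_comm]
      exact (Nat.div_add_mod j (eV c)).symm
  · right
    have h1 : (j - eC c * eV c) / eC c < eD c := by
      have h4 : j - eC c * eV c < eD c * eC c := by omega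
      exact (Nat.div_lt_iff_lt_mul (Nat.succ_pos _)).2 h4
    obtain ⟨u, hu⟩ := k6_ns h1
    refine ⟨u, ⟨(j - eC c * eV c) % eC c, Nat.mod_lt _ (Nat.succ_pos _)⟩, ?_⟩
    rw [hu]
    show j = eC c * eV c + ((j - eC c * eV c) / eC c * eC c + (j - eC c * eV c) % eC c)
    have h2 := Nat.div_add_mod (j - eC c * eV c) (eC c)
    rw [mul_comm] at h2
    omega

theorem prE_iso {c : Ce} (h : ValE c) [I : Group (GF c.1.2.2)]
    {X : Cod (Fin (eV c)) (Fin (eC c)) (GF c.1.2.2)} (hX : IsC c X) (hv : X.Valid)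
    {x : List Wd} (hx : PathE c x) :
    Nonempty ((prE c x).Grp ≃* GC X hv (0 : Fin (eC c))) := by
  obtain ⟨Γ, ρ, β, τ, la⟩ := X
  have g1 : Γ = gr (bs c) := hX.gr
  subst g1
  have hρ : IsRho (bs c) ρ := hX.mv
  obtain ⟨q, hq⟩ : ∃ q : Fin (eC c) → RA (gr (bs c)), q = fun i : Fin (eC c) => wv (bs c) (x.getD i []) :=
    ⟨_, rfl⟩
  have hq0 : ∀ i, rm ρ 0 (q i) = i := by
    intro i
    apply Fin.ext
    rw [hq]
    show ((rm ρ 0 (wv (bs c) (x.getD i [])) : Fin (eC c)) : ℕ) = i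
    have h1 := run_eq (k6_val h) hρ 0 (x.getD i [])
    exact h1.trans (hx.2 i i.2)
  have hq1 : q 0 = 1 := by
    rw [hq]
    show wv (bs c) (x.getD ((0 : Fin (eC c)) : ℕ) []) = 1
    have : ((0 : Fin (eC c)) : ℕ) = 0 := rfl
    rw [this, hx.1, wv_nil]
  obtain ⟨E, T, hS, hgen, huniv⟩ := gc_sys hv 0 q hq0 hq1
  obtain ⟨f, f1, f2, f3⟩ := k6_fun E T
  -- the first homomorphism
  have hE1 : (fun (i : Fin (eC c)) (v : Fin (eV c)) => FreeGroup.lift f (FreeGroup.of (ge c i v))) = E := by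
    funext i v
    rw [FreeGroup.lift_apply_of, f1]
  have hT1 : (fun (u : GF c.1.2.2) (i : Fin (eC c)) => FreeGroup.lift f (FreeGroup.of (gt c u.n i))) =
      T := by
    funext u i
    rw [FreeGroup.lift_apply_of, f2]
  have hrel : ∀ r ∈ (prE c x).rels, FreeGroup.lift f r = 1 := by
    intro r hr
    rcases hr with ⟨w, hw, rfl⟩ | ⟨j, hj, rfl⟩
    · refine (k6_iff h hX x (FreeGroup.lift f)).2 ?_ w hw
      rw [hE1, hT1, ← hq]
      exact hS
    · rw [FreeGroup.lift_apply_of]
      exact f3 j hj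
  obtain ⟨F, hF⟩ : ∃ F : (prE c x).Grp →* GC _ hv (0 : Fin (eC c)),
      ∀ j, F (PresentedGroup.of j) = f j :=
    ⟨PresentedGroup.toGroup hrel, fun j => PresentedGroup.toGroup.of hrel⟩
  -- the second homomorphism
  have hS2 := (k6_iff h hX x (PresentedGroup.mk (prE c x).rels)).1 (fun w hw =>
    PresentedGroup.one_of_mem (Or.inl ⟨w, hw, rfl⟩))
  rw [← hq] at hS2
  obtain ⟨F', hF1, hF2⟩ := huniv _ _ _ hS2
  refine ⟨{ toFun := F, invFun := F', left_inv := ?_, right_inv := ?_, map_mul' := map_mul F }⟩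
  · have h1 : F'.comp F = MonoidHom.id _ := by
      apply PresentedGroup.ext
      intro j
      show F' (F (PresentedGroup.of j)) = PresentedGroup.of j
      by_cases hj : j < eC c * eV c + eD c * eC c
      · rcases k6_cases j hj with ⟨i, v, rfl⟩ | ⟨u, i, rfl⟩
        · rw [hF, f1, hF1]
          rfl
        · rw [hF, f2, hF2]
          rfl
      · rw [pres2_one_of_ge (P := prE c x) j (not_lt.1 hj), map_one, map_one]
    intro y
    exact DFunLike.congr_fun h1 y
  · have h1 : F.comp F' = MonoidHom.id _ := by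
      refine MonoidHom.eq_of_eqOn_dense hgen ?_
      rintro y (⟨⟨i, v⟩, rfl⟩ | ⟨⟨u, i⟩, rfl⟩)
      · show F (F' (E i v)) = E i v
        rw [hF1]
        exact (hF _).trans (f1 i v)
      · show F (F' (T u i)) = T u i
        rw [hF2]
        exact (hF _).trans (f2 u i)
    intro y
    exact DFunLike.congr_fun h1 y

/-- paths exist -/
theorem path_exists {c : Ce} (h : ValE c) [I : Group (GF c.1.2.2)]
    {X : Cod (Fin (eV c)) (Fin (eC c)) (GF c.1.2.2)} (hX : IsC c X) (hv : X.Valid) :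
    ∃ x : List Wd, PathE c x := by
  obtain ⟨Γ, ρ, β, τ, la⟩ := X
  have g1 : Γ = gr (bs c) := hX.gr
  subst g1
  have hρ : IsRho (bs c) ρ := hX.mv
  have ht : Trn ρ := hv.trn
  have hp' : ∀ i : Fin (eC c), ∃ l : Wd, rm ρ 0 (wv (bs c) l) = i ∧ (i = 0 → l = []) := by
    intro i
    by_cases hi : i = 0
    · refine ⟨[], ?_, fun _ => rfl⟩
      rw [wv_nil, rm_one, hi]
    · obtain ⟨g, hg⟩ := ht 0 i
      obtain ⟨l, hl⟩ := wv_surj (bs c) g
      exact ⟨l, by rw [hl, hg], fun h => absurd h hi⟩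
  choose pf hpf1 hpf2 using hp'
  obtain ⟨p, hp⟩ : ∃ p : List Wd, ∀ i : Fin (eC c), p.getD i [] = pf i := by
    refine ⟨(List.range (eC c)).map fun i => if h : i < eC c then pf ⟨i, h⟩ else [], fun i => ?_⟩
    rw [List.getD_eq_getElem _ _ (by simpa using i.2)]
    simp only [List.getElem_map, List.getElem_range]
    rw [dif_pos i.2]
  refine ⟨p, ?_, ?_⟩
  · have h1 := hp 0
    rw [hpf2 0 rfl] at h1
    exact h1
  · intro i hi
    have h1 := run_eq (k6_val h) hρ 0 (pf ⟨i, hi⟩)
    rw [hpf1] at h1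
    have h2 := hp ⟨i, hi⟩
    simp only at h2
    rw [h2]
    exact h1.symm

end RaagIso
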