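import Pool.Agent.Lib.MP_32d917_al_raag.KDefs
import Pool.Agent.Lib.MP_32d917_al_raag.C08
import Pool.Agent.Lib.MP_32d917_al_adm.C01

/-!
# K07: primitive recursiveness of validity and of the presentation

Closure lemmas: `CB.p_*`, `CB.pp_*` (`MP_32d917_al/CODEB.lean`), C03 (`p_rmN`, `pp_AdN`, `valN_p`, `p_liftN`, ...), C08 (`itN`, `MM`, sums: look for the lemmas used in the proof of `matN_p`, and `AdmIso.p_sumR`), `AdmIso.pp_PEq`, `p_psub`, `p_pmul` (`MP_32d917_al_adm/C01.lean`). All functions here are compositions of these;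
`bs` is a primitive recursive function of the code.
-/

set_option autoImplicit false
set_option synthInstance.maxSize 2000

namespace RaagIso

open LatIso AdmIso

section

variable {β γ δ : Type} [Primcodable β] [Primcodable γ] [Primcodable δ]

theorem k07_mapL {f : β → List γ} {g : β → γ → δ} (hf : Primrec f)
    (hg : Primrec fun x : β × γ => g x.1 x.2) : Primrec fun x => (f x).map fun y => g x y :=
  Primrec.list_map hf hg

theorem k07_flatMapL {f : β → List γ} {g : β → γ → List δ} (hf : Primrec f)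
    (hg : Primrec fun x : β × γ => g x.1 x.2) : Primrec fun x => (f x).flatMap fun y => g x y :=
  Primrec.list_flatMap hf hg

theorem k07_consL {f : β → γ} {g : β → List γ} (hf : Primrec f)
    (hg : Primrec g) : Primrec fun x => f x :: g x :=
  Primrec.list_cons.comp hf hg

theorem k07_app {f g : β → List γ} (hf : Primrec f) (hg : Primrec g) :
    Primrec fun x => f x ++ g x :=
  Primrec.list_append.comp hf hg

theorem k07_iteL {p : β → Prop} [DecidablePred p] {f g : β → γ} (hp : PrimrecPred p)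
    (hf : Primrec f) (hg : Primrec g) : Primrec fun x => if p x then f x else g x :=
  Primrec.ite hp hf hg

theorem k07_rangeL {f : β → ℕ} (hf : Primrec f) : Primrec fun x => List.range (f x) :=
  Primrec.list_range.comp hf

theorem k07_factL {f : β → ℕ} (hf : Primrec f) : Primrec fun x => (f x).factorial := by
  have h1 : Primrec₂ fun (_ : β) (y : ℕ × ℕ) => (y.1 + 1) * y.2 :=
    CB.p_mul (CB.p_add (CB.p_fst (CB.p_snd CB.p_id)) (Primrec.const 1)) (CB.p_snd (CB.p_snd CB.p_id))
  refine (Primrec.nat_rec' hf (Primrec.const 1) h1).of_eq ?_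
  intro x
  generalize f x = n
  induction n with
  | zero => rfl
  | succ n ih =>
    rw [Nat.factorial_succ, ← ih]

theorem k07_rep {f : β → ℕ} {g : β → γ} (hf : Primrec f) (hg : Primrec g) :
    Primrec fun x => List.replicate (f x) (g x) := by
  have h1 : Primrec fun x => (List.range (f x)).map fun _ => g x :=
    k07_mapL (k07_rangeL hf) (hg.comp Primrec.fst)
  refine h1.of_eq ?_
  intro x
  rw [List.map_const', List.length_range]

end

section

variable {β : Type} [Primcodable β] {f : β → Ce} {g h j e : β → ℕ}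

theorem k07_eV (hf : Primrec f) : Primrec fun x => eV (f x) :=
  CB.p_add (CB.p_fst (CB.p_fst hf)) (Primrec.const 1)

theorem k07_eC (hf : Primrec f) : Primrec fun x => eC (f x) :=
  CB.p_add (CB.p_fst (CB.p_snd (CB.p_fst hf))) (Primrec.const 1)

theorem k07_eD (hf : Primrec f) : Primrec fun x => eD (f x) :=
  CB.p_add (CB.p_snd (CB.p_snd (CB.p_fst hf))) (Primrec.const 1)

theorem p_bs (hf : Primrec f) : Primrec fun x => bs (f x) := by
  unfold bs
  exact CB.p_pair (CB.p_pair (CB.p_fst (CB.p_fst hf)) (CB.p_fst (CB.p_snd (CB.p_fst hf))))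
    (CB.p_pair (CB.p_fst (CB.p_fst (CB.p_snd hf))) (CB.p_pair (CB.p_fst (CB.p_snd (CB.p_snd hf)))
      (CB.p_fst (CB.p_snd (CB.p_snd (CB.p_snd hf))))))

theorem p_muE (hf : Primrec f) (hg : Primrec g) (hh : Primrec h) :
    Primrec fun x => muE (f x) (g x) (h x) := by
  unfold muE
  exact CB.p_dg (CB.p_snd (CB.p_snd (CB.p_fst hf)))
    (CB.p_fst (CB.p_snd (CB.p_snd (CB.p_snd (CB.p_snd hf)))))
    (CB.p_add (CB.p_mul hg (k07_eD hf)) hh)

theorem p_beE (hf : Primrec f) (hg : Primrec g) (hh : Primrec h) :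
    Primrec fun x => beE (f x) (g x) (h x) := by
  unfold beE
  exact CB.p_dg (CB.p_fst (CB.p_snd (CB.p_fst hf)))
    (CB.p_fst (CB.p_snd (CB.p_snd (CB.p_snd (CB.p_snd (CB.p_snd hf))))))
    (CB.p_add (CB.p_mul hg (k07_eC hf)) hh)

theorem p_taE (hf : Primrec f) (hg : Primrec g) (hh : Primrec h) (hj : Primrec j) :
    Primrec fun x => taE (f x) (g x) (h x) (j x) := by
  unfold taE
  exact CB.p_dg (CB.p_fst (CB.p_fst hf))
    (CB.p_fst (CB.p_snd (CB.p_snd (CB.p_snd (CB.p_snd (CB.p_snd (CB.p_snd hf)))))))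
    (CB.p_add (CB.p_mul (CB.p_add (CB.p_mul hg (k07_eC hf)) hh) (k07_eV hf)) hj)

theorem p_laE (hf : Primrec f) (hg : Primrec g) (hh : Primrec h) (hj : Primrec j) :
    Primrec fun x => laE (f x) (g x) (h x) (j x) := by
  unfold laE
  have h1 : Primrec fun x => (f x).2.1.2 := CB.p_snd (CB.p_fst (CB.p_snd hf))
  exact c03_getD (0, 0) h1 (CB.p_dg (Primrec.list_length.comp h1)
    (CB.p_snd (CB.p_snd (CB.p_snd (CB.p_snd (CB.p_snd (CB.p_snd (CB.p_snd hf)))))))
    (CB.p_add (CB.p_mul (CB.p_add (CB.p_mul hg (k07_eC hf)) hh) (k07_eV hf)) hj))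

theorem p_MM {f : β → Cd} (hf : Primrec f) : Primrec fun x => MM (f x) := by
  unfold MM
  exact k07_factL (p_cM hf)

theorem p_itN {f : β → Cd} (hf : Primrec f) (hg : Primrec g) (hh : Primrec h) (hj : Primrec j) :
    Primrec fun x => itN (f x) (g x) (h x) (j x) := by
  unfold itN
  have h1 : Primrec₂ fun (x : β) (i : ℕ) => rmN (f x) i (h x) :=
    p_rmN (hf.comp Primrec.fst) Primrec.snd (hh.comp Primrec.fst)
  exact Primrec.nat_iterate hj hg h1

theorem p_arg {n : β → PI} (hg : Primrec g) (hn : Primrec n) :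
    Primrec fun x => arg (g x) (n x) := by
  unfold arg
  exact CB.p_add (CB.p_fst hn) (CB.p_mul (CB.p_sub hg (Primrec.const 1)) (CB.p_snd hn))

theorem p_shE (hf : Primrec f) (hg : Primrec g) (hh : Primrec h) (hj : Primrec j)
    (he : Primrec e) : Primrec fun x => shE (f x) (g x) (h x) (j x) (e x) := by
  unfold shE
  have h1 : Primrec fun y : β × ℕ => laE (f y.1) (g y.1) (itN (bs (f y.1)) (h y.1) (j y.1) y.2)
      (j y.1) := by
    have hf' : Primrec fun y : β × ℕ => f y.1 := hf.comp Primrec.fst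
    exact p_laE hf' (hg.comp Primrec.fst) (p_itN (p_bs hf') (hh.comp Primrec.fst)
      (hj.comp Primrec.fst) Primrec.snd) (hj.comp Primrec.fst)
  exact CB.p_pair (p_sumR he (CB.p_fst h1)) (p_sumR he (CB.p_snd h1))

theorem p_shZ {n : β → PI} (hf : Primrec f) (hg : Primrec g) (hh : Primrec h) (hj : Primrec j)
    (hn : Primrec n) : Primrec fun x => shZ (f x) (g x) (h x) (j x) (n x) := by
  unfold shZ
  have h1 : Primrec fun x => MM (bs (f x)) := p_MM (p_bs hf)
  exact p_psub (p_shE hf hg hh hj (p_arg h1 hn))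
    (p_pmul (CB.p_pair (CB.p_snd hn) (Primrec.const 0)) (p_shE hf hg hh hj h1))

theorem k07_ge (hf : Primrec f) (hg : Primrec g) (hh : Primrec h) :
    Primrec fun x => ge (f x) (g x) (h x) := by
  unfold ge
  exact CB.p_add (CB.p_mul hg (k07_eV hf)) hh

theorem k07_gt (hf : Primrec f) (hg : Primrec g) (hh : Primrec h) :
    Primrec fun x => gt (f x) (g x) (h x) := by
  unfold gt
  exact CB.p_add (CB.p_mul (k07_eC hf) (k07_eV hf)) (CB.p_add (CB.p_mul hg (k07_eC hf)) hh)

theorem k07_idl (hf : Primrec f) : Primrec fun x => idl (f x) := by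
  unfold idl
  exact k07_mapL (k07_rangeL (CB.p_mul (k07_eC hf) (k07_eV hf)))
    (k07_consL (CB.p_pair (CB.p_snd CB.p_id) (Primrec.const true)) (Primrec.const []))

theorem k07_pwL {n : β → PI} (hg : Primrec g) (hn : Primrec n) :
    Primrec fun x => pwL (g x) (n x) := by
  unfold pwL
  exact k07_app (k07_rep (CB.p_fst hn) (CB.p_pair hg (Primrec.const true)))
    (k07_rep (CB.p_snd hn) (CB.p_pair hg (Primrec.const false)))

theorem k07_l1 (b : Bool) (hg : Primrec g) : Primrec fun x => ([(g x, b)] : Wd) :=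
  k07_consL (CB.p_pair hg (Primrec.const b)) (Primrec.const [])

theorem k07_val : PrimrecPred fun x : Ce => ValN (bs x) := valN_p.comp (p_bs CB.p_id)

end

theorem valE_p : PrimrecPred ValE := by
  unfold ValE GrpE AutE
  (repeat' (with_reducible first | assumption | exact CB.p_id | exact Primrec.const _ | exact CB.pp_const _ | exact k07_val | apply k07_eV | apply k07_eC | apply k07_eD | apply p_bs | apply p_MM | apply pp_AdN | apply pp_StN | apply p_rmN | apply p_riN | apply p_itN | apply p_muE | apply p_beE | apply p_taE | apply p_laE | apply p_arg | apply p_shE | apply p_shZ | apply pp_PEq | apply CB.p_fst | apply CB.p_snd | apply CB.p_pair | apply CB.p_add | apply CB.p_sub | apply CB.p_mul | apply CB.p_div | apply CB.p_mod | apply CB.p_pow | apply CB.p_dg | apply CB.pp_all | apply CB.pp_ex | apply CB.pp_and | apply CB.pp_or | apply CB.pp_not | apply CB.pp_iff | apply CB.pp_imp | apply CB.pp_lt | apply CB.pp_eq))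

theorem k07_A {β : Type} [Primcodable β] {f : β → Ce} (hf : Primrec f) :
    Primrec fun x => (List.range (eC (f x))).flatMap fun i =>
      (List.range (eV (f x))).flatMap fun v =>
      (List.range (eV (f x))).flatMap fun w => if AdN (bs (f x)) v w then
      [[(ge (f x) i v, true), (ge (f x) (rmN (bs (f x)) i v) w, true),
        (ge (f x) (rmN (bs (f x)) i w) v, false), (ge (f x) i w, false)]] else [] := by
  refine k07_flatMapL (k07_rangeL (k07_eC hf)) ?_
  refine k07_flatMapL (k07_rangeL (k07_eV (hf.comp Primrec.fst))) ?_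
  have e1 : Primrec fun y : (β × ℕ) × ℕ => f y.1.1 :=
    hf.comp (Primrec.fst.comp Primrec.fst)
  refine k07_flatMapL (k07_rangeL (k07_eV e1)) ?_
  have e2 : Primrec fun y : ((β × ℕ) × ℕ) × ℕ => f y.1.1.1 := e1.comp Primrec.fst
  have ei : Primrec fun y : ((β × ℕ) × ℕ) × ℕ => y.1.1.2 := CB.p_snd (CB.p_fst (CB.p_fst CB.p_id))
  have ev : Primrec fun y : ((β × ℕ) × ℕ) × ℕ => y.1.2 := CB.p_snd (CB.p_fst CB.p_id)
  have ew : Primrec fun y : ((β × ℕ) × ℕ) × ℕ => y.2 := CB.p_snd CB.p_id
  refine k07_iteL (pp_AdN (p_bs e2) ev ew) (k07_consL ?_ (Primrec.const [])) (Primrec.const [])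
  exact k07_consL (CB.p_pair (k07_ge e2 ei ev) (Primrec.const true))
    (k07_consL (CB.p_pair (k07_ge e2 (p_rmN (p_bs e2) ei ev) ew) (Primrec.const true))
    (k07_consL (CB.p_pair (k07_ge e2 (p_rmN (p_bs e2) ei ew) ev) (Primrec.const false))
    (k07_consL (CB.p_pair (k07_ge e2 ei ew) (Primrec.const false)) (Primrec.const []))))

theorem k07_B {β : Type} [Primcodable β] {f : β → Ce} {x : β → List Wd} (hf : Primrec f)
    (hx : Primrec x) : Primrec fun y => (List.range (eC (f y))).map fun i =>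
      liftN (bs (f y)) (idl (f y)) 0 ((x y).getD i []) := by
  refine k07_mapL (k07_rangeL (k07_eC hf)) ?_
  exact p_liftN (p_bs (hf.comp Primrec.fst)) (k07_idl (hf.comp Primrec.fst)) (Primrec.const 0)
    (pres2_getD_p (hx.comp Primrec.fst) Primrec.snd)

theorem k07_C {β : Type} [Primcodable β] {f : β → Ce} (hf : Primrec f) :
    Primrec fun x => (List.range (eD (f x))).flatMap fun u =>
      (List.range (eC (f x))).flatMap fun i => (List.range (eV (f x))).map fun v =>
      ([(gt (f x) u i, true), (ge (f x) i v, true)] ++ FreeGroup.invRev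
        (liftN (bs (f x)) (idl (f x)) (beE (f x) u i) (pwL (taE (f x) u i v) (laE (f x) u i v)) ++
          [(gt (f x) u (rmN (bs (f x)) i v), true)]) : Wd) := by
  refine k07_flatMapL (k07_rangeL (k07_eD hf)) ?_
  refine k07_flatMapL (k07_rangeL (k07_eC (hf.comp Primrec.fst))) ?_
  have e1 : Primrec fun y : (β × ℕ) × ℕ => f y.1.1 :=
    hf.comp (Primrec.fst.comp Primrec.fst)
  refine k07_mapL (k07_rangeL (k07_eV e1)) ?_
  have e2 : Primrec fun y : ((β × ℕ) × ℕ) × ℕ => f y.1.1.1 := e1.comp Primrec.fst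
  have eu : Primrec fun y : ((β × ℕ) × ℕ) × ℕ => y.1.1.2 := CB.p_snd (CB.p_fst (CB.p_fst CB.p_id))
  have ei : Primrec fun y : ((β × ℕ) × ℕ) × ℕ => y.1.2 := CB.p_snd (CB.p_fst CB.p_id)
  have ev : Primrec fun y : ((β × ℕ) × ℕ) × ℕ => y.2 := CB.p_snd CB.p_id
  refine k07_app ?_ (pres1_invRev_p (k07_app ?_ ?_))
  · exact k07_consL (CB.p_pair (k07_gt e2 eu ei) (Primrec.const true))
      (k07_consL (CB.p_pair (k07_ge e2 ei ev) (Primrec.const true)) (Primrec.const []))
  · exact p_liftN (p_bs e2) (k07_idl e2) (p_beE e2 eu ei)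
      (k07_pwL (p_taE e2 eu ei ev) (p_laE e2 eu ei ev))
  · exact k07_l1 true (k07_gt e2 eu (p_rmN (p_bs e2) ei ev))

theorem k07_D {β : Type} [Primcodable β] {f : β → Ce} (hf : Primrec f) :
    Primrec fun x => (List.range (eD (f x))).flatMap fun u =>
      (List.range (eD (f x))).flatMap fun u' => (List.range (eC (f x))).map fun i =>
      ([(gt (f x) u (beE (f x) u' i), true), (gt (f x) u' i, true),
        (gt (f x) (muE (f x) u u') i, false)] : Wd) := by
  refine k07_flatMapL (k07_rangeL (k07_eD hf)) ?_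
  refine k07_flatMapL (k07_rangeL (k07_eD (hf.comp Primrec.fst))) ?_
  have e1 : Primrec fun y : (β × ℕ) × ℕ => f y.1.1 :=
    hf.comp (Primrec.fst.comp Primrec.fst)
  refine k07_mapL (k07_rangeL (k07_eC e1)) ?_
  have e2 : Primrec fun y : ((β × ℕ) × ℕ) × ℕ => f y.1.1.1 := e1.comp Primrec.fst
  have eu : Primrec fun y : ((β × ℕ) × ℕ) × ℕ => y.1.1.2 := CB.p_snd (CB.p_fst (CB.p_fst CB.p_id))
  have ew : Primrec fun y : ((β × ℕ) × ℕ) × ℕ => y.1.2 := CB.p_snd (CB.p_fst CB.p_id)
  have ei : Primrec fun y : ((β × ℕ) × ℕ) × ℕ => y.2 := CB.p_snd CB.p_id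
  exact k07_consL (CB.p_pair (k07_gt e2 eu (p_beE e2 ew ei)) (Primrec.const true))
    (k07_consL (CB.p_pair (k07_gt e2 ew ei) (Primrec.const true))
    (k07_consL (CB.p_pair (k07_gt e2 (p_muE e2 eu ew) ei) (Primrec.const false))
    (Primrec.const [])))

theorem k07_prE {β : Type} [Primcodable β] {f : β → Ce} {x : β → List Wd} (hf : Primrec f)
    (hx : Primrec x) : Primrec fun y => prE (f y) (x y) := by
  unfold prE
  refine CB.p_pair (CB.p_add (CB.p_mul (k07_eC hf) (k07_eV hf))
    (CB.p_mul (k07_eD hf) (k07_eC hf))) ?_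
  exact k07_app (k07_app (k07_app (k07_A hf) (k07_B hf hx)) (k07_C hf)) (k07_D hf)

theorem p_prE : Primrec fun x : Ce × List Wd => prE x.1 x.2 :=
  k07_prE Primrec.fst Primrec.snd

theorem pathE_p : PrimrecPred fun x : Ce × List Wd => PathE x.1 x.2 := by
  unfold PathE
  refine CB.pp_and ?_ (CB.pp_all (k07_eC (CB.p_fst CB.p_id)) ?_)
  · exact CB.pp_eq (pres2_getD_p (CB.p_snd CB.p_id) (Primrec.const 0)) (Primrec.const [])
  · exact CB.pp_eq (p_runN (p_bs (CB.p_fst (CB.p_fst CB.p_id))) (Primrec.const 0)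
      (pres2_getD_p (CB.p_snd (CB.p_fst CB.p_id)) (CB.p_snd CB.p_id))) (CB.p_snd CB.p_id)

theorem codeE_re : REPred fun x : Pres × Ce => CodeE x.1 x.2 := by
  unfold CodeE
  refine re_and (re_of_prim (valE_p.comp Primrec.snd)) ?_
  refine re_exists (p := fun (x : Pres × Ce) (y : List Wd) =>
    PathE x.2 y ∧ Nonempty (x.1.Grp ≃* (prE x.2 y).Grp)) ?_
  refine re_and (re_of_prim ?_) ?_
  · exact PrimrecPred.comp (p := fun x : Ce × List Wd => PathE x.1 x.2)
      (f := fun y : (Pres × Ce) × List Wd => (y.1.2, y.2)) pathE_p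
      (CB.p_pair (CB.p_snd (CB.p_fst CB.p_id)) (CB.p_snd CB.p_id))
  · exact re_comp iso_re (f := fun y : (Pres × Ce) × List Wd => (y.1.1, prE y.1.2 y.2))
      (CB.p_pair (CB.p_fst (CB.p_fst CB.p_id))
        (k07_prE (CB.p_snd (CB.p_fst CB.p_id)) (CB.p_snd CB.p_id))).to_comp

end RaagIso
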