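import Pool.Agent.Lib.MP_32d917_al_raag.K07
import Pool.Agent.Lib.MP_32d917_al_adm.C01

/-!
# K08: the absence of good matchings is recursively enumerable

`refE_p`, `simE_p` are primitive recursive (K07, C08), `p_sysE` too (as `p_sysN` in C08). `TB`: `Primrec` of factorial as in C08 (`MM`), power `CB.p_pow`. `r1E`, `r2E`, `stE` are primitive recursive functions of `((c, c'), t)`.
`¬ GoodE` is r.e.: `¬ ValE ∨ ... ∨ ¬ Sol` (`re_or`, `re_of_prim`, `AdmIso.not_sol_re`, `re_comp`), then `re_forall_lt`.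
-/

set_option autoImplicit false
set_option synthInstance.maxSize 2000

namespace RaagIso

open LatIso AdmIso

section

variable {β γ δ : Type} [Primcodable β] [Primcodable γ] [Primcodable δ]

private theorem k08_map {f : β → List γ} {g : β → γ → δ} (hf : Primrec f)
    (hg : Primrec fun x : β × γ => g x.1 x.2) : Primrec fun x => (f x).map fun y => g x y :=
  Primrec.list_map hf hg

private theorem k08_flatMap {f : β → List γ} {g : β → γ → List δ} (hf : Primrec f)
    (hg : Primrec fun x : β × γ => g x.1 x.2) : Primrec fun x => (f x).flatMap fun y => g x y :=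
  Primrec.list_flatMap hf hg

private theorem k08_append {f g : β → List γ} (hf : Primrec f)
    (hg : Primrec g) : Primrec fun x => f x ++ g x :=
  Primrec.list_append.comp hf hg

private theorem k08_ite {p : β → Prop} [DecidablePred p] {f g : β → γ} (hp : PrimrecPred p)
    (hf : Primrec f) (hg : Primrec g) : Primrec fun x => if p x then f x else g x :=
  Primrec.ite hp hf hg

private theorem k08_range {f : β → ℕ} (hf : Primrec f) : Primrec fun x => List.range (f x) :=
  Primrec.list_range.comp hf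

private theorem k08_length {f : β → List γ} (hf : Primrec f) :
    Primrec fun x => (f x).length := Primrec.list_length.comp hf

private theorem k08_fact {f : β → ℕ} (hf : Primrec f) : Primrec fun x => (f x).factorial := by
  have h1 : Primrec₂ fun (_ : β) (y : ℕ × ℕ) => (y.1 + 1) * y.2 :=
    CB.p_mul (CB.p_add (CB.p_fst (CB.p_snd CB.p_id)) (Primrec.const 1)) (CB.p_snd (CB.p_snd CB.p_id))
  refine (Primrec.nat_rec' hf (Primrec.const 1) h1).of_eq ?_
  intro x
  generalize f x = n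
  induction n with
  | zero => rfl
  | succ n ih =>
    rw [Nat.factorial_succ, ← ih]

variable {c : β → Cd} {t : β → Mt} {i v w l : β → ℕ}

private theorem k08_FN (hc : Primrec c) (ht : Primrec t) (hi : Primrec i) :
    Primrec fun x => FN (c x) (t x) (i x) := by
  unfold FN
  exact CB.p_dg (CB.p_snd (CB.p_fst hc)) (CB.p_fst ht) hi

private theorem k08_tN (hc : Primrec c) (ht : Primrec t) (hi : Primrec i) (hv : Primrec v) :
    Primrec fun x => tN (c x) (t x) (i x) (v x) := by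
  unfold tN
  exact CB.p_dg (CB.p_fst (CB.p_fst hc)) (CB.p_fst (CB.p_snd ht))
    (CB.p_add (CB.p_mul hi (p_cK hc)) hv)

private theorem k08_dN (hc : Primrec c) (ht : Primrec t) (hi : Primrec i) (hv : Primrec v) :
    Primrec fun x => dN (c x) (t x) (i x) (v x) := by
  unfold dN
  exact CB.p_dg (CB.p_sub (p_MM hc) (Primrec.const 1)) (CB.p_fst (CB.p_snd (CB.p_snd ht)))
    (CB.p_add (CB.p_mul hi (p_cK hc)) hv)

private theorem k08_sdN (hc : Primrec c) (ht : Primrec t) (hi : Primrec i) (hv : Primrec v)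
    (hl : Primrec l) : Primrec fun x => sdN (c x) (t x) (i x) (v x) (l x) := by
  unfold sdN
  exact p_sumR hl (k08_dN (hc.comp Primrec.fst) (ht.comp Primrec.fst)
    (p_itN (hc.comp Primrec.fst) (hi.comp Primrec.fst) (hv.comp Primrec.fst) Primrec.snd)
    (hv.comp Primrec.fst))

private theorem k08_ix (hc : Primrec c) (hi : Primrec i) (hv : Primrec v) :
    Primrec fun x => ix (c x) (i x) (v x) := by
  unfold ix
  exact CB.p_add (CB.p_mul hi (p_cK hc)) hv

variable {e : β → Ce}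

private theorem k08_eC (he : Primrec e) : Primrec fun x => eC (e x) :=
  CB.p_add (CB.p_fst (CB.p_snd (CB.p_fst he))) (Primrec.const 1)

private theorem k08_eV (he : Primrec e) : Primrec fun x => eV (e x) :=
  CB.p_add (CB.p_fst (CB.p_fst he)) (Primrec.const 1)

private theorem k08_eD (he : Primrec e) : Primrec fun x => eD (e x) :=
  CB.p_add (CB.p_snd (CB.p_snd (CB.p_fst he))) (Primrec.const 1)

end

theorem refE_p : PrimrecPred fun x : (Ce × Ce) × (ℕ × ℕ) => RefE x.1.1 x.1.2 x.2 := by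
  unfold RefE
  (repeat' (with_reducible first | assumption | exact CB.p_id | exact Primrec.const _ | exact CB.pp_const _ | apply p_bs | apply p_muE | apply p_beE | apply p_taE | apply p_laE | apply k08_eC | apply k08_eV | apply k08_eD | apply p_rmN | apply CB.p_fst | apply CB.p_snd | apply CB.p_pair | apply CB.p_add | apply CB.p_sub | apply CB.p_mul | apply CB.p_pow | apply CB.p_dg | apply CB.pp_all | apply CB.pp_ex | apply CB.pp_and | apply CB.pp_or | apply CB.pp_not | apply CB.pp_iff | apply CB.pp_imp | apply CB.pp_lt | apply CB.pp_eq))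

theorem simE_p : PrimrecPred fun x : (Ce × Ce) × Mt => SimE x.1.1 x.1.2 x.2 := by
  have hm : PrimrecPred fun x : (Ce × Ce) × Mt => MatN (bs x.1.1) (bs x.1.2) x.2 := by
    have h := PrimrecPred.comp (p := fun x : (Cd × Cd) × Mt => MatN x.1.1 x.1.2 x.2)
      (f := fun x : (Ce × Ce) × Mt => (((bs x.1.1, bs x.1.2), x.2) : (Cd × Cd) × Mt)) matN_p
      (CB.p_pair (CB.p_pair (p_bs (CB.p_fst (CB.p_fst CB.p_id)))
        (p_bs (CB.p_snd (CB.p_fst CB.p_id)))) (CB.p_snd CB.p_id))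
    exact h
  unfold SimE
  (repeat' (with_reducible first | assumption | exact hm | exact CB.p_id | exact Primrec.const _ | exact CB.pp_const _ | apply p_bs | apply p_muE | apply p_beE | apply p_taE | apply p_laE | apply k08_eC | apply k08_eV | apply k08_eD | apply k08_FN | apply k08_tN | apply p_rmN | apply CB.p_fst | apply CB.p_snd | apply CB.p_pair | apply CB.p_add | apply CB.p_sub | apply CB.p_mul | apply CB.p_pow | apply CB.p_dg | apply CB.pp_all | apply CB.pp_ex | apply CB.pp_and | apply CB.pp_or | apply CB.pp_not | apply CB.pp_iff | apply CB.pp_imp | apply CB.pp_lt | apply CB.pp_eq))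

section

variable {β : Type} [Primcodable β] {e e' : β → Ce} {t : β → Mt} {u i v : β → ℕ}

private theorem k08_rowE (he : Primrec e) (he' : Primrec e') (ht : Primrec t) (hu : Primrec u)
    (hi : Primrec i) (hv : Primrec v) :
    Primrec fun x => rowE (e x) (e' x) (t x) (u x) (i x) (v x) := by
  have hb := p_bs he
  have hM := p_MM hb
  have hbe := p_beE he hu hi
  have hta := p_taE he hu hi hv
  have hla := p_laE he hu hi hv
  have he1 : Primrec fun x : β × ℕ => e x.1 := he.comp Primrec.fst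
  have he'1 : Primrec fun x : β × ℕ => e' x.1 := he'.comp Primrec.fst
  have ht1 : Primrec fun x : β × ℕ => t x.1 := ht.comp Primrec.fst
  have hu1 : Primrec fun x : β × ℕ => u x.1 := hu.comp Primrec.fst
  have hi1 : Primrec fun x : β × ℕ => i x.1 := hi.comp Primrec.fst
  have hv1 : Primrec fun x : β × ℕ => v x.1 := hv.comp Primrec.fst
  have hb1 := p_bs he1
  have hM1 := p_MM hb1
  have hla1 := p_laE he1 hu1 hi1 hv1
  have harg1 := p_arg hM1 hla1
  have he2 : Primrec fun x : (β × ℕ) × ℕ => e x.1.1 := he1.comp Primrec.fst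
  have hu2 : Primrec fun x : (β × ℕ) × ℕ => u x.1.1 := hu1.comp Primrec.fst
  have hi2 : Primrec fun x : (β × ℕ) × ℕ => i x.1.1 := hi1.comp Primrec.fst
  have hv2 : Primrec fun x : (β × ℕ) × ℕ => v x.1.1 := hv1.comp Primrec.fst
  have hb2 := p_bs he2
  have hbe2 := p_beE he2 hu2 hi2
  have hta2 := p_taE he2 hu2 hi2 hv2
  have hin : Primrec fun x : (β × ℕ) × ℕ =>
      (if x.1.2 = ix (bs (e x.1.1)) (itN (bs (e x.1.1)) (beE (e x.1.1) (u x.1.1) (i x.1.1))
        (taE (e x.1.1) (u x.1.1) (i x.1.1) (v x.1.1)) x.2)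
        (taE (e x.1.1) (u x.1.1) (i x.1.1) (v x.1.1)) then MM (bs (e x.1.1)) else 0) :=
    k08_ite (CB.pp_eq (CB.p_snd (CB.p_fst CB.p_id))
      (k08_ix hb2 (p_itN hb2 hbe2 hta2 (CB.p_snd CB.p_id)) hta2)) (p_MM hb2) (Primrec.const 0)
  unfold rowE
  refine CB.p_pair (k08_map (k08_range (CB.p_mul (k08_eC he) (k08_eV he))) ?_) ?_
  · refine p_psub (CB.p_pair (p_sumR harg1 hin) (CB.p_mul (CB.p_snd hla1) (p_sumR hM1 hin))) ?_
    exact k08_ite (CB.pp_eq (CB.p_snd CB.p_id) (k08_ix hb1 hi1 hv1))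
      (p_shE he'1 hu1 hi1 (k08_tN hb1 ht1 hi1 hv1) hM1) (Primrec.const _)
  · exact p_psub (p_shE he' hu hi (k08_tN hb ht hi hv) (k08_dN hb ht hi hv))
      (CB.p_pair (k08_sdN hb ht hbe hta (p_arg hM hla))
        (CB.p_mul (CB.p_snd hla) (k08_sdN hb ht hbe hta hM)))

end

theorem p_sysE : Primrec fun x : (Ce × Ce) × Mt => sysE x.1.1 x.1.2 x.2 := by
  have h1 : Primrec fun x : (Ce × Ce) × Mt => (sysN (bs x.1.1) x.2).2 := by
    refine CB.p_snd ?_
    exact Primrec.comp (f := fun y : Cd × Mt => sysN y.1 y.2)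
      (g := fun x : (Ce × Ce) × Mt => ((bs x.1.1, x.2) : Cd × Mt)) p_sysN
      (CB.p_pair (p_bs (CB.p_fst (CB.p_fst CB.p_id))) (CB.p_snd CB.p_id))
  unfold sysE
  refine CB.p_pair (CB.p_mul (k08_eC (CB.p_fst (CB.p_fst CB.p_id)))
    (k08_eV (CB.p_fst (CB.p_fst CB.p_id)))) (k08_append h1 ?_)
  refine k08_flatMap (k08_range (k08_eD (CB.p_fst (CB.p_fst CB.p_id)))) ?_
  refine k08_flatMap (k08_range (k08_eC (CB.p_fst (CB.p_fst (CB.p_fst CB.p_id))))) ?_
  refine k08_map (k08_range (k08_eV (CB.p_fst (CB.p_fst (CB.p_fst (CB.p_fst CB.p_id)))))) ?_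
  exact k08_rowE (CB.p_fst (CB.p_fst (CB.p_fst (CB.p_fst (CB.p_fst CB.p_id)))))
    (CB.p_snd (CB.p_fst (CB.p_fst (CB.p_fst (CB.p_fst CB.p_id)))))
    (CB.p_snd (CB.p_fst (CB.p_fst (CB.p_fst CB.p_id))))
    (CB.p_snd (CB.p_fst (CB.p_fst CB.p_id))) (CB.p_snd (CB.p_fst CB.p_id)) (CB.p_snd CB.p_id)

theorem p_TB : Primrec fun x : Ce × Ce => TB x.1 x.2 := by
  have hX : Primrec fun x : Ce × Ce => XE x.1 x.2 := by
    unfold XE
    (repeat' (with_reducible first | exact CB.p_id | exact Primrec.const _ | apply k08_eC | apply k08_eV | apply k08_eD | apply k08_length | apply CB.p_fst | apply CB.p_snd | apply CB.p_add | apply CB.p_mul))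
  unfold TB
  exact CB.p_pow (k08_fact hX) (CB.p_pow hX (Primrec.const 3))

section

variable {β : Type} [Primcodable β] {e e' : β → Ce} {t j : β → ℕ}

private theorem k08_tg (he : Primrec e) (he' : Primrec e') (ht : Primrec t) (hj : Primrec j) :
    Primrec fun x => tg (e x) (e' x) (t x) (j x) := by
  unfold tg
  exact CB.p_dg (Primrec.comp (f := fun y : Ce × Ce => TB y.1 y.2)
      (g := fun x : β => ((e x, e' x) : Ce × Ce)) p_TB (CB.p_pair he he')) ht hj

private theorem k08_r1 (he : Primrec e) (he' : Primrec e') (ht : Primrec t) :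
    Primrec fun x => r1E (e x) (e' x) (t x) := by
  have h : ∀ j : ℕ, Primrec fun x => tg (e x) (e' x) (t x) j :=
    fun j => k08_tg he he' ht (Primrec.const j)
  unfold r1E
  exact CB.p_pair (CB.p_pair (CB.p_fst (CB.p_fst he)) (CB.p_pair (h 0) (h 1)))
    (CB.p_pair (CB.p_fst (CB.p_snd he)) (CB.p_pair (h 2) (CB.p_pair (h 3) (CB.p_pair (h 4)
      (CB.p_pair (h 5) (CB.p_pair (h 6) (h 7)))))))

private theorem k08_r2 (he : Primrec e) (he' : Primrec e') (ht : Primrec t) :
    Primrec fun x => r2E (e x) (e' x) (t x) := by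
  have h : ∀ j : ℕ, Primrec fun x => tg (e x) (e' x) (t x) j :=
    fun j => k08_tg he he' ht (Primrec.const j)
  unfold r2E
  exact CB.p_pair (CB.p_pair (CB.p_fst (CB.p_fst he')) (CB.p_pair (h 0) (h 1)))
    (CB.p_pair (CB.p_fst (CB.p_snd he')) (CB.p_pair (h 10) (CB.p_pair (h 11) (CB.p_pair (h 4)
      (CB.p_pair (h 12) (CB.p_pair (h 13) (h 14)))))))

private theorem k08_st (he : Primrec e) (he' : Primrec e') (ht : Primrec t) :
    Primrec fun x => stE (e x) (e' x) (t x) := by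
  have h : ∀ j : ℕ, Primrec fun x => tg (e x) (e' x) (t x) j :=
    fun j => k08_tg he he' ht (Primrec.const j)
  unfold stE
  exact CB.p_pair (h 17) (CB.p_pair (h 18) (CB.p_pair (h 19) (h 20)))

private theorem k08_re_sol {s : β → Sys} (hs : Primrec s) : REPred fun x => ¬ Sol (s x) :=
  re_comp (p := fun y : Sys => ¬ Sol y) (f := s) not_sol_re (Primrec.to_comp hs)

end

section

attribute [local irreducible] ValE RefE SimE sysE r1E r2E stE tg TB XE

theorem k08_good : REPred fun x : (Ce × Ce) × ℕ => ¬ GoodE x.1.1 x.1.2 x.2 := by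
  have he : Primrec fun x : (Ce × Ce) × ℕ => x.1.1 := CB.p_fst (CB.p_fst CB.p_id)
  have he' : Primrec fun x : (Ce × Ce) × ℕ => x.1.2 := CB.p_snd (CB.p_fst CB.p_id)
  have ht : Primrec fun x : (Ce × Ce) × ℕ => x.2 := CB.p_snd CB.p_id
  have hr1 := k08_r1 he he' ht
  have hr2 := k08_r2 he he' ht
  have hst := k08_st he he' ht
  have htg : ∀ j : ℕ, Primrec fun x : (Ce × Ce) × ℕ => tg x.1.1 x.1.2 x.2 j :=
    fun j => k08_tg he he' ht (Primrec.const j)
  have h1 : REPred fun x : (Ce × Ce) × ℕ => ¬ ValE (r1E x.1.1 x.1.2 x.2) :=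
    re_of_prim (PrimrecPred.comp (p := ValE) valE_p hr1).not
  have h2 : REPred fun x : (Ce × Ce) × ℕ => ¬ ValE (r2E x.1.1 x.1.2 x.2) :=
    re_of_prim (PrimrecPred.comp (p := ValE) valE_p hr2).not
  have h3 : REPred fun x : (Ce × Ce) × ℕ => ¬ RefE (r1E x.1.1 x.1.2 x.2) x.1.1
      (tg x.1.1 x.1.2 x.2 8, tg x.1.1 x.1.2 x.2 9) :=
    re_of_prim (PrimrecPred.comp
      (p := fun y : (Ce × Ce) × (ℕ × ℕ) => RefE y.1.1 y.1.2 y.2)
      (f := fun x : (Ce × Ce) × ℕ => (((r1E x.1.1 x.1.2 x.2, x.1.1),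
        (tg x.1.1 x.1.2 x.2 8, tg x.1.1 x.1.2 x.2 9)) : (Ce × Ce) × (ℕ × ℕ))) refE_p
      (CB.p_pair (CB.p_pair hr1 he) (CB.p_pair (htg 8) (htg 9)))).not
  have h4 : REPred fun x : (Ce × Ce) × ℕ => ¬ RefE (r2E x.1.1 x.1.2 x.2) x.1.2
      (tg x.1.1 x.1.2 x.2 15, tg x.1.1 x.1.2 x.2 16) :=
    re_of_prim (PrimrecPred.comp
      (p := fun y : (Ce × Ce) × (ℕ × ℕ) => RefE y.1.1 y.1.2 y.2)
      (f := fun x : (Ce × Ce) × ℕ => (((r2E x.1.1 x.1.2 x.2, x.1.2),
        (tg x.1.1 x.1.2 x.2 15, tg x.1.1 x.1.2 x.2 16)) : (Ce × Ce) × (ℕ × ℕ))) refE_p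
      (CB.p_pair (CB.p_pair hr2 he') (CB.p_pair (htg 15) (htg 16)))).not
  have h5 : REPred fun x : (Ce × Ce) × ℕ => ¬ SimE (r1E x.1.1 x.1.2 x.2)
      (r2E x.1.1 x.1.2 x.2) (stE x.1.1 x.1.2 x.2) :=
    re_of_prim (PrimrecPred.comp
      (p := fun y : (Ce × Ce) × Mt => SimE y.1.1 y.1.2 y.2)
      (f := fun x : (Ce × Ce) × ℕ => (((r1E x.1.1 x.1.2 x.2, r2E x.1.1 x.1.2 x.2),
        stE x.1.1 x.1.2 x.2) : (Ce × Ce) × Mt)) simE_p
      (CB.p_pair (CB.p_pair hr1 hr2) hst)).not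
  have h6 : REPred fun x : (Ce × Ce) × ℕ => ¬ Sol (sysE (r1E x.1.1 x.1.2 x.2)
      (r2E x.1.1 x.1.2 x.2) (stE x.1.1 x.1.2 x.2)) := by
    apply k08_re_sol
    exact Primrec.comp (f := fun y : (Ce × Ce) × Mt => sysE y.1.1 y.1.2 y.2)
      (g := fun x : (Ce × Ce) × ℕ => (((r1E x.1.1 x.1.2 x.2, r2E x.1.1 x.1.2 x.2),
        stE x.1.1 x.1.2 x.2) : (Ce × Ce) × Mt)) p_sysE
      (CB.p_pair (CB.p_pair hr1 hr2) hst)
  refine (re_or h1 (re_or h2 (re_or h3 (re_or h4 (re_or h5 h6))))).of_eq ?_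
  intro x
  simp only [GoodE, not_and_or]

end

theorem noGoodE_re : REPred fun x : Ce × Ce =>
    ∀ t < (TB x.1 x.2 + 1) ^ 21, ¬ GoodE x.1 x.2 t :=
  re_forall_lt (p := fun (x : Ce × Ce) (t : ℕ) => ¬ GoodE x.1 x.2 t)
    (f := fun x => (TB x.1 x.2 + 1) ^ 21)
    (CB.p_pow (CB.p_add p_TB (Primrec.const 1)) (Primrec.const 21)) k08_good

end RaagIso
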