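import Pool.Agent.Lib.MP_32d917_al_raag.K00

/-!
# K09: the linear system of a similarity

`c07E (bs c) t ep` (C07) is the system of the equations `lam` and `sum`. `sysE` has in addition the rows `rowE c c' t u i v`. As in `c07_rowS`, `c07_rowL` (C07): with `ε x` the values of the unknowns, `ε (ix (bs c) j w) = ep j w`: the sum over `x < eC c * eV c` of
`(∑ l ∈ range N, if x = ix (pt l) w then M else 0) * ε x` is `∑ l ∈ range N, M * ep (pt l) w` (exchange the sums; the points `pt l = itN (bs c) (beE c u i) w l` are `< eC c`: `c07_it_lt`, and `w = taE c u i v < eV c`: `CB.dg_lt`).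
-/

set_option autoImplicit false

namespace RaagIso

open LatIso AdmIso

/-- the equation of similarity -/
def EqE (c c' : Ce) (t : Mt) (ep : ℕ → ℕ → ℤ) (u i v : ℕ) : Prop :=
  ∑ l ∈ Finset.range (arg (MM (bs c)) (laE c u i v)),
      ((dN (bs c) t (itN (bs c) (beE c u i) (taE c u i v) l) (taE c u i v) : ℤ) +
        MM (bs c) * ep (itN (bs c) (beE c u i) (taE c u i v) l) (taE c u i v)) -
    (laE c u i v).2 * ∑ l ∈ Finset.range (MM (bs c)),
      ((dN (bs c) t (itN (bs c) (beE c u i) (taE c u i v) l) (taE c u i v) : ℤ) +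
        MM (bs c) * ep (itN (bs c) (beE c u i) (taE c u i v) l) (taE c u i v)) =
    iv (shE c' u i (tN (bs c) t i v) (dN (bs c) t i v)) +
      ep i v * iv (shE c' u i (tN (bs c) t i v) (MM (bs c)))

theorem k09_iv (x y : PI) : iv (psub x y) = iv x - iv y := by
  unfold iv psub
  push_cast
  ring

theorem k09_sum {c : Ce} (τ : ℕ → ℤ) (pt : ℕ → ℕ) {w : ℕ} (hpt : ∀ l, pt l < eC c)
    (hw : w < eV c) (n : ℕ) :
    ∑ x ∈ Finset.range (eC c * eV c), ((∑ l ∈ Finset.range n,
      (if x = ix (bs c) (pt l) w then MM (bs c) else 0) : ℕ) : ℤ) * τ x =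
      MM (bs c) * ∑ l ∈ Finset.range n, τ (ix (bs c) (pt l) w) := by
  rw [Finset.mul_sum]
  have h2 : ∀ l ∈ Finset.range n, (MM (bs c) : ℤ) * τ (ix (bs c) (pt l) w) =
      ∑ x ∈ Finset.range (eC c * eV c),
        (((if x = ix (bs c) (pt l) w then MM (bs c) else 0 : ℕ) : ℤ)) * τ x := by
    intro l _
    exact (c07_one (MM (bs c)) (c07_ix_lt (hpt l) hw) τ).symm
  rw [Finset.sum_congr rfl h2, Finset.sum_comm]
  refine Finset.sum_congr rfl (fun x _ => ?_)
  rw [Nat.cast_sum, Finset.sum_mul]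

theorem k09_sdN (c : Cd) (t : Mt) (i v n : ℕ) :
    ((sdN c t i v n : ℕ) : ℤ) = ∑ l ∈ Finset.range n, (dN c t (itN c i v l) v : ℤ) := by
  unfold sdN
  rw [Nat.cast_sum]

theorem k09_row (c c' : Ce) (t : Mt) (τ : ℕ → ℤ) {u i v : ℕ} (hi : i < eC c) (hv : v < eV c) :
    (∑ x ∈ Finset.range (eC c * eV c), iv ((rowE c c' t u i v).1.getD x (0, 0)) * τ x =
      iv (rowE c c' t u i v).2) ↔ EqE c c' t (fun j w => τ (ix (bs c) j w)) u i v := by
  unfold rowE EqE
  try dsimp only
  rw [c07_sum]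
  have hb : beE c u i < eC c := CB.dg_lt _ _ _
  have hw : taE c u i v < eV c := CB.dg_lt _ _ _
  have hpt : ∀ l, itN (bs c) (beE c u i) (taE c u i v) l < eC c :=
    fun l => c07_it_lt (c := bs c) hb _ l
  have h1 : ∑ x ∈ Finset.range (eC c * eV c),
      iv (psub (∑ l ∈ Finset.range (arg (MM (bs c)) (laE c u i v)),
        (if x = ix (bs c) (itN (bs c) (beE c u i) (taE c u i v) l) (taE c u i v)
          then MM (bs c) else 0),
      (laE c u i v).2 * ∑ l ∈ Finset.range (MM (bs c)),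
        (if x = ix (bs c) (itN (bs c) (beE c u i) (taE c u i v) l) (taE c u i v)
          then MM (bs c) else 0))
      (if x = ix (bs c) i v then shE c' u i (tN (bs c) t i v) (MM (bs c)) else (0, 0))) * τ x =
      MM (bs c) * (∑ l ∈ Finset.range (arg (MM (bs c)) (laE c u i v)),
        τ (ix (bs c) (itN (bs c) (beE c u i) (taE c u i v) l) (taE c u i v))) -
      (laE c u i v).2 * (MM (bs c) * ∑ l ∈ Finset.range (MM (bs c)),
        τ (ix (bs c) (itN (bs c) (beE c u i) (taE c u i v) l) (taE c u i v))) -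
      iv (shE c' u i (tN (bs c) t i v) (MM (bs c))) * τ (ix (bs c) i v) := by
    rw [← k09_sum τ _ hpt hw, ← k09_sum τ _ hpt hw, Finset.mul_sum]
    have h3 : iv (shE c' u i (tN (bs c) t i v) (MM (bs c))) * τ (ix (bs c) i v) =
        ∑ x ∈ Finset.range (eC c * eV c),
          iv (if x = ix (bs c) i v then shE c' u i (tN (bs c) t i v) (MM (bs c))
            else (0, 0)) * τ x := by
      rw [Finset.sum_eq_single (ix (bs c) i v)]
      · rw [if_pos rfl]
      · intro x _ hx
        rw [if_neg hx]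
        simp [iv]
      · intro h
        exact absurd (Finset.mem_range.2 (c07_ix_lt (c := bs c) hi hv)) h
    rw [h3, ← Finset.sum_sub_distrib, ← Finset.sum_sub_distrib]
    refine Finset.sum_congr rfl (fun x _ => ?_)
    rw [k09_iv]
    unfold iv
    try dsimp only
    push_cast
    ring
  rw [h1, k09_iv, Finset.sum_add_distrib, Finset.sum_add_distrib, ← k09_sdN, ← k09_sdN,
    ← Finset.mul_sum, ← Finset.mul_sum]
  have h4 : iv (sdN (bs c) t (beE c u i) (taE c u i v) (arg (MM (bs c)) (laE c u i v)),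
        (laE c u i v).2 * sdN (bs c) t (beE c u i) (taE c u i v) (MM (bs c))) =
      (sdN (bs c) t (beE c u i) (taE c u i v) (arg (MM (bs c)) (laE c u i v)) : ℤ) -
        (laE c u i v).2 * sdN (bs c) t (beE c u i) (taE c u i v) (MM (bs c)) := by
    unfold iv
    try dsimp only
    push_cast
    rfl
  rw [h4]
  constructor
  · intro h
    linear_combination h
  · intro h
    linear_combination h

theorem k09_congr {c c' : Ce} {t : Mt} {ep ep' : ℕ → ℕ → ℤ}
    (h : ∀ i, i < eC c → ∀ v < eV c, ep i v = ep' i v) {u i v : ℕ} (hi : i < eC c)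
    (hv : v < eV c) (h1 : EqE c c' t ep u i v) : EqE c c' t ep' u i v := by
  unfold EqE at h1 ⊢
  have hb : beE c u i < eC c := CB.dg_lt _ _ _
  have hw : taE c u i v < eV c := CB.dg_lt _ _ _
  have h2 : ∀ l, ep (itN (bs c) (beE c u i) (taE c u i v) l) (taE c u i v) =
      ep' (itN (bs c) (beE c u i) (taE c u i v) l) (taE c u i v) :=
    fun l => h _ (c07_it_lt (c := bs c) hb _ l) _ hw
  rw [← h i hi v hv]
  simp only [← h2]
  exact h1

theorem k09_sys (c c' : Ce) (t : Mt) (τ : ℕ → ℤ) :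
    (∀ r ∈ (sysE c c' t).2, ∑ x ∈ Finset.range (sysE c c' t).1,
      iv (r.1.getD x (0, 0)) * τ x = iv r.2) ↔ c07E (bs c) t (fun j w => τ (ix (bs c) j w)) ∧
      ∀ u < eD c, ∀ i < eC c, ∀ v < eV c, EqE c c' t (fun j w => τ (ix (bs c) j w)) u i v := by
  rw [← c07_sys]
  unfold sysE
  try dsimp only
  constructor
  · intro h
    constructor
    · intro r hr
      exact h r (List.mem_append_left _ hr)
    · intro u hu i hi v hv
      refine (k09_row c c' t τ hi hv).1 (h _ (List.mem_append_right _ ?_))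
      refine List.mem_flatMap.2 ⟨u, List.mem_range.2 hu, ?_⟩
      refine List.mem_flatMap.2 ⟨i, List.mem_range.2 hi, ?_⟩
      exact List.mem_map.2 ⟨v, List.mem_range.2 hv, rfl⟩
  · rintro ⟨h0, h⟩ r hr
    rcases List.mem_append.1 hr with hr | hr
    · exact h0 r hr
    · obtain ⟨u, hu, hr⟩ := List.mem_flatMap.1 hr
      obtain ⟨i, hi, hr⟩ := List.mem_flatMap.1 hr
      obtain ⟨v, hv, rfl⟩ := List.mem_map.1 hr
      rw [List.mem_range] at hu hi hv
      exact (k09_row c c' t τ hi hv).2 (h u hu i hi v hv)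

theorem sysE_iff (c c' : Ce) (t : Mt) : Sol (sysE c c' t) ↔ ∃ ep : ℕ → ℕ → ℤ,
    c07E (bs c) t ep ∧ ∀ u < eD c, ∀ i < eC c, ∀ v < eV c, EqE c c' t ep u i v := by
  constructor
  · rintro ⟨τ, hτ⟩
    exact ⟨fun j w => τ (ix (bs c) j w), (k09_sys c c' t τ).1 hτ⟩
  · rintro ⟨ep, h1, h2⟩
    have h3 : ∀ i, i < eC c → ∀ v < eV c, ep i v =
        (fun x => ep (x / eV c) (x % eV c)) (ix (bs c) i v) := by
      intro i hi v hv
      try dsimp only
      rw [show ix (bs c) i v / eV c = i from c07_div (c := bs c) hv,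
        show ix (bs c) i v % eV c = v from c07_mod (c := bs c) hv]
    refine ⟨fun x => ep (x / eV c) (x % eV c), (k09_sys c c' t _).2 ⟨?_, ?_⟩⟩
    · exact c07E_congr (c := bs c) h3 h1
    · intro u hu i hi v hv
      exact k09_congr h3 hi hv (h2 u hu i hi v hv)

end RaagIso
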