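import Pool.Agent.Lib.MP_32d917_al_raag.K09

/-!
# K10: similarities and their coded form

`sim_sound`: `sysE_iff` gives `ep`. `F = Equiv.refl`, `τ i` is the bijection `v ↦ tN _ t i v` (injective by `MatN`; `k' = k` from `SimE`), `la i v = dN _ t i v + MM * ep i v`. `Dt`: by `c07_nm` and `dt_of_nm` exactly as at the end of `dt_of_good` (C07) (the `IsRho` hypotheses: `hX.mv`; `X.Γ = gr (bs c)`: `rcases X`,
`subst`). `Sim.eqv`, `Sim.tau`: `IsC`. `Sim.lam`: left side: `X.la u q v = iv (laE c u.n q v)` and for a displacement function with `σ ^ M = 1`: `sh (iv n) = sh (arg M n) - n.2 * sh M` (`k0_M`, see `sh_shZ`), with `sh_nat` and `k0_it` the sums of `EqE`. Right side: `sh' (de + M * ep) = sh' de + ep * sh' M` (`k0_M`), `sh_shE`.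

`sim_complete`: `nm_of_dt` with `M = MM` gives `de`, `ep`, `sn`, `la = de + M * ep`; digits as in the proof of `good_of_dt` (C07), `F` the identity; `MatN` and `c07E` by `c07_good`; `EqE` from `Sim.lam` by the same computation. `k = k'`: `τ 0` is a bijection.
-/

set_option autoImplicit false

namespace RaagIso

open LatIso AdmIso

/-- sums of the exponents of a matching -/
theorem k10_sh {b : Cd} {ρ : RA (gr b) →* Equiv.Perm (Fin (cM b))} (hρ : IsRho b ρ) {t : Mt}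
    {eo : ℕ → ℕ → ℤ} {la : Fin (cM b) → Fin (cK b) → ℤ}
    (hla : ∀ i v, la i v = (dN b t i v : ℤ) + MM b * eo i v) (j : Fin (cM b)) (w : Fin (cK b))
    (N : ℕ) : sh (pv ρ w) (fun d => la d w) j (N : ℤ) =
      ∑ l ∈ Finset.range N, ((dN b t (itN b j w l) w : ℤ) + MM b * eo (itN b j w l) w) := by
  rw [b05_sh]
  refine Finset.sum_congr rfl (fun l _ => ?_)
  rw [hla, it_eq hρ]

theorem k10_arg {M : ℕ} (hM : 0 < M) (n : PI) : iv n = (arg M n : ℤ) + (-(n.2 : ℤ)) * M := by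
  unfold arg iv
  rw [Nat.cast_add, Nat.cast_mul, Nat.cast_sub hM]
  push_cast
  ring

theorem k10_lhs {b : Cd} {ρ : RA (gr b) →* Equiv.Perm (Fin (cM b))} (hρ : IsRho b ρ) {t : Mt}
    {eo : ℕ → ℕ → ℤ} {la : Fin (cM b) → Fin (cK b) → ℤ}
    (hla : ∀ i v, la i v = (dN b t i v : ℤ) + MM b * eo i v) (j : Fin (cM b)) (w : Fin (cK b))
    (n : PI) : sh (pv ρ w) (fun d => la d w) j (iv n) =
      ∑ l ∈ Finset.range (arg (MM b) n), ((dN b t (itN b j w l) w : ℤ) +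
        MM b * eo (itN b j w l) w) -
      n.2 * ∑ l ∈ Finset.range (MM b), ((dN b t (itN b j w l) w : ℤ) +
        MM b * eo (itN b j w l) w) := by
  have h0 : pv ρ w ^ MM b = 1 := k0_pv ρ w
  rw [k10_arg (c07_MM_pos b) n, k0_M h0, k10_sh hρ hla, k10_sh hρ hla]
  ring

theorem k10_rhs {c : Ce} [Group (GF c.1.2.2)] {X : Cod (Fin (eV c)) (Fin (eC c)) (GF c.1.2.2)}
    (hX : IsC c X) (u : GF c.1.2.2) (i : Fin (eC c)) (v : Fin (eV c)) (a : ℕ) (e : ℤ) :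
    sh (pv X.ρ v) (fun d => X.la u d v) i ((a : ℤ) + MM (bs c) * e) =
      iv (shE c u.n i v a) + e * iv (shE c u.n i v (MM (bs c))) := by
  rw [mul_comm (MM (bs c) : ℤ) e]
  have h0 : pv X.ρ v ^ (MM (bs c)) = 1 := k0_pv X.ρ v
  rw [k0_M h0, sh_shE hX, sh_shE hX]

section

variable {k k' r d : ℕ} {A A' : (ℕ × List PI) × ℕ × ℕ × ℕ × ℕ × ℕ × ℕ} [Group (GF d)]
  {X : Cod (Fin (k + 1)) (Fin (r + 1)) (GF d)} {X' : Cod (Fin (k' + 1)) (Fin (r + 1)) (GF d)}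

theorem k10_n {d : ℕ} (u : GF d) : u.n < d + 1 := Fin.is_lt (n := d + 1) u

theorem k10_surj {d : ℕ} {u : ℕ} (hu : u < d + 1) : ∃ w : GF d, w.n = u := ⟨(⟨u, hu⟩ : Fin (d + 1)), rfl⟩

theorem sim_sound (hX : IsC ((k, r, d), A) X) (hX' : IsC ((k', r, d), A') X') {t : Mt}
    (hs : SimE ((k, r, d), A) ((k', r, d), A') t)
    (hl : Sol (sysE ((k, r, d), A) ((k', r, d), A') t)) :
    ∃ (τ : Fin (r + 1) → Fin (k + 1) ≃ Fin (k' + 1)) (la : Fin (r + 1) → Fin (k + 1) → ℤ),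
      Sim X X' (Equiv.refl _) (MulEquiv.refl _) τ la := by
  classical
  obtain ⟨e1, -, hm, hFi, hbe, hta⟩ := hs
  have hk : k' = k := congrArg Prod.fst e1
  subst hk
  obtain ⟨eo, heo, heq⟩ := (sysE_iff _ _ t).1 hl
  obtain ⟨Γ, ρ, β, τX, lX⟩ := X
  obtain ⟨Γ', ρ', β', τX', lX'⟩ := X'
  have g1 : Γ = gr (bs ((k', r, d), A)) := hX.gr
  have g2 : Γ' = gr (bs ((k', r, d), A')) := hX'.gr
  subst g1
  subst g2
  have hρ : IsRho (bs ((k', r, d), A)) ρ := hX.mv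
  have hρ' : IsRho (bs ((k', r, d), A')) ρ' := hX'.mv
  have hτ0 : ∀ i : Fin (r + 1), Function.Injective (fun v : Fin (k' + 1) =>
      (⟨tN (bs ((k', r, d), A)) t i v, CB.dg_lt _ _ _⟩ : Fin (k' + 1))) := by
    intro i v w hvw
    apply Fin.ext
    exact hm.2.2.1 i i.2 v v.2 w w.2 (congrArg Fin.val hvw)
  have hτ1 : ∀ i : Fin (r + 1), Function.Bijective (fun v : Fin (k' + 1) =>
      (⟨tN (bs ((k', r, d), A)) t i v, CB.dg_lt _ _ _⟩ : Fin (k' + 1))) :=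
    fun i => Finite.injective_iff_bijective.1 (hτ0 i)
  have hN := c07_nm (ρ := ρ) (ρ' := ρ') (F := Equiv.refl (Fin (r + 1)))
    (τ := fun i => Equiv.ofBijective _ (hτ1 i)) (de := fun i v => dN (bs ((k', r, d), A)) t i v)
    (ep := fun i v => eo i v) (sn := fun i v => decide (sN (bs ((k', r, d), A)) t i v = 1)) hρ hρ'
    (fun i => hFi i i.2) (fun i v => rfl) (fun i v => rfl) (fun i v => by simp) (fun i v => rfl)
    hm heo
  have hD := dt_of_nm (c07_MM_pos (bs ((k', r, d), A))) (fun v => rho_pow ρ (gen v))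
    (fun v => rho_pow ρ' (gen v)) hN
  refine ⟨fun i => Equiv.ofBijective _ (hτ1 i), _, hD, ?_, ?_, ?_⟩
  · intro u q
    apply Fin.ext
    exact (hX.be u q).trans ((hbe u.n (k10_n u) q q.2).trans (hX'.be u q).symm)
  · intro u q v
    apply Fin.ext
    have h1 := hta u.n (k10_n u) q q.2 v v.2
    rw [← hX.be, ← hX.ta] at h1
    refine Eq.trans h1 ?_
    exact (hX'.ta u q (Equiv.ofBijective _ (hτ1 q) v)).symm
  · intro u q v
    have h1 := heq u.n (k10_n u) q q.2 v v.2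
    unfold EqE at h1
    rw [← hX.be, ← hX.ta] at h1
    have h2 := k10_lhs (b := bs ((k', r, d), A)) (eo := eo) (t := t)
      (la := fun i v => (dN (bs ((k', r, d), A)) t i v : ℤ) +
        MM (bs ((k', r, d), A)) * eo i v) hρ (fun _ _ => rfl) (β u q) (τX u q v)
      (laE ((k', r, d), A) u.n q v)
    have h3 := k10_rhs hX' u q (Equiv.ofBijective _ (hτ1 q) v)
      (dN (bs ((k', r, d), A)) t q v) (eo q v)
    have h4 := hX.la u q v
    show sh (pv ρ (τX u q v)) _ (β u q) (lX u q v) = _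
    rw [show lX u q v = iv (laE ((k', r, d), A) u.n q v) from h4]
    exact h2.trans (h1.trans h3.symm)

theorem sim_complete (hX : IsC ((k, r, d), A) X) (hX' : IsC ((k', r, d), A') X')
    (hg : A'.2.2.2.1 = A.2.2.2.1)
    {τ : Fin (r + 1) → Fin (k + 1) ≃ Fin (k' + 1)} {la : Fin (r + 1) → Fin (k + 1) → ℤ}
    (hs : Sim X X' (Equiv.refl _) (MulEquiv.refl _) τ la) :
    ∃ t : Mt, SimE ((k, r, d), A) ((k', r, d), A') t ∧
      Sol (sysE ((k, r, d), A) ((k', r, d), A') t) ∧ t.1 < (r + 1) ^ (r + 1) ∧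
      t.2.1 < (k + 1) ^ ((r + 1) * (k + 1)) ∧
      t.2.2.1 < (r + 1).factorial ^ ((r + 1) * (k + 1)) ∧ t.2.2.2 < 2 ^ ((r + 1) * (k + 1)) := by
  classical
  have hk : k' = k := by
    have h1 := Fintype.card_congr (τ ⟨0, Nat.succ_pos _⟩)
    rw [Fintype.card_fin, Fintype.card_fin] at h1
    omega
  subst hk
  obtain ⟨Γ, ρ, β, τX, lX⟩ := X
  obtain ⟨Γ', ρ', β', τX', lX'⟩ := X'
  have g1 : Γ = gr (bs ((k', r, d), A)) := hX.gr
  have g2 : Γ' = gr (bs ((k', r, d), A')) := hX'.gr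
  subst g1
  subst g2
  have hρ : IsRho (bs ((k', r, d), A)) ρ := hX.mv
  have hρ' : IsRho (bs ((k', r, d), A')) ρ' := hX'.mv
  have hM := c07_MM_pos (bs ((k', r, d), A))
  obtain ⟨de, ep, sn, hN, hde, hla⟩ := nm_of_dt hM (fun v => rho_pow ρ (gen v))
    (fun v => rho_pow ρ' (gen v)) hs.dt
  obtain ⟨w1, hw1, h1⟩ := CB.exists_dg r (fun x => if x < r + 1 then x else 0) (by
      intro x
      try dsimp only
      split_ifs with hx
      · exact hx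
      · exact Nat.succ_pos _) (r + 1)
  obtain ⟨w2, hw2, h2⟩ := c07_tab k' k' r (fun i v => (τ i v : ℕ)) (fun i v => (τ i v).2)
  obtain ⟨w3, hw3, h3⟩ := c07_tab (MM (bs ((k', r, d), A)) - 1) k' r de (by
    intro i v
    have := hde i v
    omega)
  obtain ⟨w4, hw4, h4⟩ := c07_tab 1 k' r (fun i v => if sn i v = true then 1 else 0) (by
    intro i v
    try dsimp only
    split_ifs <;> omega)
  obtain ⟨eo, heo⟩ : ∃ eo : ℕ → ℕ → ℤ, ∀ (i : Fin (r + 1)) (v : Fin (k' + 1)), eo i v = ep i v :=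
    ⟨fun i v => if hi : i < r + 1 then (if hv : v < k' + 1 then ep ⟨i, hi⟩ ⟨v, hv⟩ else 0) else 0,
    (fun i v => by
      try dsimp only
      rw [dif_pos i.2, dif_pos v.2])⟩
  have hFN : ∀ i : Fin (r + 1), FN (bs ((k', r, d), A)) (w1, w2, w3, w4) i = i := by
    intro i
    show CB.dg r w1 i = _
    rw [h1 i i.2]
    try dsimp only
    rw [if_pos i.2]
  have h5 := c07_good (c := bs ((k', r, d), A)) (c' := bs ((k', r, d), A'))
    (F := Equiv.refl (Fin (r + 1))) (t := (w1, w2, w3, w4)) (eq := eo) hρ hρ' rfl hFN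
    (fun i v => h2 i v)
    (fun i v => h3 i v)
    (fun i v => by
      show CB.dg 1 w4 _ = 1 ↔ _
      rw [h4 i v]
      try dsimp only
      by_cases h6 : sn i v = true
      · simp [h6]
      · simp [h6])
    heo hN
  have hla' : ∀ (i : Fin (r + 1)) (v : Fin (k' + 1)), la i v =
      (dN (bs ((k', r, d), A)) (w1, w2, w3, w4) i v : ℤ) + MM (bs ((k', r, d), A)) * eo i v := by
    intro i v
    rw [hla, heo]
    have h7 : dN (bs ((k', r, d), A)) (w1, w2, w3, w4) i v = de i v := h3 i v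
    rw [h7]
  refine ⟨(w1, w2, w3, w4), ⟨rfl, hg, h5.1, ?_, ?_, ?_⟩, (sysE_iff _ _ _).2 ⟨eo, h5.2, ?_⟩,
    hw1, hw2, ?_, hw4⟩
  · intro i hi
    exact hFN ⟨i, hi⟩
  · intro u hu i hi
    obtain ⟨u, rfl⟩ := k10_surj hu
    have h6 := congrArg Fin.val (hs.eqv u ⟨i, hi⟩)
    exact (hX.be u ⟨i, hi⟩).symm.trans (h6.trans (hX'.be u ⟨i, hi⟩))
  · intro u hu i hi v hv
    obtain ⟨u, rfl⟩ := k10_surj hu
    have h6 := congrArg Fin.val (hs.tau u ⟨i, hi⟩ ⟨v, hv⟩)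
    have h7 := hX.be u ⟨i, hi⟩
    have h8 := hX.ta u ⟨i, hi⟩ ⟨v, hv⟩
    have h9 := hX'.ta u ⟨i, hi⟩ (τ ⟨i, hi⟩ ⟨v, hv⟩)
    have t1 : ∀ (i : Fin (r + 1)) (v : Fin (k' + 1)),
      tN (bs ((k', r, d), A)) (w1, w2, w3, w4) i v = (τ i v : ℕ) := fun i v => h2 i v
    have t2 := t1 (β u ⟨i, hi⟩) (τX u ⟨i, hi⟩ ⟨v, hv⟩)
    have t3 := t1 ⟨i, hi⟩ ⟨v, hv⟩
    rw [show ((β u ⟨i, hi⟩ : Fin (r + 1)) : ℕ) = beE ((k', r, d), A) u.n i from h7,
      show ((τX u ⟨i, hi⟩ ⟨v, hv⟩ : Fin (k' + 1)) : ℕ) = taE ((k', r, d), A) u.n i v from h8] at t2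
    dsimp only at t3
    rw [t2, t3]
    exact h6.trans h9
  · intro u hu i hi v hv
    obtain ⟨u, rfl⟩ := k10_surj hu
    have h6 := hs.lam u ⟨i, hi⟩ ⟨v, hv⟩
    have g2 := k10_lhs (b := bs ((k', r, d), A)) (eo := eo) (t := (w1, w2, w3, w4))
      (la := la) hρ hla' (β u ⟨i, hi⟩) (τX u ⟨i, hi⟩ ⟨v, hv⟩)
      (laE ((k', r, d), A) u.n i v)
    have g3 := k10_rhs hX' u ⟨i, hi⟩ (τ ⟨i, hi⟩ ⟨v, hv⟩)
      (dN (bs ((k', r, d), A)) (w1, w2, w3, w4) i v) (eo i v)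
    have t3 : tN (bs ((k', r, d), A)) (w1, w2, w3, w4) i v = (τ ⟨i, hi⟩ ⟨v, hv⟩ : ℕ) :=
      h2 ⟨i, hi⟩ ⟨v, hv⟩
    have h7 : ((β u ⟨i, hi⟩ : Fin (r + 1)) : ℕ) = beE ((k', r, d), A) u.n i := hX.be u ⟨i, hi⟩
    have h8 : ((τX u ⟨i, hi⟩ ⟨v, hv⟩ : Fin (k' + 1)) : ℕ) = taE ((k', r, d), A) u.n i v :=
      hX.ta u ⟨i, hi⟩ ⟨v, hv⟩
    have h9 : lX u ⟨i, hi⟩ ⟨v, hv⟩ = iv (laE ((k', r, d), A) u.n i v) := hX.la u ⟨i, hi⟩ ⟨v, hv⟩
    have h10 : la ⟨i, hi⟩ ⟨v, hv⟩ = (dN (bs ((k', r, d), A)) (w1, w2, w3, w4) i v : ℤ) +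
      MM (bs ((k', r, d), A)) * eo i v := hla' ⟨i, hi⟩ ⟨v, hv⟩
    unfold EqE
    rw [← h7, ← h8, t3]
    refine g2.symm.trans (Eq.trans ?_ g3)
    have h11 : sh (pv ρ (τX u ⟨i, hi⟩ ⟨v, hv⟩)) (fun d => la d (τX u ⟨i, hi⟩ ⟨v, hv⟩))
      (β u ⟨i, hi⟩) (lX u ⟨i, hi⟩ ⟨v, hv⟩) = sh (pv ρ' (τ ⟨i, hi⟩ ⟨v, hv⟩))
      (fun d => lX' u d (τ ⟨i, hi⟩ ⟨v, hv⟩)) ⟨i, hi⟩ (la ⟨i, hi⟩ ⟨v, hv⟩) := h6
    rw [h9, h10] at h11
    exact h11
  · have h6 : MM (bs ((k', r, d), A)) - 1 + 1 = (r + 1).factorial := by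
      have h7 : MM (bs ((k', r, d), A)) = (r + 1).factorial := rfl
      omega
    rw [h6] at hw3
    exact hw3

end

end RaagIso
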