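import Pool.Agent.Lib.MP_32d917_al_raag.K05

/-!
# K11: refinements and their coded form

`ref_sound`: `a i = ⟨CB.dg m z.1 i, _⟩`, `π u = ⟨CB.dg d z.2 u.n, _⟩` (multiplicative by `RefE`; a multiplicative map of groups: `MonoidHom.mk'`). `Ref.gr`: both graphs are `gr (bs _)`, with the same `k` and the same adjacency number. The element with number `0` is the unit (`hz`, `hz1`).
`ref_complete`: `z` from `CB.exists_dg` / `CB.exists_dig`; tables of `X1` by `isC_table` (K05) with the adjacency number `a` and the palette `L` of `c` (`c.2.1`) and the indices `li u i v = ` index digit of `c` at `(π u, a i, v)`, so that `laE c1 u i v = laE c (π u) (a i) v` holds as equality of coded integers.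
-/

set_option autoImplicit false

namespace RaagIso

open LatIso AdmIso

section

variable {k m r d d1 : ℕ} {A A1 : (ℕ × List PI) × ℕ × ℕ × ℕ × ℕ × ℕ × ℕ} [Group (GF d)]
  [Group (GF d1)] {X : Cod (Fin (k + 1)) (Fin (m + 1)) (GF d)}
  {X1 : Cod (Fin (k + 1)) (Fin (r + 1)) (GF d1)}

theorem k11_ext {d : ℕ} {u u' : GF d} (h : u.n = u'.n) : u = u' := Fin.ext h

theorem k11_lt {d : ℕ} (u : GF d) : u.n < d + 1 := Fin.is_lt u

/-- the element with the number `n` -/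
def k11_mk (d n : ℕ) (h : n < d + 1) : GF d := (⟨n, h⟩ : Fin (d + 1))

theorem k11_mk_n (d n : ℕ) (h : n < d + 1) : (k11_mk d n h).n = n := rfl

theorem k11_gr (h : A1.1 = A.1) : gr (bs ((k, r, d1), A1)) = gr (bs ((k, m, d), A)) := by
  obtain ⟨A10, A11⟩ := A1
  obtain ⟨A0, A01⟩ := A
  obtain rfl : A10 = A0 := h
  rfl

theorem ref_sound (hX : IsC ((k, m, d), A) X) (hX1 : IsC ((k, r, d1), A1) X1)
    (h0 : (1 : GF d).n = 0) (h01 : (1 : GF d1).n = 0) {z : ℕ × ℕ}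
    (hr : RefE ((k, r, d1), A1) ((k, m, d), A) z) :
    ∃ (a : Fin (r + 1) → Fin (m + 1)) (π : GF d1 →* GF d), Ref X1 X a π := by
  obtain ⟨-, hA, hmv, heq, hmul, htl, hsur, htr, hfree⟩ := hr
  have hmv' : ∀ i < r + 1, ∀ v < k + 1, CB.dg m z.1 (rmN (bs ((k, r, d1), A1)) i v) =
    rmN (bs ((k, m, d), A)) (CB.dg m z.1 i) v := hmv
  have heq' : ∀ u < d1 + 1, ∀ i < r + 1, CB.dg m z.1 (beE ((k, r, d1), A1) u i) =
    beE ((k, m, d), A) (CB.dg d z.2 u) (CB.dg m z.1 i) := heq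
  have hmul' : ∀ u < d1 + 1, ∀ u' < d1 + 1, CB.dg d z.2 (muE ((k, r, d1), A1) u u') =
    muE ((k, m, d), A) (CB.dg d z.2 u) (CB.dg d z.2 u') := hmul
  have htl' : ∀ u < d1 + 1, ∀ i < r + 1, ∀ v < k + 1,
    taE ((k, r, d1), A1) u i v = taE ((k, m, d), A) (CB.dg d z.2 u) (CB.dg m z.1 i) v ∧
    laE ((k, r, d1), A1) u i v = laE ((k, m, d), A) (CB.dg d z.2 u) (CB.dg m z.1 i) v := htl
  have hsur' : ∀ u < d + 1, ∃ u' < d1 + 1, CB.dg d z.2 u' = u := hsur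
  have htr' : ∀ i < r + 1, ∀ j < r + 1, CB.dg m z.1 i = CB.dg m z.1 j →
    ∃ u < d1 + 1, CB.dg d z.2 u = 0 ∧ beE ((k, r, d1), A1) u i = j := htr
  have hfree' : ∀ u < d1 + 1, ∀ i < r + 1, CB.dg d z.2 u = 0 →
    beE ((k, r, d1), A1) u i = i → u = 0 := hfree
  refine ⟨fun i => ⟨CB.dg m z.1 i, CB.dg_lt _ _ _⟩,
    MonoidHom.mk' (fun u => k11_mk d (CB.dg d z.2 u.n) (CB.dg_lt _ _ _)) ?_, ?_⟩
  · intro u u'
    apply k11_ext
    rw [k11_mk_n]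
    have h1 : (u * u').n = muE ((k, r, d1), A1) u.n u'.n := hX1.mul u u'
    have h2 := hX.mul (k11_mk d (CB.dg d z.2 u.n) (CB.dg_lt _ _ _))
      (k11_mk d (CB.dg d z.2 u'.n) (CB.dg_lt _ _ _))
    rw [h1, hmul' _ (k11_lt u) _ (k11_lt u')]
    exact h2.symm
  · have hgr : X1.Γ = X.Γ := by
      rw [show X1.Γ = gr (bs ((k, r, d1), A1)) from hX1.gr,
        show X.Γ = gr (bs ((k, m, d), A)) from hX.gr]
      exact k11_gr hA
    have hun : ∀ (u : GF d1) (u' : GF d), k11_mk d (CB.dg d z.2 u.n) (CB.dg_lt _ _ _) = u' ↔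
        CB.dg d z.2 u.n = u'.n := by
      intro u u'
      constructor
      · intro h; rw [← h]; rfl
      · intro h; exact k11_ext h
    constructor
    · exact hgr
    · intro i v
      apply Fin.ext
      have h1 := hX1.mv i v
      have h2 := hX.mv ⟨CB.dg m z.1 i, CB.dg_lt _ _ _⟩ v
      refine Eq.trans ?_ h2.symm
      show CB.dg m z.1 ((rm X1.ρ i (gen v) : Fin (r + 1)) : ℕ) = _
      rw [show ((rm X1.ρ i (gen v) : Fin (r + 1)) : ℕ) = rmN (bs ((k, r, d1), A1)) i v from h1]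
      exact hmv' i i.2 v v.2
    · intro u i
      apply Fin.ext
      have h1 := hX1.be u i
      have h2 := hX.be (k11_mk d (CB.dg d z.2 u.n) (CB.dg_lt _ _ _))
        ⟨CB.dg m z.1 i, CB.dg_lt _ _ _⟩
      refine Eq.trans ?_ h2.symm
      show CB.dg m z.1 ((X1.β u i : Fin (r + 1)) : ℕ) = _
      rw [show ((X1.β u i : Fin (r + 1)) : ℕ) = beE ((k, r, d1), A1) u.n i from h1]
      exact heq' _ (k11_lt u) i i.2
    · intro u i v
      apply Fin.ext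
      have h1 := hX1.ta u i v
      have h2 := hX.ta (k11_mk d (CB.dg d z.2 u.n) (CB.dg_lt _ _ _))
        ⟨CB.dg m z.1 i, CB.dg_lt _ _ _⟩ v
      refine Eq.trans h1 (Eq.trans ?_ h2.symm)
      exact (htl' _ (k11_lt u) i i.2 v v.2).1
    · intro u i v
      have h1 := hX1.la u i v
      have h2 := hX.la (k11_mk d (CB.dg d z.2 u.n) (CB.dg_lt _ _ _))
        ⟨CB.dg m z.1 i, CB.dg_lt _ _ _⟩ v
      refine Eq.trans h1 (Eq.trans ?_ h2.symm)
      exact congrArg iv (htl' _ (k11_lt u) i i.2 v v.2).2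
    · intro u
      obtain ⟨u', hu', h⟩ := hsur' u.n (k11_lt u)
      refine ⟨k11_mk d1 u' hu', ?_⟩
      exact (hun _ _).2 h
    · intro i j hij
      have h1 : CB.dg m z.1 i = CB.dg m z.1 j := congrArg Fin.val hij
      obtain ⟨u, hu, h2, h3⟩ := htr' i i.2 j j.2 h1
      refine ⟨k11_mk d1 u hu, (hun _ _).2 (by rw [h0]; exact h2), ?_⟩
      apply Fin.ext
      exact (hX1.be (k11_mk d1 u hu) i).trans h3
    · intro u i h1 h2
      have h3 : CB.dg d z.2 u.n = 0 := by rw [← h0]; exact (hun _ _).1 h1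
      have h4 : beE ((k, r, d1), A1) u.n i = i := by
        rw [← show ((X1.β u i : Fin (r + 1)) : ℕ) = beE ((k, r, d1), A1) u.n i from hX1.be u i, h2]
      apply k11_ext
      rw [h01]
      exact hfree' _ (k11_lt u) i i.2 h3 h4

theorem ref_complete (hX : IsC ((k, m, d), A) X) (h0 : (1 : GF d).n = 0)
    (h01 : (1 : GF d1).n = 0) {a : Fin (r + 1) → Fin (m + 1)} {π : GF d1 →* GF d}
    (hr : Ref X1 X a π) (g : ℕ)
    (hg : ∀ u u' : GF d1, (u * u').n = CB.dg d1 g (u.n * (d1 + 1) + u'.n)) :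
    ∃ (p q b t l : ℕ) (z : ℕ × ℕ), IsC ((k, r, d1), A.1, p, q, g, b, t, l) X1 ∧
      RefE ((k, r, d1), A.1, p, q, g, b, t, l) ((k, m, d), A) z ∧
      (∀ (i : Fin (r + 1)) (v : Fin (k + 1)), ((rm X1.ρ i (gen v)⁻¹ : Fin (r + 1)) : ℕ) =
        riN (bs ((k, r, d1), A.1, p, q, g, b, t, l)) i v) ∧
      p < (r + 1) ^ ((r + 1) * (k + 1)) ∧ q < (r + 1) ^ ((r + 1) * (k + 1)) ∧
      b < (r + 1) ^ ((d1 + 1) * (r + 1)) ∧
      t < (k + 1) ^ ((d1 + 1) * (r + 1) * (k + 1)) ∧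
      l < (A.1.2.length + 1) ^ ((d1 + 1) * (r + 1) * (k + 1)) ∧
      z.1 < (m + 1) ^ (r + 1) ∧ z.2 < (d + 1) ^ (d1 + 1) := by
  have ha : ∀ v w : Fin (k + 1), X1.Γ.Adj v w ↔ (¬ (v : ℕ) = w ∧
      (CB.dg 1 A.1.1 (v * (k + 1) + w) = 1 ∨ CB.dg 1 A.1.1 (w * (k + 1) + v) = 1)) := by
    intro v w
    rw [hr.gr, show X.Γ = gr (bs ((k, m, d), A)) from hX.gr]
    exact Iff.rfl
  obtain ⟨p, hp, q, hq, b, hb, t, ht, l, hl, hC, hri, hla⟩ := isC_table X1 A.1.1 ha A.1.2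
    (fun u i v => CB.dg A.1.2.length A.2.2.2.2.2.2
      (((π u).n * (m + 1) + (a i : ℕ)) * (k + 1) + v))
    (fun u i v => Nat.lt_succ_iff.1 (CB.dg_lt _ _ _))
    (fun u i v => by
      rw [hr.lam]
      exact hX.la (π u) (a i) v) g hg
  obtain ⟨z1, hz1, hz1'⟩ := CB.exists_dig m r a
  obtain ⟨z2, hz2, hz2'⟩ := CB.exists_dig d d1 (fun u : Fin (d1 + 1) => (π (u : GF d1) : GF d))
  have hz1n : ∀ i : Fin (r + 1), CB.dg m z1 i = a i := by
    intro i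
    rw [← CB.dig_val, hz1']
  have hz2n : ∀ u : GF d1, CB.dg d z2 u.n = (π u).n := by
    intro u
    have h1 := hz2' u
    exact congrArg Fin.val h1
  have hz1m : ∀ (i : ℕ) (hi : i < r + 1), CB.dg m z1 i = a ⟨i, hi⟩ := fun i hi => hz1n ⟨i, hi⟩
  have hz2m : ∀ (u : ℕ) (hu : u < d1 + 1), CB.dg d z2 u = (π (k11_mk d1 u hu)).n :=
    fun u hu => hz2n (k11_mk d1 u hu)
  refine ⟨p, q, b, t, l, (z1, z2), hC, ?_, hri, hp, hq, hb, ht, hl, hz1, hz2⟩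
  refine ⟨rfl, rfl, ?_, ?_, ?_, ?_, ?_, ?_, ?_⟩
  · intro i hi v hv
    have h1 := hC.mv ⟨i, hi⟩ ⟨v, hv⟩
    have h2 := hX.mv (a ⟨i, hi⟩) ⟨v, hv⟩
    have h3 := hr.mv ⟨i, hi⟩ ⟨v, hv⟩
    have h4 := hz1n (rm X1.ρ ⟨i, hi⟩ (gen ⟨v, hv⟩))
    show CB.dg m z1 (rmN (bs ((k, r, d1), (A.1.1, A.1.2), p, q, g, b, t, l)) i v) =
      rmN (bs ((k, m, d), A)) (CB.dg m z1 i) v
    rw [hz1m i hi]
    rw [← show ((rm X1.ρ ⟨i, hi⟩ (gen ⟨v, hv⟩) : Fin (r + 1)) : ℕ) =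
      rmN (bs ((k, r, d1), (A.1.1, A.1.2), p, q, g, b, t, l)) i v from h1, h4, h3]
    exact h2
  · intro u hu i hi
    have h1 := hC.be (k11_mk d1 u hu) ⟨i, hi⟩
    have h2 := hX.be (π (k11_mk d1 u hu)) (a ⟨i, hi⟩)
    have h3 := hr.eqv (k11_mk d1 u hu) ⟨i, hi⟩
    have h4 := hz1n (X1.β (k11_mk d1 u hu) ⟨i, hi⟩)
    show CB.dg m z1 (beE ((k, r, d1), (A.1.1, A.1.2), p, q, g, b, t, l) u i) =
      beE ((k, m, d), A) (CB.dg d z2 u) (CB.dg m z1 i)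
    rw [hz1m i hi, hz2m u hu]
    rw [← show ((X1.β (k11_mk d1 u hu) ⟨i, hi⟩ : Fin (r + 1)) : ℕ) =
      beE ((k, r, d1), (A.1.1, A.1.2), p, q, g, b, t, l) u i from h1, h4, h3]
    exact h2
  · intro u hu u' hu'
    have h1 := hC.mul (k11_mk d1 u hu) (k11_mk d1 u' hu')
    have h2 := hX.mul (π (k11_mk d1 u hu)) (π (k11_mk d1 u' hu'))
    have h4 := hz2n (k11_mk d1 u hu * k11_mk d1 u' hu')
    show CB.dg d z2 (muE ((k, r, d1), (A.1.1, A.1.2), p, q, g, b, t, l) u u') =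
      muE ((k, m, d), A) (CB.dg d z2 u) (CB.dg d z2 u')
    rw [hz2m u hu, hz2m u' hu']
    rw [← show (k11_mk d1 u hu * k11_mk d1 u' hu').n =
      muE ((k, r, d1), (A.1.1, A.1.2), p, q, g, b, t, l) u u' from h1, h4, map_mul]
    exact h2
  · intro u hu i hi v hv
    have h1 := hC.ta (k11_mk d1 u hu) ⟨i, hi⟩ ⟨v, hv⟩
    have h2 := hX.ta (π (k11_mk d1 u hu)) (a ⟨i, hi⟩) ⟨v, hv⟩
    have h3 := hr.tau (k11_mk d1 u hu) ⟨i, hi⟩ ⟨v, hv⟩
    have h5 := hla (k11_mk d1 u hu) ⟨i, hi⟩ ⟨v, hv⟩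
    show taE ((k, r, d1), (A.1.1, A.1.2), p, q, g, b, t, l) u i v =
      taE ((k, m, d), A) (CB.dg d z2 u) (CB.dg m z1 i) v ∧
      laE ((k, r, d1), (A.1.1, A.1.2), p, q, g, b, t, l) u i v =
      laE ((k, m, d), A) (CB.dg d z2 u) (CB.dg m z1 i) v
    rw [hz1m i hi, hz2m u hu]
    constructor
    · rw [← show ((X1.τ (k11_mk d1 u hu) ⟨i, hi⟩ ⟨v, hv⟩ : Fin (k + 1)) : ℕ) =
        taE ((k, r, d1), (A.1.1, A.1.2), p, q, g, b, t, l) u i v from h1, h3]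
      exact h2
    · exact h5
  · intro u hu
    obtain ⟨u', hu'⟩ := hr.sur (k11_mk d u hu)
    refine ⟨u'.n, k11_lt u', ?_⟩
    show CB.dg d z2 u'.n = u
    rw [hz2n, hu']
    rfl
  · intro i hi j hj hij
    have h1 : CB.dg m z1 i = CB.dg m z1 j := hij
    rw [hz1m i hi, hz1m j hj] at h1
    obtain ⟨u, hu1, hu2⟩ := hr.tr _ _ (Fin.ext h1)
    refine ⟨u.n, k11_lt u, ?_, ?_⟩
    · show CB.dg d z2 u.n = 0
      rw [hz2n, hu1, h0]
    · have h2 := hC.be u ⟨i, hi⟩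
      rw [hu2] at h2
      exact h2.symm
  · intro u hu i hi h1 h2
    have h3 : CB.dg d z2 u = 0 := h1
    rw [hz2m u hu, ← h0] at h3
    have h4 := hC.be (k11_mk d1 u hu) ⟨i, hi⟩
    have h5 : X1.β (k11_mk d1 u hu) ⟨i, hi⟩ = ⟨i, hi⟩ := by
      apply Fin.ext
      exact h4.trans h2
    have h6 := hr.free (k11_mk d1 u hu) ⟨i, hi⟩ (k11_ext h3) h5
    have h7 : (k11_mk d1 u hu).n = (1 : GF d1).n := by rw [h6]
    rw [h01] at h7
    exact h7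

end

end RaagIso
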