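import Pool.Agent.Lib.MP_32d917_al_raag.K01
import Pool.Agent.Lib.MP_32d917_al_raag.K10
import Pool.Agent.Lib.MP_32d917_al_raag.K11
import Pool.Agent.Lib.MP_32d917_al_raag.GMain

/-!
# K12: good matchings give isomorphisms
-/

set_option autoImplicit false

namespace RaagIso

open LatIso AdmIso

/-- the type of the second component of a code -/
abbrev K12A : Type := (ℕ × List PI) × ℕ × ℕ × ℕ × ℕ × ℕ × ℕ

theorem k12_aux {k k' m m' d d' r d1 : ℕ} {A A' A1 A2 : K12A}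
    (h : ValE ((k, m, d), A)) (h' : ValE ((k', m', d'), A')) [Group (GF d)] [Group (GF d')]
    {X : Cod (Fin (k + 1)) (Fin (m + 1)) (GF d)} {X' : Cod (Fin (k' + 1)) (Fin (m' + 1)) (GF d')}
    (hX : IsC ((k, m, d), A) X) (hX' : IsC ((k', m', d'), A') X')
    (hv : X.Valid) (hv' : X'.Valid) (g1 : ValE ((k, r, d1), A1)) (g2 : ValE ((k', r, d1), A2))
    (g0 : A2.2.2.2.1 = A1.2.2.2.1) {z z' : ℕ × ℕ} {t : Mt}
    (g3 : RefE ((k, r, d1), A1) ((k, m, d), A) z)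
    (g4 : RefE ((k', r, d1), A2) ((k', m', d'), A') z')
    (g5 : SimE ((k, r, d1), A1) ((k', r, d1), A2) t)
    (g6 : Sol (sysE ((k, r, d1), A1) ((k', r, d1), A2) t)) (q : Fin (m + 1))
    (q' : Fin (m' + 1)) : Nonempty (GC X hv q ≃* GC X' hv' q') := by
  obtain ⟨I1, hI1⟩ := grp_exists ((k, r, d1), A1) g1.2.2.1
  change Group (GF d1) at I1
  obtain ⟨X1, hX1⟩ := isC_exists ((k, r, d1), A1) g1 hI1
  have hI2 : ∀ u u' : GF d1, (u * u').n = muE ((k', r, d1), A2) u.n u'.n := by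
    intro u u'
    rw [hI1 u u']
    show CB.dg d1 A1.2.2.2.1 _ = CB.dg d1 A2.2.2.2.1 _
    rw [g0]
  obtain ⟨X2, hX2⟩ := isC_exists ((k', r, d1), A2) g2 hI2
  have v1 : X1.Valid := isC_valid g1 hX1
  have v2 : X2.Valid := isC_valid g2 hX2
  have o : (1 : GF d).n = 0 := gf_one (c := ((k, m, d), A)) h.2.2.1 hX.mul
  have o' : (1 : GF d').n = 0 := gf_one (c := ((k', m', d'), A')) h'.2.2.1 hX'.mul
  have o1 : (1 : GF d1).n = 0 := gf_one (c := ((k, r, d1), A1)) g1.2.2.1 hI1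
  obtain ⟨a, π, hr⟩ := ref_sound hX hX1 o o1 g3
  obtain ⟨a', π', hr'⟩ := ref_sound hX' hX2 o' o1 g4
  obtain ⟨τ, la, hs⟩ := sim_sound hX1 hX2 g5 g6
  exact iso_of_match hv hv' v1 v2 hr hr' hs (0 : Fin (r + 1)) q q'

theorem good_sound {c c' : Ce} (h : ValE c) (h' : ValE c') [Group (GF c.1.2.2)]
    [Group (GF c'.1.2.2)] {X : Cod (Fin (eV c)) (Fin (eC c)) (GF c.1.2.2)}
    {X' : Cod (Fin (eV c')) (Fin (eC c')) (GF c'.1.2.2)} (hX : IsC c X) (hX' : IsC c' X')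
    (hv : X.Valid) (hv' : X'.Valid) {t : ℕ} (hg : GoodE c c' t) (q : Fin (eC c))
    (q' : Fin (eC c')) : Nonempty (GC X hv q ≃* GC X' hv' q') := by
  obtain ⟨g1, g2, g3, g4, g5, g6⟩ := hg
  exact k12_aux (A := c.2) (A' := c'.2) (A1 := (r1E c c' t).2) (A2 := (r2E c c' t).2) h h' hX hX'
    hv hv' g1 g2 rfl g3 g4 g5 g6 q q'

end RaagIso
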