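import Pool.Agent.Lib.MP_32d917_al_raag.K01
import Pool.Agent.Lib.MP_32d917_al_raag.K02
import Pool.Agent.Lib.MP_32d917_al_raag.K04
import Pool.Agent.Lib.MP_32d917_al_raag.K10
import Pool.Agent.Lib.MP_32d917_al_raag.K11
import Pool.Agent.Lib.MP_32d917_al_raag.GMain

/-!
# K13: isomorphisms give good matchings
-/

set_option autoImplicit false

namespace RaagIso

open LatIso AdmIso

/-! ### bounds -/

theorem k13_e1 {X a : ℕ} (h : a ≤ X) : a ≤ X ^ 3 :=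
  h.trans (Nat.le_self_pow (by norm_num) X)

theorem k13_e2 {X a b : ℕ} (ha : a ≤ X) (hb : b ≤ X) (hX : 1 ≤ X) : a * b ≤ X ^ 3 := by
  calc a * b ≤ X * X := Nat.mul_le_mul ha hb
    _ = X ^ 2 := by ring
    _ ≤ X ^ 3 := Nat.pow_le_pow_right hX (by norm_num)

theorem k13_e3 {X a b c : ℕ} (ha : a ≤ X) (hb : b ≤ X) (hc : c ≤ X) : a * b * c ≤ X ^ 3 := by
  calc a * b * c ≤ X * X * X := Nat.mul_le_mul (Nat.mul_le_mul ha hb) hc
    _ = X ^ 3 := by ring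

theorem k13_bound {c c' : Ce} {a n w : ℕ} (hw : w < a ^ n) (ha : a ≤ (XE c c').factorial)
    (hn : n ≤ XE c c' ^ 3) : w < TB c c' + 1 := by
  refine Nat.lt_succ_of_lt (lt_of_lt_of_le hw ?_)
  unfold TB
  calc a ^ n ≤ (XE c c').factorial ^ n := Nat.pow_le_pow_left ha n
    _ ≤ (XE c c').factorial ^ (XE c c' ^ 3) := Nat.pow_le_pow_right (Nat.factorial_pos _) hn

theorem k13_small {c c' : Ce} {a : ℕ} (h : a < XE c c') (hX : 1 ≤ XE c c') : a < TB c c' + 1 := by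
  refine k13_bound (c := c) (c' := c') (a := XE c c') (n := 1) (by rw [pow_one]; exact h)
    (Nat.self_le_factorial _) ?_
  exact Nat.one_le_pow _ _ hX

theorem k13_dvd {c c' : Ce} {a b : ℕ} (h : b ∣ XE c c') (hab : a ≤ b) : a ≤ XE c c' := by
  have h1 : 0 < XE c c' := by
    unfold XE
    positivity
  exact hab.trans (Nat.le_of_dvd h1 h)

theorem k13_core {k k' m m' d d' : ℕ} {A A' : (ℕ × List PI) × ℕ × ℕ × ℕ × ℕ × ℕ × ℕ}
    (h : ValE ((k, m, d), A)) (h' : ValE ((k', m', d'), A')) [Group (GF d)] [Group (GF d')]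
    {X : Cod (Fin (k + 1)) (Fin (m + 1)) (GF d)} {X' : Cod (Fin (k' + 1)) (Fin (m' + 1)) (GF d')}
    (hX : IsC ((k, m, d), A) X) (hX' : IsC ((k', m', d'), A') X')
    (hv : X.Valid) (hv' : X'.Valid) {q : Fin (m + 1)} {q' : Fin (m' + 1)}
    (φ : GC X hv q ≃* GC X' hv' q') :
    ∃ (r d1 p q g b t l : ℕ) (z : ℕ × ℕ) (p' q' b' t' l' : ℕ) (z' : ℕ × ℕ) (s : Mt),
      ValE ((k, r, d1), A.1, p, q, g, b, t, l) ∧ ValE ((k', r, d1), A'.1, p', q', g, b', t', l') ∧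
      RefE ((k, r, d1), A.1, p, q, g, b, t, l) ((k, m, d), A) z ∧
      RefE ((k', r, d1), A'.1, p', q', g, b', t', l') ((k', m', d'), A') z' ∧
      SimE ((k, r, d1), A.1, p, q, g, b, t, l) ((k', r, d1), A'.1, p', q', g, b', t', l') s ∧
      Sol (sysE ((k, r, d1), A.1, p, q, g, b, t, l) ((k', r, d1), A'.1, p', q', g, b', t', l') s) ∧
      r + 1 ≤ (m + 1) * (d' + 1) ∧ d1 + 1 ≤ (d + 1) * (d' + 1) ∧
      (p < (r + 1) ^ ((r + 1) * (k + 1)) ∧ q < (r + 1) ^ ((r + 1) * (k + 1)) ∧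
        b < (r + 1) ^ ((d1 + 1) * (r + 1)) ∧
        t < (k + 1) ^ ((d1 + 1) * (r + 1) * (k + 1)) ∧
        l < (A.1.2.length + 1) ^ ((d1 + 1) * (r + 1) * (k + 1)) ∧
        z.1 < (m + 1) ^ (r + 1) ∧ z.2 < (d + 1) ^ (d1 + 1)) ∧
      g < (d1 + 1) ^ ((d1 + 1) * (d1 + 1)) ∧
      (p' < (r + 1) ^ ((r + 1) * (k' + 1)) ∧ q' < (r + 1) ^ ((r + 1) * (k' + 1)) ∧
        b' < (r + 1) ^ ((d1 + 1) * (r + 1)) ∧
        t' < (k' + 1) ^ ((d1 + 1) * (r + 1) * (k' + 1)) ∧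
        l' < (A'.1.2.length + 1) ^ ((d1 + 1) * (r + 1) * (k' + 1)) ∧
        z'.1 < (m' + 1) ^ (r + 1) ∧ z'.2 < (d' + 1) ^ (d1 + 1)) ∧
      s.1 < (r + 1) ^ (r + 1) ∧ s.2.1 < (k + 1) ^ ((r + 1) * (k + 1)) ∧
      s.2.2.1 < (r + 1).factorial ^ ((r + 1) * (k + 1)) ∧
      s.2.2.2 < 2 ^ ((r + 1) * (k + 1)) := by
  have o : (1 : GF d).n = 0 := gf_one (c := ((k, m, d), A)) h.2.2.1 hX.mul
  have o' : (1 : GF d').n = 0 := gf_one (c := ((k', m', d'), A')) h'.2.2.1 hX'.mul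
  obtain ⟨hN, hS, h2⟩ := isC_graph h hX
  obtain ⟨hN', hS', h2'⟩ := isC_graph h' hX'
  have fD : Finite (GF d) := inferInstanceAs (Finite (Fin (d + 1)))
  have fD' : Finite (GF d') := inferInstanceAs (Finite (Fin (d' + 1)))
  obtain ⟨R, D1, I, c1, c1', a, π, a', π', τ, la, fR, fD1, nR, cR, cD, v1, v1', hr, hr', hs⟩ :=
    match_of_iso hv hv' hN hS hN' hS' h2 h2' φ
  obtain ⟨n, ⟨eR⟩⟩ := Finite.exists_equiv_fin R
  have hn : n ≠ 0 := by
    rintro rfl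
    obtain ⟨x⟩ := nR
    exact (eR x).elim0
  obtain ⟨r, rfl⟩ := Nat.exists_eq_succ_of_ne_zero hn
  have cardR : Nat.card R = r + 1 := by rw [Nat.card_congr eR, Nat.card_fin]
  obtain ⟨d1, I1, eD, o1, cardD⟩ := fin_grp D1
  obtain ⟨X1, w1, T1⟩ := tq_exists c1 v1 (Equiv.refl _) eR eD
  obtain ⟨X2, w2, T2⟩ := tq_exists c1' v1' (Equiv.refl _) eR eD
  have R1 := tq_ref T1 hr
  have R2 := tq_ref T2 hr'
  have S := tq_sims T1 T2 hs
  obtain ⟨g, hgb, hg⟩ := mul_table (d := d1)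
  obtain ⟨p, q, b, t, l, z, J1, Q1, ri1, bd1⟩ := ref_complete hX o o1 R1 g hg
  obtain ⟨p', q', b', t', l', z', J2, Q2, ri2, bd2⟩ := ref_complete hX' o' o1 R2 g hg
  obtain ⟨s, hs1, hs2, bd3⟩ := sim_complete J1 J2 rfl S
  have hc : Nat.card (Fin (m + 1)) = m + 1 := Nat.card_fin _
  have hd : Nat.card (GF d) = d + 1 := Nat.card_fin (d + 1)
  have hd' : Nat.card (GF d') = d' + 1 := Nat.card_fin (d' + 1)
  rw [cardR, hc, hd'] at cR
  rw [cardD, hd, hd'] at cD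
  have G1 : X1.Γ = X.Γ := (tq_graph T1).trans hr.gr
  have G2 : X2.Γ = X'.Γ := (tq_graph T2).trans hr'.gr
  have V1 : ValE ((k, r, d1), A.1, p, q, g, b, t, l) :=
    val_of_isC J1 w1 o1 h.1.1 (G1 ▸ hN) (G1 ▸ hS) ri1
  have V2 : ValE ((k', r, d1), A'.1, p', q', g, b', t', l') :=
    val_of_isC J2 w2 o1 h'.1.1 (G2 ▸ hN') (G2 ▸ hS') ri2
  exact ⟨r, d1, p, q, g, b, t, l, z, p', q', b', t', l', z', s, V1, V2, Q1, Q2, hs1, hs2, cR, cD,
    bd1, hgb, bd2, bd3⟩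

theorem good_complete {c c' : Ce} (h : ValE c) (h' : ValE c') [Group (GF c.1.2.2)]
    [Group (GF c'.1.2.2)] {X : Cod (Fin (eV c)) (Fin (eC c)) (GF c.1.2.2)}
    {X' : Cod (Fin (eV c')) (Fin (eC c')) (GF c'.1.2.2)} (hX : IsC c X) (hX' : IsC c' X')
    (hv : X.Valid) (hv' : X'.Valid) {q : Fin (eC c)} {q' : Fin (eC c')}
    (φ : GC X hv q ≃* GC X' hv' q') : ∃ t < (TB c c' + 1) ^ 21, GoodE c c' t := by
  obtain ⟨r, d1, p, q, g, b, t, l, z, p', q', b', t', l', z', s, V1, V2, Q1, Q2, S1, S2, cR, cD,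
    ⟨b2, b3, b5, b6, b7, b8, b9⟩, b4, ⟨b10, b11, b12, b13, b14, b15, b16⟩, b17, b18, b19, b20⟩ :=
    k13_core (A := c.2) (A' := c'.2) h h' hX hX' hv hv' φ
  have x0 : 1 ≤ XE c c' := by
    have : 0 < XE c c' := by
      unfold XE
      positivity
    exact this
  have xr : r + 1 ≤ XE c c' := by
    refine k13_dvd (b := (eC c + 1) * (eD c' + 1)) ⟨(eV c + eV c' + 2) * (eC c' + 1) * (eD c + 1) *
      (c.2.1.2.length + 2) * (c'.2.1.2.length + 2), by unfold XE; ring⟩ (cR.trans ?_)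
    exact Nat.mul_le_mul (Nat.le_succ _) (Nat.le_succ _)
  have xd : d1 + 1 ≤ XE c c' := by
    refine k13_dvd (b := (eD c + 1) * (eD c' + 1)) ⟨(eV c + eV c' + 2) * (eC c + 1) * (eC c' + 1) *
      (c.2.1.2.length + 2) * (c'.2.1.2.length + 2), by unfold XE; ring⟩ (cD.trans ?_)
    exact Nat.mul_le_mul (Nat.le_succ _) (Nat.le_succ _)
  have xk : c.1.1 + 1 ≤ XE c c' := by
    refine k13_dvd (b := eV c + eV c' + 2) ⟨(eC c + 1) * (eC c' + 1) * (eD c + 1) * (eD c' + 1) *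
      (c.2.1.2.length + 2) * (c'.2.1.2.length + 2), by unfold XE; ring⟩ ?_
    show eV c ≤ eV c + eV c' + 2
    omega
  have xk' : c'.1.1 + 1 ≤ XE c c' := by
    refine k13_dvd (b := eV c + eV c' + 2) ⟨(eC c + 1) * (eC c' + 1) * (eD c + 1) * (eD c' + 1) *
      (c.2.1.2.length + 2) * (c'.2.1.2.length + 2), by unfold XE; ring⟩ ?_
    show eV c' ≤ eV c + eV c' + 2
    omega
  have x2 : 2 ≤ XE c c' := by
    refine k13_dvd (b := eV c + eV c' + 2) ⟨(eC c + 1) * (eC c' + 1) * (eD c + 1) * (eD c' + 1) *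
      (c.2.1.2.length + 2) * (c'.2.1.2.length + 2), by unfold XE; ring⟩ ?_
    omega
  have xm : c.1.2.1 + 1 ≤ XE c c' := by
    refine k13_dvd (b := eC c + 1) ⟨(eV c + eV c' + 2) * (eC c' + 1) * (eD c + 1) * (eD c' + 1) *
      (c.2.1.2.length + 2) * (c'.2.1.2.length + 2), by unfold XE; ring⟩ ?_
    exact Nat.le_succ _
  have xm' : c'.1.2.1 + 1 ≤ XE c c' := by
    refine k13_dvd (b := eC c' + 1) ⟨(eV c + eV c' + 2) * (eC c + 1) * (eD c + 1) * (eD c' + 1) *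
      (c.2.1.2.length + 2) * (c'.2.1.2.length + 2), by unfold XE; ring⟩ ?_
    exact Nat.le_succ _
  have xe : c.1.2.2 + 1 ≤ XE c c' := by
    refine k13_dvd (b := eD c + 1) ⟨(eV c + eV c' + 2) * (eC c + 1) * (eC c' + 1) * (eD c' + 1) *
      (c.2.1.2.length + 2) * (c'.2.1.2.length + 2), by unfold XE; ring⟩ ?_
    exact Nat.le_succ _
  have xe' : c'.1.2.2 + 1 ≤ XE c c' := by
    refine k13_dvd (b := eD c' + 1) ⟨(eV c + eV c' + 2) * (eC c + 1) * (eC c' + 1) * (eD c + 1) *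
      (c.2.1.2.length + 2) * (c'.2.1.2.length + 2), by unfold XE; ring⟩ ?_
    exact Nat.le_succ _
  have xl : c.2.1.2.length + 1 ≤ XE c c' := by
    refine k13_dvd (b := c.2.1.2.length + 2) ⟨(eV c + eV c' + 2) * (eC c + 1) * (eC c' + 1) *
      (eD c + 1) * (eD c' + 1) * (c'.2.1.2.length + 2), by unfold XE; ring⟩ ?_
    omega
  have xl' : c'.2.1.2.length + 1 ≤ XE c c' := by
    refine k13_dvd (b := c'.2.1.2.length + 2) ⟨(eV c + eV c' + 2) * (eC c + 1) * (eC c' + 1) *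
      (eD c + 1) * (eD c' + 1) * (c.2.1.2.length + 2), by unfold XE; ring⟩ ?_
    omega
  have hb : ∀ {a n w : ℕ}, w < a ^ n → a ≤ (XE c c').factorial → n ≤ XE c c' ^ 3 →
      w < TB c c' + 1 := fun h1 h2 h3 => k13_bound h1 h2 h3
  have hsm : ∀ {a : ℕ}, a < XE c c' → a < TB c c' + 1 := fun h1 => k13_small h1 x0
  have hT : ∀ w j, tg c c' w j = CB.dg (TB c c') w j := fun _ _ => rfl
  generalize TB c c' = B at hb hsm hT ⊢
  generalize XE c c' = X at hb hsm x0 xr xd xk xk' x2 xm xm' xe xe' xl xl'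
  have f : ∀ {a : ℕ}, a ≤ X → a ≤ X.factorial := fun h => h.trans (Nat.self_le_factorial _)
  have c0 : r < B + 1 := hsm (Nat.lt_of_succ_le xr)
  have c1 : d1 < B + 1 := hsm (Nat.lt_of_succ_le xd)
  have c2 : p < B + 1 := hb b2 (f xr) (k13_e2 xr xk x0)
  have c3 : q < B + 1 := hb b3 (f xr) (k13_e2 xr xk x0)
  have c4 : g < B + 1 := hb b4 (f xd) (k13_e2 xd xd x0)
  have c5 : b < B + 1 := hb b5 (f xr) (k13_e2 xd xr x0)
  have c6 : t < B + 1 := hb b6 (f xk) (k13_e3 xd xr xk)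
  have c7 : l < B + 1 := hb b7 (f xl) (k13_e3 xd xr xk)
  have c8 : z.1 < B + 1 := hb b8 (f xm) (k13_e1 xr)
  have c9 : z.2 < B + 1 := hb b9 (f xe) (k13_e1 xd)
  have c10 : p' < B + 1 := hb b10 (f xr) (k13_e2 xr xk' x0)
  have c11 : q' < B + 1 := hb b11 (f xr) (k13_e2 xr xk' x0)
  have c12 : b' < B + 1 := hb b12 (f xr) (k13_e2 xd xr x0)
  have c13 : t' < B + 1 := hb b13 (f xk') (k13_e3 xd xr xk')
  have c14 : l' < B + 1 := hb b14 (f xl') (k13_e3 xd xr xk')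
  have c15 : z'.1 < B + 1 := hb b15 (f xm') (k13_e1 xr)
  have c16 : z'.2 < B + 1 := hb b16 (f xe') (k13_e1 xd)
  have c17 : s.1 < B + 1 := hb b17 (f xr) (k13_e1 xr)
  have c18 : s.2.1 < B + 1 := hb b18 (f xk) (k13_e2 xr xk x0)
  have c19 : s.2.2.1 < B + 1 := hb b19 (Nat.factorial_le xr) (k13_e2 xr xk x0)
  have c20 : s.2.2.2 < B + 1 := hb b20 (f x2) (k13_e2 xr xk x0)
  obtain ⟨w, hw, hd⟩ := CB.exists_dg B
    (fun j => [r, d1, p, q, g, b, t, l, z.1, z.2, p', q', b', t', l', z'.1, z'.2, s.1, s.2.1,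
      s.2.2.1, s.2.2.2].getD j 0) (by
      intro j
      try dsimp only
      by_cases hj : j < 21
      · interval_cases j <;> assumption
      · rw [List.getD_eq_default _ _ (by simpa using hj)]
        exact Nat.succ_pos _) 21
  refine ⟨w, hw, ?_⟩
  have hd' : ∀ j < 21, tg c c' w j = [r, d1, p, q, g, b, t, l, z.1, z.2, p', q', b', t', l',
      z'.1, z'.2, s.1, s.2.1, s.2.2.1, s.2.2.2].getD j 0 := fun j hj => (hT w j).trans (hd j hj)
  clear hd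
  unfold GoodE r1E r2E stE
  generalize tg c c' w = T at hd' ⊢
  have e0 : T 0 = r := hd' 0 (by norm_num)
  have e1 : T 1 = d1 := hd' 1 (by norm_num)
  have e2 : T 2 = p := hd' 2 (by norm_num)
  have e3 : T 3 = q := hd' 3 (by norm_num)
  have e4 : T 4 = g := hd' 4 (by norm_num)
  have e5 : T 5 = b := hd' 5 (by norm_num)
  have e6 : T 6 = t := hd' 6 (by norm_num)
  have e7 : T 7 = l := hd' 7 (by norm_num)
  have e8 : T 8 = z.1 := hd' 8 (by norm_num)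
  have e9 : T 9 = z.2 := hd' 9 (by norm_num)
  have e10 : T 10 = p' := hd' 10 (by norm_num)
  have e11 : T 11 = q' := hd' 11 (by norm_num)
  have e12 : T 12 = b' := hd' 12 (by norm_num)
  have e13 : T 13 = t' := hd' 13 (by norm_num)
  have e14 : T 14 = l' := hd' 14 (by norm_num)
  have e15 : T 15 = z'.1 := hd' 15 (by norm_num)
  have e16 : T 16 = z'.2 := hd' 16 (by norm_num)
  have e17 : T 17 = s.1 := hd' 17 (by norm_num)
  have e18 : T 18 = s.2.1 := hd' 18 (by norm_num)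
  have e19 : T 19 = s.2.2.1 := hd' 19 (by norm_num)
  have e20 : T 20 = s.2.2.2 := hd' 20 (by norm_num)
  rw [e0, e1, e2, e3, e4, e5, e6, e7, e8, e9, e10, e11, e12, e13, e14, e15, e16, e17, e18, e19, e20]
  exact ⟨V1, V2, Q1, Q2, S1, S2⟩

end RaagIso
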