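import Pool.Agent.Lib.MP_32d917_al.Final
import Pool.Agent.Lib.MP_32d917_al_raag.K06
import Pool.Agent.Lib.MP_32d917_al_raag.K08
import Pool.Agent.Lib.MP_32d917_al_raag.K12
import Pool.Agent.Lib.MP_32d917_al_raag.K13
import Pool.Agent.Lib.MP_32d917_al_raag.O01

/-!
# The isomorphism problem for groups commensurable with right-angled Artin groups with finite outer
automorphism group: assembly
-/

set_option autoImplicit false
set_option synthInstance.maxSize 2000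

namespace RaagIso

open LatIso AdmIso

/-- the class of groups -/
def IsCom (G : Type) [Group G] : Prop :=
  ∃ (V : Type) (_ : Finite V) (Γ : SimpleGraph V) (H : Subgroup G) (H' : Subgroup (RA Γ)),
    (∃ a b : V, a ≠ b) ∧ ((MulAut.conj : RA Γ →* MulAut (RA Γ)).range).FiniteIndex ∧
      H.FiniteIndex ∧ H'.FiniteIndex ∧ Nonempty (H ≃* H')

/-- the group presented by a valid code -/
theorem code_grp {P : Pres} {c : Ce} (h : CodeE P c) : ∃ (_ : Group (GF c.1.2.2))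
    (X : Cod (Fin (eV c)) (Fin (eC c)) (GF c.1.2.2)) (hv : X.Valid), IsC c X ∧
      Nonempty (P.Grp ≃* GC X hv (0 : Fin (eC c))) := by
  obtain ⟨hV, x, hx, ⟨e⟩⟩ := h
  obtain ⟨I, hI⟩ := grp_exists c hV.2.2.1
  obtain ⟨X, hX⟩ := isC_exists c hV hI
  have hv := isC_valid hV hX
  obtain ⟨i⟩ := prE_iso hV hX hv hx
  exact ⟨I, X, hv, hX, ⟨e.trans i⟩⟩

theorem codeE_exists (P : Pres) (h : IsCom P.Grp) : ∃ c, CodeE P c := by
  obtain ⟨V, _, Γ, H, H', h2, ho, hf, hf', ⟨e⟩⟩ := h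
  have hN := noDom_of_out ho
  have hS := noSep_of_out ho
  obtain ⟨C, D, _, X, hv, q, _, _, hΓ, ⟨i⟩⟩ := code_of_comm hN hS h2 P.Grp H H' hf hf' e
  obtain ⟨n, ⟨eV⟩⟩ := Finite.exists_equiv_fin V
  obtain ⟨n', ⟨eC⟩⟩ := Finite.exists_equiv_fin C
  obtain ⟨a, b, hab⟩ := h2
  have hn : 2 ≤ n := by
    by_contra hn
    apply hab
    apply eV.injective
    apply Fin.ext
    have h1 := (eV a).2
    have h3 := (eV b).2
    omega
  have hn' : 1 ≤ n' := Nat.one_le_iff_ne_zero.2 fun h0 => by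
    subst h0
    exact (eC q).elim0
  obtain ⟨k, rfl⟩ : ∃ k, n = k + 1 := ⟨n - 1, by omega⟩
  obtain ⟨m, rfl⟩ : ∃ m, n' = m + 1 := ⟨n' - 1, by omega⟩
  obtain ⟨d, _, eD, hd1, -⟩ := fin_grp D
  obtain ⟨X', hv', hT⟩ := tq_exists X hv eV eC eD
  have hN' := tq_nodom hT (hΓ ▸ hN) (hΓ ▸ hS)
  obtain ⟨j⟩ := iso_of_sim hv hv' (tq_sim hT) q (0 : Fin (m + 1))
  obtain ⟨A, hA, hr⟩ := isC_code X'
  have hV : ValE ((k, m, d), A) :=
    val_of_isC hA hv' hd1 (show 1 ≤ k by omega) hN'.1 hN'.2 hr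
  obtain ⟨x, hx⟩ := path_exists hV hA hv'
  obtain ⟨l⟩ := prE_iso hV hA hv' hx
  exact ⟨((k, m, d), A), hV, x, hx, ⟨i.trans (j.trans l.symm)⟩⟩

/-- certificates of non-isomorphism -/
def NoCertE (P Q : Pres) : Prop := ∃ z : Ce × Ce, CodeE P z.1 ∧ CodeE Q z.2 ∧
  ∀ t < (TB z.1 z.2 + 1) ^ 21, ¬ GoodE z.1 z.2 t

theorem noCertE_re : REPred fun x : Pres × Pres => NoCertE x.1 x.2 := by
  have h1 := re_comp codeE_re (f := fun x : (Pres × Pres) × (Ce × Ce) => (x.1.1, x.2.1))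
    (Primrec.pair (Primrec.fst.comp Primrec.fst) (Primrec.fst.comp Primrec.snd)).to_comp
  have h2 := re_comp codeE_re (f := fun x : (Pres × Pres) × (Ce × Ce) => (x.1.2, x.2.2))
    (Primrec.pair (Primrec.snd.comp Primrec.fst) (Primrec.snd.comp Primrec.snd)).to_comp
  have h3 := re_comp noGoodE_re (f := fun x : (Pres × Pres) × (Ce × Ce) => x.2)
    Primrec.snd.to_comp
  exact re_exists (p := fun (x : Pres × Pres) (z : Ce × Ce) =>
    CodeE x.1 z.1 ∧ CodeE x.2 z.2 ∧ ∀ t < (TB z.1 z.2 + 1) ^ 21, ¬ GoodE z.1 z.2 t)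
    (re_and h1 (re_and h2 h3))

theorem noCertE_sound (P Q : Pres) (h : NoCertE P Q) : ¬ Nonempty (P.Grp ≃* Q.Grp) := by
  rintro ⟨e⟩
  obtain ⟨⟨c, c'⟩, hc, hc', hno⟩ := h
  simp only at hc hc' hno
  obtain ⟨I, X, hv, hX, ⟨i⟩⟩ := code_grp hc
  obtain ⟨I', X', hv', hX', ⟨i'⟩⟩ := code_grp hc'
  obtain ⟨t, ht, hg⟩ := good_complete hc.1 hc'.1 hX hX' hv hv' (i.symm.trans (e.trans i'))
  exact hno t ht hg

theorem noCertE_complete (P Q : Pres) (hP : IsCom P.Grp) (hQ : IsCom Q.Grp)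
    (h : ¬ Nonempty (P.Grp ≃* Q.Grp)) : NoCertE P Q := by
  obtain ⟨c, hc⟩ := codeE_exists P hP
  obtain ⟨c', hc'⟩ := codeE_exists Q hQ
  refine ⟨(c, c'), hc, hc', ?_⟩
  intro t _ hg
  apply h
  obtain ⟨I, X, hv, hX, ⟨i⟩⟩ := code_grp hc
  obtain ⟨I', X', hv', hX', ⟨i'⟩⟩ := code_grp hc'
  obtain ⟨j⟩ := good_sound hc.1 hc'.1 hX hX' hv hv' hg 0 0
  exact ⟨i.trans (j.trans i'.symm)⟩

/-- The isomorphism problem is solvable for groups commensurable with right-angled Artin groups with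
finite outer automorphism group. -/
theorem finalC : ∃ f : Pres × Pres →. Bool, Partrec f ∧ ∀ P Q : Pres,
    IsCom P.Grp → IsCom Q.Grp → ∃ b ∈ f (P, Q), (b = true ↔ Nonempty (P.Grp ≃* Q.Grp)) := by
  obtain ⟨f, hf, h1, h2, h3⟩ := par_search iso_re noCertE_re
  refine ⟨f, hf, fun P Q hP hQ => ?_⟩
  have g2 : true ∈ f (P, Q) → Nonempty (P.Grp ≃* Q.Grp) := fun h => h2 (P, Q) h
  have g3 : false ∈ f (P, Q) → NoCertE P Q := fun h => h3 (P, Q) h
  have hd : (f (P, Q)).Dom := by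
    apply h1
    by_cases h : Nonempty (P.Grp ≃* Q.Grp)
    · exact Or.inl h
    · exact Or.inr (noCertE_complete P Q hP hQ h)
  refine ⟨(f (P, Q)).get hd, Part.get_mem hd, ?_⟩
  have hm := Part.get_mem hd
  rcases hb : (f (P, Q)).get hd with _ | _
  · rw [hb] at hm
    have h4 := noCertE_sound P Q (g3 hm)
    exact ⟨fun h => by simp at h, fun h => absurd h h4⟩
  · rw [hb] at hm
    exact ⟨fun _ => g2 hm, fun _ => rfl⟩

end RaagIso
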