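import Pool.Agent.Lib.MP_32d917_al_raag.CDefs
import Pool.Agent.Lib.MP_32d917_al_raag.GDefs

/-!
# Coded form of the codes of commensurable groups: definitions

A code is `((k, m, d), (a, L), (p, q, g, b, t, l))`: a graph with the vertices `0, ..., k` (adjacency
number `a`), points `0, ..., m`, a group with the elements `0, ..., d` (unit `0`). `L` is a list of coded
integers. The tables are given by digits: `p`, `q` moves and inverse moves, `g` multiplication, `b` action
of the group on the points, `t` the permutations of the vertices, `l` the exponents (numbers of entries of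
`L`).
-/

set_option autoImplicit false

namespace RaagIso

open LatIso AdmIso

/-- codes -/
abbrev Ce : Type := (ℕ × ℕ × ℕ) × (ℕ × List PI) × ℕ × ℕ × ℕ × ℕ × ℕ × ℕ

/-- number of vertices -/
abbrev eV (c : Ce) : ℕ := c.1.1 + 1

/-- number of points -/
abbrev eC (c : Ce) : ℕ := c.1.2.1 + 1

/-- number of elements of the group -/
abbrev eD (c : Ce) : ℕ := c.1.2.2 + 1

/-- the code of the graph and of the action on the points -/
abbrev bs (c : Ce) : Cd := ((c.1.1, c.1.2.1), c.2.1.1, c.2.2.1, c.2.2.2.1)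

/-- multiplication -/
def muE (c : Ce) (u u' : ℕ) : ℕ := CB.dg c.1.2.2 c.2.2.2.2.1 (u * eD c + u')

/-- action of the group on the points -/
def beE (c : Ce) (u i : ℕ) : ℕ := CB.dg c.1.2.1 c.2.2.2.2.2.1 (u * eC c + i)

/-- permutations of the vertices -/
def taE (c : Ce) (u i v : ℕ) : ℕ := CB.dg c.1.1 c.2.2.2.2.2.2.1 ((u * eC c + i) * eV c + v)

/-- exponents -/
def laE (c : Ce) (u i v : ℕ) : PI :=
  c.2.1.2.getD (CB.dg c.2.1.2.length c.2.2.2.2.2.2.2 ((u * eC c + i) * eV c + v)) (0, 0)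

/-- a natural number congruent to a coded integer modulo `M` -/
def arg (M : ℕ) (n : PI) : ℕ := n.1 + (M - 1) * n.2

/-- sums of exponents: the displacement along the powers of `v` for the element `u`, at the point
`i` -/
def shE (c : Ce) (u i v n : ℕ) : PI :=
  (∑ l ∈ Finset.range n, (laE c u (itN (bs c) i v l) v).1,
    ∑ l ∈ Finset.range n, (laE c u (itN (bs c) i v l) v).2)

/-- the displacement of a coded integer -/
def shZ (c : Ce) (u i v : ℕ) (n : PI) : PI :=
  psub (shE c u i v (arg (MM (bs c)) n)) (pmul (n.2, 0) (shE c u i v (MM (bs c))))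

/-- conditions on the group and its action -/
def GrpE (c : Ce) : Prop :=
  (∀ u < eD c, ∀ u' < eD c, ∀ u'' < eD c, muE c (muE c u u') u'' = muE c u (muE c u' u'')) ∧
  (∀ u < eD c, muE c 0 u = u ∧ muE c u 0 = u) ∧
  (∀ u < eD c, ∃ u' < eD c, muE c u' u = 0) ∧
  (∀ u < eD c, ∀ u' < eD c, ∀ i < eC c, beE c (muE c u u') i = beE c u (beE c u' i)) ∧
  (∀ i < eC c, beE c 0 i = i) ∧
  (∀ u < eD c, ∀ u' < eD c, ∀ i < eC c, ∀ v < eV c,
    taE c u (beE c u' i) (taE c u' i v) = taE c (muE c u u') i v) ∧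
  (∀ i < eC c, ∀ v < eV c, taE c 0 i v = v)

/-- every element acts by generalised automorphisms -/
def AutE (c : Ce) : Prop :=
  (∀ u < eD c, ∀ i < eC c, ∀ v < eV c, ∀ w < eV c,
    (AdN (bs c) v w ↔ AdN (bs c) (taE c u i v) (taE c u i w))) ∧
  (∀ u < eD c, ∀ i < eC c, ∀ v < eV c, ∀ w < eV c, StN (bs c) v w →
    taE c u (rmN (bs c) i v) w = taE c u i w) ∧
  (∀ u < eD c, ∀ i < eC c, ∀ v < eV c, ∀ w < eV c, AdN (bs c) v w →
    PEq (laE c u (rmN (bs c) i w) v) (laE c u i v)) ∧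
  (∀ u < eD c, ∀ i < eC c, ∀ v < eV c, beE c u (rmN (bs c) i v) =
    itN (bs c) (beE c u i) (taE c u i v) (arg (MM (bs c)) (laE c u i v))) ∧
  (∀ u < eD c, ∀ i < eC c, ∀ v < eV c,
    (PEq (shE c u i v (MM (bs c))) (MM (bs c), 0) ∨ PEq (shE c u i v (MM (bs c))) (0, MM (bs c))) ∧
    ∀ a < MM (bs c), ∀ b < MM (bs c), a < b →
      ¬ ((shE c u i v b).1 + (shE c u i v a).2) % MM (bs c) =
        ((shE c u i v a).1 + (shE c u i v b).2) % MM (bs c))

/-- validity of codes -/
def ValE (c : Ce) : Prop :=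
  ValN (bs c) ∧
  (∀ s < 2 ^ eC c, CB.dg 1 s 0 = 1 →
    (∀ i < eC c, ∀ v < eV c, CB.dg 1 s i = 1 → CB.dg 1 s (rmN (bs c) i v) = 1) →
    ∀ i < eC c, CB.dg 1 s i = 1) ∧
  GrpE c ∧ AutE c ∧
  (∀ u < eD c, ∀ u' < eD c, ∀ i < eC c, ∀ v < eV c,
    PEq (shZ c u (beE c u' i) (taE c u' i v) (laE c u' i v)) (laE c (muE c u u') i v))

/-- the type of the elements of the group -/
def GF (d : ℕ) : Type := Fin (d + 1)

/-- the number of an element -/
def GF.n {d : ℕ} (u : GF d) : ℕ := Fin.val u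

/-- `X` is the code with the tables of `c` -/
structure IsC (c : Ce) [Group (GF c.1.2.2)]
    (X : Cod (Fin (eV c)) (Fin (eC c)) (GF c.1.2.2)) : Prop where
  gr : X.Γ = gr (bs c)
  mv : ∀ (i : Fin (eC c)) (v : Fin (eV c)),
    ((rm X.ρ i (gen v) : Fin (eC c)) : ℕ) = rmN (bs c) i v
  mul : ∀ u u' : GF c.1.2.2, (u * u').n = muE c u.n u'.n
  be : ∀ (u : GF c.1.2.2) (i : Fin (eC c)), ((X.β u i : Fin (eC c)) : ℕ) = beE c u.n i
  ta : ∀ (u : GF c.1.2.2) (i : Fin (eC c)) (v : Fin (eV c)),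
    ((X.τ u i v : Fin (eV c)) : ℕ) = taE c u.n i v
  la : ∀ (u : GF c.1.2.2) (i : Fin (eC c)) (v : Fin (eV c)), X.la u i v = iv (laE c u.n i v)

/-! ### Presentations -/

/-- generator of the point `i` and the vertex `v` -/
def ge (c : Ce) (i v : ℕ) : ℕ := i * eV c + v

/-- generator of the element `u` at the point `i` -/
def gt (c : Ce) (u i : ℕ) : ℕ := eC c * eV c + (u * eC c + i)

/-- the generators `ge c i v` as list of words -/
def idl (c : Ce) : List Wd := (List.range (eC c * eV c)).map fun j => [(j, true)]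

/-- powers of letters -/
def pwL (w : ℕ) (n : PI) : Wd := List.replicate n.1 (w, true) ++ List.replicate n.2 (w, false)

/-- the presentation of a code, `x` is a list of paths -/
def prE (c : Ce) (x : List Wd) : Pres := (eC c * eV c + eD c * eC c,
  ((List.range (eC c)).flatMap fun i => (List.range (eV c)).flatMap fun v =>
    (List.range (eV c)).flatMap fun w => if AdN (bs c) v w then
      [[(ge c i v, true), (ge c (rmN (bs c) i v) w, true),
        (ge c (rmN (bs c) i w) v, false), (ge c i w, false)]] else []) ++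
  ((List.range (eC c)).map fun i => liftN (bs c) (idl c) 0 (x.getD i [])) ++
  ((List.range (eD c)).flatMap fun u => (List.range (eC c)).flatMap fun i =>
    (List.range (eV c)).map fun v =>
      [(gt c u i, true), (ge c i v, true)] ++ FreeGroup.invRev
        (liftN (bs c) (idl c) (beE c u i) (pwL (taE c u i v) (laE c u i v)) ++
          [(gt c u (rmN (bs c) i v), true)])) ++
  ((List.range (eD c)).flatMap fun u => (List.range (eD c)).flatMap fun u' =>
    (List.range (eC c)).map fun i =>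
      [(gt c u (beE c u' i), true), (gt c u' i, true), (gt c (muE c u u') i, false)]))

/-- `x` is a list of paths from the point `0` to all points -/
def PathE (c : Ce) (x : List Wd) : Prop :=
  x.getD 0 [] = [] ∧ ∀ i < eC c, runN (bs c) 0 (x.getD i []) = i

/-- `c` is a code of the group presented by `P` -/
def CodeE (P : Pres) (c : Ce) : Prop :=
  ValE c ∧ ∃ x : List Wd, PathE c x ∧ Nonempty (P.Grp ≃* (prE c x).Grp)

/-! ### Matchings -/

/-- `c1` is a refinement of `c`, with the maps given by the digits of `z` -/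
def RefE (c1 c : Ce) (z : ℕ × ℕ) : Prop :=
  c1.1.1 = c.1.1 ∧ c1.2.1 = c.2.1 ∧
  (∀ i < eC c1, ∀ v < eV c1, CB.dg c.1.2.1 z.1 (rmN (bs c1) i v) =
    rmN (bs c) (CB.dg c.1.2.1 z.1 i) v) ∧
  (∀ u < eD c1, ∀ i < eC c1, CB.dg c.1.2.1 z.1 (beE c1 u i) =
    beE c (CB.dg c.1.2.2 z.2 u) (CB.dg c.1.2.1 z.1 i)) ∧
  (∀ u < eD c1, ∀ u' < eD c1, CB.dg c.1.2.2 z.2 (muE c1 u u') =
    muE c (CB.dg c.1.2.2 z.2 u) (CB.dg c.1.2.2 z.2 u')) ∧
  (∀ u < eD c1, ∀ i < eC c1, ∀ v < eV c1,
    taE c1 u i v = taE c (CB.dg c.1.2.2 z.2 u) (CB.dg c.1.2.1 z.1 i) v ∧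
    laE c1 u i v = laE c (CB.dg c.1.2.2 z.2 u) (CB.dg c.1.2.1 z.1 i) v) ∧
  (∀ u < eD c, ∃ u' < eD c1, CB.dg c.1.2.2 z.2 u' = u) ∧
  (∀ i < eC c1, ∀ j < eC c1, CB.dg c.1.2.1 z.1 i = CB.dg c.1.2.1 z.1 j →
    ∃ u < eD c1, CB.dg c.1.2.2 z.2 u = 0 ∧ beE c1 u i = j) ∧
  (∀ u < eD c1, ∀ i < eC c1, CB.dg c.1.2.2 z.2 u = 0 → beE c1 u i = i → u = 0)

/-- similarity of codes with the same points and the same group: combinatorial conditions -/
def SimE (c c' : Ce) (t : Mt) : Prop :=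
  c'.1 = c.1 ∧ c'.2.2.2.2.1 = c.2.2.2.2.1 ∧ MatN (bs c) (bs c') t ∧
  (∀ i < eC c, FN (bs c) t i = i) ∧
  (∀ u < eD c, ∀ i < eC c, beE c u i = beE c' u i) ∧
  (∀ u < eD c, ∀ i < eC c, ∀ v < eV c,
    tN (bs c) t (beE c u i) (taE c u i v) = taE c' u i (tN (bs c) t i v))

/-- equation of similarity -/
def rowE (c c' : Ce) (t : Mt) (u i v : ℕ) : List PI × PI :=
  ((List.range (eC c * eV c)).map fun x =>
    psub (∑ l ∈ Finset.range (arg (MM (bs c)) (laE c u i v)),
        (if x = ix (bs c) (itN (bs c) (beE c u i) (taE c u i v) l) (taE c u i v) then MM (bs c) else 0),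
      (laE c u i v).2 * ∑ l ∈ Finset.range (MM (bs c)),
        (if x = ix (bs c) (itN (bs c) (beE c u i) (taE c u i v) l) (taE c u i v) then MM (bs c) else 0))
      (if x = ix (bs c) i v then shE c' u i (tN (bs c) t i v) (MM (bs c)) else (0, 0)),
    psub (shE c' u i (tN (bs c) t i v) (dN (bs c) t i v))
      (sdN (bs c) t (beE c u i) (taE c u i v) (arg (MM (bs c)) (laE c u i v)),
        (laE c u i v).2 * sdN (bs c) t (beE c u i) (taE c u i v) (MM (bs c))))

/-- the linear system -/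
def sysE (c c' : Ce) (t : Mt) : Sys :=
  (eC c * eV c, (sysN (bs c) t).2 ++ (List.range (eD c)).flatMap fun u =>
    (List.range (eC c)).flatMap fun i => (List.range (eV c)).map fun v => rowE c c' t u i v)

/-- size -/
def XE (c c' : Ce) : ℕ := (eV c + eV c' + 2) * (eC c + 1) * (eC c' + 1) * (eD c + 1) * (eD c' + 1) *
  (c.2.1.2.length + 2) * (c'.2.1.2.length + 2)

/-- bound for the entries of a matching -/
def TB (c c' : Ce) : ℕ := (XE c c').factorial ^ (XE c c' ^ 3)

/-- entries of a matching -/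
def tg (c c' : Ce) (t j : ℕ) : ℕ := CB.dg (TB c c') t j

/-- the first refinement of a matching -/
def r1E (c c' : Ce) (t : ℕ) : Ce := ((c.1.1, tg c c' t 0, tg c c' t 1), c.2.1,
  tg c c' t 2, tg c c' t 3, tg c c' t 4, tg c c' t 5, tg c c' t 6, tg c c' t 7)

/-- the second refinement of a matching -/
def r2E (c c' : Ce) (t : ℕ) : Ce := ((c'.1.1, tg c c' t 0, tg c c' t 1), c'.2.1,
  tg c c' t 10, tg c c' t 11, tg c c' t 4, tg c c' t 12, tg c c' t 13, tg c c' t 14)

/-- the similarity of a matching -/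
def stE (c c' : Ce) (t : ℕ) : Mt := (tg c c' t 17, tg c c' t 18, tg c c' t 19, tg c c' t 20)

/-- good matchings -/
def GoodE (c c' : Ce) (t : ℕ) : Prop :=
  ValE (r1E c c' t) ∧ ValE (r2E c c' t) ∧
  RefE (r1E c c' t) c (tg c c' t 8, tg c c' t 9) ∧
  RefE (r2E c c' t) c' (tg c c' t 15, tg c c' t 16) ∧
  SimE (r1E c c' t) (r2E c c' t) (stE c c' t) ∧
  Sol (sysE (r1E c c' t) (r2E c c' t) (stE c c' t))

end RaagIso
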