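import Pool.Agent.Lib.MP_32d917_al_raag.RiDefs
import Pool.Agent.Lib.MP_32d917_al_raag.E01

/-!
# R01: a chamber is not separated by a star

`insep1`: the case `x = 1`. Let `e = z * gen v * z⁻¹` be arbitrary, `T = {u | gen u * e = e * gen u}`. We have to connect all
`gen u`, `u ∉ T`. It is enough to connect inside `Γ` by paths avoiding `T`: for adjacent `a, b ∉ T`, `Stp e (gen a) (gen b)`.
By `gate_r (st Γ v) z` we may assume that `z` has no right letter with type in `st Γ v` (`z = z' * p`, `p` commutes with `gen v`).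
Case `z = 1`: `T = st Γ v` (`cen_gen` with `n = 1`, `gen_mem_iff`, `gen_comm`). By `NoSep Γ` with
`K = {a | a ∉ st Γ v ∧ Cnn e (gen u) (gen a)}` we are done.
Case `z ≠ 1`: let `a` be a right letter of `z`, `t = a.1 ∉ st Γ v`. `u ∈ T` means `e ∈ PP Γ (st Γ u)` (`cen_gen`), so `sup e = insert v (sup z) ⊆ st Γ u`
(`conj_red`, `mem_pp`), in particular `v, t ∈ st Γ u`, and as `v`, `t` are different and not adjacent `u ≠ v`, `u ≠ t`, so `u ∈ lk Γ v ∩ lk Γ t`. So `T ⊆ lk Γ v ∩ lk Γ t`.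
 (i) every `a ∉ st Γ v` is connected to `t` (`NoSep Γ v` with `K = {a | a ∉ st Γ v ∧ Cnn e (gen t) (gen a)}`; all elements outside `st Γ v` are outside `T`);
 (ii) every `a ∉ st Γ t` is connected to `v` (the same with `t`, `v` exchanged);
 (iii) every `a ∉ T` with `a ∈ st Γ v`, `a ∈ st Γ t` is adjacent to `v` (`a ≠ v` because `v ∉ st Γ t`), so connected to `v`.
 (iv) `v` and `t` are connected: by `NoDom v t` there is `z1` adjacent to `v` with `z1 ∉ st Γ t`; by `NoDom z1 v` there is `y1` adjacent to `z1`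
 with `y1 ∉ st Γ v`. `v - z1 - y1` is a path outside `T` and `y1` is connected to `t` by (i).
`Cnn` is symmetric (`cnn_symm`) and transitive.

`insep`: conjugate by `x⁻¹` (`cnn_conj`).
-/

set_option autoImplicit false

namespace RaagIso

open Classical

section

variable {V : Type} {Γ : SimpleGraph V}

theorem r01_stp_symm {e a b : RA Γ} (h : Stp e a b) : Stp e b a :=
  ⟨h.2.1, h.1, h.2.2.1.symm, h.2.2.2.2, h.2.2.2.1⟩

theorem cnn_symm {e a b : RA Γ} (h : Cnn e a b) : Cnn e b a := by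
  unfold Cnn at h ⊢
  induction h with
  | refl => exact Relation.ReflTransGen.refl
  | tail _ h2 ih => exact Relation.ReflTransGen.head (r01_stp_symm h2) ih

theorem isE_conj (x : RA Γ) {e : RA Γ} (he : IsE e) : IsE (x * e * x⁻¹) := by
  obtain ⟨g, v, rfl⟩ := he
  exact ⟨x * g, v, by group⟩

theorem r01_comm (x a b : RA Γ) :
    x * a * x⁻¹ * (x * b * x⁻¹) = x * b * x⁻¹ * (x * a * x⁻¹) ↔ a * b = b * a := by
  have h1 : ∀ a b : RA Γ, x * a * x⁻¹ * (x * b * x⁻¹) = x * (a * b) * x⁻¹ := by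
    intro a b
    group
  rw [h1, h1, mul_left_inj, mul_right_inj]

theorem cnn_conj (x : RA Γ) {e a b : RA Γ} (h : Cnn e a b) :
    Cnn (x * e * x⁻¹) (x * a * x⁻¹) (x * b * x⁻¹) := by
  unfold Cnn at h ⊢
  induction h with
  | refl => exact Relation.ReflTransGen.refl
  | tail _ h2 ih =>
    refine ih.tail ⟨isE_conj x h2.1, isE_conj x h2.2.1, ?_, ?_, ?_⟩
    · exact (r01_comm x _ _).2 h2.2.2.1
    · exact fun h => h2.2.2.2.1 ((r01_comm x _ _).1 h)
    · exact fun h => h2.2.2.2.2 ((r01_comm x _ _).1 h)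

theorem r01_isE_gen (v : V) : IsE (gen v : RA Γ) := ⟨1, v, by group⟩

/-- an edge outside the star of `e` -/
theorem r01_edge {e : RA Γ} {a b : V} (hab : Γ.Adj a b) (ha : gen a * e ≠ e * gen a)
    (hb : gen b * e ≠ e * gen b) : Cnn e (gen a) (gen b) :=
  Relation.ReflTransGen.single ⟨r01_isE_gen a, r01_isE_gen b, gen_comm hab, ha, hb⟩

/-- if the star of `v` contains the star of `e`, its complement is connected -/
theorem r01_star (hS : NoSep Γ) {e : RA Γ} {v : V}
    (h : ∀ a, a ∉ st Γ v → (gen a : RA Γ) * e ≠ e * gen a) {a b : V} (ha : a ∉ st Γ v)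
    (hb : b ∉ st Γ v) : Cnn e (gen a) (gen b) := by
  refine hS v {y | Cnn e (gen a) (gen y)} ?_ a b ?_ ha hb
  · intro x y hx hxv hyv hxy
    exact Relation.ReflTransGen.trans hx (r01_edge hxy (h x hxv) (h y hyv))
  · exact Relation.ReflTransGen.refl

theorem insep1 (hN : NoDom Γ) (hS : NoSep Γ) {e : RA Γ} (he : IsE e) {u w : V}
    (hu : gen u * e ≠ e * gen u) (hw : gen w * e ≠ e * gen w) : Cnn e (gen u) (gen w) := by
  obtain ⟨g, v, rfl⟩ := he
  obtain ⟨p, hp, z, hz, hzr, -⟩ := gate_r (st Γ v) g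
  have hpv := st_comm hp
  have he : g * gen v * g⁻¹ = z * gen v * z⁻¹ := by
    rw [hz, mul_inv_rev]
    have : z * p * gen v * (p⁻¹ * z⁻¹) = z * (p * gen v) * p⁻¹ * z⁻¹ := by group
    rw [this, ← hpv]
    group
  rw [he] at hu hw ⊢
  clear he
  by_cases hz1 : z = 1
  · subst hz1
    have h1 : (1 : RA Γ) * gen v * 1⁻¹ = gen v := by group
    rw [h1] at hu hw ⊢
    have h2 : ∀ a, a ∉ st Γ v → (gen a : RA Γ) * gen v ≠ gen v * gen a := by
      intro a ha h
      have h3 := cen_gen (n := 1) one_ne_zero (v := v) (x := (gen a : RA Γ))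
        (by rw [zpow_one]; exact h)
      exact ha (gen_mem_iff.1 h3)
    have h4 : ∀ a, (gen a : RA Γ) * gen v ≠ gen v * gen a → a ∉ st Γ v := by
      intro a h ha
      apply h
      exact (st_comm (gen_mem ha)).symm
    exact r01_star hS h2 (h4 u hu) (h4 w hw)
  · obtain ⟨a, ha⟩ := exists_rt hz1
    set t := a.1 with ht
    have htv : t ∉ st Γ v := hzr a ha
    have hts : t ∈ sup z := rt_sup ha
    obtain ⟨-, -, hsup⟩ := conj_red (n := 1) one_ne_zero hzr
    rw [zpow_one] at hsup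
    set e := z * gen v * z⁻¹ with hedef
    have hvt : v ∉ st Γ t := by
      rintro (h | h)
      · exact htv (Or.inl h.symm)
      · exact htv (Or.inr h.symm)
    have hne : v ≠ t := fun h => hvt (Or.inl h)
    have hT : ∀ b : V, (gen b : RA Γ) * e = e * gen b → Γ.Adj b v ∧ Γ.Adj b t := by
      intro b hb
      have h1 := cen_gen (n := 1) one_ne_zero (v := b) (x := e) (by rw [zpow_one]; exact hb.symm)
      have h2 := mem_pp.1 h1
      rw [hsup] at h2
      have h3 : v ∈ st Γ b := h2 (Set.mem_insert _ _)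
      have h4 : t ∈ st Γ b := h2 (Set.mem_insert_of_mem _ hts)
      rcases h3 with h3 | h3
      · subst h3
        exact absurd h4 htv
      · rcases h4 with h4 | h4
        · subst h4
          exact absurd (Or.inr h3 : v ∈ st Γ t) hvt
        · exact ⟨h3, h4⟩
    have hv1 : ∀ b, b ∉ st Γ v → (gen b : RA Γ) * e ≠ e * gen b :=
      fun b hb h => hb (Or.inr (hT b h).1.symm)
    have ht1 : ∀ b, b ∉ st Γ t → (gen b : RA Γ) * e ≠ e * gen b :=
      fun b hb h => hb (Or.inr (hT b h).2.symm)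
    have hvT : (gen v : RA Γ) * e ≠ e * gen v := ht1 v hvt
    -- (i), (ii)
    have h1 : ∀ b, b ∉ st Γ v → Cnn e (gen t) (gen b) := fun b hb => r01_star hS hv1 htv hb
    have h2 : ∀ b, b ∉ st Γ t → Cnn e (gen v) (gen b) := fun b hb => r01_star hS ht1 hvt hb
    -- (iv)
    have h4 : Cnn e (gen v) (gen t) := by
      obtain ⟨z1, hz1a, hz1b⟩ := hN v t hne
      obtain ⟨y1, hy1a, hy1b⟩ := hN z1 v hz1a.ne'
      exact ((r01_edge hz1a hvT (ht1 z1 hz1b)).trans
        (r01_edge hy1a (ht1 z1 hz1b) (hv1 y1 hy1b))).trans (cnn_symm (h1 y1 hy1b))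
    -- everything is connected to `t`
    have h5 : ∀ b, (gen b : RA Γ) * e ≠ e * gen b → Cnn e (gen t) (gen b) := by
      intro b hb
      by_cases hbv : b ∈ st Γ v
      · by_cases hbt : b ∈ st Γ t
        · have h6 : Γ.Adj v b := by
            rcases hbv with h | h
            · subst h
              exact absurd hbt hvt
            · exact h
          exact (cnn_symm h4).trans (r01_edge h6 hvT hb)
        · exact (cnn_symm h4).trans (h2 b hbt)
      · exact h1 b hbv
    exact (cnn_symm (h5 u hu)).trans (h5 w hw)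

theorem insep (hN : NoDom Γ) (hS : NoSep Γ) (x : RA Γ) {e : RA Γ} (he : IsE e) {u w : V}
    (hu : x * gen u * x⁻¹ * e ≠ e * (x * gen u * x⁻¹))
    (hw : x * gen w * x⁻¹ * e ≠ e * (x * gen w * x⁻¹)) :
    Cnn e (x * gen u * x⁻¹) (x * gen w * x⁻¹) := by
  have h1 : x * (x⁻¹ * e * x⁻¹⁻¹) * x⁻¹ = e := by group
  have h2 := isE_conj x⁻¹ he
  rw [← h1, Ne, r01_comm] at hu hw
  have h3 := cnn_conj x (insep1 hN hS h2 hu hw)
  rwa [h1] at h3

end

end RaagIso
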