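import Pool.Agent.Lib.MP_32d917_al_raag.R01
import Pool.Agent.Lib.MP_32d917_al_raag.R02
import Pool.Agent.Lib.MP_32d917_al_raag.E02

/-!
# R03: isomorphisms of the extension graph map chambers to chambers

`center`: if every `v` satisfies `x ∈ PP Γ (st Γ v)` then `x = 1` (`NoDom Γ`, two different vertices): if `u ∈ sup x` then `u ∈ st Γ v` for all `v`, so all vertices are in
`st Γ u`; take `w ≠ u` and a vertex `z` adjacent to `w`, `z ∉ st Γ u` by `NoDom w u`: contradiction. So `sup x = ∅`.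

`chamber1`: let `Φ`, `Ψ` be an isomorphism of extension graphs, `x : RA Γ`. There are `x'` and `t : V → V'` with `Φ (x * gen v * x⁻¹) = x' * gen (t v) * x'⁻¹` for all `v`.
Choose `g v`, `t v` with `Φ (x * gen v * x⁻¹) = g v * gen (t v) * (g v)⁻¹`. The cosets `g v * PP Γ' (st Γ' (t v))` intersect pairwise: otherwise `sepr` gives `e'`, `IsE e'`, separating the elements for `v`, `w`. Let
`e = Ψ e'`; by `Emp.comm` (and `right`) `x * gen v * x⁻¹` and `x * gen w * x⁻¹` do not commute with `e`, so by `insep` they are connected outside the star of `e`; `Φ` maps the path to a path outside the star of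
`Φ e = e'` (lemma `cnn_map`), contradiction. Now use `helly` (index set `V`): `x'` with `(g v)⁻¹ * x' ∈ PP Γ' (st Γ' (t v))`, so `x' * gen (t v) * x'⁻¹ = g v * gen (t v) * (g v)⁻¹` (`st_comm`).

`chamber`: apply `chamber1` to `Φ` and to `Ψ` (`emp_symm`) and choose functions `f`, `t`, `f'`, `t'`. `Ψ (Φ e) = e` gives
`x * gen v * x⁻¹ = f' (f x) * gen (t' (f x) (t x v)) * (f' (f x))⁻¹` for all `v`; by exponent sums `t' (f x) (t x v) = v`, and `(f' (f x))⁻¹ * x` commutes with all `gen v` so it is in all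
`PP Γ (st Γ v)` (`cen_gen`), so `f' (f x) = x` (`center`). The same for the other side. So `f` is a bijection and `t x` is a bijection with inverse `t' (f x)`.
-/

set_option autoImplicit false

namespace RaagIso

open Classical

section

variable {V V' : Type} {Γ : SimpleGraph V} {Γ' : SimpleGraph V'}

theorem center (hN : NoDom Γ) (h2 : ∃ a b : V, a ≠ b) {x : RA Γ} (h : ∀ v, x ∈ PP Γ (st Γ v)) :
    x = 1 := by
  apply sup_eq_empty
  rw [Set.eq_empty_iff_forall_notMem]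
  intro u hu
  have h1 : ∀ v, u ∈ st Γ v := fun v => mem_pp.1 (h v) hu
  obtain ⟨w, hw⟩ : ∃ w, w ≠ u := by
    obtain ⟨a, b, hab⟩ := h2
    by_cases h3 : a = u
    · exact ⟨b, fun h4 => hab (h3.trans h4.symm)⟩
    · exact ⟨a, h3⟩
  obtain ⟨z, hz1, hz2⟩ := hN w u hw
  apply hz2
  rcases h1 z with h3 | h3
  · exact Or.inl h3.symm
  · exact Or.inr h3.symm

theorem emp_symm {Φ : RA Γ → RA Γ'} {Ψ : RA Γ' → RA Γ} (h : Emp Φ Ψ) : Emp Ψ Φ where
  isE := h.isE'
  isE' := h.isE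
  left := h.right
  right := h.left
  comm := by
    intro e f he hf
    have h1 := h.comm (Ψ e) (Ψ f) (h.isE' e he) (h.isE' f hf)
    rw [h.right e he, h.right f hf] at h1
    exact h1.symm

theorem cnn_map {Φ : RA Γ → RA Γ'} {Ψ : RA Γ' → RA Γ} (h : Emp Φ Ψ) {e a b : RA Γ} (he : IsE e)
    (hab : Cnn e a b) : Cnn (Φ e) (Φ a) (Φ b) := by
  refine Relation.ReflTransGen.lift (r := Stp e) (p := Stp (Φ e)) Φ ?_ _ _ hab
  rintro c d ⟨h1, h2, h3, h4, h5⟩
  exact ⟨h.isE c h1, h.isE d h2, (h.comm c d h1 h2).1 h3, fun h6 => h4 ((h.comm c e h1 he).2 h6),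
    fun h6 => h5 ((h.comm d e h2 he).2 h6)⟩

theorem r03_isE (x : RA Γ) (v : V) : IsE (x * gen v * x⁻¹) := ⟨x, v, rfl⟩

theorem chamber1 [Finite V] (hN : NoDom Γ) (hS : NoSep Γ) {Φ : RA Γ → RA Γ'} {Ψ : RA Γ' → RA Γ}
    (h : Emp Φ Ψ) (x : RA Γ) :
    ∃ (x' : RA Γ') (t : V → V'), ∀ v, Φ (x * gen v * x⁻¹) = x' * gen (t v) * x'⁻¹ := by
  have h1 : ∀ v, ∃ (g : RA Γ') (t : V'), Φ (x * gen v * x⁻¹) = g * gen t * g⁻¹ :=
    fun v => h.isE _ (r03_isE x v)
  choose g t hgt using h1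
  have h3 : ∀ v w, ∃ p ∈ PP Γ' (st Γ' (t v)), ∃ q ∈ PP Γ' (st Γ' (t w)), g v * p = g w * q := by
    intro v w
    by_contra h4
    obtain ⟨e, he, h5, h6, h7⟩ := sepr (g v) (g w) (t v) (t w) h4
    have he' : IsE (Ψ e) := h.isE' e he
    have h8 : ∀ u, g u * gen (t u) * (g u)⁻¹ * e ≠ e * (g u * gen (t u) * (g u)⁻¹) →
        x * gen u * x⁻¹ * Ψ e ≠ Ψ e * (x * gen u * x⁻¹) := by
      intro u hu h9
      apply hu
      have h10 := (h.comm _ (Ψ e) (r03_isE x u) he').1 h9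
      rw [h.right e he, hgt u] at h10
      exact h10
    have h9 := insep hN hS x he' (h8 v h5) (h8 w h6)
    have h10 := cnn_map h he' h9
    rw [h.right e he, hgt v, hgt w] at h10
    exact h7 h10
  obtain ⟨y, hy⟩ := helly g (fun v => st Γ' (t v)) h3
  refine ⟨y, t, fun v => ?_⟩
  have h4 := st_comm (hy v)
  rw [hgt v]
  have h5 : y = g v * ((g v)⁻¹ * y) := by group
  rw [h5, mul_inv_rev]
  have h6 : g v * ((g v)⁻¹ * y) * gen (t v) * (((g v)⁻¹ * y)⁻¹ * (g v)⁻¹) =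
      g v * (((g v)⁻¹ * y) * gen (t v)) * ((g v)⁻¹ * y)⁻¹ * (g v)⁻¹ := by group
  rw [h6, ← h4]
  group

theorem r03_conj {x y : RA Γ} {v w : V} (h : x * gen v * x⁻¹ = y * gen w * y⁻¹) : v = w := by
  have h1 := zpow_eq (Γ := Γ) (v := v) (w := w) (n := 1) (m := 1) one_ne_zero (x := x) (y := y)
    (by rw [zpow_one, zpow_one]; exact h)
  exact h1.2.1

theorem r03_pair (hN : NoDom Γ) (h2 : ∃ a b : V, a ≠ b) {Φ : RA Γ → RA Γ'} {Ψ : RA Γ' → RA Γ}
    (h : Emp Φ Ψ) {f : RA Γ → RA Γ'} {t : RA Γ → V → V'} {f' : RA Γ' → RA Γ} {t' : RA Γ' → V' → V}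
    (hf : ∀ x v, Φ (x * gen v * x⁻¹) = f x * gen (t x v) * (f x)⁻¹)
    (hf' : ∀ y w, Ψ (y * gen w * y⁻¹) = f' y * gen (t' y w) * (f' y)⁻¹) (x : RA Γ) :
    f' (f x) = x ∧ ∀ v, t' (f x) (t x v) = v := by
  have h1 : ∀ v, x * gen v * x⁻¹ = f' (f x) * gen (t' (f x) (t x v)) * (f' (f x))⁻¹ := by
    intro v
    rw [← hf', ← hf, h.left _ (r03_isE x v)]
  have h3 : ∀ v, t' (f x) (t x v) = v := fun v => (r03_conj (h1 v)).symm
  refine ⟨?_, h3⟩
  have h4 : (f' (f x))⁻¹ * x = 1 := by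
    apply center hN h2
    intro v
    have h5 := h1 v
    rw [h3 v] at h5
    apply cen_gen (n := 1) one_ne_zero
    rw [zpow_one]
    have h6 : (f' (f x))⁻¹ * x * gen v = (f' (f x))⁻¹ * (x * gen v * x⁻¹) * x := by group
    rw [h6, h5]
    group
  exact (inv_mul_eq_one.1 h4)

theorem chamber [Finite V] [Finite V'] (hN : NoDom Γ) (hS : NoSep Γ) (hN' : NoDom Γ')
    (hS' : NoSep Γ') (h2 : ∃ a b : V, a ≠ b) (h2' : ∃ a b : V', a ≠ b) {Φ : RA Γ → RA Γ'}
    {Ψ : RA Γ' → RA Γ} (h : Emp Φ Ψ) :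
    ∃ (f : RA Γ ≃ RA Γ') (τ : RA Γ → V ≃ V'),
      ∀ x v, Φ (x * gen v * x⁻¹) = f x * gen (τ x v) * (f x)⁻¹ := by
  choose f t hf using fun x => chamber1 hN hS h x
  choose f' t' hf' using fun y => chamber1 hN' hS' (emp_symm h) y
  have p1 := r03_pair hN h2 h hf hf'
  have p2 := r03_pair hN' h2' (emp_symm h) hf' hf
  refine ⟨⟨f, f', fun x => (p1 x).1, fun y => (p2 y).1⟩, fun x =>
    ⟨t x, t' (f x), fun v => (p1 x).2 v, fun w => ?_⟩, fun x v => hf x v⟩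
  have h3 := (p2 (f x)).2 w
  rw [(p1 x).1] at h3
  exact h3

end

end RaagIso
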