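import Mathlib

/-!
# Right-angled Artin groups: basic definitions
-/

set_option autoImplicit false

namespace RaagIso

section

variable {V : Type} (Γ : SimpleGraph V)

/-- the relators of the right-angled Artin group -/
def rels : Set (FreeGroup V) :=
  {r | ∃ v w, Γ.Adj v w ∧
    r = FreeGroup.of v * FreeGroup.of w * (FreeGroup.of v)⁻¹ * (FreeGroup.of w)⁻¹}

/-- the right-angled Artin group of the graph `Γ` -/
abbrev RA : Type := PresentedGroup (rels Γ)

/-- link of a vertex -/
def lk (v : V) : Set V := {w | Γ.Adj v w}

/-- star of a vertex -/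
def st (v : V) : Set V := {w | w = v ∨ Γ.Adj v w}

/-- no vertex is dominated by another one -/
def NoDom : Prop := ∀ v w, v ≠ w → ∃ u, Γ.Adj v u ∧ u ∉ st Γ w

/-- no star separates: a set which is closed under adjacency in the complement of `st v` and
meets this complement contains it -/
def NoSep : Prop := ∀ v : V, ∀ K : Set V,
  (∀ a b, a ∈ K → a ∉ st Γ v → b ∉ st Γ v → Γ.Adj a b → b ∈ K) →
  ∀ a b, a ∈ K → a ∉ st Γ v → b ∉ st Γ v → b ∈ K

end

section

variable {V : Type} {Γ : SimpleGraph V}

/-- the generators -/
def gen (v : V) : RA Γ := PresentedGroup.of v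

/-- the standard subgroup generated by a set of vertices -/
def PP (Γ : SimpleGraph V) (D : Set V) : Subgroup (RA Γ) :=
  Subgroup.closure ((fun v => (gen v : RA Γ)) '' D)

/-- letters are generators with a sign -/
def gl (a : V × Bool) : RA Γ := if a.2 then gen a.1 else (gen a.1)⁻¹

/-- inverse letter -/
def ivl (a : V × Bool) : V × Bool := (a.1, !a.2)

/-- value of a word -/
def ev (l : List (V × Bool)) : RA Γ := (l.map gl).prod

end

end RaagIso
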