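import Pool.Agent.Lib.MP_32d917_al_raag.TDefs
import Pool.Agent.Lib.MP_32d917_al.TL1B

/-!
# T01: the tree of a generator is a tree
-/

set_option autoImplicit false

namespace RaagIso

open Classical LatIso

section

variable {V : Type} {Γ : SimpleGraph V}

/-- the side of a vertex with respect to the wall of `x` -/
noncomputable def sdt (s : V) (x : RA Γ) (c : TV Γ s) : ℤ := NN s c.out x

theorem sdt_mk (s : V) (x y : RA Γ) : sdt s x (y : TV Γ s) = NN s y x := by
  unfold sdt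
  obtain ⟨p, hp⟩ := QuotientGroup.mk_out_eq_mul (PP Γ ({s}ᶜ : Set V)) y
  rw [hp, nn_mul, nn_pp p.2 s (by simp), add_zero]

theorem sdt_step (s : V) (z x : RA Γ) : sdt s z ((x * gen s : RA Γ) : TV Γ s) =
    sdt s z (x : TV Γ s) + if x⁻¹ * z ∈ PP Γ (lk Γ s) then 1 else 0 := by
  rw [sdt_mk, sdt_mk, nn_mul, nn_gen]
  simp

theorem mk_mul_mem (s : V) (x : RA Γ) {p : RA Γ} (hp : p ∈ PP Γ ({s}ᶜ : Set V)) :
    ((x * p : RA Γ) : TV Γ s) = (x : TV Γ s) := by
  refine (QuotientGroup.eq.2 ?_).symm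
  simpa using hp

theorem mk_lk (s : V) {x y : RA Γ} (h : x⁻¹ * y ∈ PP Γ (lk Γ s)) :
    (x : TV Γ s) = (y : TV Γ s) ∧ ((x * gen s : RA Γ) : TV Γ s) = ((y * gen s : RA Γ) : TV Γ s) := by
  have h1 : lk Γ s ⊆ ({s}ᶜ : Set V) := by
    intro w hw
    simp only [Set.mem_compl_iff, Set.mem_singleton_iff]
    rintro rfl
    exact Γ.loopless.irrefl _ hw
  refine ⟨QuotientGroup.eq.2 (pp_mono h1 h), QuotientGroup.eq.2 ?_⟩
  have h2 := lk_comm h
  have h3 : (x * gen s)⁻¹ * (y * gen s) = x⁻¹ * y := by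
    have : (x * gen s)⁻¹ * (y * gen s) = (gen s)⁻¹ * (x⁻¹ * y * gen s) := by group
    rw [this, ← h2]
    group
  rw [h3]
  exact pp_mono h1 h

theorem tt_adj_gl (s : V) (x : RA Γ) {a : V × Bool} (ha : a.1 = s) :
    (TT Γ s).Adj (x : TV Γ s) ((x * gl a : RA Γ) : TV Γ s) := by
  obtain ⟨v, b⟩ := a
  subst ha
  cases b
  · refine ⟨x * (gen v)⁻¹, Or.inr ⟨?_, ?_⟩⟩
    · simp [gl]
    · simp
  · refine ⟨x, Or.inl ⟨rfl, ?_⟩⟩
    simp [gl]

theorem tt_eq_gl (s : V) (x : RA Γ) {a : V × Bool} (ha : a.1 ≠ s) :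
    ((x * gl a : RA Γ) : TV Γ s) = (x : TV Γ s) :=
  mk_mul_mem s x (gl_mem (by simpa using ha))

theorem tt_walk (s : V) (l : List (V × Bool)) (x : RA Γ) :
    ∃ p : (TT Γ s).Walk (x : TV Γ s) ((x * ev l : RA Γ) : TV Γ s),
      p.length = l.countP (fun a => a.1 = s) := by
  induction l generalizing x with
  | nil =>
    rw [ev_nil, mul_one]
    exact ⟨SimpleGraph.Walk.nil, rfl⟩
  | cons a l ih =>
    obtain ⟨p, hp⟩ := ih (x * gl a)
    rw [ev_cons, ← mul_assoc]
    by_cases ha : a.1 = s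
    · refine ⟨SimpleGraph.Walk.cons (tt_adj_gl s x ha) p, ?_⟩
      rw [SimpleGraph.Walk.length_cons, hp, List.countP_cons_of_pos (by simpa using ha)]
    · refine ⟨p.copy (tt_eq_gl s x ha) rfl, ?_⟩
      rw [SimpleGraph.Walk.length_copy, hp, List.countP_cons_of_neg (by simpa using ha)]

theorem tt_conn (s : V) : (TT Γ s).Connected := by
  have : Nonempty (TV Γ s) := ⟨bv Γ s⟩
  refine SimpleGraph.Connected.mk ?_
  have h : ∀ c, (TT Γ s).Reachable (bv Γ s) c := by
    intro c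
    obtain ⟨y, rfl⟩ := QuotientGroup.mk_surjective c
    obtain ⟨l, rfl⟩ := ev_surj y
    obtain ⟨p, -⟩ := tt_walk (Γ := Γ) s l 1
    rw [one_mul] at p
    exact ⟨p⟩
  intro a b
  exact (h a).symm.trans (h b)

theorem tt_acyclic (s : V) : (TT Γ s).IsAcyclic := by
  rw [SimpleGraph.isAcyclic_iff_forall_adj_isBridge]
  intro a b hab
  rw [SimpleGraph.isBridge_iff]
  have key : ∀ x : RA Γ, ¬ ((TT Γ s) \ SimpleGraph.fromEdgeSet
      {s((x : TV Γ s), ((x * gen s : RA Γ) : TV Γ s))}).Reachable (x : TV Γ s)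
      ((x * gen s : RA Γ) : TV Γ s) := by
    rintro x ⟨p⟩
    have h1 : ∀ {u v : TV Γ s}, ((TT Γ s) \ SimpleGraph.fromEdgeSet
        {s((x : TV Γ s), ((x * gen s : RA Γ) : TV Γ s))}).Walk u v → sdt s x u = sdt s x v := by
      intro u v q
      induction q with
      | nil => rfl
      | @cons u w v h q ih =>
        rw [← ih]
        rw [SimpleGraph.sdiff_adj, SimpleGraph.fromEdgeSet_adj] at h
        obtain ⟨⟨y, h2⟩, h3⟩ := h
        by_cases h4 : y⁻¹ * x ∈ PP Γ (lk Γ s)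
        · exfalso
          apply h3
          obtain ⟨e1, e2⟩ := mk_lk s h4
          rcases h2 with ⟨h5, h6⟩ | ⟨h5, h6⟩
          · refine ⟨?_, ?_⟩
            · rw [h5, h6, e1, e2]
              exact Set.mem_singleton _
            · have : (TT Γ s).Adj u w := ⟨y, Or.inl ⟨h5, h6⟩⟩
              exact this.ne
          · refine ⟨?_, ?_⟩
            · rw [h5, h6, e1, e2, Sym2.eq_swap]
              exact Set.mem_singleton _
            · have : (TT Γ s).Adj u w := ⟨y, Or.inr ⟨h5, h6⟩⟩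
              exact this.ne
        · have h5 := sdt_step s x y
          rw [if_neg h4, add_zero] at h5
          rcases h2 with ⟨h6, h7⟩ | ⟨h6, h7⟩
          · rw [h6, h7, h5]
          · rw [h6, h7, h5]
    have h2 := h1 p
    have h3 := sdt_step s x x
    rw [if_pos (by rw [inv_mul_cancel]; exact one_mem _)] at h3
    omega
  obtain ⟨x, h | h⟩ := hab
  · obtain ⟨h1, h2⟩ := h
    rw [h1, h2]
    exact key x
  · obtain ⟨h1, h2⟩ := h
    rw [h1, h2, Sym2.eq_swap]
    exact fun h => key x h.symm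

/-- the height of a vertex -/
noncomputable def ht (s : V) (c : TV Γ s) : ℤ := Multiplicative.toAdd (ab Γ s c.out)

theorem ht_mk (s : V) (y : RA Γ) : ht s (y : TV Γ s) = Multiplicative.toAdd (ab Γ s y) := by
  unfold ht
  obtain ⟨p, hp⟩ := QuotientGroup.mk_out_eq_mul (PP Γ ({s}ᶜ : Set V)) y
  rw [hp, map_mul, ab_pp (v := s) (D := ({s}ᶜ : Set V)) (by simp) p.2, mul_one]

theorem ht_smul (s : V) (g : RA Γ) (c : TV Γ s) :
    ht s (g • c) = Multiplicative.toAdd (ab Γ s g) + ht s c := by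
  obtain ⟨y, rfl⟩ := QuotientGroup.mk_surjective c
  rw [MulAction.Quotient.smul_coe, ht_mk, ht_mk, smul_eq_mul, map_mul]
  rfl

theorem ht_adj (s : V) {a b : TV Γ s} (h : (TT Γ s).Adj a b) : ht s b = ht s a + 1 ∨ ht s a = ht s b + 1 := by
  have key : ∀ x : RA Γ, ht s ((x * gen s : RA Γ) : TV Γ s) = ht s (x : TV Γ s) + 1 := by
    intro x
    rw [ht_mk, ht_mk, map_mul, ab_gen, if_pos rfl]
    rfl
  obtain ⟨x, h | h⟩ := h
  · left
    rw [h.1, h.2, key]
  · right
    rw [h.1, h.2, key]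

theorem tt_ta (Γ : SimpleGraph V) (s : V) : TA (RA Γ) (TT Γ s) where
  tree := ⟨tt_conn s, tt_acyclic s⟩
  adj := by
    rintro g a b ⟨x, h | h⟩
    · obtain ⟨rfl, rfl⟩ := h
      refine ⟨g * x, Or.inl ⟨?_, ?_⟩⟩
      · rw [MulAction.Quotient.smul_coe, smul_eq_mul]
      · rw [MulAction.Quotient.smul_coe, smul_eq_mul, mul_assoc]
    · obtain ⟨rfl, rfl⟩ := h
      refine ⟨g * x, Or.inr ⟨?_, ?_⟩⟩
      · rw [MulAction.Quotient.smul_coe, smul_eq_mul]
      · rw [MulAction.Quotient.smul_coe, smul_eq_mul, mul_assoc]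
  noinv := by
    intro g a b h h1 h2
    have e1 := ht_smul s g a
    have e2 := ht_smul s g b
    rw [h1] at e1
    rw [h2] at e2
    have := ht_adj s h
    omega

theorem tt_stab (s : V) (g : RA Γ) : g • bv Γ s = bv Γ s ↔ g ∈ PP Γ ({s}ᶜ : Set V) := by
  unfold bv
  rw [MulAction.Quotient.smul_coe, smul_eq_mul, mul_one, QuotientGroup.eq, mul_one, inv_mem_iff]

theorem tt_le (s : V) (l : List (V × Bool)) :
    (TT Γ s).dist (bv Γ s) ((ev l : RA Γ) • bv Γ s) ≤ l.countP (fun a => a.1 = s) := by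
  obtain ⟨p, hp⟩ := tt_walk (Γ := Γ) s l 1
  have h : (ev l : RA Γ) • bv Γ s = ((1 * ev l : RA Γ) : TV Γ s) := by
    unfold bv
    rw [MulAction.Quotient.smul_coe, smul_eq_mul, mul_one, one_mul]
  rw [h, ← hp]
  exact SimpleGraph.dist_le p

theorem tt_cross (s : V) {a b : TV Γ s} (p : (TT Γ s).Walk a b) :
    ∃ L : List (RA Γ), L.length ≤ p.length ∧ ∀ z, sdt s z a ≠ sdt s z b →
      ∃ z' ∈ L, z⁻¹ * z' ∈ PP Γ (lk Γ s) := by
  induction p with
  | nil => exact ⟨[], le_refl _, fun z h => absurd rfl h⟩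
  | @cons u w v h q ih =>
    obtain ⟨L, hL, hL'⟩ := ih
    have h' := h
    obtain ⟨x, hx⟩ := h'
    refine ⟨x :: L, by rw [List.length_cons, SimpleGraph.Walk.length_cons]; omega, ?_⟩
    intro z hz
    by_cases h1 : x⁻¹ * z ∈ PP Γ (lk Γ s)
    · refine ⟨x, List.mem_cons_self, ?_⟩
      rw [← inv_mem_iff]
      simpa using h1
    · have h2 := sdt_step s z x
      rw [if_neg h1, add_zero] at h2
      have h3 : sdt s z u = sdt s z w := by
        rcases hx with hx | hx
        · rw [hx.1, hx.2, h2]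
        · rw [hx.1, hx.2, h2]
      rw [h3] at hz
      obtain ⟨z', hz', h4⟩ := hL' z hz
      exact ⟨z', List.mem_cons_of_mem _ hz', h4⟩

theorem wls_count (s : V) (x : RA Γ) (l : List (V × Bool)) :
    ((wls x l).filter (fun p => p.1 = s)).length = l.countP (fun a => a.1 = s) := by
  induction l generalizing x with
  | nil => rfl
  | cons a l ih =>
    rw [wls]
    by_cases ha : a.1 = s
    · rw [List.filter_cons_of_pos (by simpa using ha), List.countP_cons_of_pos (by simpa using ha),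
        List.length_cons, ih]
    · rw [List.filter_cons_of_neg (by simpa using ha), List.countP_cons_of_neg (by simpa using ha), ih]

theorem tt_len (s : V) {l : List (V × Bool)} (hl : WR Γ l) :
    (TT Γ s).dist (bv Γ s) ((ev l : RA Γ) • bv Γ s) = l.countP (fun a => a.1 = s) := by
  apply le_antisymm (tt_le s l)
  obtain ⟨p, hp⟩ := (tt_conn (Γ := Γ) s).exists_walk_length_eq_dist (bv Γ s) ((ev l : RA Γ) • bv Γ s)
  obtain ⟨L, hL, hL'⟩ := tt_cross s p
  rw [← hp, ← wls_count s (1 : RA Γ) l]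
  refine le_trans ?_ hL
  set W := (wls (1 : RA Γ) l).filter (fun p => p.1 = s) with hW
  have hmem : ∀ i : Fin W.length, W.get i ∈ wls (1 : RA Γ) l ∧ (W.get i).1 = s := by
    intro i
    have h1 : W.get i ∈ W := List.get_mem _ _
    have h2 := List.mem_filter.1 (hW ▸ h1 : W.get i ∈ (wls (1 : RA Γ) l).filter (fun p => p.1 = s))
    exact ⟨h2.1, by simpa using h2.2⟩
  have h1 : ∀ i : Fin W.length, ∃ j : Fin L.length,
      ((W.get i).2)⁻¹ * L.get j ∈ PP Γ (lk Γ s) := by
    intro i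
    obtain ⟨h2, h3⟩ := hmem i
    have h4 := nn_wr (s := s) (z := (W.get i).2) hl ⟨_, h2, ⟨h3, by
      rw [inv_mul_cancel]; exact one_mem _⟩⟩
    have h5 : sdt s (W.get i).2 (bv Γ s) ≠ sdt s (W.get i).2 ((ev l : RA Γ) • bv Γ s) := by
      unfold bv
      rw [MulAction.Quotient.smul_coe, smul_eq_mul, mul_one, sdt_mk, sdt_mk, nn_one]
      rcases h4 with h4 | h4 <;> rw [h4] <;> simp
    obtain ⟨z', hz', h6⟩ := hL' _ h5
    obtain ⟨j, hj⟩ := List.get_of_mem hz'
    exact ⟨j, by rw [hj]; exact h6⟩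
  choose f hf using h1
  have hinj : Function.Injective f := by
    intro i j hij
    have h3 := hf i
    rw [hij] at h3
    have h4 := hf j
    have h5 : Sw (W.get i) (W.get j) := by
      refine ⟨(hmem i).2.trans (hmem j).2.symm, ?_⟩
      rw [(hmem i).2]
      have h6 := mul_mem h3 (inv_mem h4)
      have e : (W.get i).2⁻¹ * L.get (f j) * ((W.get j).2⁻¹ * L.get (f j))⁻¹ =
          (W.get i).2⁻¹ * (W.get j).2 := by group
      rw [e] at h6
      exact h6
    have hl' : W.Pairwise fun p q => ¬ Sw p q := List.Pairwise.filter _ hl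
    rw [List.pairwise_iff_get] at hl'
    by_contra hne
    rcases lt_or_gt_of_ne hne with h7 | h7
    · exact hl' i j h7 h5
    · exact hl' j i h7 (sw_symm h5)
  have := Fintype.card_le_of_injective f hinj
  simpa using this

end

end RaagIso
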