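import Pool.Agent.Lib.MP_32d917_al_raag.W03
import Pool.Agent.Lib.MP_32d917_al.Defs

/-!
# The tree of a generator
-/

set_option autoImplicit false

namespace RaagIso

section

variable {V : Type}

/-- vertices of the tree of the generator `s` -/
abbrev TV (Γ : SimpleGraph V) (s : V) : Type := RA Γ ⧸ PP Γ ({s}ᶜ : Set V)

/-- the tree of the generator `s` -/
def TT (Γ : SimpleGraph V) (s : V) : SimpleGraph (TV Γ s) where
  Adj a b := ∃ x : RA Γ, (a = (x : TV Γ s) ∧ b = ((x * gen s : RA Γ) : TV Γ s)) ∨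
    (b = (x : TV Γ s) ∧ a = ((x * gen s : RA Γ) : TV Γ s))
  symm := by
    constructor
    rintro a b ⟨x, h | h⟩
    · exact ⟨x, Or.inr h⟩
    · exact ⟨x, Or.inl h⟩
  loopless := by
    constructor
    rintro a ⟨x, ⟨h1, h2⟩ | ⟨h1, h2⟩⟩
    all_goals
      rw [h1] at h2
      have h3 := QuotientGroup.eq.1 h2
      rw [inv_mul_cancel_left, gen_mem_iff] at h3
      exact h3 rfl

/-- the base vertex -/
def bv (Γ : SimpleGraph V) (s : V) : TV Γ s := ((1 : RA Γ) : TV Γ s)

end

end RaagIso
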