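import Pool.Agent.Lib.MP_32d917_al_raag.W01

/-!
# W02: walls crossed by a word, the cancellation lemma
-/

set_option autoImplicit false

namespace RaagIso

open Classical

section

variable {V : Type} {Γ : SimpleGraph V}

/-- walls crossed by the word `l` read from `x` -/
def wls (x : RA Γ) : List (V × Bool) → List (V × RA Γ)
  | [] => []
  | a :: l => (a.1, x * cw a) :: wls (x * gl a) l

/-- representatives of the same wall -/
def Sw (p q : V × RA Γ) : Prop := p.1 = q.1 ∧ p.2⁻¹ * q.2 ∈ PP Γ (lk Γ p.1)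

/-- reduced words: no wall is crossed twice -/
def WR (Γ : SimpleGraph V) (l : List (V × Bool)) : Prop :=
  (wls (1 : RA Γ) l).Pairwise fun p q => ¬ Sw p q

theorem sw_refl (p : V × RA Γ) : Sw p p := ⟨rfl, by rw [inv_mul_cancel]; exact one_mem _⟩

theorem sw_symm {p q : V × RA Γ} (h : Sw p q) : Sw q p := by
  obtain ⟨h1, h2⟩ := h
  refine ⟨h1.symm, ?_⟩
  rw [← h1, ← inv_mem_iff]
  simpa using h2

theorem sw_trans {p q r : V × RA Γ} (h : Sw p q) (h' : Sw q r) : Sw p r := by
  obtain ⟨h1, h2⟩ := h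
  obtain ⟨h3, h4⟩ := h'
  refine ⟨h1.trans h3, ?_⟩
  rw [← h1] at h4
  have := mul_mem h2 h4
  simpa [mul_assoc] using this

theorem sw_mul (y : RA Γ) (p q : V × RA Γ) : Sw (p.1, y * p.2) (q.1, y * q.2) ↔ Sw p q := by
  unfold Sw
  simp [mul_assoc]

theorem wls_append (x : RA Γ) (l m : List (V × Bool)) :
    wls x (l ++ m) = wls x l ++ wls (x * ev l) m := by
  induction l generalizing x with
  | nil => simp [wls, ev_nil]
  | cons a l ih => simp [wls, ih, ev_cons, mul_assoc]

theorem wls_mul (y x : RA Γ) (l : List (V × Bool)) :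
    wls (y * x) l = (wls x l).map fun p => (p.1, y * p.2) := by
  induction l generalizing x with
  | nil => rfl
  | cons a l ih => simp [wls, ← ih, mul_assoc]

theorem wls_length (x : RA Γ) (l : List (V × Bool)) : (wls x l).length = l.length := by
  induction l generalizing x with
  | nil => rfl
  | cons a l ih => simp [wls, ih]

theorem wls_pw (y x : RA Γ) (l : List (V × Bool)) :
    ((wls (y * x) l).Pairwise fun p q => ¬ Sw p q) ↔ (wls x l).Pairwise fun p q => ¬ Sw p q := by
  rw [wls_mul, List.pairwise_map]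
  constructor
  · intro h
    exact h.imp fun {p q} h' => by rwa [sw_mul] at h'
  · intro h
    exact h.imp fun {p q} h' => by rwa [sw_mul]

theorem wr_iff (x : RA Γ) (l : List (V × Bool)) :
    ((wls x l).Pairwise fun p q => ¬ Sw p q) ↔ WR Γ l := by
  unfold WR
  rw [← wls_pw x 1 l, mul_one]

theorem wr_append {l m : List (V × Bool)} : WR Γ (l ++ m) ↔ WR Γ l ∧ WR Γ m ∧
    ∀ p ∈ wls (1 : RA Γ) l, ∀ q ∈ wls (ev l : RA Γ) m, ¬ Sw p q := by
  unfold WR
  rw [wls_append, List.pairwise_append, one_mul]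
  rw [wr_iff (ev l) m]
  rfl

theorem wr_mid {p l q : List (V × Bool)} (h : WR Γ (p ++ l ++ q)) : WR Γ l := by
  have h1 := (wr_append.1 h).1
  exact (wr_append.1 h1).2.1

theorem wr_cons {a : V × Bool} {l : List (V × Bool)} : WR Γ (a :: l) ↔ WR Γ l ∧
    ∀ q ∈ wls (gl a : RA Γ) l, ¬ Sw (a.1, cw a) q := by
  unfold WR
  rw [wls, List.pairwise_cons, one_mul, one_mul]
  rw [wr_iff (gl a) l]
  unfold WR
  exact and_comm

/-- the crossing number along a word -/
noncomputable def nnl (s : V) (z x : RA Γ) : List (V × Bool) → ℤ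
  | [] => 0
  | a :: l => (if a.1 = s ∧ (x * cw a)⁻¹ * z ∈ PP Γ (lk Γ s) then sg a else 0) + nnl s z (x * gl a) l

theorem nn_ev (s : V) (z x : RA Γ) (l : List (V × Bool)) : NN s (ev l) (x⁻¹ * z) = nnl s z x l := by
  induction l generalizing x with
  | nil => simp [nnl, ev_nil, nn_one]
  | cons a l ih =>
    rw [ev_cons, nn_mul, nnl, nn_gl]
    congr 1
    · simp [mul_assoc]
    · rw [← ih]
      simp [mul_assoc]

theorem nnl_zero {s : V} {z x : RA Γ} {l : List (V × Bool)} (h : ∀ p ∈ wls x l, ¬ Sw p (s, z)) :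
    nnl s z x l = 0 := by
  induction l generalizing x with
  | nil => rfl
  | cons a l ih =>
    rw [wls] at h
    rw [nnl, ih (fun p hp => h p (List.mem_cons_of_mem _ hp)), if_neg, add_zero]
    rintro ⟨h1, h2⟩
    refine h _ (List.mem_cons_self) ⟨h1, ?_⟩
    rw [← h1] at h2
    exact h2

/-- walls with non zero crossing number are crossed -/
theorem nn_cross {s : V} {z : RA Γ} {l : List (V × Bool)} (h : NN s (ev l) z ≠ 0) :
    ∃ p ∈ wls (1 : RA Γ) l, Sw p (s, z) := by
  by_contra h1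
  push Not at h1
  apply h
  have := nn_ev s z 1 l
  rw [inv_one, one_mul] at this
  rw [this]
  exact nnl_zero h1

theorem sg_ne (a : V × Bool) : sg a = 1 ∨ sg a = -1 := by
  unfold sg
  split_ifs
  · exact Or.inl rfl
  · exact Or.inr rfl

theorem nnl_wr {s : V} {z x : RA Γ} {l : List (V × Bool)} (hl : WR Γ l)
    (h : ∃ p ∈ wls x l, Sw p (s, z)) : nnl s z x l = 1 ∨ nnl s z x l = -1 := by
  induction l generalizing x with
  | nil => obtain ⟨p, hp, -⟩ := h; simp [wls] at hp
  | cons a l ih =>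
    obtain ⟨p, hp, hsw⟩ := h
    rw [wls] at hp
    have hl' := hl
    rw [← wr_iff x, wls, List.pairwise_cons] at hl'
    rcases List.mem_cons.1 hp with rfl | hp
    · have h0 : nnl s z (x * gl a) l = 0 := by
        apply nnl_zero
        intro q hq hq'
        exact hl'.1 q hq (sw_trans hsw (sw_symm hq'))
      rw [nnl, h0, add_zero, if_pos]
      · exact sg_ne a
      · obtain ⟨h1, h2⟩ := hsw
        simp only at h1 h2
        subst h1
        exact ⟨rfl, h2⟩
    · rw [nnl, if_neg, zero_add]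
      · exact ih ((wr_iff (x * gl a) l).1 hl'.2) ⟨p, hp, hsw⟩
      · rintro ⟨h1, h2⟩
        apply hl'.1 p hp
        refine sw_trans (q := (s, z)) ⟨h1, ?_⟩ (sw_symm hsw)
        subst h1
        exact h2

/-- the walls crossed by a reduced word have crossing number `1` or `-1` -/
theorem nn_wr {s : V} {z : RA Γ} {l : List (V × Bool)} (hl : WR Γ l)
    (h : ∃ p ∈ wls (1 : RA Γ) l, Sw p (s, z)) : NN s (ev l : RA Γ) z = 1 ∨ NN s (ev l : RA Γ) z = -1 := by
  have h2 := nn_ev s z 1 l
  rw [inv_one, one_mul] at h2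
  rw [h2]
  exact nnl_wr hl h

theorem wls_types {x : RA Γ} {l : List (V × Bool)} {c : V × Bool} (hc : c ∈ l) :
    ∃ z, (c.1, z) ∈ wls x l := by
  induction l generalizing x with
  | nil => simp at hc
  | cons a l ih =>
    rcases List.mem_cons.1 hc with rfl | hc
    · exact ⟨x * cw c, by rw [wls]; exact List.mem_cons_self⟩
    · obtain ⟨z, hz⟩ := ih (x := x * gl a) hc
      exact ⟨z, by rw [wls]; exact List.mem_cons_of_mem _ hz⟩

theorem wls_types' {x : RA Γ} {l : List (V × Bool)} {p : V × RA Γ} (hp : p ∈ wls x l) :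
    ∃ c ∈ l, c.1 = p.1 := by
  induction l generalizing x with
  | nil => simp [wls] at hp
  | cons a l ih =>
    rw [wls] at hp
    rcases List.mem_cons.1 hp with rfl | hp
    · exact ⟨a, List.mem_cons_self, rfl⟩
    · obtain ⟨c, hc, h⟩ := ih hp
      exact ⟨c, List.mem_cons_of_mem _ hc, h⟩

/-- letters of a reduced word of an element of `PP Γ D` have types in `D` -/
theorem wr_types {D : Set V} {l : List (V × Bool)} (hl : WR Γ l) (h : (ev l : RA Γ) ∈ PP Γ D)
    {c : V × Bool} (hc : c ∈ l) : c.1 ∈ D := by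
  by_contra h1
  obtain ⟨z, hz⟩ := wls_types (x := (1 : RA Γ)) hc
  have h2 := nn_wr (s := c.1) (z := z) hl ⟨_, hz, sw_refl _⟩
  rw [nn_pp h c.1 h1] at h2
  simp at h2

/-- the cancellation lemma -/
theorem lemK {a b : V × Bool} {m : List (V × Bool)} (h1 : WR Γ (a :: m))
    (h : Sw ((a.1, cw a) : V × RA Γ) (b.1, gl a * ev m * cw b)) :
    b = ivl a ∧ ∀ c ∈ m, Γ.Adj a.1 c.1 := by
  obtain ⟨s, e⟩ := a
  obtain ⟨t, e'⟩ := b
  obtain ⟨hst, h⟩ := h
  simp only at hst
  subst hst
  obtain ⟨h2, h3⟩ := wr_cons.1 h1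
  have hs : s ∉ lk Γ s := fun h => Γ.loopless.irrefl s h
  have key : (ev m : RA Γ) ∈ PP Γ (lk Γ s) → ∀ c ∈ m, Γ.Adj s c.1 := fun hu c hc => wr_types h2 hu hc
  cases e <;> cases e'
  · -- `a` and `b` negative
    exfalso
    simp only [cw, gl, Bool.false_eq_true, if_false, inv_inv, mul_assoc, mul_inv_cancel_left] at h
    have h4 : NN s (ev m : RA Γ) 1 ≠ 0 := by
      have h5 : (ev m : RA Γ) = (ev m * (gen s)⁻¹) * gen s := by group
      rw [h5, nn_mul, nn_pp h s hs, nn_gen, if_pos]
      · simp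
      · exact ⟨rfl, by rw [mul_one]; exact inv_mem h⟩
    obtain ⟨p, hp, hsw⟩ := nn_cross h4
    have h6 : (p.1, (gen s : RA Γ)⁻¹ * p.2) ∈ wls (gl (s, false) : RA Γ) m := by
      have := wls_mul (gl (s, false) : RA Γ) 1 m
      rw [mul_one] at this
      rw [this]
      refine List.mem_map.2 ⟨p, hp, by simp [gl]⟩
    apply h3 _ h6
    have h7 := (sw_mul (gen s : RA Γ)⁻¹ p (s, 1)).2 hsw
    apply sw_symm
    simpa [cw] using h7
  · -- `a` negative, `b` positive
    simp only [cw, gl, Bool.false_eq_true, if_false, if_true, inv_inv,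
      mul_inv_cancel_left, mul_one] at h
    exact ⟨rfl, key h⟩
  · -- `a` positive, `b` negative
    simp only [cw, gl, Bool.false_eq_true, if_false, if_true, inv_one, one_mul] at h
    refine ⟨rfl, key ?_⟩
    have h4 := lk_comm h
    have h5 : (ev m : RA Γ) = gen s * ev m * (gen s)⁻¹ := by
      have h6 : (gen s : RA Γ) * (gen s * ev m * (gen s)⁻¹) = gen s * ev m := by
        rw [h4]; group
      exact (mul_left_cancel h6).symm
    rw [h5]
    exact h
  · -- both positive
    exfalso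
    simp only [cw, gl, if_true, inv_one, one_mul, mul_one] at h
    have h4 : NN s (ev m : RA Γ) (gen s)⁻¹ ≠ 0 := by
      have h5 := nn_pp h s hs 1
      rw [nn_mul, nn_gen, if_pos ⟨rfl, one_mem _⟩, mul_one] at h5
      intro h6
      rw [h6] at h5
      simp at h5
    obtain ⟨p, hp, hsw⟩ := nn_cross h4
    have h6 : (p.1, (gen s : RA Γ) * p.2) ∈ wls (gl (s, true) : RA Γ) m := by
      have := wls_mul (gl (s, true) : RA Γ) 1 m
      rw [mul_one] at this
      rw [this]
      refine List.mem_map.2 ⟨p, hp, by simp [gl]⟩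
    apply h3 _ h6
    have h7 := (sw_mul (gen s : RA Γ) p (s, (gen s)⁻¹)).2 hsw
    apply sw_symm
    simpa [cw] using h7

theorem wls_split {x : RA Γ} {l : List (V × Bool)} {p : V × RA Γ} (hp : p ∈ wls x l) :
    ∃ l1 a l2, l = l1 ++ a :: l2 ∧ p = (a.1, x * ev l1 * cw a) := by
  induction l generalizing x with
  | nil => simp [wls] at hp
  | cons b l ih =>
    rw [wls] at hp
    rcases List.mem_cons.1 hp with rfl | hp
    · exact ⟨[], b, l, rfl, by rw [ev_nil, mul_one]⟩
    · obtain ⟨l1, a, l2, h1, h2⟩ := ih hp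
      refine ⟨b :: l1, a, l2, by rw [h1]; rfl, ?_⟩
      rw [h2, ev_cons]
      simp [mul_assoc]

/-- a word which is not reduced contains a cancelling pair -/
theorem not_wr {l : List (V × Bool)} (h : ¬ WR Γ l) : ∃ p a m q,
    l = p ++ a :: m ++ ivl a :: q ∧ ∀ c ∈ m, Γ.Adj a.1 c.1 := by
  induction l using List.reverseRecOn with
  | nil => exact absurd (by simp [WR, wls]) h
  | append_singleton l b ih =>
    by_cases h1 : WR Γ l
    · rw [wr_append] at h
      push Not at h
      obtain ⟨p, hp, q, hq, hsw⟩ := h h1 (by simp [WR, wls])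
      obtain ⟨l1, a, l2, h2, h3⟩ := wls_split hp
      simp only [wls, List.mem_cons, List.not_mem_nil, or_false] at hq
      subst hq h3 h2
      have h4 : WR Γ (a :: l2) := (wr_append.1 h1).2.1
      have h5 : Sw ((a.1, cw a) : V × RA Γ) (b.1, gl a * ev l2 * cw b) := by
        rw [← sw_mul (ev l1)]
        rw [ev_append, ev_cons, one_mul] at hsw
        simpa [mul_assoc] using hsw
      obtain ⟨h6, h7⟩ := lemK h4 h5
      exact ⟨l1, a, l2, [], by simp [h6], h7⟩
    · obtain ⟨p, a, m, q, h2, h3⟩ := ih h1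
      exact ⟨p, a, m, q ++ [b], by rw [h2]; simp, h3⟩

theorem ev_lk {a : V × Bool} {m : List (V × Bool)} (h : ∀ c ∈ m, Γ.Adj a.1 c.1) :
    (ev m : RA Γ) ∈ PP Γ (lk Γ a.1) := by
  induction m with
  | nil => exact one_mem _
  | cons b m ih =>
    rw [ev_cons]
    exact mul_mem (gl_mem (h b List.mem_cons_self)) (ih fun c hc => h c (List.mem_cons_of_mem _ hc))

theorem gl_comm {a : V × Bool} {x : RA Γ} (hx : x ∈ PP Γ (lk Γ a.1)) : gl a * x = x * gl a := by
  unfold gl
  split_ifs
  · exact lk_comm hx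
  · have := lk_comm hx
    rw [inv_mul_eq_iff_eq_mul, ← mul_assoc, this]
    group

/-- shortest words are reduced -/
theorem wr_of_short {l : List (V × Bool)} (h : ∀ l', (ev l' : RA Γ) = ev l → l.length ≤ l'.length) :
    WR Γ l := by
  by_contra h1
  obtain ⟨p, a, m, q, rfl, h2⟩ := not_wr h1
  have h3 := h (p ++ m ++ q) (by
    rw [ev_append, ev_append, ev_append, ev_append, ev_cons, ev_cons, gl_ivl, gl_comm (ev_lk h2)]
    group)
  simp only [List.length_append, List.length_cons] at h3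
  omega

theorem exists_wr (x : RA Γ) : ∃ l, ev l = x ∧ WR Γ l := by
  have h : ∃ n, ∃ l, l.length = n ∧ (ev l : RA Γ) = x := by
    obtain ⟨l, hl⟩ := ev_surj x
    exact ⟨_, l, rfl, hl⟩
  obtain ⟨l, h1, h2⟩ := Nat.find_spec h
  refine ⟨l, h2, wr_of_short fun l' hl' => ?_⟩
  rw [h1]
  exact Nat.find_min' h ⟨l', rfl, hl'.trans h2⟩

/-- reduced words are shortest words -/
theorem wr_le {l l' : List (V × Bool)} (hl : WR Γ l) (h : (ev l' : RA Γ) = ev l) :
    l.length ≤ l'.length := by
  have h1 : ∀ i : Fin (wls (1 : RA Γ) l).length, ∃ j : Fin (wls (1 : RA Γ) l').length,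
      Sw ((wls (1 : RA Γ) l').get j) ((wls (1 : RA Γ) l).get i) := by
    intro i
    have h2 := nn_wr (s := ((wls (1 : RA Γ) l).get i).1) (z := ((wls (1 : RA Γ) l).get i).2) hl
      ⟨_, List.get_mem _ _, sw_refl _⟩
    rw [← h] at h2
    obtain ⟨p, hp, hsw⟩ := nn_cross (l := l') (s := ((wls (1 : RA Γ) l).get i).1)
      (z := ((wls (1 : RA Γ) l).get i).2) (by rcases h2 with h2 | h2 <;> rw [h2] <;> simp)
    obtain ⟨j, hj⟩ := List.get_of_mem hp
    exact ⟨j, by rw [hj]; exact hsw⟩
  choose f hf using h1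
  have hinj : Function.Injective f := by
    intro i j hij
    have h3 := hf i
    rw [hij] at h3
    have h4 := sw_trans (sw_symm h3) (hf j)
    have hl' := hl
    unfold WR at hl'
    rw [List.pairwise_iff_get] at hl'
    by_contra hne
    rcases lt_or_gt_of_ne hne with h5 | h5
    · exact hl' i j h5 h4
    · exact hl' j i h5 (sw_symm h4)
  have := Fintype.card_le_of_injective f hinj
  simpa [wls_length] using this

/-- word length -/
noncomputable def len (x : RA Γ) : ℕ := sInf {n | ∃ l, l.length = n ∧ ev l = x}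

theorem len_le (l : List (V × Bool)) : len (ev l : RA Γ) ≤ l.length :=
  Nat.sInf_le ⟨l, rfl, rfl⟩

theorem len_wr {l : List (V × Bool)} (hl : WR Γ l) : len (ev l : RA Γ) = l.length := by
  apply le_antisymm (len_le l)
  have h : {n | ∃ l', l'.length = n ∧ (ev l' : RA Γ) = ev l}.Nonempty := ⟨_, l, rfl, rfl⟩
  obtain ⟨l', h1, h2⟩ := Nat.sInf_mem h
  unfold len
  rw [← h1]
  exact wr_le hl h2

theorem wr_iff_len {l : List (V × Bool)} : WR Γ l ↔ len (ev l : RA Γ) = l.length := by
  refine ⟨len_wr, fun h => wr_of_short fun l' hl' => ?_⟩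
  rw [← h, ← hl']
  exact len_le l'

/-- crossing numbers are `0`, `1` or `-1` -/
theorem nn_abs (s : V) (x z : RA Γ) : NN s x z = 0 ∨ NN s x z = 1 ∨ NN s x z = -1 := by
  obtain ⟨l, rfl, hl⟩ := exists_wr x
  by_cases h : ∃ p ∈ wls (1 : RA Γ) l, Sw p (s, z)
  · exact Or.inr (nn_wr hl h)
  · left
    by_contra h1
    exact h (nn_cross h1)

end

end RaagIso
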