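import Pool.Agent.Lib.MP_32d917_al_raag.W02

/-!
# W03: left and right letters, reduced products, supports, gates
-/

set_option autoImplicit false

namespace RaagIso

open Classical

section

variable {V : Type} {Γ : SimpleGraph V}

/-- `a` is a left letter of `x`: some reduced word of `x` begins with `a` (`lf_iff`) -/
def Lf (x : RA Γ) (a : V × Bool) : Prop := NN a.1 x (cw a) ≠ 0

/-- `a` is a right letter of `x`: some reduced word of `x` ends with `a` (`rt_iff`) -/
def Rt (x : RA Γ) (a : V × Bool) : Prop := Lf x⁻¹ (ivl a)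

/-- the support: the types of the letters of reduced words -/
def sup (x : RA Γ) : Set V := {s | ∃ z, NN s x z ≠ 0}

/-- the product of `x` and `y` is reduced -/
def Rp (x y : RA Γ) : Prop := ∀ a, Rt x a → ¬ Lf y (ivl a)

theorem wr_nil : WR Γ ([] : List (V × Bool)) := by simp [WR, wls]

theorem sub_wr {p m q : List (V × Bool)} {a : V × Bool} (h : WR Γ (p ++ a :: m ++ ivl a :: q))
    (h1 : ∀ c ∈ m, Γ.Adj a.1 c.1) : False := by
  have h2 := wr_le (Γ := Γ) (l' := p ++ m ++ q) h (by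
    rw [ev_append, ev_append, ev_append, ev_append, ev_cons, ev_cons, gl_ivl, gl_comm (ev_lk h1)]
    group)
  simp only [List.length_append, List.length_cons] at h2
  omega

/-- a letter in front of a reduced word gives a reduced word or cancels -/
theorem cons_cases {l : List (V × Bool)} (hl : WR Γ l) (a : V × Bool) :
    WR Γ (a :: l) ∨ ∃ m q, l = m ++ ivl a :: q ∧ ∀ c ∈ m, Γ.Adj a.1 c.1 := by
  by_cases h : WR Γ (a :: l)
  · exact Or.inl h
  · right
    obtain ⟨p, b, m, q, h1, h2⟩ := not_wr h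
    cases p with
    | nil =>
      simp only [List.nil_append, List.cons_append, List.cons.injEq] at h1
      obtain ⟨rfl, rfl⟩ := h1
      exact ⟨m, q, rfl, h2⟩
    | cons c p =>
      simp only [List.cons_append, List.cons.injEq] at h1
      obtain ⟨rfl, rfl⟩ := h1
      exact absurd (sub_wr (by simpa using hl) h2) id

theorem wr_move {m q : List (V × Bool)} {a : V × Bool} (h : WR Γ (m ++ a :: q))
    (h1 : ∀ c ∈ m, Γ.Adj a.1 c.1) : WR Γ (a :: (m ++ q)) ∧
      (ev (a :: (m ++ q)) : RA Γ) = ev (m ++ a :: q) := by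
  have h2 : (ev (a :: (m ++ q)) : RA Γ) = ev (m ++ a :: q) := by
    rw [ev_cons, ev_append, ev_append, ev_cons, ← mul_assoc, gl_comm (ev_lk h1), mul_assoc]
  refine ⟨?_, h2⟩
  rw [wr_iff_len, h2, len_wr h]
  simp only [List.length_append, List.length_cons]
  omega

theorem ev_move_r {p t : List (V × Bool)} {a : V × Bool} (h : ∀ c ∈ t, Γ.Adj a.1 c.1) :
    (ev (p ++ t ++ [a]) : RA Γ) = ev (p ++ a :: t) := by
  rw [ev_append, ev_append, ev_append, ev_cons a t, gl_comm (ev_lk h), ev_cons, ev_nil, mul_one,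
    mul_assoc]

theorem gl_cw (a : V × Bool) : (gl (ivl a) : RA Γ) * cw a = cw (ivl a) := by
  rcases a with ⟨v, b⟩
  cases b <;> simp [gl, cw, ivl]

/-- left letters of the value of a reduced word -/
theorem lf_word {l : List (V × Bool)} (hl : WR Γ l) {b : V × Bool} (hb : Lf (ev l : RA Γ) b) :
    ∃ m q, l = m ++ b :: q ∧ ∀ c ∈ m, Γ.Adj b.1 c.1 := by
  rcases cons_cases hl (ivl b) with h | ⟨m, q, h1, h2⟩
  · exfalso
    obtain ⟨p, hp, hsw⟩ := nn_cross hb
    have h3 := (wr_cons.1 h).2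
    have h4 : (p.1, (gl (ivl b) : RA Γ) * p.2) ∈ wls (gl (ivl b) : RA Γ) l := by
      have := wls_mul (gl (ivl b) : RA Γ) 1 l
      rw [mul_one] at this
      rw [this]
      exact List.mem_map.2 ⟨p, hp, rfl⟩
    apply h3 _ h4
    have h5 := (sw_mul (gl (ivl b) : RA Γ) p (b.1, cw b)).2 hsw
    simp only [gl_cw] at h5
    exact sw_symm h5
  · rw [ivl_ivl] at h1
    exact ⟨m, q, h1, h2⟩

theorem lf_of_wr {a : V × Bool} {l : List (V × Bool)} (h : WR Γ (a :: l)) :
    Lf (ev (a :: l) : RA Γ) a := by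
  have h1 := nn_wr (s := a.1) (z := cw a) h ⟨(a.1, cw a), by rw [wls, one_mul]; exact List.mem_cons_self,
    sw_refl _⟩
  unfold Lf
  rcases h1 with h1 | h1 <;> rw [h1] <;> simp

theorem lf_iff {x : RA Γ} {a : V × Bool} : Lf x a ↔ ∃ l, WR Γ (a :: l) ∧ ev (a :: l) = x := by
  constructor
  · intro h
    obtain ⟨l, rfl, hl⟩ := exists_wr x
    obtain ⟨m, q, rfl, h1⟩ := lf_word hl h
    obtain ⟨h2, h3⟩ := wr_move hl h1
    exact ⟨_, h2, h3⟩
  · rintro ⟨l, h1, rfl⟩
    exact lf_of_wr h1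

theorem len_lf {x : RA Γ} {a : V × Bool} (h : Lf x a) : len ((gl a)⁻¹ * x) + 1 = len x := by
  obtain ⟨l, h1, rfl⟩ := lf_iff.1 h
  rw [len_wr h1, ev_cons, inv_mul_cancel_left, len_wr (wr_cons.1 h1).1]
  rfl

theorem len_nlf {x : RA Γ} {a : V × Bool} (h : ¬ Lf x (ivl a)) : len (gl a * x) = len x + 1 := by
  obtain ⟨l, rfl, hl⟩ := exists_wr x
  rcases cons_cases hl a with h1 | ⟨m, q, h1, h2⟩
  · rw [← ev_cons, len_wr h1, len_wr hl]
    rfl
  · exfalso
    subst h1
    obtain ⟨h3, h4⟩ := wr_move (a := ivl a) hl h2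
    rw [← h4] at h
    exact h (lf_of_wr h3)

theorem lf_gl_mul {x : RA Γ} {a : V × Bool} (h : ¬ Lf x (ivl a)) : Lf (gl a * x) a := by
  obtain ⟨l, rfl, hl⟩ := exists_wr x
  rcases cons_cases hl a with h1 | ⟨m, q, h1, h2⟩
  · rw [← ev_cons]
    exact lf_of_wr h1
  · exfalso
    subst h1
    obtain ⟨h3, h4⟩ := wr_move (a := ivl a) hl h2
    rw [← h4] at h
    exact h (lf_of_wr h3)

theorem lf_sup {x : RA Γ} {a : V × Bool} (h : Lf x a) : a.1 ∈ sup x := ⟨_, h⟩

theorem sup_ev {l : List (V × Bool)} (hl : WR Γ l) (s : V) :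
    s ∈ sup (ev l : RA Γ) ↔ ∃ c ∈ l, c.1 = s := by
  constructor
  · rintro ⟨z, hz⟩
    obtain ⟨p, hp, hsw⟩ := nn_cross hz
    obtain ⟨c, hc, h1⟩ := wls_types' hp
    exact ⟨c, hc, h1.trans hsw.1⟩
  · rintro ⟨c, hc, rfl⟩
    obtain ⟨z, hz⟩ := wls_types (x := (1 : RA Γ)) hc
    refine ⟨z, ?_⟩
    have h1 := nn_wr (s := c.1) (z := z) hl ⟨_, hz, sw_refl _⟩
    rcases h1 with h1 | h1 <;> rw [h1] <;> simp

theorem mem_pp {D : Set V} {x : RA Γ} : x ∈ PP Γ D ↔ sup x ⊆ D := by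
  constructor
  · intro h s hs
    obtain ⟨z, hz⟩ := hs
    by_contra h1
    exact hz (nn_pp h s h1 z)
  · intro h
    obtain ⟨l, rfl, hl⟩ := exists_wr x
    have h1 : ∀ c ∈ l, c.1 ∈ D := fun c hc => h ((sup_ev hl c.1).2 ⟨c, hc, rfl⟩)
    clear hl h
    induction l with
    | nil => exact one_mem _
    | cons a l ih =>
      rw [ev_cons]
      exact mul_mem (gl_mem (h1 a List.mem_cons_self)) (ih fun c hc => h1 c (List.mem_cons_of_mem _ hc))

theorem sup_one : sup (1 : RA Γ) = ∅ := by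
  ext s
  simp [sup, nn_one]

theorem sup_eq_empty {x : RA Γ} (h : sup x = ∅) : x = 1 := by
  have h1 : x ∈ PP Γ ∅ := mem_pp.2 (by rw [h])
  unfold PP at h1
  simpa using h1

theorem exists_lf {x : RA Γ} (hx : x ≠ 1) : ∃ a, Lf x a := by
  obtain ⟨l, rfl, hl⟩ := exists_wr x
  cases l with
  | nil => exact absurd rfl hx
  | cons a l => exact ⟨a, lf_of_wr hl⟩

theorem lf_adj {x : RA Γ} {a b : V × Bool} (ha : Lf x a) (hb : Lf x b) (hne : a ≠ b) :
    Γ.Adj a.1 b.1 := by
  obtain ⟨l, h1, rfl⟩ := lf_iff.1 ha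
  obtain ⟨m, q, h2, h3⟩ := lf_word h1 hb
  cases m with
  | nil =>
    simp only [List.nil_append, List.cons.injEq] at h2
    exact absurd h2.1 hne
  | cons c m =>
    simp only [List.cons_append, List.cons.injEq] at h2
    rw [h2.1]
    exact (h3 c List.mem_cons_self).symm

/-! ### inverses -/

theorem ev_rev (l : List (V × Bool)) : (ev (l.map ivl).reverse : RA Γ) = (ev l)⁻¹ := by
  induction l with
  | nil => simp [ev]
  | cons a l ih => rw [List.map_cons, List.reverse_cons, ev_append, ih, ev_cons]; simp [ev, gl_ivl]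

theorem len_inv (x : RA Γ) : len x⁻¹ = len x := by
  have h : ∀ x : RA Γ, len x⁻¹ ≤ len x := by
    intro x
    obtain ⟨l, rfl, hl⟩ := exists_wr x
    rw [← ev_rev, len_wr hl]
    refine (len_le _).trans ?_
    simp
  apply le_antisymm (h x)
  have := h x⁻¹
  rwa [inv_inv] at this

theorem len_one : len (1 : RA Γ) = 0 := by
  have := len_le (Γ := Γ) []
  simpa [ev_nil] using this

theorem len_eq_zero {x : RA Γ} (h : len x = 0) : x = 1 := by
  obtain ⟨l, rfl, hl⟩ := exists_wr x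
  rw [len_wr hl] at h
  rw [List.length_eq_zero_iff.1 h]
  rfl

theorem wr_rev {l : List (V × Bool)} (hl : WR Γ l) : WR Γ (l.map ivl).reverse := by
  rw [wr_iff_len, ev_rev, len_inv, len_wr hl]
  simp

theorem rev_rev (l : List (V × Bool)) : ((l.map ivl).reverse.map ivl).reverse = l := by
  rw [List.map_reverse, List.reverse_reverse, List.map_map]
  have : (ivl ∘ ivl : V × Bool → V × Bool) = id := funext ivl_ivl
  rw [this, List.map_id]

theorem sup_inv (x : RA Γ) : sup x⁻¹ = sup x := by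
  apply Set.Subset.antisymm
  · rw [← mem_pp]
    exact inv_mem (mem_pp.2 subset_rfl)
  · rw [← mem_pp]
    have : x⁻¹⁻¹ ∈ PP Γ (sup x⁻¹) := inv_mem (mem_pp.2 subset_rfl)
    rwa [inv_inv] at this

theorem rt_inv {x : RA Γ} {a : V × Bool} : Rt x⁻¹ a ↔ Lf x (ivl a) := by
  unfold Rt
  rw [inv_inv]

theorem lf_inv {x : RA Γ} {a : V × Bool} : Lf x⁻¹ a ↔ Rt x (ivl a) := by
  unfold Rt
  rw [ivl_ivl]

theorem rt_sup {x : RA Γ} {a : V × Bool} (h : Rt x a) : a.1 ∈ sup x := by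
  have := lf_sup h
  rwa [sup_inv] at this

theorem exists_rt {x : RA Γ} (hx : x ≠ 1) : ∃ a, Rt x a := by
  obtain ⟨a, ha⟩ := exists_lf (inv_ne_one.2 hx)
  exact ⟨ivl a, lf_inv.1 ha⟩

theorem rt_adj {x : RA Γ} {a b : V × Bool} (ha : Rt x a) (hb : Rt x b) (hne : a ≠ b) :
    Γ.Adj a.1 b.1 := by
  have h : ivl a ≠ ivl b := by
    intro h
    apply hne
    rw [← ivl_ivl a, h, ivl_ivl]
  have h1 : Lf x⁻¹ (ivl a) := ha
  have h2 : Lf x⁻¹ (ivl b) := hb
  exact lf_adj (a := ivl a) (b := ivl b) h1 h2 h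

theorem rt_word {l : List (V × Bool)} (hl : WR Γ l) {b : V × Bool} (hb : Rt (ev l : RA Γ) b) :
    ∃ m q, l = m ++ b :: q ∧ ∀ c ∈ q, Γ.Adj b.1 c.1 := by
  unfold Rt at hb
  rw [← ev_rev] at hb
  obtain ⟨m, q, h1, h2⟩ := lf_word (wr_rev hl) hb
  refine ⟨(q.map ivl).reverse, (m.map ivl).reverse, ?_, ?_⟩
  · have h3 : l = ((m ++ ivl b :: q).map ivl).reverse := by rw [← h1, rev_rev]
    rw [h3]
    simp [ivl_ivl]
  · intro c hc
    rw [List.mem_reverse, List.mem_map] at hc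
    obtain ⟨d, hd, rfl⟩ := hc
    exact h2 d hd

theorem rt_iff {x : RA Γ} {a : V × Bool} : Rt x a ↔ ∃ l, WR Γ (l ++ [a]) ∧ ev (l ++ [a]) = x := by
  unfold Rt
  rw [lf_iff]
  constructor
  · rintro ⟨l, h1, h2⟩
    refine ⟨(l.map ivl).reverse, ?_, ?_⟩
    · have := wr_rev h1
      simpa [ivl_ivl] using this
    · have h3 := ev_rev (Γ := Γ) (ivl a :: l)
      rw [h2, inv_inv] at h3
      rw [← h3]
      simp [ivl_ivl]
  · rintro ⟨l, h1, h2⟩
    refine ⟨(l.map ivl).reverse, ?_, ?_⟩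
    · have := wr_rev h1
      simpa using this
    · rw [← h2, ← ev_rev]
      simp

theorem len_rt {x : RA Γ} {a : V × Bool} (h : Rt x a) : len (x * (gl a)⁻¹) + 1 = len x := by
  have h1 := len_lf h
  rw [gl_ivl, inv_inv, len_inv] at h1
  rw [← len_inv (x * (gl a)⁻¹), mul_inv_rev, inv_inv]
  exact h1

theorem len_nrt {x : RA Γ} {a : V × Bool} (h : ¬ Rt x (ivl a)) : len (x * gl a) = len x + 1 := by
  have h1 : ¬ Lf x⁻¹ (ivl (ivl a)) := h
  have h2 := len_nlf h1
  rw [gl_ivl, len_inv] at h2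
  rw [← len_inv, mul_inv_rev]
  exact h2

/-! ### reduced products -/

theorem wr_app_iff {l m : List (V × Bool)} (hl : WR Γ l) (hm : WR Γ m) :
    WR Γ (l ++ m) ↔ Rp (ev l : RA Γ) (ev m) := by
  constructor
  · intro h a ha hb
    have h1 := len_rt ha
    have h2 := len_lf hb
    have h3 := len_wr h
    rw [gl_ivl, inv_inv] at h2
    have h4 : (ev (l ++ m) : RA Γ) = (ev l * (gl a)⁻¹) * (gl a * ev m) := by
      rw [ev_append]; group
    obtain ⟨l', h5, h6⟩ := exists_wr ((ev l : RA Γ) * (gl a)⁻¹)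
    obtain ⟨m', h7, h8⟩ := exists_wr (gl a * (ev m : RA Γ))
    have h9 := len_le (Γ := Γ) (l' ++ m')
    rw [ev_append, h5, h7, ← h4, h3] at h9
    rw [← h5, len_wr h6, len_wr hl] at h1
    rw [← h7, len_wr h8, len_wr hm] at h2
    simp only [List.length_append] at h9
    omega
  · intro h
    by_contra h1
    obtain ⟨p, a, k, q, h2, h3⟩ := not_wr h1
    have h2' : l ++ m = p ++ (a :: k ++ ivl a :: q) := by rw [h2]; simp
    rcases List.append_eq_append_iff.1 h2' with ⟨t, h4, h5⟩ | ⟨t, h4, h5⟩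
    · -- the pair lies in `m`
      subst h5
      exact sub_wr (p := t) (a := a) (m := k) (q := q) (by simpa using hm) h3
    · -- `l = p ++ t`
      cases t with
      | nil =>
        simp only [List.nil_append] at h5
        rw [← h5] at hm
        exact sub_wr (p := []) (a := a) (m := k) (q := q) (by simpa using hm) h3
      | cons b t =>
        simp only [List.cons_append, List.cons.injEq] at h5
        obtain ⟨rfl, h5⟩ := h5
        rcases List.append_eq_append_iff.1 h5 with ⟨u, h6, h7⟩ | ⟨u, h6, h7⟩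
        · -- `t = k ++ u`
          cases u with
          | nil =>
            simp only [List.append_nil, List.nil_append] at h6 h7
            subst h6 h7 h4
            refine h a ?_ ?_
            · rw [rt_iff]
              refine ⟨p ++ t, ?_, ?_⟩
              · rw [wr_iff_len]
                rw [ev_move_r h3, len_wr hl]
                simp only [List.length_append, List.length_cons, List.length_nil]
                omega
              · exact ev_move_r h3
            · exact lf_of_wr hm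
          | cons c u =>
            simp only [List.cons_append, List.cons.injEq] at h7
            obtain ⟨rfl, h7⟩ := h7
            subst h6 h4
            exact sub_wr (p := p) (a := a) (m := k) (q := u) (by simpa using hl) h3
        · -- `k = t ++ u`
          subst h6 h4
          refine h a ?_ ?_
          · rw [rt_iff]
            have h8 : ∀ c ∈ t, Γ.Adj a.1 c.1 := fun c hc => h3 c (List.mem_append_left _ hc)
            have h9 : (ev (p ++ t ++ [a]) : RA Γ) = ev (p ++ a :: t) := ev_move_r h8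
            refine ⟨p ++ t, ?_, h9⟩
            rw [wr_iff_len, h9, len_wr hl]
            simp only [List.length_append, List.length_cons, List.length_nil]
            omega
          · subst h7
            have h8 : ∀ c ∈ u, Γ.Adj (ivl a).1 c.1 := fun c hc => h3 c (List.mem_append_right _ hc)
            obtain ⟨h9, h10⟩ := wr_move hm h8
            rw [← h10]
            exact lf_of_wr h9

theorem rp_len {x y : RA Γ} : Rp x y ↔ len (x * y) = len x + len y := by
  obtain ⟨l, rfl, hl⟩ := exists_wr x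
  obtain ⟨m, rfl, hm⟩ := exists_wr y
  rw [← wr_app_iff hl hm, wr_iff_len, ev_append, len_wr hl, len_wr hm, List.length_append]

theorem rp_inv {x y : RA Γ} : Rp x y ↔ Rp y⁻¹ x⁻¹ := by
  rw [rp_len, rp_len, ← len_inv (x * y), mul_inv_rev, len_inv x, len_inv y, add_comm (len y)]

theorem sup_mul {x y : RA Γ} (h : Rp x y) : sup (x * y) = sup x ∪ sup y := by
  obtain ⟨l, rfl, hl⟩ := exists_wr x
  obtain ⟨m, rfl, hm⟩ := exists_wr y
  have h1 := (wr_app_iff hl hm).2 h
  ext s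
  rw [← ev_append, sup_ev h1, Set.mem_union, sup_ev hl, sup_ev hm]
  constructor
  · rintro ⟨c, hc, rfl⟩
    rcases List.mem_append.1 hc with hc | hc
    · exact Or.inl ⟨c, hc, rfl⟩
    · exact Or.inr ⟨c, hc, rfl⟩
  · rintro (⟨c, hc, rfl⟩ | ⟨c, hc, rfl⟩)
    · exact ⟨c, List.mem_append_left _ hc, rfl⟩
    · exact ⟨c, List.mem_append_right _ hc, rfl⟩

theorem lf_mul {x y : RA Γ} (h : Rp x y) {a : V × Bool} (ha : Lf x a) : Lf (x * y) a := by
  obtain ⟨l, hl, rfl⟩ := lf_iff.1 ha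
  obtain ⟨m, rfl, hm⟩ := exists_wr y
  have h1 := (wr_app_iff hl hm).2 h
  rw [← ev_append]
  exact lf_of_wr (l := l ++ m) (by simpa using h1)

theorem lf_mul' {x y : RA Γ} (h : Rp x y) {a : V × Bool} (ha : Lf (x * y) a) :
    Lf x a ∨ (Lf y a ∧ sup x ⊆ lk Γ a.1) := by
  obtain ⟨l, rfl, hl⟩ := exists_wr x
  obtain ⟨m, rfl, hm⟩ := exists_wr y
  have h1 := (wr_app_iff hl hm).2 h
  rw [← ev_append] at ha
  obtain ⟨p, q, h2, h3⟩ := lf_word h1 ha
  rcases List.append_eq_append_iff.1 h2 with ⟨t, h4, h5⟩ | ⟨t, h4, h5⟩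
  · right
    subst h4 h5
    obtain ⟨h6, h7⟩ := wr_move hm (fun c hc => h3 c (List.mem_append_right _ hc))
    refine ⟨by rw [← h7]; exact lf_of_wr h6, ?_⟩
    intro s hs
    rw [sup_ev hl] at hs
    obtain ⟨c, hc, rfl⟩ := hs
    exact h3 c (List.mem_append_left _ hc)
  · cases t with
    | nil =>
      right
      simp only [List.append_nil, List.nil_append] at h4 h5
      subst h4
      rw [← h5] at hm ⊢
      refine ⟨lf_of_wr hm, ?_⟩
      intro s hs
      rw [sup_ev hl] at hs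
      obtain ⟨c, hc, rfl⟩ := hs
      exact h3 c hc
    | cons b t =>
      left
      simp only [List.cons_append, List.cons.injEq] at h5
      obtain ⟨rfl, h5⟩ := h5
      subst h4
      obtain ⟨h6, h7⟩ := wr_move hl h3
      rw [← h7]
      exact lf_of_wr h6

theorem rt_mul {x y : RA Γ} (h : Rp x y) {a : V × Bool} (ha : Rt y a) : Rt (x * y) a := by
  unfold Rt at ha ⊢
  rw [mul_inv_rev]
  exact lf_mul (rp_inv.1 h) ha

theorem rt_mul' {x y : RA Γ} (h : Rp x y) {a : V × Bool} (ha : Rt (x * y) a) :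
    Rt y a ∨ (Rt x a ∧ sup y ⊆ lk Γ a.1) := by
  unfold Rt at ha ⊢
  rw [mul_inv_rev] at ha
  have := lf_mul' (rp_inv.1 h) ha
  rwa [sup_inv] at this

theorem lf_gl {a b : V × Bool} : Lf (gl a : RA Γ) b ↔ b = a := by
  have h : WR Γ [a] := by simp [WR, wls]
  have h1 : (ev [a] : RA Γ) = gl a := by simp [ev]
  constructor
  · intro hb
    rw [← h1] at hb
    obtain ⟨m, q, h2, -⟩ := lf_word h hb
    cases m with
    | nil =>
      simp only [List.nil_append, List.cons.injEq] at h2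
      exact h2.1.symm
    | cons c m => simp at h2
  · rintro rfl
    rw [← h1]
    exact lf_of_wr h

theorem rt_gl {a b : V × Bool} : Rt (gl a : RA Γ) b ↔ b = a := by
  unfold Rt
  rw [← gl_ivl, lf_gl]
  constructor
  · intro h
    rw [← ivl_ivl b, h, ivl_ivl]
  · rintro rfl; rfl

theorem sup_gl (a : V × Bool) : sup (gl a : RA Γ) = {a.1} := by
  have h : WR Γ [a] := by simp [WR, wls]
  have h1 : (ev [a] : RA Γ) = gl a := by simp [ev]
  ext s
  rw [← h1, sup_ev h]
  simp [eq_comm]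

theorem rp_one (x : RA Γ) : Rp x 1 := by
  rw [rp_len, mul_one, len_one, add_zero]

theorem rp_one' (x : RA Γ) : Rp 1 x := by
  rw [rp_len, one_mul, len_one, zero_add]

/-- decomposition by a left letter -/
theorem lf_dec {x : RA Γ} {a : V × Bool} (h : Lf x a) : ∃ y, x = gl a * y ∧ Rp (gl a) y := by
  obtain ⟨l, h1, rfl⟩ := lf_iff.1 h
  refine ⟨ev l, ev_cons a l, ?_⟩
  have h2 : WR Γ [a] := by simp [WR, wls]
  have h3 : (ev [a] : RA Γ) = gl a := by simp [ev]
  rw [← h3]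
  exact (wr_app_iff h2 (wr_cons.1 h1).1).1 h1

/-- decomposition by a right letter -/
theorem rt_dec {x : RA Γ} {a : V × Bool} (h : Rt x a) : ∃ y, x = y * gl a ∧ Rp y (gl a) := by
  obtain ⟨y, h1, h2⟩ := lf_dec h
  refine ⟨y⁻¹, ?_, ?_⟩
  · rw [← inv_inv x, h1, mul_inv_rev, gl_ivl, inv_inv]
  · rw [rp_inv, inv_inv, ← gl_ivl]
    exact h2

/-! ### gates -/

theorem gate_l (D : Set V) (x : RA Γ) : ∃ p ∈ PP Γ D, ∃ y, x = p * y ∧
    (∀ a, Lf y a → a.1 ∉ D) ∧ Rp p y := by
  have h : ∃ n, ∃ y : RA Γ, len y = n ∧ ∃ p ∈ PP Γ D, x = p * y :=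
    ⟨_, x, rfl, 1, one_mem _, by rw [one_mul]⟩
  obtain ⟨y, h1, p, hp, h2⟩ := Nat.find_spec h
  have h3 : ∀ a, Lf y a → a.1 ∉ D := by
    intro a ha haD
    have h4 := len_lf ha
    have h5 := Nat.find_min' h (m := len ((gl a)⁻¹ * y)) ⟨(gl a)⁻¹ * y, rfl, p * gl a,
      mul_mem hp (gl_mem haD), by rw [h2]; group⟩
    omega
  refine ⟨p, hp, y, h2, h3, ?_⟩
  intro a ha hb
  exact h3 _ hb ((mem_pp.1 hp) (rt_sup (a := a) ha))

theorem gate_r (D : Set V) (x : RA Γ) : ∃ p ∈ PP Γ D, ∃ y, x = y * p ∧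
    (∀ a, Rt y a → a.1 ∉ D) ∧ Rp y p := by
  obtain ⟨p, hp, y, h1, h2, h3⟩ := gate_l D x⁻¹
  refine ⟨p⁻¹, inv_mem hp, y⁻¹, ?_, ?_, ?_⟩
  · rw [← inv_inv x, h1, mul_inv_rev]
  · intro a ha
    rw [rt_inv] at ha
    exact h2 (ivl a) ha
  · rw [rp_inv, inv_inv, inv_inv]
    exact h3

theorem gate_lr (D E : Set V) (x : RA Γ) : ∃ p ∈ PP Γ D, ∃ q ∈ PP Γ E, ∃ z, x = p * z * q ∧
    (∀ a, Lf z a → a.1 ∉ D) ∧ (∀ a, Rt z a → a.1 ∉ E) := by
  have h : ∃ n, ∃ z : RA Γ, len z = n ∧ ∃ p ∈ PP Γ D, ∃ q ∈ PP Γ E, x = p * z * q :=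
    ⟨_, x, rfl, 1, one_mem _, 1, one_mem _, by rw [one_mul, mul_one]⟩
  obtain ⟨z, h1, p, hp, q, hq, h2⟩ := Nat.find_spec h
  refine ⟨p, hp, q, hq, z, h2, ?_, ?_⟩
  · intro a ha haD
    have h4 := len_lf ha
    have h5 := Nat.find_min' h (m := len ((gl a)⁻¹ * z)) ⟨(gl a)⁻¹ * z, rfl, p * gl a,
      mul_mem hp (gl_mem haD), q, hq, by rw [h2]; group⟩
    omega
  · intro a ha haE
    have h4 := len_rt ha
    have h5 := Nat.find_min' h (m := len (z * (gl a)⁻¹)) ⟨z * (gl a)⁻¹, rfl, p, hp, gl a * q,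
      mul_mem (gl_mem haE) hq, by rw [h2]; group⟩
    omega

/-- `PP Γ (st Γ v)` is the product of the cyclic group of `gen v` and `PP Γ (lk Γ v)` -/
theorem st_dec {v : V} {x : RA Γ} (hx : x ∈ PP Γ (st Γ v)) :
    ∃ k : ℤ, ∃ y ∈ PP Γ (lk Γ v), x = gen v ^ k * y := by
  unfold PP at hx
  induction hx using Subgroup.closure_induction with
  | mem y hy =>
    obtain ⟨w, hw, rfl⟩ := hy
    rcases hw with rfl | hw
    · exact ⟨1, 1, one_mem _, by simp⟩
    · exact ⟨0, gen w, gen_mem hw, by simp⟩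
  | one => exact ⟨0, 1, one_mem _, by simp⟩
  | mul y z _ _ hy hz =>
    obtain ⟨k, y', hy', rfl⟩ := hy
    obtain ⟨k', z', hz', rfl⟩ := hz
    refine ⟨k + k', y' * z', mul_mem hy' hz', ?_⟩
    have h1 : Commute (gen v : RA Γ) y' := lk_comm hy'
    have h2 := (h1.zpow_left k').eq
    rw [zpow_add, mul_assoc, ← mul_assoc y', ← h2]
    group
  | inv y _ hy =>
    obtain ⟨k, y', hy', rfl⟩ := hy
    refine ⟨-k, y'⁻¹, inv_mem hy', ?_⟩
    have h1 : Commute (gen v : RA Γ) y' := lk_comm hy'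
    have h2 := (h1.inv_right.zpow_left (-k)).eq
    rw [mul_inv_rev, ← zpow_neg, ← h2]

end

end RaagIso
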